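import Mathlib

/-!
Alternating subsequences of real sequences: the combinatorics of sign changes.
-/

namespace Pool.Agent.Helper80.Sec

/-- `Alt z m`: there are indices `i 0 < i 1 < ... < i (m-1)` at which `z` is nonzero and
its signs alternate strictly. -/
def Alt (z : ℕ → ℝ) (m : ℕ) : Prop :=
  ∃ (e : ℝ) (i : ℕ → ℕ), (e = 1 ∨ e = -1) ∧ (∀ j, j + 1 < m → i j < i (j + 1)) ∧
    ∀ j, j < m → 0 < e * (-1) ^ j * z (i j)

/-- the twist `z_i ↦ (-1)^i z_i` -/
def tw (z : ℕ → ℝ) : ℕ → ℝ := fun i => (-1) ^ i * z i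

theorem neg_one_pow_cases (i : ℕ) : ((-1 : ℝ) ^ i = 1) ∨ ((-1 : ℝ) ^ i = -1) :=
  neg_one_pow_eq_or ℝ i

theorem neg_one_pow_mul_self (i : ℕ) : ((-1 : ℝ) ^ i) * ((-1 : ℝ) ^ i) = 1 := by
  rcases neg_one_pow_cases i with h | h <;> rw [h] <;> norm_num

@[simp] theorem tw_tw (z : ℕ → ℝ) : tw (tw z) = z := by
  funext i
  simp only [tw]
  rw [← mul_assoc, neg_one_pow_mul_self, one_mul]

theorem tw_add (x y : ℕ → ℝ) : tw (x + y) = tw x + tw y := by
  funext i
  simp [tw, mul_add]

theorem tw_smul (c : ℝ) (x : ℕ → ℝ) : tw (c • x) = c • tw x := by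
  funext i
  simp [tw, mul_left_comm]

theorem tw_zero : tw 0 = 0 := by
  funext i
  simp [tw]

theorem tw_eq_zero_iff (z : ℕ → ℝ) (i : ℕ) : tw z i = 0 ↔ z i = 0 := by
  simp [tw]

theorem tw_ne_zero {z : ℕ → ℝ} (h : z ≠ 0) : tw z ≠ 0 := by
  intro h0
  apply h
  funext i
  have := congrFun h0 i
  exact (tw_eq_zero_iff z i).1 this

theorem alt_zero (z : ℕ → ℝ) : Alt z 0 :=
  ⟨1, fun _ => 0, Or.inl rfl, fun j hj => by omega, fun j hj => by omega⟩

theorem Alt.mono {z : ℕ → ℝ} {m m' : ℕ} (h : Alt z m) (hm : m' ≤ m) : Alt z m' := by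
  obtain ⟨e, i, he, hi, hz⟩ := h
  exact ⟨e, i, he, fun j hj => hi j (by omega), fun j hj => hz j (by omega)⟩

theorem Alt.smul {z : ℕ → ℝ} {m : ℕ} (h : Alt z m) {c : ℝ} (hc : c ≠ 0) : Alt (c • z) m := by
  obtain ⟨e, i, he, hi, hz⟩ := h
  rcases lt_or_gt_of_ne hc with hc' | hc'
  · refine ⟨-e, i, ?_, hi, fun j hj => ?_⟩
    · rcases he with h | h <;> rw [h] <;> simp
    · have := hz j hj
      have h2 : -e * (-1) ^ j * (c • z) (i j) = (-c) * (e * (-1) ^ j * z (i j)) := by
        simp only [Pi.smul_apply, smul_eq_mul]; ring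
      rw [h2]
      exact mul_pos (by linarith) this
  · refine ⟨e, i, he, hi, fun j hj => ?_⟩
    have := hz j hj
    have h2 : e * (-1) ^ j * (c • z) (i j) = c * (e * (-1) ^ j * z (i j)) := by
      simp only [Pi.smul_apply, smul_eq_mul]; ring
    rw [h2]
    exact mul_pos hc' this

theorem alt_one {z : ℕ → ℝ} (h : z ≠ 0) : Alt z 1 := by
  have : ∃ i, z i ≠ 0 := by
    by_contra hcon
    push Not at hcon
    exact h (funext hcon)
  obtain ⟨i, hi⟩ := this
  rcases lt_or_gt_of_ne hi with h1 | h1
  · refine ⟨-1, fun _ => i, Or.inr rfl, fun j hj => by omega, fun j hj => ?_⟩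
    have : j = 0 := by omega
    subst this
    simpa using h1
  · refine ⟨1, fun _ => i, Or.inl rfl, fun j hj => by omega, fun j hj => ?_⟩
    have : j = 0 := by omega
    subst this
    simpa using h1

theorem Alt.eq_zero {m : ℕ} {z : ℕ → ℝ} (h : Alt z m) (hz : z = 0) : m = 0 := by
  obtain ⟨e, i, he, hi, hz'⟩ := h
  by_contra hm
  have := hz' 0 (Nat.pos_of_ne_zero hm)
  rw [hz] at this
  simp at this

/-- indices of an alternating sequence are strictly increasing -/
theorem incr_lt {i : ℕ → ℕ} {m : ℕ} (hi : ∀ j, j + 1 < m → i j < i (j + 1)) {j k : ℕ}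
    (hjk : j < k) (hk : k < m) : i j < i k := by
  induction k with
  | zero => omega
  | succ k ih =>
    rcases Nat.lt_or_ge j k with h | h
    · exact lt_trans (ih h (by omega)) (hi k hk)
    · have : j = k := by omega
      subst this
      exact hi j hk

/-- splitting -/
theorem Alt.split {x y : ℕ → ℝ} {m p : ℕ} (h : Alt (x + y) m) (hx : ∀ i, p ≤ i → x i = 0)
    (hy : ∀ i, i < p → y i = 0) : ∃ m1 m2, m ≤ m1 + m2 ∧ Alt x m1 ∧ Alt y m2 := by
  obtain ⟨e, i, he, hi, hz⟩ := h
  -- first index with i j ≥ p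
  by_cases hex : ∃ j, j < m ∧ p ≤ i j
  · classical
    let m1 := Nat.find hex
    have hm1 : m1 < m ∧ p ≤ i m1 := Nat.find_spec hex
    have hlt : ∀ j, j < m1 → i j < p := by
      intro j hj
      have := Nat.find_min hex hj
      push Not at this
      exact this (by omega)
    refine ⟨m1, m - m1, by omega, ⟨e, i, he, fun j hj => hi j (by omega), fun j hj => ?_⟩,
      ⟨e * (-1) ^ m1, fun j => i (j + m1), ?_, fun j hj => ?_, fun j hj => ?_⟩⟩
    · have := hz j (by omega)
      rw [Pi.add_apply, hy _ (hlt j hj), add_zero] at this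
      exact this
    · rcases he with h | h <;> rcases neg_one_pow_cases m1 with h' | h' <;> rw [h, h'] <;> simp
    · have := hi (j + m1) (by omega)
      have h2 : j + m1 + 1 = j + 1 + m1 := by omega
      rwa [h2] at this
    · have := hz (j + m1) (by omega)
      have hge : p ≤ i (j + m1) := by
        rcases Nat.eq_zero_or_pos j with h0 | h0
        · subst h0; simpa using hm1.2
        · exact le_trans hm1.2 (incr_lt hi (by omega) (by omega)).le
      rw [Pi.add_apply, hx _ hge, zero_add] at this
      have h3 : e * (-1) ^ m1 * (-1) ^ j = e * (-1) ^ (j + m1) := by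
        rw [pow_add]; ring
      rw [h3]
      exact this
  · push Not at hex
    refine ⟨m, 0, by omega, ⟨e, i, he, hi, fun j hj => ?_⟩, alt_zero _⟩
    have := hz j hj
    rw [Pi.add_apply, hy _ (hex j hj), add_zero] at this
    exact this

/-- dropping the last coordinate costs at most one -/
theorem Alt.drop {z : ℕ → ℝ} {m c : ℕ} (h : Alt z m) (hz : ∀ i, c < i → z i = 0) :
    Alt (Function.update z c 0) (m - 1) := by
  obtain ⟨e, i, he, hi, hz'⟩ := h
  refine ⟨e, i, he, fun j hj => hi j (by omega), fun j hj => ?_⟩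
  have h1 : i j < i (m - 1) := incr_lt hi (by omega) (by omega)
  have h2 : i (m - 1) ≤ c := by
    by_contra hcon
    push Not at hcon
    have := hz' (m - 1) (by omega)
    rw [hz _ hcon] at this
    simp at this
  rw [Function.update_of_ne (by omega)]
  exact hz' j (by omega)

theorem Alt.keep {z : ℕ → ℝ} {m c : ℕ} (h : Alt z m) (hz : ∀ i, c + 1 < i → z i = 0)
    (hs : 0 < z c * z (c + 1)) : Alt (Function.update z (c + 1) 0) m := by
  obtain ⟨e, i, he, hi, hz'⟩ := h
  rcases Nat.eq_zero_or_pos m with hm | hm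
  · subst hm; exact alt_zero _
  have hle : ∀ j, j < m → i j ≤ c + 1 := by
    intro j hj
    by_contra hcon
    push Not at hcon
    have := hz' j hj
    rw [hz _ hcon] at this
    simp at this
  -- replace
  refine ⟨e, fun j => if i j = c + 1 then c else i j, he, fun j hj => ?_, fun j hj => ?_⟩
  · have h1 := hi j hj
    have h2 := hle (j + 1) hj
    have h3 : i j ≠ c + 1 := by omega
    simp only [h3, if_false]
    by_cases h4 : i (j + 1) = c + 1
    · simp only [h4, if_true]
      -- i j < c : otherwise i j = c, same sign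
      have h5 : i j ≠ c := by
        intro h5
        have ha := hz' j (by omega)
        have hb := hz' (j + 1) hj
        rw [h5] at ha
        rw [h4, pow_succ] at hb
        have hab := mul_pos ha hb
        have he2 : e * e = 1 := by rcases he with h | h <;> rw [h] <;> norm_num
        have : e * (-1) ^ j * z c * (e * ((-1) ^ j * -1) * z (c + 1))
            = -((e * e) * ((-1) ^ j * (-1) ^ j)) * (z c * z (c + 1)) := by ring
        rw [this, he2, neg_one_pow_mul_self] at hab
        linarith
      omega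
    · simp only [h4, if_false]
      exact h1
  · by_cases h4 : i j = c + 1
    · simp only [h4, if_true]
      rw [Function.update_of_ne (by omega)]
      have ha := hz' j hj
      rw [h4] at ha
      -- same sign
      have hab := mul_pos ha hs
      have : e * (-1) ^ j * z (c + 1) * (z c * z (c + 1))
          = (e * (-1) ^ j * z c) * (z (c + 1) * z (c + 1)) := by ring
      rw [this] at hab
      have hsq : 0 ≤ z (c + 1) * z (c + 1) := mul_self_nonneg _
      exact pos_of_mul_pos_of_pos_of_nonneg' hab hsq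
    · simp only [h4, if_false]
      rw [Function.update_of_ne h4]
      exact hz' j hj
where
  pos_of_mul_pos_of_pos_of_nonneg' {a b : ℝ} (h : 0 < a * b) (hb : 0 ≤ b) : 0 < a := by
    by_contra hcon
    push Not at hcon
    have := mul_nonpos_of_nonpos_of_nonneg hcon hb
    linarith

theorem tw_update (z : ℕ → ℝ) (c : ℕ) : tw (Function.update z c 0) = Function.update (tw z) c 0 := by
  funext i
  by_cases h : i = c
  · subst h; simp [tw]
  · simp [tw, Function.update_of_ne h]

/-- The basic inequality: a real vector supported in `[a,b)` and its twist. -/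
theorem alt_add_tw (b : ℕ) : ∀ (a : ℕ) (z : ℕ → ℝ) (m m' : ℕ), (∀ i, (i < a ∨ b ≤ i) → z i = 0) →
    Alt z m → Alt (tw z) m' → m + m' ≤ (b - a) + 1 := by
  induction b using Nat.strong_induction_on with
  | _ b ih =>
  intro a z m m' hz h1 h2
  rcases Nat.eq_zero_or_pos b with hb | hb
  · have hz0 : z = 0 := funext fun i => hz i (Or.inr (by omega))
    have e1 := h1.eq_zero hz0
    have e2 := h2.eq_zero (by rw [hz0, tw_zero])
    omega
  obtain ⟨c, rfl⟩ : ∃ c, b = c + 1 := ⟨b - 1, by omega⟩
  by_cases hc : z c = 0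
  · have := ih c (by omega) a z m m' (fun i hi => by
      rcases hi with h | h
      · exact hz i (Or.inl h)
      · rcases Nat.eq_or_lt_of_le h with h' | h'
        · rw [← h']; exact hc
        · exact hz i (Or.inr h')) h1 h2
    omega
  have hac : a ≤ c := by
    by_contra hcon
    exact hc (hz c (Or.inl (by omega)))
  have hsupp : ∀ i, c < i → z i = 0 := fun i hi => hz i (Or.inr hi)
  have d1 := h1.drop hsupp
  have d2 := h2.drop (c := c) (fun i hi => (tw_eq_zero_iff z i).2 (hsupp i hi))
  rw [← tw_update] at d2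
  have hz' : ∀ i, (i < a ∨ c ≤ i) → Function.update z c 0 i = 0 := by
    intro i hi
    by_cases h : i = c
    · subst h; simp
    · rw [Function.update_of_ne h]
      rcases hi with h' | h'
      · exact hz i (Or.inl h')
      · exact hz i (Or.inr (by omega))
  rcases Nat.eq_or_lt_of_le hac with hac' | hac'
  · -- a = c : z' = 0
    have := ih c (by omega) a _ _ _ hz' d1 d2
    have hz0 : Function.update z c 0 = 0 := funext fun i => by
      rcases Nat.lt_or_ge i c with h | h
      · exact hz' i (Or.inl (by omega))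
      · exact hz' i (Or.inr h)
    have e1 := d1.eq_zero hz0
    have e2 := d2.eq_zero (by rw [hz0, tw_zero])
    omega
  obtain ⟨c', rfl⟩ : ∃ c', c = c' + 1 := ⟨c - 1, by omega⟩
  by_cases hc' : z c' = 0
  · have := ih c' (by omega) a _ _ _ (fun i hi => by
      by_cases h : i = c' + 1
      · subst h; simp
      · rw [Function.update_of_ne h]
        rcases hi with h' | h'
        · exact hz i (Or.inl h')
        · rcases Nat.eq_or_lt_of_le h' with h'' | h''
          · rw [← h'']; exact hc'
          · exact hz i (Or.inr (by omega))) d1 d2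
    omega
  rcases lt_or_gt_of_ne (mul_ne_zero hc' hc) with hs | hs
  · -- opposite signs: the twist has equal signs
    have hs' : 0 < tw z c' * tw z (c' + 1) := by
      have : tw z c' * tw z (c' + 1) = -((-1) ^ c' * (-1) ^ c') * (z c' * z (c' + 1)) := by
        simp only [tw, pow_succ]; ring
      rw [this, neg_one_pow_mul_self]
      linarith
    have k2 := h2.keep (c := c') (fun i hi => (tw_eq_zero_iff z i).2 (hsupp i hi)) hs'
    rw [← tw_update] at k2
    have := ih (c' + 1) (by omega) a _ _ _ hz' d1 k2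
    omega
  · have k1 := h1.keep (c := c') hsupp hs
    have := ih (c' + 1) (by omega) a _ _ _ hz' k1 d2
    omega

theorem Alt.le_of_supp {z : ℕ → ℝ} {a b m : ℕ} (hz : ∀ i, (i < a ∨ b ≤ i) → z i = 0)
    (h : Alt z m) : m ≤ b - a := by
  by_cases h0 : z = 0
  · have := h.eq_zero h0
    omega
  · have := alt_add_tw b a z m 1 hz h (alt_one (tw_ne_zero h0))
    omega

/-- nonnegative bidiagonal maps do not increase the number of alternations -/
theorem Alt.of_bidiag {z z' : ℕ → ℝ} {m : ℕ} (h : Alt z' m)
    (hb : ∀ i, ∃ l u : ℝ, 0 ≤ l ∧ 0 ≤ u ∧ z' i = l * z (i + 1) + u * z i) : Alt z m := by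
  classical
  obtain ⟨e, i, he, hi, hz⟩ := h
  have key : ∀ j, j < m → 0 < e * (-1) ^ j * z (i j) ∨ 0 < e * (-1) ^ j * z (i j + 1) := by
    intro j hj
    by_contra hcon
    push Not at hcon
    obtain ⟨l, u, hl, hu, heq⟩ := hb (i j)
    have := hz j hj
    rw [heq] at this
    have h2 : e * (-1) ^ j * (l * z (i j + 1) + u * z (i j))
        = l * (e * (-1) ^ j * z (i j + 1)) + u * (e * (-1) ^ j * z (i j)) := by ring
    rw [h2] at this
    have h3 := mul_nonpos_of_nonneg_of_nonpos hl hcon.2
    have h4 := mul_nonpos_of_nonneg_of_nonpos hu hcon.1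
    linarith
  refine ⟨e, fun j => if 0 < e * (-1) ^ j * z (i j) then i j else i j + 1, he, ?_, ?_⟩
  · intro j hj
    have hlt := hi j hj
    -- values
    have v1 : 0 < e * (-1) ^ j * z (if 0 < e * (-1) ^ j * z (i j) then i j else i j + 1) := by
      split_ifs with hp
      · exact hp
      · exact (key j (by omega)).resolve_left hp
    have v2 : 0 < e * (-1) ^ (j + 1) *
        z (if 0 < e * (-1) ^ (j + 1) * z (i (j + 1)) then i (j + 1) else i (j + 1) + 1) := by
      split_ifs with hp
      · exact hp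
      · exact (key (j + 1) hj).resolve_left hp
    have hle : (if 0 < e * (-1) ^ j * z (i j) then i j else i j + 1) ≤
        (if 0 < e * (-1) ^ (j + 1) * z (i (j + 1)) then i (j + 1) else i (j + 1) + 1) := by
      split_ifs <;> omega
    refine lt_of_le_of_ne hle ?_
    intro heq
    beta_reduce at heq
    rw [← heq, pow_succ] at v2
    have : e * ((-1) ^ j * -1) * z (if 0 < e * (-1) ^ j * z (i j) then i j else i j + 1)
        = -(e * (-1) ^ j * z (if 0 < e * (-1) ^ j * z (i j) then i j else i j + 1)) := by ring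
    rw [this] at v2
    linarith
  · intro j hj
    simp only
    split_ifs with hp
    · exact hp
    · exact (key j hj).resolve_left hp

/-- kernel of a positive bidiagonal map: full alternation -/
theorem alt_full {z : ℕ → ℝ} {k : ℕ} (hz : ∀ i, k + 2 ≤ i → z i = 0) (h0 : z ≠ 0)
    (hb : ∀ i, i ≤ k → ∃ l u : ℝ, 0 < l ∧ 0 < u ∧ l * z (i + 1) + u * z i = 0) :
    Alt z (k + 2) := by
  have hz0 : z 0 ≠ 0 := by
    intro h
    apply h0
    have hall : ∀ i, z i = 0 := by
      intro i
      induction i with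
      | zero => exact h
      | succ i ih =>
        rcases Nat.lt_or_ge k i with hik | hik
        · exact hz _ (by omega)
        · obtain ⟨l, u, hl, hu, heq⟩ := hb i hik
          rw [ih] at heq
          have : l * z (i + 1) = 0 := by linarith
          exact (mul_eq_zero.1 this).resolve_left hl.ne'
    exact funext hall
  obtain ⟨e, he, hpos⟩ : ∃ e : ℝ, (e = 1 ∨ e = -1) ∧ 0 < e * z 0 := by
    rcases lt_or_gt_of_ne hz0 with h | h
    · exact ⟨-1, Or.inr rfl, by linarith⟩
    · exact ⟨1, Or.inl rfl, by linarith⟩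
  refine ⟨e, id, he, fun j _ => Nat.lt_succ_self j, ?_⟩
  intro j
  induction j with
  | zero => intro _; simpa using hpos
  | succ j ih =>
    intro hj
    have ihj := ih (by omega)
    simp only [id] at ihj ⊢
    obtain ⟨l, u, hl, hu, heq⟩ := hb j (by omega)
    have h1 : l * (e * (-1) ^ (j + 1) * z (j + 1)) = u * (e * (-1) ^ j * z j) := by
      have : l * z (j + 1) = - (u * z j) := by linarith
      have h2 : l * (e * (-1) ^ (j + 1) * z (j + 1)) = -(e * (-1) ^ j) * (l * z (j + 1)) := by
        rw [pow_succ]; ring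
      rw [h2, this]; ring
    have h3 : 0 < l * (e * (-1) ^ (j + 1) * z (j + 1)) := by
      rw [h1]; exact mul_pos hu ihj
    exact (mul_pos_iff_of_pos_left hl).1 h3

/-- a chain of positive bidiagonal maps -/
theorem alt_chain {K n : ℕ} (w : ℕ → ℕ → ℝ)
    (hsupp : ∀ k, K ≤ k → k ≤ n → ∀ i, k < i → w k i = 0)
    (hK : w K = 0)
    (hb : ∀ k, K ≤ k → k < n → ∀ i, i ≤ k → ∃ l u : ℝ, 0 < l ∧ 0 < u ∧
      w k i = l * w (k + 1) (i + 1) + u * w (k + 1) i) :
    ∀ k, K ≤ k → k ≤ n → w k ≠ 0 → Alt (w k) (K + 2) := by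
  intro k hk
  induction k, hk using Nat.le_induction with
  | base => intro _ h; exact absurd hK h
  | succ k hk ih =>
    intro hkn hne
    by_cases h0 : w k = 0
    · have := alt_full (z := w (k + 1)) (k := k) (fun i hi => hsupp (k + 1) (by omega) hkn i (by omega))
        hne (fun i hi => by
          obtain ⟨l, u, hl, hu, heq⟩ := hb k hk (by omega) i hi
          refine ⟨l, u, hl, hu, ?_⟩
          rw [← heq, h0]; rfl)
      exact this.mono (by omega)
    · have h1 := ih (by omega) h0
      refine h1.of_bidiag (fun i => ?_)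
      rcases Nat.lt_or_ge k i with hik | hik
      · refine ⟨0, 0, le_rfl, le_rfl, ?_⟩
        rw [hsupp k hk (by omega) i hik]; simp
      · obtain ⟨l, u, hl, hu, heq⟩ := hb k hk (by omega) i hik
        exact ⟨l, u, hl.le, hu.le, heq⟩

/-- lower semicontinuity -/
theorem Alt.eventually {ι : Type*} {f : Filter ι} {w : ι → ℕ → ℝ} {z : ℕ → ℝ} {m : ℕ}
    (h : Alt z m) (hw : ∀ i, Filter.Tendsto (fun a => w a i) f (nhds (z i))) :
    ∀ᶠ a in f, Alt (w a) m := by
  obtain ⟨e, i, he, hi, hz⟩ := h
  have : ∀ᶠ a in f, ∀ j ∈ Finset.range m, 0 < e * (-1) ^ j * w a (i j) := by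
    rw [Filter.eventually_all_finset]
    intro j hj
    have h1 : Filter.Tendsto (fun a => e * (-1) ^ j * w a (i j)) f
        (nhds (e * (-1) ^ j * z (i j))) := (hw (i j)).const_mul _
    exact h1.eventually (lt_mem_nhds (hz j (Finset.mem_range.1 hj)))
  filter_upwards [this] with a ha
  exact ⟨e, i, he, hi, fun j hj => ha j (Finset.mem_range.2 hj)⟩

end Pool.Agent.Helper80.Sec
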