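import Pool.Agent.Helper80.Sec.Alt

/-!
Differences create sign changes.
-/

namespace Pool.Agent.Helper80.Sec

/-- If `z' i = B i * z i - A (i-1) * z (i-1)` with positive coefficients then `z'` has one more
alternation than `z`. -/
theorem Alt.diff {z z' : ℕ → ℝ} {m : ℕ} (h : Alt z (m + 1)) {N : ℕ} (hz : ∀ i, N ≤ i → z i = 0)
    {A B : ℕ → ℝ} (hA : ∀ i, i < N → 0 < A i) (hB : ∀ i, i < N → 0 < B i)
    (h0 : z' 0 = B 0 * z 0) (hs : ∀ i, z' (i + 1) = B (i + 1) * z (i + 1) - A i * z i) :
    Alt z' (m + 2) := by
  classical
  obtain ⟨e, i, he, hi, hz'⟩ := h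
  -- first index at which the sign `e (-1)^j` is reached
  have hlt : ∀ j, j < m + 1 → i j < N := by
    intro j hj
    by_contra hcon
    have := hz' j hj
    rw [hz _ (not_lt.1 hcon)] at this
    simp at this
  -- lower ends
  set lo : ℕ → ℕ := fun j => if j = 0 then 0 else i (j - 1) + 1 with hlo
  have hex : ∀ j, j < m + 1 → ∃ k, lo j ≤ k ∧ 0 < e * (-1) ^ j * z k := by
    intro j hj
    refine ⟨i j, ?_, hz' j hj⟩
    simp only [hlo]
    split_ifs with h0
    · exact Nat.zero_le _
    · have := hi (j - 1) (by omega)
      rw [show j - 1 + 1 = j by omega] at this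
      exact this
  have hexL : ∃ k, i m + 1 ≤ k ∧ e * (-1) ^ m * z k ≤ 0 := by
    refine ⟨max N (i m + 1), le_max_right _ _, ?_⟩
    rw [hz _ (le_max_left _ _)]; simp
  set k : ℕ → ℕ := fun j => if hj : j < m + 1 then Nat.find (hex j hj) else Nat.find hexL with hk
  have hk1 : ∀ j (hj : j < m + 1), k j = Nat.find (hex j hj) := fun j hj => by
    simp only [hk, hj, dif_pos]
  have hk2 : k (m + 1) = Nat.find hexL := by
    simp only [hk, lt_irrefl, dif_neg, not_false_eq_true]
  have hle : ∀ j, j < m + 1 → k j ≤ i j := by
    intro j hj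
    rw [hk1 j hj]
    refine Nat.find_min' _ ⟨?_, hz' j hj⟩
    simp only [hlo]
    split_ifs with h0
    · exact Nat.zero_le _
    · have := hi (j - 1) (by omega)
      rw [show j - 1 + 1 = j by omega] at this
      exact this
  have hge : ∀ j, j < m + 1 → lo j ≤ k j := fun j hj => by
    rw [hk1 j hj]; exact (Nat.find_spec (hex j hj)).1
  have hpos : ∀ j, j < m + 1 → 0 < e * (-1) ^ j * z (k j) := fun j hj => by
    rw [hk1 j hj]; exact (Nat.find_spec (hex j hj)).2
  have hkN : ∀ j, j < m + 1 → k j < N := fun j hj => lt_of_le_of_lt (hle j hj) (hlt j hj)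
  refine ⟨e, k, he, ?_, ?_⟩
  · intro j hj
    rcases Nat.lt_or_ge (j + 1) (m + 1) with h1 | h1
    · have a := hle j (by omega)
      have b := hge (j + 1) h1
      simp only [hlo] at b
      rw [if_neg (by omega), Nat.add_sub_cancel] at b
      omega
    · have hjm : j = m := by omega
      subst hjm
      rw [hk2]
      have a := hle j (by omega)
      have b := (Nat.find_spec hexL).1
      omega
  · intro j hj
    rcases Nat.lt_or_ge j (m + 1) with h1 | h1
    · have hp := hpos j h1
      rcases Nat.eq_zero_or_pos (k j) with hk0 | hk0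
      · rw [hk0] at hp ⊢
        rw [h0]
        have : e * (-1) ^ j * (B 0 * z 0) = B 0 * (e * (-1) ^ j * z 0) := by ring
        rw [this]
        have := hkN j h1
        exact mul_pos (hB 0 (by omega)) hp
      · obtain ⟨l, hl⟩ : ∃ l, k j = l + 1 := ⟨k j - 1, by omega⟩
        have hlN : l + 1 < N := by rw [← hl]; exact hkN j h1
        have hlow : e * (-1) ^ j * z l ≤ 0 := by
          rcases Nat.lt_or_ge l (lo j) with h2 | h2
          · -- `l = i (j-1)`
            have h3 := hge j h1
            have hj0 : j ≠ 0 := by
              rintro rfl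
              simp only [hlo, if_true] at h2
              omega
            simp only [hlo] at h2 h3
            rw [if_neg hj0] at h2 h3
            have h4 : l = i (j - 1) := by omega
            have h5 := hz' (j - 1) (by omega)
            rw [← h4] at h5
            obtain ⟨j', rfl⟩ : ∃ j', j = j' + 1 := ⟨j - 1, by omega⟩
            rw [Nat.add_sub_cancel] at h5
            rw [pow_succ]
            have : e * ((-1) ^ j' * -1) * z l = -(e * (-1) ^ j' * z l) := by ring
            rw [this]
            linarith
          · by_contra hcon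
            rw [not_le] at hcon
            have := Nat.find_min' (hex j h1) ⟨h2, hcon⟩
            rw [← hk1 j h1] at this
            omega
        rw [hl] at hp ⊢
        rw [hs]
        have e1 : e * (-1) ^ j * (B (l + 1) * z (l + 1) - A l * z l) =
            B (l + 1) * (e * (-1) ^ j * z (l + 1)) - A l * (e * (-1) ^ j * z l) := by ring
        rw [e1]
        have e2 := mul_pos (hB (l + 1) hlN) hp
        have e3 : A l * (e * (-1) ^ j * z l) ≤ 0 :=
          mul_nonpos_of_nonneg_of_nonpos (hA l (by omega)).le hlow
        linarith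
    · have hjm : j = m + 1 := by omega
      subst hjm
      rw [hk2]
      obtain ⟨s1, s2⟩ := Nat.find_spec hexL
      set K := Nat.find hexL with hK
      obtain ⟨l, hl⟩ : ∃ l, K = l + 1 := ⟨K - 1, by omega⟩
      have hlpos : 0 < e * (-1) ^ m * z l := by
        rcases Nat.lt_or_ge l (i m + 1) with h2 | h2
        · have : l = i m := by omega
          rw [this]; exact hz' m (by omega)
        · by_contra hcon
          rw [not_lt] at hcon
          have := Nat.find_min' hexL ⟨h2, hcon⟩
          omega
      have hlN : l < N := by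
        by_contra hcon
        rw [hz l (not_lt.1 hcon)] at hlpos
        simp at hlpos
      rw [hl] at s2 ⊢
      rw [hs, pow_succ]
      have e1 : e * ((-1) ^ m * -1) * (B (l + 1) * z (l + 1) - A l * z l) =
          A l * (e * (-1) ^ m * z l) - B (l + 1) * (e * (-1) ^ m * z (l + 1)) := by ring
      rw [e1]
      have e2 := mul_pos (hA l hlN) hlpos
      have e3 : B (l + 1) * (e * (-1) ^ m * z (l + 1)) ≤ 0 := by
        rcases Nat.lt_or_ge (l + 1) N with h3 | h3
        · exact mul_nonpos_of_nonneg_of_nonpos (hB (l + 1) h3).le s2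
        · rw [hz _ h3]; simp
      linarith

end Pool.Agent.Helper80.Sec
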