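import Pool.Agent.Helper80.Sec.GenSec

/-!
Disjoint preconnected subsets of the real projective line can be put in order.
-/

namespace Pool.Agent.Helper80.Sec

open Set

theorem sep_infty {I : Set (OnePoint ℝ)} (hI : IsPreconnected I)
    (hinf : OnePoint.infty ∈ I) {a b c : ℝ} (ha : (a : OnePoint ℝ) ∉ I)
    (hc : (c : OnePoint ℝ) ∉ I) (hb : (b : OnePoint ℝ) ∈ I) (hab : a < b) (hbc : b < c) :
    False := by
  have h := hI ((fun x : ℝ => (x : OnePoint ℝ)) '' Ioo a c)
    ((fun x : ℝ => (x : OnePoint ℝ)) '' Icc a c)ᶜ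
    (OnePoint.isOpen_image_coe.2 isOpen_Ioo)
    (OnePoint.isOpen_compl_image_coe.2 ⟨isClosed_Icc, isCompact_Icc⟩) ?_ ?_ ?_
  · obtain ⟨_, _, ⟨x, hx, rfl⟩, hx2⟩ := h
    exact hx2 ⟨x, Ioo_subset_Icc_self hx, rfl⟩
  · intro t ht
    by_cases h : t ∈ (fun x : ℝ => (x : OnePoint ℝ)) '' Icc a c
    · left
      obtain ⟨x, hx, rfl⟩ := h
      refine ⟨x, ⟨lt_of_le_of_ne hx.1 ?_, lt_of_le_of_ne hx.2 ?_⟩, rfl⟩
      · rintro rfl; exact ha ht
      · rintro rfl; exact hc ht
    · exact Or.inr h
  · exact ⟨b, hb, ⟨b, ⟨hab, hbc⟩, rfl⟩⟩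
  · exact ⟨OnePoint.infty, hinf, fun ⟨x, _, hx⟩ => OnePoint.coe_ne_infty x hx⟩

theorem ord_real {I : Set (OnePoint ℝ)} (hI : IsPreconnected I)
    (hinf : OnePoint.infty ∉ I) {a b c : ℝ} (ha : (a : OnePoint ℝ) ∈ I)
    (hc : (c : OnePoint ℝ) ∈ I) (hab : a ≤ b) (hbc : b ≤ c) : (b : OnePoint ℝ) ∈ I := by
  have h1 : IsPreconnected ((fun x : ℝ => (x : OnePoint ℝ)) ⁻¹' I) := by
    refine hI.preimage_of_isOpenMap OnePoint.coe_injective OnePoint.isOpenMap_coe ?_
    intro t ht
    induction t using OnePoint.rec with
    | infty => exact absurd ht hinf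
    | coe t => exact ⟨t, rfl⟩
  exact h1.ordConnected.out ha hc ⟨hab, hbc⟩

theorem lt_of_disjoint_real {I J : Set (OnePoint ℝ)} (hI : IsPreconnected I)
    (hJ : IsPreconnected J) (hIinf : OnePoint.infty ∉ I) (hJinf : OnePoint.infty ∉ J)
    (hd : Disjoint I J) {x y a b : ℝ} (hx : (x : OnePoint ℝ) ∈ I) (hy : (y : OnePoint ℝ) ∈ J)
    (ha : (a : OnePoint ℝ) ∈ I) (hb : (b : OnePoint ℝ) ∈ J) (hxy : x < y) : a < b := by
  have hdis : ∀ t : OnePoint ℝ, t ∈ I → t ∈ J → False := fun t h1 h2 =>
    Set.disjoint_left.1 hd h1 h2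
  by_contra hab
  rw [not_lt] at hab
  rcases lt_or_ge b x with h | h
  · exact hdis _ hx (ord_real hJ hJinf hb hy h.le hxy.le)
  · exact hdis _ (ord_real hI hIinf hx ha h hab) hb

variable {m : ℕ}

/-- Ordering of disjoint arcs and compatible representatives. -/
theorem exists_order {I : Fin m → Set (OnePoint ℝ)} (hpre : ∀ j, IsPreconnected (I j))
    (hdis : ∀ i j, i ≠ j → Disjoint (I i) (I j)) (hne : ∀ j, (I j).Nonempty) :
    ∃ (rep : OnePoint ℝ → ℝ × ℝ) (π : Equiv.Perm (Fin m)), (∀ t, IsRep t (rep t)) ∧
      ∀ i j, i < j → ∀ a ∈ I (π i), ∀ b ∈ I (π j), 0 < br (rep b) (rep a) := by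
  classical
  have hd : ∀ i j, i ≠ j → ∀ t : OnePoint ℝ, t ∈ I i → t ∈ I j → False :=
    fun i j hij t h1 h2 => Set.disjoint_left.1 (hdis i j hij) h1 h2
  -- real points
  have hx : ∀ j, ∃ x : ℝ, OnePoint.infty ∉ I j → (x : OnePoint ℝ) ∈ I j := by
    intro j
    by_cases h : OnePoint.infty ∈ I j
    · exact ⟨0, fun h' => absurd h h'⟩
    · obtain ⟨t, ht⟩ := hne j
      induction t using OnePoint.rec with
      | infty => exact absurd ht h
      | coe t => exact ⟨t, fun _ => ht⟩
  choose x hx using hx
  set key : Fin m → WithTop ℝ := fun j => if OnePoint.infty ∈ I j then ⊤ else (x j : WithTop ℝ)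
    with hkey
  set flip : ℝ → Prop := fun s => ∃ j, OnePoint.infty ∈ I j ∧ (s : OnePoint ℝ) ∈ I j ∧
    ∃ j', j' ≠ j ∧ s < x j' with hflip
  set rep : OnePoint ℝ → ℝ × ℝ := fun t =>
    t.elim (1, 0) (fun s => if flip s then (-s, -1) else (s, 1)) with hrep
  have hrepinf : rep OnePoint.infty = (1, 0) := rfl
  have hrepT : ∀ s : ℝ, flip s → rep (s : OnePoint ℝ) = (-s, -1) := by
    intro s hs
    have : rep (s : OnePoint ℝ) = if flip s then (-s, -1) else (s, 1) := rfl
    rw [this, if_pos hs]
  have hrepF : ∀ s : ℝ, ¬ flip s → rep (s : OnePoint ℝ) = (s, 1) := by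
    intro s hs
    have : rep (s : OnePoint ℝ) = if flip s then (-s, -1) else (s, 1) := rfl
    rw [this, if_neg hs]
  refine ⟨rep, Tuple.sort key, ?_, ?_⟩
  · intro t
    induction t using OnePoint.rec with
    | infty => rw [hrepinf]; exact ⟨rfl, one_ne_zero⟩
    | coe t =>
      by_cases h : flip t
      · rw [hrepT t h]
        exact ⟨by norm_num, by ring⟩
      · rw [hrepF t h]
        exact ⟨by norm_num, by ring⟩
  · intro i j hij a ha b hb
    have hmono := Tuple.monotone_sort key hij.le
    simp only [Function.comp] at hmono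
    set A := Tuple.sort key i with hA
    set B := Tuple.sort key j with hB
    have hAB : A ≠ B := fun h => hij.ne ((Tuple.sort key).injective h)
    have hAinf : OnePoint.infty ∉ I A := by
      intro h
      have h1 : key A = ⊤ := by simp [hkey, h]
      rw [h1, top_le_iff] at hmono
      by_cases h2 : OnePoint.infty ∈ I B
      · exact hd A B hAB _ h h2
      · simp [hkey, h2] at hmono
    -- `a` is real
    induction a using OnePoint.rec with
    | infty => exact absurd ha hAinf
    | coe a =>
      have hfa : ¬ flip a := by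
        rintro ⟨k, hk, hak, _⟩
        by_cases hkA : k = A
        · rw [hkA] at hk; exact hAinf hk
        · exact hd k A hkA _ hak ha
      rw [hrepF a hfa]
      by_cases hBinf : OnePoint.infty ∈ I B
      · induction b using OnePoint.rec with
        | infty => rw [hrepinf]; norm_num [br]
        | coe b =>
          have hne' : b ≠ a := by
            rintro rfl; exact hd A B hAB _ ha hb
          have haB : (a : OnePoint ℝ) ∉ I B := fun h => hd A B hAB _ ha h
          by_cases hfb : flip b
          · rw [hrepT b hfb]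
            have hba : b < a := by
              by_contra hge
              rw [not_lt] at hge
              have hlt : a < b := lt_of_le_of_ne hge (Ne.symm hne')
              obtain ⟨k, hk, hbk, k', hkk', hbk'⟩ := hfb
              have hkB : k = B := by
                by_contra hkB
                exact hd k B hkB _ hk hBinf
              subst hkB
              have hk'inf : OnePoint.infty ∉ I k' := fun h => hd k' B hkk' _ h hBinf
              refine sep_infty (hpre B) hBinf haB (c := x k') ?_ hb hlt hbk'
              intro h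
              exact hd k' B hkk' _ (hx k' hk'inf) h
            simp only [br]
            linarith
          · rw [hrepF b hfb]
            have hab : a < b := by
              by_contra hge
              rw [not_lt] at hge
              have hlt : b < a := lt_of_le_of_ne hge hne'
              have hxA : x A ≤ b := by
                by_contra hh
                rw [not_le] at hh
                exact hfb ⟨B, hBinf, hb, A, hAB, hh⟩
              have hxA' : (x A : OnePoint ℝ) ∉ I B := fun h => hd A B hAB _ (hx A hAinf) h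
              have hxb : x A ≠ b := by
                intro h; rw [h] at hxA'; exact hxA' hb
              exact sep_infty (hpre B) hBinf hxA' haB hb (lt_of_le_of_ne hxA hxb) hlt
            simp only [br]
            linarith
      · induction b using OnePoint.rec with
        | infty => exact absurd hb hBinf
        | coe b =>
          have hfb : ¬ flip b := by
            rintro ⟨k, hk, hak, _⟩
            by_cases hkB : k = B
            · rw [hkB] at hk; exact hBinf hk
            · exact hd k B hkB _ hak hb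
          rw [hrepF b hfb]
          have hk1 : key A = (x A : WithTop ℝ) := by simp [hkey, hAinf]
          have hk2 : key B = (x B : WithTop ℝ) := by simp [hkey, hBinf]
          rw [hk1, hk2, WithTop.coe_le_coe] at hmono
          have hxx : x A < x B := by
            refine lt_of_le_of_ne hmono ?_
            intro h
            refine hd A B hAB _ (hx A hAinf) ?_
            rw [h]; exact hx B hBinf
          have hab := lt_of_disjoint_real (hpre A) (hpre B) hAinf hBinf (hdis A B hAB)
            (hx A hAinf) (hx B hBinf) ha hb hxx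
          simp only [br]
          linarith

theorem fin4_a : ∀ i j : Fin 4, i < j → i + 1 ≠ 0 := by decide

theorem fin4_b : ∀ i j : Fin 4, i < j → j + 1 ≠ 0 → i + 1 < j + 1 := by decide

theorem fin4_c : ∀ i : Fin 4, i + 1 ≠ 0 → 0 < i + 1 := by decide

/-- cyclic shift of the ordering -/
theorem shift_order {I : Fin 4 → Set (OnePoint ℝ)}
    (hdis : ∀ i j, i ≠ j → Disjoint (I i) (I j))
    {rep : OnePoint ℝ → ℝ × ℝ} {π : Equiv.Perm (Fin 4)} (hrep : ∀ t, IsRep t (rep t))
    (h : ∀ i j, i < j → ∀ a ∈ I (π i), ∀ b ∈ I (π j), 0 < br (rep b) (rep a)) :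
    ∃ rep' : OnePoint ℝ → ℝ × ℝ, (∀ t, IsRep t (rep' t)) ∧
      ∀ i j, i < j → ∀ a ∈ I (π (i + 1)), ∀ b ∈ I (π (j + 1)), 0 < br (rep' b) (rep' a) := by
  classical
  have hd : ∀ i j, i ≠ j → ∀ t : OnePoint ℝ, t ∈ I i → t ∈ I j → False :=
    fun i j hij t h1 h2 => Set.disjoint_left.1 (hdis i j hij) h1 h2
  refine ⟨fun t => if t ∈ I (π 0) then -rep t else rep t, ?_, ?_⟩
  · intro t
    by_cases ht : t ∈ I (π 0)
    · simp only [ht, if_true]
      have := hrep t
      induction t using OnePoint.rec with
      | infty =>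
        have h' : (rep OnePoint.infty).2 = 0 ∧ (rep OnePoint.infty).1 ≠ 0 := this
        refine ⟨?_, ?_⟩
        · simp [h'.1]
        · simpa using h'.2
      | coe t =>
        have h' : (rep t).2 ≠ 0 ∧ (rep t).1 = t * (rep t).2 := this
        refine ⟨?_, ?_⟩
        · simpa using h'.1
        · simp [h'.2]
    · simp only [ht, if_false]
      exact hrep t
  · intro i j hij a ha b hb
    have hne : ∀ k : Fin 4, k ≠ 0 → ∀ t ∈ I (π k), t ∉ I (π 0) := by
      intro k hk t ht h0
      exact hd (π k) (π 0) (fun h => hk (π.injective h)) t ht h0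
    have hi0 : i + 1 ≠ 0 := fin4_a i j hij
    have ha' := hne _ hi0 a ha
    simp only [ha', if_false]
    by_cases hj : j + 1 = 0
    · rw [hj] at hb
      simp only [hb, if_true]
      have h1 := h 0 (i + 1) (fin4_c i hi0) b hb a ha
      have h2 : br (-rep b) (rep a) = br (rep a) (rep b) := by
        simp only [br, Prod.fst_neg, Prod.snd_neg]; ring
      rw [h2]; exact h1
    · have hb' := hne _ hj b hb
      simp only [hb', if_false]
      exact h (i + 1) (j + 1) (fin4_b i j hij hj) a ha b hb

end Pool.Agent.Helper80.Sec
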