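import Pool.Agent.Helper80.Sec.Swap

/-!
Subspaces meeting the two pairs of opposite subspaces of a quadruple in complementary dimensions.
-/

namespace Pool.Agent.Helper80.Sec

open Module

namespace Quad

variable {V : Type*} [AddCommGroup V] [Module ℂ V] {Q : Quad V}

/-- the pairs with both components in `M` -/
noncomputable def PM (Q : Quad V) (M : Submodule ℂ V) : Submodule ℂ ↥Q.PW :=
  (M.comap (Q.U1.subtype.comp ((LinearMap.fst ℂ _ _).comp Q.PW.subtype))) ⊓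
  (M.comap (Q.U3.subtype.comp ((LinearMap.snd ℂ _ _).comp Q.PW.subtype)))

theorem mem_PM {M : Submodule ℂ V} {w : ↥Q.PW} : w ∈ Q.PM M ↔
    ((w : Q.U1 × Q.U3).1 : V) ∈ M ∧ ((w : Q.U1 × Q.U3).2 : V) ∈ M := Iff.rfl

theorem map_mG_le (M : Submodule ℂ V) : (Q.PM M).map Q.mG ≤ M.map Q.U4.mkQ := by
  rintro _ ⟨w, hw, rfl⟩
  rw [mG_apply]
  exact Submodule.mem_map_of_mem (M.add_mem hw.1 (M.smul_mem _ hw.2))

variable [FiniteDimensional ℂ V]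

omit [FiniteDimensional ℂ V] in
theorem finrank_PM {M : Submodule ℂ V} (hM : M ≤ (M ⊓ Q.U1) ⊔ (M ⊓ Q.U3)) :
    finrank ℂ ↥(Q.PM M) = finrank ℂ ↥(M ⊓ Q.U2) := by
  let f : ↥(Q.PM M) →ₗ[ℂ] V :=
    (Q.U1.subtype.coprod Q.U3.subtype).comp (Q.PW.subtype.comp (Q.PM M).subtype)
  have hf : ∀ w : ↥(Q.PM M), f w = (((w : ↥Q.PW) : Q.U1 × Q.U3).1 : V) +
      (((w : ↥Q.PW) : Q.U1 × Q.U3).2 : V) := fun w => by simp [f]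
  have hinj : Function.Injective f := by
    intro a b hab
    rw [hf, hf] at hab
    have h0 : (((a : ↥Q.PW) : Q.U1 × Q.U3).1 : V) - (((b : ↥Q.PW) : Q.U1 × Q.U3).1 : V) =
        (((b : ↥Q.PW) : Q.U1 × Q.U3).2 : V) - (((a : ↥Q.PW) : Q.U1 × Q.U3).2 : V) := by
      rw [sub_eq_sub_iff_add_eq_add, hab, add_comm]
    have h1 : (((a : ↥Q.PW) : Q.U1 × Q.U3).1 : V) - (((b : ↥Q.PW) : Q.U1 × Q.U3).1 : V) = 0 := by
      apply Q.U1_inf_U3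
        (Q.U1.sub_mem ((a : ↥Q.PW) : Q.U1 × Q.U3).1.2 ((b : ↥Q.PW) : Q.U1 × Q.U3).1.2)
      rw [h0]
      exact Q.U3.sub_mem ((b : ↥Q.PW) : Q.U1 × Q.U3).2.2 ((a : ↥Q.PW) : Q.U1 × Q.U3).2.2
    have h2 : (((b : ↥Q.PW) : Q.U1 × Q.U3).2 : V) - (((a : ↥Q.PW) : Q.U1 × Q.U3).2 : V) = 0 := by
      rw [← h0, h1]
    exact Subtype.ext (Subtype.ext (Prod.ext (Subtype.ext (sub_eq_zero.1 h1))
      (Subtype.ext (sub_eq_zero.1 h2).symm)))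
  have hr : LinearMap.range f = M ⊓ Q.U2 := by
    apply le_antisymm
    · rintro _ ⟨w, rfl⟩
      rw [hf]
      exact ⟨M.add_mem w.2.1 w.2.2, Q.mem_PW.1 (w : ↥Q.PW).2⟩
    · rintro v ⟨hv, hv2⟩
      obtain ⟨x, hx, y, hy, hxy⟩ := Submodule.mem_sup.1 (hM hv)
      have hm : ((⟨x, hx.2⟩, ⟨y, hy.2⟩) : Q.U1 × Q.U3) ∈ Q.PW := by
        rw [mem_PW]
        have : x + y ∈ Q.U2 := by rw [hxy]; exact hv2
        exact this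
      refine ⟨⟨⟨(⟨x, hx.2⟩, ⟨y, hy.2⟩), hm⟩, ⟨hx.1, hy.1⟩⟩, ?_⟩
      rw [hf]
      exact hxy
  rw [← hr, LinearMap.finrank_range_of_inj hinj]

omit [FiniteDimensional ℂ V] in
theorem finrank_map_mG (M : Submodule ℂ V) :
    finrank ℂ ↥((Q.PM M).map Q.mG) = finrank ℂ ↥(Q.PM M) :=
  (LinearEquiv.finrank_eq (Submodule.equivMapOfInjective Q.mG Q.mG_injective (Q.PM M))).symm

theorem finrank_map_mkQ (M : Submodule ℂ V) :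
    finrank ℂ ↥(M.map Q.U4.mkQ) + finrank ℂ ↥(M ⊓ Q.U4) = finrank ℂ M := by
  have h := finrank_map_add_inf Q.U4.mkQ M
  rwa [Submodule.ker_mkQ] at h

/-- the basic inequality -/
theorem L1 {M : Submodule ℂ V} (hM : M ≤ (M ⊓ Q.U1) ⊔ (M ⊓ Q.U3)) :
    finrank ℂ ↥(M ⊓ Q.U2) + finrank ℂ ↥(M ⊓ Q.U4) ≤ finrank ℂ M := by
  have h1 := Submodule.finrank_mono (map_mG_le (Q := Q) M)
  rw [finrank_map_mG, finrank_PM hM] at h1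
  have h2 := finrank_map_mkQ (Q := Q) M
  omega

/-- the dimensions of the intersections with opposite subspaces are complementary -/
structure Bal (Q : Quad V) (H : Submodule ℂ V) : Prop where
  sup13 : H ≤ (H ⊓ Q.U1) ⊔ (H ⊓ Q.U3)
  sum24 : finrank ℂ ↥(H ⊓ Q.U2) + finrank ℂ ↥(H ⊓ Q.U4) = finrank ℂ H

theorem bal_of {H : Submodule ℂ V} {h s1 s2 s3 s4 : ℕ} (h13 : s1 + s3 = h) (h24 : s2 + s4 = h)
    (hH : finrank ℂ H = h) (k1 : s1 ≤ finrank ℂ ↥(H ⊓ Q.U1)) (k2 : s2 ≤ finrank ℂ ↥(H ⊓ Q.U2))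
    (k3 : s3 ≤ finrank ℂ ↥(H ⊓ Q.U3)) (k4 : s4 ≤ finrank ℂ ↥(H ⊓ Q.U4)) :
    Q.Bal H ∧ finrank ℂ ↥(H ⊓ Q.U1) = s1 ∧ finrank ℂ ↥(H ⊓ Q.U2) = s2 ∧
      finrank ℂ ↥(H ⊓ Q.U3) = s3 ∧ finrank ℂ ↥(H ⊓ Q.U4) = s4 := by
  have i13 : (H ⊓ Q.U1) ⊓ (H ⊓ Q.U3) = ⊥ := by
    rw [eq_bot_iff]
    rintro v ⟨hv1, hv3⟩
    exact (Submodule.mem_bot ℂ).2 (Q.U1_inf_U3 hv1.2 hv3.2)
  have h1 := Submodule.finrank_sup_add_finrank_inf_eq (H ⊓ Q.U1) (H ⊓ Q.U3)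
  rw [i13, finrank_bot, add_zero] at h1
  have h2 : (H ⊓ Q.U1) ⊔ (H ⊓ Q.U3) ≤ H := sup_le inf_le_left inf_le_left
  have h3 := Submodule.finrank_mono h2
  have h4 : (H ⊓ Q.U1) ⊔ (H ⊓ Q.U3) = H := Submodule.eq_of_le_of_finrank_eq h2 (by omega)
  have h5 := L1 (Q := Q) h4.ge
  exact ⟨⟨h4.ge, by omega⟩, by omega, by omega, by omega, by omega⟩

omit [FiniteDimensional ℂ V] in
theorem Bal.swap {H : Submodule ℂ V} (B : Q.Bal H) : Q.swap.Bal H :=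
  ⟨B.sup13, (add_comm _ _).trans B.sum24⟩

variable {H : Submodule ℂ V} (B : Q.Bal H) (D : Q.Dims)

include B in
theorem Bal.map_mG_eq : (Q.PM H).map Q.mG = H.map Q.U4.mkQ := by
  apply Submodule.eq_of_le_of_finrank_eq (map_mG_le H)
  have h1 := finrank_map_mkQ (Q := Q) H
  have h2 := B.sum24
  rw [finrank_map_mG, finrank_PM B.sup13]
  omega

include B in
theorem Bal.inv (w : ↥Q.PW) (hw : w ∈ Q.PM H) : opS D w ∈ Q.PM H := by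
  have h1 : Q.mG (opS D w) ∈ H.map Q.U4.mkQ := by
    rw [mG_opS, mB_apply]
    exact Submodule.mem_map_of_mem hw.2
  rw [← B.map_mG_eq] at h1
  obtain ⟨w', hw', e⟩ := Submodule.mem_map.1 h1
  rw [← Q.mG_injective e]
  exact hw'

include B in
theorem Bal.iSup_eq : Q.PM H = ⨆ σ : ℂ, Q.PM H ⊓ (opS D).eigenspace σ :=
  Submodule.eq_iSup_inf_genEigenspace 1 (B.inv D) (iSup_eig_opS D)

include B D in
theorem Bal.U2_le {M : Submodule ℂ V} (h12 : H ⊓ (Q.U1 ⊓ Q.U2) ≤ M)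
    (h32 : H ⊓ (Q.U3 ⊓ Q.U2) ≤ M)
    (hE : ∀ (μ : ℂ) (x y : V), μ ≠ 0 → x ∈ H → y ∈ H → x ∈ Q.U1 → y ∈ Q.U3 → x + y ∈ Q.U2 →
      x + μ • y ∈ Q.U4 → (x ≠ 0 ∨ y ≠ 0) → x ∈ M ∧ y ∈ M) : H ⊓ Q.U2 ≤ M := by
  have hle : Q.PM H ≤ Q.PM M := by
    rw [B.iSup_eq D]
    refine iSup_le fun σ => ?_
    rintro w ⟨hw', hwσ'⟩
    have hwσ : w ∈ (opS D).eigenspace σ := hwσ'
    have hw : w ∈ Q.PM H := hw'
    by_cases hw0 : w = 0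
    · rw [hw0]; exact Submodule.zero_mem _
    rw [Module.End.mem_eigenspace_iff, opS_eig] at hwσ
    have x1 := (w : Q.U1 × Q.U3).1.2
    have y1 := (w : Q.U1 × Q.U3).2.2
    have m1 := Q.mem_PW.1 w.2
    rw [mem_PM] at hw ⊢
    by_cases hσ : σ = 0
    · subst hσ
      simp only [mul_zero, sub_zero, one_smul, zero_smul] at hwσ
      have hy0 := Q.G4 x1 hwσ y1 m1
      rw [hy0, add_zero] at m1
      exact ⟨h12 ⟨hw.1, x1, m1⟩, by rw [hy0]; exact M.zero_mem⟩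
    by_cases hσ2 : 1 - Complex.I * σ = 0
    · rw [hσ2, zero_smul, zero_sub] at hwσ
      have hx4 : ((w : Q.U1 × Q.U3).1 : V) ∈ Q.U4 := by
        have := Q.U4.smul_mem (-σ⁻¹) hwσ
        rwa [smul_neg, neg_smul, neg_neg, smul_smul, inv_mul_cancel₀ hσ, one_smul] at this
      have hx0 := Q.G2 x1 hx4 y1 m1
      rw [hx0, zero_add] at m1
      exact ⟨by rw [hx0]; exact M.zero_mem, h32 ⟨hw.2, y1, m1⟩⟩
    · rw [eig_iff hσ] at hwσ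
      have hμ0 : Complex.I - σ⁻¹ ≠ 0 := by
        intro h
        apply hσ2
        have h2 : σ⁻¹ = Complex.I := (sub_eq_zero.1 h).symm
        rw [← h2, inv_mul_cancel₀ hσ, sub_self]
      refine hE _ _ _ hμ0 hw.1 hw.2 x1 y1 m1 hwσ ?_
      by_contra hcon
      push Not at hcon
      exact hw0 (pw_eq_zero hcon.1 hcon.2)
  rintro v ⟨hv, hv2⟩
  obtain ⟨x, hx, y, hy, hxy⟩ := Submodule.mem_sup.1 (B.sup13 hv)
  have hm : ((⟨x, hx.2⟩, ⟨y, hy.2⟩) : Q.U1 × Q.U3) ∈ Q.PW := by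
    rw [mem_PW]
    have : x + y ∈ Q.U2 := by rw [hxy]; exact hv2
    exact this
  have h1 : (⟨(⟨x, hx.2⟩, ⟨y, hy.2⟩), hm⟩ : ↥Q.PW) ∈ Q.PM H := ⟨hx.1, hy.1⟩
  have h2 := hle h1
  rw [← hxy]
  exact M.add_mem h2.1 h2.2

include B D in
theorem Bal.U4_le {M : Submodule ℂ V} (h14 : H ⊓ (Q.U1 ⊓ Q.U4) ≤ M)
    (h34 : H ⊓ (Q.U3 ⊓ Q.U4) ≤ M)
    (hE : ∀ (μ : ℂ) (x y : V), μ ≠ 0 → x ∈ H → y ∈ H → x ∈ Q.U1 → y ∈ Q.U3 → x + y ∈ Q.U2 →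
      x + μ • y ∈ Q.U4 → (x ≠ 0 ∨ y ≠ 0) → x ∈ M ∧ y ∈ M) : H ⊓ Q.U4 ≤ M := by
  refine Bal.U2_le (Q := Q.swap) B.swap D.swap h14 h34 ?_
  intro μ x y hμ hxH hyH hx hy h4 h2 hne
  have h4' : x + y ∈ Q.U4 := h4
  have h2' : x + μ • y ∈ Q.U2 := h2
  have h3 := hE μ⁻¹ x (μ • y) (inv_ne_zero hμ) hxH (H.smul_mem _ hyH) hx (Q.U3.smul_mem _ hy) h2'
    (by rwa [smul_smul, inv_mul_cancel₀ hμ, one_smul])
    (hne.imp id (fun h => smul_ne_zero hμ h))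
  refine ⟨h3.1, ?_⟩
  have := M.smul_mem μ⁻¹ h3.2
  rwa [smul_smul, inv_mul_cancel₀ hμ, one_smul] at this

include B D in
/-- a subspace of `H` which contains all the pieces is `H` -/
theorem Bal.eq_of {M : Submodule ℂ V} (hM : M ≤ (M ⊓ Q.U1) ⊔ (M ⊓ Q.U3)) (hMH : M ≤ H)
    (h12 : H ⊓ (Q.U1 ⊓ Q.U2) ≤ M) (h32 : H ⊓ (Q.U3 ⊓ Q.U2) ≤ M)
    (h14 : H ⊓ (Q.U1 ⊓ Q.U4) ≤ M) (h34 : H ⊓ (Q.U3 ⊓ Q.U4) ≤ M)
    (hE : ∀ (μ : ℂ) (x y : V), μ ≠ 0 → x ∈ H → y ∈ H → x ∈ Q.U1 → y ∈ Q.U3 → x + y ∈ Q.U2 →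
      x + μ • y ∈ Q.U4 → (x ≠ 0 ∨ y ≠ 0) → x ∈ M ∧ y ∈ M) : M = H := by
  have h2 : H ⊓ Q.U2 ≤ M ⊓ Q.U2 := le_inf (B.U2_le D h12 h32 hE) inf_le_right
  have h4 : H ⊓ Q.U4 ≤ M ⊓ Q.U4 := le_inf (B.U4_le D h14 h34 hE) inf_le_right
  have k2 := Submodule.finrank_mono h2
  have k4 := Submodule.finrank_mono h4
  have k := L1 (Q := Q) hM
  have k' := B.sum24
  have k3 := Submodule.finrank_mono hMH
  exact Submodule.eq_of_le_of_finrank_eq hMH (by omega)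

end Quad

end Pool.Agent.Helper80.Sec
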