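import Pool.Agent.Helper80.Sec.Bal

/-!
Dimensions of the pieces of a balanced subspace.
-/

namespace Pool.Agent.Helper80.Sec

open Module

namespace Quad

variable {V : Type*} [AddCommGroup V] [Module ℂ V] {Q : Quad V} [FiniteDimensional ℂ V]
variable (D : Q.Dims)

include D

theorem span_pk_le (S : Finset Q.Lam) {τ : ℂ} (hτ : ∀ μ : Q.Lam, (Complex.I - (μ : ℂ))⁻¹ ≠ τ) :
    Submodule.span ℂ (Q.pk '' (S : Set Q.Lam)) ≤ ⨆ (σ : ℂ) (_ : σ ≠ τ), (opS D).eigenspace σ := by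
  rw [Submodule.span_le]
  rintro _ ⟨μ, _, rfl⟩
  exact (le_iSup₂ (f := fun (σ : ℂ) (_ : σ ≠ τ) => (opS D).eigenspace σ) _ (hτ μ)) (pk_eig D μ).1

omit D [FiniteDimensional ℂ V] in
theorem sig_ne_zero (μ : Q.Lam) : (Complex.I - (μ : ℂ))⁻¹ ≠ 0 := inv_ne_zero (Lam_ne_I μ)

omit D [FiniteDimensional ℂ V] in
theorem sig_ne_I (μ : Q.Lam) : (Complex.I - (μ : ℂ))⁻¹ ≠ -Complex.I := by
  intro h
  apply μ.2.1
  have h3 : Complex.I - (μ : ℂ) = Complex.I := by
    rw [← inv_inv (Complex.I - (μ : ℂ)), h, inv_neg, Complex.inv_I, neg_neg]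
  calc (μ : ℂ) = Complex.I - (Complex.I - μ) := by ring
    _ = 0 := by rw [h3]; ring

omit D [FiniteDimensional ℂ V] in
/-- vectors of `XS S` come from pairs -/
theorem exists_pair_X {S : Finset Q.Lam} {x : V} (hx : x ∈ XS S) :
    ∃ w ∈ Submodule.span ℂ (Q.pk '' (S : Set Q.Lam)), ((w : Q.U1 × Q.U3).1 : V) = x := by
  have h : XS S = (Submodule.span ℂ (Q.pk '' (S : Set Q.Lam))).map
      (Q.U1.subtype.comp ((LinearMap.fst ℂ _ _).comp Q.PW.subtype)) := by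
    rw [Submodule.map_span, ← Set.image_comp]
    rfl
  rw [h] at hx
  exact hx

omit D [FiniteDimensional ℂ V] in
theorem exists_pair_Y {S : Finset Q.Lam} {y : V} (hy : y ∈ YS S) :
    ∃ w ∈ Submodule.span ℂ (Q.pk '' (S : Set Q.Lam)), ((w : Q.U1 × Q.U3).2 : V) = y := by
  have h : YS S = (Submodule.span ℂ (Q.pk '' (S : Set Q.Lam))).map
      (Q.U3.subtype.comp ((LinearMap.snd ℂ _ _).comp Q.PW.subtype)) := by
    rw [Submodule.map_span, ← Set.image_comp]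
    rfl
  rw [h] at hy
  exact hy

theorem indep1 {S : Finset Q.Lam} {x a b : V} (hx : x ∈ XS S) (ha : a ∈ Q.U1 ⊓ Q.U2)
    (hb : b ∈ Q.U1 ⊓ Q.U4) (h : x + a + b = 0) : x = 0 ∧ a = 0 ∧ b = 0 := by
  obtain ⟨w, hw, rfl⟩ := exists_pair_X hx
  have m := Q.mem_PW.1 w.2
  have hb0 : b = 0 := by
    have h1 := Q.G2 (x := -b) (y := ((w : Q.U1 × Q.U3).2 : V)) (Q.U1.neg_mem hb.1)
      (Q.U4.neg_mem hb.2) (w : Q.U1 × Q.U3).2.2 (by
        have : -b + ((w : Q.U1 × Q.U3).2 : V) =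
            (((w : Q.U1 × Q.U3).1 : V) + ((w : Q.U1 × Q.U3).2 : V)) + a := by
          rw [neg_eq_of_add_eq_zero_left h]; abel
        rw [this]
        exact Q.U2.add_mem m ha.2)
    exact neg_eq_zero.1 h1
  rw [hb0, add_zero] at h
  have hm0 : ((⟨a, ha.1⟩, 0) : Q.U1 × Q.U3) ∈ Q.PW := by
    rw [mem_PW]; simpa using ha.2
  set w0 : ↥Q.PW := ⟨(⟨a, ha.1⟩, 0), hm0⟩ with hw0
  have e0 : w0 ∈ (opS D).eigenspace 0 := by
    rw [Module.End.mem_eigenspace_iff, opS_eig]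
    simp [hw0]
  have hI : (1 : ℂ) - Complex.I * -Complex.I = 0 := by
    rw [mul_neg, Complex.I_mul_I]; ring
  have e1 : w + w0 ∈ (opS D).eigenspace (-Complex.I) := by
    rw [Module.End.mem_eigenspace_iff, opS_eig, hI, zero_smul]
    have : (((w + w0 : ↥Q.PW) : Q.U1 × Q.U3).1 : V) = 0 := h
    rw [this]; simp
  have hne : (0 : ℂ) ≠ -Complex.I := fun h => Complex.I_ne_zero (neg_eq_zero.1 h.symm)
  have e2 : w + w0 ∈ ⨆ (σ : ℂ) (_ : σ ≠ -Complex.I), (opS D).eigenspace σ :=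
    Submodule.add_mem _ (span_pk_le D S sig_ne_I hw)
      ((le_iSup₂ (f := fun (σ : ℂ) (_ : σ ≠ -Complex.I) => (opS D).eigenspace σ) _ hne) e0)
  have e3 : w + w0 = 0 := by
    have := ((opS D).eigenspaces_iSupIndep (-Complex.I)).le_bot ⟨e1, e2⟩
    exact (Submodule.mem_bot ℂ).1 this
  have e4 : w = 0 := by
    have k1 : w ∈ (opS D).eigenspace 0 := by
      rw [eq_neg_of_add_eq_zero_left e3]
      exact Submodule.neg_mem _ e0
    have := ((opS D).eigenspaces_iSupIndep 0).le_bot ⟨k1, span_pk_le D S sig_ne_zero hw⟩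
    exact (Submodule.mem_bot ℂ).1 this
  subst e4
  have hz : (((0 : ↥Q.PW) : Q.U1 × Q.U3).1 : V) = 0 := rfl
  rw [hz, zero_add] at h
  exact ⟨hz, h, hb0⟩

theorem indep3 {S : Finset Q.Lam} {y a b : V} (hy : y ∈ YS S) (ha : a ∈ Q.U3 ⊓ Q.U2)
    (hb : b ∈ Q.U3 ⊓ Q.U4) (h : y + a + b = 0) : y = 0 ∧ a = 0 ∧ b = 0 := by
  obtain ⟨w, hw, rfl⟩ := exists_pair_Y hy
  have m := Q.mem_PW.1 w.2
  have hb0 : b = 0 := by
    have h1 := Q.G4 (x := ((w : Q.U1 × Q.U3).1 : V)) (y := -b) (w : Q.U1 × Q.U3).1.2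
      (Q.U4.neg_mem hb.2) (Q.U3.neg_mem hb.1) (by
        have : ((w : Q.U1 × Q.U3).1 : V) + -b =
            (((w : Q.U1 × Q.U3).1 : V) + ((w : Q.U1 × Q.U3).2 : V)) + a := by
          rw [neg_eq_of_add_eq_zero_left h]; abel
        rw [this]
        exact Q.U2.add_mem m ha.2)
    exact neg_eq_zero.1 h1
  rw [hb0, add_zero] at h
  have hm0 : ((0, ⟨a, ha.1⟩) : Q.U1 × Q.U3) ∈ Q.PW := by
    rw [mem_PW]; simpa using ha.2
  set w0 : ↥Q.PW := ⟨(0, ⟨a, ha.1⟩), hm0⟩ with hw0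
  have hI : (1 : ℂ) - Complex.I * -Complex.I = 0 := by
    rw [mul_neg, Complex.I_mul_I]; ring
  have e0 : w0 ∈ (opS D).eigenspace (-Complex.I) := by
    rw [Module.End.mem_eigenspace_iff, opS_eig, hI]
    simp [hw0]
  have e1 : w + w0 ∈ (opS D).eigenspace 0 := by
    rw [Module.End.mem_eigenspace_iff, opS_eig]
    have : (((w + w0 : ↥Q.PW) : Q.U1 × Q.U3).2 : V) = 0 := h
    rw [this]; simp
  have hne : -Complex.I ≠ (0 : ℂ) := fun h => Complex.I_ne_zero (neg_eq_zero.1 h)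
  have e2 : w + w0 ∈ ⨆ (σ : ℂ) (_ : σ ≠ 0), (opS D).eigenspace σ :=
    Submodule.add_mem _ (span_pk_le D S sig_ne_zero hw)
      ((le_iSup₂ (f := fun (σ : ℂ) (_ : σ ≠ 0) => (opS D).eigenspace σ) _ hne) e0)
  have e3 : w + w0 = 0 := by
    have := ((opS D).eigenspaces_iSupIndep 0).le_bot ⟨e1, e2⟩
    exact (Submodule.mem_bot ℂ).1 this
  have e4 : w = 0 := by
    have k1 : w ∈ (opS D).eigenspace (-Complex.I) := by
      rw [eq_neg_of_add_eq_zero_left e3]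
      exact Submodule.neg_mem _ e0
    have := ((opS D).eigenspaces_iSupIndep (-Complex.I)).le_bot ⟨k1, span_pk_le D S sig_ne_I hw⟩
    exact (Submodule.mem_bot ℂ).1 this
  subst e4
  have hz : (((0 : ↥Q.PW) : Q.U1 × Q.U3).2 : V) = 0 := rfl
  rw [hz, zero_add] at h
  exact ⟨hz, h, hb0⟩

omit D in
/-- dimension of a sum of three independent subspaces -/
theorem finrank_sup3 {A B C : Submodule ℂ V}
    (h : ∀ a ∈ A, ∀ b ∈ B, ∀ c ∈ C, a + b + c = 0 → a = 0 ∧ b = 0 ∧ c = 0) :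
    finrank ℂ ↥(A ⊔ B ⊔ C) = finrank ℂ A + finrank ℂ B + finrank ℂ C := by
  have h1 := Submodule.finrank_sup_add_finrank_inf_eq A B
  have h2 := Submodule.finrank_sup_add_finrank_inf_eq (A ⊔ B) C
  have e1 : A ⊓ B = ⊥ := by
    rw [eq_bot_iff]
    rintro v ⟨ha, hb⟩
    exact (Submodule.mem_bot ℂ).2 (h v ha (-v) (B.neg_mem hb) 0 C.zero_mem (by simp)).1
  have e2 : (A ⊔ B) ⊓ C = ⊥ := by
    rw [eq_bot_iff]
    rintro v ⟨hab, hc⟩
    obtain ⟨a, ha, b, hb, rfl⟩ := Submodule.mem_sup.1 hab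
    have := (h a ha b hb (-(a + b)) (C.neg_mem hc) (by abel)).2.2
    exact (Submodule.mem_bot ℂ).2 (neg_eq_zero.1 this)
  rw [e1, finrank_bot] at h1
  rw [e2, finrank_bot] at h2
  omega

omit D in
/-- the standard subspace -/
def Std (S : Finset Q.Lam) (A12 A14 A32 A34 : Submodule ℂ V) : Submodule ℂ V :=
  (XS S ⊔ A12 ⊔ A14) ⊔ (YS S ⊔ A32 ⊔ A34)

section std

variable {S : Finset Q.Lam} {A12 A14 A32 A34 : Submodule ℂ V}
variable (h12 : A12 ≤ Q.U1 ⊓ Q.U2) (h14 : A14 ≤ Q.U1 ⊓ Q.U4)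
variable (h32 : A32 ≤ Q.U3 ⊓ Q.U2) (h34 : A34 ≤ Q.U3 ⊓ Q.U4)

include h12 h14

theorem finrank_X : finrank ℂ ↥(XS S ⊔ A12 ⊔ A14) = S.card + finrank ℂ A12 + finrank ℂ A14 := by
  rw [finrank_sup3 (fun a ha b hb c hc h => indep1 D ha (h12 hb) (h14 hc) h)]
  congr 2
  exact finrank_span_image (linInd_px D) S

omit D [FiniteDimensional ℂ V] in
theorem X_le : XS S ⊔ A12 ⊔ A14 ≤ Q.U1 :=
  sup_le (sup_le (XS_le S) (h12.trans inf_le_left)) (h14.trans inf_le_left)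

omit h12 h14
include h32 h34

theorem finrank_Y : finrank ℂ ↥(YS S ⊔ A32 ⊔ A34) = S.card + finrank ℂ A32 + finrank ℂ A34 := by
  rw [finrank_sup3 (fun a ha b hb c hc h => indep3 D ha (h32 hb) (h34 hc) h)]
  congr 2
  exact finrank_span_image (linInd_py D) S

omit D [FiniteDimensional ℂ V] in
theorem Y_le : YS S ⊔ A32 ⊔ A34 ≤ Q.U3 :=
  sup_le (sup_le (YS_le S) (h32.trans inf_le_left)) (h34.trans inf_le_left)

include h12 h14

theorem finrank_Std : finrank ℂ ↥(Std S A12 A14 A32 A34) =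
    2 * S.card + finrank ℂ A12 + finrank ℂ A14 + finrank ℂ A32 + finrank ℂ A34 := by
  have h1 := Submodule.finrank_sup_add_finrank_inf_eq (XS S ⊔ A12 ⊔ A14) (YS S ⊔ A32 ⊔ A34)
  have e1 : (XS S ⊔ A12 ⊔ A14) ⊓ (YS S ⊔ A32 ⊔ A34) = ⊥ := by
    rw [eq_bot_iff]
    rintro v ⟨hv1, hv3⟩
    exact (Submodule.mem_bot ℂ).2 (Q.U1_inf_U3 (X_le h12 h14 hv1) (Y_le h32 h34 hv3))
  rw [e1, finrank_bot, finrank_X D h12 h14, finrank_Y D h32 h34] at h1
  rw [Std]
  omega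

omit D [FiniteDimensional ℂ V] in
theorem Std_le : Std S A12 A14 A32 A34 ≤
    (Std S A12 A14 A32 A34 ⊓ Q.U1) ⊔ (Std S A12 A14 A32 A34 ⊓ Q.U3) :=
  sup_le ((le_inf le_sup_left (X_le h12 h14)).trans le_sup_left)
    ((le_inf le_sup_right (Y_le h32 h34)).trans le_sup_right)

theorem Std_dim1 : S.card + finrank ℂ A12 + finrank ℂ A14 ≤
    finrank ℂ ↥(Std S A12 A14 A32 A34 ⊓ Q.U1) := by
  rw [← finrank_X D h12 h14]
  exact Submodule.finrank_mono (le_inf le_sup_left (X_le h12 h14))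

theorem Std_dim3 : S.card + finrank ℂ A32 + finrank ℂ A34 ≤
    finrank ℂ ↥(Std S A12 A14 A32 A34 ⊓ Q.U3) := by
  rw [← finrank_Y D h32 h34]
  exact Submodule.finrank_mono (le_inf le_sup_right (Y_le h32 h34))

omit D [FiniteDimensional ℂ V] h12 h14 h32 h34 in
theorem split_zero {u v : V} (hu : u ∈ Q.U1) (hv : v ∈ Q.U3) (h : u + v = 0) : u = 0 ∧ v = 0 := by
  have h1 : u = 0 := by
    apply Q.U1_inf_U3 hu
    rw [eq_neg_of_add_eq_zero_left h]
    exact Q.U3.neg_mem hv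
  exact ⟨h1, by rwa [h1, zero_add] at h⟩

/-- auxiliary: the dimension of the intersection with `U2` or `U4` -/
theorem Std_dim_aux {U A B : Submodule ℂ V} (c : Q.Lam → ℂ)
    (hc : ∀ μ, Q.px μ + c μ • Q.py μ ∈ U) (hA1 : A ≤ Q.U1) (hA : A ≤ U)
    (hA' : ∀ x ∈ XS S, ∀ a ∈ A, x + a = 0 → x = 0 ∧ a = 0) (hB1 : B ≤ Q.U3) (hB : B ≤ U)
    (hAS : A ≤ Std S A12 A14 A32 A34) (hBS : B ≤ Std S A12 A14 A32 A34) :
    S.card + finrank ℂ A + finrank ℂ B ≤ finrank ℂ ↥(Std S A12 A14 A32 A34 ⊓ U) := by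
  set f : Q.Lam → V := fun μ => Q.px μ + c μ • Q.py μ with hf
  have hind : LinearIndependent ℂ f := linInd_pxy D c
  have h1 := finrank_span_image hind S
  -- every element of the span is `x + y`
  have hxy : ∀ v ∈ Submodule.span ℂ (f '' (S : Set Q.Lam)), ∃ x ∈ XS S, ∃ y ∈ Q.U3, v = x + y := by
    intro v hv
    have hle : Submodule.span ℂ (f '' (S : Set Q.Lam)) ≤ XS S ⊔ Q.U3 := by
      rw [Submodule.span_le]
      rintro _ ⟨μ, hμ, rfl⟩
      exact Submodule.add_mem_sup (px_mem_XS hμ) (Q.U3.smul_mem _ (Q.py_mem μ))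
    obtain ⟨x, hx, y, hy, e⟩ := Submodule.mem_sup.1 (hle hv)
    exact ⟨x, hx, y, hy, e.symm⟩
  -- an element of the span in `U3` is zero
  have hz : ∀ v ∈ Submodule.span ℂ (f '' (S : Set Q.Lam)), v ∈ Q.U3 → v = 0 := by
    intro v hv hv3
    rw [Finsupp.mem_span_image_iff_linearCombination] at hv
    obtain ⟨l, hl, rfl⟩ := hv
    have e1 : Finsupp.linearCombination ℂ f l = Finsupp.linearCombination ℂ Q.px l +
        l.sum (fun μ t => t • c μ • Q.py μ) := by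
      rw [Finsupp.linearCombination_apply, Finsupp.linearCombination_apply, ← Finsupp.sum_add]
      exact Finsupp.sum_congr fun μ _ => by rw [hf]; exact smul_add _ _ _
    have m1 : Finsupp.linearCombination ℂ Q.px l ∈ Q.U1 := by
      rw [Finsupp.linearCombination_apply]
      exact Submodule.sum_mem _ fun μ _ => Q.U1.smul_mem _ (Q.px_mem μ)
    have m3 : l.sum (fun μ t => t • c μ • Q.py μ) ∈ Q.U3 :=
      Submodule.sum_mem _ fun μ _ => Q.U3.smul_mem _ (Q.U3.smul_mem _ (Q.py_mem μ))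
    have h0 : Finsupp.linearCombination ℂ Q.px l = 0 := by
      apply Q.U1_inf_U3 m1
      have : Finsupp.linearCombination ℂ Q.px l = Finsupp.linearCombination ℂ f l -
          l.sum (fun μ t => t • c μ • Q.py μ) := by rw [e1]; abel
      rw [this]
      exact Q.U3.sub_mem hv3 m3
    have h2 : l = 0 := (linearIndependent_iff.1 (linInd_px D)) l h0
    rw [h2, map_zero]
  rw [← h1, ← finrank_sup3 (A := Submodule.span ℂ (f '' (S : Set Q.Lam))) (B := A) (C := B)]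
  · apply Submodule.finrank_mono
    refine le_inf (sup_le (sup_le ?_ hAS) hBS) (sup_le (sup_le ?_ hA) hB)
    · rw [Submodule.span_le]
      rintro _ ⟨μ, hμ, rfl⟩
      refine Submodule.add_mem _ ?_ (Submodule.smul_mem _ _ ?_)
      · exact Submodule.mem_sup_left (Submodule.mem_sup_left (Submodule.mem_sup_left
          (px_mem_XS hμ)))
      · exact Submodule.mem_sup_right (Submodule.mem_sup_left (Submodule.mem_sup_left
          (py_mem_YS hμ)))
    · rw [Submodule.span_le]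
      rintro _ ⟨μ, _, rfl⟩
      exact hc μ
  · intro v hv a ha b hb h
    obtain ⟨x, hx, y, hy, e⟩ := hxy v hv
    have h2 := split_zero (Q := Q) (u := x + a) (v := y + b)
      (Q.U1.add_mem (XS_le S hx) (hA1 ha)) (Q.U3.add_mem hy (hB1 hb)) (by
        rw [← h, e]; abel)
    have h3 := hA' x hx a ha h2.1
    have h4 : v = 0 := by
      apply hz v hv
      rw [e, h3.1, zero_add]
      exact hy
    rw [h4, h3.2, zero_add, zero_add] at h
    exact ⟨h4, h3.2, h⟩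

theorem Std_dim2 : S.card + finrank ℂ A12 + finrank ℂ A32 ≤
    finrank ℂ ↥(Std S A12 A14 A32 A34 ⊓ Q.U2) := by
  refine Std_dim_aux D h12 h14 h32 h34 (fun _ => 1) (fun μ => ?_) (h12.trans inf_le_left)
    (h12.trans inf_le_right) (fun x hx a ha h => ?_) (h32.trans inf_le_left)
    (h32.trans inf_le_right) ?_ ?_
  · rw [one_smul]; exact Q.pxy2 μ
  · have := indep1 D hx (h12 ha) (Submodule.zero_mem _) (by rw [add_zero]; exact h)
    exact ⟨this.1, this.2.1⟩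
  · exact (le_sup_right.trans le_sup_left).trans le_sup_left
  · exact (le_sup_right.trans le_sup_left).trans le_sup_right

theorem Std_dim4 : S.card + finrank ℂ A14 + finrank ℂ A34 ≤
    finrank ℂ ↥(Std S A12 A14 A32 A34 ⊓ Q.U4) := by
  refine Std_dim_aux D h12 h14 h32 h34 (fun μ => (μ : ℂ)) (fun μ => Q.pxy4 μ)
    (h14.trans inf_le_left) (h14.trans inf_le_right) (fun x hx a ha h => ?_)
    (h34.trans inf_le_left) (h34.trans inf_le_right) ?_ ?_
  · have := indep1 D hx (Submodule.zero_mem _) (h14 ha) (by rw [add_zero]; exact h)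
    exact ⟨this.1, this.2.2⟩
  · exact le_sup_right.trans le_sup_left
  · exact le_sup_right.trans le_sup_right

end std

end Quad

end Pool.Agent.Helper80.Sec
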