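import Pool.Agent.Helper80.Sec.DualCoord
import Pool.Agent.Helper80.Sec.Arcs

/-!
The quadruple of spaces of multiples of four products of linear forms.
-/

namespace Pool.Agent.Helper80.Sec

open Polynomial Module

/-- the multiples, of degree `< N` in the homogeneous sense, of the product of the linear forms of
`L` -/
noncomputable def DivSp (N : ℕ) (L : List (ℝ × ℝ)) : Submodule ℂ ↥(degreeLT ℂ N) where
  carrier := {f | ∃ h : ℂ[X], h.degree < ((N - L.length : ℕ) : WithBot ℕ) ∧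
    (f : ℂ[X]) = cx (L.map lf).prod * h}
  add_mem' := by
    rintro f g ⟨h, hh, ef⟩ ⟨h', hh', eg⟩
    refine ⟨h + h', lt_of_le_of_lt (degree_add_le _ _) (max_lt hh hh'), ?_⟩
    rw [Submodule.coe_add, ef, eg, mul_add]
  zero_mem' := ⟨0, by rw [degree_zero]; exact WithBot.bot_lt_coe _, by simp⟩
  smul_mem' := by
    rintro s f ⟨h, hh, ef⟩
    refine ⟨s • h, lt_of_le_of_lt (degree_smul_le _ _) hh, ?_⟩
    rw [Submodule.coe_smul, ef, mul_smul_comm]

theorem mem_DivSp {N : ℕ} {L : List (ℝ × ℝ)} {f : ↥(degreeLT ℂ N)} :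
    f ∈ DivSp N L ↔ ∃ h : ℂ[X], h.degree < ((N - L.length : ℕ) : WithBot ℕ) ∧
      (f : ℂ[X]) = cx (L.map lf).prod * h := Iff.rfl

/-- The quadruple. -/
noncomputable def mkQuadD (N : ℕ) (L1 L2 L3 L4 : List (ℝ × ℝ)) (n1 : L1 ≠ []) (n3 : L3 ≠ [])
    (l1 : L1.length ≤ N) (l2 : L2.length ≤ N) (l3 : L3.length ≤ N) (l4 : L4.length ≤ N)
    (h13 : Before L1 L3) (h12 : Before L1 L2) (h23 : Before L2 L3) (h14 : Before L1 L4)
    (h34 : Before L3 L4) (hle : N ≤ L1.length + L3.length)
    (hsum : L1.length + L2.length + L3.length + L4.length = 2 * N) :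
    Quad ↥(degreeLT ℂ N) where
  Z := ZD (ext L1 n1) (ext L3 n3) (fun i j => by
    rw [br_anti]
    exact (neg_neg_of_pos (h13 _ (ext_mem L1 n1 i) _ (ext_mem L3 n3 j))).ne) N
  U1 := DivSp N L3
  U2 := DivSp N L4
  U3 := DivSp N L1
  U4 := DivSp N L2
  p := N - L3.length
  q := L1.length
  N := N
  e2 := L4.length
  e4 := L2.length
  inj := ZD_injective _ N
  hpq := by omega
  hqN := l1
  hsum := by omega
  h1 := by
    have hb : ∀ i j, br (ext L1 n1 i) (ext L3 n3 j) ≠ 0 := fun i j => by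
      rw [br_anti]
      exact (neg_neg_of_pos (h13 _ (ext_mem L1 n1 i) _ (ext_mem L3 n3 j))).ne
    rintro f ⟨h, hh, ef⟩ i hi
    obtain ⟨y, hy, ey⟩ := exists_ex (ext L1 n1) (fun l => ext L3 n3 (L3.length + l))
      (fun i j => hb _ _) _ h hh
    have h1 := ex_shift_c (ext L1 n1) (ext L3 n3) L3.length (N - L3.length) hy
    rw [← ey, prod_ext L3 n3, ← ef, Nat.sub_add_cancel l3] at h1
    rw [ZD_eq hb (y := y) (fun i hi => hy i (by omega)) h1]
    exact hy i hi
  h3 := by
    have hb : ∀ i j, br (ext L1 n1 i) (ext L3 n3 j) ≠ 0 := fun i j => by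
      rw [br_anti]
      exact (neg_neg_of_pos (h13 _ (ext_mem L1 n1 i) _ (ext_mem L3 n3 j))).ne
    rintro f ⟨h, hh, ef⟩ i hi
    obtain ⟨y, hy, ey⟩ := exists_ex (fun l => ext L1 n1 (L1.length + l)) (ext L3 n3)
      (fun i j => hb _ _) _ h hh
    have h1 := ex_shift_a (ext L1 n1) (ext L3 n3) L1.length (N - L1.length) y
    rw [← ey, prod_ext L1 n1, ← ef, Nat.add_sub_cancel' l1] at h1
    rw [ZD_eq hb (fun i hi => by
      rw [if_neg (by omega)]; exact hy _ (by omega)) h1]
    by_cases hi1 : i < L1.length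
    · simp [hi1]
    · simp only [hi1, if_false]
      exact hy _ (by omega)
  h2 := by
    have hb : ∀ i j, br (ext L1 n1 i) (ext L3 n3 j) ≠ 0 := fun i j => by
      rw [br_anti]
      exact (neg_neg_of_pos (h13 _ (ext_mem L1 n1 i) _ (ext_mem L3 n3 j))).ne
    rintro f ⟨h, hh, ef⟩ hne
    rcases Nat.eq_zero_or_pos (N - L4.length) with h0 | hpos
    · exfalso
      rw [h0] at hh
      have hz : h = 0 := by
        by_contra hh0
        rw [← natDegree_lt_iff_degree_lt hh0] at hh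
        omega
      have hf : f = 0 := Subtype.ext (by rw [ef, hz, mul_zero]; rfl)
      apply hne
      rw [hf, map_zero]
      rfl
    · obtain ⟨y, hy, ey⟩ := exists_ex (ext L1 n1) (ext L3 n3) hb _ h hh
      obtain ⟨y', hy', e1, r1, a1⟩ := ex_list (σ := -1) (Or.inr rfl)
        (fun i j => h13 _ (ext_mem L1 n1 i) _ (ext_mem L3 n3 j)) L4
        (fun t ht i => h14 _ (ext_mem L1 n1 i) t ht)
        (fun t ht j => by have := h34 _ (ext_mem L3 n3 j) t ht; linarith) hpos hy
      rw [← ey, ← ef, Nat.sub_add_cancel l4] at e1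
      rw [Nat.sub_add_cancel l4] at hy'
      have hZ := ZD_eq hb hy' e1
      rw [hZ] at hne ⊢
      have hne' : (fun i => (- -(1 : ℝ)) ^ i * (y i).re) ≠ 0 := by
        intro h0
        apply hne
        funext i
        refine r1 (fun i => ?_) i
        have := congrFun h0 i
        simpa using this
      have h2 := a1 0 (alt_one hne')
      rw [Nat.zero_add, Nat.add_comm 1] at h2
      simpa using h2
  h4 := by
    have hb : ∀ i j, br (ext L1 n1 i) (ext L3 n3 j) ≠ 0 := fun i j => by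
      rw [br_anti]
      exact (neg_neg_of_pos (h13 _ (ext_mem L1 n1 i) _ (ext_mem L3 n3 j))).ne
    rintro f ⟨h, hh, ef⟩ hne
    rcases Nat.eq_zero_or_pos (N - L2.length) with h0 | hpos
    · exfalso
      rw [h0] at hh
      have hz : h = 0 := by
        by_contra hh0
        rw [← natDegree_lt_iff_degree_lt hh0] at hh
        omega
      have hf : f = 0 := Subtype.ext (by rw [ef, hz, mul_zero]; rfl)
      apply hne
      rw [hf, map_zero]
      rfl
    · obtain ⟨y, hy, ey⟩ := exists_ex (ext L1 n1) (ext L3 n3) hb _ h hh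
      obtain ⟨y', hy', e1, r1, a1⟩ := ex_list (σ := 1) (Or.inl rfl)
        (fun i j => h13 _ (ext_mem L1 n1 i) _ (ext_mem L3 n3 j)) L2
        (fun t ht i => h12 _ (ext_mem L1 n1 i) t ht)
        (fun t ht j => by
          rw [one_mul, br_anti]
          exact neg_neg_of_pos (h23 t ht _ (ext_mem L3 n3 j))) hpos hy
      rw [← ey, ← ef, Nat.sub_add_cancel l2] at e1
      rw [Nat.sub_add_cancel l2] at hy'
      have hZ := ZD_eq hb hy' e1
      rw [hZ] at hne ⊢
      have hne' : (fun i => (-(1 : ℝ)) ^ i * (y i).re) ≠ 0 := by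
        intro h0
        apply hne
        funext i
        refine r1 (fun i => ?_) i
        have h1 := congrFun h0 i
        simp only [Pi.zero_apply, mul_eq_zero, pow_eq_zero_iff', neg_eq_zero, one_ne_zero,
          ne_eq, false_and, false_or] at h1
        exact h1
      have h2 := a1 0 (alt_one hne')
      rw [Nat.zero_add, Nat.add_comm 1] at h2
      exact h2

/-- the quadruple of four divisors on disjoint arcs -/
theorem exists_quadD {N : ℕ} {I : Fin 4 → Set (OnePoint ℝ)} (hpre : ∀ j, IsPreconnected (I j))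
    (hdis : ∀ i j, i ≠ j → Disjoint (I i) (I j)) {T : Fin 4 → List (OnePoint ℝ)}
    (hTI : ∀ j, ∀ t ∈ T j, t ∈ I j) (hT1 : ∀ j, T j ≠ []) (hTN : ∀ j, (T j).length ≤ N)
    (hsum : ∑ j, (T j).length = 2 * N) :
    ∃ (rep : OnePoint ℝ → ℝ × ℝ) (Q : Quad ↥(degreeLT ℂ N)) (π : Equiv.Perm (Fin 4)),
      (∀ t, IsRep t (rep t)) ∧
      Q.U1 = DivSp N ((T (π 2)).map rep) ∧ Q.U2 = DivSp N ((T (π 3)).map rep) ∧
      Q.U3 = DivSp N ((T (π 0)).map rep) ∧ Q.U4 = DivSp N ((T (π 1)).map rep) ∧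
      (∀ f, (∀ i, (Q.Z f i).im = 0) → ∀ i, ((f : ℂ[X]).coeff i).im = 0) ∧
      Q.p = N - (T (π 2)).length ∧ Q.q = (T (π 0)).length ∧ Q.N = N ∧
      Q.e2 = (T (π 3)).length ∧ Q.e4 = (T (π 1)).length := by
  have hne : ∀ j, (I j).Nonempty := fun j => ⟨(T j).head (hT1 j), hTI j _ (List.head_mem _)⟩
  obtain ⟨rep, π, hrep, hord⟩ := exists_order hpre hdis hne
  have main : ∀ (rep : OnePoint ℝ → ℝ × ℝ) (π : Equiv.Perm (Fin 4)), (∀ t, IsRep t (rep t)) →
      (∀ i j, i < j → ∀ a ∈ I (π i), ∀ b ∈ I (π j), 0 < br (rep b) (rep a)) →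
      N ≤ (T (π 0)).length + (T (π 2)).length →
      ∃ (rep : OnePoint ℝ → ℝ × ℝ) (Q : Quad ↥(degreeLT ℂ N)) (π : Equiv.Perm (Fin 4)),
      (∀ t, IsRep t (rep t)) ∧
      Q.U1 = DivSp N ((T (π 2)).map rep) ∧ Q.U2 = DivSp N ((T (π 3)).map rep) ∧
      Q.U3 = DivSp N ((T (π 0)).map rep) ∧ Q.U4 = DivSp N ((T (π 1)).map rep) ∧
      (∀ f, (∀ i, (Q.Z f i).im = 0) → ∀ i, ((f : ℂ[X]).coeff i).im = 0) ∧
      Q.p = N - (T (π 2)).length ∧ Q.q = (T (π 0)).length ∧ Q.N = N ∧
      Q.e2 = (T (π 3)).length ∧ Q.e4 = (T (π 1)).length := by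
    intro rep π hrep hord hle
    have hne' : ∀ j, (T (π j)).map rep ≠ [] := fun j h => hT1 (π j) (List.map_eq_nil_iff.1 h)
    have hlt : ∀ j, ((T (π j)).map rep).length ≤ N := fun j => by
      rw [List.length_map]; exact hTN _
    have hbef : ∀ i j, i < j → Before ((T (π i)).map rep) ((T (π j)).map rep) := by
      intro i j hij s hs t ht
      obtain ⟨a, ha, rfl⟩ := List.mem_map.1 hs
      obtain ⟨b, hb, rfl⟩ := List.mem_map.1 ht
      exact hord i j hij a (hTI _ a ha) b (hTI _ b hb)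
    have hsum' : (T (π 0)).length + (T (π 1)).length + (T (π 2)).length +
        (T (π 3)).length = 2 * N := by
      rw [← hsum, ← Equiv.sum_comp π, Fin.sum_univ_four]
    refine ⟨rep, mkQuadD N ((T (π 0)).map rep) ((T (π 1)).map rep) ((T (π 2)).map rep)
      ((T (π 3)).map rep) (hne' 0) (hne' 2) (hlt 0) (hlt 1) (hlt 2) (hlt 3)
      (hbef 0 2 (by decide)) (hbef 0 1 (by decide)) (hbef 1 2 (by decide))
      (hbef 0 3 (by decide)) (hbef 2 3 (by decide)) (by simpa using hle) (by simpa using hsum'),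
      π, hrep, rfl, rfl, rfl, rfl, ?_, ?_, ?_, rfl, ?_, ?_⟩
    · intro f hf i
      exact ZD_real (fun i j => by
        rw [br_anti]
        exact (neg_neg_of_pos (hbef 0 2 (by decide) _ (ext_mem _ (hne' 0) i) _
          (ext_mem _ (hne' 2) j))).ne) hf i
    · show N - ((T (π 2)).map rep).length = _
      rw [List.length_map]
    · show ((T (π 0)).map rep).length = _
      rw [List.length_map]
    · show ((T (π 3)).map rep).length = _
      rw [List.length_map]
    · show ((T (π 1)).map rep).length = _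
      rw [List.length_map]
  by_cases hle : N ≤ (T (π 0)).length + (T (π 2)).length
  · exact main rep π hrep hord hle
  · obtain ⟨rep', hrep', hord'⟩ := shift_order hdis hrep hord
    refine main rep' ((Equiv.addRight (1 : Fin 4)).trans π) hrep' hord' ?_
    have hsum' : (T (π 0)).length + (T (π 1)).length + (T (π 2)).length +
        (T (π 3)).length = 2 * N := by
      rw [← hsum, ← Equiv.sum_comp π, Fin.sum_univ_four]
    have e0 : ((Equiv.addRight (1 : Fin 4)).trans π) 0 = π 1 := rfl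
    have e2 : ((Equiv.addRight (1 : Fin 4)).trans π) 2 = π 3 := rfl
    rw [e0, e2]
    omega

end Pool.Agent.Helper80.Sec
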