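import Mathlib

/-!
Duality: from subspaces containing given ones to subspaces of the dual space.
-/

namespace Pool.Agent.Helper80.Sec

open Module

section

variable {K V P : Type*} [Field K] [AddCommGroup V] [Module K V] [FiniteDimensional K V]
variable [AddCommGroup P] [Module K P] [FiniteDimensional K P]
variable {θ : P →ₗ[K] Dual K V} (hθ : Function.Injective θ)
variable {H : Submodule K V} (hH : H.dualAnnihilator ≤ LinearMap.range θ)

include hθ in
theorem finrank_comap_of_le {A : Submodule K (Dual K V)} (hA : A ≤ LinearMap.range θ) :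
    finrank K ↥(A.comap θ) = finrank K A := by
  have h1 : (A.comap θ).map θ = A := by
    rw [Submodule.map_comap_eq, inf_eq_right.2 hA]
  rw [(Submodule.equivMapOfInjective θ hθ (A.comap θ)).finrank_eq, h1]

theorem finrank_dualAnn (H : Submodule K V) :
    finrank K ↥(H.dualAnnihilator) = finrank K V - finrank K H := by
  have := Subspace.finrank_add_finrank_dualAnnihilator_eq H
  omega

include hθ hH in
theorem finrank_orth : finrank K ↥(H.dualAnnihilator.comap θ) = finrank K V - finrank K H := by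
  rw [finrank_comap_of_le hθ hH, finrank_dualAnn]

include hθ hH in
theorem finrank_orth_inf (E : Submodule K V) :
    finrank K ↥(H.dualAnnihilator.comap θ ⊓ E.dualAnnihilator.comap θ) =
      finrank K V - finrank K ↥(H ⊔ E) := by
  rw [← Submodule.comap_inf, ← Submodule.dualAnnihilator_sup_eq]
  rw [finrank_comap_of_le hθ, finrank_dualAnn]
  exact le_trans (Submodule.dualAnnihilator_anti le_sup_left) hH

omit [FiniteDimensional K V] [FiniteDimensional K P] in
theorem ann_kills {f : P} (hf : f ∈ H.dualAnnihilator.comap θ) {v : V} (hv : v ∈ H) :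
    θ f v = 0 := by
  rw [Submodule.mem_comap, Submodule.mem_dualAnnihilator] at hf
  exact hf v hv

include hθ hH in
/-- transposition of tangent vectors -/
theorem transfer_tangent {ι : Type*} (E : ι → Submodule K V) (φ : H →ₗ[K] V ⧸ H)
    (hφR : ∀ x : H, (∀ g, θ g (x : V) = 0) → φ x = 0)
    (hφE : ∀ j, ∀ x : H, (x : V) ∈ E j → φ x ∈ (E j).map H.mkQ)
    (key : ∀ ψ : ↥(H.dualAnnihilator.comap θ) →ₗ[K] P ⧸ (H.dualAnnihilator.comap θ),
      (∀ j, ∀ f : ↥(H.dualAnnihilator.comap θ), (f : P) ∈ (E j).dualAnnihilator.comap θ →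
        ψ f ∈ ((E j).dualAnnihilator.comap θ).map (H.dualAnnihilator.comap θ).mkQ) → ψ = 0) :
    φ = 0 := by
  set H' := H.dualAnnihilator.comap θ with hH'
  -- the functional `θ f ∘ φ`
  let Λ : ↥H' →ₗ[K] Dual K H :=
    { toFun := fun f => (H.liftQ (θ f) (fun v hv => ann_kills (θ := θ) f.2 hv)).comp φ
      map_add' := by
        intro f g
        apply LinearMap.ext
        intro x
        obtain ⟨w, hw⟩ := H.mkQ_surjective (φ x)
        simp only [LinearMap.comp_apply, LinearMap.add_apply, ← hw, Submodule.mkQ_apply,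
          Submodule.liftQ_apply, Submodule.coe_add, map_add]
      map_smul' := by
        intro s f
        apply LinearMap.ext
        intro x
        obtain ⟨w, hw⟩ := H.mkQ_surjective (φ x)
        simp only [LinearMap.comp_apply, LinearMap.smul_apply, ← hw, Submodule.mkQ_apply,
          Submodule.liftQ_apply, Submodule.coe_smul, map_smul, RingHom.id_apply] }
  have hΛ : ∀ (f : ↥H') (x : H) (w : V), H.mkQ w = φ x → Λ f x = θ f w := by
    intro f x w hw
    show (H.liftQ (θ f) (fun v hv => ann_kills (θ := θ) f.2 hv)) (φ x) = _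
    rw [← hw]
    rfl
  -- restriction to `H`
  let ρ : P →ₗ[K] Dual K H := H.dualRestrict.comp θ
  have hρ : ∀ (g : P) (x : H), ρ g x = θ g (x : V) := fun g x => rfl
  have hker : LinearMap.ker ρ = H' := by
    ext g
    rw [LinearMap.mem_ker, hH', Submodule.mem_comap, Submodule.mem_dualAnnihilator]
    constructor
    · intro h v hv
      exact LinearMap.congr_fun h ⟨v, hv⟩
    · intro h
      apply LinearMap.ext
      intro x
      exact h x x.2
  let ρ' : (P ⧸ H') →ₗ[K] Dual K H := H'.liftQ ρ hker.ge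
  have hρ' : ∀ g : P, ρ' (H'.mkQ g) = ρ g := fun g => rfl
  have hinj : Function.Injective ρ' := by
    rw [← LinearMap.ker_eq_bot]
    exact Submodule.ker_liftQ_eq_bot _ _ _ hker.le
  -- extension
  have hRH : ∀ v : V, (∀ g, θ g v = 0) → v ∈ H := by
    intro v hv
    rw [← Subspace.dualAnnihilator_dualCoannihilator_eq (W := H), Submodule.mem_dualCoannihilator]
    intro l hl
    obtain ⟨g, rfl⟩ := hH hl
    exact hv g
  have hrange : ∀ (l : Dual K V) (f : ↥H'), H.dualRestrict l = Λ f → l ∈ LinearMap.range θ := by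
    intro l f hl
    rw [← Subspace.dualCoannihilator_dualAnnihilator_eq (W := LinearMap.range θ),
      Submodule.mem_dualAnnihilator]
    intro v hv
    rw [Submodule.mem_dualCoannihilator] at hv
    have hv' : ∀ g, θ g v = 0 := fun g => hv _ ⟨g, rfl⟩
    have h1 : l v = Λ f ⟨v, hRH v hv'⟩ := by rw [← hl]; rfl
    rw [h1, hΛ f _ 0 (by rw [hφR _ hv', map_zero]), map_zero]
  have hex : ∀ f : ↥H', ∃ g : P, ρ g = Λ f := by
    intro f
    obtain ⟨l, hl⟩ := Subspace.dualRestrict_surjective (W := H) (Λ f)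
    obtain ⟨g, rfl⟩ := hrange l f hl
    exact ⟨g, hl⟩
  have hmem : ∀ f : ↥H', Λ f ∈ LinearMap.range ρ' := by
    intro f
    obtain ⟨g, hg⟩ := hex f
    exact ⟨H'.mkQ g, by rw [hρ', hg]⟩
  let e := LinearEquiv.ofInjective ρ' hinj
  let ψ : ↥H' →ₗ[K] P ⧸ H' := e.symm.toLinearMap.comp (Λ.codRestrict (LinearMap.range ρ') hmem)
  have hψ : ∀ f, ρ' (ψ f) = Λ f := by
    intro f
    have h1 : e (ψ f) = ⟨Λ f, hmem f⟩ := e.apply_symm_apply _
    have h2 := congrArg Subtype.val h1
    exact h2
  have hψ0 : ψ = 0 := by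
    refine key ψ (fun j f hf => ?_)
    -- choose a good extension
    obtain ⟨l, hl⟩ := Subspace.dualRestrict_surjective (W := H) (Λ f)
    have hl1 : l ∈ (H ⊓ E j).dualAnnihilator := by
      rw [Submodule.mem_dualAnnihilator]
      rintro v ⟨hv1, hv2⟩
      have h1 : l v = Λ f ⟨v, hv1⟩ := by rw [← hl]; rfl
      rw [h1]
      obtain ⟨w, hw, hwφ⟩ := Submodule.mem_map.1 (hφE j ⟨v, hv1⟩ hv2)
      rw [hΛ f _ w hwφ]
      exact ann_kills (θ := θ) hf hw
    rw [Subspace.dualAnnihilator_inf_eq] at hl1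
    obtain ⟨h, hh, e', he', hsum⟩ := Submodule.mem_sup.1 hl1
    have he1 : H.dualRestrict e' = Λ f := by
      rw [← hl, ← hsum, map_add]
      have : H.dualRestrict h = 0 := by
        apply LinearMap.ext
        intro x
        rw [Submodule.mem_dualAnnihilator] at hh
        exact hh x x.2
      rw [this, zero_add]
    obtain ⟨g, rfl⟩ := hrange e' f he1
    refine Submodule.mem_map.2 ⟨g, he', ?_⟩
    apply hinj
    rw [hρ', hψ]
    exact he1
  have hΛ0 : ∀ f, Λ f = 0 := by
    intro f
    rw [← hψ f, hψ0]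
    simp
  apply LinearMap.ext
  intro x
  rw [LinearMap.zero_apply, ← forall_dual_apply_eq_zero_iff K]
  intro l
  have h1 : (H.dualQuotEquivDualAnnihilator l : Dual K V) ∈ H.dualAnnihilator :=
    (H.dualQuotEquivDualAnnihilator l).2
  obtain ⟨g, hg⟩ := hH h1
  have hgH : g ∈ H' := by
    rw [hH', Submodule.mem_comap, hg]; exact h1
  obtain ⟨w, hw⟩ := H.mkQ_surjective (φ x)
  have h2 := hΛ ⟨g, hgH⟩ x w hw
  rw [hΛ0] at h2
  rw [← hw]
  have h3 : l (H.mkQ w) = θ g w := by
    rw [hg]
    rfl
  rw [h3, ← h2]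
  rfl

end

end Pool.Agent.Helper80.Sec
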