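import Pool.Agent.Helper80.Sec.Nest
import Pool.Agent.Helper80.Sec.DualQuad
import Pool.Agent.Helper80.Sec.Orth

/-!
Annihilators of secant spaces and polynomials divisible by products of linear forms.
-/

namespace Pool.Agent.Helper80.Sec

open Polynomial Module

variable {n : ℕ}

/-- the functional defined by a polynomial -/
noncomputable def toDual (n : ℕ) : ℂ[X] →ₗ[ℂ] Dual ℂ (Fin n → ℂ) where
  toFun f :=
    { toFun := fun v => ∑ i : Fin n, v i * f.coeff i
      map_add' := by intro v w; simp [add_mul, Finset.sum_add_distrib]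
      map_smul' := by intro s v; simp [Finset.mul_sum, mul_assoc] }
  map_add' f g := by
    apply LinearMap.ext; intro v
    simp [mul_add, Finset.sum_add_distrib]
  map_smul' s f := by
    apply LinearMap.ext; intro v
    simp only [LinearMap.coe_mk, AddHom.coe_mk, coeff_smul, smul_eq_mul, RingHom.id_apply,
      LinearMap.smul_apply, Finset.mul_sum]
    exact Finset.sum_congr rfl fun i _ => by ring

theorem toDual_apply (f : ℂ[X]) (v : Fin n → ℂ) : toDual n f v = ∑ i : Fin n, v i * f.coeff i :=
  rfl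

theorem toDual_cx (q : ℝ[X]) (v : Fin n → ℂ) : toDual n (cx q) v = pair v q := by
  rw [toDual_apply, pair]
  refine Finset.sum_congr rfl fun i _ => ?_
  rw [cx, coeff_map]; rfl

theorem toDual_inj {f g : ℂ[X]} (hf : f.degree < n) (hg : g.degree < n)
    (h : toDual n f = toDual n g) : f = g := by
  ext i
  rcases Nat.lt_or_ge i n with hi | hi
  · have h1 := LinearMap.congr_fun h (Pi.single ⟨i, hi⟩ 1)
    rw [toDual_apply, toDual_apply, Finset.sum_eq_single ⟨i, hi⟩,
      Finset.sum_eq_single ⟨i, hi⟩] at h1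
    · simpa using h1
    · intro b _ hb; simp [hb]
    · intro h; exact absurd (Finset.mem_univ _) h
    · intro b _ hb; simp [hb]
    · intro h; exact absurd (Finset.mem_univ _) h
  · have aux : ∀ p : ℂ[X], p.degree < n → p.coeff i = 0 := by
      intro p hp
      apply coeff_eq_zero_of_degree_lt
      exact lt_of_lt_of_le hp (by exact_mod_cast hi)
    rw [aux f hf, aux g hg]

theorem eq_zero_of_degree_lt {h : ℂ[X]} {k : ℕ} (hk : k = 0) (hh : h.degree < (k : WithBot ℕ)) :
    h = 0 := by
  by_contra h0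
  rw [← natDegree_lt_iff_degree_lt h0] at hh
  omega

theorem degree_cx_mul_lt {D : ℝ[X]} {h : ℂ[X]} {k m N : ℕ} (hD : D.natDegree ≤ k)
    (hh : h.degree < (m : WithBot ℕ)) (hle : m = 0 ∨ k + m ≤ N) :
    (cx D * h).degree < (N : WithBot ℕ) := by
  by_cases h0 : cx D * h = 0
  · rw [h0, degree_zero]; exact WithBot.bot_lt_coe _
  · have h1 : h ≠ 0 := by rintro rfl; simp at h0
    rw [← natDegree_lt_iff_degree_lt h0]
    rw [← natDegree_lt_iff_degree_lt h1] at hh
    refine lt_of_le_of_lt natDegree_mul_le ?_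
    rw [cx_natDegree]
    omega

theorem toDual_prod_mem {L : List (ℝ × ℝ)} {h : ℂ[X]}
    (hh : h.degree < ((n - L.length : ℕ) : WithBot ℕ)) :
    toDual n (cx (L.map lf).prod * h) ∈ (SecSp n L).dualAnnihilator := by
  by_cases h0 : h = 0
  · rw [h0, mul_zero, map_zero]
    exact Submodule.zero_mem _
  rw [← natDegree_lt_iff_degree_lt h0] at hh
  rw [Submodule.mem_dualAnnihilator]
  intro v hv
  have h1 : cx (L.map lf).prod * h = ∑ m ∈ Finset.range (n - L.length),
      C (h.coeff m) * cx ((L.map lf).prod * X ^ m) := by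
    nth_rewrite 1 [h.as_sum_range_C_mul_X_pow' hh]
    rw [Finset.mul_sum]
    refine Finset.sum_congr rfl fun m _ => ?_
    have : cx (X ^ m : ℝ[X]) = X ^ m := by simp [cx]
    rw [cx_mul, this]; ring
  rw [h1, map_sum, LinearMap.sum_apply]
  apply Finset.sum_eq_zero
  intro m hm
  rw [← smul_eq_C_mul, map_smul, LinearMap.smul_apply, toDual_cx, hv m (by
    have := Finset.mem_range.1 hm; omega), smul_zero]

theorem natDegree_prod_le (L : List (ℝ × ℝ)) : (L.map lf).prod.natDegree ≤ L.length := by
  refine (natDegree_list_prod_le _).trans ?_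
  have : ∀ x ∈ List.map natDegree (List.map lf L), x ≤ 1 := by
    intro x hx
    obtain ⟨y, hy, rfl⟩ := List.mem_map.1 hx
    obtain ⟨a, _, rfl⟩ := List.mem_map.1 hy
    exact lf_natDegree a
  have h2 := List.sum_le_card_nsmul _ 1 this
  simpa using h2

theorem mem_ann_SecSp {L : List (ℝ × ℝ)} (h0 : ∀ a ∈ L, lf a ≠ 0) (hL : L.length ≤ n)
    {l : Dual ℂ (Fin n → ℂ)} : l ∈ (SecSp n L).dualAnnihilator ↔
      ∃ h : ℂ[X], h.degree < ((n - L.length : ℕ) : WithBot ℕ) ∧
        l = toDual n (cx (L.map lf).prod * h) := by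
  constructor
  · intro hl
    let Ψ : ↥(degreeLT ℂ (n - L.length)) →ₗ[ℂ] Dual ℂ (Fin n → ℂ) :=
      (toDual n).comp ((LinearMap.mulLeft ℂ (cx (L.map lf).prod)).comp (degreeLT ℂ _).subtype)
    have hΨ : ∀ h, Ψ h = toDual n (cx (L.map lf).prod * (h : ℂ[X])) := fun h => rfl
    have hD0 : cx (L.map lf).prod ≠ 0 := by
      rw [Ne, cx_eq_zero]
      apply List.prod_ne_zero
      intro hmem
      obtain ⟨a, ha, ha'⟩ := List.mem_map.1 hmem
      exact h0 a ha ha'
    have hinj : Function.Injective Ψ := by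
      intro g h hgh
      rw [hΨ, hΨ] at hgh
      have h1 := toDual_inj (degree_cx_mul_lt (natDegree_prod_le L) (mem_degreeLT.1 g.2)
        (Or.inr (by omega))) (degree_cx_mul_lt (natDegree_prod_le L) (mem_degreeLT.1 h.2)
        (Or.inr (by omega))) hgh
      exact Subtype.ext (mul_left_cancel₀ hD0 h1)
    have hle : LinearMap.range Ψ ≤ (SecSp n L).dualAnnihilator := by
      rintro _ ⟨h, rfl⟩
      rw [hΨ]
      exact toDual_prod_mem (mem_degreeLT.1 h.2)
    have heq : LinearMap.range Ψ = (SecSp n L).dualAnnihilator := by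
      apply Submodule.eq_of_le_of_finrank_eq hle
      rw [LinearMap.finrank_range_of_inj hinj, finrank_degreeLT, finrank_dualAnn,
        finrank_SecSp hL h0, finrank_fin_fun]
    rw [← heq] at hl
    obtain ⟨h, rfl⟩ := hl
    exact ⟨h, mem_degreeLT.1 h.2, hΨ h⟩
  · rintro ⟨h, hh, rfl⟩
    exact toDual_prod_mem hh

variable {rep : OnePoint ℝ → ℝ × ℝ}

theorem isCoprime_Dl (hrep : ∀ t, IsRep t (rep t)) {T T' : List (OnePoint ℝ)}
    (h : ∀ t ∈ T, t ∉ T') : IsCoprime (Dl rep T) (Dl rep T') := by
  induction T with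
  | nil => rw [Dl_nil]; exact isCoprime_one_left
  | cons t T ih =>
    rw [Dl_cons]
    refine IsCoprime.mul_left ?_ (ih fun s hs => h s (List.mem_cons_of_mem _ hs))
    have ht : t ∉ T' := h t (List.mem_cons_self ..)
    clear ih h
    induction T' with
    | nil => rw [Dl_nil]; exact isCoprime_one_right
    | cons s T' ih =>
      rw [Dl_cons]
      rw [List.mem_cons, not_or] at ht
      exact IsCoprime.mul_right (isCoprime_lf (br_rep_ne_zero ht.1 (hrep t) (hrep s))) (ih ht.2)

theorem isCoprime_cx {p q : ℝ[X]} (h : IsCoprime p q) : IsCoprime (cx p) (cx q) :=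
  h.map (mapRingHom (algebraMap ℝ ℂ))

theorem cx_prod {ι : Type*} (J : Finset ι) (f : ι → ℝ[X]) :
    cx (∏ j ∈ J, f j) = ∏ j ∈ J, cx (f j) := by
  simp [cx, Polynomial.map_prod]

/-- polynomials divisible by the products of several blocks -/
theorem blocks {m : ℕ} {I : Fin m → Set (OnePoint ℝ)}
    (hdis : ∀ i j, i ≠ j → Disjoint (I i) (I j)) (hrep : ∀ t, IsRep t (rep t))
    {T : Fin m → List (OnePoint ℝ)} (hTI : ∀ j, ∀ t ∈ T j, t ∈ I j) (J : Finset (Fin m))
    {f : ℂ[X]} (hfn : f.degree < (n : WithBot ℕ))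
    (hf : ∀ j ∈ J, ∃ h : ℂ[X], h.degree < ((n - (T j).length : ℕ) : WithBot ℕ) ∧
      f = cx (Dl rep (T j)) * h) :
    ∃ h : ℂ[X], h.degree < ((n - ∑ j ∈ J, (T j).length : ℕ) : WithBot ℕ) ∧
      f = cx (∏ j ∈ J, Dl rep (T j)) * h := by
  classical
  by_cases hf0 : f = 0
  · exact ⟨0, by rw [degree_zero]; exact WithBot.bot_lt_coe _, by rw [hf0, mul_zero]⟩
  have hdvd : cx (∏ j ∈ J, Dl rep (T j)) ∣ f := by
    rw [cx_prod]
    apply Finset.prod_dvd_of_coprime
    · intro i _ j _ hij
      apply isCoprime_cx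
      apply isCoprime_Dl hrep
      intro t ht ht'
      exact Set.disjoint_left.1 (hdis i j hij) (hTI i t ht) (hTI j t ht')
    · intro j hj
      obtain ⟨h, _, e⟩ := hf j hj
      exact ⟨h, e⟩
  obtain ⟨h, e⟩ := hdvd
  refine ⟨h, ?_, e⟩
  have hh0 : h ≠ 0 := by rintro rfl; rw [mul_zero] at e; exact hf0 e
  have hD0 : ∏ j ∈ J, Dl rep (T j) ≠ 0 := Finset.prod_ne_zero_iff.2 fun j _ => Dl_ne_zero hrep _
  have hcD0 : cx (∏ j ∈ J, Dl rep (T j)) ≠ 0 := by rw [Ne, cx_eq_zero]; exact hD0
  have hdeg : f.natDegree = ∑ j ∈ J, (Dl rep (T j)).natDegree + h.natDegree := by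
    rw [e, natDegree_mul hcD0 hh0, cx_natDegree,
      natDegree_prod _ _ (fun j _ => Dl_ne_zero hrep _)]
  rw [← natDegree_lt_iff_degree_lt hh0]
  rw [← natDegree_lt_iff_degree_lt hf0] at hfn
  have hT : ∀ j, (Dl rep (T j)).natDegree + (T j).count OnePoint.infty = (T j).length :=
    fun j => natDegree_Dl hrep (T j)
  have hsum : ∑ j ∈ J, (T j).length =
      ∑ j ∈ J, (Dl rep (T j)).natDegree + ∑ j ∈ J, (T j).count OnePoint.infty := by
    rw [← Finset.sum_add_distrib]
    exact Finset.sum_congr rfl fun j _ => (hT j).symm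
  by_cases hinf : ∃ j0 ∈ J, OnePoint.infty ∈ T j0
  · obtain ⟨j0, hj0, hj0'⟩ := hinf
    have hone : ∑ j ∈ J, (T j).count OnePoint.infty = (T j0).count OnePoint.infty := by
      apply Finset.sum_eq_single_of_mem j0 hj0
      intro j _ hne
      apply List.count_eq_zero_of_not_mem
      intro h1
      exact Set.disjoint_left.1 (hdis j j0 hne) (hTI j _ h1) (hTI j0 _ hj0')
    obtain ⟨h1, hh1, e1⟩ := hf j0 hj0
    have h10 : h1 ≠ 0 := by rintro rfl; rw [mul_zero] at e1; exact hf0 e1
    rw [← natDegree_lt_iff_degree_lt h10] at hh1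
    have hd1 : f.natDegree = (Dl rep (T j0)).natDegree + h1.natDegree := by
      rw [e1, natDegree_mul (by rw [Ne, cx_eq_zero]; exact Dl_ne_zero hrep _) h10, cx_natDegree]
    have := hT j0
    omega
  · have hz : ∑ j ∈ J, (T j).count OnePoint.infty = 0 := by
      apply Finset.sum_eq_zero
      intro j hj
      apply List.count_eq_zero_of_not_mem
      intro h1
      exact hinf ⟨j, hj, h1⟩
    omega

/-- multiplication by a fixed product -/
noncomputable def thetaMap (n N : ℕ) (D : ℝ[X]) : ↥(degreeLT ℂ N) →ₗ[ℂ] Dual ℂ (Fin n → ℂ) :=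
  (toDual n).comp ((LinearMap.mulLeft ℂ (cx D)).comp (degreeLT ℂ N).subtype)

theorem thetaMap_apply (n N : ℕ) (D : ℝ[X]) (g : ↥(degreeLT ℂ N)) :
    thetaMap n N D g = toDual n (cx D * (g : ℂ[X])) := rfl

theorem thetaMap_injective {N : ℕ} {D : ℝ[X]} (hD : D ≠ 0) (hN : D.natDegree + N ≤ n) :
    Function.Injective (thetaMap n N D) := by
  intro g h hgh
  rw [thetaMap_apply, thetaMap_apply] at hgh
  have h1 := toDual_inj (degree_cx_mul_lt le_rfl (mem_degreeLT.1 g.2) (Or.inr hN))
    (degree_cx_mul_lt le_rfl (mem_degreeLT.1 h.2) (Or.inr hN)) hgh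
  exact Subtype.ext (mul_left_cancel₀ (by rw [Ne, cx_eq_zero]; exact hD) h1)

theorem natDegree_Dl_le (hrep : ∀ t, IsRep t (rep t)) (T : List (OnePoint ℝ)) :
    (Dl rep T).natDegree ≤ T.length := by
  classical
  have := natDegree_Dl hrep T
  omega

section

variable {m : ℕ} {I : Fin m → Set (OnePoint ℝ)} (hdis : ∀ i j, i ≠ j → Disjoint (I i) (I j))
variable (hrep : ∀ t, IsRep t (rep t)) {B : Fin m → List (OnePoint ℝ)}
variable (hBI : ∀ j, ∀ t ∈ B j, t ∈ I j) (hBn : ∑ j, (B j).length ≤ n)

include hrep in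
theorem natDegree_prod_Dl_le (J : Finset (Fin m)) :
    (∏ j ∈ J, Dl rep (B j)).natDegree ≤ ∑ j ∈ J, (B j).length := by
  refine (natDegree_prod_le' _ _).trans (Finset.sum_le_sum fun j _ => natDegree_Dl_le hrep _)
where
  natDegree_prod_le' (J : Finset (Fin m)) (f : Fin m → ℝ[X]) :
      (∏ j ∈ J, f j).natDegree ≤ ∑ j ∈ J, (f j).natDegree := Polynomial.natDegree_prod_le _ _

include hrep in
theorem mem_ann_SecSp' {T : List (OnePoint ℝ)} (hT : T.length ≤ n) {l : Dual ℂ (Fin n → ℂ)} :
    l ∈ (SecSp n (T.map rep)).dualAnnihilator ↔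
      ∃ h : ℂ[X], h.degree < ((n - T.length : ℕ) : WithBot ℕ) ∧
        l = toDual n (cx (Dl rep T) * h) := by
  have h1 := mem_ann_SecSp (n := n) (L := T.map rep) (fun a ha => by
    obtain ⟨t, _, rfl⟩ := List.mem_map.1 ha
    exact lf_ne_zero (hrep t)) (by rw [List.length_map]; exact hT) (l := l)
  rw [List.length_map] at h1
  exact h1

include hdis hrep hBI hBn in
theorem range_theta : LinearMap.range (thetaMap n (n - ∑ j, (B j).length) (∏ j, Dl rep (B j))) =
    ⨅ j, (SecSp n ((B j).map rep)).dualAnnihilator := by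
  classical
  have hle : ∀ j, (B j).length ≤ n := fun j =>
    (Finset.single_le_sum (f := fun j => (B j).length) (fun _ _ => Nat.zero_le _)
      (Finset.mem_univ j)).trans hBn
  apply le_antisymm
  · rintro _ ⟨g, rfl⟩
    rw [Submodule.mem_iInf]
    intro j
    rw [mem_ann_SecSp' hrep (hle j), thetaMap_apply]
    refine ⟨cx (∏ i ∈ Finset.univ.erase j, Dl rep (B i)) * (g : ℂ[X]), ?_, ?_⟩
    · refine degree_cx_mul_lt (natDegree_prod_Dl_le hrep _) (mem_degreeLT.1 g.2) (Or.inr ?_)
      have := Finset.add_sum_erase Finset.univ (fun j => (B j).length) (Finset.mem_univ j)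
      have := hle j
      omega
    · rw [← mul_assoc, ← cx_mul,
        Finset.mul_prod_erase Finset.univ (fun i => Dl rep (B i)) (Finset.mem_univ j)]
  · intro l hl
    rw [Submodule.mem_iInf] at hl
    rcases Nat.eq_zero_or_pos m with hm | hm
    · subst hm
      -- no blocks : everything
      have h1 : ((∑ j : Fin 0, (B j).length) = 0) := by simp
      have h2 : l ∈ (SecSp n ((([] : List (OnePoint ℝ))).map rep)).dualAnnihilator := by
        have h3 : SecSp n ((([] : List (OnePoint ℝ))).map rep) = ⊥ := by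
          rw [← Submodule.finrank_eq_zero (R := ℂ)]
          have := finrank_SecSp (n := n) (L := ([] : List (ℝ × ℝ))) (by simp) (by simp)
          simpa using this
        rw [h3]; simp
      rw [mem_ann_SecSp' hrep (by simp)] at h2
      obtain ⟨h, hh, e⟩ := h2
      refine ⟨⟨h, ?_⟩, ?_⟩
      · rw [mem_degreeLT, h1]; simpa using hh
      · rw [thetaMap_apply, e]
        simp [Dl_nil]
    · have hl' := fun j => (mem_ann_SecSp' hrep (hle j)).1 (hl j)
      obtain ⟨h0, hh0, e0⟩ := hl' ⟨0, hm⟩
      set f := cx (Dl rep (B ⟨0, hm⟩)) * h0 with hf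
      have hfn : f.degree < (n : WithBot ℕ) :=
        degree_cx_mul_lt (natDegree_Dl_le hrep _) hh0 (Or.inr (by have := hle ⟨0, hm⟩; omega))
      obtain ⟨h, hh, e⟩ := blocks hdis hrep hBI Finset.univ hfn (fun j _ => by
        obtain ⟨hj, hhj, ej⟩ := hl' j
        refine ⟨hj, hhj, ?_⟩
        refine toDual_inj hfn ?_ (e0.symm.trans ej)
        exact degree_cx_mul_lt (natDegree_Dl_le hrep _) hhj (Or.inr (by have := hle j; omega)))
      refine ⟨⟨h, mem_degreeLT.2 hh⟩, ?_⟩
      rw [thetaMap_apply, e0, e]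

include hdis hrep hBI hBn in
theorem comap_theta (j : Fin m) {L : List (OnePoint ℝ)} (hLI : ∀ t ∈ L, t ∈ I j)
    (hL : (B j ++ L).length ≤ n) :
    ((SecSp n ((B j ++ L).map rep)).dualAnnihilator).comap
      (thetaMap n (n - ∑ j, (B j).length) (∏ j, Dl rep (B j))) =
      DivSp (n - ∑ j, (B j).length) (L.map rep) := by
  classical
  have hle : ∀ j, (B j).length ≤ n := fun j =>
    (Finset.single_le_sum (f := fun j => (B j).length) (fun _ _ => Nat.zero_le _)
      (Finset.mem_univ j)).trans hBn
  have hsj := Finset.add_sum_erase Finset.univ (fun j => (B j).length) (Finset.mem_univ j)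
  have hpj := Finset.mul_prod_erase Finset.univ (fun j => Dl rep (B j)) (Finset.mem_univ j)
  ext g
  rw [Submodule.mem_comap, mem_ann_SecSp' hrep hL, thetaMap_apply, mem_DivSp, List.length_map]
  rw [List.length_append] at hL
  have hgd := mem_degreeLT.1 g.2
  constructor
  · rintro ⟨h, hh, e⟩
    rw [List.length_append] at hh
    have hfn : (cx (∏ j, Dl rep (B j)) * (g : ℂ[X])).degree < (n : WithBot ℕ) :=
      degree_cx_mul_lt (natDegree_prod_Dl_le hrep _) hgd (Or.inr (by omega))
    have e1 : cx (∏ j, Dl rep (B j)) * (g : ℂ[X]) = cx (Dl rep (B j ++ L)) * h := by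
      refine toDual_inj hfn ?_ e
      exact degree_cx_mul_lt ((natDegree_Dl_le hrep _).trans (by rw [List.length_append])) hh
        (Or.inr (by omega))
    obtain ⟨h', hh', e'⟩ := blocks (T := Function.update B j (B j ++ L)) hdis hrep (fun i t ht => by
        by_cases hij : i = j
        · subst hij
          rw [Function.update_self, List.mem_append] at ht
          rcases ht with ht | ht
          · exact hBI i t ht
          · exact hLI t ht
        · rw [Function.update_of_ne hij] at ht
          exact hBI i t ht) Finset.univ hfn (fun i _ => by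
        by_cases hij : i = j
        · subst hij
          rw [Function.update_self, List.length_append]
          exact ⟨h, hh, e1⟩
        · rw [Function.update_of_ne hij]
          refine ⟨cx (∏ l ∈ Finset.univ.erase i, Dl rep (B l)) * (g : ℂ[X]), ?_, ?_⟩
          · refine degree_cx_mul_lt (natDegree_prod_Dl_le hrep _) hgd (Or.inr ?_)
            have := Finset.add_sum_erase Finset.univ (fun j => (B j).length) (Finset.mem_univ i)
            have := hle i
            omega
          · rw [← mul_assoc, ← cx_mul,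
              Finset.mul_prod_erase Finset.univ (fun i => Dl rep (B i)) (Finset.mem_univ i)])
    have hs : ∑ i, (Function.update B j (B j ++ L) i).length = ∑ i, (B i).length + L.length := by
      rw [← Finset.add_sum_erase Finset.univ _ (Finset.mem_univ j), Function.update_self,
        List.length_append, ← hsj]
      have : ∑ x ∈ Finset.univ.erase j, (Function.update B j (B j ++ L) x).length =
          ∑ x ∈ Finset.univ.erase j, (B x).length := by
        refine Finset.sum_congr rfl fun i hi => ?_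
        rw [Function.update_of_ne (Finset.ne_of_mem_erase hi)]
      omega
    have hp : ∏ i, Dl rep (Function.update B j (B j ++ L) i) =
        (∏ i, Dl rep (B i)) * Dl rep L := by
      rw [← Finset.mul_prod_erase Finset.univ _ (Finset.mem_univ j), Function.update_self,
        Dl_append, ← hpj]
      have : ∏ x ∈ Finset.univ.erase j, Dl rep (Function.update B j (B j ++ L) x) =
          ∏ x ∈ Finset.univ.erase j, Dl rep (B x) := by
        refine Finset.prod_congr rfl fun i hi => ?_
        rw [Function.update_of_ne (Finset.ne_of_mem_erase hi)]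
      rw [this]; ring
    refine ⟨h', ?_, ?_⟩
    · rw [hs] at hh'
      have : n - (∑ i, (B i).length + L.length) = n - ∑ i, (B i).length - L.length := by omega
      rwa [this] at hh'
    · rw [hp, cx_mul, mul_assoc] at e'
      exact mul_left_cancel₀ (by
        rw [Ne, cx_eq_zero]
        exact Finset.prod_ne_zero_iff.2 fun j _ => Dl_ne_zero hrep _) e'
  · rintro ⟨h, hh, e⟩
    refine ⟨cx (∏ l ∈ Finset.univ.erase j, Dl rep (B l)) * h, ?_, ?_⟩
    · rw [List.length_append]
      rcases Nat.eq_zero_or_pos (n - ∑ j, (B j).length - L.length) with h0 | h0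
      · rw [eq_zero_of_degree_lt h0 hh, mul_zero, degree_zero]
        exact WithBot.bot_lt_coe _
      · exact degree_cx_mul_lt (natDegree_prod_Dl_le hrep _) hh (Or.inr (by omega))
    · rw [e]
      congr 1
      rw [← hpj, Dl_append, cx_mul, cx_mul]
      show _ * (cx (Dl rep L) * h) = _
      ring

end

end Pool.Agent.Helper80.Sec
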