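import Pool.Agent.Helper80.Sec.Spec

/-!
The number of subspaces of dimension `2r` meeting the four subspaces of a quadruple in
dimension at least `r`.
-/

namespace Pool.Agent.Helper80.Sec

open Module

namespace Quad

variable {V : Type*} [AddCommGroup V] [Module ℂ V] (Q : Quad V)

theorem exists_pick (μ : Q.Lam) : ∃ w : ↥Q.PW, ((w : Q.U1 × Q.U3).1 : V) ≠ 0 ∧
    ((w : Q.U1 × Q.U3).2 : V) ≠ 0 ∧
    ((w : Q.U1 × Q.U3).1 : V) + (μ : ℂ) • ((w : Q.U1 × Q.U3).2 : V) ∈ Q.U4 := by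
  obtain ⟨hμ, x, hx, y, hy, hne, h2, h4⟩ := μ.2
  obtain ⟨hx0, hy0⟩ := Q.eig_x_ne hx hy h2 h4 hμ hne
  exact ⟨⟨(⟨x, hx⟩, ⟨y, hy⟩), Q.mem_PW.2 h2⟩, hx0, hy0, h4⟩

/-- an eigenpair -/
noncomputable def pk (μ : Q.Lam) : ↥Q.PW := (Q.exists_pick μ).choose

/-- first component -/
noncomputable def px (μ : Q.Lam) : V := ((Q.pk μ : Q.U1 × Q.U3).1 : V)

/-- second component -/
noncomputable def py (μ : Q.Lam) : V := ((Q.pk μ : Q.U1 × Q.U3).2 : V)

theorem px_mem (μ : Q.Lam) : Q.px μ ∈ Q.U1 := (Q.pk μ : Q.U1 × Q.U3).1.2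
theorem py_mem (μ : Q.Lam) : Q.py μ ∈ Q.U3 := (Q.pk μ : Q.U1 × Q.U3).2.2
theorem px_ne (μ : Q.Lam) : Q.px μ ≠ 0 := (Q.exists_pick μ).choose_spec.1
theorem py_ne (μ : Q.Lam) : Q.py μ ≠ 0 := (Q.exists_pick μ).choose_spec.2.1
theorem pxy2 (μ : Q.Lam) : Q.px μ + Q.py μ ∈ Q.U2 := Q.mem_PW.1 (Q.pk μ).2
theorem pxy4 (μ : Q.Lam) : Q.px μ + (μ : ℂ) • Q.py μ ∈ Q.U4 :=
  (Q.exists_pick μ).choose_spec.2.2

variable [FiniteDimensional ℂ V]

variable {Q} (D : Q.Dims)

include D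

omit D [FiniteDimensional ℂ V] in
theorem Lam_ne_I (μ : Q.Lam) : Complex.I - (μ : ℂ) ≠ 0 := by
  obtain ⟨him, -⟩ := Q.eig_real (Q.px_mem μ) (Q.py_mem μ) (Q.pxy2 μ) (Q.pxy4 μ) μ.2.1
    (Or.inl (Q.px_ne μ))
  intro h
  have : (μ : ℂ) = Complex.I := (sub_eq_zero.1 h).symm
  rw [this] at him
  simp at him

theorem pk_eig (μ : Q.Lam) : (opS D).HasEigenvector ((Complex.I - (μ : ℂ))⁻¹) (Q.pk μ) := by
  have hμI := Lam_ne_I μ
  refine ⟨?_, ?_⟩
  · rw [Module.End.mem_eigenspace_iff, opS_eig, eig_iff (inv_ne_zero hμI), inv_inv]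
    have : Complex.I - (Complex.I - (μ : ℂ)) = μ := by ring
    rw [this]
    exact Q.pxy4 μ
  · intro h
    apply Q.px_ne μ
    have : Q.px μ = ((Q.pk μ : Q.U1 × Q.U3).1 : V) := rfl
    rw [this, h]
    rfl

theorem sig_inj : Function.Injective (fun μ : Q.Lam => (Complex.I - (μ : ℂ))⁻¹) := by
  intro μ ν h
  have h1 : Complex.I - (μ : ℂ) = Complex.I - (ν : ℂ) := inv_injective h
  exact Subtype.ext (sub_right_injective h1)

theorem linInd_pk : LinearIndependent ℂ Q.pk :=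
  (opS D).eigenvectors_linearIndependent' _ (sig_inj D) _ (pk_eig D)

theorem linInd_px : LinearIndependent ℂ Q.px := by
  have hI : (1 : ℂ) - Complex.I * -Complex.I = 0 := by
    rw [mul_neg, Complex.I_mul_I]; ring
  have h1 : Disjoint (Submodule.span ℂ (Set.range Q.pk))
      (LinearMap.ker (Q.U1.subtype.comp ((LinearMap.fst ℂ _ _).comp Q.PW.subtype))) := by
    have h2 := (opS D).eigenspaces_iSupIndep (-Complex.I)
    refine (h2.mono ?_ ?_).symm
    · intro w hw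
      have hw0 : ((w : Q.U1 × Q.U3).1 : V) = 0 := hw
      rw [Module.End.mem_eigenspace_iff, opS_eig, hI, zero_smul, hw0]
      simp
    · rw [Submodule.span_le]
      rintro _ ⟨μ, rfl⟩
      have hne : (Complex.I - (μ : ℂ))⁻¹ ≠ -Complex.I := by
        intro h
        apply μ.2.1
        have h3 : Complex.I - (μ : ℂ) = Complex.I := by
          rw [← inv_inv (Complex.I - (μ : ℂ)), h, inv_neg, Complex.inv_I, neg_neg]
        calc (μ : ℂ) = Complex.I - (Complex.I - μ) := by ring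
          _ = 0 := by rw [h3]; ring
      exact (le_iSup₂ (f := fun (σ : ℂ) (_ : σ ≠ -Complex.I) => (opS D).eigenspace σ) _ hne)
        (pk_eig D μ).1
  exact (linInd_pk D).map h1

theorem linInd_py : LinearIndependent ℂ Q.py := by
  have h1 : Disjoint (Submodule.span ℂ (Set.range Q.pk))
      (LinearMap.ker (Q.U3.subtype.comp ((LinearMap.snd ℂ _ _).comp Q.PW.subtype))) := by
    have h2 := (opS D).eigenspaces_iSupIndep 0
    refine (h2.mono ?_ ?_).symm
    · intro w hw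
      have hw0 : ((w : Q.U1 × Q.U3).2 : V) = 0 := hw
      rw [Module.End.mem_eigenspace_iff, opS_eig, hw0]
      simp
    · rw [Submodule.span_le]
      rintro _ ⟨μ, rfl⟩
      have hne : (Complex.I - (μ : ℂ))⁻¹ ≠ 0 := inv_ne_zero (Lam_ne_I μ)
      exact (le_iSup₂ (f := fun (σ : ℂ) (_ : σ ≠ 0) => (opS D).eigenspace σ) _ hne)
        (pk_eig D μ).1
  exact (linInd_pk D).map h1

theorem linInd_pxy (a : Q.Lam → ℂ) : LinearIndependent ℂ (fun μ => Q.px μ + a μ • Q.py μ) := by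
  rw [linearIndependent_iff']
  intro s g hg
  have h1 : ∑ μ ∈ s, g μ • Q.px μ = 0 := by
    apply Q.U1_inf_U3
    · exact Submodule.sum_mem _ (fun μ _ => Q.U1.smul_mem _ (Q.px_mem μ))
    · have h2 : ∑ μ ∈ s, g μ • Q.px μ = - ∑ μ ∈ s, g μ • a μ • Q.py μ := by
        rw [eq_neg_iff_add_eq_zero, ← Finset.sum_add_distrib, ← hg]
        exact Finset.sum_congr rfl (fun μ _ => (smul_add _ _ _).symm)
      rw [h2]
      exact Q.U3.neg_mem (Submodule.sum_mem _ (fun μ _ =>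
        Q.U3.smul_mem _ (Q.U3.smul_mem _ (Q.py_mem μ))))
  exact (linearIndependent_iff'.1 (linInd_px D)) s g h1

omit D [FiniteDimensional ℂ V] in
/-- the span of the first components -/
def XS (S : Finset Q.Lam) : Submodule ℂ V := Submodule.span ℂ (Q.px '' (S : Set Q.Lam))

omit D [FiniteDimensional ℂ V] in
/-- the span of the second components -/
def YS (S : Finset Q.Lam) : Submodule ℂ V := Submodule.span ℂ (Q.py '' (S : Set Q.Lam))

omit D in
theorem finrank_span_image {f : Q.Lam → V} (hf : LinearIndependent ℂ f) (S : Finset Q.Lam) :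
    finrank ℂ ↥(Submodule.span ℂ (f '' (S : Set Q.Lam))) = S.card := by
  have h1 : LinearIndependent ℂ (fun μ : (S : Set Q.Lam) => f μ) := hf.comp _ Subtype.val_injective
  have h2 := finrank_span_eq_card h1
  have h3 : Set.range (fun μ : (S : Set Q.Lam) => f μ) = f '' (S : Set Q.Lam) := by
    rw [Set.image_eq_range]
  rw [h3] at h2
  rw [h2]
  simp

omit D [FiniteDimensional ℂ V] in
theorem XS_le (S : Finset Q.Lam) : XS S ≤ Q.U1 := by
  rw [XS, Submodule.span_le]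
  rintro _ ⟨μ, _, rfl⟩
  exact Q.px_mem μ

omit D [FiniteDimensional ℂ V] in
theorem YS_le (S : Finset Q.Lam) : YS S ≤ Q.U3 := by
  rw [YS, Submodule.span_le]
  rintro _ ⟨μ, _, rfl⟩
  exact Q.py_mem μ

omit D [FiniteDimensional ℂ V] in
theorem px_mem_XS {S : Finset Q.Lam} {μ : Q.Lam} (h : μ ∈ S) : Q.px μ ∈ XS S :=
  Submodule.subset_span ⟨μ, h, rfl⟩

omit D [FiniteDimensional ℂ V] in
theorem py_mem_YS {S : Finset Q.Lam} {μ : Q.Lam} (h : μ ∈ S) : Q.py μ ∈ YS S :=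
  Submodule.subset_span ⟨μ, h, rfl⟩

omit D [FiniteDimensional ℂ V] in
theorem XS_inf_YS (S T : Finset Q.Lam) : XS S ⊓ YS T = ⊥ := by
  rw [eq_bot_iff]
  rintro v ⟨h1, h2⟩
  exact (Submodule.mem_bot ℂ).2 (Q.U1_inf_U3 (XS_le S h1) (YS_le T h2))

/-- the subspaces of dimension `2r` meeting the four subspaces in dimension at least `r` -/
def Sol (Q : Quad V) (r : ℕ) : Set (Submodule ℂ V) :=
  {H | finrank ℂ H = 2 * r ∧ r ≤ finrank ℂ ↥(H ⊓ Q.U1) ∧ r ≤ finrank ℂ ↥(H ⊓ Q.U2) ∧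
    r ≤ finrank ℂ ↥(H ⊓ Q.U3) ∧ r ≤ finrank ℂ ↥(H ⊓ Q.U4)}

theorem finrank_HS (S : Finset Q.Lam) : finrank ℂ ↥(XS S ⊔ YS S) = 2 * S.card := by
  have h1 := Submodule.finrank_sup_add_finrank_inf_eq (XS S) (YS S)
  rw [XS_inf_YS, finrank_bot, add_zero] at h1
  have h2 : finrank ℂ ↥(XS S) = S.card := finrank_span_image (linInd_px D) S
  have h3 : finrank ℂ ↥(YS S) = S.card := finrank_span_image (linInd_py D) S
  omega

theorem HS_mem (S : Finset Q.Lam) : XS S ⊔ YS S ∈ Sol Q S.card := by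
  have key : ∀ (U : Submodule ℂ V) (f : Q.Lam → V), LinearIndependent ℂ f →
      (∀ μ, f μ ∈ U) → (∀ μ ∈ S, f μ ∈ XS S ⊔ YS S) →
      S.card ≤ finrank ℂ ↥((XS S ⊔ YS S) ⊓ U) := by
    intro U f hf h1 h2
    rw [← finrank_span_image hf S]
    apply Submodule.finrank_mono
    rw [Submodule.span_le]
    rintro _ ⟨μ, hμ, rfl⟩
    exact ⟨h2 μ hμ, h1 μ⟩
  have hx : ∀ μ ∈ S, Q.px μ ∈ XS S ⊔ YS S := fun μ hμ => Submodule.mem_sup_left (px_mem_XS hμ)
  have hy : ∀ μ ∈ S, Q.py μ ∈ XS S ⊔ YS S := fun μ hμ => Submodule.mem_sup_right (py_mem_YS hμ)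
  refine ⟨finrank_HS D S, key _ _ (linInd_px D) Q.px_mem hx, ?_,
    key _ _ (linInd_py D) Q.py_mem hy, ?_⟩
  · refine key _ _ (linInd_pxy D (fun _ => 1)) (fun μ => ?_) (fun μ hμ => ?_)
    · simpa using Q.pxy2 μ
    · exact Submodule.add_mem _ (hx μ hμ) (Submodule.smul_mem _ _ (hy μ hμ))
  · refine key _ _ (linInd_pxy D (fun μ => (μ : ℂ))) (fun μ => ?_) (fun μ hμ => ?_)
    · exact Q.pxy4 μ
    · exact Submodule.add_mem _ (hx μ hμ) (Submodule.smul_mem _ _ (hy μ hμ))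

theorem HS_inj : Function.Injective (fun S : Finset Q.Lam => XS S ⊔ YS S) := by
  have key : ∀ S T : Finset Q.Lam, XS S ⊔ YS S ≤ XS T ⊔ YS T → S ⊆ T := by
    intro S T h μ hμ
    have h1 : Q.px μ ∈ XS T ⊔ YS T := h (Submodule.mem_sup_left (px_mem_XS hμ))
    obtain ⟨a, ha, b, hb, hab⟩ := Submodule.mem_sup.1 h1
    have h2 : b = 0 := by
      apply Q.U1_inf_U3 _ (YS_le T hb)
      have : b = Q.px μ - a := by rw [← hab]; abel
      rw [this]
      exact Q.U1.sub_mem (Q.px_mem μ) (XS_le T ha)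
    rw [h2, add_zero] at hab
    rw [hab] at ha
    by_contra hμT
    exact (linInd_px D).notMem_span_image (s := (T : Set Q.Lam)) (by simpa using hμT) ha
  intro S T h
  have h' : XS S ⊔ YS S = XS T ⊔ YS T := h
  exact Finset.Subset.antisymm (key S T h'.le) (key T S h'.ge)

theorem Sol_eq (r : ℕ) :
    Sol Q r = (fun S : Finset Q.Lam => XS S ⊔ YS S) '' {S | S.card = r} := by
  apply Set.Subset.antisymm
  · rintro H ⟨h0, h1, h2, h3, h4⟩
    obtain ⟨E⟩ := Q.sub_aux h0 h1 h2 h3 h4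
    have hfin := finite_Lam D
    have : Fintype Q.Lam := hfin.fintype
    classical
    -- the spectrum of `H`
    let S : Finset Q.Lam := Finset.univ.filter (fun μ => Q.px μ ∈ H ∧ Q.py μ ∈ H)
    have hle : XS S ⊔ YS S ≤ H := by
      refine sup_le ?_ ?_
      · rw [XS, Submodule.span_le]
        rintro _ ⟨μ, hμ, rfl⟩
        exact (Finset.mem_filter.1 hμ).2.1
      · rw [YS, Submodule.span_le]
        rintro _ ⟨μ, hμ, rfl⟩
        exact (Finset.mem_filter.1 hμ).2.2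
    have hge : H ≤ XS S ⊔ YS S := by
      refine E.mem_of_eigs _ (fun μ x hx hx0 => ?_)
      have hne : (x : V) ≠ 0 := fun hc => hx0 (Subtype.ext hc)
      have hμ0 := E.eig_ne_zero hx hx0
      have hμ : μ ∈ Q.Lam := ⟨hμ0, x, x.2.2, E.A x, (E.A x).2.2, Or.inl hne, E.hA x, E.eig_U4 hx⟩
      obtain ⟨t, ht1, ht2⟩ := Q.eig_unique (Q.px_mem ⟨μ, hμ⟩) (Q.py_mem ⟨μ, hμ⟩) (Q.pxy2 ⟨μ, hμ⟩)
        (Q.pxy4 ⟨μ, hμ⟩) hμ0 (Or.inl (Q.px_ne ⟨μ, hμ⟩)) x.2.2 (E.A x).2.2 (E.hA x) (E.eig_U4 hx)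
      have ht0 : t ≠ 0 := by
        rintro rfl
        rw [zero_smul] at ht1
        exact hne ht1
      have hmem : (⟨μ, hμ⟩ : Q.Lam) ∈ S := by
        refine Finset.mem_filter.2 ⟨Finset.mem_univ _, ?_, ?_⟩
        · have := H.smul_mem t⁻¹ x.2.1
          rwa [ht1, smul_smul, inv_mul_cancel₀ ht0, one_smul] at this
        · have := H.smul_mem t⁻¹ (E.A x).2.1
          rwa [ht2, smul_smul, inv_mul_cancel₀ ht0, one_smul] at this
      constructor
      · rw [ht1]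
        exact Submodule.mem_sup_left (Submodule.smul_mem _ _ (px_mem_XS hmem))
      · rw [ht2]
        exact Submodule.mem_sup_right (Submodule.smul_mem _ _ (py_mem_YS hmem))
    have heq : XS S ⊔ YS S = H := le_antisymm hle hge
    refine ⟨S, ?_, heq⟩
    have h5 := finrank_HS D S
    rw [heq, h0] at h5
    show S.card = r
    omega
  · rintro _ ⟨S, hS, rfl⟩
    have hS' : S.card = r := hS
    rw [← hS']
    exact HS_mem D S

theorem ncard_Sol (r : ℕ) :
    (Sol Q r).ncard = (min (min Q.p (Q.N - Q.q)) (min Q.e2 Q.e4)).choose r := by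
  have hfin := finite_Lam D
  have : Fintype Q.Lam := hfin.fintype
  rw [Sol_eq D, Set.ncard_image_of_injective _ (HS_inj D), ← ncard_Lam D]
  have h1 : ({S : Finset Q.Lam | S.card = r}) =
      ((Finset.univ.powersetCard r : Finset (Finset Q.Lam)) : Set (Finset Q.Lam)) := by
    ext S
    simp [Finset.mem_powersetCard]
  rw [h1, Set.ncard_coe_finset, Finset.card_powersetCard, Finset.card_univ]
  congr 1
  rw [← Nat.card_eq_fintype_card]
  rfl

theorem finite_Sol (r : ℕ) : (Sol Q r).Finite := by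
  have hfin := finite_Lam D
  have : Fintype Q.Lam := hfin.fintype
  rw [Sol_eq D]
  exact (Set.toFinite _).image _

theorem encard_Sol (r : ℕ) :
    (Sol Q r).encard = ((min (min Q.p (Q.N - Q.q)) (min Q.e2 Q.e4)).choose r : ℕ) := by
  rw [← (finite_Sol D r).cast_ncard_eq, ncard_Sol D r]

end Quad

end Pool.Agent.Helper80.Sec
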