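import Pool.Agent.Helper80.Sec.Rect
import Pool.Agent.Helper80.Sec.CountQ

/-!
The number of points in the case of four rectangular conditions on `G(2r, n)`.
-/

namespace Pool.Agent.Helper80.Sec

open Module

variable {n : ℕ}

theorem finrank_inf_le_of_le {V : Type*} [AddCommGroup V] [Module ℂ V] [FiniteDimensional ℂ V]
    (H : Submodule ℂ V) {E E' : Submodule ℂ V} (h : E ≤ E') :
    finrank ℂ ↥(H ⊓ E') + finrank ℂ E ≤ finrank ℂ ↥(H ⊓ E) + finrank ℂ E' := by
  have h1 := Submodule.finrank_sup_add_finrank_inf_eq (H ⊓ E') E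
  have h2 : finrank ℂ ↥((H ⊓ E') ⊔ E) ≤ finrank ℂ E' :=
    Submodule.finrank_mono (sup_le inf_le_right h)
  have h3 : (H ⊓ E') ⊓ E = H ⊓ E := by rw [inf_assoc, inf_eq_right.2 h]
  rw [h3] at h1
  omega

/-- the minimum over four indices -/
theorem iInf_min {N : ℕ} {w : Fin 4 → ℕ} (π : Equiv.Perm (Fin 4)) (hw : ∀ j, w j ≤ N)
    (hsum : w (π 0) + w (π 1) + w (π 2) + w (π 3) = 2 * N) (h02 : w (π 0) + w (π 2) ≤ N) :
    min (min (w (π 0)) (w (π 2))) (min (N - w (π 1)) (N - w (π 3))) =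
      ⨅ j, min (w j) (N - w j) := by
  have h0 := hw (π 0)
  have h1 := hw (π 1)
  have h2 := hw (π 2)
  have h3 := hw (π 3)
  apply le_antisymm
  · refine le_ciInf (fun j => ?_)
    refine fin4_cases (P := fun j => min (min (w (π 0)) (w (π 2)))
      (min (N - w (π 1)) (N - w (π 3))) ≤ min (w j) (N - w j)) π ?_ ?_ ?_ ?_ j
    all_goals omega
  · have k0 : ⨅ j, min (w j) (N - w j) ≤ min (w (π 0)) (N - w (π 0)) :=
      ciInf_le' (fun j => min (w j) (N - w j)) (π 0)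
    have k1 : ⨅ j, min (w j) (N - w j) ≤ min (w (π 1)) (N - w (π 1)) :=
      ciInf_le' (fun j => min (w j) (N - w j)) (π 1)
    have k2 : ⨅ j, min (w j) (N - w j) ≤ min (w (π 2)) (N - w (π 2)) :=
      ciInf_le' (fun j => min (w j) (N - w j)) (π 2)
    have k3 : ⨅ j, min (w j) (N - w j) ≤ min (w (π 3)) (N - w (π 3)) :=
      ciInf_le' (fun j => min (w j) (N - w j)) (π 3)
    omega

/-- The number of solutions. -/
theorem count_aux {I : Fin 4 → Set (OnePoint ℝ)} (hpre : ∀ j, IsPreconnected (I j))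
    (hdis : ∀ i j, i ≠ j → Disjoint (I i) (I j)) {W : Fin 4 → Submodule ℂ (Fin n → ℂ)}
    (hu1 : ∀ j, 1 ≤ finrank ℂ (W j)) (hun : ∀ j, finrank ℂ (W j) < n)
    (hsum : ∑ j, finrank ℂ (W j) = 2 * n) (hW : ∀ j, IsGenSecant n (I j) (W j)) (r : ℕ) :
    {H : Submodule ℂ (Fin n → ℂ) | finrank ℂ H = 2 * r ∧
      ∀ j, r ≤ finrank ℂ ↥(H ⊓ W j)}.encard =
      ((⨅ j, min (finrank ℂ (W j)) (n - finrank ℂ (W j))).choose r : ℕ) := by
  obtain ⟨Q, π, e1, e2, e3, e4, -, hp, hq, hN, he2, he4⟩ := exists_quad hpre hdis hu1 hun hsum hW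
  have w0 := hun (π 0)
  have w1 := hun (π 1)
  have w2 := hun (π 2)
  have w3 := hun (π 3)
  have hpq := Q.hpq
  have D : Q.Dims := by
    refine ⟨?_, ?_, ?_, ?_, ?_⟩
    · rw [hN, finrank_fin_fun]
    · rw [hp, e1]
    · rw [hN, he2, e2]; omega
    · rw [hN, hq, e3]; omega
    · rw [hN, he4, e4]; omega
  have h1 : {H : Submodule ℂ (Fin n → ℂ) | finrank ℂ H = 2 * r ∧
      ∀ j, r ≤ finrank ℂ ↥(H ⊓ W j)} = Q.Sol r := by
    ext H
    constructor
    · rintro ⟨k0, k1⟩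
      refine ⟨k0, ?_, ?_, ?_, ?_⟩
      · rw [e1]; exact k1 _
      · rw [e2]; exact k1 _
      · rw [e3]; exact k1 _
      · rw [e4]; exact k1 _
    · rintro ⟨k0, k1, k2, k3, k4⟩
      refine ⟨k0, fin4_cases π ?_ ?_ ?_ ?_⟩
      · rw [← e1]; exact k1
      · rw [← e2]; exact k2
      · rw [← e3]; exact k3
      · rw [← e4]; exact k4
  have hsum' : finrank ℂ (W (π 0)) + finrank ℂ (W (π 1)) + finrank ℂ (W (π 2)) +
      finrank ℂ (W (π 3)) = 2 * n := by
    rw [← hsum, ← Equiv.sum_comp π, Fin.sum_univ_four]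
  rw [h1, Quad.encard_Sol D, ← iInf_min (N := n) (w := fun j => finrank ℂ (W j)) π
    (fun j => (hun j).le) hsum' (by omega)]
  have h3 : Q.N - Q.q = finrank ℂ (W (π 2)) := by omega
  rw [hp, he2, he4, h3]

/-- the Schubert conditions given by the partition `(s^r, 0^r)` -/
theorem schubert_of_finrank {r s : ℕ} (hr : 1 ≤ r) (hn : 2 * r < n) (hs : s ≤ n - 2 * r)
    {F : ℕ → Submodule ℂ (Fin n → ℂ)} (hdim : ∀ i, i ≤ n → finrank ℂ (F i) = i)
    (hmono : ∀ i j, i ≤ j → j ≤ n → F i ≤ F j)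
    {H : Submodule ℂ (Fin n → ℂ)} (h1 : finrank ℂ H = 2 * r)
    (h2 : r ≤ finrank ℂ ↥(H ⊓ F (n - r - s))) :
    H ∈ Schubert n (2 * r) (fun i => if (i : ℕ) < r then s else 0) F := by
  refine ⟨h1, fun i => ?_⟩
  have hi := i.2
  beta_reduce
  by_cases hir : (i : ℕ) < r
  · rw [if_pos hir]
    have k1 := finrank_inf_le_of_le H (hmono (n - 2 * r + ((i : ℕ) + 1) - s) (n - r - s)
      (by omega) (by omega))
    rw [hdim _ (by omega), hdim _ (by omega)] at k1
    omega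
  · rw [if_neg hir]
    have k1 := finrank_inf_le_of_le H (hmono (n - 2 * r + ((i : ℕ) + 1) - 0) n
      (by omega) le_rfl)
    rw [hdim _ (by omega), hdim _ (by omega)] at k1
    have htop : F n = ⊤ := by
      apply Submodule.eq_top_of_finrank_eq
      rw [hdim n le_rfl, finrank_fin_fun]
    rw [htop, inf_top_eq, h1] at k1
    omega

theorem rect_encard {r : ℕ} (hr : 1 ≤ r) (hn : 2 * r < n) {s : Fin 4 → ℕ}
    (hs : ∀ j, s j ≤ n - 2 * r) (hsum : ∑ j, s j = 2 * (n - 2 * r))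
    {I : Fin 4 → Set (OnePoint ℝ)} (hpre : ∀ j, IsPreconnected (I j))
    (hdis : ∀ i j, i ≠ j → Disjoint (I i) (I j))
    {F : Fin 4 → ℕ → Submodule ℂ (Fin n → ℂ)} (hF : ∀ j, IsSecantFlag n (I j) (F j)) :
    {H : Submodule ℂ (Fin n → ℂ) | ∀ j, H ∈ Schubert n (2 * r)
      (fun i => if (i : ℕ) < r then s j else 0) (F j)}.encard =
      ((⨅ j, min (r + s j) (n - r - s j)).choose r : ℕ) := by
  have hdim : ∀ j, finrank ℂ (F j (n - r - s j)) = n - r - s j := fun j => by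
    have := hs j
    exact (hF j).dim _ (by omega)
  have hsum4 : s 0 + s 1 + s 2 + s 3 = 2 * (n - 2 * r) := by
    rw [← hsum, Fin.sum_univ_four]
  have h1 := count_aux (n := n) (I := I) hpre hdis
    (W := fun j => F j (n - r - s j))
    (fun j => by rw [hdim]; have := hs j; omega)
    (fun j => by rw [hdim]; omega)
    (by
      rw [Fin.sum_univ_four, hdim, hdim, hdim, hdim]
      have h0 := hs 0; have h1 := hs 1; have h2 := hs 2; have h3 := hs 3
      omega)
    (fun j => (hF j).sec _ (by have := hs j; omega) (by omega)) r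
  have h2 : (fun j => min (finrank ℂ (F j (n - r - s j))) (n - finrank ℂ (F j (n - r - s j)))) =
      fun j => min (r + s j) (n - r - s j) := by
    funext j
    rw [hdim]
    have := hs j
    omega
  rw [h2] at h1
  rw [← h1]
  congr 1
  ext H
  constructor
  · intro hH
    exact ⟨(finrank_of_schubert hr hn (hs 0) (hH 0)).1,
      fun j => (finrank_of_schubert hr hn (hs j) (hH j)).2⟩
  · rintro ⟨k1, k2⟩ j
    exact schubert_of_finrank hr hn (hs j) (hF j).dim (hF j).mono k1 (k2 j)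

end Pool.Agent.Helper80.Sec
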