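import Pool.Agent.Helper80.Sec.DualMain
import Pool.Agent.Helper80.Sec.RectCount

/-!
The number of points for subspaces of codimension `2r`.
-/

namespace Pool.Agent.Helper80.Sec

open Polynomial Module

variable {n : ℕ}

theorem finrank_DivSp {N : ℕ} {rep : OnePoint ℝ → ℝ × ℝ} (hrep : ∀ t, IsRep t (rep t))
    {T : List (OnePoint ℝ)} (hT : T.length ≤ N) :
    finrank ℂ ↥(DivSp N (T.map rep)) = N - T.length := by
  have hD : cx (Dl rep T) ≠ 0 := by
    rw [Ne, cx_eq_zero]; exact Dl_ne_zero hrep T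
  let f : ↥(degreeLT ℂ (N - T.length)) →ₗ[ℂ] ↥(degreeLT ℂ N) :=
    LinearMap.codRestrict (degreeLT ℂ N)
      ((LinearMap.mulLeft ℂ (cx (Dl rep T))).comp (degreeLT ℂ (N - T.length)).subtype)
      (fun g => mem_degreeLT.2 (degree_cx_mul_lt (natDegree_Dl_le hrep T) (mem_degreeLT.1 g.2)
        (Or.inr (by omega))))
  have hf : ∀ g, ((f g : ↥(degreeLT ℂ N)) : ℂ[X]) = cx (Dl rep T) * (g : ℂ[X]) := fun g => rfl
  have hinj : Function.Injective f := by
    intro g h hgh
    have h1 := congrArg (fun z : ↥(degreeLT ℂ N) => (z : ℂ[X])) hgh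
    have h2 : cx (Dl rep T) * (g : ℂ[X]) = cx (Dl rep T) * (h : ℂ[X]) := h1
    exact Subtype.ext (mul_left_cancel₀ hD h2)
  have hr : LinearMap.range f = DivSp N (T.map rep) := by
    ext g
    rw [mem_DivSp, List.length_map]
    constructor
    · rintro ⟨h, rfl⟩
      exact ⟨h, mem_degreeLT.1 h.2, rfl⟩
    · rintro ⟨h, hh, e⟩
      exact ⟨⟨h, mem_degreeLT.2 hh⟩, Subtype.ext e.symm⟩
  rw [← hr, LinearMap.finrank_range_of_inj hinj, finrank_degreeLT]

/-- the quadruple attached to the flags -/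
theorem dual_setup {m r : ℕ} (hr : 1 ≤ r) (hn : 2 * r < n) {b c : Fin m → ℕ}
    {J : Finset (Fin m)} (hJ : J.card = 4) (hc : ∀ j, j ∉ J → c j = 0)
    (hbc : ∀ j, b j + c j ≤ n - 2 * r) (hsum : ∑ j, (2 * b j + c j) = 2 * (n - 2 * r))
    {I : Fin m → Set (OnePoint ℝ)} (hpre : ∀ j, IsPreconnected (I j))
    (hdis : ∀ i j, i ≠ j → Disjoint (I i) (I j))
    {F : Fin m → ℕ → Submodule ℂ (Fin n → ℂ)} (hF : ∀ j, IsSecantFlag n (I j) (F j))
    {N : ℕ} (hNb : N = n - ∑ j, b j) (hcN : ∀ j ∈ J, r + c j ≤ N) :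
    ∃ (θ : ↥(degreeLT ℂ N) →ₗ[ℂ] Dual ℂ (Fin n → ℂ))
      (Q : Quad ↥(degreeLT ℂ N)) (e : Fin 4 → Fin m) (π : Equiv.Perm (Fin 4)),
      Function.Injective θ ∧
      LinearMap.range θ = ⨅ j, (F j (b j)).dualAnnihilator ∧
      Function.Injective e ∧ (∀ i, e i ∈ J) ∧ (∀ j ∈ J, ∃ i, e i = j) ∧
      Q.U1 = (F (e (π 2)) (r + b (e (π 2)) + c (e (π 2)))).dualAnnihilator.comap θ ∧
      Q.U2 = (F (e (π 3)) (r + b (e (π 3)) + c (e (π 3)))).dualAnnihilator.comap θ ∧
      Q.U3 = (F (e (π 0)) (r + b (e (π 0)) + c (e (π 0)))).dualAnnihilator.comap θ ∧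
      Q.U4 = (F (e (π 1)) (r + b (e (π 1)) + c (e (π 1)))).dualAnnihilator.comap θ ∧
      Q.Dims ∧ Q.N = N ∧
      Q.p = N - (r + c (e (π 2))) ∧ Q.q = r + c (e (π 0)) ∧
      Q.e2 = r + c (e (π 3)) ∧ Q.e4 = r + c (e (π 1)) := by
  classical
  have hlt : ∀ j, r + b j + c j < n := fun j => by have := hbc j; omega
  have hdimu : ∀ j, finrank ℂ (F j (r + b j + c j)) = r + b j + c j :=
    fun j => (hF j).dim _ (hlt j).le
  have hdimb : ∀ j, finrank ℂ (F j (b j)) = b j :=
    fun j => (hF j).dim _ (by have := hbc j; omega)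
  have hnest := fun j => exists_nested (n := n) ((hF j).gen (i := b j) (by have := hbc j; omega))
    ((hF j).gen (hlt j)) ((hF j).mono _ _ (by omega) (hlt j).le) (by rw [hdimu]; exact hlt j)
  choose B L hB hBL hBI hLI hrepW using hnest
  have hBlen : ∀ j, (B j).length = b j := fun j => by rw [hB, hdimb]
  have hLlen : ∀ j, (L j).length = r + c j := fun j => by
    have := hBL j
    rw [List.length_append, hBlen, hdimu] at this
    omega
  have hsb : ∑ j, (B j).length = ∑ j, b j := Finset.sum_congr rfl fun j _ => hBlen j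
  have hsc : ∑ j, c j = ∑ j ∈ J, c j := by
    rw [← Finset.sum_subset (Finset.subset_univ J) (fun j _ hj => hc j hj)]
  have hs2 : 2 * ∑ j, b j + ∑ j ∈ J, c j = 2 * (n - 2 * r) := by
    rw [← hsum, Finset.sum_add_distrib, ← Finset.mul_sum, hsc]
  have hBn : ∑ j, (B j).length ≤ n := by omega
  rw [← hsb] at hNb
  subst hNb
  set N := n - ∑ j, (B j).length with hN
  have hNval : 2 * N = 4 * r + ∑ j ∈ J, c j := by omega
  -- four indices
  let e : Fin 4 → Fin m := fun i => J.orderEmbOfFin hJ i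
  have heinj : Function.Injective e := (J.orderEmbOfFin hJ).injective
  have heJ : ∀ i, e i ∈ J := fun i => J.orderEmbOfFin_mem hJ i
  have hesurj : ∀ j ∈ J, ∃ i, e i = j := by
    intro j hj
    have h1 := J.range_orderEmbOfFin hJ
    have h2 : j ∈ Set.range (J.orderEmbOfFin hJ) := by rw [h1]; exact hj
    exact h2
  have hsume : ∑ i, (L (e i)).length = 2 * N := by
    have h1 : ∑ i, (L (e i)).length = ∑ j ∈ J, (L j).length := by
      have h2 : J = Finset.univ.map ⟨e, heinj⟩ := by
        ext j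
        constructor
        · intro hj
          obtain ⟨i, hi⟩ := hesurj j hj
          exact Finset.mem_map.2 ⟨i, Finset.mem_univ _, hi⟩
        · intro hj
          obtain ⟨i, _, hi⟩ := Finset.mem_map.1 hj
          rw [← hi]; exact heJ i
      rw [h2, Finset.sum_map]
      rfl
    rw [h1, Finset.sum_congr rfl (fun j _ => hLlen j), Finset.sum_add_distrib, Finset.sum_const,
      hJ, hNval, smul_eq_mul]
  have hLN : ∀ i, (L (e i)).length ≤ N := by
    intro i
    rw [hLlen]
    exact hcN _ (heJ i)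
  obtain ⟨rep, Q, π, hrep, e1, e2, e3, e4, -, hp, hq, hQN, he2, he4⟩ := exists_quadD (N := N)
    (I := fun i => I (e i)) (fun i => hpre _) (fun i j hij => hdis _ _ (fun h => hij (heinj h)))
    (T := fun i => L (e i)) (fun i => hLI _) (fun i h => by
      have := hLlen (e i)
      rw [h, List.length_nil] at this
      omega) hLN hsume
  have hinj : Function.Injective (thetaMap n N (∏ j, Dl rep (B j))) := by
    apply thetaMap_injective
    · exact Finset.prod_ne_zero_iff.2 fun j _ => Dl_ne_zero hrep _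
    · have := natDegree_prod_Dl_le (B := B) hrep Finset.univ
      omega
  have hcomap : ∀ j,
      (F j (r + b j + c j)).dualAnnihilator.comap (thetaMap n N (∏ j, Dl rep (B j))) =
        DivSp N ((L j).map rep) := by
    intro j
    rw [(hrepW j rep hrep).2]
    exact comap_theta hdis hrep hBI hBn j (hLI j) (by rw [hBL, hdimu]; exact (hlt j).le)
  have l0 := hLN (π 0)
  have l1 := hLN (π 1)
  have l2 := hLN (π 2)
  have l3 := hLN (π 3)
  refine ⟨thetaMap n N (∏ j, Dl rep (B j)), Q, e, π, hinj, ?_, heinj, heJ, hesurj,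
    ?_, ?_, ?_, ?_, ?_, hQN, ?_, ?_, ?_, ?_⟩
  · rw [hN, range_theta hdis hrep hBI hBn]
    exact iInf_congr fun j => by rw [← (hrepW j rep hrep).1]
  · rw [hcomap]; exact e1
  · rw [hcomap]; exact e2
  · rw [hcomap]; exact e3
  · rw [hcomap]; exact e4
  · refine ⟨?_, ?_, ?_, ?_, ?_⟩
    · rw [hQN, finrank_degreeLT]
    · rw [hp, e1, finrank_DivSp hrep l2]
    · rw [hQN, he2, e2, finrank_DivSp hrep l3]; omega
    · rw [hQN, hq, e3, finrank_DivSp hrep l0]; omega
    · rw [hQN, he4, e4, finrank_DivSp hrep l1]; omega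
  · rw [hp, hLlen]
  · rw [hq, hLlen]
  · rw [he2, hLlen]
  · rw [he4, hLlen]

/-- a subspace satisfying the conditions forces the lists to be short -/
theorem dual_short {m r : ℕ} (hr : 1 ≤ r) (hn : 2 * r < n) {b c : Fin m → ℕ}
    {J : Finset (Fin m)} (hc : ∀ j, j ∉ J → c j = 0)
    (hbc : ∀ j, b j + c j ≤ n - 2 * r) (hsum : ∑ j, (2 * b j + c j) = 2 * (n - 2 * r))
    {I : Fin m → Set (OnePoint ℝ)}
    (hdis : ∀ i j, i ≠ j → Disjoint (I i) (I j))
    {F : Fin m → ℕ → Submodule ℂ (Fin n → ℂ)} (hF : ∀ j, IsSecantFlag n (I j) (F j))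
    {H : Submodule ℂ (Fin n → ℂ)} (hH : finrank ℂ H = n - 2 * r)
    (hb : ∀ j, F j (b j) ≤ H)
    (hu : ∀ j ∈ J, b j + c j ≤ finrank ℂ ↥(H ⊓ F j (r + b j + c j))) :
    ∀ j ∈ J, r + c j ≤ n - ∑ j, b j := by
  classical
  have hlt : ∀ j, r + b j + c j < n := fun j => by have := hbc j; omega
  have hdimu : ∀ j, finrank ℂ (F j (r + b j + c j)) = r + b j + c j :=
    fun j => (hF j).dim _ (hlt j).le
  have hdimb : ∀ j, finrank ℂ (F j (b j)) = b j :=
    fun j => (hF j).dim _ (by have := hbc j; omega)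
  have hnest := fun j => exists_nested (n := n) ((hF j).gen (i := b j) (by have := hbc j; omega))
    ((hF j).gen (hlt j)) ((hF j).mono _ _ (by omega) (hlt j).le) (by rw [hdimu]; exact hlt j)
  choose B L hB hBL hBI hLI hrepW using hnest
  have hBlen : ∀ j, (B j).length = b j := fun j => by rw [hB, hdimb]
  have hLlen : ∀ j, (L j).length = r + c j := fun j => by
    have := hBL j
    rw [List.length_append, hBlen, hdimu] at this
    omega
  have hsb : ∑ j, (B j).length = ∑ j, b j := Finset.sum_congr rfl fun j _ => hBlen j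
  have hsc : ∑ j, c j = ∑ j ∈ J, c j := by
    rw [← Finset.sum_subset (Finset.subset_univ J) (fun j _ hj => hc j hj)]
  have hs2 : 2 * ∑ j, b j + ∑ j ∈ J, c j = 2 * (n - 2 * r) := by
    rw [← hsum, Finset.sum_add_distrib, ← Finset.mul_sum, hsc]
  have hBn : ∑ j, (B j).length ≤ n := by omega
  rw [← hsb]
  set N := n - ∑ j, (B j).length with hN
  have hNval : 2 * N = 4 * r + ∑ j ∈ J, c j := by omega
  have hrange : ∀ rep : OnePoint ℝ → ℝ × ℝ, (∀ t, IsRep t (rep t)) →
      H.dualAnnihilator ≤ LinearMap.range (thetaMap n N (∏ j, Dl rep (B j))) := by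
    intro rep hrep
    rw [hN, range_theta hdis hrep hBI hBn]
    refine le_iInf fun j => ?_
    rw [← (hrepW j rep hrep).1]
    exact Submodule.dualAnnihilator_anti (hb j)
  have hinj : ∀ rep : OnePoint ℝ → ℝ × ℝ, (∀ t, IsRep t (rep t)) →
      Function.Injective (thetaMap n N (∏ j, Dl rep (B j))) := by
    intro rep hrep
    apply thetaMap_injective
    · exact Finset.prod_ne_zero_iff.2 fun j _ => Dl_ne_zero hrep _
    · have := natDegree_prod_Dl_le (B := B) hrep Finset.univ
      omega
  have hcomap : ∀ rep : OnePoint ℝ → ℝ × ℝ, (∀ t, IsRep t (rep t)) → ∀ j,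
      (F j (r + b j + c j)).dualAnnihilator.comap (thetaMap n N (∏ j, Dl rep (B j))) =
        DivSp N ((L j).map rep) := by
    intro rep hrep j
    rw [(hrepW j rep hrep).2]
    exact comap_theta hdis hrep hBI hBn j (hLI j) (by rw [hBL, hdimu]; exact (hlt j).le)
  have hfr : ∀ rep : OnePoint ℝ → ℝ × ℝ, (∀ t, IsRep t (rep t)) → ∀ j,
      finrank ℂ ↥(H.dualAnnihilator.comap (thetaMap n N (∏ j, Dl rep (B j))) ⊓
        DivSp N ((L j).map rep)) = n - finrank ℂ ↥(H ⊔ F j (r + b j + c j)) := by
    intro rep hrep j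
    rw [← hcomap rep hrep j, finrank_orth_inf (hinj rep hrep) (hrange rep hrep), finrank_fin_fun]
  have hsupinf : ∀ j, finrank ℂ ↥(H ⊔ F j (r + b j + c j)) +
      finrank ℂ ↥(H ⊓ F j (r + b j + c j)) = n - 2 * r + (r + b j + c j) := fun j => by
    rw [Submodule.finrank_sup_add_finrank_inf_eq, hH, hdimu]
  set rep0 : OnePoint ℝ → ℝ × ℝ := fun t => t.elim (1, 0) (fun s => (s, 1)) with hrepdef
  have hrep0 : ∀ t, IsRep t (rep0 t) := by
    intro t
    induction t using OnePoint.rec with
    | infty => exact ⟨rfl, one_ne_zero⟩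
    | coe t => exact ⟨one_ne_zero, by simp [hrepdef]⟩
  intro j hj
  by_contra hcon
  have h0 := hfr rep0 hrep0 j
  have h1 := hsupinf j
  have h2 := hu j hj
  have h3 := hLlen j
  rw [DivSp_eq_bot (by rw [List.length_map]; omega), inf_bot_eq, finrank_bot] at h0
  omega

/-- the Schubert conditions of the partition `((2r)^b, r^c)` -/
theorem schubert_of_dual {r b c : ℕ} (hr : 1 ≤ r) (hn : 2 * r < n) (hbc : b + c ≤ n - 2 * r)
    {F : ℕ → Submodule ℂ (Fin n → ℂ)} (hdim : ∀ i, i ≤ n → finrank ℂ (F i) = i)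
    (hmono : ∀ i j, i ≤ j → j ≤ n → F i ≤ F j)
    {H : Submodule ℂ (Fin n → ℂ)} (h1 : finrank ℂ H = n - 2 * r) (h2 : F b ≤ H)
    (h3 : b + c ≤ finrank ℂ ↥(H ⊓ F (r + b + c))) :
    H ∈ Schubert n (n - 2 * r)
      (fun i => if (i : ℕ) < b then 2 * r else if (i : ℕ) < b + c then r else 0) F := by
  refine ⟨h1, fun i => ?_⟩
  have hi := i.2
  beta_reduce
  by_cases hib : (i : ℕ) < b
  · rw [if_pos hib]
    have e : n - (n - 2 * r) + ((i : ℕ) + 1) - 2 * r = (i : ℕ) + 1 := by omega
    rw [e, inf_eq_right.2 ((hmono _ _ (by omega) (by omega)).trans h2), hdim _ (by omega)]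
  · rw [if_neg hib]
    by_cases hic : (i : ℕ) < b + c
    · rw [if_pos hic]
      have e : n - (n - 2 * r) + ((i : ℕ) + 1) - r = r + (i : ℕ) + 1 := by omega
      rw [e]
      have k1 := finrank_inf_le_of_le H (hmono (r + (i : ℕ) + 1) (r + b + c)
        (by omega) (by omega))
      rw [hdim _ (by omega), hdim _ (by omega)] at k1
      omega
    · rw [if_neg hic]
      have e : n - (n - 2 * r) + ((i : ℕ) + 1) - 0 = 2 * r + (i : ℕ) + 1 := by omega
      rw [e]
      have k1 := finrank_inf_le_of_le H (hmono (2 * r + (i : ℕ) + 1) n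
        (by omega) le_rfl)
      rw [hdim _ (by omega), hdim _ (by omega)] at k1
      have htop : F n = ⊤ := by
        apply Submodule.eq_top_of_finrank_eq
        rw [hdim n le_rfl, finrank_fin_fun]
      rw [htop, inf_top_eq, h1] at k1
      omega

theorem dual_encard {m r : ℕ} (hr : 1 ≤ r) (hn : 2 * r < n) {b c : Fin m → ℕ}
    {J : Finset (Fin m)} (hJ : J.card = 4) (hc : ∀ j, j ∉ J → c j = 0)
    (hbc : ∀ j, b j + c j ≤ n - 2 * r) (hsum : ∑ j, (2 * b j + c j) = 2 * (n - 2 * r))
    {I : Fin m → Set (OnePoint ℝ)} (hpre : ∀ j, IsPreconnected (I j))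
    (hdis : ∀ i j, i ≠ j → Disjoint (I i) (I j))
    {F : Fin m → ℕ → Submodule ℂ (Fin n → ℂ)} (hF : ∀ j, IsSecantFlag n (I j) (F j)) :
    {H : Submodule ℂ (Fin n → ℂ) | ∀ j, H ∈ Schubert n (n - 2 * r)
      (fun i => if (i : ℕ) < b j then 2 * r else if (i : ℕ) < b j + c j then r else 0)
      (F j)}.encard =
    ((⨅ j : J, min (r + c j) (n - ∑ i, b i - (r + c j))).choose r : ℕ) := by
  have hJne : J.Nonempty := by rw [← Finset.card_pos]; omega
  obtain ⟨j0, hj0⟩ := hJne
  have hJne : Nonempty J := ⟨⟨j0, hj0⟩⟩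
  have hlt : ∀ j, r + b j + c j < n := fun j => by have := hbc j; omega
  have hdimu : ∀ j, finrank ℂ (F j (r + b j + c j)) = r + b j + c j :=
    fun j => (hF j).dim _ (hlt j).le
  obtain ⟨N, hN⟩ : ∃ N, N = n - ∑ j, b j := ⟨_, rfl⟩
  rw [← hN]
  by_cases hcN : ∀ j ∈ J, r + c j ≤ N
  · obtain ⟨θ, Q, e, π, hθ, hrange, heinj, heJ, hesurj, e1, e2, e3, e4, D, hQN, hp, hq, he2, he4⟩ :=
      dual_setup hr hn hJ hc hbc hsum hpre hdis hF hN hcN
    have hsupinf : ∀ (H : Submodule ℂ (Fin n → ℂ)) (j : Fin m),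
        finrank ℂ ↥(H ⊔ F j (r + b j + c j)) +
        finrank ℂ ↥(H ⊓ F j (r + b j + c j)) = finrank ℂ H + (r + b j + c j) := fun H j => by
      rw [Submodule.finrank_sup_add_finrank_inf_eq, hdimu]
    have hsupn : ∀ (H : Submodule ℂ (Fin n → ℂ)) (j : Fin m),
        finrank ℂ ↥(H ⊔ F j (r + b j + c j)) ≤ n := fun H j => by
      have := Submodule.finrank_le (H ⊔ F j (r + b j + c j))
      rwa [finrank_fin_fun] at this
    have hset : {H : Submodule ℂ (Fin n → ℂ) | ∀ j, H ∈ Schubert n (n - 2 * r)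
        (fun i => if (i : ℕ) < b j then 2 * r else if (i : ℕ) < b j + c j then r else 0)
        (F j)} = (fun G : Submodule ℂ ↥(degreeLT ℂ N) =>
          (G.map θ).dualCoannihilator) '' (Q.Sol r) := by
      apply Set.Subset.antisymm
      · intro H hH
        have hS := fun j => schubert_dual hr hn (hbc j) (hF j) (hH j)
        have hHr : H.dualAnnihilator ≤ LinearMap.range θ := by
          rw [hrange]
          exact le_iInf fun j => Submodule.dualAnnihilator_anti (hS j).2.1
        have hmap : (H.dualAnnihilator.comap θ).map θ = H.dualAnnihilator := by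
          rw [Submodule.map_comap_eq, inf_eq_right.2 hHr]
        have key : ∀ j, r ≤ finrank ℂ ↥(H.dualAnnihilator.comap θ ⊓
            (F j (r + b j + c j)).dualAnnihilator.comap θ) := by
          intro j
          rw [finrank_orth_inf hθ hHr, finrank_fin_fun]
          have h1 := hsupinf H j
          have h2 := (hS j).2.2
          have h3 := (hS j).1
          omega
        refine ⟨H.dualAnnihilator.comap θ, ⟨?_, ?_, ?_, ?_, ?_⟩, ?_⟩
        · rw [finrank_orth hθ hHr, (hS j0).1, finrank_fin_fun]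
          omega
        · rw [e1]; exact key _
        · rw [e2]; exact key _
        · rw [e3]; exact key _
        · rw [e4]; exact key _
        · beta_reduce
          rw [hmap, Subspace.dualAnnihilator_dualCoannihilator_eq]
      · rintro _ ⟨G, ⟨k0, k1, k2, k3, k4⟩, rfl⟩
        beta_reduce
        set H := (G.map θ).dualCoannihilator with hH
        have hHa : H.dualAnnihilator = G.map θ := by
          rw [hH]; exact Subspace.dualCoannihilator_dualAnnihilator_eq
        have hHr : H.dualAnnihilator ≤ LinearMap.range θ := by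
          rw [hHa]; exact LinearMap.map_le_range
        have hcom : H.dualAnnihilator.comap θ = G := by
          rw [hHa]; exact Submodule.comap_map_eq_of_injective hθ G
        have hfH : finrank ℂ H = n - 2 * r := by
          have h1 := finrank_orth hθ hHr
          rw [hcom, k0, finrank_fin_fun] at h1
          have h2 := Submodule.finrank_le H
          rw [finrank_fin_fun] at h2
          omega
        have hbH : ∀ j, F j (b j) ≤ H := by
          intro j
          have h1 : H.dualAnnihilator ≤ (F j (b j)).dualAnnihilator := by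
            refine hHr.trans ?_
            rw [hrange]
            exact iInf_le _ j
          have h2 := Submodule.dualCoannihilator_anti h1
          rwa [Subspace.dualAnnihilator_dualCoannihilator_eq,
            Subspace.dualAnnihilator_dualCoannihilator_eq] at h2
        have huH : ∀ j ∈ J, b j + c j ≤ finrank ℂ ↥(H ⊓ F j (r + b j + c j)) := by
          have key : ∀ j, r ≤ finrank ℂ ↥(G ⊓ (F j (r + b j + c j)).dualAnnihilator.comap θ) →
              b j + c j ≤ finrank ℂ ↥(H ⊓ F j (r + b j + c j)) := by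
            intro j hj
            rw [← hcom, finrank_orth_inf hθ hHr, finrank_fin_fun] at hj
            have h1 := hsupinf H j
            have h2 := hsupn H j
            omega
          intro j hj
          obtain ⟨i, rfl⟩ := hesurj j hj
          refine fin4_cases (P := fun i => b (e i) + c (e i) ≤
            finrank ℂ ↥(H ⊓ F (e i) (r + b (e i) + c (e i)))) π ?_ ?_ ?_ ?_ i
          · exact key _ (by rw [← e3]; exact k3)
          · exact key _ (by rw [← e4]; exact k4)
          · exact key _ (by rw [← e1]; exact k1)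
          · exact key _ (by rw [← e2]; exact k2)
        intro j
        refine schubert_of_dual hr hn (hbc j) (hF j).dim (hF j).mono hfH (hbH j) ?_
        by_cases hj : j ∈ J
        · exact huH j hj
        · rw [hc j hj]
          have h3 : F j (b j) ≤ H ⊓ F j (r + b j + 0) :=
            le_inf (hbH j) ((hF j).mono _ _ (by omega) (by have := hlt j; omega))
          have h4 := Submodule.finrank_mono h3
          rwa [(hF j).dim (b j) (by have := hlt j; omega)] at h4
    have hinj : Function.Injective (fun G : Submodule ℂ ↥(degreeLT ℂ N) =>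
        (G.map θ).dualCoannihilator) := by
      intro G G' h
      have h1 : (G.map θ).dualCoannihilator = (G'.map θ).dualCoannihilator := h
      have h2 := congrArg Submodule.dualAnnihilator h1
      rw [Subspace.dualCoannihilator_dualAnnihilator_eq,
        Subspace.dualCoannihilator_dualAnnihilator_eq] at h2
      exact Submodule.map_injective_of_injective hθ h2
    rw [hset, hinj.encard_image, Quad.encard_Sol D]
    -- the minimum
    have l0 := hcN _ (heJ (π 0))
    have l1 := hcN _ (heJ (π 1))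
    have l2 := hcN _ (heJ (π 2))
    have l3 := hcN _ (heJ (π 3))
    have hpq := Q.hpq
    have hqN := Q.hqN
    have hQs := Q.hsum
    obtain ⟨ρ, hρ0, hρ1, hρ2, hρ3⟩ : ∃ ρ : Equiv.Perm (Fin 4), ρ 0 = π 2 ∧ ρ 1 = π 3 ∧
        ρ 2 = π 0 ∧ ρ 3 = π 1 := ⟨(Equiv.addRight (2 : Fin 4)).trans π, rfl, rfl, rfl, rfl⟩
    have h6 := iInf_min (N := N) (w := fun i => N - (r + c (e i))) ρ
      (fun j => Nat.sub_le _ _) (by
        rw [hρ0, hρ1, hρ2, hρ3]
        omega) (by
        rw [hρ0, hρ2]
        omega)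
    beta_reduce at h6
    rw [hρ0, hρ1, hρ2, hρ3] at h6
    have h7 : (fun i => min (N - (r + c (e i))) (N - (N - (r + c (e i))))) =
        fun i => min (r + c (e i)) (N - (r + c (e i))) := by
      funext i
      have := hcN _ (heJ i)
      omega
    have h8 : (⨅ i, min (r + c (e i)) (N - (r + c (e i)))) =
        ⨅ j : J, min (r + c j) (N - (r + c j)) := by
      refine Function.Surjective.iInf_comp (f := fun i : Fin 4 => (⟨e i, heJ i⟩ : J)) ?_
        (fun j : J => min (r + c j) (N - (r + c j)))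
      rintro ⟨j, hj⟩
      obtain ⟨i, hi⟩ := hesurj j hj
      exact ⟨i, Subtype.ext hi⟩
    rw [h7, h8] at h6
    have h9 : min (min Q.p (Q.N - Q.q)) (min Q.e2 Q.e4) =
        ⨅ j : J, min (r + c j) (N - (r + c j)) := by
      rw [← h6, hp, he2, he4, hQN, hq]
      omega
    rw [h9]
  · push Not at hcN
    obtain ⟨j, hj, hjN⟩ := hcN
    have hempty : {H : Submodule ℂ (Fin n → ℂ) | ∀ j, H ∈ Schubert n (n - 2 * r)
        (fun i => if (i : ℕ) < b j then 2 * r else if (i : ℕ) < b j + c j then r else 0)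
        (F j)} = ∅ := by
      rw [Set.eq_empty_iff_forall_notMem]
      intro H hH
      have hS := fun j => schubert_dual hr hn (hbc j) (hF j) (hH j)
      have := dual_short hr hn hc hbc hsum hdis hF (hS j0).1
        (fun j => (hS j).2.1) (fun j _ => (hS j).2.2) j hj
      omega
    rw [hempty, Set.encard_empty]
    have h1 : (⨅ j : J, min (r + c j) (N - (r + c j))) ≤
        min (r + c j) (N - (r + c j)) :=
      ciInf_le' (fun j : J => min (r + c j) (N - (r + c j))) ⟨j, hj⟩
    have h2 : (⨅ j : J, min (r + c j) (N - (r + c j))) = 0 := by omega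
    rw [h2, Nat.choose_eq_zero_of_lt (by omega), Nat.cast_zero]

end Pool.Agent.Helper80.Sec
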