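import Pool.Agent.Helper80.Sec.Sol4T
import Pool.Agent.Helper80.Sec.DualCount

/-!
Representatives and complex conjugation.
-/

namespace Pool.Agent.Helper80.Sec

open Polynomial Module

variable {n : ℕ}

theorem lf_rep {t : OnePoint ℝ} {a b : ℝ × ℝ} (ha : IsRep t a) (hb : IsRep t b) :
    ∃ c : ℝ, c ≠ 0 ∧ lf b = C c * lf a := by
  induction t using OnePoint.rec with
  | infty =>
    have ha' : a.2 = 0 ∧ a.1 ≠ 0 := ha
    have hb' : b.2 = 0 ∧ b.1 ≠ 0 := hb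
    refine ⟨b.1 / a.1, div_ne_zero hb'.2 ha'.2, ?_⟩
    rw [lf_of_rep_infty ha, lf_of_rep_infty hb, ← C_mul]
    congr 1
    have := ha'.2
    field_simp
  | coe t =>
    have ha' : a.2 ≠ 0 ∧ a.1 = t * a.2 := ha
    have hb' : b.2 ≠ 0 ∧ b.1 = t * b.2 := hb
    refine ⟨b.2 / a.2, div_ne_zero hb'.1 ha'.1, ?_⟩
    rw [lf_of_rep ha, lf_of_rep hb, ← mul_assoc, ← C_mul]
    congr 2
    have := ha'.1
    field_simp

theorem Dl_rep {rep rep' : OnePoint ℝ → ℝ × ℝ} (h : ∀ t, IsRep t (rep t))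
    (h' : ∀ t, IsRep t (rep' t)) (T : List (OnePoint ℝ)) :
    ∃ c : ℝ, c ≠ 0 ∧ Dl rep' T = C c * Dl rep T := by
  induction T with
  | nil => exact ⟨1, one_ne_zero, by rw [Dl_nil, Dl_nil, C_1, one_mul]⟩
  | cons t T ih =>
    obtain ⟨c, hc, e⟩ := ih
    obtain ⟨d, hd, e'⟩ := lf_rep (h t) (h' t)
    refine ⟨d * c, mul_ne_zero hd hc, ?_⟩
    rw [Dl_cons, Dl_cons, e, e', C_mul]
    ring

theorem SecSp_rep_le {rep rep' : OnePoint ℝ → ℝ × ℝ} (h : ∀ t, IsRep t (rep t))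
    (h' : ∀ t, IsRep t (rep' t)) (T : List (OnePoint ℝ)) :
    SecSp n (T.map rep) ≤ SecSp n (T.map rep') := by
  obtain ⟨c, hc, e⟩ := Dl_rep h h' T
  intro v hv
  rw [mem_SecSp] at hv ⊢
  intro m hm
  rw [List.length_map] at hm
  have h1 := hv m (by rw [List.length_map]; exact hm)
  have e1 : ((T.map rep').map lf).prod = C c * ((T.map rep).map lf).prod := e
  rw [e1, mul_assoc, pair_C_mul, h1, mul_zero]

theorem SecSp_rep {rep rep' : OnePoint ℝ → ℝ × ℝ} (h : ∀ t, IsRep t (rep t))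
    (h' : ∀ t, IsRep t (rep' t)) (T : List (OnePoint ℝ)) :
    SecSp n (T.map rep) = SecSp n (T.map rep') :=
  le_antisymm (SecSp_rep_le h h' T) (SecSp_rep_le h' h T)

/-- coordinatewise conjugation -/
noncomputable def cjF (n : ℕ) : (Fin n → ℂ) →ₛₗ[starRingEnd ℂ] (Fin n → ℂ) where
  toFun v := fun i => (starRingEnd ℂ) (v i)
  map_add' v w := by funext i; simp
  map_smul' c v := by funext i; simp

theorem cjF_apply (v : Fin n → ℂ) : cjF n v = fun i => (starRingEnd ℂ) (v i) := rfl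

theorem pair_cj (v : Fin n → ℂ) (q : ℝ[X]) : pair (cjF n v) q = (starRingEnd ℂ) (pair v q) := by
  simp only [pair, cjF_apply, map_sum, map_mul, Complex.conj_ofReal]

theorem SecSp_cj (L : List (ℝ × ℝ)) : ∀ v ∈ SecSp n L, cjF n v ∈ SecSp n L := by
  intro v hv
  rw [mem_SecSp] at hv ⊢
  intro m hm
  rw [pair_cj, hv m hm, map_zero]

theorem ZF_cj (a c : ℕ → ℝ × ℝ) (v : Fin n → ℂ) (i : ℕ) :
    ZF n a c (cjF n v) i = (starRingEnd ℂ) (ZF n a c v i) := by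
  rcases Nat.lt_or_ge i n with h | h
  · rw [ZF_apply _ h, ZF_apply _ h, pair_cj]
  · rw [ZF_apply_ge _ h, ZF_apply_ge _ h, map_zero]

theorem cx_cj (q : ℝ[X]) : (cx q).map (starRingEnd ℂ) = cx q := by
  ext i
  rw [coeff_map, cx, coeff_map]
  exact Complex.conj_ofReal _

/-- conjugation of the coefficients -/
noncomputable def cjD (N : ℕ) : ↥(degreeLT ℂ N) →ₛₗ[starRingEnd ℂ] ↥(degreeLT ℂ N) where
  toFun f := ⟨(f : ℂ[X]).map (starRingEnd ℂ), by
    rw [mem_degreeLT]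
    exact lt_of_le_of_lt (degree_map_le) (mem_degreeLT.1 f.2)⟩
  map_add' f g := by apply Subtype.ext; simp
  map_smul' c f := by
    apply Subtype.ext
    simp only [Submodule.coe_smul, smul_eq_C_mul, Polynomial.map_mul, Polynomial.map_C]

theorem cjD_coe {N : ℕ} (f : ↥(degreeLT ℂ N)) :
    ((cjD N f : ↥(degreeLT ℂ N)) : ℂ[X]) = (f : ℂ[X]).map (starRingEnd ℂ) := rfl

theorem ZD_cj {a c : ℕ → ℝ × ℝ} (hb : ∀ i j, br (a i) (c j) ≠ 0) {N : ℕ} (f : ↥(degreeLT ℂ N))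
    (i : ℕ) : ZD a c hb N (cjD N f) i = (starRingEnd ℂ) (ZD a c hb N f i) := by
  have h1 : ZD a c hb N (cjD N f) = fun i => (starRingEnd ℂ) (ZD a c hb N f i) := by
    apply ZD_eq hb
    · intro i hi
      rw [ZD_supp hb f hi, map_zero]
    · rw [cjD_coe]
      nth_rewrite 1 [ZD_spec hb f]
      rw [ex, ex, Polynomial.map_sum]
      refine Finset.sum_congr rfl fun i _ => ?_
      rw [Polynomial.map_mul, Polynomial.map_C, cx_cj]
  rw [h1]

theorem DivSp_cj (N : ℕ) (L : List (ℝ × ℝ)) : ∀ f ∈ DivSp N L, cjD N f ∈ DivSp N L := by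
  intro f hf
  rw [mem_DivSp] at hf ⊢
  obtain ⟨h, hh, e⟩ := hf
  refine ⟨h.map (starRingEnd ℂ), lt_of_le_of_lt degree_map_le hh, ?_⟩
  rw [cjD_coe, e, Polynomial.map_mul, cx_cj]

theorem toDual_cjD {N : ℕ} (f : ↥(degreeLT ℂ N)) (v : Fin N → ℂ) :
    toDual N (f : ℂ[X]) (cjF N v) =
      (starRingEnd ℂ) (toDual N ((cjD N f : ↥(degreeLT ℂ N)) : ℂ[X]) v) := by
  rw [toDual_apply, toDual_apply, map_sum]
  refine Finset.sum_congr rfl fun i _ => ?_
  rw [map_mul, cjD_coe, coeff_map, Complex.conj_conj]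
  rfl

theorem isRealPoint_iff {H : Submodule ℂ (Fin n → ℂ)} :
    IsRealPoint H ↔ ∀ v ∈ H, cjF n v ∈ H := Iff.rfl

end Pool.Agent.Helper80.Sec
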