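import Pool.Agent.Helper80.Sec.Alt

/-!
Four subspaces of a complex vector space with sign variation properties.
-/

namespace Pool.Agent.Helper80.Sec

open Classical Filter Topology

/-- maximal length of an alternating sequence (for sequences supported below `N`) -/
noncomputable def La (N : ℕ) (z : ℕ → ℝ) : ℕ := Nat.findGreatest (Alt z) N

theorem alt_La (N : ℕ) (z : ℕ → ℝ) : Alt z (La N z) :=
  Nat.findGreatest_spec (P := Alt z) (Nat.zero_le N) (alt_zero z)

theorem Alt.le_La {N m : ℕ} {z : ℕ → ℝ} (h : Alt z m) (hz : ∀ i, N ≤ i → z i = 0) :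
    m ≤ La N z := by
  refine Nat.le_findGreatest ?_ h
  have := h.le_of_supp (a := 0) (b := N) (fun i hi => hz i (by omega))
  omega

theorem La_zero (N : ℕ) : La N 0 = 0 := (alt_La N 0).eq_zero rfl

theorem La_smul (N : ℕ) (z : ℕ → ℝ) {c : ℝ} (hc : c ≠ 0) (hz : ∀ i, N ≤ i → z i = 0) :
    La N (c • z) = La N z := by
  apply le_antisymm
  · have h := (alt_La N (c • z)).smul (inv_ne_zero hc)
    rw [smul_smul, inv_mul_cancel₀ hc, one_smul] at h
    exact h.le_La hz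
  · exact ((alt_La N z).smul hc).le_La (fun i hi => by simp [hz i hi])

theorem tw_supp {z : ℕ → ℝ} {i : ℕ} (h : z i = 0) : tw z i = 0 := (tw_eq_zero_iff z i).2 h

section real

variable {p q N e2 e4 : ℕ}

/-- supports -/
def S1 (p : ℕ) (x : ℕ → ℝ) : Prop := ∀ i, p ≤ i → x i = 0
def S3 (q N : ℕ) (y : ℕ → ℝ) : Prop := ∀ i, (i < q ∨ N ≤ i) → y i = 0

theorem S1.tw {x : ℕ → ℝ} (h : S1 p x) : S1 p (tw x) := fun i hi => tw_supp (h i hi)
theorem S3.tw {y : ℕ → ℝ} (h : S3 q N y) : S3 q N (tw y) := fun i hi => tw_supp (h i hi)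
theorem S1.zero : S1 p 0 := fun _ _ => rfl
theorem S3.zero : S3 q N 0 := fun _ _ => rfl
theorem S1.smul {x : ℕ → ℝ} (h : S1 p x) (c : ℝ) : S1 p (c • x) := fun i hi => by
  simp [h i hi]
theorem S3.smul {y : ℕ → ℝ} (h : S3 q N y) (c : ℝ) : S3 q N (c • y) := fun i hi => by
  simp [h i hi]
theorem S1.add {x x' : ℕ → ℝ} (h : S1 p x) (h' : S1 p x') : S1 p (x + x') := fun i hi => by
  simp [h i hi, h' i hi]
theorem S3.add {y y' : ℕ → ℝ} (h : S3 q N y) (h' : S3 q N y') : S3 q N (y + y') := fun i hi => by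
  simp [h i hi, h' i hi]

theorem S1.top {x : ℕ → ℝ} (h : S1 p x) (hpq : p ≤ q) (hqN : q ≤ N) : ∀ i, N ≤ i → x i = 0 :=
  fun i hi => h i (by omega)
theorem S3.top {y : ℕ → ℝ} (h : S3 q N y) : ∀ i, N ≤ i → y i = 0 := fun i hi => h i (Or.inr hi)

theorem La_S1 {x : ℕ → ℝ} (h : S1 p x) : La N x ≤ p := by
  have := (alt_La N x).le_of_supp (a := 0) (b := p) (fun i hi => h i (by omega))
  omega

theorem La_S3 {y : ℕ → ℝ} (h : S3 q N y) : La N y ≤ N - q :=
  (alt_La N y).le_of_supp (a := q) (b := N) h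

theorem F1x {x : ℕ → ℝ} (h : S1 p x) : La N x + La N (tw x) ≤ p + 1 := by
  have := alt_add_tw p 0 x _ _ (fun i hi => h i (by omega)) (alt_La N x) (alt_La N (tw x))
  omega

theorem F1x0 {x : ℕ → ℝ} (h : S1 p x) (h0 : x 0 = 0) : La N x + La N (tw x) ≤ p := by
  rcases Nat.eq_zero_or_pos p with hp | hp
  · have hx : x = 0 := funext fun i => h i (by omega)
    rw [hx, tw_zero, La_zero]; omega
  · have := alt_add_tw p 1 x _ _ (fun i hi => by
      rcases hi with h' | h'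
      · have : i = 0 := by omega
        rw [this]; exact h0
      · exact h i h') (alt_La N x) (alt_La N (tw x))
    omega

theorem F1y {y : ℕ → ℝ} (h : S3 q N y) : La N y + La N (tw y) ≤ (N - q) + 1 :=
  alt_add_tw N q y _ _ h (alt_La N y) (alt_La N (tw y))

theorem La_split {x y : ℕ → ℝ} {m : ℕ} (hpq : p ≤ q) (hqN : q ≤ N) (hx : S1 p x)
    (hy : S3 q N y) (h : Alt (x + y) m) : m ≤ La N x + La N y := by
  obtain ⟨m1, m2, hm, h1, h2⟩ := h.split hx (fun i hi => hy i (Or.inl (by omega)))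
  have := h1.le_La (hx.top hpq hqN)
  have := h2.le_La hy.top
  omega

theorem La_split_tw {x y : ℕ → ℝ} {m : ℕ} (hpq : p ≤ q) (hqN : q ≤ N) (hx : S1 p x)
    (hy : S3 q N y) (h : Alt (tw (x + y)) m) : m ≤ La N (tw x) + La N (tw y) := by
  rw [tw_add] at h
  exact La_split hpq hqN hx.tw hy.tw h

/-- forward step of the relation -/
theorem step {x y y' : ℕ → ℝ} (hpq : p ≤ q) (hqN : q ≤ N) (hsum : e2 + e4 = p + (N - q))
    (hx : S1 p x) (hy : S3 q N y) (hy' : S3 q N y')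
    (h2 : Alt (x + y) (e2 + 1)) (h4 : Alt (tw (x + y')) (e4 + 1)) :
    La N y' + (p + 1) ≤ La N y + (La N x + La N (tw x)) ∧ La N (tw y) ≤ La N (tw y') ∧
      (N - q + 1) ≤ La N y + La N (tw y') := by
  have a := La_split hpq hqN hx hy h2
  have b := La_split_tw hpq hqN hx hy' h4
  have c := F1y hy'
  have d := F1x (N := N) hx
  have e := F1y hy
  omega

theorem sum_ne_zero {x y : ℕ → ℝ} (hpq : p ≤ q) (hx : S1 p x) (hy : S3 q N y)
    (h : x ≠ 0 ∨ y ≠ 0) : x + y ≠ 0 := by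
  intro h0
  have hx0 : x = 0 := by
    funext i
    rcases Nat.lt_or_ge i p with hi | hi
    · have := congrFun h0 i
      rw [Pi.add_apply, hy i (Or.inl (by omega)), add_zero] at this
      exact this
    · exact hx i hi
  have hy0 : y = 0 := by rwa [hx0, zero_add] at h0
  rcases h with h | h
  · exact h hx0
  · exact h hy0

end real

/-- Four subspaces with sign variation properties. -/
structure Quad (V : Type*) [AddCommGroup V] [Module ℂ V] where
  Z : V →ₗ[ℂ] (ℕ → ℂ)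
  U1 : Submodule ℂ V
  U2 : Submodule ℂ V
  U3 : Submodule ℂ V
  U4 : Submodule ℂ V
  p : ℕ
  q : ℕ
  N : ℕ
  e2 : ℕ
  e4 : ℕ
  inj : Function.Injective Z
  hpq : p ≤ q
  hqN : q ≤ N
  hsum : e2 + e4 = p + (N - q)
  h1 : ∀ v ∈ U1, ∀ i, p ≤ i → Z v i = 0
  h3 : ∀ v ∈ U3, ∀ i, (i < q ∨ N ≤ i) → Z v i = 0
  h2 : ∀ v ∈ U2, (fun i => (Z v i).re) ≠ 0 → Alt (fun i => (Z v i).re) (e2 + 1)
  h4 : ∀ v ∈ U4, (fun i => (Z v i).re) ≠ 0 → Alt (tw (fun i => (Z v i).re)) (e4 + 1)

/-- powers of a unit complex number return near `1` -/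
theorem exists_pow_near {u : ℂ} (hu : ‖u‖ = 1) {ε : ℝ} (hε : 0 < ε) :
    ∃ k : ℕ, 1 ≤ k ∧ ‖u ^ k - 1‖ < ε := by
  have hc : IsCompact (Metric.sphere (0 : ℂ) 1) := isCompact_sphere 0 1
  have hmem : ∀ n : ℕ, u ^ n ∈ Metric.sphere (0 : ℂ) 1 := by
    intro n
    simp [hu]
  obtain ⟨a, _, φ, hφ, hlim⟩ := hc.tendsto_subseq hmem
  have hcau : CauchySeq (fun n => u ^ (φ n)) := hlim.cauchySeq
  rw [Metric.cauchySeq_iff'] at hcau
  obtain ⟨n, hn⟩ := hcau ε hε
  have h1 := hn (n + 1) (by omega)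
  have hlt : φ n < φ (n + 1) := hφ (Nat.lt_succ_self n)
  refine ⟨φ (n + 1) - φ n, by omega, ?_⟩
  rw [dist_eq_norm] at h1
  have h2 : u ^ φ (n + 1) - u ^ φ n = u ^ φ n * (u ^ (φ (n + 1) - φ n) - 1) := by
    rw [mul_sub, ← pow_add, mul_one]
    congr 2
    omega
  rw [h2, norm_mul, norm_pow, hu, one_pow, one_mul] at h1
  exact h1

namespace Quad

variable {V : Type*} [AddCommGroup V] [Module ℂ V] (Q : Quad V)

/-- real part of `c • Z v` -/
noncomputable def rz (c : ℂ) (v : V) : ℕ → ℝ := fun i => (c * Q.Z v i).re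

theorem rz_add (c : ℂ) (v w : V) : Q.rz c (v + w) = Q.rz c v + Q.rz c w := by
  funext i
  simp [rz, mul_add]

theorem rz_smul (c μ : ℂ) (v : V) : Q.rz c (μ • v) = Q.rz (c * μ) v := by
  funext i
  simp only [rz, map_smul, Pi.smul_apply, smul_eq_mul]
  rw [mul_assoc]

theorem rz_real_mul (c : ℂ) (t : ℝ) (v : V) : Q.rz (c * t) v = t • Q.rz c v := by
  funext i
  simp only [rz, Pi.smul_apply, smul_eq_mul]
  have : c * (t : ℂ) * Q.Z v i = (t : ℂ) * (c * Q.Z v i) := by ring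
  rw [this, Complex.re_ofReal_mul]

theorem rz_eq (c : ℂ) (v : V) : Q.rz c v = fun i => (Q.Z (c • v) i).re := by
  funext i
  simp [rz]

theorem rz_U2 {v : V} (hv : v ∈ Q.U2) {c : ℂ} (h : Q.rz c v ≠ 0) : Alt (Q.rz c v) (Q.e2 + 1) := by
  rw [rz_eq] at h ⊢
  exact Q.h2 _ (Q.U2.smul_mem c hv) h

theorem rz_U4 {v : V} (hv : v ∈ Q.U4) {c : ℂ} (h : Q.rz c v ≠ 0) :
    Alt (tw (Q.rz c v)) (Q.e4 + 1) := by
  rw [rz_eq] at h ⊢
  exact Q.h4 _ (Q.U4.smul_mem c hv) h

theorem rz_S1 {v : V} (hv : v ∈ Q.U1) (c : ℂ) : S1 Q.p (Q.rz c v) := fun i hi => by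
  simp [rz, Q.h1 v hv i hi]

theorem rz_S3 {v : V} (hv : v ∈ Q.U3) (c : ℂ) : S3 Q.q Q.N (Q.rz c v) := fun i hi => by
  simp [rz, Q.h3 v hv i hi]

theorem exists_rz_ne {v : V} (hv : v ≠ 0) : ∃ c : ℂ, c ≠ 0 ∧ Q.rz c v ≠ 0 := by
  have h1 : Q.Z v ≠ 0 := fun h => hv (Q.inj (by rw [h, map_zero]))
  obtain ⟨i, hi⟩ : ∃ i, Q.Z v i ≠ 0 := by
    by_contra hcon
    push Not at hcon
    exact h1 (funext hcon)
  refine ⟨(starRingEnd ℂ) (Q.Z v i), ?_, ?_⟩
  · simpa using hi
  · intro h0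
    have := congrFun h0 i
    simp only [rz, Pi.zero_apply] at this
    rw [mul_comm, Complex.mul_conj, Complex.ofReal_re] at this
    exact hi (Complex.normSq_eq_zero.1 this)

/-- `x = 0` is impossible in an eigenpair, etc. -/
theorem eig_x_ne {x y : V} {μ : ℂ} (hx : x ∈ Q.U1) (hy : y ∈ Q.U3) (h2 : x + y ∈ Q.U2)
    (h4 : x + μ • y ∈ Q.U4) (hμ : μ ≠ 0) (hne : x ≠ 0 ∨ y ≠ 0) : x ≠ 0 ∧ y ≠ 0 := by
  constructor
  · intro h0
    subst h0
    have hy0 : y ≠ 0 := hne.resolve_left (fun h => h rfl)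
    rw [zero_add] at h2 h4
    have h4' : y ∈ Q.U4 := by
      have := Q.U4.smul_mem μ⁻¹ h4
      rwa [smul_smul, inv_mul_cancel₀ hμ, one_smul] at this
    obtain ⟨c, _, hcy⟩ := Q.exists_rz_ne hy0
    have a := (Q.rz_U2 h2 hcy).le_La (Q.rz_S3 hy c).top
    have b := (Q.rz_U4 h4' hcy).le_La (Q.rz_S3 hy c).tw.top
    have d := F1y (Q.rz_S3 hy c)
    have := Q.hsum
    omega
  · intro h0
    subst h0
    have hx0 : x ≠ 0 := hne.resolve_right (fun h => h rfl)
    rw [add_zero] at h2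
    rw [smul_zero, add_zero] at h4
    obtain ⟨c, _, hcx⟩ := Q.exists_rz_ne hx0
    have a := (Q.rz_U2 h2 hcx).le_La ((Q.rz_S1 hx c).top Q.hpq Q.hqN)
    have b := (Q.rz_U4 h4 hcx).le_La ((Q.rz_S1 hx c).tw.top Q.hpq Q.hqN)
    have d := F1x (N := Q.N) (Q.rz_S1 hx c)
    have := Q.hsum
    omega

/-- `y ∈ R4`, `x + y ∈ R2` impossible -/
theorem no_y4 {a b : ℕ → ℝ} (ha : S1 Q.p a) (hb : S3 Q.q Q.N b)
    (h2 : Alt (a + b) (Q.e2 + 1)) (h4 : Alt (tw b) (Q.e4 + 1)) : False := by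
  have u := La_split Q.hpq Q.hqN ha hb h2
  have v := h4.le_La hb.tw.top
  have w := F1y hb
  have w' := La_S1 (N := Q.N) ha
  have := Q.hsum
  omega

theorem no_y2 {a b : ℕ → ℝ} (ha : S1 Q.p a) (hb : S3 Q.q Q.N b)
    (h2 : Alt b (Q.e2 + 1)) (h4 : Alt (tw (a + b)) (Q.e4 + 1)) : False := by
  have u := La_split_tw Q.hpq Q.hqN ha hb h4
  have v := h2.le_La hb.top
  have w := F1y hb
  have w' := La_S1 (N := Q.N) ha.tw
  have := Q.hsum
  omega

/-- Eigenpairs are real up to a phase, with real eigenvalue. -/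
theorem eig_real {x y : V} {μ : ℂ} (hx : x ∈ Q.U1) (hy : y ∈ Q.U3) (h2 : x + y ∈ Q.U2)
    (h4 : x + μ • y ∈ Q.U4) (hμ : μ ≠ 0) (hne : x ≠ 0 ∨ y ≠ 0) :
    μ.im = 0 ∧ ∃ c : ℂ, c ≠ 0 ∧ (∀ i, (c * Q.Z x i).im = 0) ∧ (∀ i, (c * Q.Z y i).im = 0) := by
  obtain ⟨hx0, hy0⟩ := Q.eig_x_ne hx hy h2 h4 hμ hne
  by_cases hD : ∃ c : ℂ, c ≠ 0 ∧ Q.rz c x = 0 ∧ Q.rz c y = 0
  · obtain ⟨c, hc, hcx, hcy⟩ := hD
    have hrx : ∀ i, (c * Q.Z x i).re = 0 := fun i => congrFun hcx i
    have hry : ∀ i, (c * Q.Z y i).re = 0 := fun i => congrFun hcy i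
    refine ⟨?_, Complex.I * c, mul_ne_zero Complex.I_ne_zero hc, ?_, ?_⟩
    · by_contra him
      -- imaginary parts
      set b : ℕ → ℝ := fun i => (c * Q.Z y i).im with hb
      have hb3 : S3 Q.q Q.N b := fun i hi => by simp [hb, Q.h3 y hy i hi]
      have hb0 : b ≠ 0 := by
        intro h0
        apply hy0
        apply Q.inj
        rw [map_zero]
        funext i
        have h1 : c * Q.Z y i = 0 := Complex.ext (hry i) (congrFun h0 i)
        exact (mul_eq_zero.1 h1).resolve_left hc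
      have e1 : Q.rz c (x + μ • y) = (-μ.im) • b := by
        rw [rz_add, hcx, zero_add, rz_smul]
        funext i
        simp only [rz, Pi.smul_apply, smul_eq_mul, hb]
        have : c * μ * Q.Z y i = μ * (c * Q.Z y i) := by ring
        rw [this, Complex.mul_re, hry i]
        ring
      have e2 : Q.rz (-Complex.I * c) (x + y) = Q.rz (-Complex.I * c) x + b := by
        rw [rz_add]
        congr 1
        funext i
        simp only [rz, hb]
        rw [mul_assoc, Complex.mul_re]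
        simp
      have k1 : Alt (tw b) (Q.e4 + 1) := by
        have hne' : Q.rz c (x + μ • y) ≠ 0 := by
          rw [e1]
          exact smul_ne_zero (neg_ne_zero.2 him) hb0
        have := Q.rz_U4 h4 hne'
        rw [e1, tw_smul] at this
        have h3 := this.smul (inv_ne_zero (neg_ne_zero.2 him))
        rwa [smul_smul, inv_mul_cancel₀ (neg_ne_zero.2 him), one_smul] at h3
      have k2 : Alt (Q.rz (-Complex.I * c) x + b) (Q.e2 + 1) := by
        have hne' : Q.rz (-Complex.I * c) (x + y) ≠ 0 := by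
          rw [e2]
          exact sum_ne_zero Q.hpq (Q.rz_S1 hx _) hb3 (Or.inr hb0)
        have := Q.rz_U2 h2 hne'
        rwa [e2] at this
      exact Q.no_y4 (Q.rz_S1 hx _) hb3 k2 k1
    · intro i
      rw [mul_assoc, Complex.mul_im]
      simp [hrx i]
    · intro i
      rw [mul_assoc, Complex.mul_im]
      simp [hry i]
  · exfalso
    push Not at hD
    -- nonvanishing
    have n2 : ∀ c : ℂ, c ≠ 0 → Q.rz c x + Q.rz c y ≠ 0 := by
      intro c hc
      refine sum_ne_zero Q.hpq (Q.rz_S1 hx _) (Q.rz_S3 hy _) ?_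
      by_cases h : Q.rz c x = 0
      · exact Or.inr (hD c hc h)
      · exact Or.inl h
    have n4 : ∀ c : ℂ, c ≠ 0 → Q.rz c x + Q.rz (c * μ) y ≠ 0 := by
      intro c hc
      refine sum_ne_zero Q.hpq (Q.rz_S1 hx _) (Q.rz_S3 hy _) ?_
      by_contra hcon
      push Not at hcon
      obtain ⟨hcx, hcy⟩ := hcon
      have hcy' := hD c hc hcx
      set b : ℕ → ℝ := fun i => (c * μ * Q.Z y i).im with hb
      have hb3 : S3 Q.q Q.N b := fun i hi => by simp [hb, Q.h3 y hy i hi]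
      have hry : ∀ i, (c * μ * Q.Z y i).re = 0 := fun i => congrFun hcy i
      have e1 : Q.rz c y = (Complex.I * μ⁻¹).re • b := by
        funext i
        simp only [rz, Pi.smul_apply, smul_eq_mul, hb]
        have h1 : c * Q.Z y i = μ⁻¹ * (c * μ * Q.Z y i) := by
          field_simp
        have h2 : c * μ * Q.Z y i = ((c * μ * Q.Z y i).im : ℂ) * Complex.I :=
          Complex.ext (by simp [hry i]) (by simp)
        have h3 : c * Q.Z y i = ((c * μ * Q.Z y i).im : ℂ) * (Complex.I * μ⁻¹) := by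
          rw [h1]
          nth_rewrite 1 [h2]
          ring
        rw [h3, Complex.re_ofReal_mul, mul_comm]
      have hk : (Complex.I * μ⁻¹).re ≠ 0 := by
        intro h0
        rw [h0, zero_smul] at e1
        exact hcy' e1
      have k1 : Alt b (Q.e2 + 1) := by
        have hne' : Q.rz c (x + y) ≠ 0 := by
          rw [rz_add]; exact n2 c hc
        have := Q.rz_U2 h2 hne'
        rw [rz_add, hcx, zero_add, e1] at this
        have h3 := this.smul (inv_ne_zero hk)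
        rwa [smul_smul, inv_mul_cancel₀ hk, one_smul] at h3
      have hb0 : b ≠ 0 := by
        intro h0
        rw [h0, smul_zero] at e1
        exact hcy' e1
      have e2 : Q.rz (-Complex.I * c) (x + μ • y) = Q.rz (-Complex.I * c) x + b := by
        rw [rz_add, rz_smul]
        congr 1
        funext i
        simp only [rz, hb]
        have : -Complex.I * c * μ * Q.Z y i = -Complex.I * (c * μ * Q.Z y i) := by ring
        rw [this, Complex.mul_re]
        simp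
      have k2 : Alt (tw (Q.rz (-Complex.I * c) x + b)) (Q.e4 + 1) := by
        have hne' : Q.rz (-Complex.I * c) (x + μ • y) ≠ 0 := by
          rw [e2]
          exact sum_ne_zero Q.hpq (Q.rz_S1 hx _) hb3 (Or.inr hb0)
        have := Q.rz_U4 h4 hne'
        rwa [e2] at this
      exact Q.no_y2 (Q.rz_S1 hx _) hb3 k1 k2
    have hst : ∀ c : ℂ, c ≠ 0 → La Q.N (Q.rz (c * μ) y) + (Q.p + 1) ≤
        La Q.N (Q.rz c y) + (La Q.N (Q.rz c x) + La Q.N (tw (Q.rz c x))) := by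
      intro c hc
      have a2 : Alt (Q.rz c x + Q.rz c y) (Q.e2 + 1) := by
        have := Q.rz_U2 h2 (c := c) (by rw [rz_add]; exact n2 c hc)
        rwa [rz_add] at this
      have a4 : Alt (tw (Q.rz c x + Q.rz (c * μ) y)) (Q.e4 + 1) := by
        have := Q.rz_U4 h4 (c := c) (by rw [rz_add, rz_smul]; exact n4 c hc)
        rwa [rz_add, rz_smul] at this
      exact (step Q.hpq Q.hqN Q.hsum (Q.rz_S1 hx _) (Q.rz_S3 hy _) (Q.rz_S3 hy _) a2 a4).1
    have hmono : ∀ c : ℂ, c ≠ 0 → La Q.N (Q.rz (c * μ) y) ≤ La Q.N (Q.rz c y) := by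
      intro c hc
      have := hst c hc
      have h' := F1x (N := Q.N) (Q.rz_S1 hx c)
      omega
    -- choose c with vanishing first coordinate
    obtain ⟨c, hc, hc0⟩ : ∃ c : ℂ, c ≠ 0 ∧ Q.rz c x 0 = 0 := by
      by_cases h : Q.Z x 0 = 0
      · exact ⟨1, one_ne_zero, by simp [rz, h]⟩
      · refine ⟨Complex.I * (starRingEnd ℂ) (Q.Z x 0), mul_ne_zero Complex.I_ne_zero (by simpa using h), ?_⟩
        simp only [rz]
        have : Complex.I * (starRingEnd ℂ) (Q.Z x 0) * Q.Z x 0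
            = Complex.I * (Q.Z x 0 * (starRingEnd ℂ) (Q.Z x 0)) := by ring
        rw [this, Complex.mul_conj, Complex.mul_re]
        simp
    have hlt : La Q.N (Q.rz (c * μ) y) + 1 ≤ La Q.N (Q.rz c y) := by
      have := hst c hc
      have h' := F1x0 (N := Q.N) (Q.rz_S1 hx c) hc0
      omega
    have hiter : ∀ k : ℕ, La Q.N (Q.rz (c * μ ^ (k + 1)) y) ≤ La Q.N (Q.rz (c * μ) y) := by
      intro k
      induction k with
      | zero => simp
      | succ k ih =>
        have := hmono (c * μ ^ (k + 1)) (mul_ne_zero hc (pow_ne_zero _ hμ))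
        rw [mul_assoc, ← pow_succ] at this
        exact le_trans this ih
    -- recurrence
    have hnorm : (0 : ℝ) < ‖μ‖ := norm_pos_iff.2 hμ
    set u : ℂ := μ * (‖μ‖⁻¹ : ℝ) with hu
    have hu1 : ‖u‖ = 1 := by
      rw [hu, norm_mul, Complex.norm_real, norm_inv, norm_norm, mul_inv_cancel₀ hnorm.ne']
    have hev : ∀ᶠ w in 𝓝 c, Alt (Q.rz w y) (La Q.N (Q.rz c y)) := by
      refine (alt_La Q.N (Q.rz c y)).eventually (fun i => ?_)
      have : Continuous (fun w : ℂ => (w * Q.Z y i).re) :=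
        Complex.continuous_re.comp (continuous_id.mul continuous_const)
      exact this.tendsto c
    rw [Metric.eventually_nhds_iff] at hev
    obtain ⟨ε, hε, hball⟩ := hev
    have hcn : (0 : ℝ) < ‖c‖ := norm_pos_iff.2 hc
    obtain ⟨k, hk1, hk⟩ := exists_pow_near hu1 (div_pos hε hcn)
    obtain ⟨k', rfl⟩ : ∃ k', k = k' + 1 := ⟨k - 1, by omega⟩
    have halt := hball (y := c * u ^ (k' + 1)) (by
      rw [dist_eq_norm]
      have : c * u ^ (k' + 1) - c = c * (u ^ (k' + 1) - 1) := by ring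
      rw [this, norm_mul]
      calc ‖c‖ * ‖u ^ (k' + 1) - 1‖ < ‖c‖ * (ε / ‖c‖) := by
            exact mul_lt_mul_of_pos_left hk hcn
        _ = ε := by field_simp)
    have hle := halt.le_La (Q.rz_S3 hy _).top
    have hscale : Q.rz (c * μ ^ (k' + 1)) y = (‖μ‖ ^ (k' + 1)) • Q.rz (c * u ^ (k' + 1)) y := by
      rw [← rz_real_mul]
      congr 1
      have : μ = u * (‖μ‖ : ℂ) := by
        rw [hu, mul_assoc, ← Complex.ofReal_mul, inv_mul_cancel₀ hnorm.ne', Complex.ofReal_one,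
          mul_one]
      nth_rewrite 1 [this]
      rw [mul_pow]
      push_cast
      ring
    have hLa : La Q.N (Q.rz (c * μ ^ (k' + 1)) y) = La Q.N (Q.rz (c * u ^ (k' + 1)) y) := by
      rw [hscale, La_smul _ _ (pow_ne_zero _ hnorm.ne') (Q.rz_S3 hy _).top]
    have := hiter k'
    omega

end Quad

end Pool.Agent.Helper80.Sec
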