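import Pool.Agent.Helper80.Sec.AltDiff
import Pool.Agent.Helper80.Sec.Quad

/-!
Positive coordinates on a hyperplane.
-/

namespace Pool.Agent.Helper80.Sec

open Module

/-- strictly increasing indices increase at least by the number of steps -/
theorem incr_add {i : ℕ → ℕ} {m : ℕ} (hi : ∀ j, j + 1 < m → i j < i (j + 1)) {j : ℕ} (k : ℕ)
    (hk : j + k < m) : i j + k ≤ i (j + k) := by
  induction k with
  | zero => simp
  | succ k ih =>
    have h1 := ih (by omega)
    have h2 := hi (j + k) (by omega)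
    have e : j + (k + 1) = j + k + 1 := by omega
    rw [e]; omega

/-- a sequence which has `e + 1` alternations and is supported on `e + 1` consecutive indices -/
theorem alt_exact {z : ℕ → ℝ} {i e : ℕ} (h : Alt z (e + 1)) (h1 : ∀ l, l < i → z l = 0)
    (h2 : ∀ l, i + e < l → z l = 0) : z i ≠ 0 ∧ 0 < (-1) ^ e * (z i * z (i + e)) := by
  obtain ⟨ε, x, hε, hx, hz⟩ := h
  have hz0 := hz 0 (by omega)
  have hze := hz e (by omega)
  have a0 : i ≤ x 0 := by
    by_contra hcon
    rw [h1 _ (by omega)] at hz0; simp at hz0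
  have ae : x e ≤ i + e := by
    by_contra hcon
    rw [h2 _ (by omega)] at hze; simp at hze
  have b := incr_add hx e (j := 0) (by omega)
  rw [Nat.zero_add] at b
  have c0 : x 0 = i := by omega
  have ce : x e = i + e := by omega
  rw [c0] at hz0
  rw [ce] at hze
  have h3 := mul_pos hz0 hze
  have e2 : ε * ε = 1 := by rcases hε with h | h <;> rw [h] <;> norm_num
  have h4 : ε * (-1) ^ 0 * z i * (ε * (-1) ^ e * z (i + e)) =
      (ε * ε) * ((-1) ^ e * (z i * z (i + e))) := by ring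
  rw [h4, e2, one_mul] at h3
  refine ⟨?_, h3⟩
  intro h0
  rw [h0] at hz0
  simp at hz0

/-- shift of a sequence which begins with a zero -/
theorem Alt.unshift {z : ℕ → ℝ} {m : ℕ} (h : Alt z m) (c : ℕ) (h0 : ∀ i, i < c → z i = 0) :
    Alt (fun i => z (i + c)) m := by
  obtain ⟨ε, x, hε, hx, hz⟩ := h
  have hge : ∀ j, j < m → c ≤ x j := by
    intro j hj
    by_contra hcon
    have := hz j hj
    rw [h0 _ (by omega)] at this
    simp at this
  refine ⟨ε, fun j => x j - c, hε, fun j hj => ?_, fun j hj => ?_⟩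
  · have h1 := hx j hj
    have h2 := hge j (by omega)
    have h3 := hge (j + 1) hj
    show x j - c < x (j + 1) - c
    omega
  · have h1 := hge j hj
    show 0 < ε * (-1) ^ j * z (x j - c + c)
    rw [Nat.sub_add_cancel h1]
    exact hz j hj

/-- the real part of a sequence -/
def reS (z : ℕ → ℂ) : ℕ → ℝ := fun i => (z i).re

section

variable {V : Type*} [AddCommGroup V] [Module ℂ V]

/-- sign variation property of a subspace -/
def Va (Z : V →ₗ[ℂ] (ℕ → ℂ)) (e : ℕ) (U : Submodule ℂ V) : Prop :=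
  ∀ v ∈ U, reS (Z v) ≠ 0 → Alt (reS (Z v)) (e + 1)

/-- local form of the sign variation property -/
def Loc (Z : V →ₗ[ℂ] (ℕ → ℂ)) (e : ℕ) (U : Submodule ℂ V) : Prop :=
  ∀ v ∈ U, v ≠ 0 → ∀ i, (∀ l, l < i → Z v l = 0) → (∀ l, i + e < l → Z v l = 0) →
    Z v i ≠ 0 ∧ ∃ ρ : ℝ, 0 < ρ ∧ Z v (i + e) = (((-1) ^ e * ρ : ℝ) : ℂ) * Z v i

theorem conj_mul_re (a : ℂ) : ((starRingEnd ℂ) a * a).re = Complex.normSq a := by
  rw [mul_comm, Complex.mul_conj, Complex.ofReal_re]

theorem loc_of_va {Z : V →ₗ[ℂ] (ℕ → ℂ)} {e : ℕ} {U : Submodule ℂ V}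
    (hinj : ∀ v ∈ U, Z v = 0 → v = 0) (h : Va Z e U) : Loc Z e U := by
  intro v hv hv0 i h1 h2
  have hc : ∀ (c : ℂ) (l : ℕ), reS (Z (c • v)) l = (c * Z v l).re := fun c l => by
    simp [reS]
  have key : ∀ c : ℂ, reS (Z (c • v)) ≠ 0 → (c * Z v i).re ≠ 0 ∧
      0 < (-1) ^ e * ((c * Z v i).re * (c * Z v (i + e)).re) := by
    intro c hne
    have h3 := alt_exact (i := i) (h _ (U.smul_mem c hv) hne)
      (fun l hl => by rw [hc, h1 l hl, mul_zero, Complex.zero_re])
      (fun l hl => by rw [hc, h2 l hl, mul_zero, Complex.zero_re])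
    rwa [hc, hc] at h3
  have ha : Z v i ≠ 0 := by
    have h3 : Z v ≠ 0 := fun h => hv0 (hinj v hv h)
    obtain ⟨l, hl⟩ := Function.ne_iff.1 h3
    intro ha
    have h4 := key ((starRingEnd ℂ) (Z v l)) (fun h0 => by
      have h5 := congrFun h0 l
      rw [hc, conj_mul_re, Pi.zero_apply, Complex.normSq_eq_zero] at h5
      exact hl h5)
    rw [ha, mul_zero] at h4
    exact h4.1 rfl
  refine ⟨ha, ?_⟩
  set a := Z v i with hadef
  set b := Z v (i + e) with hbdef
  have hn : 0 < Complex.normSq a := Complex.normSq_pos.2 ha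
  have k1 := key ((starRingEnd ℂ) a) (fun h0 => by
      have h5 := congrFun h0 i
      rw [hc, conj_mul_re, Pi.zero_apply] at h5
      exact hn.ne' h5)
  rw [conj_mul_re] at k1
  have him : ((starRingEnd ℂ) a * b).im = 0 := by
    by_contra hne
    have k2 := key (Complex.I * (starRingEnd ℂ) a) (fun h0 => by
      have h5 := congrFun h0 (i + e)
      rw [hc, Pi.zero_apply, mul_assoc, Complex.I_mul_re] at h5
      exact hne (neg_eq_zero.1 h5))
    apply k2.1
    rw [mul_assoc, mul_comm ((starRingEnd ℂ) a) a, Complex.mul_conj, Complex.I_mul_re,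
      Complex.ofReal_im, neg_zero]
  have ht : (starRingEnd ℂ) a * b = ((((starRingEnd ℂ) a * b).re : ℝ) : ℂ) :=
    Complex.ext (by simp) (by rw [him]; simp)
  set t := ((starRingEnd ℂ) a * b).re with htdef
  have hs := neg_one_pow_mul_self e
  refine ⟨(-1) ^ e * t / Complex.normSq a, ?_, ?_⟩
  · apply div_pos _ hn
    have h6 : (-1 : ℝ) ^ e * (Complex.normSq a * t) = Complex.normSq a * ((-1) ^ e * t) := by ring
    rw [h6] at k1
    exact (mul_pos_iff_of_pos_left hn).1 k1.2
  · have h7 : (-1 : ℝ) ^ e * ((-1) ^ e * t / Complex.normSq a) = t / Complex.normSq a := by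
      rw [← mul_div_assoc, ← mul_assoc, hs, one_mul]
    rw [h7]
    have h8 : (Complex.normSq a : ℂ) * b = (t : ℂ) * a := by
      rw [← ht, ← Complex.mul_conj]; ring
    have h9 : (Complex.normSq a : ℂ) ≠ 0 := by
      rw [Ne, Complex.ofReal_eq_zero]; exact hn.ne'
    apply mul_left_cancel₀ h9
    rw [h8]
    push_cast
    field_simp

/-- positive coordinates on a subspace -/
structure Fr (A : Submodule ℂ V) (N : ℕ) (Z : V →ₗ[ℂ] (ℕ → ℂ)) : Prop where
  inj : ∀ v ∈ A, Z v = 0 → v = 0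
  supp : ∀ v ∈ A, ∀ i, N ≤ i → Z v i = 0
  fr : finrank ℂ A = N

variable [FiniteDimensional ℂ V]

theorem Fr.exists_basis {A : Submodule ℂ V} {N : ℕ} {Z : V →ₗ[ℂ] (ℕ → ℂ)} (h : Fr A N Z) :
    ∃ b : ℕ → V, (∀ i, i < N → b i ∈ A) ∧ (∀ i, i < N → ∀ l, Z (b i) l = if l = i then 1 else 0) ∧
      ∀ v ∈ A, v = ∑ i ∈ Finset.range N, Z v i • b i := by
  classical
  let f : ↥A →ₗ[ℂ] (Fin N → ℂ) :=
    { toFun := fun v i => Z (v : V) i
      map_add' := fun v w => by funext i; simp
      map_smul' := fun c v => by funext i; simp }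
  have hf : ∀ (v : ↥A) (i : Fin N), f v i = Z (v : V) i := fun v i => rfl
  have hinj : Function.Injective f := by
    rw [← LinearMap.ker_eq_bot, LinearMap.ker_eq_bot']
    intro v hv
    apply Subtype.ext
    refine h.inj v v.2 ?_
    funext l
    rcases Nat.lt_or_ge l N with hl | hl
    · have := congrFun hv ⟨l, hl⟩
      rw [hf] at this
      exact this
    · exact h.supp v v.2 l hl
  have hd : finrank ℂ ↥A = finrank ℂ (Fin N → ℂ) := by rw [h.fr, finrank_fin_fun]
  have hsurj : Function.Surjective f :=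
    (LinearMap.injective_iff_surjective_of_finrank_eq_finrank hd).1 hinj
  have hex : ∀ i : ℕ, ∃ b : V, i < N → b ∈ A ∧ ∀ l, Z b l = if l = i then 1 else 0 := by
    intro i
    by_cases hi : i < N
    · obtain ⟨w, hw⟩ := hsurj (Pi.single ⟨i, hi⟩ 1)
      refine ⟨w, fun _ => ⟨w.2, fun l => ?_⟩⟩
      rcases Nat.lt_or_ge l N with hl | hl
      · have h1 := congrFun hw ⟨l, hl⟩
        rw [hf] at h1
        rw [h1]
        by_cases hli : l = i
        · subst hli; simp
        · rw [if_neg hli, Pi.single_eq_of_ne]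
          intro h2
          exact hli (congrArg Fin.val h2)
      · rw [h.supp w w.2 l hl, if_neg (by omega)]
    · exact ⟨0, fun h => absurd h hi⟩
  choose b hb using hex
  refine ⟨b, fun i hi => (hb i hi).1, fun i hi => (hb i hi).2, fun v hv => ?_⟩
  rw [← sub_eq_zero]
  have hmem : v - ∑ i ∈ Finset.range N, Z v i • b i ∈ A :=
    A.sub_mem hv (A.sum_mem fun i hi => A.smul_mem _ (hb i (Finset.mem_range.1 hi)).1)
  refine h.inj _ hmem ?_
  funext l
  rw [map_sub, map_sum, Pi.sub_apply, Finset.sum_apply, Pi.zero_apply]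
  rcases Nat.lt_or_ge l N with hl | hl
  · rw [Finset.sum_eq_single l]
    · rw [map_smul, Pi.smul_apply, (hb l hl).2, if_pos rfl, smul_eq_mul, mul_one, sub_self]
    · intro i hi hne
      rw [map_smul, Pi.smul_apply, (hb i (Finset.mem_range.1 hi)).2, if_neg (Ne.symm hne),
        smul_zero]
    · intro hl'
      exact absurd (Finset.mem_range.2 hl) hl'
  · rw [h.supp v hv l hl, Finset.sum_eq_zero, sub_zero]
    intro i hi
    have := Finset.mem_range.1 hi
    rw [map_smul, Pi.smul_apply, (hb i this).2, if_neg (by omega), smul_zero]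

/-- the equation of a hyperplane is positive -/
theorem Fr.exists_ell {A K : Submodule ℂ V} {M : ℕ} {Z : V →ₗ[ℂ] (ℕ → ℂ)} (h : Fr A (M + 1) Z)
    (hK : K ≤ A) (hd : finrank ℂ K = M) (hl : Loc Z 1 K) :
    ∃ ℓ : ℕ → ℝ, (∀ i, 0 < ℓ i) ∧
      ∀ v ∈ K, ∑ l ∈ Finset.range (M + 1), (ℓ l : ℂ) * Z v l = 0 := by
  classical
  obtain ⟨b, hbA, hbZ, hbs⟩ := h.exists_basis
  have hex : ∃ a ∈ A, a ∉ K := by
    by_contra hcon
    push Not at hcon
    have h1 := Submodule.finrank_mono (show A ≤ K from hcon)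
    rw [h.fr, hd] at h1
    omega
  obtain ⟨a, haA, haK⟩ := hex
  obtain ⟨f, hfa, hfK⟩ := Submodule.exists_dual_map_eq_bot_of_notMem haK inferInstance
  have hfK' : ∀ v ∈ K, f v = 0 := by
    intro v hv
    have h1 : f v ∈ K.map f := Submodule.mem_map_of_mem hv
    rw [hfK, Submodule.mem_bot] at h1
    exact h1
  have hKe : K = A ⊓ LinearMap.ker f := by
    apply Submodule.eq_of_le_of_finrank_le (le_inf hK hfK')
    rw [hd]
    by_contra hcon
    push Not at hcon
    have h1 : A ⊓ LinearMap.ker f = A := by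
      apply Submodule.eq_of_le_of_finrank_le inf_le_left
      rw [h.fr]
      omega
    have h2 : a ∈ A ⊓ LinearMap.ker f := by rw [h1]; exact haA
    exact hfa h2.2
  have hfs : ∀ v ∈ A, f v = ∑ i ∈ Finset.range (M + 1), Z v i * f (b i) := by
    intro v hv
    conv_lhs => rw [hbs v hv]
    rw [map_sum]
    exact Finset.sum_congr rfl fun i _ => by rw [map_smul, smul_eq_mul]
  -- neighbours
  have hnb : ∀ i, i < M → (f (b i) ≠ 0 ∨ f (b (i + 1)) ≠ 0) →
      f (b (i + 1)) ≠ 0 ∧ ∃ ρ : ℝ, 0 < ρ ∧ f (b i) = (ρ : ℂ) * f (b (i + 1)) := by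
    intro i hi hne
    obtain ⟨v, hv⟩ : ∃ v, v = f (b (i + 1)) • b i - f (b i) • b (i + 1) := ⟨_, rfl⟩
    have hvK : v ∈ K := by
      rw [hKe, hv]
      refine ⟨A.sub_mem (A.smul_mem _ (hbA _ (by omega))) (A.smul_mem _ (hbA _ (by omega))), ?_⟩
      show f (f (b (i + 1)) • b i - f (b i) • b (i + 1)) = 0
      rw [map_sub, map_smul, map_smul, smul_eq_mul, smul_eq_mul, mul_comm, sub_self]
    have hZ : ∀ l, Z v l = f (b (i + 1)) * (if l = i then 1 else 0) -
        f (b i) * (if l = i + 1 then 1 else 0) := by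
      intro l
      rw [hv, map_sub, map_smul, map_smul, Pi.sub_apply, Pi.smul_apply, Pi.smul_apply,
        hbZ i (by omega), hbZ (i + 1) (by omega), smul_eq_mul, smul_eq_mul]
    have hZi : Z v i = f (b (i + 1)) := by
      rw [hZ, if_pos rfl, if_neg (by omega), mul_one, mul_zero, sub_zero]
    have hZi1 : Z v (i + 1) = - f (b i) := by
      rw [hZ, if_neg (by omega), if_pos rfl, mul_one, mul_zero, zero_sub]
    have hv0 : v ≠ 0 := by
      rintro rfl
      rw [map_zero, Pi.zero_apply] at hZi hZi1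
      rcases hne with h1 | h1
      · exact h1 (neg_eq_zero.1 hZi1.symm)
      · exact h1 hZi.symm
    obtain ⟨h1, ρ, hρ, h2⟩ := hl v hvK hv0 i (fun l hl => by
      rw [hZ, if_neg (by omega), if_neg (by omega)]; ring) (fun l hl => by
      rw [hZ, if_neg (by omega), if_neg (by omega)]; ring)
    rw [hZi] at h1
    refine ⟨h1, ρ, hρ, ?_⟩
    rw [hZi, hZi1] at h2
    have h3 : f (b i) = -(-f (b i)) := (neg_neg _).symm
    rw [h3, h2]
    push_cast
    ring
  -- all are nonzero
  have hdown : ∀ j, j < M + 1 → f (b j) ≠ 0 → f (b 0) ≠ 0 := by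
    intro j
    induction j with
    | zero => intro _ h0; exact h0
    | succ j ih =>
      intro hj hj0
      refine ih (by omega) ?_
      obtain ⟨-, ρ, hρ, h2⟩ := hnb j (by omega) (Or.inr hj0)
      rw [h2]
      exact mul_ne_zero (by rw [Ne, Complex.ofReal_eq_zero]; exact hρ.ne') hj0
  have h0 : f (b 0) ≠ 0 := by
    by_contra hcon
    apply hfa
    rw [hfs a haA]
    refine Finset.sum_eq_zero fun i hi => ?_
    have h1 : f (b i) = 0 := by
      by_contra h2
      exact hdown i (Finset.mem_range.1 hi) h2 hcon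
    rw [h1, mul_zero]
  have hup : ∀ j, ∃ t : ℝ, 0 < t ∧ (j < M + 1 → f (b j) = (t : ℂ) * f (b 0)) := by
    intro j
    induction j with
    | zero => exact ⟨1, one_pos, fun _ => by simp⟩
    | succ j ih =>
      obtain ⟨t, ht, h1⟩ := ih
      by_cases hj : j + 1 < M + 1
      · have h2 := h1 (by omega)
        have h3 : f (b j) ≠ 0 := by
          rw [h2]
          exact mul_ne_zero (by rw [Ne, Complex.ofReal_eq_zero]; exact ht.ne') h0
        obtain ⟨-, ρ, hρ, h4⟩ := hnb j (by omega) (Or.inl h3)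
        refine ⟨t / ρ, div_pos ht hρ, fun _ => ?_⟩
        have hρ0 : (ρ : ℂ) ≠ 0 := by rw [Ne, Complex.ofReal_eq_zero]; exact hρ.ne'
        apply mul_left_cancel₀ hρ0
        rw [← h4, h2]
        push_cast
        field_simp
      · exact ⟨1, one_pos, fun h => absurd h hj⟩
  choose ℓ hℓ0 hℓ using hup
  refine ⟨ℓ, hℓ0, fun v hv => ?_⟩
  have h1 := hfK' v hv
  rw [hfs v (hK hv)] at h1
  have h2 : ∑ i ∈ Finset.range (M + 1), Z v i * f (b i) =
      f (b 0) * ∑ l ∈ Finset.range (M + 1), (ℓ l : ℂ) * Z v l := by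
    rw [Finset.mul_sum]
    refine Finset.sum_congr rfl fun i hi => ?_
    rw [hℓ i (Finset.mem_range.1 hi)]
    ring
  rw [h2] at h1
  exact (mul_eq_zero.1 h1).resolve_left h0

end

end Pool.Agent.Helper80.Sec
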