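import Pool.Agent.Helper80.Sec.CutStep

/-!
Several cuts; the annihilators of the members of a chain.
-/

namespace Pool.Agent.Helper80.Sec

open Module

/-- Abel summation -/
theorem abel_sum (ℓ : ℕ → ℝ) (hℓ : ∀ i, 0 < ℓ i) (ζ z : ℕ → ℂ) (m : ℕ) :
    ∑ l ∈ Finset.range (m + 1), ζ l * z l =
      ∑ l ∈ Finset.range m, (ζ l / ℓ l - ζ (l + 1) / ℓ (l + 1)) * sumMap ℓ z l +
        ζ m / ℓ m * sumMap ℓ z m := by
  have hℓ' : ∀ l, (ℓ l : ℂ) ≠ 0 := fun l => by
    rw [Ne, Complex.ofReal_eq_zero]; exact (hℓ l).ne'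
  induction m with
  | zero =>
    rw [Finset.sum_range_one, Finset.sum_range_zero, zero_add, sumMap_zero']
    have := hℓ' 0
    field_simp
  | succ m ih =>
    rw [Finset.sum_range_succ, ih, Finset.sum_range_succ, sumMap_succ]
    have := hℓ' (m + 1)
    field_simp
    ring

section

variable {V : Type*} [AddCommGroup V] [Module ℂ V] [FiniteDimensional ℂ V]

/-- functionals which vanish on a member of a chain -/
theorem Chain.dual : ∀ (e : ℕ) {Z : V →ₗ[ℂ] (ℕ → ℂ)} {N E : ℕ} {K : ℕ → Submodule ℂ V},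
    Chain Z N E K → e ≤ E → ∀ ζ : ℕ → ℂ, (∀ l, N ≤ l → ζ l = 0) →
    (∀ v ∈ K e, ∑ l ∈ Finset.range N, ζ l * Z v l = 0) → reS ζ ≠ 0 →
    Alt (tw (reS ζ)) (N - e + 1) := by
  intro e
  induction e with
  | zero =>
    intro Z N E K h _ ζ hζ hv hne
    exfalso
    apply hne
    obtain ⟨b, hbA, hbZ, -⟩ := h.fr.exists_basis
    have h0 : ζ = 0 := by
      funext i
      rcases Nat.lt_or_ge i N with hi | hi
      · have h1 := hv (b i) (hbA i hi)
        rw [Finset.sum_eq_single i] at h1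
        · rw [hbZ i hi, if_pos rfl, mul_one] at h1
          exact h1
        · intro l _ hl
          rw [hbZ i hi, if_neg hl, mul_zero]
        · intro hi'
          exact absurd (Finset.mem_range.2 hi) hi'
      · exact hζ i hi
    rw [h0]
    funext i
    simp [reS]
  | succ e ih =>
    intro Z N E K h he ζ hζ hv hne
    obtain ⟨E, rfl⟩ : ∃ E', E = E' + 1 := ⟨E - 1, by omega⟩
    obtain ⟨ℓ, M, hℓ, rfl, htot, h'⟩ := h.step
    obtain ⟨ζ', hζ'⟩ : ∃ ζ' : ℕ → ℂ, ζ' = fun l => if l < M then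
      ζ l / ℓ l - ζ (l + 1) / ℓ (l + 1) else 0 := ⟨_, rfl⟩
    have hζ1 : ∀ l, l < M → ζ' l = ζ l / ℓ l - ζ (l + 1) / ℓ (l + 1) := fun l hl => by
      rw [hζ']; exact if_pos hl
    have hζ2 : ∀ l, M ≤ l → ζ' l = 0 := fun l hl => by
      rw [hζ']; exact if_neg (by omega)
    have hre : ∀ l, l < M → reS ζ' l = reS ζ l / ℓ l - reS ζ (l + 1) / ℓ (l + 1) := fun l hl => by
      simp only [reS]
      rw [hζ1 l hl, Complex.sub_re, Complex.div_ofReal_re, Complex.div_ofReal_re]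
    have hsum : ∀ v ∈ K (e + 1), ∑ l ∈ Finset.range M, ζ' l * ((sumMap ℓ).comp Z) v l = 0 := by
      intro v hv'
      have h1 := hv v hv'
      rw [abel_sum ℓ hℓ, htot v (h'.le_zero e (by omega) hv'), mul_zero, add_zero] at h1
      rw [← h1]
      refine Finset.sum_congr rfl fun l hl => ?_
      rw [hζ1 l (Finset.mem_range.1 hl)]
      rfl
    by_cases h0 : reS ζ' = 0
    · -- full alternation
      have hg : ∀ l, l ≤ M → reS ζ l / ℓ l = reS ζ 0 / ℓ 0 := by
        intro l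
        induction l with
        | zero => intro _; rfl
        | succ l ihl =>
          intro hl
          have h1 := hre l (by omega)
          rw [h0, Pi.zero_apply] at h1
          rw [← ihl (by omega)]
          linarith
      have hz0 : reS ζ 0 ≠ 0 := by
        intro h1
        apply hne
        funext l
        rcases Nat.lt_or_ge l (M + 1) with hl | hl
        · have h2 := hg l (by omega)
          rw [h1, zero_div, div_eq_zero_iff] at h2
          exact h2.resolve_right (hℓ l).ne'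
        · simp [reS, hζ l hl]
      obtain ⟨ε, hε, hpos⟩ : ∃ ε : ℝ, (ε = 1 ∨ ε = -1) ∧ 0 < ε * reS ζ 0 := by
        rcases lt_or_gt_of_ne hz0 with h | h
        · exact ⟨-1, Or.inr rfl, by linarith⟩
        · exact ⟨1, Or.inl rfl, by linarith⟩
      refine ⟨ε, id, hε, fun j _ => Nat.lt_succ_self j, fun j hj => ?_⟩
      have h3 := hg j (by omega)
      have h4 : reS ζ j = ℓ j * (reS ζ 0 / ℓ 0) := by
        rw [← h3]
        have := (hℓ j).ne'
        field_simp
      have h5 : ε * (-1) ^ j * tw (reS ζ) (id j) = (ℓ j / ℓ 0) * (ε * reS ζ 0) := by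
        simp only [tw, id]
        rw [h4]
        have h6 : ε * (-1) ^ j * ((-1) ^ j * (ℓ j * (reS ζ 0 / ℓ 0))) =
            ((-1) ^ j * (-1) ^ j) * (ε * (ℓ j * (reS ζ 0 / ℓ 0))) := by ring
        rw [h6, neg_one_pow_mul_self, one_mul]
        ring
      rw [h5]
      exact mul_pos (div_pos (hℓ j) (hℓ 0)) hpos
    · have h1 := ih h' (by omega) ζ' hζ2 hsum h0
      have h2 : M - e + 1 = M + 1 - (e + 1) + 1 := by omega
      rw [← h2]
      refine h1.of_bidiag (fun i => ?_)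
      rcases Nat.lt_or_ge i M with hi | hi
      · refine ⟨(ℓ (i + 1))⁻¹, (ℓ i)⁻¹, (inv_pos.2 (hℓ _)).le, (inv_pos.2 (hℓ _)).le, ?_⟩
        simp only [tw]
        rw [hre i hi, pow_succ]
        ring
      · refine ⟨0, 0, le_rfl, le_rfl, ?_⟩
        simp only [tw, reS]
        rw [hζ2 i hi]
        simp

/-- what is kept by the change of coordinates -/
structure Tr (Z Z' : V →ₗ[ℂ] (ℕ → ℂ)) (K : Submodule ℂ V) (c : ℕ) : Prop where
  lo : ∀ v ∈ K, ∀ p, (∀ i, p ≤ i → Z v i = 0) → ∀ i, p - c ≤ i → Z' v i = 0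
  hi : ∀ v ∈ K, ∀ q, (∀ i, i < q → Z v i = 0) → ∀ i, i < q → Z' v i = 0
  al : ∀ v ∈ K, ∀ m, Alt (tw (reS (Z v))) m → Alt (tw (reS (Z' v))) m
  ne : ∀ v, reS (Z' v) ≠ 0 → reS (Z v) ≠ 0
  cj : ∀ v w, (∀ i, Z w i = (starRingEnd ℂ) (Z v i)) → ∀ i, Z' w i = (starRingEnd ℂ) (Z' v i)

theorem Chain.cut : ∀ (c : ℕ) {Z : V →ₗ[ℂ] (ℕ → ℂ)} {N E : ℕ} {K : ℕ → Submodule ℂ V},
    Chain Z N E K → c ≤ E → ∃ Z' : V →ₗ[ℂ] (ℕ → ℂ),
      Chain Z' (N - c) (E - c) (fun e => K (e + c)) ∧ Tr Z Z' (K c) c := by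
  intro c
  induction c with
  | zero =>
    intro Z N E K h _
    exact ⟨Z, h, fun v _ p hp i hi => hp i hi, fun v _ q hq => hq, fun v _ m hm => hm,
      fun v hv => hv, fun v w hw => hw⟩
  | succ c ih =>
    intro Z N E K h hc
    obtain ⟨E, rfl⟩ : ∃ E', E = E' + 1 := ⟨E - 1, by omega⟩
    obtain ⟨ℓ, M, hℓ, rfl, htot, h'⟩ := h.step
    obtain ⟨Z', hZ', T⟩ := ih h' (by omega)
    refine ⟨Z', ?_, ?_, ?_, ?_, ?_, ?_⟩
    · have e1 : M + 1 - (c + 1) = M - c := by omega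
      have e2 : E + 1 - (c + 1) = E - c := by omega
      rw [e1, e2]
      exact hZ'
    · intro v hv p hp i hi
      have hv1 : v ∈ K 1 := h'.le_zero c (by omega) hv
      refine T.lo v hv (p - 1) ?_ i (by omega)
      intro l hl
      have hsupp : ∀ l, M < l → Z v l = 0 := fun l hl =>
        h.fr.supp v (h.le_zero 1 (by omega) hv1) l (by omega)
      exact sumMap_high (htot v hv1) hsupp (j := p - 1) (fun l hl => hp l (by omega)) l hl
    · intro v hv q hq
      refine T.hi v hv q ?_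
      exact sumMap_low hq
    · intro v hv m hm
      exact T.al v hv m (alt_tw_sumMap hℓ hm)
    · intro v hv
      exact reS_sumMap_ne' (T.ne v hv)
    · intro v w hw
      refine T.cj v w (fun i => ?_)
      show sumMap ℓ (Z w) i = (starRingEnd ℂ) (sumMap ℓ (Z v) i)
      rw [sumMap_apply, sumMap_apply, map_sum]
      refine Finset.sum_congr rfl fun l _ => ?_
      rw [hw, map_mul, Complex.conj_ofReal]

/-- the twist -/
noncomputable def twMap : (ℕ → ℂ) →ₗ[ℂ] (ℕ → ℂ) where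
  toFun z := fun i => (-1) ^ i * z i
  map_add' z w := by funext i; simp [mul_add]
  map_smul' c z := by funext i; simp [mul_left_comm]

omit [FiniteDimensional ℂ V] in
theorem twMap_apply (z : ℕ → ℂ) (i : ℕ) : twMap z i = (-1) ^ i * z i := rfl

theorem twMap_twMap (z : ℕ → ℂ) : twMap (twMap z) = z := by
  funext i
  rw [twMap_apply, twMap_apply, ← mul_assoc]
  have : (-1 : ℂ) ^ i * (-1) ^ i = 1 := by rw [← mul_pow]; norm_num
  rw [this, one_mul]

theorem reS_twMap (z : ℕ → ℂ) : reS (twMap z) = tw (reS z) := by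
  funext i
  simp only [reS, tw]
  rw [twMap_apply]
  rcases neg_one_pow_eq_or ℂ i with h | h
  · have h' : (-1 : ℝ) ^ i = 1 := by exact_mod_cast h
    rw [h, h', one_mul, one_mul]
  · have h' : (-1 : ℝ) ^ i = -1 := by exact_mod_cast h
    rw [h, h', neg_one_mul, neg_one_mul, Complex.neg_re]

theorem twMap_eq_zero {z : ℕ → ℂ} {i : ℕ} : twMap z i = 0 ↔ z i = 0 := by
  rw [twMap_apply]
  simp

/-- what is kept by the change of coordinates for the twisted coordinates -/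
structure TrT (Z Z' : V →ₗ[ℂ] (ℕ → ℂ)) (K : Submodule ℂ V) (c : ℕ) : Prop where
  lo : ∀ v ∈ K, ∀ p, (∀ i, p ≤ i → Z v i = 0) → ∀ i, p - c ≤ i → Z' v i = 0
  hi : ∀ v ∈ K, ∀ q, (∀ i, i < q → Z v i = 0) → ∀ i, i < q → Z' v i = 0
  al : ∀ v ∈ K, ∀ m, Alt (reS (Z v)) m → Alt (reS (Z' v)) m
  ne : ∀ v, reS (Z' v) ≠ 0 → reS (Z v) ≠ 0
  cj : ∀ v w, (∀ i, Z w i = (starRingEnd ℂ) (Z v i)) → ∀ i, Z' w i = (starRingEnd ℂ) (Z' v i)

theorem conj_neg_one_pow (i : ℕ) : (starRingEnd ℂ) ((-1) ^ i) = (-1) ^ i := by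
  rw [map_pow, map_neg, map_one]

/-- cuts by the members of a chain for the twisted coordinates -/
theorem Chain.cutT (c : ℕ) {Z : V →ₗ[ℂ] (ℕ → ℂ)} {N E : ℕ} {K : ℕ → Submodule ℂ V}
    (h : Chain (twMap.comp Z) N E K) (hc : c ≤ E) : ∃ Z' : V →ₗ[ℂ] (ℕ → ℂ),
      Chain (twMap.comp Z') (N - c) (E - c) (fun e => K (e + c)) ∧ TrT Z Z' (K c) c := by
  obtain ⟨Y, hY, T⟩ := h.cut c hc
  have hYY : twMap.comp (twMap.comp Y) = Y := by
    apply LinearMap.ext
    intro v
    exact twMap_twMap _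
  refine ⟨twMap.comp Y, by rw [hYY]; exact hY, ?_, ?_, ?_, ?_, ?_⟩
  · intro v hv p hp i hi
    refine twMap_eq_zero.2 ?_
    exact T.lo v hv p (fun i hi => twMap_eq_zero.2 (hp i hi)) i hi
  · intro v hv q hq i hi
    refine twMap_eq_zero.2 ?_
    exact T.hi v hv q (fun i hi => twMap_eq_zero.2 (hq i hi)) i hi
  · intro v hv m hm
    have h1 : reS ((twMap.comp Y) v) = tw (reS (Y v)) := reS_twMap _
    rw [h1]
    apply T.al v hv m
    have h2 : reS ((twMap.comp Z) v) = tw (reS (Z v)) := reS_twMap _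
    rw [h2, tw_tw]
    exact hm
  · intro v hv
    have h1 : reS ((twMap.comp Y) v) = tw (reS (Y v)) := reS_twMap _
    rw [h1] at hv
    have h3 : reS (Y v) ≠ 0 := by
      intro h0
      rw [h0, tw_zero] at hv
      exact hv rfl
    have h4 := T.ne v h3
    have h2 : reS ((twMap.comp Z) v) = tw (reS (Z v)) := reS_twMap _
    rw [h2] at h4
    intro h0
    rw [h0, tw_zero] at h4
    exact h4 rfl
  · intro v w hw i
    show (-1) ^ i * Y w i = (starRingEnd ℂ) ((-1) ^ i * Y v i)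
    rw [map_mul, conj_neg_one_pow]
    congr 1
    refine T.cj v w (fun i => ?_) i
    show (-1) ^ i * Z w i = (starRingEnd ℂ) ((-1) ^ i * Z v i)
    rw [map_mul, conj_neg_one_pow, hw]

end

end Pool.Agent.Helper80.Sec
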