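import Pool.Agent.Helper80.Sec.CutDual

/-!
Positive coordinates on the intersection of members of four flags.
-/

namespace Pool.Agent.Helper80.Sec

open Module

section

variable {V : Type*} [AddCommGroup V] [Module ℂ V] [FiniteDimensional ℂ V]
variable {A U : Submodule ℂ V} {N : ℕ} {Z : V →ₗ[ℂ] (ℕ → ℂ)}

omit [FiniteDimensional ℂ V] in
/-- a nonzero vector has a multiple with nonzero real part -/
theorem exists_reS_ne {v : V} (h : Z v ≠ 0) : ∃ c : ℂ, reS (Z (c • v)) ≠ 0 := by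
  obtain ⟨l, hl⟩ := Function.ne_iff.1 h
  refine ⟨(starRingEnd ℂ) (Z v l), fun h0 => ?_⟩
  have h1 := congrFun h0 l
  simp only [reS] at h1
  rw [map_smul, Pi.smul_apply, smul_eq_mul, conj_mul_re, Pi.zero_apply,
    Complex.normSq_eq_zero] at h1
  exact hl h1

theorem finrank_le_of_coord (S : Finset ℕ) (h : ∀ v ∈ U, (∀ i ∈ S, Z v i = 0) → v = 0) :
    finrank ℂ U ≤ S.card := by
  classical
  let f : ↥U →ₗ[ℂ] (S → ℂ) :=
    { toFun := fun v i => Z (v : V) i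
      map_add' := fun v w => by funext i; simp
      map_smul' := fun c v => by funext i; simp }
  have hinj : Function.Injective f := by
    rw [← LinearMap.ker_eq_bot, LinearMap.ker_eq_bot']
    intro v hv
    apply Subtype.ext
    exact h v v.2 (fun i hi => congrFun hv ⟨i, hi⟩)
  have h1 := LinearMap.finrank_le_finrank_of_injective hinj
  rwa [finrank_fintype_fun_eq_card, Fintype.card_coe] at h1

theorem Fr.le_of_lo (h : Fr A N Z) (hU : U ≤ A) {p : ℕ}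
    (hp : ∀ v ∈ U, ∀ i, p ≤ i → Z v i = 0) : finrank ℂ U ≤ p := by
  have h1 := finrank_le_of_coord (U := U) (Z := Z) (Finset.range p) (fun v hv h0 => by
    refine h.inj v (hU hv) (funext fun i => ?_)
    rcases Nat.lt_or_ge i p with hi | hi
    · exact h0 i (Finset.mem_range.2 hi)
    · exact hp v hv i hi)
  rwa [Finset.card_range] at h1

theorem Fr.le_of_hi (h : Fr A N Z) (hU : U ≤ A) {q : ℕ}
    (hq : ∀ v ∈ U, ∀ i, i < q → Z v i = 0) : finrank ℂ U ≤ N - q := by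
  have h1 := finrank_le_of_coord (U := U) (Z := Z) (Finset.Ico q N) (fun v hv h0 => by
    refine h.inj v (hU hv) (funext fun i => ?_)
    rcases Nat.lt_or_ge i q with hi | hi
    · exact hq v hv i hi
    · rcases Nat.lt_or_ge i N with hi' | hi'
      · exact h0 i (Finset.mem_Ico.2 ⟨hi, hi'⟩)
      · exact h.supp v (hU hv) i hi')
  rwa [Nat.card_Ico] at h1

theorem Fr.le_of_va (h : Fr A N Z) (hU : U ≤ A) {e : ℕ} (hv : Va Z e U) :
    finrank ℂ U ≤ N - e := by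
  have h1 := finrank_le_of_coord (U := U) (Z := Z) (Finset.Ico e N) (fun v hvU h0 => by
    by_contra hne
    have h2 : Z v ≠ 0 := fun h3 => hne (h.inj v (hU hvU) h3)
    obtain ⟨c, hc⟩ := exists_reS_ne h2
    have h3 := hv _ (U.smul_mem c hvU) hc
    have h4 := h3.le_of_supp (a := 0) (b := e) (fun i hi => by
      have hi' : e ≤ i := by omega
      have h5 : Z v i = 0 := by
        rcases Nat.lt_or_ge i N with h6 | h6
        · exact h0 i (Finset.mem_Ico.2 ⟨hi', h6⟩)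
        · exact h.supp v (hU hvU) i h6
      simp only [reS]
      rw [map_smul, Pi.smul_apply, h5, smul_zero, Complex.zero_re])
    omega)
  rwa [Nat.card_Ico] at h1

/-- a chain from a flag -/
theorem mk_chain (h : Fr A N Z) {G : ℕ → Submodule ℂ V} {n d E : ℕ}
    (hdim : ∀ i, i ≤ n → finrank ℂ (G i) = i) (hmono : ∀ i j, i ≤ j → j ≤ n → G i ≤ G j)
    (hd : d ≤ n) (hA : A ≤ G (n - d)) (hE : E ≤ N)
    (hva : ∀ e, e ≤ E → Va Z e (A ⊓ G (n - d - e))) :
    Chain Z N E (fun e => A ⊓ G (n - d - e)) := by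
  have hNd : N ≤ n - d := by
    have h1 := Submodule.finrank_mono hA
    rwa [h.fr, hdim _ (by omega)] at h1
  have h0 : A ⊓ G (n - d - 0) = A := inf_eq_left.2 hA
  refine ⟨?_, fun e he => ?_, fun e he => ?_, fun e he => ?_⟩
  · show Fr (A ⊓ G (n - d - 0)) N Z
    rw [h0]; exact h
  · exact inf_le_inf_left _ (hmono _ _ (by omega) (by omega))
  · have h1 := h.le_of_va inf_le_left (hva e he)
    have h2 := Submodule.finrank_sup_add_finrank_inf_eq A (G (n - d - e))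
    have h3 := Submodule.finrank_mono (sup_le hA (hmono (n - d - e) (n - d) (by omega) (by omega)))
    rw [hdim _ (by omega)] at h3
    rw [h.fr, hdim _ (by omega)] at h2
    show finrank ℂ ↥(A ⊓ G (n - d - e)) + e = N
    omega
  · exact loc_of_va (fun v hv h1 => h.inj v hv.1 h1) (hva e he)

/-- shift -/
noncomputable def shMap (c : ℕ) : (ℕ → ℂ) →ₗ[ℂ] (ℕ → ℂ) where
  toFun z := fun i => z (i + c)
  map_add' z w := rfl
  map_smul' c z := rfl

theorem shMap_apply (c : ℕ) (z : ℕ → ℂ) (i : ℕ) : shMap c z i = z (i + c) := rfl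

theorem alt_shMap {z : ℕ → ℂ} {m c : ℕ} (h : Alt (reS z) m) (h0 : ∀ i, i < c → z i = 0) :
    Alt (reS (shMap c z)) m :=
  h.unshift c (fun i hi => by simp [reS, h0 i hi])

theorem alt_tw_shMap {z : ℕ → ℂ} {m c : ℕ} (h : Alt (tw (reS z)) m)
    (h0 : ∀ i, i < c → z i = 0) : Alt (tw (reS (shMap c z))) m := by
  have h1 := h.unshift c (fun i hi => by simp [reS, tw, h0 i hi])
  have h2 : (fun i => tw (reS z) (i + c)) = ((-1 : ℝ) ^ c) • tw (reS (shMap c z)) := by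
    funext i
    simp only [tw, Pi.smul_apply, smul_eq_mul]
    rw [pow_add]
    have : reS (shMap c z) i = reS z (i + c) := rfl
    rw [this]; ring
  rw [h2] at h1
  have hc : ((-1 : ℝ) ^ c) ≠ 0 := by
    rcases neg_one_pow_cases c with h | h <;> rw [h] <;> norm_num
  have h3 := h1.smul (inv_ne_zero hc)
  rwa [smul_smul, inv_mul_cancel₀ hc, one_smul] at h3

theorem reS_shMap_ne {z : ℕ → ℂ} {c : ℕ} (h : reS (shMap c z) ≠ 0) : reS z ≠ 0 := by
  intro h0
  apply h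
  funext i
  exact congrFun h0 (i + c)

/-- the coordinates on the intersection -/
theorem four_frame {n N c1 c2 c3 c4 w1 w2 w3 w4 : ℕ} (hn : n = N + c1 + c2 + c3 + c4)
    (hw1 : w1 ≤ N) (hw2 : w2 ≤ N) (hw3 : w3 ≤ N) (hw4 : w4 ≤ N) {Z0 : V →ₗ[ℂ] (ℕ → ℂ)}
    (hZ0 : Fr ⊤ n Z0) {F1 F2 F3 F4 : ℕ → Submodule ℂ V}
    (d1 : ∀ i, i ≤ n → finrank ℂ (F1 i) = i) (m1 : ∀ i j, i ≤ j → j ≤ n → F1 i ≤ F1 j)
    (d2 : ∀ i, i ≤ n → finrank ℂ (F2 i) = i) (m2 : ∀ i j, i ≤ j → j ≤ n → F2 i ≤ F2 j)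
    (d3 : ∀ i, i ≤ n → finrank ℂ (F3 i) = i) (m3 : ∀ i j, i ≤ j → j ≤ n → F3 i ≤ F3 j)
    (d4 : ∀ i, i ≤ n → finrank ℂ (F4 i) = i) (m4 : ∀ i j, i ≤ j → j ≤ n → F4 i ≤ F4 j)
    (l1 : ∀ v ∈ F1 (n - c1), ∀ i, n - c1 ≤ i → Z0 v i = 0)
    (l1' : ∀ v ∈ F1 (w1 + c2 + c3 + c4), ∀ i, w1 + c2 + c3 + c4 ≤ i → Z0 v i = 0)
    (l3 : ∀ v ∈ F3 (n - c3), ∀ i, i < c3 → Z0 v i = 0)
    (l3' : ∀ v ∈ F3 (w3 + c1 + c2 + c4), ∀ i, i < n - (w3 + c1 + c2 + c4) → Z0 v i = 0)
    (v2 : ∀ e, e ≤ n → Va Z0 e (F2 (n - e))) (v4 : ∀ e, e ≤ n → Va (twMap.comp Z0) e (F4 (n - e)))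
    {A : Submodule ℂ V} (hA : A = F1 (n - c1) ⊓ F3 (n - c3) ⊓ F2 (n - c2) ⊓ F4 (n - c4)) :
    ∃ Z : V →ₗ[ℂ] (ℕ → ℂ), Fr A N Z ∧
      (∀ v ∈ A ⊓ F1 (w1 + c2 + c3 + c4), ∀ i, w1 ≤ i → Z v i = 0) ∧
      (∀ v ∈ A ⊓ F3 (w3 + c1 + c2 + c4), ∀ i, i < N - w3 → Z v i = 0) ∧
      Chain Z N (N - w2) (fun e => A ⊓ F2 (n - c2 - e)) ∧
      Chain (twMap.comp Z) N (N - w4) (fun e => A ⊓ F4 (n - c4 - e)) ∧
      (∀ v w, (∀ i, Z0 w i = (starRingEnd ℂ) (Z0 v i)) →
        ∀ i, Z w i = (starRingEnd ℂ) (Z v i)) := by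
  have t2 : F2 n = ⊤ := by
    apply Submodule.eq_top_of_finrank_eq
    rw [d2 n le_rfl, ← hZ0.fr, finrank_top]
  have t4 : F4 n = ⊤ := by
    apply Submodule.eq_top_of_finrank_eq
    rw [d4 n le_rfl, ← hZ0.fr, finrank_top]
  have hVn : finrank ℂ V = n := by rw [← hZ0.fr, finrank_top]
  -- step 1
  obtain ⟨A1, hA1⟩ : ∃ A1, A1 = F1 (n - c1) ⊓ F3 (n - c3) := ⟨_, rfl⟩
  have z3 : ∀ v ∈ A1, ∀ i, i < c3 → Z0 v i = 0 := fun v hv i hi => by
    rw [hA1] at hv; exact l3 v hv.2 i hi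
  have f1 : Fr A1 (n - c1 - c3) ((shMap c3).comp Z0) := by
    have hi : ∀ v ∈ A1, ((shMap c3).comp Z0) v = 0 → v = 0 := by
      intro v hv h0
      refine hZ0.inj v Submodule.mem_top (funext fun i => ?_)
      rcases Nat.lt_or_ge i c3 with h | h
      · exact z3 v hv i h
      · have h1 := congrFun h0 (i - c3)
        have h2 : Z0 v (i - c3 + c3) = 0 := h1
        rw [Nat.sub_add_cancel h] at h2
        exact h2
    have hs : ∀ v ∈ A1, ∀ i, n - c1 - c3 ≤ i → ((shMap c3).comp Z0) v i = 0 := by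
      intro v hv i hi
      rw [hA1] at hv
      exact l1 v hv.1 (i + c3) (by omega)
    refine ⟨hi, hs, ?_⟩
    apply le_antisymm
    · have h1 := finrank_le_of_coord (U := A1) (Z := (shMap c3).comp Z0)
        (Finset.range (n - c1 - c3)) (fun v hv h0 => hi v hv (funext fun i => by
          rcases Nat.lt_or_ge i (n - c1 - c3) with h | h
          · exact h0 i (Finset.mem_range.2 h)
          · exact hs v hv i h))
      rwa [Finset.card_range] at h1
    · have h2 := Submodule.finrank_sup_add_finrank_inf_eq (F1 (n - c1)) (F3 (n - c3))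
      have h3 := Submodule.finrank_le (F1 (n - c1) ⊔ F3 (n - c3))
      rw [hVn] at h3
      rw [d1 _ (by omega), d3 _ (by omega), ← hA1] at h2
      omega
  -- step 2
  have hc2 := mk_chain (E := N - w2 + c2) (d := 0) f1 d2 m2 (Nat.zero_le _)
    (by rw [Nat.sub_zero, t2]; exact le_top) (by omega) (by
      rintro e he v ⟨hv1, hv2⟩ hne
      have hv2' : v ∈ F2 (n - e) := hv2
      exact alt_shMap (v2 e (by omega) v hv2' (reS_shMap_ne hne)) (z3 v hv1))
  obtain ⟨Z2, h2, T2⟩ := hc2.cut c2 (by omega)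
  obtain ⟨A2, hA2⟩ : ∃ A2, A2 = A1 ⊓ F2 (n - c2) := ⟨_, rfl⟩
  have e2 : A1 ⊓ F2 (n - 0 - c2) = A2 := hA2.symm
  have f2 : Fr A2 (n - c1 - c3 - c2) Z2 := by
    have h3 := h2.fr
    beta_reduce at h3
    rw [Nat.zero_add, e2] at h3
    exact h3
  beta_reduce at T2
  rw [e2] at T2
  have g2 : A2 ≤ A1 := by rw [hA2]; exact inf_le_left
  -- step 3
  have f2' : Fr A2 (n - c1 - c3 - c2) (twMap.comp Z2) :=
    ⟨fun v hv h0 => f2.inj v hv (funext fun i => twMap_eq_zero.1 (congrFun h0 i)),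
      fun v hv i hi => twMap_eq_zero.2 (f2.supp v hv i hi), f2.fr⟩
  have hc4 := mk_chain (E := N - w4 + c4) (d := 0) f2' d4 m4 (Nat.zero_le _)
    (by rw [Nat.sub_zero, t4]; exact le_top) (by omega) (by
      rintro e he v ⟨hv1, hv2⟩ hne
      have hv2' : v ∈ F4 (n - e) := hv2
      have q1 : reS ((twMap.comp Z2) v) = tw (reS (Z2 v)) := reS_twMap _
      rw [q1] at hne ⊢
      have q2 : reS (Z2 v) ≠ 0 := fun h0 => hne (by rw [h0, tw_zero])
      have q3 := reS_shMap_ne (T2.ne v q2)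
      have q4 : reS ((twMap.comp Z0) v) = tw (reS (Z0 v)) := reS_twMap _
      have q5 := v4 e (by omega) v hv2' (by rw [q4]; exact tw_ne_zero q3)
      rw [q4] at q5
      exact T2.al v hv1 _ (alt_tw_shMap q5 (z3 v (g2 hv1))))
  obtain ⟨Z3, h3, T3⟩ := Chain.cutT c4 hc4 (by omega)
  have hAA : A = A2 ⊓ F4 (n - c4) := by rw [hA, hA2, hA1]
  have e3 : A2 ⊓ F4 (n - 0 - c4) = A := hAA.symm
  beta_reduce at T3
  rw [e3] at T3
  have hN : n - c1 - c3 - c2 - c4 = N := by omega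
  rw [hN] at h3
  have f3 : Fr A N Z3 := by
    have h4 := h3.fr
    beta_reduce at h4
    rw [Nat.zero_add, e3] at h4
    exact ⟨fun v hv h0 => h4.inj v hv (funext fun i => twMap_eq_zero.2 (congrFun h0 i)),
      fun v hv i hi => twMap_eq_zero.1 (h4.supp v hv i hi), h4.fr⟩
  have gA2 : A ≤ A2 := by rw [hAA]; exact inf_le_left
  have gA1 : A ≤ A1 := gA2.trans g2
  have gF2 : A ≤ F2 (n - c2) := gA2.trans (by rw [hA2]; exact inf_le_right)
  have gF4 : A ≤ F4 (n - c4) := by rw [hAA]; exact inf_le_right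
  refine ⟨Z3, f3, ?_, ?_, ?_, ?_, ?_⟩
  · rintro v ⟨hvA, hv1⟩
    have q0 : ∀ i, w1 + c2 + c4 ≤ i → ((shMap c3).comp Z0) v i = 0 := fun i hi =>
      l1' v hv1 (i + c3) (by omega)
    have q1 := T2.lo v (gA2 hvA) _ q0
    have q2 := T3.lo v hvA _ q1
    intro i hi
    exact q2 i (by omega)
  · rintro v ⟨hvA, hv3⟩
    have q0 : ∀ i, i < N - w3 → ((shMap c3).comp Z0) v i = 0 := fun i hi =>
      l3' v hv3 (i + c3) (by omega)
    exact T3.hi v hvA _ (T2.hi v (gA2 hvA) _ q0)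
  · refine mk_chain f3 d2 m2 (by omega) gF2 (by omega) ?_
    rintro e he v ⟨hvA, hv2⟩ hne
    have q1 := T3.ne v hne
    have q2 := Chain.va e h2 (by omega) v (by
      show v ∈ A1 ⊓ F2 (n - 0 - (e + c2))
      have h5 : n - 0 - (e + c2) = n - c2 - e := by omega
      rw [h5]
      exact ⟨gA1 hvA, hv2⟩) q1
    exact T3.al v hvA _ q2
  · have f3' : Fr A N (twMap.comp Z3) :=
      ⟨fun v hv h0 => f3.inj v hv (funext fun i => twMap_eq_zero.1 (congrFun h0 i)),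
        fun v hv i hi => twMap_eq_zero.2 (f3.supp v hv i hi), f3.fr⟩
    refine mk_chain f3' d4 m4 (by omega) gF4 (by omega) ?_
    rintro e he v ⟨hvA, hv4⟩ hne
    exact Chain.va e h3 (by omega) v (by
      show v ∈ A2 ⊓ F4 (n - 0 - (e + c4))
      have h5 : n - 0 - (e + c4) = n - c4 - e := by omega
      rw [h5]
      exact ⟨gA2 hvA, hv4⟩) hne
  · intro v w hw
    exact T3.cj v w (T2.cj v w (fun i => hw (i + c3)))

end

end Pool.Agent.Helper80.Sec
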