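import Pool.Agent.Helper80.Sec.Cut

/-!
Cutting by the members of a flag.
-/

namespace Pool.Agent.Helper80.Sec

open Module

/-- weighted partial sums -/
noncomputable def sumMap (ℓ : ℕ → ℝ) : (ℕ → ℂ) →ₗ[ℂ] (ℕ → ℂ) where
  toFun z := fun i => ∑ l ∈ Finset.range (i + 1), (ℓ l : ℂ) * z l
  map_add' z w := by funext i; simp [mul_add, Finset.sum_add_distrib]
  map_smul' c z := by funext i; simp [Finset.mul_sum, mul_left_comm]

theorem sumMap_apply (ℓ : ℕ → ℝ) (z : ℕ → ℂ) (i : ℕ) :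
    sumMap ℓ z i = ∑ l ∈ Finset.range (i + 1), (ℓ l : ℂ) * z l := rfl

theorem sumMap_zero' (ℓ : ℕ → ℝ) (z : ℕ → ℂ) : sumMap ℓ z 0 = ℓ 0 * z 0 := by
  rw [sumMap_apply, Finset.sum_range_one]

theorem sumMap_succ (ℓ : ℕ → ℝ) (z : ℕ → ℂ) (i : ℕ) :
    sumMap ℓ z (i + 1) = sumMap ℓ z i + ℓ (i + 1) * z (i + 1) := by
  rw [sumMap_apply, Finset.sum_range_succ, ← sumMap_apply]

theorem sumMap_low {ℓ : ℕ → ℝ} {z : ℕ → ℂ} {q : ℕ} (h : ∀ l, l < q → z l = 0) :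
    ∀ l, l < q → sumMap ℓ z l = 0 := by
  intro l hl
  rw [sumMap_apply]
  refine Finset.sum_eq_zero fun i hi => ?_
  rw [h i (by have := Finset.mem_range.1 hi; omega), mul_zero]

theorem sumMap_first {ℓ : ℕ → ℝ} {z : ℕ → ℂ} {i : ℕ} (h : ∀ l, l < i → z l = 0) :
    sumMap ℓ z i = ℓ i * z i := by
  rw [sumMap_apply, Finset.sum_range_succ, Finset.sum_eq_zero, zero_add]
  intro l hl
  rw [h l (Finset.mem_range.1 hl), mul_zero]

theorem sumMap_high {ℓ : ℕ → ℝ} {z : ℕ → ℂ} {M j : ℕ} (h0 : sumMap ℓ z M = 0)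
    (hz : ∀ l, M < l → z l = 0) (h : ∀ l, j < l → z l = 0) : ∀ l, j ≤ l → sumMap ℓ z l = 0 := by
  have key : ∀ (j : ℕ), (∀ l, j < l → z l = 0) → ∀ l, j ≤ l → sumMap ℓ z l = sumMap ℓ z j := by
    intro j hj l hl
    induction l, hl using Nat.le_induction with
    | base => rfl
    | succ l hl ih => rw [sumMap_succ, ih, hj (l + 1) (by omega), mul_zero, add_zero]
  intro l hl
  have h1 := key j h l hl
  have h2 := key j h (max j M) (le_max_left _ _)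
  have h3 := key M hz (max j M) (le_max_right _ _)
  rw [h1, ← h2, h3, h0]

theorem sumMap_inj_low {ℓ : ℕ → ℝ} (hℓ : ∀ i, 0 < ℓ i) {z : ℕ → ℂ} {q : ℕ}
    (h : ∀ l, l < q → sumMap ℓ z l = 0) : ∀ l, l < q → z l = 0 := by
  intro l hl
  have hℓ' : (ℓ l : ℂ) ≠ 0 := by rw [Ne, Complex.ofReal_eq_zero]; exact (hℓ l).ne'
  rcases Nat.eq_zero_or_pos l with h0 | h0
  · subst h0
    have h1 := h 0 hl
    rw [sumMap_zero'] at h1
    exact (mul_eq_zero.1 h1).resolve_left hℓ'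
  · obtain ⟨k, rfl⟩ : ∃ k, l = k + 1 := ⟨l - 1, by omega⟩
    have h1 := h (k + 1) hl
    rw [sumMap_succ, h k (by omega), zero_add] at h1
    exact (mul_eq_zero.1 h1).resolve_left hℓ'

theorem sumMap_inj_high {ℓ : ℕ → ℝ} (hℓ : ∀ i, 0 < ℓ i) {z : ℕ → ℂ} {j : ℕ}
    (h : ∀ l, j < l → sumMap ℓ z l = 0) : ∀ l, j + 1 < l → z l = 0 := by
  intro l hl
  have hℓ' : (ℓ l : ℂ) ≠ 0 := by rw [Ne, Complex.ofReal_eq_zero]; exact (hℓ l).ne'
  obtain ⟨k, rfl⟩ : ∃ k, l = k + 1 := ⟨l - 1, by omega⟩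
  have h1 := h (k + 1) (by omega)
  rw [sumMap_succ, h k (by omega), zero_add] at h1
  exact (mul_eq_zero.1 h1).resolve_left hℓ'

theorem reS_sumMap (ℓ : ℕ → ℝ) (z : ℕ → ℂ) (i : ℕ) :
    reS (sumMap ℓ z) i = ∑ l ∈ Finset.range (i + 1), ℓ l * reS z l := by
  simp only [reS]
  rw [sumMap_apply, Complex.re_sum]
  exact Finset.sum_congr rfl fun l _ => by rw [Complex.re_ofReal_mul]

theorem reS_sumMap_zero (ℓ : ℕ → ℝ) (z : ℕ → ℂ) : reS (sumMap ℓ z) 0 = ℓ 0 * reS z 0 := by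
  rw [reS_sumMap, Finset.sum_range_one]

theorem reS_sumMap_succ (ℓ : ℕ → ℝ) (z : ℕ → ℂ) (i : ℕ) :
    reS (sumMap ℓ z) (i + 1) = reS (sumMap ℓ z) i + ℓ (i + 1) * reS z (i + 1) := by
  rw [reS_sumMap, Finset.sum_range_succ, ← reS_sumMap]

/-- if the partial sums vanish then the sequence vanishes -/
theorem reS_sumMap_ne {ℓ : ℕ → ℝ} (hℓ : ∀ i, 0 < ℓ i) {z : ℕ → ℂ} (h : reS z ≠ 0) :
    reS (sumMap ℓ z) ≠ 0 := by
  intro h0
  apply h
  funext i
  rcases Nat.eq_zero_or_pos i with hi | hi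
  · subst hi
    have h1 := reS_sumMap_zero ℓ z
    rw [h0] at h1
    exact (mul_eq_zero.1 h1.symm).resolve_left (hℓ 0).ne'
  · obtain ⟨k, rfl⟩ : ∃ k, i = k + 1 := ⟨i - 1, by omega⟩
    have h1 := reS_sumMap_succ ℓ z k
    rw [h0, Pi.zero_apply, Pi.zero_apply, zero_add] at h1
    exact (mul_eq_zero.1 h1.symm).resolve_left (hℓ _).ne'

theorem reS_sumMap_ne' {ℓ : ℕ → ℝ} {z : ℕ → ℂ} (h : reS (sumMap ℓ z) ≠ 0) : reS z ≠ 0 := by
  intro h0
  apply h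
  funext i
  rw [reS_sumMap, Pi.zero_apply]
  refine Finset.sum_eq_zero fun l _ => ?_
  rw [h0, Pi.zero_apply, mul_zero]

/-- twisted alternations are kept by partial sums -/
theorem alt_tw_sumMap {ℓ : ℕ → ℝ} (hℓ : ∀ i, 0 < ℓ i) {z : ℕ → ℂ} {m : ℕ}
    (h : Alt (tw (reS z)) m) : Alt (tw (reS (sumMap ℓ z))) m := by
  obtain ⟨s, hs⟩ : ∃ s : ℕ → ℝ, s = fun i => if i = 0 then 0 else tw (reS (sumMap ℓ z)) (i - 1) :=
    ⟨_, rfl⟩
  have hs0 : s 0 = 0 := by rw [hs]; exact if_pos rfl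
  have hs1 : ∀ i, s (i + 1) = tw (reS (sumMap ℓ z)) i := fun i => by
    rw [hs]
    show (if i + 1 = 0 then 0 else tw (reS (sumMap ℓ z)) (i + 1 - 1)) = _
    rw [if_neg (by omega), Nat.add_sub_cancel]
  have h1 : Alt s m := by
    refine h.of_bidiag (fun i => ⟨(ℓ i)⁻¹, (ℓ i)⁻¹, (inv_pos.2 (hℓ i)).le, (inv_pos.2 (hℓ i)).le, ?_⟩)
    rcases Nat.eq_zero_or_pos i with hi | hi
    · subst hi
      rw [hs1, hs0]
      simp only [tw]
      rw [reS_sumMap_zero, mul_zero, add_zero]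
      have := (hℓ 0).ne'
      field_simp
    · obtain ⟨k, rfl⟩ : ∃ k, i = k + 1 := ⟨i - 1, by omega⟩
      rw [hs1, hs1]
      simp only [tw]
      rw [reS_sumMap_succ, pow_succ]
      have := (hℓ (k + 1)).ne'
      field_simp
      ring
  have h2 := h1.unshift 1 (fun i hi => by
    have : i = 0 := by omega
    rw [this, hs0])
  have h3 : (fun i => s (i + 1)) = tw (reS (sumMap ℓ z)) := funext hs1
  rwa [h3] at h2

/-- a sequence has one more alternation than its partial sums -/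
theorem alt_of_sumMap {ℓ : ℕ → ℝ} (hℓ : ∀ i, 0 < ℓ i) {z : ℕ → ℂ} {m N : ℕ}
    (hz : ∀ i, N ≤ i → sumMap ℓ z i = 0) (h : Alt (reS (sumMap ℓ z)) (m + 1)) :
    Alt (reS z) (m + 2) := by
  refine h.diff (N := N) (A := fun i => (ℓ (i + 1))⁻¹) (B := fun i => (ℓ i)⁻¹)
    (fun i hi => by simp [reS, hz i hi])
    (fun i _ => inv_pos.2 (hℓ _)) (fun i _ => inv_pos.2 (hℓ _)) ?_ (fun i => ?_)
  · rw [reS_sumMap_zero]
    have := (hℓ 0).ne'
    field_simp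
  · rw [reS_sumMap_succ]
    have := (hℓ (i + 1)).ne'
    field_simp
    ring

section

variable {V : Type*} [AddCommGroup V] [Module ℂ V] [FiniteDimensional ℂ V]

/-- positive coordinates on `K 0` and a chain of subspaces with the sign variation property -/
structure Chain (Z : V →ₗ[ℂ] (ℕ → ℂ)) (N E : ℕ) (K : ℕ → Submodule ℂ V) : Prop where
  fr : Fr (K 0) N Z
  le : ∀ e, e < E → K (e + 1) ≤ K e
  dim : ∀ e, e ≤ E → finrank ℂ (K e) + e = N
  loc : ∀ e, e ≤ E → Loc Z e (K e)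

omit [FiniteDimensional ℂ V] in
theorem Chain.le_zero {Z : V →ₗ[ℂ] (ℕ → ℂ)} {N E : ℕ} {K : ℕ → Submodule ℂ V}
    (h : Chain Z N E K) : ∀ e, e ≤ E → K e ≤ K 0 := by
  intro e
  induction e with
  | zero => intro _; exact le_rfl
  | succ e ih => intro he; exact (h.le e (by omega)).trans (ih (by omega))

/-- one step -/
theorem Chain.step {Z : V →ₗ[ℂ] (ℕ → ℂ)} {N E : ℕ} {K : ℕ → Submodule ℂ V}
    (h : Chain Z N (E + 1) K) : ∃ (ℓ : ℕ → ℝ) (M : ℕ), (∀ i, 0 < ℓ i) ∧ N = M + 1 ∧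
      (∀ v ∈ K 1, sumMap ℓ (Z v) M = 0) ∧
      Chain ((sumMap ℓ).comp Z) M E (fun e => K (e + 1)) := by
  have hd1 := h.dim 1 (by omega)
  obtain ⟨M, rfl⟩ : ∃ M, N = M + 1 := ⟨N - 1, by omega⟩
  have hK1 : finrank ℂ (K 1) = M := by omega
  obtain ⟨ℓ, hℓ, hsum⟩ := h.fr.exists_ell (h.le_zero 1 (by omega)) hK1 (h.loc 1 (by omega))
  have hle1 : ∀ e, e ≤ E → K (e + 1) ≤ K 1 := by
    intro e
    induction e with
    | zero => intro _; exact le_rfl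
    | succ e ih => intro he; exact (h.le (e + 1) (by omega)).trans (ih (by omega))
  have htot : ∀ v ∈ K 1, sumMap ℓ (Z v) M = 0 := fun v hv => hsum v hv
  have hsupp : ∀ v ∈ K 1, ∀ l, M < l → Z v l = 0 := fun v hv l hl =>
    h.fr.supp v (h.le_zero 1 (by omega) hv) l (by omega)
  refine ⟨ℓ, M, hℓ, rfl, htot, ⟨?_, ?_, hK1⟩, fun e he => h.le (e + 1) (by omega), fun e he => ?_,
    fun e he => ?_⟩
  · intro v hv h0
    refine h.fr.inj v (h.le_zero 1 (by omega) hv) ?_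
    funext l
    exact sumMap_inj_low hℓ (q := l + 1) (fun i _ => congrFun h0 i) l (by omega)
  · intro v hv i hi
    exact sumMap_high (htot v hv) (hsupp v hv) (hsupp v hv) i hi
  · have := h.dim (e + 1) (by omega)
    show finrank ℂ (K (e + 1)) + e = M
    omega
  · intro v hv hv0 i h1 h2
    have hvK1 : v ∈ K 1 := hle1 e he hv
    have a1 : ∀ l, l < i → Z v l = 0 := sumMap_inj_low hℓ h1
    have a2 : ∀ l, i + (e + 1) < l → Z v l = 0 := sumMap_inj_high hℓ (j := i + e) h2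
    obtain ⟨b1, ρ, hρ, b2⟩ := h.loc (e + 1) (by omega) v hv hv0 i a1 a2
    have c1 : sumMap ℓ (Z v) i = ℓ i * Z v i := sumMap_first a1
    have c2 : sumMap ℓ (Z v) (i + e + 1) = 0 := h2 (i + e + 1) (by omega)
    rw [sumMap_succ] at c2
    have hℓi : (ℓ i : ℂ) ≠ 0 := by rw [Ne, Complex.ofReal_eq_zero]; exact (hℓ i).ne'
    refine ⟨?_, ρ * ℓ (i + e + 1) / ℓ i, div_pos (mul_pos hρ (hℓ _)) (hℓ i), ?_⟩
    · show sumMap ℓ (Z v) i ≠ 0
      rw [c1]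
      exact mul_ne_zero hℓi b1
    · show sumMap ℓ (Z v) (i + e) = _ * sumMap ℓ (Z v) i
      have c3 : sumMap ℓ (Z v) (i + e) = -((ℓ (i + e + 1) : ℂ) * Z v (i + e + 1)) :=
        eq_neg_of_add_eq_zero_left c2
      have b2' : Z v (i + e + 1) = (((-1) ^ (e + 1) * ρ : ℝ) : ℂ) * Z v i := b2
      rw [c3, c1, b2', pow_succ]
      push_cast
      field_simp

/-- the sign variation property of all the members of a chain -/
theorem Chain.va : ∀ (e : ℕ) {Z : V →ₗ[ℂ] (ℕ → ℂ)} {N E : ℕ} {K : ℕ → Submodule ℂ V},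
    Chain Z N E K → e ≤ E → Va Z e (K e) := by
  intro e
  induction e with
  | zero => intro Z N E K h _ v _ hne; exact alt_one hne
  | succ e ih =>
    intro Z N E K h he v hv hne
    obtain ⟨E, rfl⟩ : ∃ E', E = E' + 1 := ⟨E - 1, by omega⟩
    obtain ⟨ℓ, M, hℓ, rfl, htot, h'⟩ := h.step
    have h1 := ih h' (by omega) v hv (reS_sumMap_ne hℓ hne)
    have hv1 : v ∈ K 1 := h'.le_zero e (by omega) hv
    exact alt_of_sumMap hℓ (N := M) (fun i hi => h'.fr.supp v hv1 i hi) h1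

end

end Pool.Agent.Helper80.Sec
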