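import Mathlib

/-!
Schubert varieties and generalized secant flags: definitions.
The ambient space is `ℂ^n = Fin n → ℂ`; points of `ℝP¹` are elements of `OnePoint ℝ = ℝ ∪ {∞}`.
-/

namespace Pool.Agent.Helper80.Sec

open Module

/-- The `k`-th derivative at `t` of the rational normal curve `γ(t) = (1, t, ..., t^(n-1))`. -/
noncomputable def gammaDeriv (n k : ℕ) (t : ℝ) : Fin n → ℂ :=
  fun i => ((iteratedDeriv k (fun s : ℝ => s ^ (i : ℕ)) t : ℝ) : ℂ)

/-- The osculating subspace of dimension `m` of `γ` at a point of `ℝP¹`: at a real point `t` the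
span of `γ(t), γ'(t), ..., γ^(m-1)(t)`; at `∞` (where `γ(∞) = (0, ..., 0, 1)`) the span of the
last `m` vectors of the standard basis. -/
noncomputable def Osc (n m : ℕ) (t : OnePoint ℝ) : Submodule ℂ (Fin n → ℂ) :=
  t.elim (Submodule.span ℂ {v | ∃ i : Fin n, n ≤ (i : ℕ) + m ∧ v = Pi.single i 1})
    (fun t => Submodule.span ℂ {v | ∃ k : ℕ, k < m ∧ v = gammaDeriv n k t})

/-- `W` is a generalized secant subspace along `I`: it is spanned by (finitely many) osculating
subspaces of `γ` at points of `I`. -/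
def IsGenSecant (n : ℕ) (I : Set (OnePoint ℝ)) (W : Submodule ℂ (Fin n → ℂ)) : Prop :=
  ∃ S : Finset (OnePoint ℝ × ℕ), (∀ x ∈ S, x.1 ∈ I) ∧ W = ⨆ x ∈ S, Osc n x.2 x.1

/-- `F` is a (complete) flag of generalized secant subspaces along `I`:
`F 1 ⊂ F 2 ⊂ ... ⊂ F (n-1)`, `dim F i = i` (and `F 0 = 0`, `F n = ℂ^n`). -/
structure IsSecantFlag (n : ℕ) (I : Set (OnePoint ℝ)) (F : ℕ → Submodule ℂ (Fin n → ℂ)) :
    Prop where
  dim : ∀ i, i ≤ n → finrank ℂ (F i) = i
  mono : ∀ i j, i ≤ j → j ≤ n → F i ≤ F j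
  sec : ∀ i, 1 ≤ i → i < n → IsGenSecant n I (F i)

/-- The Schubert variety `X_λ F` in the Grassmannian `G(k, n)`: the `k`-dimensional subspaces `H`
with `dim (H ∩ F_(n-k+i-λ_i)) ≥ i` for `i = 1, ..., k` (here `lam i` is `λ_(i+1)`). -/
def Schubert (n k : ℕ) (lam : Fin k → ℕ) (F : ℕ → Submodule ℂ (Fin n → ℂ)) :
    Set (Submodule ℂ (Fin n → ℂ)) :=
  {H | finrank ℂ H = k ∧
    ∀ i : Fin k, (i : ℕ) + 1 ≤ finrank ℂ ↥(H ⊓ F (n - k + ((i : ℕ) + 1) - lam i))}

/-- `i` is a corner of the partition `lam`: `λ_i > λ_(i+1)` (with `λ_(k+1) = 0`). -/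
def IsCorner {k : ℕ} (lam : Fin k → ℕ) (i : Fin k) : Prop :=
  0 < lam i ∧ ∀ j : Fin k, i < j → lam j < lam i

/-- Transversality at the point `H` of the intersection of the Schubert varieties `X_(lam j) (F j)`
(whose codimensions add up to the dimension of the Grassmannian). The tangent space of `G(k, n)`
at `H` is `Hom(H, ℂ^n / H)`. Every corner condition of every `lam j` holds at `H` with equality
(so that `H` is a smooth point of `X_(lam j) (F j)`, with tangent space the set of the `φ` that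
map `H ∩ E` into `(E + H) / H` for each corner subspace `E`), and the tangent spaces of the
Schubert varieties at `H` have intersection `0`. -/
def TransverseAt {ι : Type} (n k : ℕ) (lam : ι → Fin k → ℕ)
    (F : ι → ℕ → Submodule ℂ (Fin n → ℂ)) (H : Submodule ℂ (Fin n → ℂ)) : Prop :=
  (∀ (j : ι) (i : Fin k), IsCorner (lam j) i →
    finrank ℂ ↥(H ⊓ F j (n - k + ((i : ℕ) + 1) - lam j i)) = (i : ℕ) + 1) ∧
  ∀ φ : H →ₗ[ℂ] ((Fin n → ℂ) ⧸ H),
    (∀ (j : ι) (i : Fin k), IsCorner (lam j) i → ∀ x : H,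
      (x : Fin n → ℂ) ∈ F j (n - k + ((i : ℕ) + 1) - lam j i) →
      φ x ∈ (F j (n - k + ((i : ℕ) + 1) - lam j i)).map H.mkQ) → φ = 0

/-- `H` is a real point of the Grassmannian: it is stable under complex conjugation. -/
def IsRealPoint {n : ℕ} (H : Submodule ℂ (Fin n → ℂ)) : Prop :=
  ∀ v ∈ H, (fun i => (starRingEnd ℂ) (v i)) ∈ H

end Pool.Agent.Helper80.Sec
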