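import Pool.Agent.Helper80.Sec.Forms

/-!
The quadruple attached to four lists of points in cyclic order.
-/

namespace Pool.Agent.Helper80.Sec

open Polynomial

variable {n : ℕ}

/-- all points of `L'` come after all points of `L` -/
def Before (L L' : List (ℝ × ℝ)) : Prop := ∀ s ∈ L, ∀ t ∈ L', 0 < br t s

/-- extension of a nonempty list to a sequence -/
noncomputable def ext (L : List (ℝ × ℝ)) (h : L ≠ []) (l : ℕ) : ℝ × ℝ :=
  if h : l < L.length then L[l] else L.head (by assumption)

theorem ext_mem (L : List (ℝ × ℝ)) (h : L ≠ []) (l : ℕ) : ext L h l ∈ L := by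
  unfold ext
  split_ifs with h'
  · exact List.getElem_mem _
  · exact List.head_mem h

theorem prod_ext (L : List (ℝ × ℝ)) (h : L ≠ []) :
    ∏ l ∈ Finset.range L.length, lf (ext L h l) = (L.map lf).prod := by
  rw [← Fin.prod_univ_eq_prod_range (fun l => lf (ext L h l)) L.length]
  rw [← List.prod_ofFn]
  congr 1
  apply List.ext_getElem
  · simp
  · intro l h1 h2
    simp only [List.getElem_ofFn, List.getElem_map, ext]
    have : l < L.length := by simpa using h2
    simp [this]

theorem prod_ext_dvd (L : List (ℝ × ℝ)) (h : L ≠ []) {m : ℕ} (hm : L.length ≤ m) :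
    ∏ l ∈ Finset.range m, lf (ext L h l) =
      (L.map lf).prod * ∏ l ∈ Finset.Ico L.length m, lf (ext L h l) := by
  rw [← prod_ext L h]
  exact (Finset.prod_range_mul_prod_Ico _ hm).symm

theorem prod_Ico_natDegree (a : ℕ → ℝ × ℝ) (i k : ℕ) :
    (∏ l ∈ Finset.Ico i k, lf (a l)).natDegree ≤ k - i := by
  refine (natDegree_prod_le _ _).trans ?_
  refine (Finset.sum_le_sum fun l _ => lf_natDegree (a l)).trans ?_
  simp

/-- The quadruple. -/
noncomputable def mkQuad (n : ℕ) (L1 L2 L3 L4 : List (ℝ × ℝ)) (n1 : L1 ≠ []) (n3 : L3 ≠ [])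
    (l2 : L2.length < n) (l4 : L4.length < n)
    (h13 : Before L1 L3) (h12 : Before L1 L2) (h23 : Before L2 L3) (h14 : Before L1 L4)
    (h34 : Before L3 L4) (hle : L1.length + L3.length ≤ n)
    (hsum : L1.length + L2.length + L3.length + L4.length = 2 * n) : Quad (Fin n → ℂ) where
  Z := ZF n (ext L1 n1) (ext L3 n3)
  U1 := SecSp n L1
  U2 := SecSp n L2
  U3 := SecSp n L3
  U4 := SecSp n L4
  p := L1.length
  q := n - L3.length
  N := n
  e2 := n - L2.length
  e4 := n - L4.length
  inj := ZF_injective (fun i j => by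
    rw [br_anti]
    exact (neg_neg_of_pos (h13 _ (ext_mem L1 n1 i) _ (ext_mem L3 n3 j))).ne)
  hpq := by omega
  hqN := by omega
  hsum := by omega
  h1 := by
    intro v hv i hi
    rcases Nat.lt_or_ge i n with h | h
    · rw [ZF_apply v h, FB, prod_ext_dvd L1 n1 hi, mul_assoc]
      refine pair_mul_of_mem hv ?_
      have h1 : ((∏ l ∈ Finset.Ico L1.length i, lf (ext L1 n1 l)) *
          ∏ l ∈ Finset.range (n - 1 - i), lf (ext L3 n3 l)).natDegree ≤ (i - L1.length) + (n - 1 - i) :=
        natDegree_mul_le.trans (Nat.add_le_add (prod_Ico_natDegree _ _ _) (prod_lf_natDegree _ _))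
      omega
    · exact ZF_apply_ge v h
  h3 := by
    intro v hv i hi
    rcases Nat.lt_or_ge i n with h | h
    · have hi' : i < n - L3.length := hi.resolve_right (by omega)
      have e : FB (ext L1 n1) (ext L3 n3) (n - 1) i =
          (L3.map lf).prod * ((∏ l ∈ Finset.Ico L3.length (n - 1 - i), lf (ext L3 n3 l)) *
            ∏ l ∈ Finset.range i, lf (ext L1 n1 l)) := by
        rw [FB, prod_ext_dvd L3 n3 (m := n - 1 - i) (by omega)]
        ring
      rw [ZF_apply v h, e]
      refine pair_mul_of_mem hv ?_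
      have h1 : ((∏ l ∈ Finset.Ico L3.length (n - 1 - i), lf (ext L3 n3 l)) *
          ∏ l ∈ Finset.range i, lf (ext L1 n1 l)).natDegree ≤ (n - 1 - i - L3.length) + i :=
        natDegree_mul_le.trans (Nat.add_le_add (prod_Ico_natDegree _ _ _) (prod_lf_natDegree _ _))
      omega
    · exact ZF_apply_ge v h
  h2 := by
    intro v hv hne
    have key := alt_of_mem (a := ext L1 n1) (c := ext L3 n3) l2 1 (Or.inl rfl)
      (fun i j => h13 _ (ext_mem L1 n1 i) _ (ext_mem L3 n3 j))
      (fun i t ht => h12 _ (ext_mem L1 n1 i) t ht)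
      (fun j t ht => by
        rw [one_mul, br_anti]
        exact neg_neg_of_pos (h23 t ht _ (ext_mem L3 n3 j))) hv
      (by simpa using hne)
    simpa using key
  h4 := by
    intro v hv hne
    have hne' : (fun i => (-1 : ℝ) ^ i * (ZF n (ext L1 n1) (ext L3 n3) v i).re) ≠ 0 := by
      have := tw_ne_zero hne
      exact this
    have key := alt_of_mem (a := ext L1 n1) (c := ext L3 n3) l4 (-1) (Or.inr rfl)
      (fun i j => h13 _ (ext_mem L1 n1 i) _ (ext_mem L3 n3 j))
      (fun i t ht => h14 _ (ext_mem L1 n1 i) t ht)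
      (fun j t ht => by
        have := h34 _ (ext_mem L3 n3 j) t ht
        linarith) hv hne'
    exact key

end Pool.Agent.Helper80.Sec
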