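import Pool.Agent.Helper80.Sec.Defs
import Pool.Agent.Helper80.Sec.MkQuad

/-!
Generalized secant subspaces are the spaces `SecSp`.
-/

namespace Pool.Agent.Helper80.Sec

open Polynomial Module

variable {n : ℕ}

/-- `a` represents the point `t` of the projective line -/
def IsRep (t : OnePoint ℝ) (a : ℝ × ℝ) : Prop :=
  t.elim (a.2 = 0 ∧ a.1 ≠ 0) (fun s => a.2 ≠ 0 ∧ a.1 = s * a.2)

theorem pair_gammaDeriv (k : ℕ) (t : ℝ) {q : ℝ[X]} (hq : q.natDegree < n) :
    pair (gammaDeriv n k t) q = ((derivative^[k] q).eval t : ℝ) := by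
  have h1 : q = ∑ i ∈ Finset.range n, C (q.coeff i) * X ^ i := q.as_sum_range_C_mul_X_pow' hq
  nth_rewrite 2 [h1]
  rw [Polynomial.iterate_derivative_sum, Polynomial.eval_finsetSum]
  simp only [pair, gammaDeriv]
  rw [← Fin.sum_univ_eq_sum_range (fun i => eval t (derivative^[k] (C (q.coeff i) * X ^ i))) n]
  push_cast
  refine Finset.sum_congr rfl fun i _ => ?_
  rw [Polynomial.iterate_derivative_C_mul, Polynomial.iterate_derivative_X_pow_eq_C_mul]
  simp only [eval_mul, eval_C, eval_pow, eval_X]
  rw [iteratedDeriv_pow]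
  push_cast
  ring

theorem pair_single (i : Fin n) (q : ℝ[X]) : pair (Pi.single i 1) q = (q.coeff i : ℂ) := by
  simp only [pair]
  rw [Finset.sum_eq_single i]
  · simp
  · intro b _ hb
    simp [Pi.single_eq_of_ne hb]
  · intro h; exact absurd (Finset.mem_univ i) h

theorem lf_of_rep {t : ℝ} {a : ℝ × ℝ} (h : IsRep (t : OnePoint ℝ) a) :
    lf a = C a.2 * (X - C t) := by
  have h' : a.2 ≠ 0 ∧ a.1 = t * a.2 := h
  rw [lf, h'.2, mul_sub, ← C_mul, mul_comm a.2 t]

theorem lf_of_rep_infty {a : ℝ × ℝ} (h : IsRep (OnePoint.infty : OnePoint ℝ) a) :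
    lf a = C (-a.1) := by
  have h' : a.2 = 0 ∧ a.1 ≠ 0 := h
  rw [lf, h'.1]; simp

theorem lf_ne_zero {t : OnePoint ℝ} {a : ℝ × ℝ} (h : IsRep t a) : lf a ≠ 0 := by
  induction t using OnePoint.rec with
  | infty =>
    rw [lf_of_rep_infty h]
    have h' : a.2 = 0 ∧ a.1 ≠ 0 := h
    simpa using h'.2
  | coe t =>
    rw [lf_of_rep h]
    have h' : a.2 ≠ 0 ∧ a.1 = t * a.2 := h
    exact mul_ne_zero (by simpa using h'.1) (X_sub_C_ne_zero t)

/-- the dimension of `SecSp` -/
theorem finrank_SecSp {L : List (ℝ × ℝ)} (hL : L.length ≤ n) (h0 : ∀ a ∈ L, lf a ≠ 0) :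
    finrank ℂ (SecSp n L) = L.length := by
  set D := (L.map lf).prod with hD
  have hD0 : D ≠ 0 := by
    rw [hD]
    apply List.prod_ne_zero
    intro hmem
    obtain ⟨a, ha, ha'⟩ := List.mem_map.1 hmem
    exact h0 a ha ha'
  have hDdeg : D.natDegree ≤ L.length := by
    rw [hD]
    refine (natDegree_list_prod_le _).trans ?_
    rw [List.map_map]
    have : ∀ x ∈ List.map (natDegree ∘ lf) L, x ≤ 1 := by
      intro x hx
      obtain ⟨a, _, rfl⟩ := List.mem_map.1 hx
      exact lf_natDegree a
    have h2 := List.sum_le_card_nsmul _ 1 this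
    simpa using h2
  let Φ : (Fin n → ℂ) →ₗ[ℂ] (Fin (n - L.length) → ℂ) :=
    { toFun := fun v m => pair v (D * X ^ (m : ℕ))
      map_add' := by intro v w; funext m; simp [pair_add_left]
      map_smul' := by intro c v; funext m; simp [pair_smul_left] }
  have hker : LinearMap.ker Φ = SecSp n L := by
    ext v
    rw [LinearMap.mem_ker, mem_SecSp]
    constructor
    · intro h m hm
      exact congrFun h ⟨m, by omega⟩
    · intro h
      funext m
      exact h m (by omega)
  have hsurj : LinearMap.range Φ = ⊤ := by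
    by_contra hne
    obtain ⟨f, hf0, hf⟩ := Submodule.exists_le_ker_of_lt_top _ (lt_top_iff_ne_top.2 hne)
    apply hf0
    -- the polynomial `∑ f(e_m) X^m`
    set B : ℂ[X] := ∑ m : Fin (n - L.length), C (f (Pi.single m 1)) * X ^ (m : ℕ) with hB
    have hfw : ∀ w : Fin (n - L.length) → ℂ, f w = ∑ m, w m * f (Pi.single m 1) := by
      intro w
      conv_lhs => rw [pi_eq_sum_univ w]
      rw [map_sum]
      refine Finset.sum_congr rfl fun m _ => ?_
      rw [map_smul, smul_eq_mul]
      congr 2
      funext j
      by_cases h : m = j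
      · subst h; simp
      · simp [h]
    have hcoeff : ∀ i : ℕ, i < n → (D.map (algebraMap ℝ ℂ) * B).coeff i = 0 := by
      intro i hi
      have h1 : f (Φ (Pi.single ⟨i, hi⟩ 1)) = 0 := by
        have : Φ (Pi.single ⟨i, hi⟩ 1) ∈ LinearMap.range Φ := ⟨_, rfl⟩
        exact hf this
      rw [hfw] at h1
      rw [hB, Finset.mul_sum, finsetSum_coeff]
      rw [← h1]
      refine Finset.sum_congr rfl fun m _ => ?_
      have h2 : Φ (Pi.single ⟨i, hi⟩ 1) m = ((D * X ^ (m : ℕ)).coeff i : ℂ) := pair_single _ _
      rw [h2]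
      have h3 : D.map (algebraMap ℝ ℂ) * (C (f (Pi.single m 1)) * X ^ (m : ℕ))
          = C (f (Pi.single m 1)) * (D * X ^ (m : ℕ)).map (algebraMap ℝ ℂ) := by
        rw [Polynomial.map_mul, Polynomial.map_pow, map_X]; ring
      rw [h3, coeff_C_mul, coeff_map]
      rw [mul_comm]
      rfl
    have hBdeg : B.natDegree + L.length ≤ n - 1 ∨ B = 0 := by
      by_cases hB0 : B = 0
      · exact Or.inr hB0
      · left
        have h1 : B.degree < ((n - L.length : ℕ) : WithBot ℕ) := by
          rw [hB]
          refine (degree_sum_le _ _).trans_lt ?_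
          rw [Finset.sup_lt_iff (WithBot.bot_lt_coe _)]
          intro m _
          refine (degree_C_mul_X_pow_le _ _).trans_lt ?_
          exact_mod_cast m.2
        have h2 := (natDegree_lt_iff_degree_lt hB0).2 h1
        omega
    have hprod : D.map (algebraMap ℝ ℂ) * B = 0 := by
      rcases hBdeg with h | h
      · ext i
        rcases Nat.lt_or_ge i n with hi | hi
        · rw [hcoeff i hi, coeff_zero]
        · rw [coeff_zero]
          apply coeff_eq_zero_of_natDegree_lt
          refine natDegree_mul_le.trans_lt ?_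
          have h3 : (D.map (algebraMap ℝ ℂ)).natDegree ≤ D.natDegree := natDegree_map_le
          rcases Nat.eq_zero_or_pos n with hn | hn
          · -- n = 0 : `Fin 0`, `B = 0`
            exfalso
            have : n - L.length = 0 := by omega
            have hB0 : B = 0 := by
              rw [hB]
              apply Finset.sum_eq_zero
              intro m _
              exact absurd m.2 (by omega)
            apply hf0
            apply LinearMap.ext
            intro w
            rw [hfw]
            apply Finset.sum_eq_zero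
            intro m _
            exact absurd m.2 (by omega)
          · omega
      · rw [h, mul_zero]
    have hB0 : B = 0 := by
      rcases mul_eq_zero.1 hprod with h | h
      · exact absurd ((Polynomial.map_eq_zero _).1 h) hD0
      · exact h
    apply LinearMap.ext
    intro w
    rw [hfw, LinearMap.zero_apply]
    refine Finset.sum_eq_zero fun m _ => ?_
    have h1 : B.coeff m = f (Pi.single m 1) := by
      rw [hB, finsetSum_coeff, Finset.sum_eq_single m]
      · simp
      · intro b _ hb
        have : (m : ℕ) ≠ b := fun h => hb (Fin.ext h.symm)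
        simp [coeff_X_pow, this]
      · intro h; exact absurd (Finset.mem_univ m) h
    rw [← h1, hB0, coeff_zero, mul_zero]
  have h1 := LinearMap.finrank_range_add_finrank_ker Φ
  rw [hsurj, hker, finrank_top] at h1
  simp only [finrank_fin_fun] at h1
  omega

end Pool.Agent.Helper80.Sec
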