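import Pool.Agent.Helper80.Sec.AltDiff
import Pool.Agent.Helper80.Sec.MkQuad

/-!
Coordinates of polynomials in the generalized Bernstein bases.
-/

namespace Pool.Agent.Helper80.Sec

open Polynomial Module

/-- complexification of a real polynomial -/
noncomputable def cx (q : ℝ[X]) : ℂ[X] := q.map (algebraMap ℝ ℂ)

theorem cx_mul (p q : ℝ[X]) : cx (p * q) = cx p * cx q := Polynomial.map_mul _

theorem cx_add (p q : ℝ[X]) : cx (p + q) = cx p + cx q := Polynomial.map_add _

theorem cx_C (r : ℝ) : cx (C r) = C (r : ℂ) := Polynomial.map_C _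

theorem cx_one : cx 1 = 1 := Polynomial.map_one _

theorem cx_natDegree (q : ℝ[X]) : (cx q).natDegree = q.natDegree :=
  Polynomial.natDegree_map _

theorem cx_eq_zero {q : ℝ[X]} : cx q = 0 ↔ q = 0 := Polynomial.map_eq_zero _

variable (a c : ℕ → ℝ × ℝ)

/-- linear combination of generalized Bernstein polynomials -/
noncomputable def ex (k : ℕ) (y : ℕ → ℂ) : ℂ[X] :=
  ∑ i ∈ Finset.range k, C (y i) * cx (FB a c (k - 1) i)

theorem ex_add (k : ℕ) (y z : ℕ → ℂ) : ex a c k (y + z) = ex a c k y + ex a c k z := by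
  simp only [ex, Pi.add_apply, C_add, add_mul, Finset.sum_add_distrib]

theorem ex_smul (k : ℕ) (s : ℂ) (y : ℕ → ℂ) : ex a c k (s • y) = C s * ex a c k y := by
  simp only [ex, Pi.smul_apply, smul_eq_mul, C_mul, Finset.mul_sum, mul_assoc]

theorem ex_natDegree (k : ℕ) (y : ℕ → ℂ) : (ex a c k y).natDegree ≤ k - 1 := by
  unfold ex
  apply natDegree_sum_le_of_forall_le
  intro i hi
  refine (natDegree_C_mul_le _ _).trans ?_
  rw [cx_natDegree]
  exact FB_natDegree a c (by have := Finset.mem_range.1 hi; omega)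

theorem ex_degree (k : ℕ) (y : ℕ → ℂ) : (ex a c k y).degree < k := by
  rcases Nat.eq_zero_or_pos k with h | h
  · subst h
    simp [ex]
  · by_cases h0 : ex a c k y = 0
    · rw [h0, degree_zero]; exact WithBot.bot_lt_coe _
    · rw [← natDegree_lt_iff_degree_lt h0]
      have := ex_natDegree a c k y
      omega

/-- coefficients of the multiplication by a linear form -/
noncomputable def cA (t : ℝ × ℝ) (k i : ℕ) : ℝ := br t (c (k - 1 - i)) / br (a i) (c (k - 1 - i))

/-- coefficients of the multiplication by a linear form -/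
noncomputable def cB (t : ℝ × ℝ) (k i : ℕ) : ℝ := br (a i) t / br (a i) (c (k - 1 - i))

/-- coordinates of the product by a linear form -/
noncomputable def mulc (t : ℝ × ℝ) (k : ℕ) (y : ℕ → ℂ) : ℕ → ℂ
  | 0 => cB a c t k 0 * y 0
  | (i + 1) => cB a c t k (i + 1) * y (i + 1) + cA a c t k i * y i

theorem lf_mul_ex (hb : ∀ i j, br (a i) (c j) ≠ 0) (t : ℝ × ℝ) {k : ℕ} (hk : 1 ≤ k)
    {y : ℕ → ℂ} (hy : ∀ i, k ≤ i → y i = 0) :
    cx (lf t) * ex a c k y = ex a c (k + 1) (mulc a c t k y) := by
  have h1 : ∀ i ∈ Finset.range k, cx (lf t) * (C (y i) * cx (FB a c (k - 1) i)) =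
      C (cA a c t k i * y i) * cx (FB a c k (i + 1)) + C (cB a c t k i * y i) * cx (FB a c k i) := by
    intro i hi
    have hi' : i ≤ k - 1 := by have := Finset.mem_range.1 hi; omega
    have h2 := lf_mul_FB a c t hi' (hb _ _)
    have h3 : k - 1 + 1 = k := by omega
    rw [h3] at h2
    have h4 := congrArg cx h2
    rw [cx_mul, cx_add, cx_mul, cx_mul, cx_C, cx_C] at h4
    calc cx (lf t) * (C (y i) * cx (FB a c (k - 1) i))
        = C (y i) * (cx (lf t) * cx (FB a c (k - 1) i)) := by ring
      _ = _ := by rw [h4]; simp only [C_mul, cA, cB]; ring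
  have hlhs : cx (lf t) * ex a c k y =
      ∑ i ∈ Finset.range k, C (cA a c t k i * y i) * cx (FB a c k (i + 1)) +
      ∑ i ∈ Finset.range k, C (cB a c t k i * y i) * cx (FB a c k i) := by
    rw [ex, Finset.mul_sum, Finset.sum_congr rfl h1, Finset.sum_add_distrib]
  have hrhs : ex a c (k + 1) (mulc a c t k y) =
      ∑ i ∈ Finset.range k, C (cA a c t k i * y i) * cx (FB a c k (i + 1)) +
      ∑ i ∈ Finset.range (k + 1), C (cB a c t k i * y i) * cx (FB a c k i) := by
    rw [ex, Finset.sum_range_succ', Finset.sum_range_succ' (fun i => C (cB a c t k i * y i) * _)]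
    rw [← add_assoc, ← Finset.sum_add_distrib]
    rw [Nat.add_sub_cancel]
    congr 1
    refine Finset.sum_congr rfl fun i _ => ?_
    simp only [mulc, C_add]
    ring
  rw [hlhs, hrhs, Finset.sum_range_succ (fun i => C (cB a c t k i * y i) * _), hy k le_rfl]
  simp

theorem exists_ex (hb : ∀ i j, br (a i) (c j) ≠ 0) : ∀ (N : ℕ) (f : ℂ[X]), f.degree < N →
    ∃ y : ℕ → ℂ, (∀ i, N ≤ i → y i = 0) ∧ f = ex a c N y := by
  intro N
  induction N with
  | zero =>
    intro f hf
    refine ⟨0, fun _ _ => rfl, ?_⟩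
    have : f = 0 := by
      by_contra h
      rw [← natDegree_lt_iff_degree_lt h] at hf
      omega
    rw [this]; simp [ex]
  | succ N ih =>
    intro f hf
    rcases Nat.eq_zero_or_pos N with h0 | hpos
    · subst h0
      have h1 : f = C (f.coeff 0) := by
        apply eq_C_of_degree_le_zero
        by_cases h0 : f = 0
        · rw [h0, degree_zero]; exact bot_le
        · rw [← natDegree_lt_iff_degree_lt h0] at hf
          exact natDegree_le_iff_degree_le.1 (show f.natDegree ≤ 0 by omega)
      refine ⟨fun i => if i = 0 then f.coeff 0 else 0, fun i hi => by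
        beta_reduce
        rw [if_neg (by omega)], ?_⟩
      rw [ex]
      simp [FB, cx_one]
      exact h1
    · have hX : cx (lf (0, 1)) = X := by simp [lf, cx]
      have h1 : cx (lf (-1, 0)) = 1 := by simp [lf, cx]
      have hg : f.divX.degree < N := by
        by_cases hd : f.divX = 0
        · rw [hd, degree_zero]; exact WithBot.bot_lt_coe _
        · rw [← natDegree_lt_iff_degree_lt hd, natDegree_divX_eq_natDegree_tsub_one]
          have hf0 : f ≠ 0 := by rintro rfl; simp at hd
          rw [← natDegree_lt_iff_degree_lt hf0] at hf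
          omega
      obtain ⟨y1, hy1, e1⟩ := ih _ hg
      obtain ⟨y2, hy2, e2⟩ := ih (C (f.coeff 0)) (lt_of_le_of_lt degree_C_le (by
        exact_mod_cast hpos))
      refine ⟨mulc a c (0, 1) N y1 + mulc a c (-1, 0) N y2, ?_, ?_⟩
      · have hm : ∀ (t : ℝ × ℝ) (y : ℕ → ℂ), (∀ i, N ≤ i → y i = 0) → ∀ i, N + 1 ≤ i →
            mulc a c t N y i = 0 := by
          intro t y hy i hi
          obtain ⟨j, rfl⟩ : ∃ j, i = j + 1 := ⟨i - 1, by omega⟩
          simp only [mulc]
          rw [hy (j + 1) (by omega), hy j (by omega)]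
          simp
        intro i hi
        rw [Pi.add_apply, hm _ _ hy1 i hi, hm _ _ hy2 i hi, add_zero]
      · rw [ex_add, ← lf_mul_ex a c hb _ hpos hy1, ← lf_mul_ex a c hb _ hpos hy2, ← e1, ← e2, hX,
          h1, one_mul]
        exact (X_mul_divX_add f).symm

/-- the coordinates as a linear map -/
noncomputable def exMap (N : ℕ) : (Fin N → ℂ) →ₗ[ℂ] ↥(degreeLT ℂ N) where
  toFun y := ⟨ex a c N (fun i => if h : i < N then y ⟨i, h⟩ else 0), by
    rw [mem_degreeLT]; exact ex_degree a c N _⟩
  map_add' y z := by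
    apply Subtype.ext
    simp only [Submodule.coe_add]
    rw [← ex_add]
    congr 1
    funext i
    by_cases h : i < N <;> simp [h]
  map_smul' s y := by
    apply Subtype.ext
    simp only [Submodule.coe_smul, RingHom.id_apply]
    rw [smul_eq_C_mul, ← ex_smul]
    congr 1
    funext i
    by_cases h : i < N <;> simp [h]

theorem exMap_surjective (hb : ∀ i j, br (a i) (c j) ≠ 0) (N : ℕ) :
    Function.Surjective (exMap a c N) := by
  intro f
  obtain ⟨y, hy, e⟩ := exists_ex a c hb N f (mem_degreeLT.1 f.2)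
  refine ⟨fun i => y i, ?_⟩
  apply Subtype.ext
  rw [e]
  show ex a c N _ = ex a c N y
  congr 1
  funext i
  by_cases h : i < N
  · simp [h]
  · simp [h, hy i (not_lt.1 h)]

instance finDim_degreeLT (N : ℕ) : FiniteDimensional ℂ ↥(degreeLT ℂ N) :=
  (degreeLTEquiv ℂ N).symm.finiteDimensional

theorem finrank_degreeLT (N : ℕ) : finrank ℂ ↥(degreeLT ℂ N) = N := by
  rw [(degreeLTEquiv ℂ N).finrank_eq, finrank_fin_fun]

theorem exMap_bijective (hb : ∀ i j, br (a i) (c j) ≠ 0) (N : ℕ) :
    Function.Bijective (exMap a c N) := by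
  have h1 := exMap_surjective a c hb N
  refine ⟨(LinearMap.injective_iff_surjective_of_finrank_eq_finrank ?_).2 h1, h1⟩
  rw [finrank_degreeLT, finrank_fin_fun]

/-- coordinates of polynomials -/
noncomputable def ZD (hb : ∀ i j, br (a i) (c j) ≠ 0) (N : ℕ) :
    ↥(degreeLT ℂ N) →ₗ[ℂ] (ℕ → ℂ) where
  toFun f := fun i => if h : i < N then
    (LinearEquiv.ofBijective (exMap a c N) (exMap_bijective a c hb N)).symm f ⟨i, h⟩ else 0
  map_add' f g := by
    funext i
    by_cases h : i < N <;> simp [h]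
  map_smul' s f := by
    funext i
    by_cases h : i < N <;> simp [h]

variable {a c}

theorem ZD_spec (hb : ∀ i j, br (a i) (c j) ≠ 0) {N : ℕ} (f : ↥(degreeLT ℂ N)) :
    (f : ℂ[X]) = ex a c N (ZD a c hb N f) := by
  have h1 := (LinearEquiv.ofBijective (exMap a c N) (exMap_bijective a c hb N)).apply_symm_apply f
  have h2 := congrArg Subtype.val h1
  exact h2.symm

theorem ZD_supp (hb : ∀ i j, br (a i) (c j) ≠ 0) {N : ℕ} (f : ↥(degreeLT ℂ N)) {i : ℕ}
    (hi : N ≤ i) : ZD a c hb N f i = 0 := by
  simp [ZD, not_lt.2 hi]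

theorem ZD_eq (hb : ∀ i j, br (a i) (c j) ≠ 0) {N : ℕ} {f : ↥(degreeLT ℂ N)} {y : ℕ → ℂ}
    (hy : ∀ i, N ≤ i → y i = 0) (hf : (f : ℂ[X]) = ex a c N y) : ZD a c hb N f = y := by
  have h1 : exMap a c N (fun i => y i) = f := by
    apply Subtype.ext
    rw [hf]
    show ex a c N _ = ex a c N y
    congr 1
    funext i
    by_cases h : i < N
    · simp [h]
    · simp [h, hy i (not_lt.1 h)]
  have h2 : (LinearEquiv.ofBijective (exMap a c N) (exMap_bijective a c hb N)).symm f =
      fun i : Fin N => y i := by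
    rw [LinearEquiv.symm_apply_eq]
    exact h1.symm
  funext i
  by_cases h : i < N
  · simp [ZD, h, h2]
  · rw [ZD_supp hb f (not_lt.1 h), hy i (not_lt.1 h)]

theorem ZD_injective (hb : ∀ i j, br (a i) (c j) ≠ 0) (N : ℕ) :
    Function.Injective (ZD a c hb N) := by
  intro f g h
  apply Subtype.ext
  rw [ZD_spec hb f, ZD_spec hb g, h]

theorem ZD_real (hb : ∀ i j, br (a i) (c j) ≠ 0) {N : ℕ} {f : ↥(degreeLT ℂ N)}
    (h : ∀ i, (ZD a c hb N f i).im = 0) (j : ℕ) : ((f : ℂ[X]).coeff j).im = 0 := by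
  rw [ZD_spec hb f, ex, finsetSum_coeff]
  simp only [coeff_C_mul, Complex.im_sum]
  apply Finset.sum_eq_zero
  intro i _
  have h1 : ((cx (FB a c (N - 1) i)).coeff j).im = 0 := by
    rw [cx, coeff_map]; simp
  rw [Complex.mul_im, h1, h i]; simp

/-- multiples of a product of the first linear forms `lf (a l)` -/
theorem ex_shift_a (a c : ℕ → ℝ × ℝ) (u k : ℕ) (y : ℕ → ℂ) :
    cx (∏ l ∈ Finset.range u, lf (a l)) * ex (fun l => a (u + l)) c k y =
      ex a c (u + k) (fun i => if i < u then 0 else y (i - u)) := by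
  rw [ex, ex, Finset.sum_range_add]
  have h1 : ∑ x ∈ Finset.range u, C (if x < u then (0 : ℂ) else y (x - u)) *
      cx (FB a c (u + k - 1) x) = 0 := by
    apply Finset.sum_eq_zero
    intro i hi
    rw [if_pos (Finset.mem_range.1 hi)]; simp
  rw [h1, zero_add, Finset.mul_sum]
  refine Finset.sum_congr rfl fun i hi => ?_
  have hi' := Finset.mem_range.1 hi
  rw [if_neg (by omega), Nat.add_sub_cancel_left]
  have h2 : FB a c (u + k - 1) (u + i) =
      (∏ l ∈ Finset.range u, lf (a l)) * FB (fun l => a (u + l)) c (k - 1) i := by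
    simp only [FB]
    rw [Finset.prod_range_add]
    have : u + k - 1 - (u + i) = k - 1 - i := by omega
    rw [this]; ring
  rw [h2, cx_mul]; ring

/-- multiples of a product of the first linear forms `lf (c l)` -/
theorem ex_shift_c (a c : ℕ → ℝ × ℝ) (u k : ℕ) {y : ℕ → ℂ} (hy : ∀ i, k ≤ i → y i = 0) :
    cx (∏ l ∈ Finset.range u, lf (c l)) * ex a (fun l => c (u + l)) k y =
      ex a c (k + u) y := by
  rw [ex, ex, Finset.sum_range_add]
  have h1 : ∑ x ∈ Finset.range u, C (y (k + x)) *
      cx (FB a c (k + u - 1) (k + x)) = 0 := by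
    apply Finset.sum_eq_zero
    intro i _
    rw [hy _ (by omega)]; simp
  rw [h1, add_zero, Finset.mul_sum]
  refine Finset.sum_congr rfl fun i hi => ?_
  have hi' := Finset.mem_range.1 hi
  have h2 : FB a c (k + u - 1) i =
      (∏ l ∈ Finset.range u, lf (c l)) * FB a (fun l => c (u + l)) (k - 1) i := by
    simp only [FB]
    have : k + u - 1 - i = u + (k - 1 - i) := by omega
    rw [this, Finset.prod_range_add]; ring
  rw [h2, cx_mul]; ring

/-- multiples of a product of linear forms of a side: one more alternation for each factor -/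
theorem ex_list {a c : ℕ → ℝ × ℝ} {σ : ℝ} (hσ : σ = 1 ∨ σ = -1)
    (hac : ∀ i j, 0 < br (c j) (a i)) (L : List (ℝ × ℝ))
    (ha : ∀ t ∈ L, ∀ i, 0 < br t (a i)) (hc : ∀ t ∈ L, ∀ j, σ * br t (c j) < 0)
    {k : ℕ} (hk : 1 ≤ k) {y : ℕ → ℂ} (hy : ∀ i, k ≤ i → y i = 0) :
    ∃ y' : ℕ → ℂ, (∀ i, k + L.length ≤ i → y' i = 0) ∧
      cx (L.map lf).prod * ex a c k y = ex a c (k + L.length) y' ∧
      ((∀ i, (y i).re = 0) → ∀ i, (y' i).re = 0) ∧
      ∀ m, Alt (fun i => (-σ) ^ i * (y i).re) (m + 1) →
        Alt (fun i => (-σ) ^ i * (y' i).re) (m + 1 + L.length) := by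
  have hσ2 : σ * σ = 1 := by rcases hσ with h | h <;> rw [h] <;> norm_num
  have hb : ∀ i j, br (a i) (c j) ≠ 0 := fun i j => by
    rw [br_anti]; exact (neg_neg_of_pos (hac i j)).ne
  induction L with
  | nil =>
    refine ⟨y, ?_, ?_, fun h => h, fun m h => h⟩
    · simpa using hy
    · simp [cx_one]
  | cons t L ih =>
    obtain ⟨y1, s1, e1, r1, a1⟩ := ih (fun t ht => ha t (List.mem_cons_of_mem _ ht))
      (fun t ht => hc t (List.mem_cons_of_mem _ ht))
    set K := k + L.length with hK
    have ht1 : ∀ i, 0 < br t (a i) := ha t (List.mem_cons_self ..)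
    have ht2 : ∀ j, σ * br t (c j) < 0 := hc t (List.mem_cons_self ..)
    have hBpos : ∀ i, 0 < cB a c t K i := by
      intro i
      unfold cB
      apply div_pos_of_neg_of_neg
      · rw [br_anti]; have := ht1 i; linarith
      · rw [br_anti]; have := hac i (K - 1 - i); linarith
    have hApos : ∀ i, 0 < σ * cA a c t K i := by
      intro i
      unfold cA
      rw [← mul_div_assoc]
      apply div_pos_of_neg_of_neg (ht2 _)
      rw [br_anti]; have := hac i (K - 1 - i); linarith
    refine ⟨mulc a c t K y1, ?_, ?_, ?_, ?_⟩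
    · intro i hi
      rw [List.length_cons] at hi
      obtain ⟨j, rfl⟩ : ∃ j, i = j + 1 := ⟨i - 1, by omega⟩
      simp only [mulc]
      rw [s1 (j + 1) (by omega), s1 j (by omega)]
      simp
    · rw [List.map_cons, List.prod_cons, cx_mul, mul_assoc, e1,
        lf_mul_ex a c hb t (by omega) s1, List.length_cons, hK]
      rfl
    · intro h i
      have h1 := r1 h
      cases i with
      | zero => simp only [mulc, Complex.re_ofReal_mul, h1, mul_zero]
      | succ i => simp only [mulc, Complex.add_re, Complex.re_ofReal_mul, h1, mul_zero, add_zero]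
    · intro m hm
      have h1 := a1 m hm
      rw [List.length_cons]
      have h2 : m + 1 + L.length = (m + L.length) + 1 := by omega
      rw [h2] at h1
      have h3 := Alt.diff (N := K) h1 (z' := fun i => (-σ) ^ i * (mulc a c t K y1 i).re)
        (A := fun i => σ * cA a c t K i) (B := fun i => cB a c t K i)
        (fun i hi => by simp [s1 i hi]) (fun i _ => hApos i) (fun i _ => hBpos i)
        (by simp only [mulc, Complex.re_ofReal_mul]; ring)
        (fun i => by
          simp only [mulc, Complex.add_re, Complex.re_ofReal_mul, pow_succ]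
          ring)
      have h4 : m + 1 + (L.length + 1) = m + L.length + 2 := by omega
      rw [h4]
      exact h3

end Pool.Agent.Helper80.Sec
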