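import Pool.Agent.Helper80.Sec.Arcs

/-!
Reality and transversality for the four secant conditions.
-/

namespace Pool.Agent.Helper80.Sec

open Polynomial Module

variable {n : ℕ}

theorem pair_im (v : Fin n → ℂ) (q : ℝ[X]) :
    pair (fun i => ((v i).im : ℂ)) q = ((pair v q).im : ℂ) := by
  simp only [pair, Complex.im_sum, Complex.ofReal_sum]
  refine Finset.sum_congr rfl fun i _ => ?_
  rw [Complex.mul_im]
  simp

theorem ZF_real {a c : ℕ → ℝ × ℝ} (hb : ∀ i j, br (a i) (c j) ≠ 0) {v : Fin n → ℂ}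
    (h : ∀ i, (ZF n a c v i).im = 0) (i : Fin n) : (v i).im = 0 := by
  have h1 : ZF n a c (fun i => ((v i).im : ℂ)) = 0 := by
    funext k
    rcases Nat.lt_or_ge k n with hk | hk
    · rw [ZF_apply _ hk, pair_im, ← ZF_apply v hk, h k]
      simp
    · exact ZF_apply_ge _ hk
  have h2 := ZF_injective hb (h1.trans (map_zero _).symm)
  have h3 := congrFun h2 i
  simpa using h3

/-- the quadruple of four generalized secant subspaces -/
theorem exists_quad {I : Fin 4 → Set (OnePoint ℝ)} (hpre : ∀ j, IsPreconnected (I j))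
    (hdis : ∀ i j, i ≠ j → Disjoint (I i) (I j)) {W : Fin 4 → Submodule ℂ (Fin n → ℂ)}
    (hu1 : ∀ j, 1 ≤ finrank ℂ (W j)) (hun : ∀ j, finrank ℂ (W j) < n)
    (hsum : ∑ j, finrank ℂ (W j) = 2 * n) (hW : ∀ j, IsGenSecant n (I j) (W j)) :
    ∃ (Q : Quad (Fin n → ℂ)) (π : Equiv.Perm (Fin 4)), Q.U1 = W (π 0) ∧ Q.U2 = W (π 1) ∧
      Q.U3 = W (π 2) ∧ Q.U4 = W (π 3) ∧
      (∀ v, (∀ i, (Q.Z v i).im = 0) → ∀ i, (v i).im = 0) ∧
      Q.p = finrank ℂ (W (π 0)) ∧ Q.q = n - finrank ℂ (W (π 2)) ∧ Q.N = n ∧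
      Q.e2 = n - finrank ℂ (W (π 1)) ∧ Q.e4 = n - finrank ℂ (W (π 3)) := by
  choose L hLlen hLI hLW using fun j => (hW j).exists_list (hun j)
  have hLne : ∀ j, L j ≠ [] := fun j h => by
    have h1 := hLlen j
    have h2 := hu1 j
    rw [h, List.length_nil] at h1
    omega
  have hne : ∀ j, (I j).Nonempty := fun j => ⟨(L j).head (hLne j), hLI j _ (List.head_mem _)⟩
  obtain ⟨rep, π, hrep, hord⟩ := exists_order hpre hdis hne
  -- reduce to a good order
  have main : ∀ (rep : OnePoint ℝ → ℝ × ℝ) (π : Equiv.Perm (Fin 4)), (∀ t, IsRep t (rep t)) →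
      (∀ i j, i < j → ∀ a ∈ I (π i), ∀ b ∈ I (π j), 0 < br (rep b) (rep a)) →
      finrank ℂ (W (π 0)) + finrank ℂ (W (π 2)) ≤ n →
      ∃ (Q : Quad (Fin n → ℂ)) (π : Equiv.Perm (Fin 4)), Q.U1 = W (π 0) ∧ Q.U2 = W (π 1) ∧
        Q.U3 = W (π 2) ∧ Q.U4 = W (π 3) ∧
        (∀ v, (∀ i, (Q.Z v i).im = 0) → ∀ i, (v i).im = 0) ∧
        Q.p = finrank ℂ (W (π 0)) ∧ Q.q = n - finrank ℂ (W (π 2)) ∧ Q.N = n ∧
        Q.e2 = n - finrank ℂ (W (π 1)) ∧ Q.e4 = n - finrank ℂ (W (π 3)) := by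
    intro rep π hrep hord hle
    have hne' : ∀ j, (L (π j)).map rep ≠ [] := fun j h => hLne (π j) (List.map_eq_nil_iff.1 h)
    have hlt : ∀ j, ((L (π j)).map rep).length < n := fun j => by
      rw [List.length_map, hLlen]; exact hun _
    have hbef : ∀ i j, i < j → Before ((L (π i)).map rep) ((L (π j)).map rep) := by
      intro i j hij s hs t ht
      obtain ⟨a, ha, rfl⟩ := List.mem_map.1 hs
      obtain ⟨b, hb, rfl⟩ := List.mem_map.1 ht
      exact hord i j hij a (hLI _ a ha) b (hLI _ b hb)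
    have hlen : ∀ j, ((L (π j)).map rep).length = finrank ℂ (W (π j)) := fun j => by
      rw [List.length_map, hLlen]
    have hsum' : finrank ℂ (W (π 0)) + finrank ℂ (W (π 1)) + finrank ℂ (W (π 2)) +
        finrank ℂ (W (π 3)) = 2 * n := by
      rw [← hsum, ← Equiv.sum_comp π, Fin.sum_univ_four]
    have h02 : ((L (π 0)).map rep).length + ((L (π 2)).map rep).length ≤ n := by
      rw [hlen, hlen]; exact hle
    refine ⟨mkQuad n ((L (π 0)).map rep) ((L (π 1)).map rep) ((L (π 2)).map rep)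
      ((L (π 3)).map rep) (hne' 0) (hne' 2) (hlt 1) (hlt 3) (hbef 0 2 (by decide))
      (hbef 0 1 (by decide)) (hbef 1 2 (by decide)) (hbef 0 3 (by decide)) (hbef 2 3 (by decide))
      h02 (by rw [hlen, hlen, hlen, hlen]; exact hsum'), π, ?_, ?_, ?_, ?_, ?_, ?_, ?_, ?_, ?_, ?_⟩
    · exact (hLW (π 0) rep hrep).symm
    · exact (hLW (π 1) rep hrep).symm
    · exact (hLW (π 2) rep hrep).symm
    · exact (hLW (π 3) rep hrep).symm
    · intro v hv
      exact ZF_real (fun i j => by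
        rw [br_anti]
        exact (neg_neg_of_pos (hbef 0 2 (by decide) _ (ext_mem _ (hne' 0) i) _
          (ext_mem _ (hne' 2) j))).ne) hv
    · exact hlen 0
    · show n - ((L (π 2)).map rep).length = _
      rw [hlen]
    · rfl
    · show n - ((L (π 1)).map rep).length = _
      rw [hlen]
    · show n - ((L (π 3)).map rep).length = _
      rw [hlen]
  by_cases hle : finrank ℂ (W (π 0)) + finrank ℂ (W (π 2)) ≤ n
  · exact main rep π hrep hord hle
  · obtain ⟨rep', hrep', hord'⟩ := shift_order hdis hrep hord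
    refine main rep' ((Equiv.addRight (1 : Fin 4)).trans π) hrep' hord' ?_
    have hsum' : finrank ℂ (W (π 0)) + finrank ℂ (W (π 1)) + finrank ℂ (W (π 2)) +
        finrank ℂ (W (π 3)) = 2 * n := by
      rw [← hsum, ← Equiv.sum_comp π, Fin.sum_univ_four]
    have e0 : ((Equiv.addRight (1 : Fin 4)).trans π) 0 = π 1 := rfl
    have e2 : ((Equiv.addRight (1 : Fin 4)).trans π) 2 = π 3 := rfl
    rw [e0, e2]
    omega

theorem fin4_cases {P : Fin 4 → Prop} (π : Equiv.Perm (Fin 4)) (h0 : P (π 0)) (h1 : P (π 1))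
    (h2 : P (π 2)) (h3 : P (π 3)) (j : Fin 4) : P j := by
  rw [← π.apply_symm_apply j]
  generalize π.symm j = i
  fin_cases i
  · exact h0
  · exact h1
  · exact h2
  · exact h3

theorem isRealPoint_of_span {H : Submodule ℂ (Fin n → ℂ)} {s : Set (Fin n → ℂ)}
    (hs : ∀ v ∈ s, v ∈ H ∧ ∀ i, (v i).im = 0) (h : H ≤ Submodule.span ℂ s) : IsRealPoint H := by
  intro v hv
  have hv' := h hv
  induction hv' using Submodule.span_induction with
  | mem x hx =>
    obtain ⟨hxH, hxr⟩ := hs x hx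
    have : (fun i => (starRingEnd ℂ) (x i)) = x := by
      funext i
      exact Complex.conj_eq_iff_im.2 (hxr i)
    rw [this]; exact hxH
  | zero => simp only [Pi.zero_apply, map_zero]; exact H.zero_mem
  | add x y hx hy ihx ihy =>
    have hle : Submodule.span ℂ s ≤ H := Submodule.span_le.2 fun z hz => (hs z hz).1
    have := H.add_mem (ihx (hle hx)) (ihy (hle hy))
    have e : (fun i => (starRingEnd ℂ) ((x + y) i)) =
        (fun i => (starRingEnd ℂ) (x i)) + fun i => (starRingEnd ℂ) (y i) := by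
      funext i; simp
    rw [e]; exact this
  | smul c x hx ihx =>
    have hle : Submodule.span ℂ s ≤ H := Submodule.span_le.2 fun z hz => (hs z hz).1
    have := H.smul_mem ((starRingEnd ℂ) c) (ihx (hle hx))
    have e : (fun i => (starRingEnd ℂ) ((c • x) i)) =
        ((starRingEnd ℂ) c) • fun i => (starRingEnd ℂ) (x i) := by
      funext i; simp
    rw [e]; exact this

/-- Reality and transversality. -/
theorem main_aux {I : Fin 4 → Set (OnePoint ℝ)} (hpre : ∀ j, IsPreconnected (I j))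
    (hdis : ∀ i j, i ≠ j → Disjoint (I i) (I j)) {W : Fin 4 → Submodule ℂ (Fin n → ℂ)}
    (hu1 : ∀ j, 1 ≤ finrank ℂ (W j)) (hun : ∀ j, finrank ℂ (W j) < n)
    (hsum : ∑ j, finrank ℂ (W j) = 2 * n) (hW : ∀ j, IsGenSecant n (I j) (W j))
    {H : Submodule ℂ (Fin n → ℂ)} {r : ℕ} (hH : finrank ℂ H = 2 * r)
    (hk : ∀ j, r ≤ finrank ℂ ↥(H ⊓ W j)) :
    IsRealPoint H ∧ (∀ j, finrank ℂ ↥(H ⊓ W j) = r) ∧
      ∀ φ : H →ₗ[ℂ] ((Fin n → ℂ) ⧸ H),
        (∀ j, ∀ x : H, (x : Fin n → ℂ) ∈ W j → φ x ∈ (W j).map H.mkQ) → φ = 0 := by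
  obtain ⟨Q, π, e1, e2, e3, e4, hreal, -⟩ := exists_quad hpre hdis hu1 hun hsum hW
  obtain ⟨D⟩ := Q.sub_aux hH (by rw [e1]; exact hk _) (by rw [e2]; exact hk _)
    (by rw [e3]; exact hk _) (by rw [e4]; exact hk _)
  refine ⟨?_, ?_, ?_⟩
  · exact isRealPoint_of_span (fun v hv => ⟨hv.1, hreal v hv.2⟩) D.real_span
  · refine fin4_cases π ?_ ?_ ?_ ?_
    · rw [← e1]; exact D.d1
    · rw [← e2]; exact D.d2
    · rw [← e3]; exact D.d3
    · rw [← e4]; exact D.d4
  · intro φ hφ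
    refine D.transversal φ ?_ ?_ ?_ ?_
    · rw [e1]; exact hφ _
    · rw [e2]; exact hφ _
    · rw [e3]; exact hφ _
    · rw [e4]; exact hφ _

end Pool.Agent.Helper80.Sec
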