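import Pool.Agent.Helper80.Sec.Blocks
import Pool.Agent.Helper80.Sec.Main

/-!
Reality and transversality for subspaces of codimension `2r`.
-/

namespace Pool.Agent.Helper80.Sec

open Polynomial Module

variable {n : ℕ}

theorem isGenSecant_bot (I : Set (OnePoint ℝ)) :
    IsGenSecant n I (⊥ : Submodule ℂ (Fin n → ℂ)) :=
  ⟨∅, by simp, by simp⟩

theorem IsSecantFlag.gen {I : Set (OnePoint ℝ)} {F : ℕ → Submodule ℂ (Fin n → ℂ)}
    (hF : IsSecantFlag n I F) {i : ℕ} (hi : i < n) : IsGenSecant n I (F i) := by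
  rcases Nat.eq_zero_or_pos i with h | h
  · subst h
    have h0 : F 0 = ⊥ := by
      rw [← Submodule.finrank_eq_zero (R := ℂ)]
      exact hF.dim 0 (Nat.zero_le _)
    rw [h0]; exact isGenSecant_bot I
  · exact hF.sec i h hi

theorem DivSp_eq_bot {N : ℕ} {L : List (ℝ × ℝ)} (h : N ≤ L.length) : DivSp N L = ⊥ := by
  rw [eq_bot_iff]
  rintro f ⟨g, hg, e⟩
  rw [Submodule.mem_bot]
  apply Subtype.ext
  rw [e, eq_zero_of_degree_lt (by omega) hg, mul_zero]
  rfl

theorem toDual_conj {f : ℂ[X]} (hf : ∀ i, (f.coeff i).im = 0) (v : Fin n → ℂ) :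
    toDual n f (fun i => (starRingEnd ℂ) (v i)) = (starRingEnd ℂ) (toDual n f v) := by
  rw [toDual_apply, toDual_apply, map_sum]
  refine Finset.sum_congr rfl fun i _ => ?_
  rw [map_mul, Complex.conj_eq_iff_im.2 (hf i)]

/-- the data attached to the flags -/
theorem dual_aux {m r : ℕ} (hr : 1 ≤ r) (hn : 2 * r < n) {b c : Fin m → ℕ}
    {J : Finset (Fin m)} (hJ : J.card = 4) (hc : ∀ j, j ∉ J → c j = 0)
    (hbc : ∀ j, b j + c j ≤ n - 2 * r) (hsum : ∑ j, (2 * b j + c j) = 2 * (n - 2 * r))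
    {I : Fin m → Set (OnePoint ℝ)} (hpre : ∀ j, IsPreconnected (I j))
    (hdis : ∀ i j, i ≠ j → Disjoint (I i) (I j))
    {F : Fin m → ℕ → Submodule ℂ (Fin n → ℂ)} (hF : ∀ j, IsSecantFlag n (I j) (F j))
    {H : Submodule ℂ (Fin n → ℂ)} (hH : finrank ℂ H = n - 2 * r)
    (hb : ∀ j, F j (b j) ≤ H)
    (hu : ∀ j ∈ J, b j + c j ≤ finrank ℂ ↥(H ⊓ F j (r + b j + c j))) :
    IsRealPoint H ∧ (∀ j ∈ J, finrank ℂ ↥(H ⊓ F j (r + b j + c j)) = b j + c j) ∧
      ∀ φ : H →ₗ[ℂ] ((Fin n → ℂ) ⧸ H), (∀ j, ∀ x : H, (x : Fin n → ℂ) ∈ F j (b j) → φ x = 0) →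
        (∀ j ∈ J, ∀ x : H, (x : Fin n → ℂ) ∈ F j (r + b j + c j) →
          φ x ∈ (F j (r + b j + c j)).map H.mkQ) → φ = 0 := by
  classical
  have hlt : ∀ j, r + b j + c j < n := fun j => by have := hbc j; omega
  have hdimu : ∀ j, finrank ℂ (F j (r + b j + c j)) = r + b j + c j :=
    fun j => (hF j).dim _ (hlt j).le
  have hdimb : ∀ j, finrank ℂ (F j (b j)) = b j :=
    fun j => (hF j).dim _ (by have := hbc j; omega)
  have hnest := fun j => exists_nested (n := n) ((hF j).gen (i := b j) (by have := hbc j; omega))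
    ((hF j).gen (hlt j)) ((hF j).mono _ _ (by omega) (hlt j).le) (by rw [hdimu]; exact hlt j)
  choose B L hB hBL hBI hLI hrepW using hnest
  have hBlen : ∀ j, (B j).length = b j := fun j => by rw [hB, hdimb]
  have hLlen : ∀ j, (L j).length = r + c j := fun j => by
    have := hBL j
    rw [List.length_append, hBlen, hdimu] at this
    omega
  have hsb : ∑ j, (B j).length = ∑ j, b j := Finset.sum_congr rfl fun j _ => hBlen j
  have hsc : ∑ j, c j = ∑ j ∈ J, c j := by
    rw [← Finset.sum_subset (Finset.subset_univ J) (fun j _ hj => hc j hj)]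
  have hs2 : 2 * ∑ j, b j + ∑ j ∈ J, c j = 2 * (n - 2 * r) := by
    rw [← hsum, Finset.sum_add_distrib, ← Finset.mul_sum, hsc]
  have hBn : ∑ j, (B j).length ≤ n := by omega
  set N := n - ∑ j, (B j).length with hN
  have hNval : 2 * N = 4 * r + ∑ j ∈ J, c j := by omega
  -- the transfer for every choice of representatives
  have hrange : ∀ rep : OnePoint ℝ → ℝ × ℝ, (∀ t, IsRep t (rep t)) →
      H.dualAnnihilator ≤ LinearMap.range (thetaMap n N (∏ j, Dl rep (B j))) := by
    intro rep hrep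
    rw [hN, range_theta hdis hrep hBI hBn]
    refine le_iInf fun j => ?_
    rw [← (hrepW j rep hrep).1]
    exact Submodule.dualAnnihilator_anti (hb j)
  have hinj : ∀ rep : OnePoint ℝ → ℝ × ℝ, (∀ t, IsRep t (rep t)) →
      Function.Injective (thetaMap n N (∏ j, Dl rep (B j))) := by
    intro rep hrep
    apply thetaMap_injective
    · exact Finset.prod_ne_zero_iff.2 fun j _ => Dl_ne_zero hrep _
    · have := natDegree_prod_Dl_le (B := B) hrep Finset.univ
      omega
  have hcomap : ∀ rep : OnePoint ℝ → ℝ × ℝ, (∀ t, IsRep t (rep t)) → ∀ j,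
      (F j (r + b j + c j)).dualAnnihilator.comap (thetaMap n N (∏ j, Dl rep (B j))) =
        DivSp N ((L j).map rep) := by
    intro rep hrep j
    rw [(hrepW j rep hrep).2]
    exact comap_theta hdis hrep hBI hBn j (hLI j) (by rw [hBL, hdimu]; exact (hlt j).le)
  have hfr : ∀ rep : OnePoint ℝ → ℝ × ℝ, (∀ t, IsRep t (rep t)) → ∀ j,
      finrank ℂ ↥(H.dualAnnihilator.comap (thetaMap n N (∏ j, Dl rep (B j))) ⊓
        DivSp N ((L j).map rep)) = n - finrank ℂ ↥(H ⊔ F j (r + b j + c j)) := by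
    intro rep hrep j
    rw [← hcomap rep hrep j, finrank_orth_inf (hinj rep hrep) (hrange rep hrep), finrank_fin_fun]
  have hsupinf : ∀ j, finrank ℂ ↥(H ⊔ F j (r + b j + c j)) +
      finrank ℂ ↥(H ⊓ F j (r + b j + c j)) = n - 2 * r + (r + b j + c j) := fun j => by
    rw [Submodule.finrank_sup_add_finrank_inf_eq, hH, hdimu]
  have hge : ∀ rep : OnePoint ℝ → ℝ × ℝ, (∀ t, IsRep t (rep t)) → ∀ j ∈ J,
      r ≤ finrank ℂ ↥(H.dualAnnihilator.comap (thetaMap n N (∏ j, Dl rep (B j))) ⊓
        DivSp N ((L j).map rep)) := by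
    intro rep hrep j hj
    rw [hfr rep hrep j]
    have h1 := hsupinf j
    have h2 := hu j hj
    omega
  -- four indices
  let e : Fin 4 → Fin m := fun i => J.orderEmbOfFin hJ i
  have heinj : Function.Injective e := (J.orderEmbOfFin hJ).injective
  have heJ : ∀ i, e i ∈ J := fun i => J.orderEmbOfFin_mem hJ i
  have hesurj : ∀ j ∈ J, ∃ i, e i = j := by
    intro j hj
    have h1 := J.range_orderEmbOfFin hJ
    have h2 : j ∈ Set.range (J.orderEmbOfFin hJ) := by rw [h1]; exact hj
    exact h2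
  have hsume : ∑ i, (L (e i)).length = 2 * N := by
    have h1 : ∑ i, (L (e i)).length = ∑ j ∈ J, (L j).length := by
      have h2 : J = Finset.univ.map ⟨e, heinj⟩ := by
        ext j
        constructor
        · intro hj
          obtain ⟨i, hi⟩ := hesurj j hj
          exact Finset.mem_map.2 ⟨i, Finset.mem_univ _, hi⟩
        · intro hj
          obtain ⟨i, _, hi⟩ := Finset.mem_map.1 hj
          rw [← hi]; exact heJ i
      rw [h2, Finset.sum_map]
      rfl
    rw [h1, Finset.sum_congr rfl (fun j _ => hLlen j), Finset.sum_add_distrib, Finset.sum_const,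
      hJ, hNval, smul_eq_mul]
  set rep0 : OnePoint ℝ → ℝ × ℝ := fun t => t.elim (1, 0) (fun s => (s, 1)) with hrepdef
  have hrep0 : ∀ t, IsRep t (rep0 t) := by
    intro t
    induction t using OnePoint.rec with
    | infty => exact ⟨rfl, one_ne_zero⟩
    | coe t => exact ⟨one_ne_zero, by simp [hrepdef]⟩
  have hLN : ∀ i, (L (e i)).length ≤ N := by
    intro i
    by_contra hcon
    have h1 := hge rep0 hrep0 (e i) (heJ i)
    rw [DivSp_eq_bot (by rw [List.length_map]; omega), inf_bot_eq, finrank_bot] at h1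
    omega
  obtain ⟨rep, Q, π, hrep, e1, e2, e3, e4, hreal, -⟩ := exists_quadD (N := N)
    (I := fun i => I (e i)) (fun i => hpre _) (fun i j hij => hdis _ _ (fun h => hij (heinj h)))
    (T := fun i => L (e i)) (fun i => hLI _) (fun i h => by
      have := hLlen (e i)
      rw [h, List.length_nil] at this
      omega) hLN hsume
  set θ := thetaMap n N (∏ j, Dl rep (B j)) with hθ
  have hH2 : finrank ℂ ↥(H.dualAnnihilator.comap θ) = 2 * r := by
    rw [finrank_orth (hinj rep hrep) (hrange rep hrep), hH, finrank_fin_fun]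
    omega
  obtain ⟨D⟩ := Q.sub_aux hH2 (by rw [e1]; exact hge rep hrep _ (heJ _))
    (by rw [e2]; exact hge rep hrep _ (heJ _)) (by rw [e3]; exact hge rep hrep _ (heJ _))
    (by rw [e4]; exact hge rep hrep _ (heJ _))
  have hperm : ∀ {p : Fin 4 → Prop}, p (π 2) → p (π 3) → p (π 0) → p (π 1) → ∀ i, p i :=
    fun h2 h3 h0 h1 i => fin4_cases π h0 h1 h2 h3 i
  have hd : ∀ j ∈ J, finrank ℂ ↥(H ⊓ F j (r + b j + c j)) = b j + c j := by
    intro j hj
    obtain ⟨i, rfl⟩ := hesurj j hj
    have h1 : ∀ i, finrank ℂ ↥(H.dualAnnihilator.comap θ ⊓ DivSp N ((L (e i)).map rep)) = r := by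
      refine hperm ?_ ?_ ?_ ?_
      · rw [← e1]; exact D.d1
      · rw [← e2]; exact D.d2
      · rw [← e3]; exact D.d3
      · rw [← e4]; exact D.d4
    have h2 := h1 i
    rw [hfr rep hrep] at h2
    have h3 := hsupinf (e i)
    have h4 : finrank ℂ ↥(H ⊔ F (e i) (r + b (e i) + c (e i))) ≤ n := by
      have := Submodule.finrank_le (H ⊔ F (e i) (r + b (e i) + c (e i)))
      rwa [finrank_fin_fun] at this
    omega
  refine ⟨?_, hd, ?_⟩
  · intro v hv
    rw [← Subspace.dualAnnihilator_dualCoannihilator_eq (W := H), Submodule.mem_dualCoannihilator]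
    intro l hl
    obtain ⟨g, rfl⟩ := hrange rep hrep hl
    have hg : g ∈ H.dualAnnihilator.comap θ := hl
    let S : Submodule ℂ ↥(degreeLT ℂ N) :=
      LinearMap.ker ((LinearMap.applyₗ (fun i => (starRingEnd ℂ) (v i)) :
        Dual ℂ (Fin n → ℂ) →ₗ[ℂ] ℂ).comp θ)
    have hS : ∀ g, g ∈ S ↔ θ g (fun i => (starRingEnd ℂ) (v i)) = 0 := fun g => Iff.rfl
    have hle : H.dualAnnihilator.comap θ ≤ S := by
      refine D.real_span.trans (Submodule.span_le.2 ?_)
      rintro g ⟨hgH, hgr⟩
      have hgr' := hreal g hgr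
      show g ∈ S
      rw [hS, hθ, thetaMap_apply, toDual_conj, ← thetaMap_apply, ← hθ, ann_kills hgH hv, map_zero]
      intro i
      rw [coeff_mul, Complex.im_sum]
      apply Finset.sum_eq_zero
      intro x _
      have h1 : ((cx (∏ j, Dl rep (B j))).coeff x.1).im = 0 := by
        rw [cx, coeff_map]; simp
      rw [Complex.mul_im, h1, hgr' x.2]; simp
    exact (hS g).1 (hle hg)
  · intro φ hφb hφu
    refine transfer_tangent (θ := θ) (hinj rep hrep) (hrange rep hrep)
      (fun i : Fin 4 => F (e i) (r + b (e i) + c (e i))) φ ?_ (fun i x hx => hφu _ (heJ i) x hx) ?_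
    · intro x hx
      -- `x` belongs to the sum of the `F j (b j)`
      have h1 : (x : Fin n → ℂ) ∈ ⨆ j, F j (b j) := by
        rw [← Subspace.dualAnnihilator_dualCoannihilator_eq (W := ⨆ j, F j (b j)),
          Submodule.mem_dualCoannihilator]
        intro l hl
        rw [Submodule.dualAnnihilator_iSup_eq] at hl
        have h2 : l ∈ LinearMap.range θ := by
          rw [hθ, hN, range_theta hdis hrep hBI hBn]
          rw [Submodule.mem_iInf] at hl ⊢
          intro j
          rw [← (hrepW j rep hrep).1]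
          exact hl j
        obtain ⟨g, rfl⟩ := h2
        exact hx g
      have h2 : (⨆ j, F j (b j)) ≤ (LinearMap.ker φ).map H.subtype := by
        refine iSup_le fun j v hv => ?_
        refine Submodule.mem_map.2 ⟨⟨v, hb j hv⟩, ?_, rfl⟩
        rw [LinearMap.mem_ker]
        exact hφb j ⟨v, hb j hv⟩ hv
      obtain ⟨y, hy, hyx⟩ := Submodule.mem_map.1 (h2 h1)
      have : y = x := Subtype.ext hyx
      rw [← this]; exact hy
    · intro ψ hψ
      have hψ' : ∀ i : Fin 4, ∀ f : ↥(H.dualAnnihilator.comap θ),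
          (f : ↥(degreeLT ℂ N)) ∈ DivSp N ((L (e i)).map rep) →
          ψ f ∈ (DivSp N ((L (e i)).map rep)).map (H.dualAnnihilator.comap θ).mkQ := by
        intro i f hf
        have := hψ i f
        rw [hcomap rep hrep] at this
        exact this hf
      refine D.transversal ψ ?_ ?_ ?_ ?_
      · rw [e1]; exact hψ' _
      · rw [e2]; exact hψ' _
      · rw [e3]; exact hψ' _
      · rw [e4]; exact hψ' _

/-- the Schubert conditions of the partition `((2r)^b, r^c)` -/
theorem schubert_dual {r b c : ℕ} (hr : 1 ≤ r) (hn : 2 * r < n) (hbc : b + c ≤ n - 2 * r)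
    {I : Set (OnePoint ℝ)} {F : ℕ → Submodule ℂ (Fin n → ℂ)} (hF : IsSecantFlag n I F)
    {H : Submodule ℂ (Fin n → ℂ)}
    (hH : H ∈ Schubert n (n - 2 * r)
      (fun i => if (i : ℕ) < b then 2 * r else if (i : ℕ) < b + c then r else 0) F) :
    finrank ℂ H = n - 2 * r ∧ F b ≤ H ∧ b + c ≤ finrank ℂ ↥(H ⊓ F (r + b + c)) := by
  obtain ⟨h1, h2⟩ := hH
  have hb : F b ≤ H := by
    rcases Nat.eq_zero_or_pos b with h0 | h0
    · have h3 : F b = ⊥ := by
        rw [← Submodule.finrank_eq_zero (R := ℂ), hF.dim b (by omega), h0]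
      rw [h3]; exact bot_le
    · have h3 := h2 ⟨b - 1, by omega⟩
      beta_reduce at h3
      rw [if_pos (show b - 1 < b by omega)] at h3
      have h4 : n - (n - 2 * r) + (b - 1 + 1) - 2 * r = b := by omega
      rw [h4] at h3
      have h5 : b - 1 + 1 ≤ finrank ℂ ↥(H ⊓ F b) := h3
      have h6 : H ⊓ F b = F b := by
        apply Submodule.eq_of_le_of_finrank_le inf_le_right
        rw [hF.dim b (by omega)]
        omega
      exact inf_eq_right.1 h6
  refine ⟨h1, hb, ?_⟩
  rcases Nat.eq_zero_or_pos c with h0 | h0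
  · subst h0
    have h3 : F b ≤ H ⊓ F (r + b + 0) := le_inf hb (hF.mono _ _ (by omega) (by omega))
    have h4 := Submodule.finrank_mono h3
    rw [hF.dim b (by omega)] at h4
    exact h4
  · have h3 := h2 ⟨b + c - 1, by omega⟩
    beta_reduce at h3
    rw [if_neg (show ¬ b + c - 1 < b by omega), if_pos (show b + c - 1 < b + c by omega)] at h3
    have h4 : n - (n - 2 * r) + (b + c - 1 + 1) - r = r + b + c := by omega
    rw [h4] at h3
    have h5 : b + c - 1 + 1 ≤ finrank ℂ ↥(H ⊓ F (r + b + c)) := h3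
    omega

theorem corner_dual {k r b c : ℕ} (hr : 1 ≤ r) (hbc : b + c ≤ k) {i : Fin k}
    (hi : IsCorner (fun i : Fin k => if (i : ℕ) < b then 2 * r else
      if (i : ℕ) < b + c then r else 0) i) :
    ((i : ℕ) + 1 = b ∧ (if (i : ℕ) < b then 2 * r else
      if (i : ℕ) < b + c then r else 0) = 2 * r) ∨
    (0 < c ∧ (i : ℕ) + 1 = b + c ∧ (if (i : ℕ) < b then 2 * r else
      if (i : ℕ) < b + c then r else 0) = r) := by
  obtain ⟨h1, h2⟩ := hi
  beta_reduce at h1 h2
  by_cases hb : (i : ℕ) < b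
  · left
    rw [if_pos hb] at h2
    refine ⟨?_, if_pos hb⟩
    by_contra hne
    have h3 := h2 ⟨(i : ℕ) + 1, by omega⟩ (by rw [Fin.lt_def]; simp)
    simp only [show (i : ℕ) + 1 < b by omega, if_true, lt_irrefl] at h3
  · right
    rw [if_neg hb] at h1 h2
    by_cases hc : (i : ℕ) < b + c
    · rw [if_pos hc] at h2
      refine ⟨by omega, ?_, by rw [if_neg hb, if_pos hc]⟩
      by_contra hne
      have h3 := h2 ⟨(i : ℕ) + 1, by omega⟩ (by rw [Fin.lt_def]; simp)
      simp only [show ¬ (i : ℕ) + 1 < b by omega, show (i : ℕ) + 1 < b + c by omega, if_true,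
        if_false, lt_irrefl] at h3
    · rw [if_neg hc] at h1
      omega

theorem corner_dual_b {k r b c : ℕ} (hr : 1 ≤ r) (hbk : b ≤ k) (hb : 1 ≤ b) :
    IsCorner (fun i : Fin k => if (i : ℕ) < b then 2 * r else
      if (i : ℕ) < b + c then r else 0) ⟨b - 1, by omega⟩ := by
  constructor
  · beta_reduce
    rw [if_pos (show b - 1 < b by omega)]
    omega
  · intro j hj
    rw [Fin.lt_def] at hj
    beta_reduce
    have hj' : b - 1 < (j : ℕ) := hj
    rw [if_pos (show b - 1 < b by omega), if_neg (show ¬ (j : ℕ) < b by omega)]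
    split_ifs <;> omega

theorem corner_dual_c {k r b c : ℕ} (hr : 1 ≤ r) (hbk : b + c ≤ k) (hc : 1 ≤ c) :
    IsCorner (fun i : Fin k => if (i : ℕ) < b then 2 * r else
      if (i : ℕ) < b + c then r else 0) ⟨b + c - 1, by omega⟩ := by
  constructor
  · beta_reduce
    rw [if_neg (show ¬ b + c - 1 < b by omega), if_pos (show b + c - 1 < b + c by omega)]
    omega
  · intro j hj
    rw [Fin.lt_def] at hj
    beta_reduce
    have hj' : b + c - 1 < (j : ℕ) := hj
    rw [if_neg (show ¬ b + c - 1 < b by omega), if_pos (show b + c - 1 < b + c by omega),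
      if_neg (show ¬ (j : ℕ) < b by omega), if_neg (show ¬ (j : ℕ) < b + c by omega)]
    omega

theorem dual_real_transverse {m r : ℕ} (hr : 1 ≤ r) (hn : 2 * r < n) {b c : Fin m → ℕ}
    {J : Finset (Fin m)} (hJ : J.card = 4) (hc : ∀ j, j ∉ J → c j = 0)
    (hbc : ∀ j, b j + c j ≤ n - 2 * r) (hsum : ∑ j, (2 * b j + c j) = 2 * (n - 2 * r))
    {I : Fin m → Set (OnePoint ℝ)} (hpre : ∀ j, IsPreconnected (I j))
    (hdis : ∀ i j, i ≠ j → Disjoint (I i) (I j))
    {F : Fin m → ℕ → Submodule ℂ (Fin n → ℂ)} (hF : ∀ j, IsSecantFlag n (I j) (F j))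
    {H : Submodule ℂ (Fin n → ℂ)}
    (hH : ∀ j, H ∈ Schubert n (n - 2 * r)
      (fun i => if (i : ℕ) < b j then 2 * r else if (i : ℕ) < b j + c j then r else 0) (F j)) :
    IsRealPoint H ∧ TransverseAt n (n - 2 * r)
      (fun j i => if (i : ℕ) < b j then 2 * r else if (i : ℕ) < b j + c j then r else 0) F H := by
  have hS := fun j => schubert_dual hr hn (hbc j) (hF j) (hH j)
  have hJne : J.Nonempty := by rw [← Finset.card_pos]; omega
  obtain ⟨j0, _⟩ := hJne
  obtain ⟨hreal, hd, htr⟩ := dual_aux hr hn hJ hc hbc hsum hpre hdis hF (hS j0).1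
    (fun j => (hS j).2.1) (fun j _ => (hS j).2.2)
  have hdimb : ∀ j, finrank ℂ (F j (b j)) = b j :=
    fun j => (hF j).dim _ (by have := hbc j; omega)
  refine ⟨hreal, ?_, ?_⟩
  · intro j i hi
    beta_reduce
    rcases corner_dual hr (hbc j) hi with ⟨h1, h2⟩ | ⟨h0, h1, h2⟩
    · rw [h2, h1]
      have h3 : n - (n - 2 * r) + b j - 2 * r = b j := by omega
      rw [h3, inf_eq_right.2 (hS j).2.1, hdimb]
    · rw [h2, h1]
      have h3 : n - (n - 2 * r) + (b j + c j) - r = r + b j + c j := by omega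
      have hjJ : j ∈ J := by
        by_contra hcon
        rw [hc j hcon] at h0
        omega
      rw [h3, hd j hjJ]
  · intro φ hφ
    have hφb : ∀ j, ∀ x : H, (x : Fin n → ℂ) ∈ F j (b j) → φ x = 0 := by
      intro j x hx
      rcases Nat.eq_zero_or_pos (b j) with h0 | h0
      · have h3 : F j (b j) = ⊥ := by
          rw [← Submodule.finrank_eq_zero (R := ℂ), hdimb, h0]
        rw [h3, Submodule.mem_bot] at hx
        have : x = 0 := Subtype.ext hx
        rw [this, map_zero]
      · have hcor := corner_dual_b (k := n - 2 * r) (c := c j) hr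
          (by have := hbc j; omega) h0
        have h1 := hφ j _ hcor x
        beta_reduce at h1
        rw [if_pos (show b j - 1 < b j by omega)] at h1
        have h4 : n - (n - 2 * r) + (b j - 1 + 1) - 2 * r = b j := by omega
        rw [h4] at h1
        have h5 := h1 hx
        have h6 : (F j (b j)).map H.mkQ = ⊥ := by
          rw [eq_bot_iff, ← Submodule.mkQ_map_self H]
          exact Submodule.map_mono (hS j).2.1
        rw [h6, Submodule.mem_bot] at h5
        exact h5
    refine htr φ hφb (fun j hj x hx => ?_)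
    rcases Nat.eq_zero_or_pos (c j) with h0 | h0
    · -- `H ∩ F_u = F_b`
      have h1 : F j (b j) = H ⊓ F j (r + b j + c j) := by
        apply Submodule.eq_of_le_of_finrank_eq
        · exact le_inf (hS j).2.1 ((hF j).mono _ _ (by omega) (by have := hbc j; omega))
        · rw [hd j hj, hdimb, h0, Nat.add_zero]
      have h2 : (x : Fin n → ℂ) ∈ F j (b j) := by
        rw [h1]; exact ⟨x.2, hx⟩
      rw [hφb j x h2]
      exact Submodule.zero_mem _
    · have hcor := corner_dual_c (k := n - 2 * r) (b := b j) hr (hbc j) h0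
      have h1 := hφ j _ hcor x
      beta_reduce at h1
      rw [if_neg (show ¬ b j + c j - 1 < b j by omega),
        if_pos (show b j + c j - 1 < b j + c j by omega)] at h1
      have h4 : n - (n - 2 * r) + (b j + c j - 1 + 1) - r = r + b j + c j := by omega
      rw [h4] at h1
      exact h1 hx

end Pool.Agent.Helper80.Sec
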