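import Mathlib

/-!
Sums of dimensions of eigenspaces.
-/

namespace Pool.Agent.Helper80.Sec

open Module

section

variable {K W : Type*} [Field K] [AddCommGroup W] [Module K W] [FiniteDimensional K W]

theorem iSup_eigenspace_eq_top [IsAlgClosed K] {f : Module.End K W}
    (h : ∀ (μ : K) (v : W), f (f v - μ • v) = μ • (f v - μ • v) → f v - μ • v = 0) :
    ⨆ μ : K, f.eigenspace μ = ⊤ := by
  rw [← Module.End.iSup_maxGenEigenspace_eq_top f]
  apply le_antisymm
  · exact iSup_mono fun μ => Module.End.eigenspace_le_maxGenEigenspace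
  · refine iSup_mono fun μ => ?_
    intro v hv
    rw [Module.End.mem_maxGenEigenspace] at hv
    obtain ⟨k, hk⟩ := hv
    have e : ∀ u, (f - algebraMap K _ μ) u = f u - μ • u := by
      intro u
      simp [Module.algebraMap_end_apply]
    have key : ∀ k : ℕ, ∀ w, ((f - algebraMap K _ μ) ^ (k + 1)) w = 0 →
        (f - algebraMap K _ μ) w = 0 := by
      intro k
      induction k with
      | zero => intro w hw; simpa using hw
      | succ k ih =>
        intro w hw
        have h1 : ((f - algebraMap K _ μ) ^ (k + 1)) ((f - algebraMap K _ μ) w) = 0 := by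
          rw [← hw, pow_succ (f - algebraMap K _ μ) (k + 1)]
          rfl
        have h2 := ih _ h1
        rw [e, e] at h2
        rw [e]
        exact h μ w (sub_eq_zero.1 h2)
    rw [Module.End.mem_eigenspace_iff]
    rcases Nat.eq_zero_or_pos k with h0 | h0
    · subst h0
      have : v = 0 := by simpa using hk
      rw [this]; simp
    · obtain ⟨k', rfl⟩ : ∃ k', k = k' + 1 := ⟨k - 1, by omega⟩
      have hk' : ((f - algebraMap K _ μ) ^ (k' + 1)) v = 0 := by
        have h9 : (algebraMap K (Module.End K W) μ) = μ • 1 := Algebra.algebraMap_eq_smul_one μ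
        rw [h9]
        exact hk
      have := key k' v hk'
      rw [e] at this
      exact sub_eq_zero.1 this

theorem finrank_eq_sum_eigenspace {f : Module.End K W} (h : ⨆ μ : K, f.eigenspace μ = ⊤) :
    finrank K W = ∑ μ ∈ f.finite_hasEigenvalue.toFinset, finrank K ↥(f.eigenspace μ) := by
  classical
  let ι := {μ : K // f.HasEigenvalue μ}
  haveI : Fintype ι := f.finite_hasEigenvalue.fintype
  let A : ι → Submodule K W := fun μ => f.eigenspace μ
  have hind : iSupIndep A := f.eigenspaces_iSupIndep.comp Subtype.val_injective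
  have htop : ⨆ μ, A μ = ⊤ := by
    rw [eq_top_iff, ← h]
    refine iSup_le fun μ => ?_
    by_cases hμ : f.HasEigenvalue μ
    · exact le_iSup A ⟨μ, hμ⟩
    · have : f.eigenspace μ = ⊥ := by
        by_contra hne
        exact hμ hne
      rw [this]; exact bot_le
  have hint := DirectSum.isInternal_submodule_of_iSupIndep_of_iSup_eq_top hind htop
  let e := LinearEquiv.ofBijective (DirectSum.coeLinearMap A) hint
  rw [← e.finrank_eq, Module.finrank_directSum]
  rw [← Finset.sum_subtype f.finite_hasEigenvalue.toFinset (p := fun μ => f.HasEigenvalue μ)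
    (fun μ => by simp) (fun μ => finrank K ↥(f.eigenspace μ))]

/-- number of the simple eigenvalues -/
theorem card_simple_eigenvalues {f : Module.End K W} (h : ⨆ μ : K, f.eigenspace μ = ⊤)
    {a b : K} (hab : a ≠ b)
    (hs : ∀ μ, μ ≠ a → μ ≠ b → f.HasEigenvalue μ → finrank K ↥(f.eigenspace μ) = 1) :
    {μ | f.HasEigenvalue μ ∧ μ ≠ a ∧ μ ≠ b}.ncard + finrank K ↥(f.eigenspace a) +
      finrank K ↥(f.eigenspace b) = finrank K W := by
  classical
  set S := f.finite_hasEigenvalue.toFinset with hS
  have hmem : ∀ μ, μ ∈ S ↔ f.HasEigenvalue μ := fun μ => by simp [hS]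
  have h1 := finrank_eq_sum_eigenspace h
  have hz : ∀ μ, μ ∉ S → finrank K ↥(f.eigenspace μ) = 0 := by
    intro μ hμ
    have : f.eigenspace μ = ⊥ := by
      by_contra hne
      exact hμ ((hmem μ).2 hne)
    rw [this, finrank_bot]
  have h2 : ∑ μ ∈ S, finrank K ↥(f.eigenspace μ) =
      ∑ μ ∈ S ∪ {a, b}, finrank K ↥(f.eigenspace μ) := by
    apply Finset.sum_subset Finset.subset_union_left
    intro μ _ hμ
    exact hz μ hμ
  have h3 : S ∪ {a, b} = (S \ {a, b}) ∪ {a, b} := by
    ext x; simp; tauto
  have h4 : Disjoint (S \ {a, b}) {a, b} := Finset.sdiff_disjoint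
  rw [h1, ← hS, h2, h3, Finset.sum_union h4, Finset.sum_pair hab]
  have h5 : ∑ μ ∈ S \ {a, b}, finrank K ↥(f.eigenspace μ) = (S \ {a, b}).card := by
    rw [Finset.card_eq_sum_ones]
    refine Finset.sum_congr rfl fun μ hμ => ?_
    rw [Finset.mem_sdiff, Finset.mem_insert, Finset.mem_singleton, not_or] at hμ
    exact hs μ hμ.2.1 hμ.2.2 ((hmem μ).1 hμ.1)
  have h6 : {μ | f.HasEigenvalue μ ∧ μ ≠ a ∧ μ ≠ b} = ((S \ {a, b} : Finset K) : Set K) := by
    ext μ
    simp [hmem]
  rw [h5, h6, Set.ncard_coe_finset]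
  ring

end

end Pool.Agent.Helper80.Sec
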