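import Pool.Agent.Helper80.Sec.SubA
import Pool.Agent.Helper80.Sec.RectCount

/-!
The generalized secant conjecture for four rectangles with full columns.
-/

namespace Pool.Agent.Helper80.Sec

open Polynomial Module

section one

variable {n k l c r s : ℕ} (hn : k + l = n) (hk : 1 ≤ k) (hr : r ≤ k) (hcs : c + s ≤ l)
variable {F : ℕ → Submodule ℂ (Fin n → ℂ)}
variable (hdim : ∀ i, i ≤ n → finrank ℂ (F i) = i) (hmono : ∀ i j, i ≤ j → j ≤ n → F i ≤ F j)
variable {H : Submodule ℂ (Fin n → ℂ)}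

include hn hk hr hcs hmono

/-- the Schubert conditions of the partition `((c + s)^r, c^(k - r))` -/
theorem fat_of_schubert (hH : H ∈ Schubert n k
      (fun i => if (i : ℕ) < r then c + s else c) F) :
    finrank ℂ H = k ∧ H ≤ F (n - c) ∧ r ≤ finrank ℂ ↥(H ⊓ F (l + r - (c + s))) := by
  obtain ⟨h1, h2⟩ := hH
  refine ⟨h1, ?_, ?_⟩
  · have h3 := h2 ⟨k - 1, by omega⟩
    beta_reduce at h3
    by_cases hrk : k - 1 < r
    · rw [if_pos hrk] at h3
      have h4 : n - k + (k - 1 + 1) - (c + s) = n - (c + s) := by omega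
      rw [h4] at h3
      have h5 : k - 1 + 1 ≤ finrank ℂ ↥(H ⊓ F (n - (c + s))) := h3
      have h6 : H ⊓ F (n - (c + s)) = H := by
        apply Submodule.eq_of_le_of_finrank_le inf_le_left
        omega
      exact (inf_eq_left.1 h6).trans (hmono _ _ (by omega) (by omega))
    · rw [if_neg hrk] at h3
      have h4 : n - k + (k - 1 + 1) - c = n - c := by omega
      rw [h4] at h3
      have h5 : k - 1 + 1 ≤ finrank ℂ ↥(H ⊓ F (n - c)) := h3
      have h6 : H ⊓ F (n - c) = H := by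
        apply Submodule.eq_of_le_of_finrank_le inf_le_left
        omega
      exact inf_eq_left.1 h6
  · rcases Nat.eq_zero_or_pos r with h0 | h0
    · rw [h0]; exact Nat.zero_le _
    · have h3 := h2 ⟨r - 1, by omega⟩
      beta_reduce at h3
      rw [if_pos (show r - 1 < r by omega)] at h3
      have h4 : n - k + (r - 1 + 1) - (c + s) = l + r - (c + s) := by omega
      rw [h4] at h3
      have h5 : r - 1 + 1 ≤ finrank ℂ ↥(H ⊓ F (l + r - (c + s))) := h3
      omega

include hdim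

omit hk in
theorem schubert_of_fat (h1 : finrank ℂ H = k) (h2 : H ≤ F (n - c))
    (h3 : r ≤ finrank ℂ ↥(H ⊓ F (l + r - (c + s)))) :
    H ∈ Schubert n k (fun i => if (i : ℕ) < r then c + s else c) F := by
  refine ⟨h1, fun i => ?_⟩
  have hi := i.2
  beta_reduce
  by_cases hib : (i : ℕ) < r
  · rw [if_pos hib]
    have e : n - k + ((i : ℕ) + 1) - (c + s) = l + ((i : ℕ) + 1) - (c + s) := by omega
    rw [e]
    have k1 := finrank_inf_le_of_le H (hmono (l + ((i : ℕ) + 1) - (c + s)) (l + r - (c + s))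
      (by omega) (by omega))
    rw [hdim _ (by omega), hdim _ (by omega)] at k1
    omega
  · rw [if_neg hib]
    have e : n - k + ((i : ℕ) + 1) - c = l + ((i : ℕ) + 1) - c := by omega
    rw [e]
    have k1 := finrank_inf_le_of_le H (hmono (l + ((i : ℕ) + 1) - c) (n - c)
      (by omega) (by omega))
    rw [hdim _ (by omega), hdim _ (by omega), inf_eq_left.2 h2, h1] at k1
    omega

end one

section corner

variable {k c r s : ℕ}

theorem corner_fat {i : Fin k} (hr : r ≤ k)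
    (hi : IsCorner (fun i : Fin k => if (i : ℕ) < r then c + s else c) i) :
    ((i : ℕ) + 1 = r ∧ (if (i : ℕ) < r then c + s else c) = c + s) ∨
    ((i : ℕ) + 1 = k ∧ (if (i : ℕ) < r then c + s else c) = c) := by
  obtain ⟨h1, h2⟩ := hi
  beta_reduce at h1 h2
  by_cases hb : (i : ℕ) < r
  · left
    rw [if_pos hb] at h2
    refine ⟨?_, if_pos hb⟩
    by_contra hne
    have h3 := h2 ⟨(i : ℕ) + 1, by omega⟩ (by rw [Fin.lt_def]; simp)
    simp only [show (i : ℕ) + 1 < r by omega, if_true, lt_irrefl] at h3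
  · right
    rw [if_neg hb] at h2 ⊢
    refine ⟨?_, rfl⟩
    by_contra hne
    have hi := i.2
    have h3 := h2 ⟨(i : ℕ) + 1, by omega⟩ (by rw [Fin.lt_def]; simp)
    beta_reduce at h3
    rw [if_neg (show ¬ (i : ℕ) + 1 < r by omega)] at h3
    exact lt_irrefl _ h3

theorem corner_fat_r (hrk : r ≤ k) (hr : 1 ≤ r) (hs : 1 ≤ s) :
    IsCorner (fun i : Fin k => if (i : ℕ) < r then c + s else c) ⟨r - 1, by omega⟩ := by
  constructor
  · beta_reduce
    rw [if_pos (show r - 1 < r by omega)]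
    omega
  · intro j hj
    rw [Fin.lt_def] at hj
    beta_reduce
    have hj' : r - 1 < (j : ℕ) := hj
    rw [if_pos (show r - 1 < r by omega), if_neg (show ¬ (j : ℕ) < r by omega)]
    omega

theorem corner_fat_k (hk : 1 ≤ k) (hc : 1 ≤ c) :
    IsCorner (fun i : Fin k => if (i : ℕ) < r then c + s else c) ⟨k - 1, by omega⟩ := by
  constructor
  · beta_reduce
    split_ifs
    · omega
    · omega
  · intro j hj
    rw [Fin.lt_def] at hj
    have hj' : k - 1 < (j : ℕ) := hj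
    have := j.2
    omega

end corner

section main

variable {n k l l' : ℕ} {c r s : Fin 4 → ℕ}
variable {I : Fin 4 → Set (OnePoint ℝ)} {F : Fin 4 → ℕ → Submodule ℂ (Fin n → ℂ)}

/-- positive coordinates in both cyclic orders -/
theorem both_frames {N : ℕ} (hn : n = N + ∑ j, c j) (h2 : 2 ≤ n)
    (hpre : ∀ j, IsPreconnected (I j)) (hdis : ∀ i j, i ≠ j → Disjoint (I i) (I j))
    (hF : ∀ j, IsSecantFlag n (I j) (F j))
    (hA : ∀ v ∈ ⨅ j, F j (n - c j), cjF n v ∈ ⨅ j, F j (n - c j)) :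
    ∃ π π' : Equiv.Perm (Fin 4), (∀ i, π' i = π (i + 1)) ∧ ∀ w : Fin 4 → ℕ, (∀ j, w j ≤ N) →
      Frame4 (cjA (⨅ j, F j (n - c j)) hA) N w
        (fun j => (F j (w j + (∑ i, c i - c j))).comap (⨅ j, F j (n - c j)).subtype) π ∧
      Frame4 (cjA (⨅ j, F j (n - c j)) hA) N w
        (fun j => (F j (w j + (∑ i, c i - c j))).comap (⨅ j, F j (n - c j)).subtype) π' := by
  have hne : ∀ j, (I j).Nonempty := fun j => (hF j).nonempty h2
  obtain ⟨rep, π, hrep, hord⟩ := exists_order hpre hdis hne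
  obtain ⟨rep', hrep', hord'⟩ := shift_order hdis hrep hord
  obtain ⟨π', hπ'⟩ : ∃ π' : Equiv.Perm (Fin 4), ∀ i, π' i = π (i + 1) :=
    ⟨(Equiv.addRight (1 : Fin 4)).trans π, fun _ => rfl⟩
  have hord'' : ∀ i j, i < j → ∀ a ∈ I (π' i), ∀ b ∈ I (π' j), 0 < br (rep' b) (rep' a) := by
    intro i j hij
    rw [hπ', hπ']
    exact hord' i j hij
  exact ⟨π, π', hπ', fun w hw => ⟨frame_of_flags hn hw hne hF hrep hord hA,
    frame_of_flags hn hw hne hF hrep' hord'' hA⟩⟩

theorem A_stable (hF : ∀ j, IsSecantFlag n (I j) (F j)) :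
    ∀ v ∈ ⨅ j, F j (n - c j), cjF n v ∈ ⨅ j, F j (n - c j) := by
  intro v hv
  rw [Submodule.mem_iInf] at hv ⊢
  exact fun j => (hF j).stable _ (Nat.sub_le _ _) v (hv j)

variable (hn : k + l = n) (hk : 1 ≤ k) (hl : 1 ≤ l) (hl' : l' + ∑ j, c j = l)
variable (hrk : ∀ j, r j ≤ k)
variable (hpre : ∀ j, IsPreconnected (I j)) (hdis : ∀ i j, i ≠ j → Disjoint (I i) (I j))
variable (hF : ∀ j, IsSecantFlag n (I j) (F j))

include hn hk hl hl' hpre hdis hF

/-- the dimension of the intersection of a member of a flag with `A` -/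
theorem finrank_inf_A (j : Fin 4) {w : ℕ} (hw : w ≤ k + l') :
    finrank ℂ ↥((⨅ j, F j (n - c j)) ⊓ F j (w + (∑ i, c i - c j))) = w := by
  have hA := A_stable (c := c) hF
  obtain ⟨π, π', hπ', hfr⟩ := both_frames (N := k + l') (c := c) (by omega) (by omega) hpre hdis
    hF hA
  obtain ⟨f, f'⟩ := hfr (fun _ => w) (fun _ => hw)
  have h1 := frame_dim hπ' (fun _ => hw) f f' j
  have h2 := finrank_comap_sub (A := ⨅ j, F j (n - c j))
    (U := (⨅ j, F j (n - c j)) ⊓ F j (w + (∑ i, c i - c j))) inf_le_left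
  rw [Submodule.comap_inf, Submodule.comap_subtype_self, top_inf_eq] at h2
  rw [← h2]
  exact h1

theorem finrank_A : finrank ℂ ↥(⨅ j, F j (n - c j)) = k + l' := by
  have h1 := finrank_inf_A hn hk hl hl' hpre hdis hF 0 (w := k + l') le_rfl
  have h2 : c 0 ≤ ∑ i, c i :=
    Finset.single_le_sum (f := c) (fun _ _ => Nat.zero_le _) (Finset.mem_univ 0)
  have h3 : k + l' + (∑ i, c i - c 0) = n - c 0 := by omega
  rw [h3, inf_eq_left.2 (iInf_le _ _)] at h1
  exact h1

/-- if `s_j > l'` for some `j` with `r_j > 0` then the intersection is empty -/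
theorem fat_le (hr1 : ∀ j, s j ≤ l' ∨ 1 ≤ r j) (hcs : ∀ j, c j + s j ≤ l) (hrk : ∀ j, r j ≤ k)
    {H : Submodule ℂ (Fin n → ℂ)} (hHA : H ≤ ⨅ j, F j (n - c j))
    (hHr : ∀ j, r j ≤ finrank ℂ ↥(H ⊓ F j (l + r j - (c j + s j)))) :
    ∀ j, s j ≤ l' := by
  intro j
  by_contra hcon
  have h1 := (hr1 j).resolve_left hcon
  have hrj := hrk j
  have hcj := hcs j
  have h2 : c j ≤ ∑ i, c i :=
    Finset.single_le_sum (f := c) (fun _ _ => Nat.zero_le _) (Finset.mem_univ j)
  obtain ⟨w, hw⟩ : ∃ w, w = l' + r j - s j := ⟨_, rfl⟩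
  have h3 := finrank_inf_A hn hk hl hl' hpre hdis hF j (w := w) (by omega)
  have h4 : F j (l + r j - (c j + s j)) ≤ F j (w + (∑ i, c i - c j)) :=
    (hF j).mono _ _ (by omega) (by omega)
  have h5 : finrank ℂ ↥(H ⊓ F j (l + r j - (c j + s j))) ≤
      finrank ℂ ↥((⨅ j, F j (n - c j)) ⊓ F j (w + (∑ i, c i - c j))) :=
    Submodule.finrank_mono (inf_le_inf hHA h4)
  have h6 := hHr j
  omega

section

variable (hsl : ∀ j, s j ≤ l') (hr : ∑ j, r j = 2 * k) (hs : ∑ j, s j = 2 * l')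

include hrk hsl hr hs

theorem fat_pairs (hrs : ∑ j, r j * s j = k * l')
    {H : Submodule ℂ (Fin n → ℂ)} (hH : finrank ℂ H = k) (hHA : H ≤ ⨅ j, F j (n - c j))
    (hHr : ∀ j, r j ≤ finrank ℂ ↥(H ⊓ F j (l + r j - (c j + s j)))) :
    ∀ a b, a ≠ b → r a + r b = k ∨ s a + s b = l' := by
  have hA := A_stable (c := c) hF
  obtain ⟨π, π', hπ', hfr⟩ := both_frames (N := k + l') (c := c) (by omega) (by omega) hpre hdis
    hF hA
  have hwN : ∀ j, l' + r j - s j ≤ k + l' := fun j => by have := hrk j; omega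
  obtain ⟨f, f'⟩ := hfr (fun j => l' + r j - s j) hwN
  have hc : ∀ j, c j ≤ ∑ i, c i := fun j =>
    Finset.single_le_sum (f := c) (fun _ _ => Nat.zero_le _) (Finset.mem_univ j)
  refine coreV_pairs hπ' hwN f f' rfl hsl (fun j => rfl) hr hs hrs
    (H := H.comap (⨅ j, F j (n - c j)).subtype) ?_ ?_
  · rw [finrank_comap_sub hHA]; exact hH
  · intro j
    have h1 := hsl j
    have h2 := hc j
    have h3 : l' + r j - s j + (∑ i, c i - c j) = l + r j - (c j + s j) := by omega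
    rw [h3, ← Submodule.comap_inf, finrank_comap_sub (inf_le_left.trans hHA)]
    exact hHr j

theorem fat_good (hp : ∀ a b, a ≠ b → r a + r b = k ∨ s a + s b = l') :
    (∀ H : Submodule ℂ (Fin n → ℂ), finrank ℂ H = k → H ≤ (⨅ j, F j (n - c j)) →
      (∀ j, r j ≤ finrank ℂ ↥(H ⊓ F j (l + r j - (c j + s j)))) →
      IsRealPoint H ∧
      (∀ j, finrank ℂ ↥(H ⊓ F j (l + r j - (c j + s j))) = r j) ∧
      ∀ φ : H →ₗ[ℂ] ((Fin n → ℂ) ⧸ H), (∀ x, φ x ∈ (⨅ j, F j (n - c j)).map H.mkQ) →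
        (∀ j, ∀ x : H, (x : Fin n → ℂ) ∈ F j (l + r j - (c j + s j)) →
          φ x ∈ (F j (l + r j - (c j + s j))).map H.mkQ) → φ = 0) ∧
    {H : Submodule ℂ (Fin n → ℂ) | finrank ℂ H = k ∧ H ≤ (⨅ j, F j (n - c j)) ∧
      ∀ j, r j ≤ finrank ℂ ↥(H ⊓ F j (l + r j - (c j + s j)))}.encard =
      ((⨅ j, min (l' + r j - s j) (k + s j - r j)).choose (⨅ j, min (r j) (k - r j)) : ℕ) := by
  have hA := A_stable (c := c) hF
  obtain ⟨π, π', hπ', hfr⟩ := both_frames (N := k + l') (c := c) (by omega) (by omega) hpre hdis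
    hF hA
  have hwN : ∀ j, l' + r j - s j ≤ k + l' := fun j => by have := hrk j; omega
  obtain ⟨f, f'⟩ := hfr (fun j => l' + r j - s j) hwN
  have hc : ∀ j, c j ≤ ∑ i, c i := fun j =>
    Finset.single_le_sum (f := c) (fun _ _ => Nat.zero_le _) (Finset.mem_univ j)
  have h3 : ∀ j, l' + r j - s j + (∑ i, c i - c j) = l + r j - (c j + s j) := fun j => by
    have h1 := hsl j
    have h2 := hc j
    omega
  have hWd := frame_dim hπ' hwN f f'
  have hgood := coreV (σ := cjA (⨅ j, F j (n - c j)) hA) hπ' rfl hrk hsl (fun j => rfl) hwN hr hs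
    (finrank_A hn hk hl hl' hpre hdis hF) hWd (fun j v hv => (hF j).stable _ (by
      have h1 := h3 j
      have h2 := hrk j
      have h4 := hc j
      omega) v hv) f f' hp
  have e1 : (fun j => (F j (l' + r j - s j + (∑ i, c i - c j))).comap
      (⨅ j, F j (n - c j)).subtype) = fun j => (F j (l + r j - (c j + s j))).comap
      (⨅ j, F j (n - c j)).subtype := by
    funext j
    rw [h3]
  have e2 : (⨅ j, min (l' + r j - s j) (k + l' - (l' + r j - s j))) =
      ⨅ j, min (l' + r j - s j) (k + s j - r j) := by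
    refine iInf_congr fun j => ?_
    have h1 := hsl j
    have h2 := hrk j
    have h4 : k + l' - (l' + r j - s j) = k + s j - r j := by omega
    rw [h4]
  rw [e1, e2] at hgood
  obtain ⟨g1, g2⟩ := good_sub hgood
  refine ⟨fun H hH hHA hHr => ?_, g2⟩
  obtain ⟨q1, q2, q3⟩ := g1 H hH hHA hHr
  exact ⟨fun v hv => q1 ⟨v, hHA hv⟩ hv, q2, q3⟩

end

end main

end Pool.Agent.Helper80.Sec
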