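import Pool.Agent.Helper80.Sec.Fat

/-!
The generalized secant conjecture for four rectangles with full columns: main theorems.
-/

namespace Pool.Agent.Helper80.Sec

open Polynomial Module

variable {n k l l' : ℕ} {c r s : Fin 4 → ℕ}
variable {I : Fin 4 → Set (OnePoint ℝ)} {F : Fin 4 → ℕ → Submodule ℂ (Fin n → ℂ)}
variable (hn : k + l = n) (hk : 1 ≤ k) (hl : 1 ≤ l) (hl' : l' + ∑ j, c j = l)
variable (hrk : ∀ j, r j ≤ k) (hcs : ∀ j, c j + s j ≤ l) (hr1 : ∀ j, s j ≤ l' ∨ 1 ≤ r j)
variable (hr : ∑ j, r j = 2 * k) (hs : ∑ j, s j = 2 * l')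
variable (hcod : ∑ j, (k * c j + r j * s j) = k * l)
variable (hpre : ∀ j, IsPreconnected (I j)) (hdis : ∀ i j, i ≠ j → Disjoint (I i) (I j))
variable (hF : ∀ j, IsSecantFlag n (I j) (F j))

theorem fat_cod (hl' : l' + ∑ j, c j = l) (hcod : ∑ j, (k * c j + r j * s j) = k * l) :
    ∑ j, r j * s j = k * l' := by
  rw [Finset.sum_add_distrib, ← Finset.mul_sum, ← hl', mul_add] at hcod
  omega

include hn hk hl hl' hrk hcs hr1 hr hs hcod hpre hdis hF

theorem fatU_pairs {H : Submodule ℂ (Fin n → ℂ)} (hH : ∀ j, H ∈ Schubert n k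
      (fun i => if (i : ℕ) < r j then c j + s j else c j) (F j)) :
    (∀ j, s j ≤ l') ∧ ∀ a b, a ≠ b → r a + r b = k ∨ s a + s b = l' := by
  have hS := fun j => fat_of_schubert hn hk (hrk j) (hcs j) (hF j).mono (hH j)
  have hHA : H ≤ ⨅ j, F j (n - c j) := le_iInf fun j => (hS j).2.1
  have h1 := fat_le hn hk hl hl' hpre hdis hF hr1 hcs hrk hHA (fun j => (hS j).2.2)
  exact ⟨h1, fat_pairs hn hk hl hl' hrk hpre hdis hF h1 hr hs (fat_cod hl' hcod) (hS 0).1 hHA
    (fun j => (hS j).2.2)⟩

theorem fatU_real_transverse {H : Submodule ℂ (Fin n → ℂ)} (hH : ∀ j, H ∈ Schubert n k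
      (fun i => if (i : ℕ) < r j then c j + s j else c j) (F j)) :
    IsRealPoint H ∧ TransverseAt n k
      (fun j i => if (i : ℕ) < r j then c j + s j else c j) F H := by
  obtain ⟨hsl, hp⟩ := fatU_pairs hn hk hl hl' hrk hcs hr1 hr hs hcod hpre hdis hF hH
  have hS := fun j => fat_of_schubert hn hk (hrk j) (hcs j) (hF j).mono (hH j)
  have hHA : H ≤ ⨅ j, F j (n - c j) := le_iInf fun j => (hS j).2.1
  obtain ⟨hreal, hd, htr⟩ := (fat_good hn hk hl hl' hrk hpre hdis hF hsl hr hs hp).1 H (hS 0).1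
    hHA (fun j => (hS j).2.2)
  have hc : ∀ j, c j ≤ ∑ i, c i := fun j =>
    Finset.single_le_sum (f := c) (fun _ _ => Nat.zero_le _) (Finset.mem_univ j)
  refine ⟨hreal, ?_, ?_⟩
  · intro j i hi
    beta_reduce
    rcases corner_fat (hrk j) hi with ⟨h1, h2⟩ | ⟨h1, h2⟩
    · rw [h2, h1]
      have h3 : n - k + r j - (c j + s j) = l + r j - (c j + s j) := by omega
      rw [h3, hd j]
    · rw [h2, h1]
      have h3 : n - k + k - c j = n - c j := by omega
      rw [h3, inf_eq_left.2 (hS j).2.1]
      exact (hS 0).1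
  · intro φ hφ
    -- the image of `φ` is contained in `A / H`
    have hφc : ∀ j x, φ x ∈ (F j (n - c j)).map H.mkQ := by
      intro j x
      rcases Nat.eq_zero_or_pos (c j) with h0 | h0
      · rw [h0, Nat.sub_zero, (hF j).top, Submodule.map_top, Submodule.range_mkQ]
        exact Submodule.mem_top
      · have hcor := corner_fat_k (k := k) (c := c j) (r := r j) (s := s j) hk h0
        have h1 := hφ j _ hcor x
        beta_reduce at h1
        by_cases hrk' : k - 1 < r j
        · rw [if_pos hrk'] at h1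
          have hcj := hcs j
          have hrj := hrk j
          have h4 : n - k + (k - 1 + 1) - (c j + s j) = l + r j - (c j + s j) := by omega
          rw [h4] at h1
          have h5 : H ⊓ F j (l + r j - (c j + s j)) = H := by
            apply Submodule.eq_of_le_of_finrank_le inf_le_left
            rw [hd j, (hS 0).1]
            omega
          have h6 := h1 (inf_eq_left.1 h5 x.2)
          exact Submodule.map_mono ((hF j).mono _ _ (by omega) (by omega)) h6
        · rw [if_neg hrk'] at h1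
          have h4 : n - k + (k - 1 + 1) - c j = n - c j := by omega
          rw [h4] at h1
          exact h1 ((hS j).2.1 x.2)
    have hφA : ∀ x, φ x ∈ (⨅ j, F j (n - c j)).map H.mkQ := by
      intro x
      obtain ⟨u, hu⟩ := H.mkQ_surjective (φ x)
      refine Submodule.mem_map.2 ⟨u, ?_, hu⟩
      rw [Submodule.mem_iInf]
      intro j
      obtain ⟨a, ha, hax⟩ := Submodule.mem_map.1 (hφc j x)
      have h1 : u - a ∈ H := by
        rw [← Submodule.Quotient.mk_eq_zero, ← Submodule.mkQ_apply, map_sub, hax, hu, sub_self]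
      have h2 : u = (u - a) + a := by abel
      rw [h2]
      exact (F j (n - c j)).add_mem ((hS j).2.1 h1) ha
    refine htr φ hφA (fun j x hx => ?_)
    have hsj := hsl j
    have hrj := hrk j
    have hcj := hc j
    rcases Nat.eq_zero_or_pos (r j) with h0 | h0
    · -- `H ∩ F_u = 0`
      have h1 : H ⊓ F j (l + r j - (c j + s j)) = ⊥ := by
        rw [← Submodule.finrank_eq_zero (R := ℂ), hd j, h0]
      have h2 : (x : Fin n → ℂ) ∈ H ⊓ F j (l + r j - (c j + s j)) := ⟨x.2, hx⟩
      rw [h1, Submodule.mem_bot] at h2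
      rw [show x = 0 from Subtype.ext h2, map_zero]
      exact Submodule.zero_mem _
    rcases Nat.eq_zero_or_pos (s j) with h0' | h0'
    · -- `H + (A ∩ F_u) = A`
      have hA1 := finrank_A hn hk hl hl' hpre hdis hF
      have hA2 := finrank_inf_A hn hk hl hl' hpre hdis hF j (w := l' + r j) (by omega)
      have h3 : l' + r j + (∑ i, c i - c j) = l + r j - (c j + s j) := by omega
      rw [h3] at hA2
      have h4 : H ⊔ ((⨅ j, F j (n - c j)) ⊓ F j (l + r j - (c j + s j))) =
          ⨅ j, F j (n - c j) := by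
        apply Submodule.eq_of_le_of_finrank_le (sup_le hHA inf_le_left)
        have h5 := Submodule.finrank_sup_add_finrank_inf_eq H
          ((⨅ j, F j (n - c j)) ⊓ F j (l + r j - (c j + s j)))
        have h6 : H ⊓ ((⨅ j, F j (n - c j)) ⊓ F j (l + r j - (c j + s j))) =
            H ⊓ F j (l + r j - (c j + s j)) := by
          rw [← inf_assoc, inf_eq_left.2 hHA]
        rw [h6, hd j, hA2, (hS 0).1] at h5
        rw [hA1]
        omega
      have h7 := hφA x
      rw [← h4, Submodule.map_sup] at h7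
      have h8 : H.map H.mkQ = ⊥ := Submodule.mkQ_map_self H
      rw [h8, bot_sup_eq] at h7
      exact Submodule.map_mono inf_le_right h7
    · have hcor := corner_fat_r (k := k) (c := c j) (r := r j) (s := s j) (hrk j) h0 h0'
      have h1 := hφ j _ hcor x
      beta_reduce at h1
      rw [if_pos (show r j - 1 < r j by omega)] at h1
      have h4 : n - k + (r j - 1 + 1) - (c j + s j) = l + r j - (c j + s j) := by omega
      rw [h4] at h1
      exact h1 hx

omit hr1 hcod in
theorem fatU_encard (hsl : ∀ j, s j ≤ l')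
    (hp : ∀ a b, a ≠ b → r a + r b = k ∨ s a + s b = l') :
    {H : Submodule ℂ (Fin n → ℂ) | ∀ j, H ∈ Schubert n k
      (fun i => if (i : ℕ) < r j then c j + s j else c j) (F j)}.encard =
      ((⨅ j, min (l' + r j - s j) (k + s j - r j)).choose (⨅ j, min (r j) (k - r j)) : ℕ) := by
  rw [← (fat_good hn hk hl hl' hrk hpre hdis hF hsl hr hs hp).2]
  congr 1
  ext H
  constructor
  · intro hH
    have hS := fun j => fat_of_schubert hn hk (hrk j) (hcs j) (hF j).mono (hH j)
    exact ⟨(hS 0).1, le_iInf fun j => (hS j).2.1, fun j => (hS j).2.2⟩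
  · rintro ⟨k0, k1, k2⟩ j
    exact schubert_of_fat hn (hrk j) (hcs j) (hF j).dim (hF j).mono k0
      (k1.trans (iInf_le _ j)) (k2 j)

theorem fatU_empty (h : ¬ ((∀ j, s j ≤ l') ∧ ∀ a b, a ≠ b → r a + r b = k ∨ s a + s b = l')) :
    {H : Submodule ℂ (Fin n → ℂ) | ∀ j, H ∈ Schubert n k
      (fun i => if (i : ℕ) < r j then c j + s j else c j) (F j)} = ∅ := by
  rw [Set.eq_empty_iff_forall_notMem]
  intro H hH
  exact h (fatU_pairs hn hk hl hl' hrk hcs hr1 hr hs hcod hpre hdis hF hH)

end Pool.Agent.Helper80.Sec
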