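import Pool.Agent.Helper80.Sec.Red

/-!
Images of secant subspaces under the reduction.
-/

namespace Pool.Agent.Helper80.Sec

open Polynomial Module

variable {n : ℕ}

section

variable {m : ℕ} {I : Fin m → Set (OnePoint ℝ)} (hdis : ∀ i j, i ≠ j → Disjoint (I i) (I j))
variable {rep : OnePoint ℝ → ℝ × ℝ} (hrep : ∀ t, IsRep t (rep t))
variable {B : Fin m → List (OnePoint ℝ)}
variable (hBI : ∀ j, ∀ t ∈ B j, t ∈ I j) (hBn : ∑ j, (B j).length ≤ n)
variable {N : ℕ} (hN : N = n - ∑ j, (B j).length)

include hdis hrep hBI hBn hN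

theorem thetaN_inj : Function.Injective (thetaMap n N (∏ j, Dl rep (B j))) := by
  apply thetaMap_injective
  · exact Finset.prod_ne_zero_iff.2 fun j _ => Dl_ne_zero hrep _
  · have := natDegree_prod_Dl_le (B := B) hrep Finset.univ
    omega

theorem ker_red_eq : LinearMap.ker (redMap n N (∏ j, Dl rep (B j))) =
    ⨆ j, SecSp n ((B j).map rep) := by
  have h1 := range_theta hdis hrep hBI hBn
  rw [← hN] at h1
  rw [ker_red, h1, ← Submodule.dualAnnihilator_iSup_eq,
    Subspace.dualAnnihilator_dualCoannihilator_eq]

theorem finrank_ker_red :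
    finrank ℂ ↥(LinearMap.ker (redMap n N (∏ j, Dl rep (B j)))) = ∑ j, (B j).length := by
  have h1 := Subspace.finrank_add_finrank_dualCoannihilator_eq
    (LinearMap.range (thetaMap n N (∏ j, Dl rep (B j))))
  rw [LinearMap.finrank_range_of_inj (thetaN_inj hdis hrep hBI hBn hN), finrank_degreeLT,
    finrank_fin_fun] at h1
  rw [ker_red]
  omega

theorem red_surj : Function.Surjective (redMap n N (∏ j, Dl rep (B j))) := by
  rw [← LinearMap.range_eq_top]
  apply Submodule.eq_top_of_finrank_eq
  have h1 := LinearMap.finrank_range_add_finrank_ker (redMap n N (∏ j, Dl rep (B j)))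
  rw [finrank_ker_red hdis hrep hBI hBn hN, finrank_fin_fun] at h1
  rw [finrank_fin_fun]
  omega

variable {j : Fin m} {L : List (OnePoint ℝ)} (hLI : ∀ t ∈ L, t ∈ I j)
variable (hL : (B j ++ L).length ≤ n) (hLN : L.length ≤ N)

include hLI hL hLN

theorem finrank_inf_ker_red :
    finrank ℂ ↥(SecSp n ((B j ++ L).map rep) ⊓
      LinearMap.ker (redMap n N (∏ j, Dl rep (B j)))) = (B j).length := by
  set θ := thetaMap n N (∏ j, Dl rep (B j)) with hθ
  set E := SecSp n ((B j ++ L).map rep) with hE
  set R := LinearMap.ker (redMap n N (∏ j, Dl rep (B j))) with hR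
  have hθi := thetaN_inj hdis hrep hBI hBn hN
  have hRa : R.dualAnnihilator = LinearMap.range θ := by
    rw [hR, ker_red, Subspace.dualCoannihilator_dualAnnihilator_eq]
  have h1 : finrank ℂ ↥((E ⊔ R).dualAnnihilator) = N - L.length := by
    rw [Submodule.dualAnnihilator_sup_eq, hRa,
      ← finrank_comap_of_le hθi (A := E.dualAnnihilator ⊓ LinearMap.range θ) inf_le_right,
      Submodule.comap_inf]
    have h2 : (LinearMap.range θ).comap θ = ⊤ := by
      rw [eq_top_iff]
      intro x _
      exact ⟨x, rfl⟩
    rw [h2, inf_top_eq]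
    have h3 := comap_theta hdis hrep hBI hBn j hLI hL
    rw [← hN] at h3
    rw [h3, finrank_DivSp hrep hLN]
  have h4 := finrank_dualAnn (E ⊔ R)
  rw [h1, finrank_fin_fun] at h4
  have h5 := Submodule.finrank_sup_add_finrank_inf_eq E R
  have h6 : finrank ℂ E = (B j).length + L.length := by
    rw [hE, finrank_SecSp (by rw [List.length_map]; exact hL) (fun a ha => by
      obtain ⟨t, _, rfl⟩ := List.mem_map.1 ha
      exact lf_ne_zero (hrep t)), List.length_map, List.length_append]
  have h7 : finrank ℂ R = ∑ j, (B j).length := finrank_ker_red hdis hrep hBI hBn hN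
  have h8 := Submodule.finrank_le (E ⊔ R)
  rw [finrank_fin_fun] at h8
  omega

theorem map_red_eq : (SecSp n ((B j ++ L).map rep)).map (redMap n N (∏ j, Dl rep (B j))) =
    SecSp N (L.map rep) := by
  classical
  apply Submodule.eq_of_le_of_finrank_eq
  · rintro _ ⟨v, hv, rfl⟩
    rw [mem_SecSp]
    intro q hq
    rw [List.length_map] at hq
    have hdeg : (((L.map rep).map lf).prod * X ^ q).natDegree < N := by
      refine lt_of_le_of_lt natDegree_mul_le ?_
      rw [natDegree_X_pow]
      have := natDegree_prod_le (L.map rep)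
      rw [List.length_map] at this
      omega
    rw [pair_red _ _ hdeg]
    have hpj := Finset.mul_prod_erase Finset.univ (fun j => Dl rep (B j)) (Finset.mem_univ j)
    have hsj := Finset.add_sum_erase Finset.univ (fun j => (B j).length) (Finset.mem_univ j)
    have e1 : (∏ j, Dl rep (B j)) * (((L.map rep).map lf).prod * X ^ q) =
        (((B j ++ L).map rep).map lf).prod *
          ((∏ i ∈ Finset.univ.erase j, Dl rep (B i)) * X ^ q) := by
      have e2 : (((B j ++ L).map rep).map lf).prod = Dl rep (B j) * Dl rep L :=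
        Dl_append rep (B j) L
      have e3 : ((L.map rep).map lf).prod = Dl rep L := rfl
      rw [e2, e3, ← hpj]
      ring
    rw [e1]
    apply pair_mul_of_mem hv
    have h1 : ((∏ i ∈ Finset.univ.erase j, Dl rep (B i)) * X ^ q).natDegree ≤
        ∑ i ∈ Finset.univ.erase j, (B i).length + q := by
      refine natDegree_mul_le.trans ?_
      rw [natDegree_X_pow]
      exact Nat.add_le_add_right (natDegree_prod_Dl_le hrep _) q
    rw [List.length_map, List.length_append]
    have hsj' : (B j).length + ∑ i ∈ Finset.univ.erase j, (B i).length = ∑ j, (B j).length := hsj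
    omega
  · have h1 := finrank_map_add_inf (redMap n N (∏ j, Dl rep (B j))) (SecSp n ((B j ++ L).map rep))
    rw [finrank_inf_ker_red hdis hrep hBI hBn hN hLI hL hLN,
      finrank_SecSp (L := (B j ++ L).map rep) (by rw [List.length_map]; exact hL) (fun a ha => by
        obtain ⟨t, _, rfl⟩ := List.mem_map.1 ha
        exact lf_ne_zero (hrep t)), List.length_map, List.length_append] at h1
    rw [finrank_SecSp (L := L.map rep) (by rw [List.length_map]; exact hLN) (fun a ha => by
        obtain ⟨t, _, rfl⟩ := List.mem_map.1 ha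
        exact lf_ne_zero (hrep t)), List.length_map]
    omega

end

end Pool.Agent.Helper80.Sec
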