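import Pool.Agent.Helper80.Sec.Frame4
import Pool.Agent.Helper80.Sec.RedSec

/-!
Positive coordinates for four secant flags.
-/

namespace Pool.Agent.Helper80.Sec

open Polynomial Module

section restrict

variable {V : Type*} [AddCommGroup V] [Module ℂ V]

theorem finrank_comap_sub {A U : Submodule ℂ V} (h : U ≤ A) :
    finrank ℂ ↥(U.comap A.subtype) = finrank ℂ U :=
  (Submodule.comapSubtypeEquivOfLe h).finrank_eq

theorem Chain.restrict {A : Submodule ℂ V} {Z : V →ₗ[ℂ] (ℕ → ℂ)} {N E : ℕ}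
    {K : ℕ → Submodule ℂ V} (h : Chain Z N E K) (hA : ∀ e, e ≤ E → K e ≤ A) :
    Chain (Z.comp A.subtype) N E (fun e => (K e).comap A.subtype) := by
  refine ⟨⟨?_, ?_, ?_⟩, fun e he => Submodule.comap_mono (h.le e he), fun e he => ?_,
    fun e he => ?_⟩
  · intro v hv h0
    exact Subtype.ext (h.fr.inj v hv h0)
  · intro v hv i hi
    exact h.fr.supp v hv i hi
  · rw [finrank_comap_sub (hA 0 (Nat.zero_le _))]
    exact h.fr.fr
  · rw [finrank_comap_sub (hA e he)]
    exact h.dim e he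
  · intro v hv hv0 i h1 h2
    exact h.loc e he v hv (fun h3 => hv0 (Subtype.ext h3)) i h1 h2

end restrict

variable {n : ℕ}

/-- the conjugation on a stable subspace -/
noncomputable def cjA (A : Submodule ℂ (Fin n → ℂ)) (h : ∀ v ∈ A, cjF n v ∈ A) :
    ↥A →ₛₗ[starRingEnd ℂ] ↥A :=
  ((cjF n).comp A.subtype).codRestrict A (fun v => h v v.2)

theorem cjA_coe (A : Submodule ℂ (Fin n → ℂ)) (h : ∀ v ∈ A, cjF n v ∈ A) (v : ↥A) :
    ((cjA A h v : ↥A) : Fin n → ℂ) = cjF n v := rfl

theorem ZF_low {a c : ℕ → ℝ × ℝ} {u : ℕ} {v : Fin n → ℂ}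
    (hv : v ∈ SecSp n ((List.range u).map a)) : ∀ i, u ≤ i → ZF n a c v i = 0 := by
  intro i hi
  have hp : (((List.range u).map a).map lf).prod = ∏ l ∈ Finset.range u, lf (a l) := by
    rw [List.map_map, Finset.prod_range, ← List.prod_ofFn]
    congr 1
    apply List.ext_getElem
    · simp
    · intro l h1 h2
      simp
  rcases Nat.lt_or_ge i n with h | h
  · rw [ZF_apply v h, FB, ← Finset.prod_range_mul_prod_Ico _ hi, ← hp, mul_assoc]
    refine pair_mul_of_mem hv ?_
    have h1 : ((∏ l ∈ Finset.Ico u i, lf (a l)) *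
        ∏ l ∈ Finset.range (n - 1 - i), lf (c l)).natDegree ≤ (i - u) + (n - 1 - i) :=
      natDegree_mul_le.trans (Nat.add_le_add (prod_Ico_natDegree _ _ _) (prod_lf_natDegree _ _))
    rw [List.length_map, List.length_range]
    omega
  · exact ZF_apply_ge v h

theorem ZF_high {a c : ℕ → ℝ × ℝ} {u : ℕ} {v : Fin n → ℂ}
    (hv : v ∈ SecSp n ((List.range u).map c)) : ∀ i, i < n - u → ZF n a c v i = 0 := by
  intro i hi
  have hp : (((List.range u).map c).map lf).prod = ∏ l ∈ Finset.range u, lf (c l) := by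
    rw [List.map_map, Finset.prod_range, ← List.prod_ofFn]
    congr 1
    apply List.ext_getElem
    · simp
    · intro l h1 h2
      simp
  have h : i < n := by omega
  have e : FB a c (n - 1) i = (((List.range u).map c).map lf).prod *
      ((∏ l ∈ Finset.Ico u (n - 1 - i), lf (c l)) * ∏ l ∈ Finset.range i, lf (a l)) := by
    rw [FB, hp, ← Finset.prod_range_mul_prod_Ico (fun l => lf (c l))
      (show u ≤ n - 1 - i by omega)]
    ring
  rw [ZF_apply v h, e]
  refine pair_mul_of_mem hv ?_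
  have h1 : ((∏ l ∈ Finset.Ico u (n - 1 - i), lf (c l)) *
      ∏ l ∈ Finset.range i, lf (a l)).natDegree ≤ (n - 1 - i - u) + i :=
    natDegree_mul_le.trans (Nat.add_le_add (prod_Ico_natDegree _ _ _) (prod_lf_natDegree _ _))
  rw [List.length_map, List.length_range]
  omega

section flag

variable {I : Set (OnePoint ℝ)} {G : ℕ → Submodule ℂ (Fin n → ℂ)} (hG : IsSecantFlag n I G)
variable {rep : OnePoint ℝ → ℝ × ℝ} (hrep : ∀ t, IsRep t (rep t))

include hG

theorem IsSecantFlag.top : G n = ⊤ := by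
  apply Submodule.eq_top_of_finrank_eq
  rw [hG.dim n le_rfl, finrank_fin_fun]

theorem IsSecantFlag.nonempty (hn : 2 ≤ n) : I.Nonempty := by
  by_contra hcon
  rw [Set.not_nonempty_iff_eq_empty] at hcon
  obtain ⟨S, hS, hW⟩ := hG.sec 1 le_rfl (by omega)
  have h1 : G 1 = ⊥ := by
    rw [hW, iSup_eq_bot]
    intro x
    rw [iSup_eq_bot]
    intro hx
    have := hS x hx
    rw [hcon] at this
    exact absurd this (Set.notMem_empty _)
  have h2 := hG.dim 1 (by omega)
  rw [h1, finrank_bot] at h2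
  omega

include hrep

/-- adapted sequences -/
theorem IsSecantFlag.exists_seq (hne : I.Nonempty) {u v : ℕ} (huv : u ≤ v) (hv : v ≤ n) :
    ∃ a : ℕ → ℝ × ℝ, (∀ l, ∃ t ∈ I, a l = rep t) ∧ G u ≤ SecSp n ((List.range u).map a) ∧
      G v ≤ SecSp n ((List.range v).map a) := by
  obtain ⟨t0, ht0⟩ := hne
  have htriv : ∀ (a : ℕ → ℝ × ℝ) (W : Submodule ℂ (Fin n → ℂ)), W ≤ SecSp n ((List.range n).map a) := by
    intro a W x _
    rw [mem_SecSp]
    intro m hm
    rw [List.length_map, List.length_range] at hm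
    omega
  rcases Nat.eq_zero_or_pos n with h0 | h0
  · have e1 : u = n := by omega
    have e2 : v = n := by omega
    rw [e1, e2]
    exact ⟨fun _ => rep t0, fun _ => ⟨t0, ht0, rfl⟩, htriv _ _, htriv _ _⟩
  obtain ⟨u', hu'⟩ : ∃ u', u' = min u (n - 1) := ⟨_, rfl⟩
  obtain ⟨v', hv'⟩ : ∃ v', v' = min v (n - 1) := ⟨_, rfl⟩
  have hv'n : v' < n := by omega
  have huv' : u' ≤ v' := by omega
  have hdv : finrank ℂ (G v') = v' := hG.dim _ hv'n.le
  have hdu : finrank ℂ (G u') = u' := hG.dim _ (by omega)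
  obtain ⟨L, L', l1, l2, l3, l4, l5⟩ := exists_nested (hG.gen (i := u') (by omega))
    (hG.gen hv'n) (hG.mono _ _ huv' hv'n.le) (by rw [hdv]; exact hv'n)
  obtain ⟨m1, m2⟩ := l5 rep hrep
  rw [hdu] at l1
  rw [hdv] at l2
  obtain ⟨a, ha⟩ : ∃ a : ℕ → ℝ × ℝ, a = fun l => rep ((L ++ L').getD l t0) := ⟨_, rfl⟩
  have haI : ∀ l, ∃ t ∈ I, a l = rep t := by
    intro l
    rw [ha]
    refine ⟨(L ++ L').getD l t0, ?_, rfl⟩
    rcases Nat.lt_or_ge l (L ++ L').length with h | h
    · rw [List.getD_eq_getElem _ _ h]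
      rcases List.mem_append.1 (List.getElem_mem h) with h1 | h1
      · exact l3 _ h1
      · exact l4 _ h1
    · rw [List.getD_eq_default _ _ h]
      exact ht0
  have e1 : (List.range u').map a = L.map rep := by
    apply List.ext_getElem
    · rw [List.length_map, List.length_map, List.length_range, l1]
    · intro l h1 h2
      rw [List.length_map, List.length_range] at h1
      rw [List.getElem_map, List.getElem_map, List.getElem_range, ha]
      have h3 : l < (L ++ L').length := by omega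
      have h4 : l < L.length := by omega
      show rep ((L ++ L').getD l t0) = rep L[l]
      rw [List.getD_eq_getElem _ _ h3, List.getElem_append_left h4]
  have e2 : (List.range v').map a = (L ++ L').map rep := by
    apply List.ext_getElem
    · rw [List.length_map, List.length_map, List.length_range, l2]
    · intro l h1 h2
      rw [List.length_map, List.length_range] at h1
      rw [List.getElem_map, List.getElem_map, List.getElem_range, ha]
      have h3 : l < (L ++ L').length := by omega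
      show rep ((L ++ L').getD l t0) = rep (L ++ L')[l]
      rw [List.getD_eq_getElem _ _ h3]
  refine ⟨a, haI, ?_, ?_⟩
  · by_cases h : u = n
    · rw [h]; exact htriv _ _
    · have : u' = u := by omega
      rw [this] at e1 m1
      rw [e1]; exact m1.le
  · by_cases h : v = n
    · rw [h]; exact htriv _ _
    · have : v' = v := by omega
      rw [this] at e2 m2
      rw [e2]; exact m2.le

omit hrep in
theorem IsSecantFlag.stable (i : ℕ) (hi : i ≤ n) : ∀ v ∈ G i, cjF n v ∈ G i := by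
  intro v hv
  by_cases h : i = n
  · subst h
    rw [hG.top]
    exact Submodule.mem_top
  · have hi' : i < n := by omega
    obtain ⟨L, -, -, l3, -⟩ := (hG.gen hi').exists_list' (by rw [hG.dim i hi]; exact hi')
    have hrep0 : ∀ t : OnePoint ℝ, IsRep t (t.elim (1, 0) (fun s => (s, 1)) : ℝ × ℝ) := by
      intro t
      induction t using OnePoint.rec with
      | infty => exact ⟨rfl, one_ne_zero⟩
      | coe t => exact ⟨one_ne_zero, by simp⟩
    rw [l3 _ hrep0] at hv ⊢
    exact SecSp_cj _ v hv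

/-- sign variation of the members of the flag -/
theorem IsSecantFlag.va {a c : ℕ → ℝ × ℝ} (σ : ℝ) (hσ : σ = 1 ∨ σ = -1)
    (hac : ∀ i j, 0 < br (c j) (a i)) (ha : ∀ i, ∀ t ∈ I, 0 < br (rep t) (a i))
    (hc : ∀ j, ∀ t ∈ I, σ * br (rep t) (c j) < 0) {e : ℕ} (he : e ≤ n) {v : Fin n → ℂ}
    (hv : v ∈ G (n - e)) (hne : (fun i => σ ^ i * (ZF n a c v i).re) ≠ 0) :
    Alt (fun i => σ ^ i * (ZF n a c v i).re) (e + 1) := by
  rcases Nat.eq_zero_or_pos e with h0 | h0
  · subst h0
    exact alt_one hne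
  · have hlt : n - e < n := by omega
    have hd : finrank ℂ (G (n - e)) = n - e := hG.dim _ hlt.le
    obtain ⟨L, l1, l2, l3, -⟩ := (hG.gen hlt).exists_list' (by rw [hd]; exact hlt)
    rw [l3 rep hrep] at hv
    rw [hd] at l1
    have h1 := alt_of_mem (L := L.map rep) (by rw [List.length_map, l1]; exact hlt) σ hσ hac
      (fun i t ht => by
        obtain ⟨s, hs, rfl⟩ := List.mem_map.1 ht
        exact ha i s (l2 s hs))
      (fun j t ht => by
        obtain ⟨s, hs, rfl⟩ := List.mem_map.1 ht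
        exact hc j s (l2 s hs)) hv hne
    rw [List.length_map, l1] at h1
    have h2 : n - (n - e) + 1 = e + 1 := by omega
    rwa [h2] at h1

end flag

section four

variable {N : ℕ} {c w : Fin 4 → ℕ} (hn : n = N + ∑ j, c j) (hw : ∀ j, w j ≤ N)
variable {I : Fin 4 → Set (OnePoint ℝ)} (hne : ∀ j, (I j).Nonempty)
variable {F : Fin 4 → ℕ → Submodule ℂ (Fin n → ℂ)} (hF : ∀ j, IsSecantFlag n (I j) (F j))
variable {rep : OnePoint ℝ → ℝ × ℝ} (hrep : ∀ t, IsRep t (rep t)) {π : Equiv.Perm (Fin 4)}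
variable (hord : ∀ i j, i < j → ∀ a ∈ I (π i), ∀ b ∈ I (π j), 0 < br (rep b) (rep a))

theorem iInf_perm4 {V : Type*} [AddCommGroup V] [Module ℂ V] (π : Equiv.Perm (Fin 4))
    (U : Fin 4 → Submodule ℂ V) :
    ⨅ j, U j = U (π 0) ⊓ U (π 2) ⊓ U (π 1) ⊓ U (π 3) := by
  apply le_antisymm
  · exact le_inf (le_inf (le_inf (iInf_le _ _) (iInf_le _ _)) (iInf_le _ _)) (iInf_le _ _)
  · refine le_iInf ?_
    refine fin4_cases π ?_ ?_ ?_ ?_
    · exact (inf_le_left.trans inf_le_left).trans inf_le_left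
    · exact inf_le_left.trans inf_le_right
    · exact (inf_le_left.trans inf_le_left).trans inf_le_right
    · exact inf_le_right

include hn hw hne hF hrep hord

theorem frame_of_flags (hA : ∀ v ∈ ⨅ j, F j (n - c j), cjF n v ∈ ⨅ j, F j (n - c j)) :
    Frame4 (cjA (⨅ j, F j (n - c j)) hA) N w
      (fun j => (F j (w j + (∑ i, c i - c j))).comap (⨅ j, F j (n - c j)).subtype) π := by
  have hs := sum_perm4 c π
  have hw0 := hw (π 0)
  have hw2 := hw (π 2)
  have hG := fun i => hF (π i)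
  obtain ⟨a, ha, la1, la2⟩ := (hG 0).exists_seq hrep (hne _)
    (u := w (π 0) + c (π 1) + c (π 2) + c (π 3)) (v := n - c (π 0)) (by omega) (by omega)
  obtain ⟨d, hd, ld1, ld2⟩ := (hG 2).exists_seq hrep (hne _)
    (u := w (π 2) + c (π 0) + c (π 1) + c (π 3)) (v := n - c (π 2)) (by omega) (by omega)
  have hac : ∀ i j, 0 < br (d j) (a i) := by
    intro i j
    obtain ⟨t, ht, e1⟩ := ha i
    obtain ⟨t', ht', e2⟩ := hd j
    rw [e1, e2]
    exact hord 0 2 (by decide) t ht t' ht'
  have hb : ∀ i j, br (a i) (d j) ≠ 0 := fun i j => by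
    rw [br_anti]
    exact (neg_neg_of_pos (hac i j)).ne
  have hZ0 : Fr ⊤ n (ZF n a d) := by
    refine ⟨fun v _ h0 => ?_, fun v _ i hi => ZF_apply_ge v hi, ?_⟩
    · exact ZF_injective hb (by rw [h0, map_zero])
    · rw [finrank_top, finrank_fin_fun]
  have v2 : ∀ e, e ≤ n → Va (ZF n a d) e (F (π 1) (n - e)) := by
    intro e he v hv hne'
    have h1 := (hG 1).va hrep (a := a) (c := d) 1 (Or.inl rfl) hac (fun i t ht => by
        obtain ⟨s, hs, e1⟩ := ha i
        rw [e1]
        exact hord 0 1 (by decide) s hs t ht) (fun j t ht => by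
        obtain ⟨s, hs, e1⟩ := hd j
        rw [e1, one_mul, br_anti]
        exact neg_neg_of_pos (hord 1 2 (by decide) t ht s hs)) he hv (by
        intro h0
        apply hne'
        rw [← h0]
        funext i
        simp [reS])
    have h2 : (fun i => (1 : ℝ) ^ i * (ZF n a d v i).re) = reS (ZF n a d v) := by
      funext i
      simp [reS]
    rwa [h2] at h1
  have v4 : ∀ e, e ≤ n → Va (twMap.comp (ZF n a d)) e (F (π 3) (n - e)) := by
    intro e he v hv hne'
    have h2 : (fun i => (-1 : ℝ) ^ i * (ZF n a d v i).re) =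
        reS ((twMap.comp (ZF n a d)) v) := (reS_twMap _).symm
    have h1 := (hG 3).va hrep (a := a) (c := d) (-1) (Or.inr rfl) hac (fun i t ht => by
        obtain ⟨s, hs, e1⟩ := ha i
        rw [e1]
        exact hord 0 3 (by decide) s hs t ht) (fun j t ht => by
        obtain ⟨s, hs, e1⟩ := hd j
        rw [e1, br_anti]
        have := hord 2 3 (by decide) s hs t ht
        rw [br_anti] at this
        linarith) he hv (by rw [h2]; exact hne')
    rwa [h2] at h1
  obtain ⟨Z, f0, f1, f3, f2, f4, fc⟩ := four_frame (n := n) (N := N) (c1 := c (π 0))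
    (c2 := c (π 1)) (c3 := c (π 2)) (c4 := c (π 3)) (w1 := w (π 0)) (w2 := w (π 1))
    (w3 := w (π 2)) (w4 := w (π 3)) (by omega) (hw _) (hw _) (hw _) (hw _) hZ0
    (F1 := F (π 0)) (F2 := F (π 1)) (F3 := F (π 2)) (F4 := F (π 3))
    (hG 0).dim (hG 0).mono (hG 1).dim (hG 1).mono (hG 2).dim (hG 2).mono (hG 3).dim (hG 3).mono
    (fun v hv => ZF_low (la2 hv)) (fun v hv => ZF_low (la1 hv))
    (fun v hv i hi => ZF_high (ld2 hv) i (by omega)) (fun v hv => ZF_high (ld1 hv)) v2 v4
    (A := ⨅ j, F j (n - c j)) (iInf_perm4 π _)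
  obtain ⟨A, hAdef⟩ : ∃ A, A = ⨅ j, F j (n - c j) := ⟨_, rfl⟩
  have hAle : ∀ j, (⨅ j, F j (n - c j)) ≤ F j (n - c j) := fun j => iInf_le _ j
  have hw1 := hw (π 1)
  have hw3 := hw (π 3)
  refine ⟨Z.comp (⨅ j, F j (n - c j)).subtype, ⟨?_, ?_, ?_⟩, ?_, ?_, ?_, ?_, ?_⟩
  · intro v _ h0
    exact Subtype.ext (f0.inj v v.2 h0)
  · intro v _ i hi
    exact f0.supp v v.2 i hi
  · rw [finrank_top]
    exact f0.fr
  · intro v hv i hi
    refine f1 v ⟨v.2, ?_⟩ i hi
    have h1 : w (π 0) + c (π 1) + c (π 2) + c (π 3) = w (π 0) + (∑ i, c i - c (π 0)) := by omega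
    rw [h1]
    exact hv
  · intro v hv i hi
    refine f3 v ⟨v.2, ?_⟩ i hi
    have h1 : w (π 2) + c (π 0) + c (π 1) + c (π 3) = w (π 2) + (∑ i, c i - c (π 2)) := by omega
    rw [h1]
    exact hv
  · refine ⟨_, f2.restrict (fun e he => inf_le_left), ?_⟩
    have h1 : n - c (π 1) - (N - w (π 1)) = w (π 1) + (∑ i, c i - c (π 1)) := by omega
    rw [h1, Submodule.comap_inf, Submodule.comap_subtype_self, top_inf_eq]
  · refine ⟨_, f4.restrict (fun e he => inf_le_left), ?_⟩
    have h1 : n - c (π 3) - (N - w (π 3)) = w (π 3) + (∑ i, c i - c (π 3)) := by omega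
    rw [h1, Submodule.comap_inf, Submodule.comap_subtype_self, top_inf_eq]
  · intro v i
    show Z (cjF n v) i = (starRingEnd ℂ) (Z v i)
    exact fc (v : Fin n → ℂ) (cjF n v) (fun i => ZF_cj a d (v : Fin n → ℂ) i) i

end four

end Pool.Agent.Helper80.Sec
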