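import Pool.Agent.Helper80.Sec.FlagSet

/-!
Reality, transversality and number of points for the conditions given by four rectangles.
-/

namespace Pool.Agent.Helper80.Sec

open Polynomial Module

/-- sums over the four indices -/
theorem sum_e {m : ℕ} {J : Finset (Fin m)} {e : Fin 4 → Fin m} (he : Function.Injective e)
    (heJ : ∀ i, e i ∈ J) (hes : ∀ j ∈ J, ∃ i, e i = j) (g : Fin m → ℕ) :
    ∑ i, g (e i) = ∑ j ∈ J, g j := by
  have h2 : J = Finset.univ.map ⟨e, he⟩ := by
    ext j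
    constructor
    · intro hj
      obtain ⟨i, hi⟩ := hes j hj
      exact Finset.mem_map.2 ⟨i, Finset.mem_univ _, hi⟩
    · intro hj
      obtain ⟨i, _, hi⟩ := Finset.mem_map.1 hj
      rw [← hi]; exact heJ i
  rw [h2, Finset.sum_map]
  rfl

theorem arith_w {k' l r s : ℕ} (_ : s ≤ l) (_ : r ≤ k') (h : s < l + r ∧ r < k' + s) :
    0 < l + r - s ∧ l + r - s < k' + l ∧ k' + l - (l + r - s) = k' + s - r := by omega

section

variable {n m k' l : ℕ} {b r s : Fin m → ℕ} (hn : k' + ∑ j, b j + l = n)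
variable {J : Finset (Fin m)} (hJ : J.card = 4) (hsl : ∀ j, s j ≤ l) (hrk : ∀ j, r j ≤ k')
variable (hw : ∀ j ∈ J, s j < l + r j ∧ r j < k' + s j)
variable (hr : ∑ j ∈ J, r j = 2 * k') (hs : ∑ j ∈ J, s j = 2 * l)
variable {I : Fin m → Set (OnePoint ℝ)} (hdis : ∀ i j, i ≠ j → Disjoint (I i) (I j))
variable {F : Fin m → ℕ → Submodule ℂ (Fin n → ℂ)} (hF : ∀ j, IsSecantFlag n (I j) (F j))

include hn hJ hsl hw hdis hF

theorem flag_pairs (hrs : ∑ j ∈ J, r j * s j = k' * l) (hr : ∑ j ∈ J, r j = 2 * k')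
    (hs : ∑ j ∈ J, s j = 2 * l) (hrk : ∀ j, r j ≤ k')
    {H : Submodule ℂ (Fin n → ℂ)} (hH : finrank ℂ H = k' + ∑ j, b j)
    (hb : ∀ j, F j (b j) ≤ H)
    (hu : ∀ j ∈ J, b j + r j ≤ finrank ℂ ↥(H ⊓ F j (b j + (l + r j - s j)))) :
    ∀ a ∈ J, ∀ c ∈ J, a ≠ c → r a + r c = k' ∨ s a + s c = l := by
  obtain ⟨e, f, T, heinj, heJ, hesurj, hfs, hker, hkd, hcj, hTI, hTl, hmap, hEk⟩ :=
    flag_setup hn hJ hsl hw hdis hF
  have hkH : LinearMap.ker f ≤ H := by rw [hker]; exact iSup_le hb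
  set rep0 : OnePoint ℝ → ℝ × ℝ := fun t => t.elim (1, 0) (fun s => (s, 1)) with hrepdef
  have hrep0 : ∀ t, IsRep t (rep0 t) := by
    intro t
    induction t using OnePoint.rec with
    | infty => exact ⟨rfl, one_ne_zero⟩
    | coe t => exact ⟨one_ne_zero, by simp [hrepdef]⟩
  have haw := fun i => arith_w (hsl (e i)) (hrk (e i)) (hw _ (heJ i))
  have hHb : finrank ℂ ↥(H.map f) = k' := by
    have h1 := finrank_map_of_ker hkH
    rw [hkd, hH] at h1
    omega
  have h1 := core_pairs (N := k' + l) (k := k') (l := l) (r := fun i => r (e i))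
    (s := fun i => s (e i)) (w := fun i => l + r (e i) - s (e i)) (I := fun i => I (e i))
    (T := T) (W := fun i => (F (e i) (b (e i) + (l + r (e i) - s (e i)))).map f)
    rfl (fun i => hsl _) (fun i => rfl)
    ((sum_e heinj heJ hesurj r).trans hr) ((sum_e heinj heJ hesurj s).trans hs)
    ((sum_e heinj heJ hesurj (fun j => r j * s j)).trans hrs)
    (fun i j hij => hdis _ _ (fun h => hij (heinj h))) hTI hTl (fun i => (haw i).2.1) hrep0
    (fun i => hmap rep0 hrep0 i) hHb (fun i => by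
      have h2 := finrank_inf_of_ker hkH (F (e i) (b (e i) + (l + r (e i) - s (e i))))
      rw [hEk] at h2
      have h3 := hu _ (heJ i)
      omega)
  intro a ha c hc hac
  obtain ⟨i, rfl⟩ := hesurj a ha
  obtain ⟨j, rfl⟩ := hesurj c hc
  exact h1 i j (fun h => hac (by rw [h]))

include hrk hr hs

theorem flag_aux (hpre : ∀ j, IsPreconnected (I j))
    (hp : ∀ a ∈ J, ∀ c ∈ J, a ≠ c → r a + r c = k' ∨ s a + s c = l)
    {H : Submodule ℂ (Fin n → ℂ)} (hH : finrank ℂ H = k' + ∑ j, b j)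
    (hb : ∀ j, F j (b j) ≤ H)
    (hu : ∀ j ∈ J, b j + r j ≤ finrank ℂ ↥(H ⊓ F j (b j + (l + r j - s j)))) :
    IsRealPoint H ∧
      (∀ j ∈ J, finrank ℂ ↥(H ⊓ F j (b j + (l + r j - s j))) = b j + r j) ∧
      ∀ φ : H →ₗ[ℂ] ((Fin n → ℂ) ⧸ H), (∀ j, ∀ x : H, (x : Fin n → ℂ) ∈ F j (b j) → φ x = 0) →
        (∀ j ∈ J, ∀ x : H, (x : Fin n → ℂ) ∈ F j (b j + (l + r j - s j)) →
          φ x ∈ (F j (b j + (l + r j - s j))).map H.mkQ) → φ = 0 := by
  obtain ⟨e, f, T, heinj, heJ, hesurj, hfs, hker, hkd, hcj, hTI, hTl, hmap, hEk⟩ :=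
    flag_setup hn hJ hsl hw hdis hF
  have hkH : LinearMap.ker f ≤ H := by rw [hker]; exact iSup_le hb
  have haw := fun i => arith_w (hsl (e i)) (hrk (e i)) (hw _ (heJ i))
  have hHb : finrank ℂ ↥(H.map f) = k' := by
    have h1 := finrank_map_of_ker hkH
    rw [hkd, hH] at h1
    omega
  have hgood := (core (N := k' + l) (k := k') (l := l) (r := fun i => r (e i))
    (s := fun i => s (e i)) (w := fun i => l + r (e i) - s (e i)) (I := fun i => I (e i))
    (T := T) (W := fun i => (F (e i) (b (e i) + (l + r (e i) - s (e i)))).map f)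
    rfl (fun i => hrk _) (fun i => hsl _) (fun i => rfl)
    ((sum_e heinj heJ hesurj r).trans hr) ((sum_e heinj heJ hesurj s).trans hs)
    (fun i => hpre _) (fun i j hij => hdis _ _ (fun h => hij (heinj h))) hTI hTl
    (fun i => (haw i).1) (fun i => (haw i).2.1) (fun rep hrep i => hmap rep hrep i)
    (fun i j hij => hp _ (heJ i) _ (heJ j) (fun h => hij (heinj h)))).1
  have hd : ∀ i, finrank ℂ ↥(H.map f ⊓ (F (e i) (b (e i) + (l + r (e i) - s (e i)))).map f) +
      b (e i) = finrank ℂ ↥(H ⊓ F (e i) (b (e i) + (l + r (e i) - s (e i)))) := fun i => by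
    have h2 := finrank_inf_of_ker hkH (F (e i) (b (e i) + (l + r (e i) - s (e i))))
    rwa [hEk] at h2
  obtain ⟨g1, g2, g3⟩ := hgood (H.map f) hHb (fun i => by
      have h2 := hd i
      have h3 := hu _ (heJ i)
      beta_reduce
      omega)
  refine ⟨?_, ?_, ?_⟩
  · intro v hv
    have h1 : f (cjF n v) ∈ H.map f := by
      rw [hcj]
      exact g1 _ (Submodule.mem_map_of_mem hv)
    have h2 : cjF n v ∈ (H.map f).comap f := h1
    rw [comap_map_of_ker hkH] at h2
    exact h2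
  · intro j hj
    obtain ⟨i, rfl⟩ := hesurj j hj
    have h1 := g2 i
    have h2 := hd i
    beta_reduce at h1
    omega
  · intro φ hφb hφu
    refine transfer_quot hkH (fun i : Fin 4 => F (e i) (b (e i) + (l + r (e i) - s (e i)))) φ ?_
      (fun i x hx => hφu _ (heJ i) x hx) (fun ψ hψ => g3 ψ hψ)
    intro x hx
    rw [hker] at hx
    have h2 : (⨆ j, F j (b j)) ≤ (LinearMap.ker φ).map H.subtype := by
      refine iSup_le fun j v hv => ?_
      refine Submodule.mem_map.2 ⟨⟨v, hb j hv⟩, ?_, rfl⟩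
      rw [LinearMap.mem_ker]
      exact hφb j ⟨v, hb j hv⟩ hv
    obtain ⟨y, hy, hyx⟩ := Submodule.mem_map.1 (h2 hx)
    have : y = x := Subtype.ext hyx
    rw [← this]; exact hy

theorem flag_count (hpre : ∀ j, IsPreconnected (I j))
    (hp : ∀ a ∈ J, ∀ c ∈ J, a ≠ c → r a + r c = k' ∨ s a + s c = l) :
    {H : Submodule ℂ (Fin n → ℂ) | finrank ℂ H = k' + ∑ j, b j ∧ (∀ j, F j (b j) ≤ H) ∧
      ∀ j ∈ J, b j + r j ≤ finrank ℂ ↥(H ⊓ F j (b j + (l + r j - s j)))}.encard =
    ((⨅ j : J, min (l + r j - s j) (k' + s j - r j)).choose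
      (⨅ j : J, min (r j) (k' - r j)) : ℕ) := by
  obtain ⟨e, f, T, heinj, heJ, hesurj, hfs, hker, hkd, hcj, hTI, hTl, hmap, hEk⟩ :=
    flag_setup hn hJ hsl hw hdis hF
  have haw := fun i => arith_w (hsl (e i)) (hrk (e i)) (hw _ (heJ i))
  have hgood := (core (N := k' + l) (k := k') (l := l) (r := fun i => r (e i))
    (s := fun i => s (e i)) (w := fun i => l + r (e i) - s (e i)) (I := fun i => I (e i))
    (T := T) (W := fun i => (F (e i) (b (e i) + (l + r (e i) - s (e i)))).map f)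
    rfl (fun i => hrk _) (fun i => hsl _) (fun i => rfl)
    ((sum_e heinj heJ hesurj r).trans hr) ((sum_e heinj heJ hesurj s).trans hs)
    (fun i => hpre _) (fun i j hij => hdis _ _ (fun h => hij (heinj h))) hTI hTl
    (fun i => (haw i).1) (fun i => (haw i).2.1) (fun rep hrep i => hmap rep hrep i)
    (fun i j hij => hp _ (heJ i) _ (heJ j) (fun h => hij (heinj h)))).2
  have hset : {H : Submodule ℂ (Fin n → ℂ) | finrank ℂ H = k' + ∑ j, b j ∧
      (∀ j, F j (b j) ≤ H) ∧
      ∀ j ∈ J, b j + r j ≤ finrank ℂ ↥(H ⊓ F j (b j + (l + r j - s j)))} =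
      (fun G : Submodule ℂ (Fin (k' + l) → ℂ) => G.comap f) ''
      {G | finrank ℂ G = k' ∧ ∀ i, r (e i) ≤
        finrank ℂ ↥(G ⊓ (F (e i) (b (e i) + (l + r (e i) - s (e i)))).map f)} := by
    ext H
    constructor
    · rintro ⟨k0, k1, k2⟩
      have hkH : LinearMap.ker f ≤ H := by rw [hker]; exact iSup_le k1
      refine ⟨H.map f, ⟨?_, fun i => ?_⟩, comap_map_of_ker hkH⟩
      · have h1 := finrank_map_of_ker hkH
        rw [hkd, k0] at h1
        omega
      · have h2 := finrank_inf_of_ker hkH (F (e i) (b (e i) + (l + r (e i) - s (e i))))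
        rw [hEk] at h2
        have h3 := k2 _ (heJ i)
        omega
    · rintro ⟨G, ⟨k0, k1⟩, rfl⟩
      have hkH : LinearMap.ker f ≤ G.comap f := by
        intro x hx
        show f x ∈ G
        rw [LinearMap.mem_ker.1 hx]
        exact G.zero_mem
      have hGm : (G.comap f).map f = G := Submodule.map_comap_eq_of_surjective hfs G
      refine ⟨?_, fun j => ?_, fun j hj => ?_⟩
      · have h1 := finrank_map_of_ker hkH
        rw [hGm, hkd, k0] at h1
        exact h1.symm
      · refine le_trans ?_ hkH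
        rw [hker]
        exact le_iSup (fun j => F j (b j)) j
      · obtain ⟨i, rfl⟩ := hesurj j hj
        have h2 := finrank_inf_of_ker hkH (F (e i) (b (e i) + (l + r (e i) - s (e i))))
        rw [hEk, hGm] at h2
        have h3 := k1 i
        beta_reduce
        omega
  have hinj : Function.Injective (fun G : Submodule ℂ (Fin (k' + l) → ℂ) => G.comap f) :=
    Submodule.comap_injective_of_surjective hfs
  rw [hset, hinj.encard_image, hgood]
  have hsj : Function.Surjective (fun i : Fin 4 => (⟨e i, heJ i⟩ : J)) := by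
    rintro ⟨j, hj⟩
    obtain ⟨i, hi⟩ := hesurj j hj
    exact ⟨i, Subtype.ext hi⟩
  have h1 : (⨅ i, min (l + r (e i) - s (e i)) (k' + l - (l + r (e i) - s (e i)))) =
      ⨅ j : J, min (l + r j - s j) (k' + s j - r j) := by
    rw [← hsj.iInf_comp (fun j : J => min (l + r j - s j) (k' + s j - r j))]
    exact iInf_congr fun i => by rw [(haw i).2.2]
  have h2 : (⨅ i, min (r (e i)) (k' - r (e i))) = ⨅ j : J, min (r j) (k' - r j) :=
    hsj.iInf_comp (fun j : J => min (r j) (k' - r j))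
  rw [h1, h2]

end

end Pool.Agent.Helper80.Sec
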