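import Pool.Agent.Helper80.Sec.RedSec

/-!
The four secant subspaces attached to the flags.
-/

namespace Pool.Agent.Helper80.Sec

open Polynomial Module

/-- The reduction attached to the flags. -/
theorem flag_setup {n m k' l : ℕ} {b r s : Fin m → ℕ} (hn : k' + ∑ j, b j + l = n)
    {J : Finset (Fin m)} (hJ : J.card = 4) (hsl : ∀ j, s j ≤ l)
    (hw : ∀ j ∈ J, s j < l + r j ∧ r j < k' + s j)
    {I : Fin m → Set (OnePoint ℝ)} (hdis : ∀ i j, i ≠ j → Disjoint (I i) (I j))
    {F : Fin m → ℕ → Submodule ℂ (Fin n → ℂ)} (hF : ∀ j, IsSecantFlag n (I j) (F j)) :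
    ∃ (e : Fin 4 → Fin m) (f : (Fin n → ℂ) →ₗ[ℂ] (Fin (k' + l) → ℂ))
      (T : Fin 4 → List (OnePoint ℝ)),
      Function.Injective e ∧ (∀ i, e i ∈ J) ∧ (∀ j ∈ J, ∃ i, e i = j) ∧
      Function.Surjective f ∧ LinearMap.ker f = ⨆ j, F j (b j) ∧
      finrank ℂ ↥(LinearMap.ker f) = ∑ j, b j ∧
      (∀ v, f (cjF n v) = cjF (k' + l) (f v)) ∧
      (∀ i, ∀ t ∈ T i, t ∈ I (e i)) ∧ (∀ i, (T i).length = l + r (e i) - s (e i)) ∧
      (∀ rep : OnePoint ℝ → ℝ × ℝ, (∀ t, IsRep t (rep t)) → ∀ i,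
        (F (e i) (b (e i) + (l + r (e i) - s (e i)))).map f = SecSp (k' + l) ((T i).map rep)) ∧
      (∀ i, finrank ℂ ↥(F (e i) (b (e i) + (l + r (e i) - s (e i))) ⊓ LinearMap.ker f) =
        b (e i)) := by
  classical
  have hJne : J.Nonempty := by rw [← Finset.card_pos]; omega
  obtain ⟨j0, hj0⟩ := hJne
  have hpos : 0 < k' + l := by
    have h1 := hw j0 hj0
    have h2 := hsl j0
    omega
  have hbS : ∀ j, b j ≤ ∑ j, b j := fun j =>
    Finset.single_le_sum (f := b) (fun _ _ => Nat.zero_le _) (Finset.mem_univ j)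
  obtain ⟨u, hu⟩ : ∃ u : Fin m → ℕ, u = fun j =>
    if j ∈ J then b j + (l + r j - s j) else b j := ⟨_, rfl⟩
  have hu1 : ∀ j ∈ J, u j = b j + (l + r j - s j) := fun j hj => by rw [hu]; exact if_pos hj
  have hu2 : ∀ j, j ∉ J → u j = b j := fun j hj => by rw [hu]; exact if_neg hj
  have hbu : ∀ j, b j ≤ u j := by
    intro j
    by_cases hj : j ∈ J
    · rw [hu1 j hj]; omega
    · rw [hu2 j hj]
  have hun : ∀ j, u j < n := by
    intro j
    have h1 := hbS j
    by_cases hj : j ∈ J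
    · rw [hu1 j hj]
      have h2 := hw j hj
      omega
    · rw [hu2 j hj]
      omega
  have hdimu : ∀ j, finrank ℂ (F j (u j)) = u j := fun j => (hF j).dim _ (hun j).le
  have hdimb : ∀ j, finrank ℂ (F j (b j)) = b j :=
    fun j => (hF j).dim _ ((hbu j).trans (hun j).le)
  have hnest := fun j => exists_nested (n := n)
    ((hF j).gen (i := b j) (lt_of_le_of_lt (hbu j) (hun j)))
    ((hF j).gen (hun j)) ((hF j).mono _ _ (hbu j) (hun j).le) (by rw [hdimu]; exact hun j)
  choose B L hB hBL hBI hLI hrepW using hnest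
  have hBlen : ∀ j, (B j).length = b j := fun j => by rw [hB, hdimb]
  have hsb : ∑ j, (B j).length = ∑ j, b j := Finset.sum_congr rfl fun j _ => hBlen j
  have hBn : ∑ j, (B j).length ≤ n := by rw [hsb]; omega
  have hN : k' + l = n - ∑ j, (B j).length := by rw [hsb]; omega
  set rep0 : OnePoint ℝ → ℝ × ℝ := fun t => t.elim (1, 0) (fun s => (s, 1)) with hrepdef
  have hrep0 : ∀ t, IsRep t (rep0 t) := by
    intro t
    induction t using OnePoint.rec with
    | infty => exact ⟨rfl, one_ne_zero⟩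
    | coe t => exact ⟨one_ne_zero, by simp [hrepdef]⟩
  let e : Fin 4 → Fin m := fun i => J.orderEmbOfFin hJ i
  have heinj : Function.Injective e := (J.orderEmbOfFin hJ).injective
  have heJ : ∀ i, e i ∈ J := fun i => J.orderEmbOfFin_mem hJ i
  have hesurj : ∀ j ∈ J, ∃ i, e i = j := by
    intro j hj
    have h1 := J.range_orderEmbOfFin hJ
    have h2 : j ∈ Set.range (J.orderEmbOfFin hJ) := by rw [h1]; exact hj
    exact h2
  have hLlen : ∀ j ∈ J, (L j).length = l + r j - s j := fun j hj => by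
    have h1 := hBL j
    rw [List.length_append, hBlen, hdimu, hu1 j hj] at h1
    omega
  have hLN : ∀ j ∈ J, (L j).length ≤ k' + l := fun j hj => by
    rw [hLlen j hj]
    have := hw j hj
    omega
  have hBLn : ∀ j, (B j ++ L j).length ≤ n := fun j => by
    rw [hBL, hdimu]; exact (hun j).le
  refine ⟨e, redMap n (k' + l) (∏ j, Dl rep0 (B j)), fun i => L (e i), heinj, heJ, hesurj,
    red_surj hdis hrep0 hBI hBn hN, ?_, ?_, fun v => redMap_cj _ v, fun i => hLI _,
    fun i => hLlen _ (heJ i), ?_, ?_⟩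
  · rw [ker_red_eq hdis hrep0 hBI hBn hN]
    exact iSup_congr fun j => ((hrepW j rep0 hrep0).1).symm
  · rw [finrank_ker_red hdis hrep0 hBI hBn hN, hsb]
  · intro rep hrep i
    rw [← hu1 _ (heJ i), (hrepW (e i) rep0 hrep0).2,
      map_red_eq hdis hrep0 hBI hBn hN (hLI (e i)) (hBLn _) (hLN _ (heJ i))]
    exact SecSp_rep hrep0 hrep _
  · intro i
    rw [← hu1 _ (heJ i), (hrepW (e i) rep0 hrep0).2,
      finrank_inf_ker_red hdis hrep0 hBI hBn hN (hLI (e i)) (hBLn _) (hLN _ (heJ i)), hBlen]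

end Pool.Agent.Helper80.Sec
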