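import Pool.Agent.Helper80.Sec.QuadMain

/-!
From products of linear forms to quadruples with sign variation properties.
-/

namespace Pool.Agent.Helper80.Sec

open Polynomial

/-- bracket of two vectors of the plane -/
def br (a b : ℝ × ℝ) : ℝ := a.1 * b.2 - a.2 * b.1

theorem br_anti (a b : ℝ × ℝ) : br a b = - br b a := by
  simp only [br]; ring

/-- the linear form vanishing at the point `a.1 / a.2` of the projective line -/
noncomputable def lf (a : ℝ × ℝ) : ℝ[X] := C a.2 * X - C a.1

theorem lf_rel (a c t : ℝ × ℝ) : C (br a c) * lf t = C (br t c) * lf a + C (br a t) * lf c := by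
  simp only [lf, br, map_sub, map_mul]
  ring

theorem lf_natDegree (a : ℝ × ℝ) : (lf a).natDegree ≤ 1 := by
  unfold lf
  refine (natDegree_sub_le _ _).trans ?_
  simp only [natDegree_C, zero_le, sup_of_le_left]
  exact (natDegree_C_mul_le _ _).trans natDegree_X_le

variable {n : ℕ}

/-- pairing of a vector with the coefficients of a polynomial -/
noncomputable def pair (v : Fin n → ℂ) (q : ℝ[X]) : ℂ := ∑ i : Fin n, v i * (q.coeff i : ℂ)

theorem pair_add_right (v : Fin n → ℂ) (q q' : ℝ[X]) : pair v (q + q') = pair v q + pair v q' := by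
  simp only [pair, coeff_add, Complex.ofReal_add, mul_add, Finset.sum_add_distrib]

theorem pair_C_mul (v : Fin n → ℂ) (c : ℝ) (q : ℝ[X]) : pair v (C c * q) = (c : ℂ) * pair v q := by
  simp only [pair, coeff_C_mul, Complex.ofReal_mul, Finset.mul_sum]
  exact Finset.sum_congr rfl fun i _ => by ring

theorem pair_add_left (v w : Fin n → ℂ) (q : ℝ[X]) : pair (v + w) q = pair v q + pair w q := by
  simp only [pair, Pi.add_apply, add_mul, Finset.sum_add_distrib]

theorem pair_smul_left (c : ℂ) (v : Fin n → ℂ) (q : ℝ[X]) : pair (c • v) q = c * pair v q := by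
  simp only [pair, Pi.smul_apply, smul_eq_mul, Finset.mul_sum]
  exact Finset.sum_congr rfl fun i _ => by ring

theorem pair_sum_right {ι : Type*} (v : Fin n → ℂ) (s : Finset ι) (q : ι → ℝ[X]) :
    pair v (∑ i ∈ s, q i) = ∑ i ∈ s, pair v (q i) := by
  classical
  induction s using Finset.induction_on with
  | empty => simp [pair]
  | insert a s ha ih => rw [Finset.sum_insert ha, Finset.sum_insert ha, pair_add_right, ih]

theorem pair_eq_zero_of_X_pow {v : Fin n → ℂ} (h : ∀ m, m < n → pair v (X ^ m) = 0) : v = 0 := by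
  funext i
  have := h i i.2
  simp only [pair, coeff_X_pow] at this
  rw [Finset.sum_eq_single i] at this
  · simpa using this
  · intro b _ hb
    have : (b : ℕ) ≠ i := fun hc => hb (Fin.ext hc)
    simp [this]
  · intro h; exact absurd (Finset.mem_univ i) h

/-- The vectors annihilated by the multiples of degree `< n` of the product of the linear forms
of the list `L`: the span of the osculating spaces at the points of `L`. -/
noncomputable def SecSp (n : ℕ) (L : List (ℝ × ℝ)) : Submodule ℂ (Fin n → ℂ) where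
  carrier := {v | ∀ m, m + L.length < n → pair v ((L.map lf).prod * X ^ m) = 0}
  add_mem' := by
    intro v w hv hw m hm
    rw [pair_add_left, hv m hm, hw m hm, add_zero]
  zero_mem' := by
    intro m _
    simp [pair]
  smul_mem' := by
    intro c v hv m hm
    rw [pair_smul_left, hv m hm, mul_zero]

theorem mem_SecSp {L : List (ℝ × ℝ)} {v : Fin n → ℂ} :
    v ∈ SecSp n L ↔ ∀ m, m + L.length < n → pair v ((L.map lf).prod * X ^ m) = 0 := Iff.rfl

theorem pair_mul_of_mem {L : List (ℝ × ℝ)} {v : Fin n → ℂ} (hv : v ∈ SecSp n L) {q : ℝ[X]}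
    (hq : q.natDegree + L.length < n) : pair v ((L.map lf).prod * q) = 0 := by
  have h1 : (L.map lf).prod * q = ∑ m ∈ Finset.range (q.natDegree + 1),
      C (q.coeff m) * ((L.map lf).prod * X ^ m) := by
    nth_rewrite 1 [q.as_sum_range_C_mul_X_pow]
    rw [Finset.mul_sum]
    exact Finset.sum_congr rfl fun m _ => by ring
  rw [h1, pair_sum_right]
  refine Finset.sum_eq_zero fun m hm => ?_
  rw [pair_C_mul, hv m (by have := Finset.mem_range.1 hm; omega), mul_zero]

/-- generalized Bernstein polynomials -/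
noncomputable def FB (a c : ℕ → ℝ × ℝ) (k i : ℕ) : ℝ[X] :=
  (∏ l ∈ Finset.range i, lf (a l)) * ∏ l ∈ Finset.range (k - i), lf (c l)

theorem prod_lf_natDegree (a : ℕ → ℝ × ℝ) (k : ℕ) :
    (∏ l ∈ Finset.range k, lf (a l)).natDegree ≤ k := by
  refine (natDegree_prod_le _ _).trans ?_
  refine (Finset.sum_le_sum fun l _ => lf_natDegree (a l)).trans ?_
  simp

theorem FB_natDegree (a c : ℕ → ℝ × ℝ) {k i : ℕ} (h : i ≤ k) : (FB a c k i).natDegree ≤ k := by
  refine natDegree_mul_le.trans ?_
  have h1 := prod_lf_natDegree a i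
  have h2 := prod_lf_natDegree c (k - i)
  omega

theorem FB_succ_succ (a c : ℕ → ℝ × ℝ) {k i : ℕ} :
    FB a c (k + 1) (i + 1) = FB a c k i * lf (a i) := by
  simp only [FB]
  rw [Finset.prod_range_succ, Nat.add_sub_add_right]
  ring

theorem FB_succ (a c : ℕ → ℝ × ℝ) {k i : ℕ} (h : i ≤ k) :
    FB a c (k + 1) i = FB a c k i * lf (c (k - i)) := by
  simp only [FB]
  have : k + 1 - i = (k - i) + 1 := by omega
  rw [this, Finset.prod_range_succ]
  ring

theorem lf_mul_FB (a c : ℕ → ℝ × ℝ) (t : ℝ × ℝ) {k i : ℕ} (h : i ≤ k)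
    (hb : br (a i) (c (k - i)) ≠ 0) :
    lf t * FB a c k i =
      C (br t (c (k - i)) / br (a i) (c (k - i))) * FB a c (k + 1) (i + 1) +
      C (br (a i) t / br (a i) (c (k - i))) * FB a c (k + 1) i := by
  have h1 := lf_rel (a i) (c (k - i)) t
  rw [FB_succ_succ, FB_succ a c h]
  have hC : C (br (a i) (c (k - i))) ≠ (0 : ℝ[X]) := by
    rw [Ne, C_eq_zero]; exact hb
  apply mul_left_cancel₀ hC
  have e1 : C (br (a i) (c (k - i))) * C (br t (c (k - i)) / br (a i) (c (k - i)))
      = (C (br t (c (k - i))) : ℝ[X]) := by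
    rw [← C_mul]; congr 1; field_simp
  have e2 : C (br (a i) (c (k - i))) * C (br (a i) t / br (a i) (c (k - i)))
      = (C (br (a i) t) : ℝ[X]) := by
    rw [← C_mul]; congr 1; field_simp
  calc C (br (a i) (c (k - i))) * (lf t * FB a c k i)
      = (C (br (a i) (c (k - i))) * lf t) * FB a c k i := by ring
    _ = (C (br t (c (k - i))) * lf (a i) + C (br (a i) t) * lf (c (k - i))) * FB a c k i := by
        rw [h1]
    _ = (C (br (a i) (c (k - i))) * C (br t (c (k - i)) / br (a i) (c (k - i)))) *
          (FB a c k i * lf (a i)) +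
        (C (br (a i) (c (k - i))) * C (br (a i) t / br (a i) (c (k - i)))) *
          (FB a c k i * lf (c (k - i))) := by rw [e1, e2]; ring
    _ = _ := by ring

/-- coordinates -/
noncomputable def ZF (n : ℕ) (a c : ℕ → ℝ × ℝ) : (Fin n → ℂ) →ₗ[ℂ] (ℕ → ℂ) where
  toFun v := fun i => if i < n then pair v (FB a c (n - 1) i) else 0
  map_add' v w := by
    funext i
    by_cases h : i < n
    · simp [h, pair_add_left]
    · simp [h]
  map_smul' c v := by
    funext i
    by_cases h : i < n
    · simp [h, pair_smul_left]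
    · simp [h]

theorem ZF_apply {a c : ℕ → ℝ × ℝ} (v : Fin n → ℂ) {i : ℕ} (h : i < n) :
    ZF n a c v i = pair v (FB a c (n - 1) i) := by
  simp [ZF, h]

theorem ZF_apply_ge {a c : ℕ → ℝ × ℝ} (v : Fin n → ℂ) {i : ℕ} (h : n ≤ i) :
    ZF n a c v i = 0 := by
  simp [ZF, not_lt.2 h]

theorem natDegree_mul_lf_le {G : ℝ[X]} {d : ℕ} (h : G.natDegree ≤ d) (t : ℝ × ℝ) :
    (G * lf t).natDegree ≤ d + 1 := by
  refine natDegree_mul_le.trans ?_
  have := lf_natDegree t
  omega

/-- the generalized Bernstein polynomials separate points -/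
theorem ZF_injective {a c : ℕ → ℝ × ℝ} (hb : ∀ i j, br (a i) (c j) ≠ 0) :
    Function.Injective (ZF n a c) := by
  rw [← LinearMap.ker_eq_bot, LinearMap.ker_eq_bot']
  intro v hv
  rcases Nat.eq_zero_or_pos n with hn | hn
  · subst hn; exact Subsingleton.elim _ _
  have key : ∀ d : ℕ, d ≤ n - 1 → ∀ i, i ≤ n - 1 - d → ∀ m, m ≤ d →
      pair v (X ^ m * FB a c (n - 1 - d) i) = 0 := by
    intro d
    induction d with
    | zero =>
      intro _ i hi m hm
      have : m = 0 := by omega
      subst this
      rw [pow_zero, one_mul, Nat.sub_zero, ← ZF_apply v (by omega), hv]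
      rfl
    | succ d ih =>
      intro hd i hi m hm
      have ihd := ih (by omega)
      have hk : n - 1 - d = (n - 1 - (d + 1)) + 1 := by omega
      rw [hk] at ihd
      set k := n - 1 - (d + 1) with hkdef
      -- write `X^m` as a linear form times a power of degree `≤ d`
      rcases Nat.eq_zero_or_pos m with hm0 | hm0
      · subst hm0
        have h1 : (1 : ℝ[X]) = lf (-1, 0) := by simp [lf]
        rw [pow_zero]
        nth_rewrite 1 [h1]
        rw [lf_mul_FB a c _ hi (hb _ _), pair_add_right, pair_C_mul, pair_C_mul]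
        have i1 := ihd (i + 1) (by omega) 0 (by omega)
        have i2 := ihd i (by omega) 0 (by omega)
        rw [pow_zero, one_mul] at i1 i2
        rw [i1, i2]; simp
      · obtain ⟨m', rfl⟩ : ∃ m', m = m' + 1 := ⟨m - 1, by omega⟩
        have h1 : (X : ℝ[X]) = lf (0, 1) := by simp [lf]
        have h2 : X ^ (m' + 1) * FB a c k i = X ^ m' * (lf (0, 1) * FB a c k i) := by
          rw [← h1]; ring
        rw [h2, lf_mul_FB a c _ hi (hb _ _), mul_add, pair_add_right]
        have i1 := ihd (i + 1) (by omega) m' (by omega)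
        have i2 := ihd i (by omega) m' (by omega)
        have e1 : ∀ (z : ℝ) (f : ℝ[X]), X ^ m' * (C z * f) = C z * (X ^ m' * f) := fun z f => by ring
        rw [e1, e1, pair_C_mul, pair_C_mul, i1, i2]; simp
  apply pair_eq_zero_of_X_pow
  intro m hm
  have := key (n - 1) le_rfl 0 (by omega) m (by omega)
  simpa [FB] using this

/-- sign variation property -/
theorem alt_of_mem {a c : ℕ → ℝ × ℝ} {L : List (ℝ × ℝ)} (hL : L.length < n) (σ : ℝ)
    (hσ : σ = 1 ∨ σ = -1)
    (hac : ∀ i j, 0 < br (c j) (a i))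
    (ha : ∀ i, ∀ t ∈ L, 0 < br t (a i))
    (hc : ∀ j, ∀ t ∈ L, σ * br t (c j) < 0)
    {v : Fin n → ℂ} (hv : v ∈ SecSp n L)
    (hne : (fun i => σ ^ i * (ZF n a c v i).re) ≠ 0) :
    Alt (fun i => σ ^ i * (ZF n a c v i).re) (n - L.length + 1) := by
  classical
  set t : ℕ → ℝ × ℝ := fun l => if h : l < L.length then L[l] else (0, 0) with ht
  have hprod : ∏ l ∈ Finset.range L.length, lf (t l) = (L.map lf).prod := by
    rw [← Fin.prod_univ_eq_prod_range (fun l => lf (t l)) L.length]
    rw [← List.prod_ofFn]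
    congr 1
    apply List.ext_getElem
    · simp
    · intro l h1 h2
      simp [ht]
  set w : ℕ → ℕ → ℝ := fun k i => if i ≤ k then
    σ ^ i * (pair v ((∏ l ∈ Finset.range (n - 1 - k), lf (t l)) * FB a c k i)).re else 0 with hw
  have hσ2 : σ * σ = 1 := by rcases hσ with h | h <;> rw [h] <;> norm_num
  have hσ0 : σ ≠ 0 := by rcases hσ with h | h <;> rw [h] <;> norm_num
  have main := alt_chain (K := n - 1 - L.length) (n := n - 1) w ?_ ?_ ?_ (n - 1) (by omega) le_rfl
  · have hfin : w (n - 1) = fun i => σ ^ i * (ZF n a c v i).re := by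
      funext i
      by_cases h : i ≤ n - 1
      · simp only [hw, h, if_true]
        rw [ZF_apply v (by omega)]
        simp
      · simp only [hw, h, if_false]
        rw [ZF_apply_ge v (by omega)]
        simp
    rw [hfin] at main
    have := main hne
    exact this.mono (by omega)
  · intro k _ _ i hi
    simp [hw, not_le.2 hi]
  · funext i
    by_cases h : i ≤ n - 1 - L.length
    · simp only [hw, h, if_true]
      have h1 : n - 1 - (n - 1 - L.length) = L.length := by omega
      rw [h1, hprod, pair_mul_of_mem hv]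
      · simp
      · have := FB_natDegree a c h
        omega
    · simp [hw, h]
  · intro k hk1 hk2 i hi
    have hlt : n - 1 - (k + 1) < L.length := by omega
    have hmem : t (n - 1 - (k + 1)) ∈ L := by
      simp only [ht, hlt, dif_pos]
      exact List.getElem_mem _
    set s := t (n - 1 - (k + 1)) with hs
    have hbr : br (a i) (c (k - i)) < 0 := by
      rw [br_anti]; have := hac i (k - i); linarith
    have hbr0 : br (a i) (c (k - i)) ≠ 0 := hbr.ne
    refine ⟨σ * (br s (c (k - i)) / br (a i) (c (k - i))), br (a i) s / br (a i) (c (k - i)),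
      ?_, ?_, ?_⟩
    · rw [← mul_div_assoc]
      exact div_pos_of_neg_of_neg (hc _ _ hmem) hbr
    · refine div_pos_of_neg_of_neg ?_ hbr
      rw [br_anti]; have := ha i _ hmem; linarith
    · have hi' : i ≤ k + 1 := by omega
      have hi'' : i + 1 ≤ k + 1 := by omega
      simp only [hw, hi, hi', hi'', if_true]
      have e1 : n - 1 - k = (n - 1 - (k + 1)) + 1 := by omega
      rw [e1, Finset.prod_range_succ, ← hs]
      have e2 : (∏ l ∈ Finset.range (n - 1 - (k + 1)), lf (t l)) * lf s * FB a c k i =
          C (br s (c (k - i)) / br (a i) (c (k - i))) *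
            ((∏ l ∈ Finset.range (n - 1 - (k + 1)), lf (t l)) * FB a c (k + 1) (i + 1)) +
          C (br (a i) s / br (a i) (c (k - i))) *
            ((∏ l ∈ Finset.range (n - 1 - (k + 1)), lf (t l)) * FB a c (k + 1) i) := by
        rw [mul_assoc, lf_mul_FB a c s hi hbr0]
        ring
      rw [e2, pair_add_right, pair_C_mul, pair_C_mul, Complex.add_re, Complex.re_ofReal_mul,
        Complex.re_ofReal_mul, pow_succ]
      have e3 : ∀ A B x y : ℝ, σ ^ i * (A * x + B * y) = σ * A * (σ ^ i * σ * x) + B * (σ ^ i * y) := by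
        intro A B x y
        have : σ * A * (σ ^ i * σ * x) = (σ * σ) * (σ ^ i * (A * x)) := by ring
        rw [this, hσ2]; ring
      exact e3 _ _ _ _

end Pool.Agent.Helper80.Sec
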