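import Pool.Agent.Helper80.Sec.GoodV
import Pool.Agent.Helper80.Sec.CutFlag

/-!
From positive coordinates to the primal and the dual quadruple.
-/

namespace Pool.Agent.Helper80.Sec

open Module

/-- positive coordinates on `V` for the four subspaces `W (π i)` -/
def Frame4 {V : Type*} [AddCommGroup V] [Module ℂ V] (σ : V → V) (N : ℕ) (w : Fin 4 → ℕ)
    (W : Fin 4 → Submodule ℂ V) (π : Equiv.Perm (Fin 4)) : Prop :=
  ∃ Z : V →ₗ[ℂ] (ℕ → ℂ), Fr ⊤ N Z ∧
    (∀ v ∈ W (π 0), ∀ i, w (π 0) ≤ i → Z v i = 0) ∧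
    (∀ v ∈ W (π 2), ∀ i, i < N - w (π 2) → Z v i = 0) ∧
    (∃ K : ℕ → Submodule ℂ V, Chain Z N (N - w (π 1)) K ∧ K (N - w (π 1)) = W (π 1)) ∧
    (∃ K : ℕ → Submodule ℂ V, Chain (twMap.comp Z) N (N - w (π 3)) K ∧
      K (N - w (π 3)) = W (π 3)) ∧
    ∀ v i, Z (σ v) i = (starRingEnd ℂ) (Z v i)

section

variable {V : Type*} [AddCommGroup V] [Module ℂ V] [FiniteDimensional ℂ V]
variable {N k l : ℕ} {r s w : Fin 4 → ℕ} {W : Fin 4 → Submodule ℂ V} {π : Equiv.Perm (Fin 4)}
variable {σ : V →ₛₗ[starRingEnd ℂ] V}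

theorem frameP (hkl : k + l = N) (hrk : ∀ j, r j ≤ k) (hsl : ∀ j, s j ≤ l)
    (hwd : ∀ j, w j = l + r j - s j) (hwN : ∀ j, w j ≤ N)
    (hV : finrank ℂ V = N) (hWd : ∀ j, finrank ℂ (W j) = w j)
    (hWr : ∀ j, ∀ v ∈ W j, σ v ∈ W j)
    (hwsum : w (π 0) + w (π 1) + w (π 2) + w (π 3) = 2 * N)
    (hle : w (π 0) + w (π 2) ≤ N)
    (h02 : r (π 0) + r (π 2) = k) (h13 : r (π 1) + r (π 3) = k)
    (p01 : r (π 0) + r (π 1) = k ∨ s (π 0) + s (π 1) = l)
    (p03 : r (π 0) + r (π 3) = k ∨ s (π 0) + s (π 3) = l)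
    (hF : Frame4 σ N w W π) :
    GoodV σ k r W ((⨅ j, min (w j) (N - w j)).choose (⨅ j, min (r j) (k - r j))) := by
  obtain ⟨Z, hZ, hlo, hhi, ⟨K2, c2, k2⟩, ⟨K4, c4, k4⟩, hcj⟩ := hF
  have g0 := hwN (π 0)
  have g1 := hwN (π 1)
  have g2 := hwN (π 2)
  have g3 := hwN (π 3)
  have v2 := Chain.va _ c2 le_rfl
  have v4 := Chain.va _ c4 le_rfl
  rw [k2] at v2
  rw [k4] at v4
  obtain ⟨Q, hQ⟩ : ∃ Q : Quad V, Q =
    { Z := Z
      U1 := W (π 0)
      U2 := W (π 1)
      U3 := W (π 2)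
      U4 := W (π 3)
      p := w (π 0)
      q := N - w (π 2)
      N := N
      e2 := N - w (π 1)
      e4 := N - w (π 3)
      inj := by
        rw [← LinearMap.ker_eq_bot, LinearMap.ker_eq_bot']
        exact fun v hv => hZ.inj v Submodule.mem_top hv
      hpq := by omega
      hqN := Nat.sub_le _ _
      hsum := by omega
      h1 := hlo
      h3 := fun v hv i hi => by
        rcases hi with hi | hi
        · exact hhi v hv i hi
        · exact hZ.supp v Submodule.mem_top i hi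
      h2 := fun v hv hne => v2 v hv hne
      h4 := fun v hv hne => by
        have q1 : reS ((twMap.comp Z) v) = tw (reS (Z v)) := reS_twMap _
        have q2 := v4 v hv (by rw [q1]; exact tw_ne_zero hne)
        rw [q1] at q2
        exact q2 } := ⟨_, rfl⟩
  exact goodP hkl hrk hsl hwd hwN hV hWd Q (by rw [hQ]) (by rw [hQ]) (by rw [hQ]) (by rw [hQ])
    (by rw [hQ]) (by rw [hQ]) (by rw [hQ]) (by rw [hQ]) (by rw [hQ]) σ (by rw [hQ]; exact hcj)
    hWr hwsum hle h02 h13 p01 p03

theorem frameD (hkl : k + l = N) (hsl : ∀ j, s j ≤ l)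
    (hwd : ∀ j, w j = l + r j - s j) (hwN : ∀ j, w j ≤ N)
    (hV : finrank ℂ V = N) (hWd : ∀ j, finrank ℂ (W j) = w j)
    (hWr : ∀ j, ∀ v ∈ W j, σ v ∈ W j)
    (hwsum : w (π 0) + w (π 1) + w (π 2) + w (π 3) = 2 * N)
    (hle : N ≤ w (π 0) + w (π 2))
    (h20 : s (π 2) + s (π 0) = l) (h31 : s (π 3) + s (π 1) = l)
    (p23 : r (π 2) + r (π 3) = k ∨ s (π 2) + s (π 3) = l)
    (p21 : r (π 2) + r (π 1) = k ∨ s (π 2) + s (π 1) = l)
    (hF : Frame4 σ N w W π) :
    GoodV σ k r W ((⨅ j, min (w j) (N - w j)).choose (⨅ j, min (s j) (l - s j))) := by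
  obtain ⟨Z, hZ, hlo, hhi, ⟨K2, c2, k2⟩, ⟨K4, c4, k4⟩, hcj⟩ := hF
  have g0 := hwN (π 0)
  have g1 := hwN (π 1)
  have g2 := hwN (π 2)
  have g3 := hwN (π 3)
  obtain ⟨b, -, hbZ, hbs⟩ := hZ.exists_basis
  have hbs' : ∀ v, v = ∑ i ∈ Finset.range N, Z v i • b i := fun v => hbs v Submodule.mem_top
  -- the basis vectors in `U1` and `U3`
  have hb1 : ∀ i, i < w (π 0) → b i ∈ W (π 0) := by
    intro i hi
    obtain ⟨C, hC⟩ : ∃ C : Submodule ℂ V, ∀ v, v ∈ C ↔ ∀ i, w (π 0) ≤ i → Z v i = 0 :=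
      ⟨{ carrier := {v | ∀ i, w (π 0) ≤ i → Z v i = 0}
         add_mem' := fun {a b} ha hb i hi => by
           rw [map_add, Pi.add_apply, ha i hi, hb i hi, add_zero]
         zero_mem' := fun i _ => by rw [map_zero]; rfl
         smul_mem' := fun c v hv i hi => by
           rw [map_smul, Pi.smul_apply, hv i hi, smul_zero] }, fun v => Iff.rfl⟩
    have h1 : W (π 0) = C := by
      apply Submodule.eq_of_le_of_finrank_le (fun v hv => (hC v).2 (hlo v hv))
      rw [hWd]
      exact hZ.le_of_lo le_top (fun v hv => (hC v).1 hv)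
    rw [h1, hC]
    intro l hl
    rw [hbZ i (by omega), if_neg (by omega)]
  have hb3 : ∀ i, i < N → N - w (π 2) ≤ i → b i ∈ W (π 2) := by
    intro i hi hi'
    obtain ⟨C, hC⟩ : ∃ C : Submodule ℂ V, ∀ v, v ∈ C ↔ ∀ i, i < N - w (π 2) → Z v i = 0 :=
      ⟨{ carrier := {v | ∀ i, i < N - w (π 2) → Z v i = 0}
         add_mem' := fun {a b} ha hb i hi => by
           rw [map_add, Pi.add_apply, ha i hi, hb i hi, add_zero]
         zero_mem' := fun i _ => by rw [map_zero]; rfl
         smul_mem' := fun c v hv i hi => by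
           rw [map_smul, Pi.smul_apply, hv i hi, smul_zero] }, fun v => Iff.rfl⟩
    have h1 : W (π 2) = C := by
      apply Submodule.eq_of_le_of_finrank_le (fun v hv => (hC v).2 (hhi v hv))
      rw [hWd]
      have h2 := hZ.le_of_hi le_top (fun v hv => (hC v).1 hv)
      rwa [Nat.sub_sub_self g2] at h2
    rw [h1, hC]
    intro l hl
    rw [hbZ i hi, if_neg (by omega)]
  -- the dual coordinates
  obtain ⟨Y, hY1, hY2⟩ : ∃ Y : Dual ℂ V →ₗ[ℂ] (ℕ → ℂ), (∀ f i, i < N → Y f i = f (b i)) ∧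
      ∀ f i, N ≤ i → Y f i = 0 :=
    ⟨{ toFun := fun f i => if i < N then f (b i) else 0
       map_add' := fun f g => by
         funext i
         by_cases h : i < N
         · simp [h]
         · simp [h]
       map_smul' := fun c f => by
         funext i
         by_cases h : i < N
         · simp [h]
         · simp [h] },
      fun f i hi => if_pos hi, fun f i hi => if_neg (by omega)⟩
  have hsum : ∀ (f : Dual ℂ V) (v : V), f v = ∑ i ∈ Finset.range N, Y f i * Z v i := by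
    intro f v
    conv_lhs => rw [hbs' v]
    rw [map_sum]
    refine Finset.sum_congr rfl fun i hi => ?_
    rw [map_smul, smul_eq_mul, hY1 f i (Finset.mem_range.1 hi), mul_comm]
  have hσb : ∀ i, i < N → σ (b i) = b i := by
    intro i hi
    rw [← sub_eq_zero]
    refine hZ.inj _ Submodule.mem_top ?_
    funext l
    rw [map_sub, Pi.sub_apply, hcj, hbZ i hi, Pi.zero_apply]
    by_cases h : l = i
    · rw [if_pos h, map_one, sub_self]
    · rw [if_neg h, map_zero, sub_self]
  obtain ⟨Q, hQ⟩ : ∃ Q : Quad (Dual ℂ V), Q =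
    { Z := Y
      U1 := dperp (W (π 2))
      U2 := dperp (W (π 3))
      U3 := dperp (W (π 0))
      U4 := dperp (W (π 1))
      p := N - w (π 2)
      q := w (π 0)
      N := N
      e2 := w (π 3)
      e4 := w (π 1)
      inj := by
        rw [← LinearMap.ker_eq_bot, LinearMap.ker_eq_bot']
        intro f hf
        apply LinearMap.ext
        intro v
        rw [hsum, LinearMap.zero_apply]
        refine Finset.sum_eq_zero fun i _ => ?_
        rw [hf, Pi.zero_apply, zero_mul]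
      hpq := by omega
      hqN := g0
      hsum := by omega
      h1 := fun f hf i hi => by
        rcases Nat.lt_or_ge i N with h | h
        · rw [hY1 f i h]
          exact mem_dperp.1 hf _ (hb3 i h hi)
        · exact hY2 f i h
      h3 := fun f hf i hi => by
        rcases hi with hi | hi
        · rw [hY1 f i (by omega)]
          exact mem_dperp.1 hf _ (hb1 i hi)
        · exact hY2 f i hi
      h2 := fun f hf hne => by
        have q1 := Chain.dual _ c4 le_rfl (twMap (Y f))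
          (fun i hi => twMap_eq_zero.2 (hY2 f i hi)) (fun v hv => by
            rw [k4] at hv
            have q2 := mem_dperp.1 hf v hv
            rw [hsum] at q2
            rw [← q2]
            refine Finset.sum_congr rfl fun i _ => ?_
            show (-1) ^ i * Y f i * ((-1) ^ i * Z v i) = _
            have q3 : (-1 : ℂ) ^ i * (-1) ^ i = 1 := by rw [← mul_pow]; norm_num
            have q4 : (-1) ^ i * Y f i * ((-1) ^ i * Z v i) =
                ((-1 : ℂ) ^ i * (-1) ^ i) * (Y f i * Z v i) := by ring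
            rw [q4, q3, one_mul])
          (by rw [reS_twMap]; exact tw_ne_zero hne)
        rw [reS_twMap, tw_tw, Nat.sub_sub_self g3] at q1
        exact q1
      h4 := fun f hf hne => by
        have q1 := Chain.dual _ c2 le_rfl (Y f) (fun i hi => hY2 f i hi) (fun v hv => by
            rw [k2] at hv
            rw [← hsum]
            exact mem_dperp.1 hf v hv) hne
        rw [Nat.sub_sub_self g1] at q1
        exact q1 } := ⟨_, rfl⟩
  refine goodD hkl hsl hwd hwN hV hWd Q (by rw [hQ]) (by rw [hQ]) (by rw [hQ]) (by rw [hQ])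
    (by rw [hQ]) (by rw [hQ]) (by rw [hQ]) (by rw [hQ]) (by rw [hQ]) σ ?_
    hWr hwsum hle h20 h31 p23 p21
  rw [hQ]
  intro f i
  show Y (cjDual σ f) i = (starRingEnd ℂ) (Y f i)
  rcases Nat.lt_or_ge i N with h | h
  · rw [hY1 _ i h, hY1 _ i h, cjDual_apply, hσb i h]
  · rw [hY2 _ i h, hY2 _ i h, map_zero]

/-- the main theorem for four subspaces with positive coordinates in both cyclic orders -/
theorem coreV {π' : Equiv.Perm (Fin 4)} (hπ' : ∀ i, π' i = π (i + 1))
    (hkl : k + l = N) (hrk : ∀ j, r j ≤ k) (hsl : ∀ j, s j ≤ l)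
    (hwd : ∀ j, w j = l + r j - s j) (hwN : ∀ j, w j ≤ N)
    (hr : ∑ j, r j = 2 * k) (hs : ∑ j, s j = 2 * l)
    (hV : finrank ℂ V = N) (hWd : ∀ j, finrank ℂ (W j) = w j)
    (hWr : ∀ j, ∀ v ∈ W j, σ v ∈ W j)
    (hF : Frame4 σ N w W π) (hF' : Frame4 σ N w W π')
    (hp : ∀ a b, a ≠ b → r a + r b = k ∨ s a + s b = l) :
    GoodV σ k r W ((⨅ j, min (w j) (N - w j)).choose (⨅ j, min (r j) (k - r j))) := by
  have e0 : π' 0 = π 1 := hπ' 0
  have e2 : π' 2 = π 3 := hπ' 2
  have hsw := sum_w hkl hsl hwd hr hs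
  have hw4 := sum_perm4 w π
  have hr4 := sum_perm4 r π
  have hs4 := sum_perm4 s π
  rw [hsw] at hw4
  rw [hr] at hr4
  rw [hs] at hs4
  have hw4' := sum_perm4 w π'
  have hr4' := sum_perm4 r π'
  have hs4' := sum_perm4 s π'
  rw [hsw] at hw4'
  rw [hr] at hr4'
  rw [hs] at hs4'
  have hinj : ∀ i j : Fin 4, i ≠ j → π i ≠ π j := fun i j h => π.injective.ne h
  have hinj' : ∀ i j : Fin 4, i ≠ j → π' i ≠ π' j := fun i j h => π'.injective.ne h
  rcases hp (π 0) (π 2) (hinj _ _ (by decide)) with h02 | h02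
  · have h13 := arith_s hr4 h02
    by_cases hle : w (π 0) + w (π 2) ≤ N
    · exact frameP hkl hrk hsl hwd hwN hV hWd hWr hw4 hle h02 h13
        (hp _ _ (hinj _ _ (by decide))) (hp _ _ (hinj _ _ (by decide))) hF
    · have h02' : r (π' 0) + r (π' 2) = k := by rw [e0, e2]; exact h13
      refine frameP hkl hrk hsl hwd hwN hV hWd hWr hw4' ?_ h02'
        (arith_s hr4' h02')
        (hp _ _ (hinj' _ _ (by decide))) (hp _ _ (hinj' _ _ (by decide))) hF'
      rw [e0, e2]
      exact arith_le hw4 hle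
  · have h13 := arith_s hs4 h02
    have hD : GoodV σ k r W ((⨅ j, min (w j) (N - w j)).choose (⨅ j, min (s j) (l - s j))) := by
      by_cases hle : N ≤ w (π 0) + w (π 2)
      · exact frameD hkl hsl hwd hwN hV hWd hWr hw4 hle
          ((add_comm _ _).trans h02) ((add_comm _ _).trans h13)
          (hp _ _ (hinj _ _ (by decide))) (hp _ _ (hinj _ _ (by decide))) hF
      · have h02' : s (π' 0) + s (π' 2) = l := by rw [e0, e2]; exact h13
        refine frameD hkl hsl hwd hwN hV hWd hWr hw4' ?_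
          ((add_comm _ _).trans h02') ((add_comm _ _).trans (arith_s hs4' h02'))
          (hp _ _ (hinj' _ _ (by decide))) (hp _ _ (hinj' _ _ (by decide))) hF'
        rw [e0, e2]
        exact arith_ge hw4 hle
    have hms := minsum hkl hrk hsl hwd hr hs hp
    rwa [Nat.choose_symm_of_eq_add hms]

end

end Pool.Agent.Helper80.Sec
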