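import Pool.Agent.Helper80.Sec.Frame4

/-!
Dimensions of intersections from positive coordinates.
-/

namespace Pool.Agent.Helper80.Sec

open Module

section

variable {V : Type*} [AddCommGroup V] [Module ℂ V] [FiniteDimensional ℂ V]

theorem coord_va {U : Submodule ℂ V} {Z : V →ₗ[ℂ] (ℕ → ℂ)}
    (hinj : ∀ v ∈ U, Z v = 0 → v = 0) {p q e : ℕ}
    (hsupp : ∀ v ∈ U, ∀ i, (i < p ∨ q ≤ i) → Z v i = 0) (hva : Va Z e U) :
    finrank ℂ U ≤ q - p - e := by
  have h1 := finrank_le_of_coord (U := U) (Z := Z) (Finset.Ico (p + e) q) (fun v hvU h0 => by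
    by_contra hne
    have h2 : Z v ≠ 0 := fun h3 => hne (hinj v hvU h3)
    obtain ⟨c, hc⟩ := exists_reS_ne h2
    have h3 := hva _ (U.smul_mem c hvU) hc
    have h4 := h3.le_of_supp (a := p) (b := p + e) (fun i hi => by
      have h5 : Z v i = 0 := by
        rcases hi with hi | hi
        · exact hsupp v hvU i (Or.inl hi)
        · rcases Nat.lt_or_ge i q with h6 | h6
          · exact h0 i (Finset.mem_Ico.2 ⟨hi, h6⟩)
          · exact hsupp v hvU i (Or.inr h6)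
      simp only [reS]
      rw [map_smul, Pi.smul_apply, h5, smul_zero, Complex.zero_re])
    omega)
  rw [Nat.card_Ico] at h1
  omega

variable {N k l : ℕ} {r s w : Fin 4 → ℕ} {W : Fin 4 → Submodule ℂ V} {π : Equiv.Perm (Fin 4)}
variable {σ : V → V}

omit [FiniteDimensional ℂ V] in
theorem Frame4.dim1 (h : Frame4 σ N w W π) (hw : w (π 1) ≤ N) :
    finrank ℂ (W (π 1)) = w (π 1) := by
  obtain ⟨Z, hZ, hlo, hhi, ⟨K2, c2, k2⟩, ⟨K4, c4, k4⟩, hcj⟩ := h
  have h1 := c2.dim _ le_rfl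
  rw [k2] at h1
  omega

omit [FiniteDimensional ℂ V] in
theorem Frame4.dim3 (h : Frame4 σ N w W π) (hw : w (π 3) ≤ N) :
    finrank ℂ (W (π 3)) = w (π 3) := by
  obtain ⟨Z, hZ, hlo, hhi, ⟨K2, c2, k2⟩, ⟨K4, c4, k4⟩, hcj⟩ := h
  have h1 := c4.dim _ le_rfl
  rw [k4] at h1
  omega

theorem Frame4.inf (h : Frame4 σ N w W π) (hw : ∀ j, w j ≤ N) :
    finrank ℂ ↥(W (π 0) ⊓ W (π 1)) ≤ w (π 0) + w (π 1) - N ∧
    finrank ℂ ↥(W (π 0) ⊓ W (π 2)) ≤ w (π 0) + w (π 2) - N ∧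
    finrank ℂ ↥(W (π 0) ⊓ W (π 3)) ≤ w (π 0) + w (π 3) - N ∧
    finrank ℂ ↥(W (π 1) ⊓ W (π 2)) ≤ w (π 1) + w (π 2) - N ∧
    finrank ℂ ↥(W (π 2) ⊓ W (π 3)) ≤ w (π 2) + w (π 3) - N := by
  obtain ⟨Z, hZ, hlo, hhi, ⟨K2, c2, k2⟩, ⟨K4, c4, k4⟩, hcj⟩ := h
  have g0 := hw (π 0)
  have g1 := hw (π 1)
  have g2 := hw (π 2)
  have g3 := hw (π 3)
  have v2 := Chain.va _ c2 le_rfl
  have v4 := Chain.va _ c4 le_rfl
  rw [k2] at v2
  rw [k4] at v4
  have hinj : ∀ (U : Submodule ℂ V), ∀ v ∈ U, Z v = 0 → v = 0 := fun U v _ h0 =>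
    hZ.inj v Submodule.mem_top h0
  have hinj' : ∀ (U : Submodule ℂ V), ∀ v ∈ U, (twMap.comp Z) v = 0 → v = 0 := fun U v _ h0 =>
    hZ.inj v Submodule.mem_top (funext fun i => twMap_eq_zero.1 (congrFun h0 i))
  refine ⟨?_, ?_, ?_, ?_, ?_⟩
  · have h1 := coord_va (U := W (π 0) ⊓ W (π 1)) (hinj _) (p := 0) (q := w (π 0))
      (fun v hv i hi => hlo v hv.1 i (by omega)) (fun v hv hne => v2 v hv.2 hne)
    omega
  · have h1 := coord_va (U := W (π 0) ⊓ W (π 2)) (Z := Z) (hinj _) (p := N - w (π 2))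
      (q := w (π 0)) (e := 0)
      (fun v hv i hi => by
        rcases hi with hi | hi
        · exact hhi v hv.2 i hi
        · exact hlo v hv.1 i hi) (fun v hv hne => alt_one hne)
    omega
  · have h1 := coord_va (U := W (π 0) ⊓ W (π 3)) (hinj' _) (p := 0) (q := w (π 0))
      (fun v hv i hi => twMap_eq_zero.2 (hlo v hv.1 i (by omega)))
      (fun v hv hne => v4 v hv.2 hne)
    omega
  · have h1 := coord_va (U := W (π 1) ⊓ W (π 2)) (hinj _) (p := N - w (π 2)) (q := N)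
      (fun v hv i hi => by
        rcases hi with hi | hi
        · exact hhi v hv.2 i hi
        · exact hZ.supp v Submodule.mem_top i hi) (fun v hv hne => v2 v hv.1 hne)
    omega
  · have h1 := coord_va (U := W (π 2) ⊓ W (π 3)) (hinj' _) (p := N - w (π 2)) (q := N)
      (fun v hv i hi => by
        rcases hi with hi | hi
        · exact twMap_eq_zero.2 (hhi v hv.1 i hi)
        · exact twMap_eq_zero.2 (hZ.supp v Submodule.mem_top i hi))
      (fun v hv hne => v4 v hv.2 hne)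
    omega

/-- two positions are neighbours or opposite -/
theorem fin4_pairs {P : Fin 4 → Fin 4 → Prop} (hsymm : ∀ a b, P a b → P b a)
    (π π' : Equiv.Perm (Fin 4)) (hπ' : ∀ i, π' i = π (i + 1))
    (h01 : P (π 0) (π 1)) (h02 : P (π 0) (π 2)) (h03 : P (π 0) (π 3))
    (h12 : P (π 1) (π 2)) (h23 : P (π 2) (π 3)) (h02' : P (π' 0) (π' 2)) :
    ∀ a b, a ≠ b → P a b := by
  have h13 : P (π 1) (π 3) := by
    have e0 : π' 0 = π 1 := hπ' 0
    have e2 : π' 2 = π 3 := hπ' 2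
    rwa [e0, e2] at h02'
  intro a b hab
  obtain ⟨i, rfl⟩ := π.surjective a
  obtain ⟨j, rfl⟩ := π.surjective b
  have hij : i ≠ j := fun h => hab (by rw [h])
  fin_cases i <;> fin_cases j
  · exact absurd rfl hij
  · exact h01
  · exact h02
  · exact h03
  · exact hsymm _ _ h01
  · exact absurd rfl hij
  · exact h12
  · exact h13
  · exact hsymm _ _ h02
  · exact hsymm _ _ h12
  · exact absurd rfl hij
  · exact h23
  · exact hsymm _ _ h03
  · exact hsymm _ _ h13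
  · exact hsymm _ _ h23
  · exact absurd rfl hij

section both

variable {π' : Equiv.Perm (Fin 4)} (hπ' : ∀ i, π' i = π (i + 1)) (hwN : ∀ j, w j ≤ N)
variable (hF : Frame4 σ N w W π) (hF' : Frame4 σ N w W π')

include hπ' hwN hF hF'

omit [FiniteDimensional ℂ V] in
theorem frame_dim : ∀ j, finrank ℂ (W j) = w j := by
  have e1 : π' 1 = π 2 := hπ' 1
  have e3 : π' 3 = π 0 := hπ' 3
  refine fin4_cases π ?_ ?_ ?_ ?_
  · rw [← e3]; exact hF'.dim3 (hwN _)
  · exact hF.dim1 (hwN _)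
  · rw [← e1]; exact hF'.dim1 (hwN _)
  · exact hF.dim3 (hwN _)

theorem frame_inf : ∀ a b, a ≠ b → finrank ℂ ↥(W a ⊓ W b) ≤ w a + w b - N := by
  obtain ⟨i1, i2, i3, i4, i5⟩ := hF.inf hwN
  obtain ⟨-, j2, -, -, -⟩ := hF'.inf hwN
  refine fin4_pairs (P := fun a b => finrank ℂ ↥(W a ⊓ W b) ≤ w a + w b - N) ?_ π π' hπ'
    i1 i2 i3 i4 i5 j2
  intro a b h
  rw [inf_comm, add_comm]
  exact h

/-- the necessary condition -/
theorem coreV_pairs (hkl : k + l = N) (hsl : ∀ j, s j ≤ l)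
    (hwd : ∀ j, w j = l + r j - s j)
    (hr : ∑ j, r j = 2 * k) (hs : ∑ j, s j = 2 * l) (hrs : ∑ j, r j * s j = k * l)
    {H : Submodule ℂ V} (hH : finrank ℂ H = k) (hHr : ∀ j, r j ≤ finrank ℂ ↥(H ⊓ W j)) :
    ∀ a b, a ≠ b → r a + r b = k ∨ s a + s b = l := by
  have hinf := frame_inf hπ' hwN hF hF'
  have star : ∀ a b, a ≠ b →
      r a + r b ≤ k + ((l + r a - s a) + (l + r b - s b) - (k + l)) := by
    intro a b hab
    have h1 := hinf a b hab
    rw [hwd, hwd, ← hkl] at h1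
    have h2 := Submodule.finrank_sup_add_finrank_inf_eq (H ⊓ W a) (H ⊓ W b)
    have h3 : finrank ℂ ↥((H ⊓ W a) ⊔ (H ⊓ W b)) ≤ finrank ℂ H :=
      Submodule.finrank_mono (sup_le inf_le_left inf_le_left)
    have h4 : finrank ℂ ↥((H ⊓ W a) ⊓ (H ⊓ W b)) ≤ finrank ℂ ↥(W a ⊓ W b) :=
      Submodule.finrank_mono (inf_le_inf inf_le_right inf_le_right)
    have h5 := hHr a
    have h6 := hHr b
    rw [hH] at h3
    omega
  intro a b hab
  obtain ⟨ρ, rfl, rfl⟩ := exists_perm_pair a b hab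
  have hne : ∀ i j : Fin 4, i ≠ j → ρ i ≠ ρ j := fun i j h => ρ.injective.ne h
  exact pairs_arith (hsl _) (hsl _) (hsl _) (hsl _) (by rw [sum_perm4]; exact hr)
    (by rw [sum_perm4]; exact hs) (by
      rw [← hrs]; exact sum_perm4 (fun j => r j * s j) ρ)
    (star _ _ (hne 0 1 (by decide))) (star _ _ (hne 0 2 (by decide)))
    (star _ _ (hne 0 3 (by decide))) (star _ _ (hne 2 3 (by decide)))
    (star _ _ (hne 1 3 (by decide))) (star _ _ (hne 1 2 (by decide)))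

end both

end

end Pool.Agent.Helper80.Sec
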