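import Pool.Agent.Helper80.Sec.Divisor

/-!
Generalized secant subspaces are the spaces `SecSp`, part 2.
-/

namespace Pool.Agent.Helper80.Sec

open Polynomial Module

variable {n : ℕ}

open Classical in
/-- multiplicity of a point -/
noncomputable def mlt (S : Finset (OnePoint ℝ × ℕ)) (t : OnePoint ℝ) : ℕ :=
  (S.filter (fun x => x.1 = t)).sup Prod.snd

open Classical in
/-- the points of `S` -/
noncomputable def pts (S : Finset (OnePoint ℝ × ℕ)) : Finset (OnePoint ℝ) := S.image Prod.fst

/-- the divisor of `S` as a list -/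
noncomputable def dl (S : Finset (OnePoint ℝ × ℕ)) : List (OnePoint ℝ) :=
  (pts S).toList.flatMap (fun t => List.replicate (mlt S t) t)

theorem le_mlt {S : Finset (OnePoint ℝ × ℕ)} {x : OnePoint ℝ × ℕ} (hx : x ∈ S) :
    x.2 ≤ mlt S x.1 := by
  classical
  exact Finset.le_sup (f := Prod.snd) (Finset.mem_filter.2 ⟨hx, rfl⟩)

theorem exists_of_lt_mlt {S : Finset (OnePoint ℝ × ℕ)} {t : OnePoint ℝ} {k : ℕ}
    (h : k < mlt S t) : ∃ x ∈ S, x.1 = t ∧ k < x.2 := by
  classical
  obtain ⟨x, hx, hk⟩ := (Finset.lt_sup_iff).1 h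
  exact ⟨x, (Finset.mem_filter.1 hx).1, (Finset.mem_filter.1 hx).2, hk⟩

theorem mem_pts {S : Finset (OnePoint ℝ × ℕ)} {t : OnePoint ℝ} :
    t ∈ pts S ↔ ∃ x ∈ S, x.1 = t := by
  classical
  simp [pts]

theorem mlt_eq_zero {S : Finset (OnePoint ℝ × ℕ)} {t : OnePoint ℝ} (h : t ∉ pts S) :
    mlt S t = 0 := by
  by_contra hne
  obtain ⟨x, hx, hxt, _⟩ := exists_of_lt_mlt (Nat.pos_of_ne_zero hne)
  exact h (mem_pts.2 ⟨x, hx, hxt⟩)

theorem mem_dl {S : Finset (OnePoint ℝ × ℕ)} {t : OnePoint ℝ} (h : t ∈ dl S) : t ∈ pts S := by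
  rw [dl, List.mem_flatMap] at h
  obtain ⟨s, hs, ht⟩ := h
  rw [List.mem_replicate] at ht
  rw [ht.2]
  exact Finset.mem_toList.1 hs

theorem prod_flat {α M : Type*} [CommMonoid M] (g : α → M) (m : α → ℕ) (l : List α) :
    ((l.flatMap (fun t => List.replicate (m t) t)).map g).prod
      = (l.map (fun t => g t ^ m t)).prod := by
  induction l with
  | nil => simp
  | cons a l ih =>
    rw [List.flatMap_cons, List.map_append, List.prod_append, ih, List.map_cons, List.prod_cons,
      List.map_replicate, List.prod_replicate]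

theorem length_flat {α : Type*} (m : α → ℕ) (l : List α) :
    (l.flatMap (fun t => List.replicate (m t) t)).length = (l.map m).sum := by
  induction l with
  | nil => simp
  | cons a l ih =>
    rw [List.flatMap_cons, List.length_append, ih, List.map_cons, List.sum_cons,
      List.length_replicate]

/-- the finite points -/
noncomputable def fpts (S : Finset (OnePoint ℝ × ℕ)) : Finset (OnePoint ℝ) := by
  classical
  exact (pts S).erase OnePoint.infty

theorem length_dl (S : Finset (OnePoint ℝ × ℕ)) :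
    (dl S).length = ∑ t ∈ fpts S, mlt S t + mlt S OnePoint.infty := by
  classical
  rw [dl, length_flat, Finset.sum_map_toList]
  by_cases h : OnePoint.infty ∈ pts S
  · rw [fpts, add_comm, Finset.add_sum_erase _ _ h]
  · rw [fpts, Finset.erase_eq_of_notMem h, mlt_eq_zero h, add_zero]

theorem prod_dl (S : Finset (OnePoint ℝ × ℕ)) {rep : OnePoint ℝ → ℝ × ℝ}
    (hrep : ∀ t, IsRep t (rep t)) : ∃ c : ℝ, c ≠ 0 ∧
    (((dl S).map rep).map lf).prod = (∏ t ∈ fpts S, lf (rep t) ^ mlt S t) * C c := by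
  classical
  have h1 : (((dl S).map rep).map lf).prod = ∏ t ∈ pts S, lf (rep t) ^ mlt S t := by
    rw [List.map_map, dl, prod_flat, Finset.prod_map_toList]
    rfl
  by_cases h : OnePoint.infty ∈ pts S
  · refine ⟨(-(rep OnePoint.infty).1) ^ mlt S OnePoint.infty, ?_, ?_⟩
    · have h' : (rep OnePoint.infty).2 = 0 ∧ (rep OnePoint.infty).1 ≠ 0 := hrep OnePoint.infty
      exact pow_ne_zero _ (neg_ne_zero.2 h'.2)
    · rw [h1, fpts, ← Finset.prod_erase_mul _ _ h, lf_of_rep_infty (hrep _), C_pow]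
  · refine ⟨1, one_ne_zero, ?_⟩
    rw [h1, fpts, Finset.erase_eq_of_notMem h, C_1, mul_one]

theorem coe_of_mem_fpts {S : Finset (OnePoint ℝ × ℕ)} {t : OnePoint ℝ} (h : t ∈ fpts S) :
    ∃ s : ℝ, t = (s : OnePoint ℝ) := by
  classical
  rw [fpts, Finset.mem_erase] at h
  induction t using OnePoint.rec with
  | infty => exact absurd rfl h.1
  | coe s => exact ⟨s, rfl⟩

/-- brackets of representatives of distinct points do not vanish -/
theorem br_rep_ne_zero {s t : OnePoint ℝ} {a b : ℝ × ℝ} (hst : s ≠ t) (ha : IsRep s a)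
    (hb : IsRep t b) : br a b ≠ 0 := by
  induction s using OnePoint.rec with
  | infty =>
    have ha' : a.2 = 0 ∧ a.1 ≠ 0 := ha
    induction t using OnePoint.rec with
    | infty => exact absurd rfl hst
    | coe t =>
      have hb' : b.2 ≠ 0 ∧ b.1 = t * b.2 := hb
      simp only [br, ha'.1, zero_mul, sub_zero]
      exact mul_ne_zero ha'.2 hb'.1
  | coe s =>
    have ha' : a.2 ≠ 0 ∧ a.1 = s * a.2 := ha
    induction t using OnePoint.rec with
    | infty =>
      have hb' : b.2 = 0 ∧ b.1 ≠ 0 := hb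
      simp only [br, hb'.1, mul_zero, zero_sub]
      exact neg_ne_zero.2 (mul_ne_zero ha'.1 hb'.2)
    | coe t =>
      have hb' : b.2 ≠ 0 ∧ b.1 = t * b.2 := hb
      have hne : s ≠ t := fun h => hst (by rw [h])
      have : br a b = (s - t) * (a.2 * b.2) := by
        simp only [br, ha'.2, hb'.2]; ring
      rw [this]
      exact mul_ne_zero (sub_ne_zero.2 hne) (mul_ne_zero ha'.1 hb'.1)

theorem isCoprime_lf {a b : ℝ × ℝ} (h : br a b ≠ 0) : IsCoprime (lf a) (lf b) := by
  have h1 := lf_rel a b (-1, 0)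
  have h2 : lf (-1, 0) = 1 := by simp [lf]
  rw [h2, mul_one] at h1
  refine ⟨C ((br a b)⁻¹ * br (-1, 0) b), C ((br a b)⁻¹ * br a (-1, 0)), ?_⟩
  have h3 : C (br a b)⁻¹ * C (br a b) = (1 : ℝ[X]) := by
    rw [← C_mul, inv_mul_cancel₀ h, C_1]
  calc C ((br a b)⁻¹ * br (-1, 0) b) * lf a + C ((br a b)⁻¹ * br a (-1, 0)) * lf b
      = C (br a b)⁻¹ * (C (br (-1, 0) b) * lf a + C (br a (-1, 0)) * lf b) := by
        rw [C_mul, C_mul]; ring
    _ = 1 := by rw [← h1, h3]

/-- a polynomial with the vanishing conditions of `S` is a multiple of the product -/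
theorem exists_factor {S : Finset (OnePoint ℝ × ℕ)} {rep : OnePoint ℝ → ℝ × ℝ}
    (hrep : ∀ t, IsRep t (rep t)) {p : ℝ[X]} (hp : p.natDegree < n)
    (h1 : ∀ (t : ℝ) (k : ℕ), ((t : OnePoint ℝ), k + 1) ∈ S ∨ (∃ m, ((t : OnePoint ℝ), m) ∈ S ∧ k < m)
      → (derivative^[k] p).eval t = 0)
    (h2 : ∀ i : ℕ, i < n → (∃ m, ((OnePoint.infty : OnePoint ℝ), m) ∈ S ∧ n ≤ i + m) →
      p.coeff i = 0) (hp0 : p ≠ 0) :
    ∃ q : ℝ[X], q.natDegree + (dl S).length < n ∧
      p = (((dl S).map rep).map lf).prod * q := by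
  classical
  obtain ⟨c, hc0, hc⟩ := prod_dl S hrep
  have hdvd : (∏ t ∈ fpts S, lf (rep t) ^ mlt S t) ∣ p := by
    apply Finset.prod_dvd_of_coprime
    · intro s _ t _ hst
      exact (isCoprime_lf (br_rep_ne_zero hst (hrep s) (hrep t))).pow
    · intro t ht
      obtain ⟨s, rfl⟩ := coe_of_mem_fpts ht
      have hunit : IsUnit (C (rep s).2 : ℝ[X]) := by
        rw [isUnit_C, isUnit_iff_ne_zero]
        have h' : (rep s).2 ≠ 0 ∧ (rep s).1 = s * (rep s).2 := hrep s
        exact h'.1
      rw [lf_of_rep (hrep s), mul_pow, (hunit.pow _).mul_left_dvd]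
      rcases Nat.eq_zero_or_pos (mlt S s) with h0 | h0
      · rw [h0, pow_zero]; exact one_dvd _
      · have hlt : mlt S s - 1 < p.rootMultiplicity s := by
          apply lt_rootMultiplicity_of_isRoot_iterate_derivative hp0
          intro m hm
          obtain ⟨x, hx, hxs, hxm⟩ := exists_of_lt_mlt (S := S) (t := s) (k := m) (by omega)
          refine h1 s m (Or.inr ⟨x.2, ?_, hxm⟩)
          rw [← hxs]; exact hx
        exact (pow_dvd_pow _ (by omega)).trans (pow_rootMultiplicity_dvd p s)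
  obtain ⟨q, hq⟩ := hdvd
  have hD0 : (∏ t ∈ fpts S, lf (rep t) ^ mlt S t) ≠ 0 := by
    intro h0; apply hp0; rw [hq, h0, zero_mul]
  have hq0 : q ≠ 0 := by
    intro h0; apply hp0; rw [hq, h0, mul_zero]
  have hdeg : (∏ t ∈ fpts S, lf (rep t) ^ mlt S t).natDegree = ∑ t ∈ fpts S, mlt S t := by
    rw [natDegree_prod _ _ (fun t _ => pow_ne_zero _ (lf_ne_zero (hrep t)))]
    refine Finset.sum_congr rfl fun t ht => ?_
    obtain ⟨s, rfl⟩ := coe_of_mem_fpts ht
    rw [natDegree_pow, lf_of_rep (hrep s)]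
    have h' : (rep s).2 ≠ 0 ∧ (rep s).1 = s * (rep s).2 := hrep s
    rw [natDegree_C_mul h'.1, natDegree_X_sub_C, mul_one]
  have hpdeg : p.natDegree + mlt S OnePoint.infty < n := by
    by_contra hge
    rw [not_lt] at hge
    have hm0 : 0 < mlt S OnePoint.infty := by omega
    obtain ⟨x, hx, hxs, hxm⟩ := exists_of_lt_mlt (S := S) (t := OnePoint.infty)
      (k := mlt S OnePoint.infty - 1) (by omega)
    have := h2 p.natDegree hp ⟨x.2, by rw [← hxs]; exact hx, by omega⟩
    exact hp0 (leadingCoeff_eq_zero.1 this)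
  refine ⟨C c⁻¹ * q, ?_, ?_⟩
  · have h3 : p.natDegree = (∑ t ∈ fpts S, mlt S t) + q.natDegree := by
      rw [hq, natDegree_mul hD0 hq0, hdeg]
    have h4 : (C c⁻¹ * q).natDegree ≤ q.natDegree := natDegree_C_mul_le _ _
    rw [length_dl]
    omega
  · rw [hc]
    have h3 : C c * C c⁻¹ = (1 : ℝ[X]) := by rw [← C_mul, mul_inv_cancel₀ hc0, C_1]
    calc p = (∏ t ∈ fpts S, lf (rep t) ^ mlt S t) * q := hq
      _ = (∏ t ∈ fpts S, lf (rep t) ^ mlt S t) * (C c * C c⁻¹) * q := by rw [h3, mul_one]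
      _ = _ := by ring

theorem lf_pow_dvd_prod {S : Finset (OnePoint ℝ × ℕ)} {rep : OnePoint ℝ → ℝ × ℝ}
    {t : OnePoint ℝ} (ht : t ∈ pts S) :
    lf (rep t) ^ mlt S t ∣ (((dl S).map rep).map lf).prod := by
  classical
  have h1 : (((dl S).map rep).map lf).prod = ∏ t ∈ pts S, lf (rep t) ^ mlt S t := by
    rw [List.map_map, dl, prod_flat, Finset.prod_map_toList]
    rfl
  rw [h1]
  exact Finset.dvd_prod_of_mem (fun t => lf (rep t) ^ mlt S t) ht

theorem osc_le_SecSp {S : Finset (OnePoint ℝ × ℕ)} {rep : OnePoint ℝ → ℝ × ℝ}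
    (hrep : ∀ t, IsRep t (rep t)) {x : OnePoint ℝ × ℕ} (hx : x ∈ S) :
    Osc n x.2 x.1 ≤ SecSp n ((dl S).map rep) := by
  classical
  obtain ⟨t, m⟩ := x
  have hml := le_mlt hx
  have htp : t ∈ pts S := mem_pts.2 ⟨_, hx, rfl⟩
  simp only at hml ⊢
  induction t using OnePoint.rec with
  | infty =>
    have hO : Osc n m OnePoint.infty =
      Submodule.span ℂ {v | ∃ i : Fin n, n ≤ (i : ℕ) + m ∧ v = Pi.single i 1} := rfl
    rw [hO, Submodule.span_le]
    rintro v ⟨i, hi, rfl⟩
    change Pi.single i 1 ∈ SecSp n ((dl S).map rep)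
    rw [mem_SecSp]
    intro j hj
    rw [pair_single]
    obtain ⟨c, hc0, hc⟩ := prod_dl S hrep
    rw [List.length_map, length_dl] at hj
    have hdeg : (((∏ t ∈ fpts S, lf (rep t) ^ mlt S t) * C c) * X ^ j).natDegree < (i : ℕ) := by
      refine (natDegree_mul_le).trans_lt ?_
      rw [natDegree_X_pow]
      have h3 : (∏ t ∈ fpts S, lf (rep t) ^ mlt S t).natDegree ≤ ∑ t ∈ fpts S, mlt S t := by
        refine (natDegree_prod_le _ _).trans (Finset.sum_le_sum fun t _ => ?_)
        refine (natDegree_pow_le).trans ?_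
        have := lf_natDegree (rep t)
        nlinarith
      have h4 : ((∏ t ∈ fpts S, lf (rep t) ^ mlt S t) * C c).natDegree ≤
          (∏ t ∈ fpts S, lf (rep t) ^ mlt S t).natDegree := natDegree_mul_C_le _ _
      omega
    rw [hc, coeff_eq_zero_of_natDegree_lt hdeg]
    simp
  | coe t =>
    have hO : Osc n m (t : OnePoint ℝ) =
      Submodule.span ℂ {v | ∃ k : ℕ, k < m ∧ v = gammaDeriv n k t} := rfl
    rw [hO, Submodule.span_le]
    rintro v ⟨k, hk, rfl⟩
    change gammaDeriv n k t ∈ SecSp n ((dl S).map rep)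
    rw [mem_SecSp]
    intro j hj
    have hdeg : ((((dl S).map rep).map lf).prod * X ^ j).natDegree < n := by
      refine (natDegree_mul_le).trans_lt ?_
      rw [natDegree_X_pow]
      have h3 : (((dl S).map rep).map lf).prod.natDegree ≤ ((dl S).map rep).length := by
        refine (natDegree_list_prod_le _).trans ?_
        have : ∀ x ∈ List.map natDegree (List.map lf ((dl S).map rep)), x ≤ 1 := by
          intro x hx
          obtain ⟨y, hy, rfl⟩ := List.mem_map.1 hx
          obtain ⟨a, _, rfl⟩ := List.mem_map.1 hy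
          exact lf_natDegree a
        have h2 := List.sum_le_card_nsmul _ 1 this
        simpa using h2
      omega
    rw [pair_gammaDeriv k t hdeg]
    have hd : (X - C t) ^ mlt S t ∣ (((dl S).map rep).map lf).prod * X ^ j := by
      refine Dvd.dvd.mul_right (Dvd.dvd.trans ?_ (lf_pow_dvd_prod htp)) _
      apply pow_dvd_pow_of_dvd
      rw [lf_of_rep (hrep t)]
      exact Dvd.intro_left _ rfl
    have h5 := pow_sub_dvd_iterate_derivative_of_pow_dvd k hd
    have h6 : (X - C t) ∣ derivative^[k] ((((dl S).map rep).map lf).prod * X ^ j) :=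
      (dvd_pow_self _ (by omega)).trans h5
    rw [dvd_iff_isRoot] at h6
    rw [h6]
    simp

theorem pair_conj_zero {v : Fin n → ℂ} (hv : ∀ i, (v i).im = 0) (p q : ℝ[X])
    (h : pair v p + Complex.I * pair v q = 0) : pair v p = 0 ∧ pair v q = 0 := by
  have hre : ∀ r : ℝ[X], (pair v r).im = 0 := by
    intro r
    simp only [pair, Complex.im_sum]
    apply Finset.sum_eq_zero
    intro i _
    simp [Complex.mul_im, hv i]
  have h1 := congrArg Complex.re h
  have h2 := congrArg Complex.im h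
  simp only [Complex.add_re, Complex.add_im, Complex.mul_re, Complex.mul_im, Complex.I_re,
    Complex.I_im, hre, Complex.zero_re, Complex.zero_im] at h1 h2
  constructor
  · apply Complex.ext
    · simpa using h1
    · exact hre p
  · apply Complex.ext
    · simpa using h2
    · exact hre q

theorem genSec_eq {S : Finset (OnePoint ℝ × ℕ)} {rep : OnePoint ℝ → ℝ × ℝ}
    (hrep : ∀ t, IsRep t (rep t)) :
    (⨆ x ∈ S, Osc n x.2 x.1) = SecSp n ((dl S).map rep) := by
  classical
  apply le_antisymm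
  · exact iSup₂_le fun x hx => osc_le_SecSp hrep hx
  · intro v hv
    by_contra hvW
    obtain ⟨f, hf, hfW⟩ := Submodule.exists_le_ker_of_notMem hvW
    apply hf
    rcases Nat.eq_zero_or_pos n with hn | hn
    · subst hn
      have : v = 0 := Subsingleton.elim _ _
      rw [this, map_zero]
    set cf : Fin n → ℂ := fun i => f (Pi.single i 1) with hcf
    set p : ℝ[X] := ∑ i : Fin n, C (cf i).re * X ^ (i : ℕ) with hp
    set q : ℝ[X] := ∑ i : Fin n, C (cf i).im * X ^ (i : ℕ) with hq
    have hfw : ∀ w : Fin n → ℂ, f w = ∑ i, w i * cf i := by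
      intro w
      conv_lhs => rw [pi_eq_sum_univ w]
      rw [map_sum]
      refine Finset.sum_congr rfl fun m _ => ?_
      rw [map_smul, smul_eq_mul, hcf]
      congr 2
      funext j
      by_cases h : m = j
      · subst h; simp
      · simp [h]
    have hcoef : ∀ (g : Fin n → ℝ) (i : Fin n),
        (∑ j : Fin n, C (g j) * X ^ (j : ℕ)).coeff (i : ℕ) = g i := by
      intro g i
      rw [finsetSum_coeff, Finset.sum_eq_single i]
      · simp
      · intro b _ hb
        have : (i : ℕ) ≠ b := fun h => hb (Fin.ext h.symm)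
        simp [coeff_X_pow, this]
      · intro h; exact absurd (Finset.mem_univ i) h
    have hdeg : ∀ (g : Fin n → ℝ), (∑ j : Fin n, C (g j) * X ^ (j : ℕ)).natDegree < n := by
      intro g
      refine (natDegree_sum_le_of_forall_le (n := n - 1) _ _ ?_).trans_lt (by omega)
      intro i _
      refine (natDegree_C_mul_X_pow_le _ _).trans ?_
      have := i.2; omega
    have hpq : ∀ w : Fin n → ℂ, f w = pair w p + Complex.I * pair w q := by
      intro w
      rw [hfw]
      simp only [pair, Finset.mul_sum]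
      rw [← Finset.sum_add_distrib]
      refine Finset.sum_congr rfl fun i _ => ?_
      rw [hp, hq, hcoef (fun i => (cf i).re), hcoef (fun i => (cf i).im)]
      have : cf i = (cf i).re + (cf i).im * Complex.I := (Complex.re_add_im (cf i)).symm
      nth_rewrite 1 [this]
      ring
    -- vanishing conditions
    have hreal : ∀ w : Fin n → ℂ, (∀ i, (w i).im = 0) → w ∈ (⨆ x ∈ S, Osc n x.2 x.1) →
        pair w p = 0 ∧ pair w q = 0 := by
      intro w hw hwW
      apply pair_conj_zero hw
      rw [← hpq]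
      exact hfW hwW
    have hgen : ∀ (t : ℝ) (k m : ℕ), ((t : OnePoint ℝ), m) ∈ S → k < m →
        gammaDeriv n k t ∈ (⨆ x ∈ S, Osc n x.2 x.1) := by
      intro t k m hx hk
      refine (le_iSup₂_of_le (f := fun (x : OnePoint ℝ × ℕ) (_ : x ∈ S) => Osc n x.2 x.1)
        ((t : OnePoint ℝ), m) hx le_rfl) ?_
      exact Submodule.subset_span ⟨k, hk, rfl⟩
    have hgen' : ∀ (i : Fin n) (m : ℕ), ((OnePoint.infty : OnePoint ℝ), m) ∈ S → n ≤ (i : ℕ) + m →
        Pi.single i 1 ∈ (⨆ x ∈ S, Osc n x.2 x.1) := by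
      intro i m hx hk
      refine (le_iSup₂_of_le (f := fun (x : OnePoint ℝ × ℕ) (_ : x ∈ S) => Osc n x.2 x.1)
        ((OnePoint.infty : OnePoint ℝ), m) hx le_rfl) ?_
      exact Submodule.subset_span ⟨i, hk, rfl⟩
    have hkey : ∀ r : ℝ[X], r.natDegree < n →
        (∀ w : Fin n → ℂ, (∀ i, (w i).im = 0) → w ∈ (⨆ x ∈ S, Osc n x.2 x.1) → pair w r = 0) →
        pair v r = 0 := by
      intro r hr hrW
      by_cases hr0 : r = 0
      · subst hr0; simp [pair]
      have hA : ∀ (t : ℝ) (k : ℕ), ((t : OnePoint ℝ), k + 1) ∈ S ∨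
          (∃ m, ((t : OnePoint ℝ), m) ∈ S ∧ k < m) → (derivative^[k] r).eval t = 0 := by
        intro t k hk
        have hk' : ∃ m, ((t : OnePoint ℝ), m) ∈ S ∧ k < m := by
          rcases hk with hk | hk
          · exact ⟨k + 1, hk, by omega⟩
          · exact hk
        obtain ⟨m, hm, hkm⟩ := hk'
        have := hrW (gammaDeriv n k t) (fun i => Complex.ofReal_im _) (hgen t k m hm hkm)
        rw [pair_gammaDeriv k t hr] at this
        exact_mod_cast this
      have hB : ∀ i : ℕ, i < n → (∃ m, ((OnePoint.infty : OnePoint ℝ), m) ∈ S ∧ n ≤ i + m) →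
          r.coeff i = 0 := by
        rintro i hi ⟨m, hm, him⟩
        have := hrW (Pi.single ⟨i, hi⟩ 1) (fun j => by
          by_cases h : j = ⟨i, hi⟩
          · subst h; simp
          · simp [h]) (hgen' ⟨i, hi⟩ m hm him)
        rw [pair_single] at this
        exact_mod_cast this
      obtain ⟨s, hs, hrs⟩ := exists_factor (n := n) (S := S) hrep hr hA hB hr0
      rw [hrs]
      apply pair_mul_of_mem hv
      rw [List.length_map]; exact hs
    rw [hpq, hkey p (hdeg _) (fun w hw hwW => (hreal w hw hwW).1),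
      hkey q (hdeg _) (fun w hw hwW => (hreal w hw hwW).2)]
    simp

/-- Proper generalized secant subspaces are the spaces `SecSp`. -/
theorem IsGenSecant.exists_list {I : Set (OnePoint ℝ)} {W : Submodule ℂ (Fin n → ℂ)}
    (h : IsGenSecant n I W) (hlt : finrank ℂ W < n) :
    ∃ L : List (OnePoint ℝ), L.length = finrank ℂ W ∧ (∀ t ∈ L, t ∈ I) ∧
      ∀ rep : OnePoint ℝ → ℝ × ℝ, (∀ t, IsRep t (rep t)) → W = SecSp n (L.map rep) := by
  obtain ⟨S, hS, hW⟩ := h
  refine ⟨dl S, ?_, ?_, ?_⟩
  · -- a representative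
    set rep : OnePoint ℝ → ℝ × ℝ := fun t => t.elim (1, 0) (fun s => (s, 1)) with hrepdef
    have hrep : ∀ t, IsRep t (rep t) := by
      intro t
      induction t using OnePoint.rec with
      | infty => exact ⟨rfl, one_ne_zero⟩
      | coe t => exact ⟨one_ne_zero, by simp [hrepdef]⟩
    have h1 := genSec_eq (n := n) (S := S) hrep
    rw [← hW] at h1
    rcases Nat.lt_or_ge (dl S).length n with hl | hl
    · have h2 := finrank_SecSp (n := n) (L := (dl S).map rep) (by rw [List.length_map]; omega) (by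
        intro a ha
        obtain ⟨t, _, rfl⟩ := List.mem_map.1 ha
        exact lf_ne_zero (hrep t))
      rw [← h1, List.length_map] at h2
      exact h2.symm
    · exfalso
      have h2 : SecSp n ((dl S).map rep) = ⊤ := by
        rw [Submodule.eq_top_iff']
        intro v
        rw [mem_SecSp]
        intro m hm
        rw [List.length_map] at hm
        omega
      rw [← h1] at h2
      rw [h2, finrank_top, finrank_fin_fun] at hlt
      exact lt_irrefl _ hlt
  · intro t ht
    obtain ⟨x, hx, rfl⟩ := mem_pts.1 (mem_dl ht)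
    exact hS x hx
  · intro rep hrep
    rw [hW]
    exact genSec_eq hrep

end Pool.Agent.Helper80.Sec
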