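import Pool.Agent.Helper80.Sec.NCore

/-!
Four subspaces of a vector space: the abstract form of the primal and of the dual case.
-/

namespace Pool.Agent.Helper80.Sec

open Module

theorem arith_c' {N k l r0 r1 s0 s1 w0 w1 : ℕ} (hkl : k + l = N) (d0 : w0 = l + r0 - s0)
    (d1 : w1 = l + r1 - s1) (hs0 : s0 ≤ l) (hs1 : s1 ≤ l) (h1 : w1 ≤ N)
    (p : r0 + r1 = k ∨ s0 + s1 = l) : r0 + r1 = k ∨ r0 + r1 + (N - w1) = k + w0 := by
  rcases p with p | p
  · exact Or.inl p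
  · right; omega

theorem arith_e' {N k l r0 r1 s0 s1 w0 w1 : ℕ} (hkl : k + l = N) (d0 : w0 = l + r0 - s0)
    (d1 : w1 = l + r1 - s1) (hs0 : s0 ≤ l) (hs1 : s1 ≤ l) (h0 : w0 ≤ N)
    (p : r0 + r1 = k ∨ s0 + s1 = l) : s0 + s1 = l ∨ s0 + s1 + w1 = l + (N - w0) := by
  rcases p with p | p
  · right; omega
  · exact Or.inl p

/-- the conclusion for four subspaces of `V` with a conjugation `σ` -/
def GoodV {V : Type*} [AddCommGroup V] [Module ℂ V] (σ : V → V) (k : ℕ) (r : Fin 4 → ℕ)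
    (W : Fin 4 → Submodule ℂ V) (c : ℕ) : Prop :=
  (∀ H : Submodule ℂ V, finrank ℂ H = k → (∀ j, r j ≤ finrank ℂ ↥(H ⊓ W j)) →
    (∀ v ∈ H, σ v ∈ H) ∧ (∀ j, finrank ℂ ↥(H ⊓ W j) = r j) ∧
    ∀ φ : H →ₗ[ℂ] (V ⧸ H),
      (∀ j, ∀ x : H, (x : V) ∈ W j → φ x ∈ (W j).map H.mkQ) → φ = 0) ∧
  {H : Submodule ℂ V | finrank ℂ H = k ∧ ∀ j, r j ≤ finrank ℂ ↥(H ⊓ W j)}.encard = c

section

variable {V : Type*} [AddCommGroup V] [Module ℂ V] [FiniteDimensional ℂ V]
variable {N k l : ℕ} {r s w : Fin 4 → ℕ} {W : Fin 4 → Submodule ℂ V} {π : Equiv.Perm (Fin 4)}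

theorem goodP (hkl : k + l = N) (hrk : ∀ j, r j ≤ k) (hsl : ∀ j, s j ≤ l)
    (hwd : ∀ j, w j = l + r j - s j) (hwN : ∀ j, w j ≤ N)
    (hV : finrank ℂ V = N) (hWd : ∀ j, finrank ℂ (W j) = w j) (Q : Quad V)
    (e1 : Q.U1 = W (π 0)) (e2 : Q.U2 = W (π 1)) (e3 : Q.U3 = W (π 2)) (e4 : Q.U4 = W (π 3))
    (hp : Q.p = w (π 0)) (hq : Q.q = N - w (π 2)) (hN : Q.N = N)
    (he2 : Q.e2 = N - w (π 1)) (he4 : Q.e4 = N - w (π 3))
    (σ : V →ₛₗ[starRingEnd ℂ] V) (hZ : ∀ v i, Q.Z (σ v) i = (starRingEnd ℂ) (Q.Z v i))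
    (hWr : ∀ j, ∀ v ∈ W j, σ v ∈ W j)
    (hwsum : w (π 0) + w (π 1) + w (π 2) + w (π 3) = 2 * N)
    (hle : w (π 0) + w (π 2) ≤ N)
    (h02 : r (π 0) + r (π 2) = k) (h13 : r (π 1) + r (π 3) = k)
    (p01 : r (π 0) + r (π 1) = k ∨ s (π 0) + s (π 1) = l)
    (p03 : r (π 0) + r (π 3) = k ∨ s (π 0) + s (π 3) = l) :
    GoodV σ k r W ((⨅ j, min (w j) (N - w j)).choose (⨅ j, min (r j) (k - r j))) := by
  have D : Q.Dims := by
    refine ⟨?_, ?_, ?_, ?_, ?_⟩
    · rw [hN, hV]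
    · rw [hp, e1, hWd]
    · rw [hN, he2, e2, hWd]; exact Nat.add_sub_cancel' (hwN _)
    · rw [hN, hq, e3, hWd]; exact Nat.add_sub_cancel' (hwN _)
    · rw [hN, he4, e4, hWd]; exact Nat.add_sub_cancel' (hwN _)
  have c12 : r (π 0) + r (π 1) = k ∨ r (π 0) + r (π 1) + Q.e2 = k + Q.p := by
    rw [he2, hp]
    exact arith_c' hkl (hwd _) (hwd _) (hsl _) (hsl _) (hwN _) p01
  have c14 : r (π 0) + r (π 3) = k ∨ r (π 0) + r (π 3) + Q.e4 = k + Q.p := by
    rw [he4, hp]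
    exact arith_c' hkl (hwd _) (hwd _) (hsl _) (hsl _) (hwN _) p03
  have hset : {H : Submodule ℂ V | finrank ℂ H = k ∧ ∀ j, r j ≤ finrank ℂ ↥(H ⊓ W j)} =
      Q.Sol4 k (r (π 0)) (r (π 1)) (r (π 2)) (r (π 3)) := by
    ext H
    constructor
    · rintro ⟨k0, k1⟩
      refine ⟨k0, ?_, ?_, ?_, ?_⟩
      · rw [e1]; exact k1 _
      · rw [e2]; exact k1 _
      · rw [e3]; exact k1 _
      · rw [e4]; exact k1 _
    · rintro ⟨k0, k1, k2, k3, k4⟩
      refine ⟨k0, fin4_cases π ?_ ?_ ?_ ?_⟩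
      · rw [← e1]; exact k1
      · rw [← e2]; exact k2
      · rw [← e3]; exact k3
      · rw [← e4]; exact k4
  constructor
  · intro H hH hr
    have hmem : H ∈ Q.Sol4 k (r (π 0)) (r (π 1)) (r (π 2)) (r (π 3)) := by
      rw [← hset]; exact ⟨hH, hr⟩
    refine ⟨?_, ?_, ?_⟩
    · exact Quad.Sol4_real D h02 h13 c12 c14 σ hZ (by rw [e1]; exact hWr _)
        (by rw [e2]; exact hWr _) (by rw [e3]; exact hWr _) (by rw [e4]; exact hWr _) hmem
    · obtain ⟨k0, k1, k2, k3, k4⟩ := hmem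
      obtain ⟨-, f1, f2, f3, f4⟩ := Quad.bal_of h02 h13 k0 k1 k2 k3 k4
      refine fin4_cases π ?_ ?_ ?_ ?_
      · rw [← e1]; exact f1
      · rw [← e2]; exact f2
      · rw [← e3]; exact f3
      · rw [← e4]; exact f4
    · intro φ hφ
      refine Quad.Sol4_transversal D h02 h13 c12 c14 hmem φ ?_ ?_ ?_ ?_
      · rw [e1]; exact hφ _
      · rw [e2]; exact hφ _
      · rw [e3]; exact hφ _
      · rw [e4]; exact hφ _
  · rw [hset, Quad.encard_Sol4 D h02 h13 c12 c14]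
    have m1 := iInf_min (N := N) (w := w) π (fun j => (hwN j)) hwsum hle
    have m2 := iInf_min (N := k) (w := r) π hrk (arith_two h02 h13) h02.le
    rw [← m1, ← m2, hp, he2, he4, hN]
    have h3 : N - Q.q = w (π 2) := by rw [hq]; exact Nat.sub_sub_self (hwN _)
    have h4 : k - r (π 1) = r (π 3) := by rw [← h13]; exact Nat.add_sub_cancel_left _ _
    have h5 : k - r (π 3) = r (π 1) := by rw [← h13]; exact Nat.add_sub_cancel _ _
    rw [h3, h4, h5, min_comm (r (π 3)) (r (π 1))]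

/-! ### The dual -/

/-- the operation `H ↦ H^⊥` -/
def dperp (H : Submodule ℂ V) : Submodule ℂ (Dual ℂ V) :=
  H.dualAnnihilator.comap (LinearMap.id : Dual ℂ V →ₗ[ℂ] Dual ℂ V)

omit [FiniteDimensional ℂ V] in
theorem mem_dperp {H : Submodule ℂ V} {f : Dual ℂ V} : f ∈ dperp H ↔ ∀ v ∈ H, f v = 0 := by
  rw [dperp, Submodule.mem_comap, Submodule.mem_dualAnnihilator]
  rfl

/-- and its inverse -/
def cperp (G : Submodule ℂ (Dual ℂ V)) : Submodule ℂ V := G.dualCoannihilator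

omit [FiniteDimensional ℂ V] in
theorem dperp_eq (H : Submodule ℂ V) : dperp H = H.dualAnnihilator := by
  rw [dperp, Submodule.comap_id]

theorem cperp_dperp (H : Submodule ℂ V) : cperp (dperp H) = H := by
  rw [cperp, dperp_eq, Subspace.dualAnnihilator_dualCoannihilator_eq]

theorem dperp_cperp (G : Submodule ℂ (Dual ℂ V)) : dperp (cperp G) = G := by
  rw [cperp, dperp_eq, Subspace.dualCoannihilator_dualAnnihilator_eq]

theorem finrank_dperp (H : Submodule ℂ V) :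
    finrank ℂ ↥(dperp H) + finrank ℂ H = finrank ℂ V := by
  rw [dperp_eq, add_comm]
  exact Subspace.finrank_add_finrank_dualAnnihilator_eq H

theorem id_range_le (A : Submodule ℂ (Dual ℂ V)) :
    A ≤ LinearMap.range (LinearMap.id : Dual ℂ V →ₗ[ℂ] Dual ℂ V) := by
  rw [LinearMap.range_id]; exact le_top

theorem finrank_dperp_inf (H E : Submodule ℂ V) :
    finrank ℂ ↥(dperp H ⊓ dperp E) + finrank ℂ H + finrank ℂ E =
      finrank ℂ V + finrank ℂ ↥(H ⊓ E) := by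
  have h1 := finrank_orth_inf (K := ℂ) (θ := (LinearMap.id : Dual ℂ V →ₗ[ℂ] Dual ℂ V))
    (fun _ _ h => h) (H := H) (id_range_le _) E
  have h2 := Submodule.finrank_le (H ⊔ E)
  have h3 := Submodule.finrank_sup_add_finrank_inf_eq H E
  rw [dperp, dperp, h1]
  omega

/-- conjugation of functionals -/
noncomputable def cjDual (σ : V →ₛₗ[starRingEnd ℂ] V) :
    (Dual ℂ V) →ₛₗ[starRingEnd ℂ] (Dual ℂ V) where
  toFun f :=
    { toFun := fun v => (starRingEnd ℂ) (f (σ v))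
      map_add' := fun v w => by rw [map_add, map_add, map_add]
      map_smul' := fun c v => by
        rw [LinearMap.map_smulₛₗ, map_smul, smul_eq_mul, map_mul, Complex.conj_conj]
        rfl }
  map_add' f g := by
    apply LinearMap.ext
    intro v
    show (starRingEnd ℂ) ((f + g) (σ v)) = _
    rw [LinearMap.add_apply, map_add]
    rfl
  map_smul' c f := by
    apply LinearMap.ext
    intro v
    show (starRingEnd ℂ) ((c • f) (σ v)) = _
    rw [LinearMap.smul_apply, smul_eq_mul, map_mul]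
    rfl

omit [FiniteDimensional ℂ V] in
theorem cjDual_apply (σ : V →ₛₗ[starRingEnd ℂ] V) (f : Dual ℂ V) (v : V) :
    cjDual σ f v = (starRingEnd ℂ) (f (σ v)) := rfl

theorem real_of_dperp {σ : V →ₛₗ[starRingEnd ℂ] V} {H : Submodule ℂ V}
    (h : ∀ g ∈ dperp H, cjDual σ g ∈ dperp H) : ∀ v ∈ H, σ v ∈ H := by
  intro v hv
  rw [← Subspace.dualAnnihilator_dualCoannihilator_eq (W := H), Submodule.mem_dualCoannihilator]
  intro g hg
  have hg' : g ∈ dperp H := by rw [dperp_eq]; exact hg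
  have h1 := mem_dperp.1 (h g hg') v hv
  rw [cjDual_apply, map_eq_zero] at h1
  exact h1

omit [FiniteDimensional ℂ V] in
theorem dperp_cj {σ : V →ₛₗ[starRingEnd ℂ] V} {H : Submodule ℂ V} (h : ∀ v ∈ H, σ v ∈ H) :
    ∀ g ∈ dperp H, cjDual σ g ∈ dperp H := by
  intro g hg
  rw [mem_dperp] at hg ⊢
  intro v hv
  rw [cjDual_apply, hg _ (h v hv), map_zero]

theorem transversal_of_dperp {H : Submodule ℂ V} (φ : H →ₗ[ℂ] V ⧸ H)
    (hφ : ∀ j, ∀ x : H, (x : V) ∈ W j → φ x ∈ (W j).map H.mkQ)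
    (key : ∀ ψ : ↥(dperp H) →ₗ[ℂ] (Dual ℂ V) ⧸ (dperp H),
      (∀ j, ∀ f : ↥(dperp H), (f : Dual ℂ V) ∈ dperp (W j) →
        ψ f ∈ (dperp (W j)).map (dperp H).mkQ) → ψ = 0) : φ = 0 := by
  refine transfer_tangent (K := ℂ) (θ := (LinearMap.id : Dual ℂ V →ₗ[ℂ] Dual ℂ V))
    (fun _ _ h => h) (id_range_le _) W φ ?_ hφ key
  intro x hx
  have h1 : (x : V) = 0 := by
    rw [← forall_dual_apply_eq_zero_iff ℂ]
    exact hx
  rw [show x = 0 from Subtype.ext h1, map_zero]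

theorem goodD (hkl : k + l = N) (hsl : ∀ j, s j ≤ l)
    (hwd : ∀ j, w j = l + r j - s j) (hwN : ∀ j, w j ≤ N)
    (hV : finrank ℂ V = N) (hWd : ∀ j, finrank ℂ (W j) = w j) (Q : Quad (Dual ℂ V))
    (e1 : Q.U1 = dperp (W (π 2))) (e2 : Q.U2 = dperp (W (π 3))) (e3 : Q.U3 = dperp (W (π 0)))
    (e4 : Q.U4 = dperp (W (π 1)))
    (hp : Q.p = N - w (π 2)) (hq : Q.q = w (π 0)) (hN : Q.N = N)
    (he2 : Q.e2 = w (π 3)) (he4 : Q.e4 = w (π 1))
    (σ : V →ₛₗ[starRingEnd ℂ] V)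
    (hZ : ∀ v i, Q.Z (cjDual σ v) i = (starRingEnd ℂ) (Q.Z v i))
    (hWr : ∀ j, ∀ v ∈ W j, σ v ∈ W j)
    (hwsum : w (π 0) + w (π 1) + w (π 2) + w (π 3) = 2 * N)
    (hle : N ≤ w (π 0) + w (π 2))
    (h20 : s (π 2) + s (π 0) = l) (h31 : s (π 3) + s (π 1) = l)
    (p23 : r (π 2) + r (π 3) = k ∨ s (π 2) + s (π 3) = l)
    (p21 : r (π 2) + r (π 1) = k ∨ s (π 2) + s (π 1) = l) :
    GoodV σ k r W ((⨅ j, min (w j) (N - w j)).choose (⨅ j, min (s j) (l - s j))) := by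
  have hWd' : ∀ j, finrank ℂ ↥(dperp (W j)) = N - w j := fun j => by
    have h1 := finrank_dperp (W j)
    rw [hWd, hV] at h1
    omega
  have hWr' : ∀ j, ∀ v ∈ dperp (W j), cjDual σ v ∈ dperp (W j) := fun j => dperp_cj (hWr j)
  have D : Q.Dims := by
    refine ⟨?_, ?_, ?_, ?_, ?_⟩
    · rw [hN, Subspace.dual_finrank_eq, hV]
    · rw [hp, e1, hWd']
    · rw [hN, he2, e2, hWd']; exact Nat.sub_add_cancel (hwN _)
    · rw [hN, hq, e3, hWd']; exact Nat.sub_add_cancel (hwN _)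
    · rw [hN, he4, e4, hWd']; exact Nat.sub_add_cancel (hwN _)
  have c12 : s (π 2) + s (π 3) = l ∨ s (π 2) + s (π 3) + Q.e2 = l + Q.p := by
    rw [he2, hp]
    exact arith_e' hkl (hwd _) (hwd _) (hsl _) (hsl _) (hwN _) p23
  have c14 : s (π 2) + s (π 1) = l ∨ s (π 2) + s (π 1) + Q.e4 = l + Q.p := by
    rw [he4, hp]
    exact arith_e' hkl (hwd _) (hwd _) (hsl _) (hsl _) (hwN _) p21
  have hxy : ∀ (H : Submodule ℂ V), finrank ℂ H = k → ∀ j,
      finrank ℂ ↥(dperp H ⊓ dperp (W j)) + r j = s j + finrank ℂ ↥(H ⊓ W j) := by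
    intro H hH j
    have h1 := finrank_dperp_inf H (W j)
    rw [hH, hWd, hV] at h1
    exact arith_d h1 hkl (hwd j) (hsl j)
  have hset : {H : Submodule ℂ V | finrank ℂ H = k ∧ ∀ j, r j ≤ finrank ℂ ↥(H ⊓ W j)} =
      cperp '' (Q.Sol4 l (s (π 2)) (s (π 3)) (s (π 0)) (s (π 1))) := by
    ext H
    constructor
    · rintro ⟨k0, k1⟩
      have k2 : ∀ j, s j ≤ finrank ℂ ↥(dperp H ⊓ dperp (W j)) := fun j => by
        have h1 := hxy H k0 j
        have h2 := k1 j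
        omega
      refine ⟨dperp H, ⟨?_, ?_, ?_, ?_, ?_⟩, cperp_dperp H⟩
      · have := finrank_dperp H
        omega
      · rw [e1]; exact k2 _
      · rw [e2]; exact k2 _
      · rw [e3]; exact k2 _
      · rw [e4]; exact k2 _
    · rintro ⟨G, ⟨k0, k1, k2, k3, k4⟩, rfl⟩
      have hk : finrank ℂ ↥(cperp G) = k := by
        have := finrank_dperp (cperp G)
        rw [dperp_cperp, k0] at this
        omega
      have key : ∀ j, s j ≤ finrank ℂ ↥(G ⊓ dperp (W j)) →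
          r j ≤ finrank ℂ ↥(cperp G ⊓ W j) := by
        intro j hj
        have h1 := hxy (cperp G) hk j
        rw [dperp_cperp] at h1
        omega
      refine ⟨hk, fin4_cases π ?_ ?_ ?_ ?_⟩
      · refine key _ ?_; rw [← e3]; exact k3
      · refine key _ ?_; rw [← e4]; exact k4
      · refine key _ ?_; rw [← e1]; exact k1
      · refine key _ ?_; rw [← e2]; exact k2
  have hcinj : Function.Injective (cperp (V := V)) := by
    intro G G' h
    rw [← dperp_cperp G, h, dperp_cperp]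
  constructor
  · intro H hH hr
    have hmem : dperp H ∈ Q.Sol4 l (s (π 2)) (s (π 3)) (s (π 0)) (s (π 1)) := by
      have h1 : H ∈ cperp '' (Q.Sol4 l (s (π 2)) (s (π 3)) (s (π 0)) (s (π 1))) := by
        rw [← hset]; exact ⟨hH, hr⟩
      obtain ⟨G, hG, e⟩ := h1
      rw [← e, dperp_cperp]
      exact hG
    refine ⟨?_, ?_, ?_⟩
    · exact real_of_dperp (Quad.Sol4_real D h20 h31 c12 c14 (cjDual σ) hZ
        (by rw [e1]; exact hWr' _) (by rw [e2]; exact hWr' _) (by rw [e3]; exact hWr' _)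
        (by rw [e4]; exact hWr' _) hmem)
    · obtain ⟨k0, k1, k2, k3, k4⟩ := hmem
      obtain ⟨-, f1, f2, f3, f4⟩ := Quad.bal_of h20 h31 k0 k1 k2 k3 k4
      have key : ∀ j, finrank ℂ ↥(dperp H ⊓ dperp (W j)) = s j →
          finrank ℂ ↥(H ⊓ W j) = r j := by
        intro j hj
        have h1 := hxy H hH j
        omega
      refine fin4_cases π ?_ ?_ ?_ ?_
      · refine key _ ?_; rw [← e3]; exact f3
      · refine key _ ?_; rw [← e4]; exact f4
      · refine key _ ?_; rw [← e1]; exact f1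
      · refine key _ ?_; rw [← e2]; exact f2
    · intro φ hφ
      refine transversal_of_dperp φ hφ (fun ψ hψ => ?_)
      refine Quad.Sol4_transversal D h20 h31 c12 c14 hmem ψ ?_ ?_ ?_ ?_
      · rw [e1]; exact hψ _
      · rw [e2]; exact hψ _
      · rw [e3]; exact hψ _
      · rw [e4]; exact hψ _
  · rw [hset, hcinj.encard_image, Quad.encard_Sol4 D h20 h31 c12 c14]
    obtain ⟨ρ, hρ0, hρ1, hρ2, hρ3⟩ : ∃ ρ : Equiv.Perm (Fin 4), ρ 0 = π 2 ∧ ρ 1 = π 3 ∧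
        ρ 2 = π 0 ∧ ρ 3 = π 1 := ⟨(Equiv.addRight (2 : Fin 4)).trans π, rfl, rfl, rfl, rfl⟩
    have g0 := hwN (π 0)
    have g1 := hwN (π 1)
    have g2 := hwN (π 2)
    have g3 := hwN (π 3)
    have m1 := iInf_min (N := N) (w := fun j => N - w j) ρ (fun j => Nat.sub_le _ _) (by
      clear p23 p21 c12 c14
      rw [hρ0, hρ1, hρ2, hρ3]; omega) (by
      clear p23 p21 c12 c14
      rw [hρ0, hρ2]; omega)
    have m2 := iInf_min (N := l) (w := s) ρ hsl (by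
      rw [hρ0, hρ1, hρ2, hρ3]; exact arith_two h20 h31) (by rw [hρ0, hρ2]; exact h20.le)
    beta_reduce at m1
    rw [hρ0, hρ1, hρ2, hρ3] at m1 m2
    have h7 : (fun j => min (N - w j) (N - (N - w j))) = fun j => min (w j) (N - w j) := by
      funext j
      rw [Nat.sub_sub_self (hwN j), min_comm]
    rw [h7] at m1
    rw [← m1, ← m2, hp, he2, he4, hN, hq, Nat.sub_sub_self (hwN (π 1)),
      Nat.sub_sub_self (hwN (π 3))]
    have h4 : l - s (π 3) = s (π 1) := by rw [← h31]; exact Nat.add_sub_cancel_left _ _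
    have h5 : l - s (π 1) = s (π 3) := by rw [← h31]; exact Nat.add_sub_cancel _ _
    rw [h4, h5, min_comm (s (π 1)) (s (π 3))]

end

end Pool.Agent.Helper80.Sec
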