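import Pool.Agent.Helper80.Sec.NLevelE

/-!
Four secant subspaces of `ℂ^N`: the main theorem.
-/

namespace Pool.Agent.Helper80.Sec

open Polynomial Module

/-- the intersection of two secant subspaces has the expected dimension -/
theorem finrank_inf_SecSp {N m : ℕ} {I : Fin m → Set (OnePoint ℝ)}
    (hdis : ∀ i j, i ≠ j → Disjoint (I i) (I j)) {rep : OnePoint ℝ → ℝ × ℝ}
    (hrep : ∀ t, IsRep t (rep t)) {T : Fin m → List (OnePoint ℝ)}
    (hTI : ∀ j, ∀ t ∈ T j, t ∈ I j) {a b : Fin m} (hab : a ≠ b) (hTa : (T a).length ≤ N)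
    (hTb : (T b).length ≤ N) :
    finrank ℂ ↥(SecSp N ((T a).map rep) ⊓ SecSp N ((T b).map rep)) ≤
      (T a).length + (T b).length - N := by
  classical
  have hfr : ∀ c, (T c).length ≤ N → finrank ℂ (SecSp N ((T c).map rep)) = (T c).length := by
    intro c hc
    rw [finrank_SecSp (by rw [List.length_map]; exact hc) (fun x hx => by
      obtain ⟨t, _, rfl⟩ := List.mem_map.1 hx
      exact lf_ne_zero (hrep t)), List.length_map]
  have hle : (SecSp N ((T a).map rep) ⊔ SecSp N ((T b).map rep)).dualAnnihilator ≤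
      LinearMap.range (thetaMap N (N - ((T a).length + (T b).length))
        (∏ j ∈ {a, b}, Dl rep (T j))) := by
    rw [Submodule.dualAnnihilator_sup_eq]
    rintro f ⟨hfa, hfb⟩
    obtain ⟨ha, hha, ea⟩ := (mem_ann_SecSp' hrep hTa).1 hfa
    obtain ⟨hb, hhb, eb⟩ := (mem_ann_SecSp' hrep hTb).1 hfb
    have da : (cx (Dl rep (T a)) * ha).degree < (N : WithBot ℕ) :=
      degree_cx_mul_lt (natDegree_Dl_le hrep _) hha (Or.inr (by omega))
    have db : (cx (Dl rep (T b)) * hb).degree < (N : WithBot ℕ) :=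
      degree_cx_mul_lt (natDegree_Dl_le hrep _) hhb (Or.inr (by omega))
    have eab : cx (Dl rep (T a)) * ha = cx (Dl rep (T b)) * hb :=
      toDual_inj da db (ea.symm.trans eb)
    obtain ⟨h, hh, e⟩ := blocks (T := T) hdis hrep hTI {a, b} da (fun j hj => by
      rw [Finset.mem_insert, Finset.mem_singleton] at hj
      rcases hj with rfl | rfl
      · exact ⟨ha, hha, rfl⟩
      · exact ⟨hb, hhb, eab⟩)
    rw [Finset.sum_pair hab] at hh
    refine ⟨⟨h, mem_degreeLT.2 hh⟩, ?_⟩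
    rw [thetaMap_apply, ea, e]
  have h1 := Submodule.finrank_mono hle
  have h2 := LinearMap.finrank_range_le (thetaMap N (N - ((T a).length + (T b).length))
        (∏ j ∈ {a, b}, Dl rep (T j)))
  rw [finrank_degreeLT] at h2
  rw [finrank_dualAnn, finrank_fin_fun] at h1
  have h3 := Submodule.finrank_sup_add_finrank_inf_eq (SecSp N ((T a).map rep))
    (SecSp N ((T b).map rep))
  rw [hfr a hTa, hfr b hTb] at h3
  have h4 := Submodule.finrank_le (SecSp N ((T a).map rep) ⊔ SecSp N ((T b).map rep))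
  rw [finrank_fin_fun] at h4
  omega

theorem sign_arith {k l r0 r1 s0 s1 : ℕ} (hs0 : s0 ≤ l) (hs1 : s1 ≤ l)
    (star : r0 + r1 ≤ k + ((l + r0 - s0) + (l + r1 - s1) - (k + l))) (h : k < r0 + r1) :
    s0 + s1 ≤ l := by omega

theorem sign_arith' {k l r0 r1 r2 r3 s0 s1 s2 s3 : ℕ} (hs0 : s0 ≤ l) (hs1 : s1 ≤ l)
    (hs2 : s2 ≤ l) (hs3 : s3 ≤ l) (hr : r0 + r1 + r2 + r3 = 2 * k)
    (hs : s0 + s1 + s2 + s3 = 2 * l)
    (star : r0 + r1 ≤ k + ((l + r0 - s0) + (l + r1 - s1) - (k + l)))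
    (star' : r2 + r3 ≤ k + ((l + r2 - s2) + (l + r3 - s3) - (k + l))) :
    ((r0 : ℤ) + r1 - k) * ((s0 : ℤ) + s1 - l) ≤ 0 := by
  rcases Nat.lt_trichotomy (r0 + r1) k with h | h | h
  · have h1 := sign_arith hs2 hs3 star' (by omega)
    have h2 : (r0 : ℤ) + r1 - k ≤ 0 := by omega
    have h3 : (0 : ℤ) ≤ (s0 : ℤ) + s1 - l := by omega
    exact mul_nonpos_of_nonpos_of_nonneg h2 h3
  · have h2 : (r0 : ℤ) + r1 - k = 0 := by omega
    rw [h2, zero_mul]
  · have h1 := sign_arith hs0 hs1 star h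
    have h2 : (0 : ℤ) ≤ (r0 : ℤ) + r1 - k := by omega
    have h3 : (s0 : ℤ) + s1 - l ≤ 0 := by omega
    exact mul_nonpos_of_nonneg_of_nonpos h2 h3

theorem or_of_mul {k l r0 r1 s0 s1 : ℕ} (h : ((r0 : ℤ) + r1 - k) * ((s0 : ℤ) + s1 - l) = 0) :
    r0 + r1 = k ∨ s0 + s1 = l := by
  rcases mul_eq_zero.1 h with h | h
  · left; omega
  · right; omega

theorem pairs_arith {k l r0 r1 r2 r3 s0 s1 s2 s3 : ℕ} (hs0 : s0 ≤ l) (hs1 : s1 ≤ l)
    (hs2 : s2 ≤ l) (hs3 : s3 ≤ l) (hr : r0 + r1 + r2 + r3 = 2 * k)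
    (hs : s0 + s1 + s2 + s3 = 2 * l)
    (hrs : r0 * s0 + r1 * s1 + r2 * s2 + r3 * s3 = k * l)
    (s01 : r0 + r1 ≤ k + ((l + r0 - s0) + (l + r1 - s1) - (k + l)))
    (s02 : r0 + r2 ≤ k + ((l + r0 - s0) + (l + r2 - s2) - (k + l)))
    (s03 : r0 + r3 ≤ k + ((l + r0 - s0) + (l + r3 - s3) - (k + l)))
    (s23 : r2 + r3 ≤ k + ((l + r2 - s2) + (l + r3 - s3) - (k + l)))
    (s13 : r1 + r3 ≤ k + ((l + r1 - s1) + (l + r3 - s3) - (k + l)))
    (s12 : r1 + r2 ≤ k + ((l + r1 - s1) + (l + r2 - s2) - (k + l))) :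
    r0 + r1 = k ∨ s0 + s1 = l := by
  have q1 := sign_arith' hs0 hs1 hs2 hs3 hr hs s01 s23
  have q2 := sign_arith' (r0 := r0) (r1 := r2) (r2 := r1) (r3 := r3) hs0 hs2 hs1 hs3
    (by omega) (by omega) s02 s13
  have q3 := sign_arith' (r0 := r0) (r1 := r3) (r2 := r1) (r3 := r2) hs0 hs3 hs1 hs2
    (by omega) (by omega) s03 s12
  have hr' : (r0 : ℤ) + r1 + r2 + r3 = 2 * k := by exact_mod_cast hr
  have hs' : (s0 : ℤ) + s1 + s2 + s3 = 2 * l := by exact_mod_cast hs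
  have hrs' : (r0 : ℤ) * s0 + r1 * s1 + r2 * s2 + r3 * s3 = k * l := by exact_mod_cast hrs
  have hsum : ((r0 : ℤ) + r1 - k) * ((s0 : ℤ) + s1 - l) +
      ((r0 : ℤ) + r2 - k) * ((s0 : ℤ) + s2 - l) +
      ((r0 : ℤ) + r3 - k) * ((s0 : ℤ) + s3 - l) = 0 := by
    linear_combination hrs' + (r0 : ℤ) * hs' + (s0 : ℤ) * hr' - (l : ℤ) * hr' - (k : ℤ) * hs'
  apply or_of_mul
  linarith

theorem exists_perm_pair : ∀ a b : Fin 4, a ≠ b → ∃ π : Equiv.Perm (Fin 4), π 0 = a ∧ π 1 = b := by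
  intro a b hab
  refine ⟨(Equiv.swap 0 a).trans (Equiv.swap ((Equiv.swap 0 a) 1) b), ?_, ?_⟩
  · rw [Equiv.trans_apply, Equiv.swap_apply_left]
    refine Equiv.swap_apply_of_ne_of_ne ?_ hab
    intro h
    have h1 : (Equiv.swap 0 a) 0 = (Equiv.swap 0 a) 1 := by rw [Equiv.swap_apply_left]; exact h
    exact absurd ((Equiv.swap 0 a).injective h1) (by decide)
  · rw [Equiv.trans_apply, Equiv.swap_apply_left]

theorem sum_perm4 (f : Fin 4 → ℕ) (π : Equiv.Perm (Fin 4)) :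
    f (π 0) + f (π 1) + f (π 2) + f (π 3) = ∑ j, f j := by
  rw [← Equiv.sum_comp π, Fin.sum_univ_four]

theorem minsum_arith {k l r0 r1 r2 r3 s0 s1 s2 s3 A B C : ℕ}
    (hr : r0 + r1 + r2 + r3 = 2 * k) (hs : s0 + s1 + s2 + s3 = 2 * l)
    (p1 : r0 + r1 = k ∨ s0 + s1 = l) (p2 : r0 + r2 = k ∨ s0 + s2 = l)
    (p3 : r0 + r3 = k ∨ s0 + s3 = l)
    (A0 : A + s0 ≤ l + r0) (A1 : A + s1 ≤ l + r1) (A2 : A + s2 ≤ l + r2) (A3 : A + s3 ≤ l + r3)
    (A0' : A + r0 ≤ k + s0) (A1' : A + r1 ≤ k + s1) (A2' : A + r2 ≤ k + s2)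
    (A3' : A + r3 ≤ k + s3)
    (hB : B = r0 ∨ B = r1 ∨ B = r2 ∨ B = r3 ∨ B + r0 = k ∨ B + r1 = k ∨ B + r2 = k ∨ B + r3 = k)
    (hC : C = s0 ∨ C = s1 ∨ C = s2 ∨ C = s3 ∨ C + s0 = l ∨ C + s1 = l ∨ C + s2 = l ∨
      C + s3 = l) : A ≤ B + C := by
  rcases p1 with p1 | p1 <;> rcases p2 with p2 | p2 <;> rcases p3 with p3 | p3 <;> omega

theorem min_cases4 {k : ℕ} {r : Fin 4 → ℕ} (hrk : ∀ j, r j ≤ k) {B : ℕ}
    (hB : B = ⨅ j, min (r j) (k - r j)) :
    B = r 0 ∨ B = r 1 ∨ B = r 2 ∨ B = r 3 ∨ B + r 0 = k ∨ B + r 1 = k ∨ B + r 2 = k ∨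
      B + r 3 = k := by
  obtain ⟨j, hj⟩ := exists_eq_ciInf_of_finite (f := fun j => min (r j) (k - r j))
  rw [← hB] at hj
  have h1 := hrk j
  have h2 : B = r j ∨ B + r j = k := by omega
  fin_cases j
  · rcases h2 with h | h
    · exact Or.inl h
    · exact Or.inr (Or.inr (Or.inr (Or.inr (Or.inl h))))
  · rcases h2 with h | h
    · exact Or.inr (Or.inl h)
    · exact Or.inr (Or.inr (Or.inr (Or.inr (Or.inr (Or.inl h)))))
  · rcases h2 with h | h
    · exact Or.inr (Or.inr (Or.inl h))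
    · exact Or.inr (Or.inr (Or.inr (Or.inr (Or.inr (Or.inr (Or.inl h))))))
  · rcases h2 with h | h
    · exact Or.inr (Or.inr (Or.inr (Or.inl h)))
    · exact Or.inr (Or.inr (Or.inr (Or.inr (Or.inr (Or.inr (Or.inr h))))))

theorem minsum {N k l : ℕ} {r s w : Fin 4 → ℕ} (hkl : k + l = N) (hrk : ∀ j, r j ≤ k)
    (hsl : ∀ j, s j ≤ l) (hwd : ∀ j, w j = l + r j - s j)
    (hr : ∑ j, r j = 2 * k) (hs : ∑ j, s j = 2 * l)
    (hp : ∀ a b, a ≠ b → r a + r b = k ∨ s a + s b = l) :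
    (⨅ j, min (w j) (N - w j)) = (⨅ j, min (r j) (k - r j)) + ⨅ j, min (s j) (l - s j) := by
  apply le_antisymm
  · obtain ⟨A, hA⟩ : ∃ A, A = ⨅ j, min (w j) (N - w j) := ⟨_, rfl⟩
    obtain ⟨B, hB⟩ : ∃ B, B = ⨅ j, min (r j) (k - r j) := ⟨_, rfl⟩
    obtain ⟨C, hC⟩ : ∃ C, C = ⨅ j, min (s j) (l - s j) := ⟨_, rfl⟩
    rw [← hA, ← hB, ← hC]
    have hAj : ∀ j, A ≤ min (w j) (N - w j) := fun j => by
      rw [hA]; exact ciInf_le' (fun j => min (w j) (N - w j)) j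
    have k1 : ∀ j, A + s j ≤ l + r j := fun j => by
      have h1 := hAj j
      have h2 := hwd j
      have h3 := hsl j
      omega
    have k2 : ∀ j, A + r j ≤ k + s j := fun j => by
      have h1 := hAj j
      have h2 := hwd j
      have h3 := hsl j
      have h4 := hrk j
      omega
    rw [Fin.sum_univ_four] at hr hs
    exact minsum_arith hr hs (hp 0 1 (by decide)) (hp 0 2 (by decide)) (hp 0 3 (by decide))
      (k1 0) (k1 1) (k1 2) (k1 3) (k2 0) (k2 1) (k2 2) (k2 3) (min_cases4 hrk hB)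
      (min_cases4 hsl hC)
  · refine le_ciInf (fun j => ?_)
    have h1 : (⨅ j, min (r j) (k - r j)) ≤ min (r j) (k - r j) :=
      ciInf_le' (fun j => min (r j) (k - r j)) j
    have h2 : (⨅ j, min (s j) (l - s j)) ≤ min (s j) (l - s j) :=
      ciInf_le' (fun j => min (s j) (l - s j)) j
    have h3 := hwd j
    have h4 := hrk j
    have h5 := hsl j
    omega

section

variable {N k l : ℕ} {r s w : Fin 4 → ℕ} {I : Fin 4 → Set (OnePoint ℝ)}
variable {T : Fin 4 → List (OnePoint ℝ)} {W : Fin 4 → Submodule ℂ (Fin N → ℂ)}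

theorem core_pairs (hkl : k + l = N) (hsl : ∀ j, s j ≤ l)
    (hwd : ∀ j, w j = l + r j - s j)
    (hr : ∑ j, r j = 2 * k) (hs : ∑ j, s j = 2 * l) (hrs : ∑ j, r j * s j = k * l)
    (hdis : ∀ i j, i ≠ j → Disjoint (I i) (I j))
    (hTI : ∀ j, ∀ t ∈ T j, t ∈ I j) (hTl : ∀ j, (T j).length = w j)
    (hwN : ∀ j, w j < N) {rep : OnePoint ℝ → ℝ × ℝ} (hrep : ∀ t, IsRep t (rep t))
    (hW : ∀ j, W j = SecSp N ((T j).map rep))
    {H : Submodule ℂ (Fin N → ℂ)} (hH : finrank ℂ H = k)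
    (hHr : ∀ j, r j ≤ finrank ℂ ↥(H ⊓ W j)) :
    ∀ a b, a ≠ b → r a + r b = k ∨ s a + s b = l := by
  have star : ∀ a b, a ≠ b →
      r a + r b ≤ k + ((l + r a - s a) + (l + r b - s b) - (k + l)) := by
    intro a b hab
    have h1 := finrank_inf_SecSp (N := N) hdis hrep hTI hab (by rw [hTl]; exact (hwN a).le)
      (by rw [hTl]; exact (hwN b).le)
    rw [← hW, ← hW, hTl, hTl, hwd, hwd] at h1
    have h2 := Submodule.finrank_sup_add_finrank_inf_eq (H ⊓ W a) (H ⊓ W b)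
    have h3 : finrank ℂ ↥((H ⊓ W a) ⊔ (H ⊓ W b)) ≤ finrank ℂ H :=
      Submodule.finrank_mono (sup_le inf_le_left inf_le_left)
    have h4 : finrank ℂ ↥((H ⊓ W a) ⊓ (H ⊓ W b)) ≤ finrank ℂ ↥(W a ⊓ W b) :=
      Submodule.finrank_mono (inf_le_inf inf_le_right inf_le_right)
    have h5 := hHr a
    have h6 := hHr b
    rw [hH] at h3
    omega
  intro a b hab
  obtain ⟨π, rfl, rfl⟩ := exists_perm_pair a b hab
  have hne : ∀ i j : Fin 4, i ≠ j → π i ≠ π j := fun i j h => π.injective.ne h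
  exact pairs_arith (hsl _) (hsl _) (hsl _) (hsl _) (by rw [sum_perm4]; exact hr)
    (by rw [sum_perm4]; exact hs) (by
      rw [← hrs]; exact sum_perm4 (fun j => r j * s j) π)
    (star _ _ (hne 0 1 (by decide))) (star _ _ (hne 0 2 (by decide)))
    (star _ _ (hne 0 3 (by decide))) (star _ _ (hne 2 3 (by decide)))
    (star _ _ (hne 1 3 (by decide))) (star _ _ (hne 1 2 (by decide)))

theorem sum_w (hkl : k + l = N) (hsl : ∀ j, s j ≤ l) (hwd : ∀ j, w j = l + r j - s j)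
    (hr : ∑ j, r j = 2 * k) (hs : ∑ j, s j = 2 * l) : ∑ j, w j = 2 * N := by
  rw [Fin.sum_univ_four] at hr hs ⊢
  have h0 := hwd 0
  have h1 := hwd 1
  have h2 := hwd 2
  have h3 := hwd 3
  have g0 := hsl 0
  have g1 := hsl 1
  have g2 := hsl 2
  have g3 := hsl 3
  omega

theorem arith_s {a b c d k : ℕ} (h : a + b + c + d = 2 * k) (h1 : a + c = k) : b + d = k := by
  omega

theorem arith_le {a b c d k : ℕ} (h : a + b + c + d = 2 * k) (h1 : ¬ a + c ≤ k) :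
    b + d ≤ k := by omega

theorem arith_ge {a b c d k : ℕ} (h : a + b + c + d = 2 * k) (h1 : ¬ k ≤ a + c) :
    k ≤ b + d := by omega

theorem core (hkl : k + l = N) (hrk : ∀ j, r j ≤ k) (hsl : ∀ j, s j ≤ l)
    (hwd : ∀ j, w j = l + r j - s j)
    (hr : ∑ j, r j = 2 * k) (hs : ∑ j, s j = 2 * l)
    (hpre : ∀ j, IsPreconnected (I j)) (hdis : ∀ i j, i ≠ j → Disjoint (I i) (I j))
    (hTI : ∀ j, ∀ t ∈ T j, t ∈ I j) (hTl : ∀ j, (T j).length = w j)
    (hw0 : ∀ j, 0 < w j) (hwN : ∀ j, w j < N)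
    (hW : ∀ rep : OnePoint ℝ → ℝ × ℝ, (∀ t, IsRep t (rep t)) →
      ∀ j, W j = SecSp N ((T j).map rep))
    (hp : ∀ a b, a ≠ b → r a + r b = k ∨ s a + s b = l) :
    Good N k r W ((⨅ j, min (w j) (N - w j)).choose (⨅ j, min (r j) (k - r j))) := by
  have hne : ∀ j, (I j).Nonempty := by
    intro j
    have h1 : T j ≠ [] := fun h => by
      have h2 := congrArg List.length h
      rw [hTl, List.length_nil] at h2
      have := hw0 j
      omega
    exact ⟨(T j).head h1, hTI j _ (List.head_mem _)⟩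
  obtain ⟨rep, π, hrep, hord⟩ := exists_order hpre hdis hne
  obtain ⟨rep', hrep', hord'⟩ := shift_order hdis hrep hord
  obtain ⟨π', e0, e1, e2, e3, hπ'⟩ : ∃ π' : Equiv.Perm (Fin 4), π' 0 = π 1 ∧ π' 1 = π 2 ∧
      π' 2 = π 3 ∧ π' 3 = π 0 ∧ ∀ i, π' i = π (i + 1) :=
    ⟨(Equiv.addRight (1 : Fin 4)).trans π, rfl, rfl, rfl, rfl, fun _ => rfl⟩
  have hord'' : ∀ i j, i < j → ∀ a ∈ I (π' i), ∀ b ∈ I (π' j), 0 < br (rep' b) (rep' a) := by
    intro i j hij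
    rw [hπ', hπ']
    exact hord' i j hij
  have hsw := sum_w hkl hsl hwd hr hs
  have hw4 := sum_perm4 w π
  have hr4 := sum_perm4 r π
  have hs4 := sum_perm4 s π
  rw [hsw] at hw4
  rw [hr] at hr4
  rw [hs] at hs4
  have hw4' := sum_perm4 w π'
  have hr4' := sum_perm4 r π'
  have hs4' := sum_perm4 s π'
  rw [hsw] at hw4'
  rw [hr] at hr4'
  rw [hs] at hs4'
  have hinj : ∀ i j : Fin 4, i ≠ j → π i ≠ π j := fun i j h => π.injective.ne h
  have hinj' : ∀ i j : Fin 4, i ≠ j → π' i ≠ π' j := fun i j h => π'.injective.ne h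
  rcases hp (π 0) (π 2) (hinj _ _ (by decide)) with h02 | h02
  · have h13 := arith_s hr4 h02
    by_cases hle : w (π 0) + w (π 2) ≤ N
    · exact coreP hkl hrk hsl hwd hTI hTl hw0 hwN hrep hord (hW rep hrep) hw4 hle h02 h13
        (hp _ _ (hinj _ _ (by decide))) (hp _ _ (hinj _ _ (by decide)))
    · have h02' : r (π' 0) + r (π' 2) = k := by rw [e0, e2]; exact h13
      refine coreP hkl hrk hsl hwd hTI hTl hw0 hwN hrep' hord'' (hW rep' hrep') hw4' ?_ h02'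
        (arith_s hr4' h02')
        (hp _ _ (hinj' _ _ (by decide))) (hp _ _ (hinj' _ _ (by decide)))
      rw [e0, e2]
      exact arith_le hw4 hle
  · have h13 := arith_s hs4 h02
    have hD : Good N k r W ((⨅ j, min (w j) (N - w j)).choose (⨅ j, min (s j) (l - s j))) := by
      by_cases hle : N ≤ w (π 0) + w (π 2)
      · exact coreD hkl hsl hwd hTI hTl hw0 hwN hrep hord (hW rep hrep) hw4 hle
          ((add_comm _ _).trans h02) ((add_comm _ _).trans h13)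
          (hp _ _ (hinj _ _ (by decide))) (hp _ _ (hinj _ _ (by decide)))
      · have h02' : s (π' 0) + s (π' 2) = l := by rw [e0, e2]; exact h13
        refine coreD hkl hsl hwd hTI hTl hw0 hwN hrep' hord'' (hW rep' hrep') hw4' ?_
          ((add_comm _ _).trans h02') ((add_comm _ _).trans (arith_s hs4' h02'))
          (hp _ _ (hinj' _ _ (by decide))) (hp _ _ (hinj' _ _ (by decide)))
        rw [e0, e2]
        exact arith_ge hw4 hle
    have hms := minsum hkl hrk hsl hwd hr hs hp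
    rwa [Nat.choose_symm_of_eq_add hms]

end

end Pool.Agent.Helper80.Sec
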