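import Pool.Agent.Helper80.Sec.NLevelP

/-!
Four secant subspaces of `ℂ^N`: the dual case.
-/

namespace Pool.Agent.Helper80.Sec

open Polynomial Module

theorem thetaOne_injective (N : ℕ) : Function.Injective (thetaMap N N 1) :=
  thetaMap_injective one_ne_zero (by rw [natDegree_one]; omega)

theorem thetaOne_range (N : ℕ) : LinearMap.range (thetaMap N N 1) = ⊤ := by
  apply Submodule.eq_top_of_finrank_eq
  rw [LinearMap.finrank_range_of_inj (thetaOne_injective N), finrank_degreeLT,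
    Subspace.dual_finrank_eq, finrank_fin_fun]

theorem thetaOne_apply {N : ℕ} (g : ↥(degreeLT ℂ N)) (v : Fin N → ℂ) :
    thetaMap N N 1 g v = toDual N (g : ℂ[X]) v := by
  rw [thetaMap_apply, cx_one, one_mul]

theorem thetaOne_comap {N : ℕ} {rep : OnePoint ℝ → ℝ × ℝ} (hrep : ∀ t, IsRep t (rep t))
    {T : List (OnePoint ℝ)} (hT : T.length ≤ N) :
    ((SecSp N (T.map rep)).dualAnnihilator).comap (thetaMap N N 1) = DivSp N (T.map rep) := by
  ext g
  rw [Submodule.mem_comap, mem_ann_SecSp' hrep hT, mem_DivSp, List.length_map, thetaMap_apply,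
    cx_one, one_mul]
  constructor
  · rintro ⟨h, hh, e⟩
    refine ⟨h, hh, ?_⟩
    exact toDual_inj (mem_degreeLT.1 g.2) (degree_cx_mul_lt (natDegree_Dl_le hrep T) hh
      (Or.inr (by omega))) e
  · rintro ⟨h, hh, e⟩
    exact ⟨h, hh, by rw [e]; rfl⟩

/-- the operation `H ↦ H^⊥` -/
noncomputable def orth (N : ℕ) (H : Submodule ℂ (Fin N → ℂ)) : Submodule ℂ ↥(degreeLT ℂ N) :=
  H.dualAnnihilator.comap (thetaMap N N 1)

/-- and its inverse -/
noncomputable def coorth (N : ℕ) (G : Submodule ℂ ↥(degreeLT ℂ N)) : Submodule ℂ (Fin N → ℂ) :=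
  (G.map (thetaMap N N 1)).dualCoannihilator

theorem le_range_one {N : ℕ} (A : Submodule ℂ (Dual ℂ (Fin N → ℂ))) :
    A ≤ LinearMap.range (thetaMap N N 1) := by rw [thetaOne_range]; exact le_top

theorem coorth_orth {N : ℕ} (H : Submodule ℂ (Fin N → ℂ)) : coorth N (orth N H) = H := by
  rw [coorth, orth, Submodule.map_comap_eq, inf_eq_right.2 (le_range_one _),
    Subspace.dualAnnihilator_dualCoannihilator_eq]

theorem orth_coorth {N : ℕ} (G : Submodule ℂ ↥(degreeLT ℂ N)) : orth N (coorth N G) = G := by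
  rw [coorth, orth, Subspace.dualCoannihilator_dualAnnihilator_eq,
    Submodule.comap_map_eq_of_injective (thetaOne_injective N)]

theorem finrank_orth' {N : ℕ} (H : Submodule ℂ (Fin N → ℂ)) :
    finrank ℂ ↥(orth N H) + finrank ℂ H = N := by
  have h1 := finrank_orth (thetaOne_injective N) (H := H) (le_range_one _)
  have h2 := Submodule.finrank_le H
  rw [finrank_fin_fun] at h1 h2
  rw [orth, h1]
  omega

theorem finrank_orth_inf' {N : ℕ} (H E : Submodule ℂ (Fin N → ℂ)) :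
    finrank ℂ ↥(orth N H ⊓ orth N E) + finrank ℂ H + finrank ℂ E =
      N + finrank ℂ ↥(H ⊓ E) := by
  have h1 := finrank_orth_inf (thetaOne_injective N) (H := H) (le_range_one _) E
  have h2 := Submodule.finrank_le (H ⊔ E)
  have h3 := Submodule.finrank_sup_add_finrank_inf_eq H E
  rw [finrank_fin_fun] at h1 h2
  rw [orth, orth, h1]
  omega

theorem real_of_orth {N : ℕ} {H : Submodule ℂ (Fin N → ℂ)}
    (h : ∀ g ∈ orth N H, cjD N g ∈ orth N H) : IsRealPoint H := by
  intro v hv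
  rw [← Subspace.dualAnnihilator_dualCoannihilator_eq (W := H), Submodule.mem_dualCoannihilator]
  intro l hl
  obtain ⟨g, rfl⟩ := le_range_one _ hl
  have hg : g ∈ orth N H := hl
  have h1 := ann_kills (θ := thetaMap N N 1) (H := H) (h g hg) hv
  rw [thetaOne_apply] at h1
  have h2 := toDual_cjD g v
  rw [h1, map_zero] at h2
  rw [thetaOne_apply]
  exact h2

theorem transversal_of_orth {N : ℕ} {H : Submodule ℂ (Fin N → ℂ)}
    {W : Fin 4 → Submodule ℂ (Fin N → ℂ)} (φ : H →ₗ[ℂ] (Fin N → ℂ) ⧸ H)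
    (hφ : ∀ j, ∀ x : H, (x : Fin N → ℂ) ∈ W j → φ x ∈ (W j).map H.mkQ)
    (key : ∀ ψ : ↥(orth N H) →ₗ[ℂ] ↥(degreeLT ℂ N) ⧸ (orth N H),
      (∀ j, ∀ f : ↥(orth N H), (f : ↥(degreeLT ℂ N)) ∈ orth N (W j) →
        ψ f ∈ (orth N (W j)).map (orth N H).mkQ) → ψ = 0) : φ = 0 := by
  refine transfer_tangent (thetaOne_injective N) (le_range_one _) W φ ?_ hφ key
  intro x hx
  have h1 : (x : Fin N → ℂ) = 0 := by
    rw [← forall_dual_apply_eq_zero_iff ℂ]
    intro l
    obtain ⟨g, rfl⟩ := le_range_one (N := N) ⊤ (Submodule.mem_top (x := l))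
    exact hx g
  rw [show x = 0 from Subtype.ext h1, map_zero]

end Pool.Agent.Helper80.Sec
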