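import Pool.Agent.Helper80.Sec.NLevelD

/-!
Four secant subspaces of `ℂ^N`: the dual case, main theorem.
-/

namespace Pool.Agent.Helper80.Sec

open Polynomial Module

theorem arith_d {x y k l N r s w : ℕ} (h : x + k + w = N + y) (hkl : k + l = N)
    (hw : w = l + r - s) (hs : s ≤ l) : x + r = s + y := by omega

theorem arith_e {N k l r0 r1 s0 s1 w0 w1 : ℕ} (hkl : k + l = N) (d0 : w0 = l + r0 - s0)
    (d1 : w1 = l + r1 - s1) (hs0 : s0 ≤ l) (hs1 : s1 ≤ l) (h0 : w0 < N)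
    (p : r0 + r1 = k ∨ s0 + s1 = l) : s0 + s1 = l ∨ s0 + s1 + w1 = l + (N - w0) := by
  rcases p with p | p
  · right; omega
  · exact Or.inl p

section

variable {N k l : ℕ} {r s w : Fin 4 → ℕ} {I : Fin 4 → Set (OnePoint ℝ)}
variable {T : Fin 4 → List (OnePoint ℝ)} {W : Fin 4 → Submodule ℂ (Fin N → ℂ)}
variable {rep : OnePoint ℝ → ℝ × ℝ} {π : Equiv.Perm (Fin 4)}

theorem coreD (hkl : k + l = N) (hsl : ∀ j, s j ≤ l)
    (hwd : ∀ j, w j = l + r j - s j)
    (hTI : ∀ j, ∀ t ∈ T j, t ∈ I j) (hTl : ∀ j, (T j).length = w j)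
    (hw0 : ∀ j, 0 < w j) (hwN : ∀ j, w j < N)
    (hrep : ∀ t, IsRep t (rep t))
    (hord : ∀ i j, i < j → ∀ a ∈ I (π i), ∀ b ∈ I (π j), 0 < br (rep b) (rep a))
    (hW : ∀ j, W j = SecSp N ((T j).map rep))
    (hwsum : w (π 0) + w (π 1) + w (π 2) + w (π 3) = 2 * N)
    (hle : N ≤ w (π 0) + w (π 2))
    (h20 : s (π 2) + s (π 0) = l) (h31 : s (π 3) + s (π 1) = l)
    (p23 : r (π 2) + r (π 3) = k ∨ s (π 2) + s (π 3) = l)
    (p21 : r (π 2) + r (π 1) = k ∨ s (π 2) + s (π 1) = l) :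
    Good N k r W ((⨅ j, min (w j) (N - w j)).choose (⨅ j, min (s j) (l - s j))) := by
  have hne : ∀ j, (T (π j)).map rep ≠ [] := fun j h => by
    have h1 := congrArg List.length h
    rw [List.length_map, hTl, List.length_nil] at h1
    have := hw0 (π j)
    omega
  have hlen : ∀ j, ((T (π j)).map rep).length = w (π j) := fun j => by
    rw [List.length_map, hTl]
  have hlt : ∀ j, ((T (π j)).map rep).length ≤ N := fun j => by
    rw [hlen]; exact (hwN _).le
  have hbef := before_of hTI hord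
  obtain ⟨Q, hQ⟩ : ∃ Q : Quad ↥(degreeLT ℂ N), Q = mkQuadD N ((T (π 0)).map rep)
      ((T (π 1)).map rep) ((T (π 2)).map rep) ((T (π 3)).map rep) (hne 0) (hne 2)
      (hlt 0) (hlt 1) (hlt 2) (hlt 3)
      (hbef 0 2 (by decide)) (hbef 0 1 (by decide)) (hbef 1 2 (by decide)) (hbef 0 3 (by decide))
      (hbef 2 3 (by decide)) (by rw [hlen, hlen]; exact hle)
      (by rw [hlen, hlen, hlen, hlen]; exact hwsum) := ⟨_, rfl⟩
  have hcom : ∀ j, orth N (W j) = DivSp N ((T j).map rep) := fun j => by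
    rw [orth, hW, thetaOne_comap hrep (by rw [hTl]; exact (hwN j).le)]
  have e1 : Q.U1 = orth N (W (π 2)) := by rw [hQ, hcom]; rfl
  have e2 : Q.U2 = orth N (W (π 3)) := by rw [hQ, hcom]; rfl
  have e3 : Q.U3 = orth N (W (π 0)) := by rw [hQ, hcom]; rfl
  have e4 : Q.U4 = orth N (W (π 1)) := by rw [hQ, hcom]; rfl
  have hp : Q.p = N - w (π 2) := by rw [← hlen 2, hQ]; rfl
  have hq : Q.q = w (π 0) := by rw [← hlen 0, hQ]; rfl
  have hN : Q.N = N := by rw [hQ]; rfl
  have he2 : Q.e2 = w (π 3) := by rw [← hlen 3, hQ]; rfl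
  have he4 : Q.e4 = w (π 1) := by rw [← hlen 1, hQ]; rfl
  have hZ : ∀ v i, Q.Z (cjD N v) i = (starRingEnd ℂ) (Q.Z v i) := by
    rw [hQ]
    exact fun v i => ZD_cj (fun i j => by
      rw [br_anti]
      exact (neg_neg_of_pos (hbef 0 2 (by decide) _ (ext_mem _ (hne 0) i) _
        (ext_mem _ (hne 2) j))).ne) v i
  clear hQ
  have hWd : ∀ j, finrank ℂ ↥(orth N (W j)) = N - w j := fun j => by
    rw [hcom, finrank_DivSp hrep (by rw [hTl]; exact (hwN j).le), hTl]
  have hWf : ∀ j, finrank ℂ (W j) = w j := fun j => by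
    rw [hW, finrank_SecSp (by rw [List.length_map, hTl]; exact (hwN j).le) (fun a ha => by
      obtain ⟨t, _, rfl⟩ := List.mem_map.1 ha
      exact lf_ne_zero (hrep t)), List.length_map, hTl]
  have hWr : ∀ j, ∀ v ∈ orth N (W j), cjD N v ∈ orth N (W j) := fun j => by
    rw [hcom]; exact DivSp_cj _ _
  have D : Q.Dims := by
    refine ⟨?_, ?_, ?_, ?_, ?_⟩
    · rw [hN, finrank_degreeLT]
    · rw [hp, e1, hWd]
    · rw [hN, he2, e2, hWd]; exact Nat.sub_add_cancel (hwN _).le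
    · rw [hN, hq, e3, hWd]; exact Nat.sub_add_cancel (hwN _).le
    · rw [hN, he4, e4, hWd]; exact Nat.sub_add_cancel (hwN _).le
  have c12 : s (π 2) + s (π 3) = l ∨ s (π 2) + s (π 3) + Q.e2 = l + Q.p := by
    rw [he2, hp]
    exact arith_e hkl (hwd _) (hwd _) (hsl _) (hsl _) (hwN _) p23
  have c14 : s (π 2) + s (π 1) = l ∨ s (π 2) + s (π 1) + Q.e4 = l + Q.p := by
    rw [he4, hp]
    exact arith_e hkl (hwd _) (hwd _) (hsl _) (hsl _) (hwN _) p21
  have hxy : ∀ (H : Submodule ℂ (Fin N → ℂ)), finrank ℂ H = k → ∀ j,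
      finrank ℂ ↥(orth N H ⊓ orth N (W j)) + r j = s j + finrank ℂ ↥(H ⊓ W j) := by
    intro H hH j
    have h1 := finrank_orth_inf' H (W j)
    rw [hH, hWf] at h1
    exact arith_d h1 hkl (hwd j) (hsl j)
  have hset : {H : Submodule ℂ (Fin N → ℂ) | finrank ℂ H = k ∧
      ∀ j, r j ≤ finrank ℂ ↥(H ⊓ W j)} =
      (coorth N) '' (Q.Sol4 l (s (π 2)) (s (π 3)) (s (π 0)) (s (π 1))) := by
    ext H
    constructor
    · rintro ⟨k0, k1⟩
      have k2 : ∀ j, s j ≤ finrank ℂ ↥(orth N H ⊓ orth N (W j)) := fun j => by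
        have h1 := hxy H k0 j
        have h2 := k1 j
        omega
      refine ⟨orth N H, ⟨?_, ?_, ?_, ?_, ?_⟩, coorth_orth H⟩
      · have := finrank_orth' H
        omega
      · rw [e1]; exact k2 _
      · rw [e2]; exact k2 _
      · rw [e3]; exact k2 _
      · rw [e4]; exact k2 _
    · rintro ⟨G, ⟨k0, k1, k2, k3, k4⟩, rfl⟩
      have hk : finrank ℂ ↥(coorth N G) = k := by
        have := finrank_orth' (coorth N G)
        rw [orth_coorth, k0] at this
        omega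
      have key : ∀ j, s j ≤ finrank ℂ ↥(G ⊓ orth N (W j)) →
          r j ≤ finrank ℂ ↥(coorth N G ⊓ W j) := by
        intro j hj
        have h1 := hxy (coorth N G) hk j
        rw [orth_coorth] at h1
        omega
      refine ⟨hk, fin4_cases π ?_ ?_ ?_ ?_⟩
      · refine key _ ?_; rw [← e3]; exact k3
      · refine key _ ?_; rw [← e4]; exact k4
      · refine key _ ?_; rw [← e1]; exact k1
      · refine key _ ?_; rw [← e2]; exact k2
  have hcinj : Function.Injective (coorth N) := by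
    intro G G' h
    rw [← orth_coorth G, h, orth_coorth]
  constructor
  · intro H hH hr
    have hmem : orth N H ∈ Q.Sol4 l (s (π 2)) (s (π 3)) (s (π 0)) (s (π 1)) := by
      have h1 : H ∈ (coorth N) '' (Q.Sol4 l (s (π 2)) (s (π 3)) (s (π 0)) (s (π 1))) := by
        rw [← hset]; exact ⟨hH, hr⟩
      obtain ⟨G, hG, e⟩ := h1
      rw [← e, orth_coorth]
      exact hG
    refine ⟨?_, ?_, ?_⟩
    · exact real_of_orth (Quad.Sol4_real D h20 h31 c12 c14 (cjD N) hZ (by rw [e1]; exact hWr _)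
        (by rw [e2]; exact hWr _) (by rw [e3]; exact hWr _) (by rw [e4]; exact hWr _) hmem)
    · obtain ⟨k0, k1, k2, k3, k4⟩ := hmem
      obtain ⟨-, f1, f2, f3, f4⟩ := Quad.bal_of h20 h31 k0 k1 k2 k3 k4
      have key : ∀ j, finrank ℂ ↥(orth N H ⊓ orth N (W j)) = s j →
          finrank ℂ ↥(H ⊓ W j) = r j := by
        intro j hj
        have h1 := hxy H hH j
        omega
      refine fin4_cases π ?_ ?_ ?_ ?_
      · refine key _ ?_; rw [← e3]; exact f3
      · refine key _ ?_; rw [← e4]; exact f4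
      · refine key _ ?_; rw [← e1]; exact f1
      · refine key _ ?_; rw [← e2]; exact f2
    · intro φ hφ
      refine transversal_of_orth φ hφ (fun ψ hψ => ?_)
      refine Quad.Sol4_transversal D h20 h31 c12 c14 hmem ψ ?_ ?_ ?_ ?_
      · rw [e1]; exact hψ _
      · rw [e2]; exact hψ _
      · rw [e3]; exact hψ _
      · rw [e4]; exact hψ _
  · rw [hset, hcinj.encard_image, Quad.encard_Sol4 D h20 h31 c12 c14]
    obtain ⟨ρ, hρ0, hρ1, hρ2, hρ3⟩ : ∃ ρ : Equiv.Perm (Fin 4), ρ 0 = π 2 ∧ ρ 1 = π 3 ∧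
        ρ 2 = π 0 ∧ ρ 3 = π 1 := ⟨(Equiv.addRight (2 : Fin 4)).trans π, rfl, rfl, rfl, rfl⟩
    have g0 := hwN (π 0)
    have g1 := hwN (π 1)
    have g2 := hwN (π 2)
    have g3 := hwN (π 3)
    have m1 := iInf_min (N := N) (w := fun j => N - w j) ρ (fun j => Nat.sub_le _ _) (by
      clear p23 p21 c12 c14
      rw [hρ0, hρ1, hρ2, hρ3]; omega) (by
      clear p23 p21 c12 c14
      rw [hρ0, hρ2]; omega)
    have m2 := iInf_min (N := l) (w := s) ρ hsl (by
      rw [hρ0, hρ1, hρ2, hρ3]; exact arith_two h20 h31) (by rw [hρ0, hρ2]; exact h20.le)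
    beta_reduce at m1
    rw [hρ0, hρ1, hρ2, hρ3] at m1 m2
    have h7 : (fun j => min (N - w j) (N - (N - w j))) = fun j => min (w j) (N - w j) := by
      funext j
      rw [Nat.sub_sub_self (hwN j).le, min_comm]
    rw [h7] at m1
    rw [← m1, ← m2, hp, he2, he4, hN, hq, Nat.sub_sub_self (hwN (π 1)).le,
      Nat.sub_sub_self (hwN (π 3)).le]
    have h4 : l - s (π 3) = s (π 1) := by rw [← h31]; exact Nat.add_sub_cancel_left _ _
    have h5 : l - s (π 1) = s (π 3) := by rw [← h31]; exact Nat.add_sub_cancel _ _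
    rw [h4, h5, min_comm (s (π 1)) (s (π 3))]

end

end Pool.Agent.Helper80.Sec
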