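import Pool.Agent.Helper80.Sec.Conj

/-!
Four secant subspaces of `ℂ^N`: the primal case.
-/

namespace Pool.Agent.Helper80.Sec

open Polynomial Module

/-- the conclusion for four subspaces of `ℂ^N` -/
def Good (N k : ℕ) (r : Fin 4 → ℕ) (W : Fin 4 → Submodule ℂ (Fin N → ℂ)) (c : ℕ) : Prop :=
  (∀ H : Submodule ℂ (Fin N → ℂ), finrank ℂ H = k → (∀ j, r j ≤ finrank ℂ ↥(H ⊓ W j)) →
    IsRealPoint H ∧ (∀ j, finrank ℂ ↥(H ⊓ W j) = r j) ∧
    ∀ φ : H →ₗ[ℂ] ((Fin N → ℂ) ⧸ H),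
      (∀ j, ∀ x : H, (x : Fin N → ℂ) ∈ W j → φ x ∈ (W j).map H.mkQ) → φ = 0) ∧
  {H : Submodule ℂ (Fin N → ℂ) | finrank ℂ H = k ∧
    ∀ j, r j ≤ finrank ℂ ↥(H ⊓ W j)}.encard = c

theorem arith_c {N k l r0 r1 s0 s1 w0 w1 : ℕ} (hkl : k + l = N) (d0 : w0 = l + r0 - s0)
    (d1 : w1 = l + r1 - s1) (hs0 : s0 ≤ l) (hs1 : s1 ≤ l) (h1 : w1 < N)
    (p : r0 + r1 = k ∨ s0 + s1 = l) : r0 + r1 = k ∨ r0 + r1 + (N - w1) = k + w0 := by
  rcases p with p | p
  · exact Or.inl p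
  · right; omega

theorem arith_two {a b c d k : ℕ} (h1 : a + c = k) (h2 : b + d = k) : a + b + c + d = 2 * k := by
  omega

section

variable {N k l : ℕ} {r s w : Fin 4 → ℕ} {I : Fin 4 → Set (OnePoint ℝ)}
variable {T : Fin 4 → List (OnePoint ℝ)} {W : Fin 4 → Submodule ℂ (Fin N → ℂ)}
variable {rep : OnePoint ℝ → ℝ × ℝ} {π : Equiv.Perm (Fin 4)}

theorem before_of (hTI : ∀ j, ∀ t ∈ T j, t ∈ I j)
    (hord : ∀ i j, i < j → ∀ a ∈ I (π i), ∀ b ∈ I (π j), 0 < br (rep b) (rep a)) :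
    ∀ i j, i < j → Before ((T (π i)).map rep) ((T (π j)).map rep) := by
  intro i j hij s hs t ht
  obtain ⟨a, ha, rfl⟩ := List.mem_map.1 hs
  obtain ⟨b, hb, rfl⟩ := List.mem_map.1 ht
  exact hord i j hij a (hTI _ a ha) b (hTI _ b hb)

theorem coreP (hkl : k + l = N) (hrk : ∀ j, r j ≤ k) (hsl : ∀ j, s j ≤ l)
    (hwd : ∀ j, w j = l + r j - s j)
    (hTI : ∀ j, ∀ t ∈ T j, t ∈ I j) (hTl : ∀ j, (T j).length = w j)
    (hw0 : ∀ j, 0 < w j) (hwN : ∀ j, w j < N)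
    (hrep : ∀ t, IsRep t (rep t))
    (hord : ∀ i j, i < j → ∀ a ∈ I (π i), ∀ b ∈ I (π j), 0 < br (rep b) (rep a))
    (hW : ∀ j, W j = SecSp N ((T j).map rep))
    (hwsum : w (π 0) + w (π 1) + w (π 2) + w (π 3) = 2 * N)
    (hle : w (π 0) + w (π 2) ≤ N)
    (h02 : r (π 0) + r (π 2) = k) (h13 : r (π 1) + r (π 3) = k)
    (p01 : r (π 0) + r (π 1) = k ∨ s (π 0) + s (π 1) = l)
    (p03 : r (π 0) + r (π 3) = k ∨ s (π 0) + s (π 3) = l) :
    Good N k r W ((⨅ j, min (w j) (N - w j)).choose (⨅ j, min (r j) (k - r j))) := by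
  have hne : ∀ j, (T (π j)).map rep ≠ [] := fun j h => by
    have h1 := congrArg List.length h
    rw [List.length_map, hTl, List.length_nil] at h1
    have := hw0 (π j)
    omega
  have hlen : ∀ j, ((T (π j)).map rep).length = w (π j) := fun j => by
    rw [List.length_map, hTl]
  have hlt : ∀ j, ((T (π j)).map rep).length < N := fun j => by
    rw [hlen]; exact hwN _
  have hbef := before_of hTI hord
  obtain ⟨Q, hQ⟩ : ∃ Q : Quad (Fin N → ℂ), Q = mkQuad N ((T (π 0)).map rep) ((T (π 1)).map rep)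
      ((T (π 2)).map rep) ((T (π 3)).map rep) (hne 0) (hne 2) (hlt 1) (hlt 3)
      (hbef 0 2 (by decide)) (hbef 0 1 (by decide)) (hbef 1 2 (by decide)) (hbef 0 3 (by decide))
      (hbef 2 3 (by decide)) (by rw [hlen, hlen]; exact hle)
      (by rw [hlen, hlen, hlen, hlen]; exact hwsum) := ⟨_, rfl⟩
  have e1 : Q.U1 = W (π 0) := by rw [hQ, hW]; rfl
  have e2 : Q.U2 = W (π 1) := by rw [hQ, hW]; rfl
  have e3 : Q.U3 = W (π 2) := by rw [hQ, hW]; rfl
  have e4 : Q.U4 = W (π 3) := by rw [hQ, hW]; rfl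
  have hp : Q.p = w (π 0) := by rw [hQ]; exact hlen 0
  have hq : Q.q = N - w (π 2) := by rw [← hlen 2, hQ]; rfl
  have hN : Q.N = N := by rw [hQ]; rfl
  have he2 : Q.e2 = N - w (π 1) := by rw [← hlen 1, hQ]; rfl
  have he4 : Q.e4 = N - w (π 3) := by rw [← hlen 3, hQ]; rfl
  have hZ : ∀ v i, Q.Z (cjF N v) i = (starRingEnd ℂ) (Q.Z v i) := by
    rw [hQ]; exact fun v i => ZF_cj _ _ v i
  clear hQ
  have hWd : ∀ j, finrank ℂ (W j) = w j := fun j => by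
    rw [hW, finrank_SecSp (by rw [List.length_map, hTl]; exact (hwN j).le) (fun a ha => by
      obtain ⟨t, _, rfl⟩ := List.mem_map.1 ha
      exact lf_ne_zero (hrep t)), List.length_map, hTl]
  have hWr : ∀ j, ∀ v ∈ W j, cjF N v ∈ W j := fun j => by rw [hW]; exact SecSp_cj _
  have D : Q.Dims := by
    refine ⟨?_, ?_, ?_, ?_, ?_⟩
    · rw [hN, finrank_fin_fun]
    · rw [hp, e1, hWd]
    · rw [hN, he2, e2, hWd]; exact Nat.add_sub_cancel' (hwN _).le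
    · rw [hN, hq, e3, hWd]; exact Nat.add_sub_cancel' (hwN _).le
    · rw [hN, he4, e4, hWd]; exact Nat.add_sub_cancel' (hwN _).le
  have c12 : r (π 0) + r (π 1) = k ∨ r (π 0) + r (π 1) + Q.e2 = k + Q.p := by
    rw [he2, hp]
    exact arith_c hkl (hwd _) (hwd _) (hsl _) (hsl _) (hwN _) p01
  have c14 : r (π 0) + r (π 3) = k ∨ r (π 0) + r (π 3) + Q.e4 = k + Q.p := by
    rw [he4, hp]
    exact arith_c hkl (hwd _) (hwd _) (hsl _) (hsl _) (hwN _) p03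
  have hset : {H : Submodule ℂ (Fin N → ℂ) | finrank ℂ H = k ∧
      ∀ j, r j ≤ finrank ℂ ↥(H ⊓ W j)} =
      Q.Sol4 k (r (π 0)) (r (π 1)) (r (π 2)) (r (π 3)) := by
    ext H
    constructor
    · rintro ⟨k0, k1⟩
      refine ⟨k0, ?_, ?_, ?_, ?_⟩
      · rw [e1]; exact k1 _
      · rw [e2]; exact k1 _
      · rw [e3]; exact k1 _
      · rw [e4]; exact k1 _
    · rintro ⟨k0, k1, k2, k3, k4⟩
      refine ⟨k0, fin4_cases π ?_ ?_ ?_ ?_⟩
      · rw [← e1]; exact k1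
      · rw [← e2]; exact k2
      · rw [← e3]; exact k3
      · rw [← e4]; exact k4
  constructor
  · intro H hH hr
    have hmem : H ∈ Q.Sol4 k (r (π 0)) (r (π 1)) (r (π 2)) (r (π 3)) := by
      rw [← hset]; exact ⟨hH, hr⟩
    refine ⟨?_, ?_, ?_⟩
    · exact Quad.Sol4_real D h02 h13 c12 c14 (cjF N) hZ (by rw [e1]; exact hWr _)
        (by rw [e2]; exact hWr _) (by rw [e3]; exact hWr _) (by rw [e4]; exact hWr _) hmem
    · obtain ⟨k0, k1, k2, k3, k4⟩ := hmem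
      obtain ⟨-, f1, f2, f3, f4⟩ := Quad.bal_of h02 h13 k0 k1 k2 k3 k4
      refine fin4_cases π ?_ ?_ ?_ ?_
      · rw [← e1]; exact f1
      · rw [← e2]; exact f2
      · rw [← e3]; exact f3
      · rw [← e4]; exact f4
    · intro φ hφ
      refine Quad.Sol4_transversal D h02 h13 c12 c14 hmem φ ?_ ?_ ?_ ?_
      · rw [e1]; exact hφ _
      · rw [e2]; exact hφ _
      · rw [e3]; exact hφ _
      · rw [e4]; exact hφ _
  · rw [hset, Quad.encard_Sol4 D h02 h13 c12 c14]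
    have m1 := iInf_min (N := N) (w := w) π (fun j => (hwN j).le) hwsum hle
    have m2 := iInf_min (N := k) (w := r) π hrk (arith_two h02 h13) h02.le
    rw [← m1, ← m2, hp, he2, he4, hN]
    have h3 : N - Q.q = w (π 2) := by rw [hq]; exact Nat.sub_sub_self (hwN _).le
    have h4 : k - r (π 1) = r (π 3) := by rw [← h13]; exact Nat.add_sub_cancel_left _ _
    have h5 : k - r (π 3) = r (π 1) := by rw [← h13]; exact Nat.add_sub_cancel _ _
    rw [h3, h4, h5, min_comm (r (π 3)) (r (π 1))]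

end

end Pool.Agent.Helper80.Sec
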