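import Pool.Agent.Helper80.Sec.GenSec

/-!
Nested generalized secant subspaces have nested divisors.
-/

namespace Pool.Agent.Helper80.Sec

open Polynomial Module

variable {n : ℕ}

/-- the product of the linear forms of a list of points -/
noncomputable def Dl (rep : OnePoint ℝ → ℝ × ℝ) (T : List (OnePoint ℝ)) : ℝ[X] :=
  ((T.map rep).map lf).prod

theorem Dl_nil (rep : OnePoint ℝ → ℝ × ℝ) : Dl rep [] = 1 := rfl

theorem Dl_cons (rep : OnePoint ℝ → ℝ × ℝ) (t : OnePoint ℝ) (T : List (OnePoint ℝ)) :
    Dl rep (t :: T) = lf (rep t) * Dl rep T := rfl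

theorem Dl_append (rep : OnePoint ℝ → ℝ × ℝ) (T T' : List (OnePoint ℝ)) :
    Dl rep (T ++ T') = Dl rep T * Dl rep T' := by
  simp [Dl, List.map_append, List.prod_append]

theorem Dl_perm (rep : OnePoint ℝ → ℝ × ℝ) {T T' : List (OnePoint ℝ)} (h : T.Perm T') :
    Dl rep T = Dl rep T' := by
  unfold Dl
  exact ((h.map rep).map lf).prod_eq

variable {rep : OnePoint ℝ → ℝ × ℝ}

theorem Dl_ne_zero (hrep : ∀ t, IsRep t (rep t)) (T : List (OnePoint ℝ)) : Dl rep T ≠ 0 := by
  induction T with
  | nil => rw [Dl_nil]; exact one_ne_zero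
  | cons t T ih => rw [Dl_cons]; exact mul_ne_zero (lf_ne_zero (hrep t)) ih

open Classical in
theorem natDegree_lf (hrep : ∀ t, IsRep t (rep t)) (t : OnePoint ℝ) :
    (lf (rep t)).natDegree + (if t = OnePoint.infty then 1 else 0) = 1 := by
  induction t using OnePoint.rec with
  | infty => rw [lf_of_rep_infty (hrep _), natDegree_C]; simp
  | coe t =>
    have h' : (rep t).2 ≠ 0 ∧ (rep t).1 = t * (rep t).2 := hrep t
    rw [lf_of_rep (hrep t), natDegree_C_mul h'.1, natDegree_X_sub_C]
    simp

open Classical in
theorem natDegree_Dl (hrep : ∀ t, IsRep t (rep t)) (T : List (OnePoint ℝ)) :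
    (Dl rep T).natDegree + T.count OnePoint.infty = T.length := by
  induction T with
  | nil => simp [Dl_nil]
  | cons t T ih =>
    rw [Dl_cons, natDegree_mul (lf_ne_zero (hrep t)) (Dl_ne_zero hrep T), List.count_cons,
      List.length_cons]
    have h := natDegree_lf hrep t
    by_cases ht : t = OnePoint.infty
    · simp only [ht, if_true] at h
      simp only [ht, beq_self_eq_true, if_true]
      omega
    · simp only [ht, if_false] at h
      have hbeq : (t == OnePoint.infty) = false := by simpa using ht
      simp only [hbeq]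
      simp only [Bool.false_eq_true, if_false]
      omega

open Classical in
theorem rootMultiplicity_Dl (hrep : ∀ t, IsRep t (rep t)) (T : List (OnePoint ℝ)) (t : ℝ) :
    (Dl rep T).rootMultiplicity t = T.count (t : OnePoint ℝ) := by
  induction T with
  | nil => rw [Dl_nil, ← C_1, rootMultiplicity_C]; simp
  | cons s T ih =>
    rw [Dl_cons, rootMultiplicity_mul (mul_ne_zero (lf_ne_zero (hrep s)) (Dl_ne_zero hrep T)), ih,
      List.count_cons, add_comm]
    congr 1
    induction s using OnePoint.rec with
    | infty =>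
      rw [lf_of_rep_infty (hrep _), rootMultiplicity_C]
      have : ((OnePoint.infty : OnePoint ℝ) == (t : OnePoint ℝ)) = false := by simp
      rw [this]; simp
    | coe s =>
      have h' : (rep s).2 ≠ 0 ∧ (rep s).1 = s * (rep s).2 := hrep s
      have h0 : C (rep s).2 * (X - C s) ≠ 0 :=
        mul_ne_zero (by simpa using h'.1) (X_sub_C_ne_zero s)
      rw [lf_of_rep (hrep s), rootMultiplicity_mul h0, rootMultiplicity_C, zero_add,
        rootMultiplicity_X_sub_C]
      by_cases hst : s = t
      · subst hst; simp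
      · have h1 : ((s : OnePoint ℝ) == (t : OnePoint ℝ)) = false := by
          simp [hst]
        rw [h1, if_neg (Ne.symm hst)]
        simp

open Classical in
theorem count_le_of_osc (hrep : ∀ t, IsRep t (rep t)) {L : List (OnePoint ℝ)}
    (hL : L.length < n) {t : OnePoint ℝ} {k : ℕ} (h : Osc n k t ≤ SecSp n (L.map rep)) :
    k ≤ L.count t := by
  have hdeg := natDegree_Dl hrep L
  have hD0 := Dl_ne_zero hrep L
  induction t using OnePoint.rec with
  | infty =>
    by_contra hcon
    rw [not_le] at hcon
    set cc := L.count OnePoint.infty with hcc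
    have hi : n - 1 - cc < n := by omega
    have hcl : cc ≤ L.length := List.count_le_length
    have hmem : (Pi.single ⟨n - 1 - cc, hi⟩ 1 : Fin n → ℂ) ∈ Osc n k OnePoint.infty :=
      Submodule.subset_span ⟨⟨n - 1 - cc, hi⟩, by simp only; omega, rfl⟩
    have h1 := h hmem
    rw [mem_SecSp] at h1
    have h2 := h1 (n - 1 - L.length) (by rw [List.length_map]; omega)
    rw [pair_single] at h2
    have h3 : (Dl rep L * X ^ (n - 1 - L.length)).natDegree = n - 1 - cc := by
      rw [natDegree_mul hD0 (pow_ne_zero _ X_ne_zero), natDegree_X_pow]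
      omega
    have h4 : (Dl rep L * X ^ (n - 1 - L.length)).coeff (n - 1 - cc) ≠ 0 := by
      rw [← h3]
      exact leadingCoeff_ne_zero.2 (mul_ne_zero hD0 (pow_ne_zero _ X_ne_zero))
    apply h4
    exact_mod_cast h2
  | coe t =>
    rcases Nat.eq_zero_or_pos k with h0 | h0
    · omega
    rw [← rootMultiplicity_Dl hrep]
    have h1 : k - 1 < (Dl rep L).rootMultiplicity t := by
      apply lt_rootMultiplicity_of_isRoot_iterate_derivative hD0
      intro m hm
      have hmem : gammaDeriv n m t ∈ Osc n k (t : OnePoint ℝ) :=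
        Submodule.subset_span ⟨m, by omega, rfl⟩
      have h2 := h hmem
      rw [mem_SecSp] at h2
      have h3 := h2 0 (by rw [List.length_map]; omega)
      rw [pow_zero, mul_one, pair_gammaDeriv m t (by
        have : (Dl rep L).natDegree < n := by omega
        exact this)] at h3
      rw [IsRoot.def]
      exact_mod_cast h3
    omega

open Classical in
theorem count_dl_le (S : Finset (OnePoint ℝ × ℕ)) (t : OnePoint ℝ) :
    (dl S).count t ≤ mlt S t := by
  have key : ∀ (l : List (OnePoint ℝ)), l.Nodup →
      (l.flatMap (fun s => List.replicate (mlt S s) s)).count t ≤ mlt S t ∧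
      (t ∉ l → (l.flatMap (fun s => List.replicate (mlt S s) s)).count t = 0) := by
    intro l
    induction l with
    | nil => intro _; simp
    | cons s l ih =>
      intro hnd
      rw [List.nodup_cons] at hnd
      obtain ⟨i1, i2⟩ := ih hnd.2
      rw [List.flatMap_cons, List.count_append, List.count_replicate]
      by_cases hst : s = t
      · subst hst
        rw [i2 hnd.1]
        simp
      · have hb : (s == t) = false := by simpa using hst
        rw [hb]
        simp only [Bool.false_eq_true, if_false, zero_add]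
        exact ⟨i1, fun h => i2 (fun h' => h (List.mem_cons_of_mem _ h'))⟩
  exact (key _ (Finset.nodup_toList _)).1

open Classical in
/-- Proper generalized secant subspaces are the spaces `SecSp`, with the osculating spaces that
they contain. -/
theorem IsGenSecant.exists_list' {I : Set (OnePoint ℝ)} {W : Submodule ℂ (Fin n → ℂ)}
    (h : IsGenSecant n I W) (hlt : finrank ℂ W < n) :
    ∃ L : List (OnePoint ℝ), L.length = finrank ℂ W ∧ (∀ t ∈ L, t ∈ I) ∧
      (∀ rep : OnePoint ℝ → ℝ × ℝ, (∀ t, IsRep t (rep t)) → W = SecSp n (L.map rep)) ∧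
      ∀ t, ∃ k, L.count t ≤ k ∧ Osc n k t ≤ W := by
  obtain ⟨S, hS, hW⟩ := h
  set rep0 : OnePoint ℝ → ℝ × ℝ := fun t => t.elim (1, 0) (fun s => (s, 1)) with hrepdef
  have hrep0 : ∀ t, IsRep t (rep0 t) := by
    intro t
    induction t using OnePoint.rec with
    | infty => exact ⟨rfl, one_ne_zero⟩
    | coe t => exact ⟨one_ne_zero, by simp [hrepdef]⟩
  refine ⟨dl S, ?_, ?_, ?_, ?_⟩
  · have h1 := genSec_eq (n := n) (S := S) hrep0
    rw [← hW] at h1
    rcases Nat.lt_or_ge (dl S).length n with hl | hl
    · have h2 := finrank_SecSp (n := n) (L := (dl S).map rep0) (by rw [List.length_map]; omega) (by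
        intro a ha
        obtain ⟨t, _, rfl⟩ := List.mem_map.1 ha
        exact lf_ne_zero (hrep0 t))
      rw [← h1, List.length_map] at h2
      exact h2.symm
    · exfalso
      have h2 : SecSp n ((dl S).map rep0) = ⊤ := by
        rw [Submodule.eq_top_iff']
        intro v
        rw [mem_SecSp]
        intro m hm
        rw [List.length_map] at hm
        omega
      rw [← h1] at h2
      rw [h2, finrank_top, finrank_fin_fun] at hlt
      exact lt_irrefl _ hlt
  · intro t ht
    obtain ⟨x, hx, rfl⟩ := mem_pts.1 (mem_dl ht)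
    exact hS x hx
  · intro rep hrep
    rw [hW]
    exact genSec_eq hrep
  · intro t
    rcases Nat.eq_zero_or_pos (mlt S t) with h0 | h0
    · refine ⟨0, by have := count_dl_le S t; omega, ?_⟩
      have : Osc n 0 t = ⊥ := by
        rw [eq_bot_iff]
        induction t using OnePoint.rec with
        | infty =>
          apply Submodule.span_le.2
          rintro v ⟨i, hi, _⟩
          exact absurd i.2 (by omega)
        | coe t =>
          apply Submodule.span_le.2
          rintro v ⟨i, hi, _⟩
          omega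
      rw [this]; exact bot_le
    · obtain ⟨x, hx, hxt, hxm⟩ := exists_of_lt_mlt (S := S) (t := t) (k := mlt S t - 1) (by omega)
      refine ⟨x.2, by have := count_dl_le S t; omega, ?_⟩
      rw [hW, ← hxt]
      exact le_iSup₂_of_le (f := fun (x : OnePoint ℝ × ℕ) (_ : x ∈ S) => Osc n x.2 x.1) x hx le_rfl

/-- nested secant spaces -/
theorem exists_nested {I : Set (OnePoint ℝ)} {Wb Wu : Submodule ℂ (Fin n → ℂ)}
    (hb : IsGenSecant n I Wb) (hu : IsGenSecant n I Wu) (hle : Wb ≤ Wu)
    (hlt : finrank ℂ Wu < n) :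
    ∃ L L' : List (OnePoint ℝ), L.length = finrank ℂ Wb ∧
      (L ++ L').length = finrank ℂ Wu ∧ (∀ t ∈ L, t ∈ I) ∧ (∀ t ∈ L', t ∈ I) ∧
      ∀ rep : OnePoint ℝ → ℝ × ℝ, (∀ t, IsRep t (rep t)) →
        Wb = SecSp n (L.map rep) ∧ Wu = SecSp n ((L ++ L').map rep) := by
  classical
  have hlt' : finrank ℂ Wb < n := lt_of_le_of_lt (Submodule.finrank_mono hle) hlt
  obtain ⟨L, l1, l2, l3, l4⟩ := hb.exists_list' hlt'
  obtain ⟨M, m1, m2, m3, m4⟩ := hu.exists_list' hlt
  set rep0 : OnePoint ℝ → ℝ × ℝ := fun t => t.elim (1, 0) (fun s => (s, 1)) with hrepdef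
  have hrep0 : ∀ t, IsRep t (rep0 t) := by
    intro t
    induction t using OnePoint.rec with
    | infty => exact ⟨rfl, one_ne_zero⟩
    | coe t => exact ⟨one_ne_zero, by simp [hrepdef]⟩
  have hcount : ∀ t, L.count t ≤ M.count t := by
    intro t
    obtain ⟨k, hk1, hk2⟩ := l4 t
    refine hk1.trans (count_le_of_osc hrep0 (by omega) (n := n) ?_)
    rw [← m3 rep0 hrep0]
    exact hk2.trans hle
  obtain ⟨L1, p1, s1⟩ := List.subperm_iff_count.2 hcount
  obtain ⟨L', p2⟩ := s1.exists_perm_append
  have hperm : M.Perm (L ++ L') := p2.trans (p1.append_right L')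
  refine ⟨L, L', l1, ?_, l2, ?_, ?_⟩
  · rw [← m1, hperm.length_eq]
  · intro t ht
    exact m2 t (hperm.mem_iff.2 (List.mem_append_right _ ht))
  · intro rep hrep
    refine ⟨l3 rep hrep, ?_⟩
    rw [m3 rep hrep]
    ext v
    rw [mem_SecSp, mem_SecSp]
    have h1 : ((M.map rep).map lf).prod = (((L ++ L').map rep).map lf).prod :=
      ((hperm.map rep).map lf).prod_eq
    have h2 : (M.map rep).length = ((L ++ L').map rep).length := by
      rw [List.length_map, List.length_map, hperm.length_eq]
    rw [h1, h2]

end Pool.Agent.Helper80.Sec
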