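import Pool.Agent.Helper80.Sec.Quad

/-!
Eigenpairs of the cross-ratio relation: simplicity.
-/

namespace Pool.Agent.Helper80.Sec

open Classical Filter Topology

namespace Quad

variable {V : Type*} [AddCommGroup V] [Module ℂ V] (Q : Quad V)

theorem rz_ne_of_real {v : V} {c : ℂ} (hc : c ≠ 0) (hv : v ≠ 0) (him : ∀ i, (c * Q.Z v i).im = 0) :
    Q.rz c v ≠ 0 := by
  intro h0
  apply hv
  apply Q.inj
  rw [map_zero]
  funext i
  have h1 : c * Q.Z v i = 0 := Complex.ext (congrFun h0 i) (him i)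
  exact (mul_eq_zero.1 h1).resolve_left hc

theorem rz_real_smul {v : V} {c μ : ℂ} (hμ : μ.im = 0) :
    Q.rz c (μ • v) = μ.re • Q.rz c v := by
  have : μ = (μ.re : ℂ) := Complex.ext (by simp) (by simp [hμ])
  rw [rz_smul, this, rz_real_mul]
  simp

/-- normal form of an eigenpair -/
theorem eig_nf {x y : V} {μ : ℂ} (hx : x ∈ Q.U1) (hy : y ∈ Q.U3) (h2 : x + y ∈ Q.U2)
    (h4 : x + μ • y ∈ Q.U4) (hμ : μ ≠ 0) (hne : x ≠ 0 ∨ y ≠ 0) :
    μ.im = 0 ∧ μ.re ≠ 0 ∧ ∃ c : ℂ, c ≠ 0 ∧ (∀ i, (c * Q.Z x i).im = 0) ∧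
      (∀ i, (c * Q.Z y i).im = 0) ∧ Q.rz c x ≠ 0 ∧ Q.rz c y ≠ 0 ∧
      Alt (Q.rz c x + Q.rz c y) (Q.e2 + 1) ∧
      Alt (tw (Q.rz c x + μ.re • Q.rz c y)) (Q.e4 + 1) ∧
      Q.p + 1 ≤ La Q.N (Q.rz c x) + La Q.N (tw (Q.rz c x)) ∧
      Q.N - Q.q + 1 ≤ La Q.N (Q.rz c y) + La Q.N (tw (Q.rz c y)) := by
  obtain ⟨hx0, hy0⟩ := Q.eig_x_ne hx hy h2 h4 hμ hne
  obtain ⟨him, c, hc, hcx, hcy⟩ := Q.eig_real hx hy h2 h4 hμ hne
  have hre : μ.re ≠ 0 := by
    intro h0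
    exact hμ (Complex.ext h0 him)
  have hrx := Q.rz_ne_of_real hc hx0 hcx
  have hry := Q.rz_ne_of_real hc hy0 hcy
  have a2 : Alt (Q.rz c x + Q.rz c y) (Q.e2 + 1) := by
    have := Q.rz_U2 h2 (c := c) (by
      rw [rz_add]; exact sum_ne_zero Q.hpq (Q.rz_S1 hx _) (Q.rz_S3 hy _) (Or.inl hrx))
    rwa [rz_add] at this
  have a4 : Alt (tw (Q.rz c x + μ.re • Q.rz c y)) (Q.e4 + 1) := by
    have := Q.rz_U4 h4 (c := c) (by
      rw [rz_add, Q.rz_real_smul him]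
      exact sum_ne_zero Q.hpq (Q.rz_S1 hx _) ((Q.rz_S3 hy _).smul _) (Or.inl hrx))
    rwa [rz_add, Q.rz_real_smul him] at this
  have hst := step Q.hpq Q.hqN Q.hsum (Q.rz_S1 hx _) (Q.rz_S3 hy _) ((Q.rz_S3 hy _).smul _) a2 a4
  rw [La_smul _ _ hre (Q.rz_S3 hy _).top, tw_smul, La_smul _ _ hre (Q.rz_S3 hy _).tw.top] at hst
  have hf := F1x (N := Q.N) (Q.rz_S1 hx c)
  exact ⟨him, hre, c, hc, hcx, hcy, hrx, hry, a2, a4, by omega, by omega⟩

theorem eig_first_ne {x y : V} {μ : ℂ} (hx : x ∈ Q.U1) (hy : y ∈ Q.U3) (h2 : x + y ∈ Q.U2)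
    (h4 : x + μ • y ∈ Q.U4) (hμ : μ ≠ 0) (hne : x ≠ 0 ∨ y ≠ 0) : Q.Z x 0 ≠ 0 := by
  obtain ⟨_, _, c, _, _, _, _, _, _, _, hp, _⟩ := Q.eig_nf hx hy h2 h4 hμ hne
  intro h0
  have := F1x0 (N := Q.N) (Q.rz_S1 hx c) (by simp [rz, h0])
  omega

theorem eig_unique {x y X Y : V} {μ : ℂ} (hx : x ∈ Q.U1) (hy : y ∈ Q.U3) (h2 : x + y ∈ Q.U2)
    (h4 : x + μ • y ∈ Q.U4) (hμ : μ ≠ 0) (hne : x ≠ 0 ∨ y ≠ 0)
    (hX : X ∈ Q.U1) (hY : Y ∈ Q.U3) (H2 : X + Y ∈ Q.U2) (H4 : X + μ • Y ∈ Q.U4) :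
    ∃ t : ℂ, X = t • x ∧ Y = t • y := by
  have hz := Q.eig_first_ne hx hy h2 h4 hμ hne
  set t : ℂ := Q.Z X 0 / Q.Z x 0 with ht
  refine ⟨t, ?_⟩
  have hX' : X - t • x ∈ Q.U1 := Q.U1.sub_mem hX (Q.U1.smul_mem _ hx)
  have hY' : Y - t • y ∈ Q.U3 := Q.U3.sub_mem hY (Q.U3.smul_mem _ hy)
  have H2' : (X - t • x) + (Y - t • y) ∈ Q.U2 := by
    have : (X - t • x) + (Y - t • y) = (X + Y) - t • (x + y) := by
      rw [smul_add]; abel
    rw [this]
    exact Q.U2.sub_mem H2 (Q.U2.smul_mem _ h2)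
  have H4' : (X - t • x) + μ • (Y - t • y) ∈ Q.U4 := by
    have : (X - t • x) + μ • (Y - t • y) = (X + μ • Y) - t • (x + μ • y) := by
      rw [smul_add, smul_sub, smul_comm μ t y]; abel
    rw [this]
    exact Q.U4.sub_mem H4 (Q.U4.smul_mem _ h4)
  have h0 : Q.Z (X - t • x) 0 = 0 := by
    rw [map_sub, map_smul, Pi.sub_apply, Pi.smul_apply, smul_eq_mul, ht]
    field_simp
    ring
  by_contra hcon
  have hne' : X - t • x ≠ 0 ∨ Y - t • y ≠ 0 := by
    by_contra h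
    push Not at h
    exact hcon ⟨sub_eq_zero.1 h.1, sub_eq_zero.1 h.2⟩
  exact Q.eig_first_ne hX' hY' H2' H4' hμ hne' h0

/-- real subspace versions -/
theorem rz_one_real_add {v w : V} {c : ℂ} (t : ℝ) :
    Q.rz c (v + (t : ℂ) • w) = Q.rz c v + t • Q.rz c w := by
  rw [rz_add, rz_smul, rz_real_mul]

theorem no_jordan {x y X Y : V} {μ : ℂ} (hx : x ∈ Q.U1) (hy : y ∈ Q.U3) (h2 : x + y ∈ Q.U2)
    (h4 : x + μ • y ∈ Q.U4) (hμ : μ ≠ 0) (hne : x ≠ 0 ∨ y ≠ 0)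
    (hX : X ∈ Q.U1) (hY : Y ∈ Q.U3) (H2 : X + Y ∈ Q.U2) (H4 : X + μ • Y + y ∈ Q.U4) : False := by
  obtain ⟨him, hre, c, hc, hcx, hcy, hrx, hry, a2, a4, hp, hq⟩ := Q.eig_nf hx hy h2 h4 hμ hne
  have hz0 := Q.eig_first_ne hx hy h2 h4 hμ hne
  set a := Q.rz c x with ha
  set b := Q.rz c y with hb
  set A := Q.rz c X with hA
  set B := Q.rz c Y with hB
  set m := μ.re with hm
  have hμm : μ = (m : ℂ) := Complex.ext (by simp [hm]) (by simp [him])
  have sa : S1 Q.p a := Q.rz_S1 hx _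
  have sA : S1 Q.p A := Q.rz_S1 hX _
  have sb : S3 Q.q Q.N b := Q.rz_S3 hy _
  have sB : S3 Q.q Q.N B := Q.rz_S3 hY _
  -- membership
  have r2 : ∀ t : ℝ, (A + t • a) + (B + t • b) ≠ 0 → Alt ((A + t • a) + (B + t • b)) (Q.e2 + 1) := by
    intro t h
    have e : Q.rz c ((X + Y) + (t : ℂ) • (x + y)) = (A + t • a) + (B + t • b) := by
      rw [rz_one_real_add, rz_add, rz_add, smul_add]
      abel
    rw [← e] at h ⊢
    exact Q.rz_U2 (Q.U2.add_mem H2 (Q.U2.smul_mem _ h2)) h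
  have r4 : ∀ t : ℝ, (A + t • a) + m • (B + (t + m⁻¹) • b) ≠ 0 →
      Alt (tw ((A + t • a) + m • (B + (t + m⁻¹) • b))) (Q.e4 + 1) := by
    intro t h
    have e : Q.rz c ((X + μ • Y + y) + (t : ℂ) • (x + μ • y))
        = (A + t • a) + m • (B + (t + m⁻¹) • b) := by
      rw [rz_one_real_add, rz_add, rz_add, rz_add, Q.rz_real_smul him, Q.rz_real_smul him]
      funext i
      show A i + m * B i + b i + t * (a i + m * b i)
        = (A i + t * a i) + m * (B i + (t + m⁻¹) * b i)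
      field_simp
      ring
    rw [← e] at h ⊢
    exact Q.rz_U4 (Q.U4.add_mem H4 (Q.U4.smul_mem _ h4)) h
  have sAt : ∀ t : ℝ, S1 Q.p (A + t • a) := fun t => sA.add (sa.smul t)
  have sBt : ∀ t : ℝ, S3 Q.q Q.N (B + t • b) := fun t => sB.add (sb.smul t)
  -- nonvanishing
  have nv2 : ∀ t : ℝ, (A + t • a) + (B + t • b) ≠ 0 := by
    intro t
    refine sum_ne_zero Q.hpq (sAt t) (sBt t) ?_
    by_contra hcon
    push Not at hcon
    obtain ⟨hA0, hB0⟩ := hcon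
    have e : (A + t • a) + m • (B + (t + m⁻¹) • b) = b := by
      rw [hA0, zero_add, add_smul, ← add_assoc, hB0, zero_add, smul_smul, mul_inv_cancel₀ hre,
        one_smul]
    have := r4 t (by rw [e]; exact hry)
    rw [e] at this
    exact Q.no_y4 sa sb a2 this
  have nv4 : ∀ t : ℝ, (A + t • a) + m • (B + (t + m⁻¹) • b) ≠ 0 := by
    intro t
    refine sum_ne_zero Q.hpq (sAt t) ((sBt _).smul m) ?_
    by_contra hcon
    push Not at hcon
    obtain ⟨hA0, hB0⟩ := hcon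
    have hB0' : B + (t + m⁻¹) • b = 0 := (smul_eq_zero.1 hB0).resolve_left hre
    have e : (A + t • a) + (B + t • b) = (-m⁻¹) • b := by
      have : B + t • b = (B + (t + m⁻¹) • b) + (-m⁻¹) • b := by
        rw [add_assoc, ← add_smul]
        congr 2
        ring
      rw [hA0, zero_add, this, hB0', zero_add]
    have hmi : -m⁻¹ ≠ 0 := neg_ne_zero.2 (inv_ne_zero hre)
    have h := r2 t (by rw [e]; exact smul_ne_zero hmi hry)
    rw [e] at h
    have h' := h.smul (inv_ne_zero hmi)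
    rw [smul_smul, inv_mul_cancel₀ hmi, one_smul] at h'
    have a4' : Alt (tw (a + m • b)) (Q.e4 + 1) := a4
    -- use `no_y2` with `m • b`
    have h'' : Alt (m • b) (Q.e2 + 1) := h'.smul hre
    exact Q.no_y2 sa (sb.smul m) h'' a4'
  have hst : ∀ t : ℝ, La Q.N (B + (t + m⁻¹) • b) + (Q.p + 1) ≤
      La Q.N (B + t • b) + (La Q.N (A + t • a) + La Q.N (tw (A + t • a))) ∧
      La Q.N (tw (B + t • b)) ≤ La Q.N (tw (B + (t + m⁻¹) • b)) := by
    intro t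
    have h := step Q.hpq Q.hqN Q.hsum (sAt t) (sBt t) ((sBt (t + m⁻¹)).smul m) (r2 t (nv2 t))
      (r4 t (nv4 t))
    rw [La_smul _ _ hre (sBt _).top, tw_smul, La_smul _ _ hre (sBt _).tw.top] at h
    exact ⟨h.1, h.2.1⟩
  have mono1 : ∀ t : ℝ, La Q.N (B + (t + m⁻¹) • b) ≤ La Q.N (B + t • b) := by
    intro t
    have := (hst t).1
    have h' := F1x (N := Q.N) (sAt t)
    omega
  -- iterate
  have it1 : ∀ (k : ℕ) (t : ℝ), La Q.N (B + (t + k * m⁻¹) • b) ≤ La Q.N (B + t • b) := by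
    intro k
    induction k with
    | zero => intro t; simp
    | succ k ih =>
      intro t
      have h1 := ih t
      have h2 := mono1 (t + k * m⁻¹)
      have e : t + k * m⁻¹ + m⁻¹ = t + ((k + 1 : ℕ) : ℝ) * m⁻¹ := by push_cast; ring
      rw [e] at h2
      exact le_trans h2 h1
  have it2 : ∀ (k : ℕ) (t : ℝ), La Q.N (tw (B + (t - k * m⁻¹) • b)) ≤ La Q.N (tw (B + t • b)) := by
    intro k
    induction k with
    | zero => intro t; simp
    | succ k ih =>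
      intro t
      have h1 := ih t
      have h2 := (hst (t - ((k + 1 : ℕ) : ℝ) * m⁻¹)).2
      have e : t - ((k + 1 : ℕ) : ℝ) * m⁻¹ + m⁻¹ = t - k * m⁻¹ := by push_cast; ring
      rw [e] at h2
      exact le_trans h2 h1
  -- limits: (B + s b)/s → b
  have hlim : ∀ (σ : ℕ → ℝ), Tendsto (fun k => |σ k|) atTop atTop → ∀ i,
      Tendsto (fun k => ((σ k)⁻¹ • (B + σ k • b)) i) atTop (𝓝 (b i)) := by
    intro σ hσ i
    have h1 : Tendsto (fun k => (σ k)⁻¹) atTop (𝓝 0) := by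
      rw [tendsto_zero_iff_abs_tendsto_zero]
      have : (abs ∘ fun k => (σ k)⁻¹) = fun k => (|σ k|)⁻¹ := by
        funext k; simp [abs_inv]
      rw [this]
      exact hσ.inv_tendsto_atTop
    have h2 : ∀ᶠ k in atTop, ((σ k)⁻¹ • (B + σ k • b)) i = (σ k)⁻¹ * B i + b i := by
      have hpos : ∀ᶠ k in atTop, 0 < |σ k| := hσ.eventually_gt_atTop 0
      filter_upwards [hpos] with k hk
      have hk' : σ k ≠ 0 := abs_pos.1 hk
      simp only [Pi.smul_apply, Pi.add_apply, smul_eq_mul]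
      rw [mul_add, ← mul_assoc, inv_mul_cancel₀ hk', one_mul]
    have h3 : Tendsto (fun k => (σ k)⁻¹ * B i + b i) atTop (𝓝 (0 * B i + b i)) :=
      (h1.mul_const _).add_const _
    rw [zero_mul, zero_add] at h3
    exact h3.congr' (h2.mono fun k hk => hk.symm)
  have habs : ∀ (t : ℝ), Tendsto (fun k : ℕ => |t + k * m⁻¹|) atTop atTop := by
    intro t
    have hmi : (0 : ℝ) < |m⁻¹| := abs_pos.2 (inv_ne_zero hre)
    have h1 : Tendsto (fun k : ℕ => (k : ℝ) * |m⁻¹| - |t|) atTop atTop := by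
      apply tendsto_atTop_add_const_right
      exact tendsto_natCast_atTop_atTop.atTop_mul_const hmi
    refine tendsto_atTop_mono (fun k => ?_) h1
    have h2 : |(k : ℝ) * m⁻¹| ≤ |t + k * m⁻¹| + |t| := by
      have : (k : ℝ) * m⁻¹ = (t + k * m⁻¹) - t := by ring
      nth_rewrite 1 [this]
      exact abs_sub _ _
    rw [abs_mul, Nat.abs_cast] at h2
    linarith
  have habs' : ∀ (t : ℝ), Tendsto (fun k : ℕ => |t - k * m⁻¹|) atTop atTop := by
    intro t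
    have := habs (-t)
    refine this.congr (fun k => ?_)
    rw [← abs_neg]
    congr 1
    ring
  have low1 : ∀ t : ℝ, La Q.N b ≤ La Q.N (B + t • b) := by
    intro t
    have hev := (alt_La Q.N b).eventually (hlim _ (habs t))
    have hpos : ∀ᶠ k : ℕ in atTop, 0 < |t + k * m⁻¹| := (habs t).eventually_gt_atTop 0
    obtain ⟨k, hk, hk'⟩ := (hev.and hpos).exists
    have hne' : t + k * m⁻¹ ≠ 0 := abs_pos.1 hk'
    have h1 := hk.le_La (N := Q.N) (fun i hi => by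
      rw [Pi.smul_apply, (sBt _).top i hi, smul_zero])
    rw [La_smul _ _ (inv_ne_zero hne') (sBt _).top] at h1
    exact le_trans h1 (it1 k t)
  have low2 : ∀ t : ℝ, La Q.N (tw b) ≤ La Q.N (tw (B + t • b)) := by
    intro t
    have hev := (alt_La Q.N (tw b)).eventually (w := fun k : ℕ => tw ((t - k * m⁻¹)⁻¹ •
      (B + (t - k * m⁻¹) • b))) (f := atTop) (fun i => by
        simp only [tw]
        exact (hlim _ (habs' t) i).const_mul _)
    have hpos : ∀ᶠ k : ℕ in atTop, 0 < |t - k * m⁻¹| := (habs' t).eventually_gt_atTop 0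
    obtain ⟨k, hk, hk'⟩ := (hev.and hpos).exists
    have hne' : t - k * m⁻¹ ≠ 0 := abs_pos.1 hk'
    rw [tw_smul] at hk
    have h1 := hk.le_La (N := Q.N) (fun i hi => by
      have := (sBt (t - k * m⁻¹)).tw.top i hi
      rw [Pi.smul_apply, this, smul_zero])
    rw [La_smul _ _ (inv_ne_zero hne') (sBt _).tw.top] at h1
    exact le_trans h1 (it2 k t)
  have heq : ∀ t : ℝ, La Q.N (B + t • b) = La Q.N b := by
    intro t
    have h1 := low1 t
    have h2 := low2 t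
    have h3 := F1y (sBt t)
    omega
  -- choose t
  have ha0 : a 0 ≠ 0 := by
    intro h0
    have h1 : c * Q.Z x 0 = 0 := Complex.ext h0 (hcx 0)
    exact hz0 ((mul_eq_zero.1 h1).resolve_left hc)
  set t := -(A 0) / a 0 with ht
  have h1 := (hst t).1
  rw [heq, heq] at h1
  have h2 := F1x0 (N := Q.N) (sAt t) (by
    simp only [Pi.add_apply, Pi.smul_apply, smul_eq_mul, ht]
    field_simp
    ring)
  omega

end Quad

end Pool.Agent.Helper80.Sec
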