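import Pool.Agent.Helper80.Sec.QuadSub

/-!
Reality and transversality.
-/

namespace Pool.Agent.Helper80.Sec

open Classical Module

section general

variable {K P : Type*} [Field K] [AddCommGroup P] [Module K P] [FiniteDimensional K P]

theorem ker_sup_range {f : Module.End K P} (h : ∀ v, f (f v) = 0 → f v = 0) :
    LinearMap.ker f ⊔ LinearMap.range f = ⊤ := by
  have h0 : LinearMap.ker f ⊓ LinearMap.range f = ⊥ := by
    rw [eq_bot_iff]
    rintro v ⟨hv, w, rfl⟩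
    exact (Submodule.mem_bot K).2 (h w hv)
  have h1 := Submodule.finrank_sup_add_finrank_inf_eq (LinearMap.ker f) (LinearMap.range f)
  rw [h0, finrank_bot, add_zero] at h1
  have h2 := LinearMap.finrank_range_add_finrank_ker f
  apply Submodule.eq_top_of_finrank_eq
  omega

end general

namespace Quad

variable {V : Type*} [AddCommGroup V] [Module ℂ V] {Q : Quad V}
variable [FiniteDimensional ℂ V]

namespace SubData

variable {H : Submodule ℂ V} {r : ℕ} (D : Q.SubData H r)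

include D

theorem mem_of_eigs (S : Submodule ℂ V)
    (hx : ∀ (μ : ℂ) (x : ↥(H ⊓ Q.U1)), D.T x = μ • x → x ≠ 0 → (x : V) ∈ S ∧ (D.A x : V) ∈ S) :
    H ≤ S := by
  have h1 : ∀ x : ↥(H ⊓ Q.U1), (x : V) ∈ S ∧ (D.A x : V) ∈ S := by
    intro x
    have htop : x ∈ (⊤ : Submodule ℂ ↥(H ⊓ Q.U1)) := Submodule.mem_top
    rw [← D.iSup_eig] at htop
    have hle : (⨆ μ : ℂ, D.T.eigenspace μ) ≤
        (S.comap (H ⊓ Q.U1).subtype) ⊓
          (S.comap ((H ⊓ Q.U3).subtype.comp D.A.toLinearMap)) := by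
      refine iSup_le fun μ => ?_
      intro v hv
      rw [Module.End.mem_eigenspace_iff] at hv
      by_cases h0 : v = 0
      · rw [h0]; exact Submodule.zero_mem _
      · have := hx μ v hv h0
        exact ⟨this.1, this.2⟩
    have := hle htop
    exact ⟨this.1, this.2⟩
  rw [← D.sup13]
  refine sup_le (fun v hv => (h1 ⟨v, hv⟩).1) (fun v hv => ?_)
  have h2 := (h1 (D.A.symm ⟨v, hv⟩)).2
  rw [D.A.apply_symm_apply] at h2
  exact h2

/-- `H` is spanned by real vectors -/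
theorem real_span : H ≤ Submodule.span ℂ {v | v ∈ H ∧ ∀ i, (Q.Z v i).im = 0} := by
  refine D.mem_of_eigs _ (fun μ x hx hx0 => ?_)
  have hne : (x : V) ≠ 0 := fun hc => hx0 (Subtype.ext hc)
  obtain ⟨_, c, hc, hcx, hcy⟩ := Q.eig_real (x := (x : V)) (y := (D.A x : V)) (μ := μ)
    x.2.2 (D.A x).2.2 (D.hA x) (D.eig_U4 hx) (D.eig_ne_zero hx hx0) (Or.inl hne)
  have key : ∀ v : V, v ∈ H → (∀ i, (c * Q.Z v i).im = 0) →
      v ∈ Submodule.span ℂ {v | v ∈ H ∧ ∀ i, (Q.Z v i).im = 0} := by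
    intro v hv hr
    have h1 : c • v ∈ Submodule.span ℂ {v | v ∈ H ∧ ∀ i, (Q.Z v i).im = 0} := by
      refine Submodule.subset_span ⟨H.smul_mem _ hv, fun i => ?_⟩
      rw [map_smul, Pi.smul_apply, smul_eq_mul]
      exact hr i
    have h2 := Submodule.smul_mem _ c⁻¹ h1
    rwa [smul_smul, inv_mul_cancel₀ hc, one_smul] at h2
  exact ⟨key _ x.2.1 hcx, key _ (D.A x).2.1 hcy⟩

/-- the tangent spaces meet trivially -/
theorem transversal (φ : H →ₗ[ℂ] V ⧸ H)
    (t1 : ∀ x : H, (x : V) ∈ Q.U1 → φ x ∈ Q.U1.map H.mkQ)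
    (t2 : ∀ x : H, (x : V) ∈ Q.U2 → φ x ∈ Q.U2.map H.mkQ)
    (t3 : ∀ x : H, (x : V) ∈ Q.U3 → φ x ∈ Q.U3.map H.mkQ)
    (t4 : ∀ x : H, (x : V) ∈ Q.U4 → φ x ∈ Q.U4.map H.mkQ) : φ = 0 := by
  have hker : H ≤ (LinearMap.ker φ).map H.subtype := by
    refine D.mem_of_eigs _ (fun μ x hx hx0 => ?_)
    have hne : (x : V) ≠ 0 := fun hc => hx0 (Subtype.ext hc)
    have hμ := D.eig_ne_zero hx hx0
    set xH : H := ⟨x, x.2.1⟩ with hxH
    set yH : H := ⟨D.A x, (D.A x).2.1⟩ with hyH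
    obtain ⟨X, hX, hXφ⟩ := Submodule.mem_map.1 (t1 xH x.2.2)
    obtain ⟨Y, hY, hYφ⟩ := Submodule.mem_map.1 (t3 yH (D.A x).2.2)
    obtain ⟨w2, hw2, hw2φ⟩ := Submodule.mem_map.1 (t2 (xH + yH) (by
      rw [Submodule.coe_add]; exact D.hA x))
    obtain ⟨w4, hw4, hw4φ⟩ := Submodule.mem_map.1 (t4 (xH + μ • yH) (by
      rw [Submodule.coe_add, Submodule.coe_smul]; exact D.eig_U4 hx))
    have a2 : X + Y - w2 ∈ H := by
      rw [← Submodule.Quotient.mk_eq_zero, ← Submodule.mkQ_apply, map_sub, map_add, hXφ, hYφ, hw2φ,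
        map_add, sub_self]
    have a4 : X + μ • Y - w4 ∈ H := by
      rw [← Submodule.Quotient.mk_eq_zero, ← Submodule.mkQ_apply, map_sub, map_add, map_smul, hXφ,
        hYφ, hw4φ, map_add, map_smul, sub_self]
    rw [← D.sup12] at a2
    obtain ⟨p1, hp1, r2, hr2, e2⟩ := Submodule.mem_sup.1 a2
    have a4' : X + μ • Y - w4 - p1 ∈ H := H.sub_mem a4 hp1.1
    rw [← D.sup14] at a4'
    obtain ⟨p2, hp2, r4, hr4, e4⟩ := Submodule.mem_sup.1 a4'
    -- decomposition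
    set f : Module.End ℂ ↥(H ⊓ Q.U1) := D.T - algebraMap ℂ _ μ with hf
    have fe : ∀ u, f u = D.T u - μ • u := by
      intro u
      simp [hf, Module.algebraMap_end_apply]
    have hdec := ker_sup_range (f := f) (fun v hv => by
      rw [fe] at hv ⊢
      rw [fe] at hv
      exact D.no_jordan' (sub_eq_zero.1 hv))
    have hmem : D.T ⟨p2, hp2⟩ ∈ LinearMap.ker f ⊔ LinearMap.range f := by
      rw [hdec]; exact Submodule.mem_top
    obtain ⟨κ, hκ, z, ⟨ξ, rfl⟩, eκ⟩ := Submodule.mem_sup.1 hmem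
    rw [LinearMap.mem_ker, fe, sub_eq_zero] at hκ
    rw [fe] at eκ
    set X' : V := X - p1 - ξ with hX'
    set Y' : V := Y - D.A ξ with hY'
    have mX' : X' ∈ Q.U1 := Q.U1.sub_mem (Q.U1.sub_mem hX hp1.2) ξ.2.2
    have mY' : Y' ∈ Q.U3 := Q.U3.sub_mem hY (D.A ξ).2.2
    have m2 : X' + Y' ∈ Q.U2 := by
      have h9 : X' + Y' = w2 + r2 - ((ξ : V) + (D.A ξ : V)) := by
        have : r2 = X + Y - w2 - p1 := by rw [← e2]; abel
        rw [hX', hY', this]; abel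
      rw [h9]
      exact Q.U2.sub_mem (Q.U2.add_mem hw2 hr2.2) (D.hA ξ)
    have m4 : X' + μ • Y' + (D.A κ : V) ∈ Q.U4 := by
      have hAκ : (D.A κ : V) = (D.A (D.T ⟨p2, hp2⟩) : V) - (D.A (D.T ξ) : V) + μ • (D.A ξ : V) := by
        have h8 : κ = D.T ⟨p2, hp2⟩ - D.T ξ + μ • ξ := by rw [← eκ]; abel
        rw [h8]
        simp only [map_add, map_sub, map_smul, Submodule.coe_add, Submodule.coe_sub,
          Submodule.coe_smul]
      have h9 : X' + μ • Y' + (D.A κ : V) = w4 + r4 + ((⟨p2, hp2⟩ : ↥(H ⊓ Q.U1)) + (D.A (D.T ⟨p2, hp2⟩) : V))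
          - ((ξ : V) + (D.A (D.T ξ) : V)) := by
        have : r4 = X + μ • Y - w4 - p1 - p2 := by rw [← e4]; abel
        rw [hX', hY', this, hAκ, smul_sub]; abel
      rw [h9]
      exact Q.U4.sub_mem (Q.U4.add_mem (Q.U4.add_mem hw4 hr4.2) (D.hT _)) (D.hT ξ)
    by_cases hκ0 : κ = 0
    · rw [hκ0, map_zero, Submodule.coe_zero, add_zero] at m4
      obtain ⟨t, ht1, ht2⟩ := Q.eig_unique (x := (x : V)) (y := (D.A x : V)) (μ := μ)
        x.2.2 (D.A x).2.2 (D.hA x) (D.eig_U4 hx) hμ (Or.inl hne) mX' mY' m2 m4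
      have hXH : X ∈ H := by
        have : X = t • (x : V) + p1 + ξ := by rw [← ht1, hX']; abel
        rw [this]
        exact H.add_mem (H.add_mem (H.smul_mem _ x.2.1) hp1.1) ξ.2.1
      have hYH : Y ∈ H := by
        have : Y = t • (D.A x : V) + D.A ξ := by rw [← ht2, hY']; abel
        rw [this]
        exact H.add_mem (H.smul_mem _ (D.A x).2.1) (D.A ξ).2.1
      constructor
      · refine Submodule.mem_map.2 ⟨xH, ?_, rfl⟩
        rw [LinearMap.mem_ker, ← hXφ, Submodule.mkQ_apply, Submodule.Quotient.mk_eq_zero]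
        exact hXH
      · refine Submodule.mem_map.2 ⟨yH, ?_, rfl⟩
        rw [LinearMap.mem_ker, ← hYφ, Submodule.mkQ_apply, Submodule.Quotient.mk_eq_zero]
        exact hYH
    · exfalso
      have hκne : (κ : V) ≠ 0 := fun hc => hκ0 (Subtype.ext hc)
      exact Q.no_jordan (x := (κ : V)) (y := (D.A κ : V)) (X := X') (Y := Y') (μ := μ)
        κ.2.2 (D.A κ).2.2 (D.hA κ) (D.eig_U4 hκ) hμ (Or.inl hκne) mX' mY' m2 m4
  apply LinearMap.ext
  intro v
  obtain ⟨w, hw, hwv⟩ := Submodule.mem_map.1 (hker v.2)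
  have : w = v := Subtype.ext hwv
  rw [← this]
  exact hw

end SubData

end Quad

end Pool.Agent.Helper80.Sec
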