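import Pool.Agent.Helper80.Sec.QuadEig

/-!
Subspaces meeting the four subspaces in half of their dimension.
-/

namespace Pool.Agent.Helper80.Sec

open Classical Module

section general

variable {V : Type*} [AddCommGroup V] [Module ℂ V] [FiniteDimensional ℂ V]

theorem inter_aux {H A B C : Submodule ℂ V} (hA : A ≤ H) (hB : B ≤ H) (hC : C ≤ H)
    (hAB : A ⊓ B = ⊥) (hdim : finrank ℂ H < finrank ℂ A + finrank ℂ B + finrank ℂ C) :
    ∃ a ∈ A, ∃ b ∈ B, a + b ∈ C ∧ a + b ≠ 0 := by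
  have h1 := Submodule.finrank_sup_add_finrank_inf_eq A B
  rw [hAB, finrank_bot, add_zero] at h1
  have h2 := Submodule.finrank_sup_add_finrank_inf_eq (A ⊔ B) C
  have h3 : finrank ℂ ↥((A ⊔ B) ⊔ C) ≤ finrank ℂ H :=
    Submodule.finrank_mono (sup_le (sup_le hA hB) hC)
  have h4 : 0 < finrank ℂ ↥((A ⊔ B) ⊓ C) := by omega
  have h5 : (A ⊔ B) ⊓ C ≠ ⊥ := by
    intro h
    rw [h, finrank_bot] at h4
    omega
  obtain ⟨w, hw, hw0⟩ := Submodule.exists_mem_ne_zero_of_ne_bot h5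
  obtain ⟨hw1, hw2⟩ := Submodule.mem_inf.1 hw
  obtain ⟨a, ha, b, hb, hab⟩ := Submodule.mem_sup.1 hw1
  exact ⟨a, ha, b, hb, by rw [hab]; exact hw2, by rw [hab]; exact hw0⟩

/-- a subspace `R` of `P ⊕ Q` transversal to `Q`, of dimension `dim P`, is a graph -/
theorem graph_of {P Q R : Submodule ℂ V} (hPQ : P ⊓ Q = ⊥) (hR : R ≤ P ⊔ Q) (hRQ : R ⊓ Q = ⊥)
    (hdim : finrank ℂ R = finrank ℂ P) :
    ∃ f : P →ₗ[ℂ] Q, ∀ x : P, (x : V) + (f x : V) ∈ R := by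
  let φ : (P × Q) →ₗ[ℂ] V := P.subtype.coprod Q.subtype
  have hφ : ∀ w : P × Q, φ w = (w.1 : V) + (w.2 : V) := fun w => by simp [φ]
  have hinj : Function.Injective φ := by
    rw [← LinearMap.ker_eq_bot, LinearMap.ker_eq_bot']
    intro w hw
    rw [hφ] at hw
    have h1 : (w.1 : V) = -(w.2 : V) := eq_neg_of_add_eq_zero_left hw
    have h2 : (w.1 : V) ∈ P ⊓ Q := ⟨w.1.2, by rw [h1]; exact Q.neg_mem w.2.2⟩
    rw [hPQ, Submodule.mem_bot] at h2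
    have h3 : (w.2 : V) = 0 := by rw [h2, zero_add] at hw; exact hw
    exact Prod.ext (Subtype.ext h2) (Subtype.ext h3)
  let R' : Submodule ℂ (P × Q) := R.comap φ
  have hRr : R ≤ LinearMap.range φ := by
    intro w hw
    obtain ⟨a, ha, b, hb, hab⟩ := Submodule.mem_sup.1 (hR hw)
    exact ⟨(⟨a, ha⟩, ⟨b, hb⟩), by rw [hφ]; exact hab⟩
  have hR'dim : finrank ℂ R' = finrank ℂ R := by
    have h1 : R'.map φ = R := by
      simp only [R']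
      rw [Submodule.map_comap_eq, inf_eq_right.2 hRr]
    rw [← h1]
    exact (Submodule.equivMapOfInjective φ hinj R').finrank_eq
  let g : R' →ₗ[ℂ] P := (LinearMap.fst ℂ P Q).comp R'.subtype
  have hg : Function.Injective g := by
    rw [← LinearMap.ker_eq_bot, LinearMap.ker_eq_bot']
    intro w hw
    have h1 : (w : P × Q).1 = 0 := hw
    have h2 : φ (w : P × Q) ∈ R := w.2
    rw [hφ, h1] at h2
    have h3 : ((w : P × Q).2 : V) ∈ R ⊓ Q := ⟨by simpa using h2, (w : P × Q).2.2⟩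
    rw [hRQ, Submodule.mem_bot] at h3
    exact Subtype.ext (Prod.ext h1 (Subtype.ext h3))
  have hgd : finrank ℂ R' = finrank ℂ P := by rw [hR'dim, hdim]
  let e : R' ≃ₗ[ℂ] P := LinearEquiv.ofBijective g
    ⟨hg, (LinearMap.injective_iff_surjective_of_finrank_eq_finrank hgd).1 hg⟩
  refine ⟨((LinearMap.snd ℂ P Q).comp R'.subtype).comp e.symm.toLinearMap, fun x => ?_⟩
  have h1 : g (e.symm x) = x := e.apply_symm_apply x
  have h2 : φ ((e.symm x : R') : P × Q) ∈ R := (e.symm x).2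
  rw [hφ] at h2
  have h3 : ((e.symm x : R') : P × Q).1 = x := h1
  rw [h3] at h2
  exact h2

end general

namespace Quad

variable {V : Type*} [AddCommGroup V] [Module ℂ V] (Q : Quad V)

theorem U1_inf_U3 {v : V} (h1 : v ∈ Q.U1) (h3 : v ∈ Q.U3) : v = 0 := by
  apply Q.inj
  rw [map_zero]
  funext i
  rcases Nat.lt_or_ge i Q.p with h | h
  · exact Q.h3 v h3 i (Or.inl (lt_of_lt_of_le h Q.hpq))
  · exact Q.h1 v h1 i h

theorem G1 {x y : V} (hx : x ∈ Q.U1) (hx2 : x ∈ Q.U2) (hy : y ∈ Q.U3) (h4 : x + y ∈ Q.U4) :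
    x = 0 := by
  by_contra hx0
  obtain ⟨c, _, hcx⟩ := Q.exists_rz_ne hx0
  have a := (Q.rz_U2 hx2 hcx).le_La ((Q.rz_S1 hx c).top Q.hpq Q.hqN)
  have b := Q.rz_U4 h4 (c := c) (by
    rw [rz_add]; exact sum_ne_zero Q.hpq (Q.rz_S1 hx _) (Q.rz_S3 hy _) (Or.inl hcx))
  rw [rz_add] at b
  have b' := La_split_tw Q.hpq Q.hqN (Q.rz_S1 hx _) (Q.rz_S3 hy _) b
  have d := F1x (N := Q.N) (Q.rz_S1 hx c)
  have d' := La_S3 (Q.rz_S3 hy c).tw
  have := Q.hsum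
  omega

theorem G2 {x y : V} (hx : x ∈ Q.U1) (hx4 : x ∈ Q.U4) (hy : y ∈ Q.U3) (h2 : x + y ∈ Q.U2) :
    x = 0 := by
  by_contra hx0
  obtain ⟨c, _, hcx⟩ := Q.exists_rz_ne hx0
  have a := (Q.rz_U4 hx4 hcx).le_La ((Q.rz_S1 hx c).tw.top Q.hpq Q.hqN)
  have b := Q.rz_U2 h2 (c := c) (by
    rw [rz_add]; exact sum_ne_zero Q.hpq (Q.rz_S1 hx _) (Q.rz_S3 hy _) (Or.inl hcx))
  rw [rz_add] at b
  have b' := La_split Q.hpq Q.hqN (Q.rz_S1 hx _) (Q.rz_S3 hy _) b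
  have d := F1x (N := Q.N) (Q.rz_S1 hx c)
  have d' := La_S3 (Q.rz_S3 hy c)
  have := Q.hsum
  omega

theorem G3 {x y : V} (hx : x ∈ Q.U1) (hy2 : y ∈ Q.U2) (hy : y ∈ Q.U3) (h4 : x + y ∈ Q.U4) :
    y = 0 := by
  by_contra hy0
  obtain ⟨c, _, hcy⟩ := Q.exists_rz_ne hy0
  have a := (Q.rz_U2 hy2 hcy).le_La (Q.rz_S3 hy c).top
  have b := Q.rz_U4 h4 (c := c) (by
    rw [rz_add]; exact sum_ne_zero Q.hpq (Q.rz_S1 hx _) (Q.rz_S3 hy _) (Or.inr hcy))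
  rw [rz_add] at b
  have b' := La_split_tw Q.hpq Q.hqN (Q.rz_S1 hx _) (Q.rz_S3 hy _) b
  have d := F1y (Q.rz_S3 hy c)
  have d' := La_S1 (N := Q.N) (Q.rz_S1 hx c).tw
  have := Q.hsum
  omega

theorem G4 {x y : V} (hx : x ∈ Q.U1) (hy4 : y ∈ Q.U4) (hy : y ∈ Q.U3) (h2 : x + y ∈ Q.U2) :
    y = 0 := by
  by_contra hy0
  obtain ⟨c, _, hcy⟩ := Q.exists_rz_ne hy0
  have a := (Q.rz_U4 hy4 hcy).le_La (Q.rz_S3 hy c).tw.top
  have b := Q.rz_U2 h2 (c := c) (by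
    rw [rz_add]; exact sum_ne_zero Q.hpq (Q.rz_S1 hx _) (Q.rz_S3 hy _) (Or.inr hcy))
  rw [rz_add] at b
  have b' := La_split Q.hpq Q.hqN (Q.rz_S1 hx _) (Q.rz_S3 hy _) b
  have d := F1y (Q.rz_S3 hy c)
  have d' := La_S1 (N := Q.N) (Q.rz_S1 hx c)
  have := Q.hsum
  omega

theorem G7 {x y : V} (hx : x ∈ Q.U1) (hx2 : x ∈ Q.U2) (hy : y ∈ Q.U3) (hy4 : y ∈ Q.U4)
    (hx0 : x ≠ 0) (hy0 : y ≠ 0) : False := by
  obtain ⟨c, _, hcx⟩ := Q.exists_rz_ne hx0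
  obtain ⟨d, _, hdy⟩ := Q.exists_rz_ne hy0
  have a := (Q.rz_U2 hx2 hcx).le_La ((Q.rz_S1 hx c).top Q.hpq Q.hqN)
  have b := (Q.rz_U4 hy4 hdy).le_La (Q.rz_S3 hy d).tw.top
  have a' := La_S1 (N := Q.N) (Q.rz_S1 hx c)
  have b' := La_S3 (Q.rz_S3 hy d).tw
  have := Q.hsum
  omega

theorem G7' {x y : V} (hx : x ∈ Q.U1) (hx4 : x ∈ Q.U4) (hy : y ∈ Q.U3) (hy2 : y ∈ Q.U2)
    (hx0 : x ≠ 0) (hy0 : y ≠ 0) : False := by
  obtain ⟨c, _, hcx⟩ := Q.exists_rz_ne hx0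
  obtain ⟨d, _, hdy⟩ := Q.exists_rz_ne hy0
  have a := (Q.rz_U4 hx4 hcx).le_La ((Q.rz_S1 hx c).tw.top Q.hpq Q.hqN)
  have b := (Q.rz_U2 hy2 hdy).le_La (Q.rz_S3 hy d).top
  have a' := La_S1 (N := Q.N) (Q.rz_S1 hx c).tw
  have b' := La_S3 (Q.rz_S3 hy d)
  have := Q.hsum
  omega

variable [FiniteDimensional ℂ V]

/-- The data attached to a subspace `H` of dimension `2r` meeting the four subspaces in
dimension at least `r`. -/
structure SubData (H : Submodule ℂ V) (r : ℕ) where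
  d1 : finrank ℂ ↥(H ⊓ Q.U1) = r
  d2 : finrank ℂ ↥(H ⊓ Q.U2) = r
  d3 : finrank ℂ ↥(H ⊓ Q.U3) = r
  d4 : finrank ℂ ↥(H ⊓ Q.U4) = r
  sup13 : (H ⊓ Q.U1) ⊔ (H ⊓ Q.U3) = H
  sup12 : (H ⊓ Q.U1) ⊔ (H ⊓ Q.U2) = H
  sup14 : (H ⊓ Q.U1) ⊔ (H ⊓ Q.U4) = H
  A : ↥(H ⊓ Q.U1) ≃ₗ[ℂ] ↥(H ⊓ Q.U3)
  T : Module.End ℂ ↥(H ⊓ Q.U1)
  hA : ∀ x : ↥(H ⊓ Q.U1), (x : V) + (A x : V) ∈ Q.U2
  hT : ∀ x : ↥(H ⊓ Q.U1), (x : V) + (A (T x) : V) ∈ Q.U4
  injT : Function.Injective T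

theorem sub_aux {H : Submodule ℂ V} {r : ℕ} (hH : finrank ℂ H = 2 * r)
    (k1 : r ≤ finrank ℂ ↥(H ⊓ Q.U1)) (k2 : r ≤ finrank ℂ ↥(H ⊓ Q.U2))
    (k3 : r ≤ finrank ℂ ↥(H ⊓ Q.U3)) (k4 : r ≤ finrank ℂ ↥(H ⊓ Q.U4)) :
    Nonempty (Q.SubData H r) := by
  have hle : ∀ U : Submodule ℂ V, H ⊓ U ≤ H := fun U => inf_le_left
  have i13 : (H ⊓ Q.U1) ⊓ (H ⊓ Q.U3) = ⊥ := by
    rw [eq_bot_iff]
    rintro v ⟨hv1, hv3⟩
    exact (Submodule.mem_bot ℂ).2 (Q.U1_inf_U3 hv1.2 hv3.2)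
  have general : ∀ A B : Submodule ℂ V, A ≤ H → B ≤ H → A ⊓ B = ⊥ → r ≤ finrank ℂ A →
      r ≤ finrank ℂ B → finrank ℂ A = r ∧ finrank ℂ B = r ∧ A ⊔ B = H := by
    intro A B hA hB hAB ha hb
    have h1 := Submodule.finrank_sup_add_finrank_inf_eq A B
    rw [hAB, finrank_bot, add_zero] at h1
    have h2 : finrank ℂ ↥(A ⊔ B) ≤ finrank ℂ H := Submodule.finrank_mono (sup_le hA hB)
    refine ⟨by omega, by omega, ?_⟩
    exact Submodule.eq_of_le_of_finrank_eq (sup_le hA hB) (by omega)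
  obtain ⟨d1, d3, s13⟩ := general _ _ (hle _) (hle _) i13 k1 k3
  have pos_of_ne : ∀ A : Submodule ℂ V, A ≠ ⊥ → 0 < finrank ℂ A := by
    intro A hA
    have := Submodule.one_le_finrank_iff.2 hA
    omega
  -- `H ∩ U1 ∩ U2 = 0`
  have i12 : (H ⊓ Q.U1) ⊓ (H ⊓ Q.U2) = ⊥ := by
    by_contra hne
    have hp := pos_of_ne _ hne
    obtain ⟨x0, hx0, hx0'⟩ := Submodule.exists_mem_ne_zero_of_ne_bot hne
    obtain ⟨a, ha, b, hb, hab, hab0⟩ := inter_aux (H := H) (A := (H ⊓ Q.U1) ⊓ (H ⊓ Q.U2))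
      (B := H ⊓ Q.U3) (C := H ⊓ Q.U4) (inf_le_left.trans (hle _)) (hle _) (hle _) (by
        rw [eq_bot_iff]
        rintro v ⟨hv1, hv3⟩
        exact (Submodule.mem_bot ℂ).2 (Q.U1_inf_U3 hv1.1.2 hv3.2)) (by omega)
    have ha0 := Q.G1 ha.1.2 ha.2.2 hb.2 hab.2
    rw [ha0, zero_add] at hab hab0
    exact Q.G7 hx0.1.2 hx0.2.2 hb.2 hab.2 hx0' hab0
  have i14 : (H ⊓ Q.U1) ⊓ (H ⊓ Q.U4) = ⊥ := by
    by_contra hne
    have hp := pos_of_ne _ hne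
    obtain ⟨x0, hx0, hx0'⟩ := Submodule.exists_mem_ne_zero_of_ne_bot hne
    obtain ⟨a, ha, b, hb, hab, hab0⟩ := inter_aux (H := H) (A := (H ⊓ Q.U1) ⊓ (H ⊓ Q.U4))
      (B := H ⊓ Q.U3) (C := H ⊓ Q.U2) (inf_le_left.trans (hle _)) (hle _) (hle _) (by
        rw [eq_bot_iff]
        rintro v ⟨hv1, hv3⟩
        exact (Submodule.mem_bot ℂ).2 (Q.U1_inf_U3 hv1.1.2 hv3.2)) (by omega)
    have ha0 := Q.G2 ha.1.2 ha.2.2 hb.2 hab.2
    rw [ha0, zero_add] at hab hab0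
    exact Q.G7' hx0.1.2 hx0.2.2 hb.2 hab.2 hx0' hab0
  have i32 : (H ⊓ Q.U3) ⊓ (H ⊓ Q.U2) = ⊥ := by
    by_contra hne
    have hp := pos_of_ne _ hne
    obtain ⟨y0, hy0, hy0'⟩ := Submodule.exists_mem_ne_zero_of_ne_bot hne
    obtain ⟨a, ha, b, hb, hab, hab0⟩ := inter_aux (H := H) (A := H ⊓ Q.U1)
      (B := (H ⊓ Q.U3) ⊓ (H ⊓ Q.U2)) (C := H ⊓ Q.U4) (hle _) (inf_le_left.trans (hle _)) (hle _) (by
        rw [eq_bot_iff]
        rintro v ⟨hv1, hv3⟩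
        exact (Submodule.mem_bot ℂ).2 (Q.U1_inf_U3 hv1.2 hv3.1.2)) (by omega)
    have hb0 := Q.G3 ha.2 hb.2.2 hb.1.2 hab.2
    rw [hb0, add_zero] at hab hab0
    exact Q.G7' ha.2 hab.2 hy0.1.2 hy0.2.2 hab0 hy0'
  have i34 : (H ⊓ Q.U3) ⊓ (H ⊓ Q.U4) = ⊥ := by
    by_contra hne
    have hp := pos_of_ne _ hne
    obtain ⟨y0, hy0, hy0'⟩ := Submodule.exists_mem_ne_zero_of_ne_bot hne
    obtain ⟨a, ha, b, hb, hab, hab0⟩ := inter_aux (H := H) (A := H ⊓ Q.U1)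
      (B := (H ⊓ Q.U3) ⊓ (H ⊓ Q.U4)) (C := H ⊓ Q.U2) (hle _) (inf_le_left.trans (hle _)) (hle _) (by
        rw [eq_bot_iff]
        rintro v ⟨hv1, hv3⟩
        exact (Submodule.mem_bot ℂ).2 (Q.U1_inf_U3 hv1.2 hv3.1.2)) (by omega)
    have hb0 := Q.G4 ha.2 hb.2.2 hb.1.2 hab.2
    rw [hb0, add_zero] at hab hab0
    exact Q.G7 ha.2 hab.2 hy0.1.2 hy0.2.2 hab0 hy0'
  obtain ⟨_, d2, s12⟩ := general _ _ (hle _) (hle _) i12 k1 k2
  obtain ⟨_, d4, s14⟩ := general _ _ (hle _) (hle _) i14 k1 k4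
  obtain ⟨f, hf⟩ := graph_of (P := H ⊓ Q.U1) (Q := H ⊓ Q.U3) (R := H ⊓ Q.U2) i13
    (by rw [s13]; exact hle _) (by rw [inf_comm]; exact i32) (by rw [d1, d2])
  obtain ⟨g, hg⟩ := graph_of (P := H ⊓ Q.U1) (Q := H ⊓ Q.U3) (R := H ⊓ Q.U4) i13
    (by rw [s13]; exact hle _) (by rw [inf_comm]; exact i34) (by rw [d1, d4])
  have finj : Function.Injective f := by
    rw [← LinearMap.ker_eq_bot, LinearMap.ker_eq_bot']
    intro x hx
    have := hf x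
    rw [hx] at this
    have h1 : (x : V) ∈ (H ⊓ Q.U1) ⊓ (H ⊓ Q.U2) := ⟨x.2, by simpa using this⟩
    rw [i12, Submodule.mem_bot] at h1
    exact Subtype.ext h1
  have ginj : Function.Injective g := by
    rw [← LinearMap.ker_eq_bot, LinearMap.ker_eq_bot']
    intro x hx
    have := hg x
    rw [hx] at this
    have h1 : (x : V) ∈ (H ⊓ Q.U1) ⊓ (H ⊓ Q.U4) := ⟨x.2, by simpa using this⟩
    rw [i14, Submodule.mem_bot] at h1
    exact Subtype.ext h1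
  have hd : finrank ℂ ↥(H ⊓ Q.U1) = finrank ℂ ↥(H ⊓ Q.U3) := by rw [d1, d3]
  let A : ↥(H ⊓ Q.U1) ≃ₗ[ℂ] ↥(H ⊓ Q.U3) := LinearEquiv.ofBijective f
    ⟨finj, (LinearMap.injective_iff_surjective_of_finrank_eq_finrank hd).1 finj⟩
  refine ⟨⟨d1, d2, d3, d4, s13, s12, s14, A, A.symm.toLinearMap.comp g, ?_, ?_, ?_⟩⟩
  · intro x
    exact (hf x).2
  · intro x
    have h1 : A ((A.symm.toLinearMap.comp g) x) = g x := by
      simp
    rw [h1]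
    exact (hg x).2
  · intro x x' hxx
    have : A.symm (g x) = A.symm (g x') := hxx
    exact ginj (A.symm.injective this)

namespace SubData

variable {Q} {H : Submodule ℂ V} {r : ℕ} (D : Q.SubData H r)

include D

theorem eig_ne_zero {μ : ℂ} {x : ↥(H ⊓ Q.U1)} (hx : D.T x = μ • x) (hx0 : x ≠ 0) : μ ≠ 0 := by
  intro h
  rw [h, zero_smul] at hx
  exact hx0 (D.injT (by rw [hx, map_zero]))

theorem eig_U4 {μ : ℂ} {x : ↥(H ⊓ Q.U1)} (hx : D.T x = μ • x) :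
    (x : V) + μ • (D.A x : V) ∈ Q.U4 := by
  have := D.hT x
  rw [hx, map_smul] at this
  exact this

theorem no_jordan' {μ : ℂ} {v : ↥(H ⊓ Q.U1)}
    (h : D.T (D.T v - μ • v) = μ • (D.T v - μ • v)) : D.T v - μ • v = 0 := by
  by_contra h0
  set x := D.T v - μ • v with hx
  have hμ := D.eig_ne_zero h h0
  have h4 := D.eig_U4 h
  have hne : (x : V) ≠ 0 := fun hc => h0 (Subtype.ext hc)
  refine Q.no_jordan (x := (x : V)) (y := (D.A x : V)) (X := (v : V)) (Y := (D.A v : V)) (μ := μ)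
    x.2.2 (D.A x).2.2 (D.hA x) h4 hμ (Or.inl hne) v.2.2 (D.A v).2.2 (D.hA v) ?_
  have h5 := D.hT v
  have h6 : D.T v = x + μ • v := by rw [hx]; abel
  rw [h6, map_add, map_smul] at h5
  have h7 : (v : V) + μ • (D.A v : V) + (D.A x : V) = (v : V) + ((D.A x + μ • D.A v : ↥(H ⊓ Q.U3)) : V) := by
    simp only [Submodule.coe_add, Submodule.coe_smul]
    abel
  rw [h7]
  exact h5

theorem iSup_eig : ⨆ μ : ℂ, D.T.eigenspace μ = ⊤ := by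
  rw [← Module.End.iSup_maxGenEigenspace_eq_top D.T]
  apply le_antisymm
  · exact iSup_mono fun μ => Module.End.eigenspace_le_maxGenEigenspace
  · refine iSup_mono fun μ => ?_
    intro v hv
    rw [Module.End.mem_maxGenEigenspace] at hv
    obtain ⟨k, hk⟩ := hv
    have key : ∀ k : ℕ, ∀ w, ((D.T - algebraMap ℂ _ μ) ^ (k + 1)) w = 0 →
        (D.T - algebraMap ℂ _ μ) w = 0 := by
      intro k
      induction k with
      | zero => intro w hw; simpa using hw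
      | succ k ih =>
        intro w hw
        have h1 : ((D.T - algebraMap ℂ _ μ) ^ (k + 1)) ((D.T - algebraMap ℂ _ μ) w) = 0 := by
          rw [← hw, pow_succ (D.T - algebraMap ℂ _ μ) (k + 1)]
          rfl
        have h2 := ih _ h1
        have e : ∀ u, (D.T - algebraMap ℂ _ μ) u = D.T u - μ • u := by
          intro u
          simp [Module.algebraMap_end_apply]
        rw [e, e] at h2
        rw [e]
        exact D.no_jordan' (sub_eq_zero.1 h2)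
    rw [Module.End.mem_eigenspace_iff]
    have e : ∀ u, (D.T - algebraMap ℂ _ μ) u = D.T u - μ • u := by
      intro u
      simp [Module.algebraMap_end_apply]
    rcases Nat.eq_zero_or_pos k with h0 | h0
    · subst h0
      have : v = 0 := by simpa using hk
      rw [this]; simp
    · obtain ⟨k', rfl⟩ : ∃ k', k = k' + 1 := ⟨k - 1, by omega⟩
      have hk' : ((D.T - algebraMap ℂ _ μ) ^ (k' + 1)) v = 0 := by
        have h9 : (algebraMap ℂ (Module.End ℂ ↥(H ⊓ Q.U1)) μ) = μ • 1 := Algebra.algebraMap_eq_smul_one μ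
        rw [h9]
        exact hk
      have := key k' v hk'
      rw [e] at this
      exact sub_eq_zero.1 this

end SubData

end Quad

end Pool.Agent.Helper80.Sec
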