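import Pool.Agent.Helper80.Sec.Main

/-!
Four rectangular conditions on `G(2r, n)`.
-/

namespace Pool.Agent.Helper80.Sec

open Module

variable {n : ℕ}

/-- the Schubert conditions given by the partition `(s^r, 0^r)` -/
theorem finrank_of_schubert {r s : ℕ} (hr : 1 ≤ r) (hn : 2 * r < n) (hs : s ≤ n - 2 * r)
    {F : ℕ → Submodule ℂ (Fin n → ℂ)} {H : Submodule ℂ (Fin n → ℂ)}
    (hH : H ∈ Schubert n (2 * r) (fun i => if (i : ℕ) < r then s else 0) F) :
    finrank ℂ H = 2 * r ∧ r ≤ finrank ℂ ↥(H ⊓ F (n - r - s)) := by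
  obtain ⟨h1, h2⟩ := hH
  refine ⟨h1, ?_⟩
  have h3 := h2 ⟨r - 1, by omega⟩
  beta_reduce at h3
  have h5 : n - 2 * r + (r - 1 + 1) - s = n - r - s := by omega
  rw [if_pos (show r - 1 < r by omega), h5] at h3
  have h6 : r - 1 + 1 ≤ finrank ℂ ↥(H ⊓ F (n - r - s)) := h3
  omega

theorem rect_real_transverse {r : ℕ} (hr : 1 ≤ r) (hn : 2 * r < n) {s : Fin 4 → ℕ}
    (hs : ∀ j, s j ≤ n - 2 * r) (hsum : ∑ j, s j = 2 * (n - 2 * r))
    {I : Fin 4 → Set (OnePoint ℝ)} (hpre : ∀ j, IsPreconnected (I j))
    (hdis : ∀ i j, i ≠ j → Disjoint (I i) (I j))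
    {F : Fin 4 → ℕ → Submodule ℂ (Fin n → ℂ)} (hF : ∀ j, IsSecantFlag n (I j) (F j))
    {H : Submodule ℂ (Fin n → ℂ)}
    (hH : ∀ j, H ∈ Schubert n (2 * r) (fun i => if (i : ℕ) < r then s j else 0) (F j)) :
    IsRealPoint H ∧
      TransverseAt n (2 * r) (fun j i => if (i : ℕ) < r then s j else 0) F H := by
  have hdim : ∀ j, finrank ℂ (F j (n - r - s j)) = n - r - s j := fun j => by
    have := hs j
    exact (hF j).dim _ (by omega)
  have hS := fun j => finrank_of_schubert hr hn (hs j) (hH j)
  have hsum4 : s 0 + s 1 + s 2 + s 3 = 2 * (n - 2 * r) := by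
    rw [← hsum, Fin.sum_univ_four]
  obtain ⟨hreal, hd, htr⟩ := main_aux (n := n) (I := I) hpre hdis
    (W := fun j => F j (n - r - s j))
    (fun j => by rw [hdim]; have := hs j; omega)
    (fun j => by rw [hdim]; omega)
    (by
      rw [Fin.sum_univ_four, hdim, hdim, hdim, hdim]
      have h0 := hs 0; have h1 := hs 1; have h2 := hs 2; have h3 := hs 3
      omega)
    (fun j => (hF j).sec _ (by have := hs j; omega) (by omega))
    (H := H) (r := r) (hS 0).1 (fun j => (hS j).2)
  have hcor : ∀ (j : Fin 4) (i : Fin (2 * r)),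
      IsCorner (fun i : Fin (2 * r) => if (i : ℕ) < r then s j else 0) i →
      (i : ℕ) = r - 1 ∧ 0 < s j ∧
        n - 2 * r + ((i : ℕ) + 1) - (if (i : ℕ) < r then s j else 0) = n - r - s j := by
    rintro j i ⟨h1, h2⟩
    have hi : (i : ℕ) < r := by
      by_contra h
      simp [h] at h1
    simp only [hi, if_true] at h1 h2
    have hi2 : (i : ℕ) = r - 1 := by
      by_contra h
      have h3 := h2 ⟨r - 1, by omega⟩ (by
        rw [Fin.lt_def]; simp only; omega)
      simp only [show r - 1 < r by omega, if_true, lt_irrefl] at h3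
    refine ⟨hi2, h1, ?_⟩
    simp only [hi, if_true]
    have := hs j
    omega
  refine ⟨hreal, ?_, ?_⟩
  · intro j i hi
    obtain ⟨h1, _, h3⟩ := hcor j i hi
    beta_reduce
    rw [h3, hd]
    omega
  · intro φ hφ
    refine htr φ (fun j x hx => ?_)
    by_cases hs0 : s j = 0
    · -- the condition is empty : `H + F_(n-r) = ℂ^n`
      have htop : H ⊔ F j (n - r - s j) = ⊤ := by
        apply Submodule.eq_top_of_finrank_eq
        have h1 := Submodule.finrank_sup_add_finrank_inf_eq H (F j (n - r - s j))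
        rw [hd j, hdim j, (hS 0).1] at h1
        rw [finrank_fin_fun]
        omega
      have h2 : (F j (n - r - s j)).map H.mkQ = ⊤ := by
        have h3 : (H ⊔ F j (n - r - s j)).map H.mkQ = ⊤ := by
          rw [htop, Submodule.map_top, Submodule.range_mkQ]
        rw [Submodule.map_sup] at h3
        have h4 : H.map H.mkQ = ⊥ := Submodule.mkQ_map_self H
        rwa [h4, bot_sup_eq] at h3
      rw [h2]
      exact Submodule.mem_top
    · have hi : IsCorner (fun i : Fin (2 * r) => if (i : ℕ) < r then s j else 0)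
          ⟨r - 1, by omega⟩ := by
        constructor
        · simp only [show r - 1 < r by omega, if_true]
          omega
        · intro k hk
          rw [Fin.lt_def] at hk
          simp only at hk
          have hk' : ¬ (k : ℕ) < r := by omega
          simp only [hk', if_false, show r - 1 < r by omega, if_true]
          omega
      obtain ⟨_, _, h3⟩ := hcor j _ hi
      have := hφ j ⟨r - 1, by omega⟩ hi x
      beta_reduce at this
      rw [h3] at this
      exact this hx

end Pool.Agent.Helper80.Sec
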