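import Pool.Agent.Helper80.Sec.RectU

/-!
The case of four rectangles in which the intersection is empty for dimension reasons.
-/

namespace Pool.Agent.Helper80.Sec

open Polynomial Module

section

variable {n m k' l : ℕ} {b : Fin m → ℕ} (hn : k' + ∑ j, b j + l = n)
variable {I : Fin m → Set (OnePoint ℝ)} (hdis : ∀ i j, i ≠ j → Disjoint (I i) (I j))
variable {F : Fin m → ℕ → Submodule ℂ (Fin n → ℂ)} (hF : ∀ j, IsSecantFlag n (I j) (F j))

include hn hdis hF

/-- a subspace which contains all `F^j_(b_j)` meets `F^j_(b_j + w)` in dimension at most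
`b_j + k'` if `w ≤ k' + l` -/
theorem flag_bound {j : Fin m} {w : ℕ} (hw0 : 1 ≤ w) (hw : w ≤ k' + l)
    {H : Submodule ℂ (Fin n → ℂ)} (hH : finrank ℂ H = k' + ∑ j, b j)
    (hb : ∀ j, F j (b j) ≤ H) :
    finrank ℂ ↥(H ⊓ F j (b j + w)) ≤ b j + k' := by
  classical
  have hbS : ∀ j, b j ≤ ∑ j, b j := fun j =>
    Finset.single_le_sum (f := b) (fun _ _ => Nat.zero_le _) (Finset.mem_univ j)
  rcases Nat.lt_or_ge (b j + w) n with hlt | hge
  swap
  · have h1 : finrank ℂ ↥(H ⊓ F j (b j + w)) ≤ finrank ℂ H := Submodule.finrank_mono inf_le_left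
    have h2 := hbS j
    omega
  obtain ⟨u, hu⟩ : ∃ u : Fin m → ℕ, u = fun i => if i = j then b j + w else b i := ⟨_, rfl⟩
  have hu1 : u j = b j + w := by rw [hu]; exact if_pos rfl
  have hu2 : ∀ i, i ≠ j → u i = b i := fun i hi => by rw [hu]; exact if_neg hi
  have hbu : ∀ i, b i ≤ u i := by
    intro i
    by_cases hi : i = j
    · subst hi; rw [hu1]; omega
    · rw [hu2 i hi]
  have hun : ∀ i, u i < n := by
    intro i
    by_cases hi : i = j
    · subst hi; rw [hu1]; exact hlt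
    · rw [hu2 i hi]
      have h1 := hbS i
      omega
  have hdimu : ∀ i, finrank ℂ (F i (u i)) = u i := fun i => (hF i).dim _ (hun i).le
  have hdimb : ∀ i, finrank ℂ (F i (b i)) = b i :=
    fun i => (hF i).dim _ ((hbu i).trans (hun i).le)
  have hnest := fun i => exists_nested (n := n)
    ((hF i).gen (i := b i) (lt_of_le_of_lt (hbu i) (hun i)))
    ((hF i).gen (hun i)) ((hF i).mono _ _ (hbu i) (hun i).le) (by rw [hdimu]; exact hun i)
  choose B L hB hBL hBI hLI hrepW using hnest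
  have hBlen : ∀ i, (B i).length = b i := fun i => by rw [hB, hdimb]
  have hsb : ∑ i, (B i).length = ∑ i, b i := Finset.sum_congr rfl fun i _ => hBlen i
  have hBn : ∑ i, (B i).length ≤ n := by rw [hsb]; omega
  have hN : k' + l = n - ∑ i, (B i).length := by rw [hsb]; omega
  set rep0 : OnePoint ℝ → ℝ × ℝ := fun t => t.elim (1, 0) (fun s => (s, 1)) with hrepdef
  have hrep0 : ∀ t, IsRep t (rep0 t) := by
    intro t
    induction t using OnePoint.rec with
    | infty => exact ⟨rfl, one_ne_zero⟩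
    | coe t => exact ⟨one_ne_zero, by simp [hrepdef]⟩
  have hLlen : (L j).length = w := by
    have h1 := hBL j
    rw [List.length_append, hBlen, hdimu, hu1] at h1
    omega
  have hker : LinearMap.ker (redMap n (k' + l) (∏ j, Dl rep0 (B j))) ≤ H := by
    rw [ker_red_eq hdis hrep0 hBI hBn hN]
    refine iSup_le fun i => ?_
    rw [← (hrepW i rep0 hrep0).1]
    exact hb i
  have h1 := finrank_map_of_ker hker
  rw [finrank_ker_red hdis hrep0 hBI hBn hN, hsb, hH] at h1
  have h2 := finrank_inf_of_ker hker (F j (b j + w))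
  have h3 := finrank_inf_ker_red hdis hrep0 hBI hBn hN (hLI j)
    (by rw [hBL, hdimu]; exact (hun j).le) (by rw [hLlen]; exact hw)
  rw [← (hrepW j rep0 hrep0).2, hu1, hBlen] at h3
  rw [h3] at h2
  have h4 : finrank ℂ ↥(H.map (redMap n (k' + l) (∏ j, Dl rep0 (B j))) ⊓
      (F j (b j + w)).map (redMap n (k' + l) (∏ j, Dl rep0 (B j)))) ≤
      finrank ℂ ↥(H.map (redMap n (k' + l) (∏ j, Dl rep0 (B j)))) :=
    Submodule.finrank_mono inf_le_left
  omega

end

section main

variable {n m k k' l : ℕ} {b r s : Fin m → ℕ} (hk : k' + ∑ j, b j = k) (hn : k + l = n)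
variable (hl : 1 ≤ l)
variable {J : Finset (Fin m)} (hJ : J.card = 4) (hr0 : ∀ j, j ∉ J → r j = 0)
variable (hbr : ∀ j, b j + r j ≤ k) (hsl : ∀ j, s j ≤ l)
variable (hw : ∀ j ∈ J, s j < l + r j ∧ (r j < k' ∨ 1 ≤ s j))
variable (hr : ∑ j ∈ J, r j = 2 * k') (hs : ∑ j ∈ J, s j = 2 * l)
variable (hcod : ∑ j, (b j * l + r j * s j) = k * l)
variable {I : Fin m → Set (OnePoint ℝ)} (hpre : ∀ j, IsPreconnected (I j))
variable (hdis : ∀ i j, i ≠ j → Disjoint (I i) (I j))
variable {F : Fin m → ℕ → Submodule ℂ (Fin n → ℂ)} (hF : ∀ j, IsSecantFlag n (I j) (F j))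

/-- if `r_j > k'` for some `j` then the intersection is empty -/
theorem rectE_le (hk : k' + ∑ j, b j = k) (hn : k + l = n) (hbr : ∀ j, b j + r j ≤ k)
    (hsl : ∀ j, s j ≤ l) (hw : ∀ j ∈ J, s j < l + r j ∧ (r j < k' ∨ 1 ≤ s j))
    (hdis : ∀ i j, i ≠ j → Disjoint (I i) (I j)) (hF : ∀ j, IsSecantFlag n (I j) (F j))
    {H : Submodule ℂ (Fin n → ℂ)} (hH : ∀ j, H ∈ Schubert n k
      (fun i => if (i : ℕ) < b j then l else if (i : ℕ) < b j + r j then s j else 0) (F j)) :
    ∀ j ∈ J, r j ≤ k' := by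
  intro j hj
  by_contra hcon
  push Not at hcon
  have hwj := hw j hj
  have hbrj := hbr j
  have hslj := hsl j
  have hS := fun j => rect_of_schubert hn (hbr j) (hsl j) (hF j).dim (hF j).mono (hH j)
  have h1 := (hH j).2 ⟨b j + k', by omega⟩
  beta_reduce at h1
  rw [if_neg (show ¬ b j + k' < b j by omega), if_pos (show b j + k' < b j + r j by omega)] at h1
  have h2 : n - k + (b j + k' + 1) - s j = b j + (k' + l + 1 - s j) := by omega
  rw [h2] at h1
  have h4 : b j + k' + 1 ≤ finrank ℂ ↥(H ⊓ F j (b j + (k' + l + 1 - s j))) := h1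
  have h3 := flag_bound (by rw [hk]; exact hn) hdis hF (j := j) (w := k' + l + 1 - s j)
    (by omega) (by omega) (by rw [hk]; exact (hS j).1) (fun j => (hS j).2.1)
  omega

theorem rectE_hrk (hr0 : ∀ j, j ∉ J → r j = 0) (h : ∀ j ∈ J, r j ≤ k') : ∀ j, r j ≤ k' := by
  intro j
  by_cases hj : j ∈ J
  · exact h j hj
  · rw [hr0 j hj]; exact Nat.zero_le _

theorem rectE_hw (hw : ∀ j ∈ J, s j < l + r j ∧ (r j < k' ∨ 1 ≤ s j)) (h : ∀ j, r j ≤ k') :
    ∀ j ∈ J, s j < l + r j ∧ r j < k' + s j := by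
  intro j hj
  have h1 := hw j hj
  have h2 := h j
  omega

include hk hn hl hJ hr0 hbr hsl hw hr hs hcod hpre hdis hF

/-- reality and transversality -/
theorem rectE_real_transverse {H : Submodule ℂ (Fin n → ℂ)} (hH : ∀ j, H ∈ Schubert n k
      (fun i => if (i : ℕ) < b j then l else if (i : ℕ) < b j + r j then s j else 0) (F j)) :
    IsRealPoint H ∧ TransverseAt n k
      (fun j i => if (i : ℕ) < b j then l else if (i : ℕ) < b j + r j then s j else 0) F H := by
  have h1 := rectE_hrk hr0 (rectE_le hk hn hbr hsl hw hdis hF hH)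
  exact rectU_real_transverse hk hn hl hJ hr0 h1 hsl (rectE_hw hw h1) hr hs hcod hpre hdis hF hH

omit hl hbr in
/-- the number of points -/
theorem rectE_encard (hrk : ∀ j ∈ J, r j ≤ k')
    (hp : ∀ a ∈ J, ∀ c ∈ J, a ≠ c → r a + r c = k' ∨ s a + s c = l) :
    {H : Submodule ℂ (Fin n → ℂ) | ∀ j, H ∈ Schubert n k
      (fun i => if (i : ℕ) < b j then l else if (i : ℕ) < b j + r j then s j else 0)
      (F j)}.encard =
    ((⨅ j : J, min (l + r j - s j) (k' + s j - r j)).choose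
      (⨅ j : J, min (r j) (k' - r j)) : ℕ) := by
  have h1 := rectE_hrk hr0 hrk
  exact rectU_encard hk hn hJ hr0 h1 hsl (rectE_hw hw h1) hr hs hcod hpre hdis hF hp

omit hl hpre in
/-- otherwise there are no points -/
theorem rectE_empty (h : ¬ ((∀ j ∈ J, r j ≤ k') ∧
      ∀ a ∈ J, ∀ c ∈ J, a ≠ c → r a + r c = k' ∨ s a + s c = l)) :
    {H : Submodule ℂ (Fin n → ℂ) | ∀ j, H ∈ Schubert n k
      (fun i => if (i : ℕ) < b j then l else if (i : ℕ) < b j + r j then s j else 0)
      (F j)} = ∅ := by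
  rw [Set.eq_empty_iff_forall_notMem]
  intro H hH
  have hH' : ∀ j, H ∈ Schubert n k
      (fun i => if (i : ℕ) < b j then l else if (i : ℕ) < b j + r j then s j else 0) (F j) := hH
  have h0 := rectE_le hk hn hbr hsl hw hdis hF hH'
  have h1 := rectE_hrk hr0 h0
  exact h ⟨h0, rectU_pairs hk hn hJ hr0 h1 hsl (rectE_hw hw h1) hr hs hcod hdis hF hH'⟩

end main

end Pool.Agent.Helper80.Sec
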