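import Pool.Agent.Helper80.Sec.FlagAux

/-!
The generalized secant conjecture for four rectangles.
-/

namespace Pool.Agent.Helper80.Sec

open Polynomial Module

section one

variable {n k l b r s : ℕ} (hn : k + l = n) (hbr : b + r ≤ k) (hs : s ≤ l)
variable {F : ℕ → Submodule ℂ (Fin n → ℂ)}
variable (hdim : ∀ i, i ≤ n → finrank ℂ (F i) = i) (hmono : ∀ i j, i ≤ j → j ≤ n → F i ≤ F j)
variable {H : Submodule ℂ (Fin n → ℂ)}

include hn hbr hs hdim hmono

/-- the Schubert conditions of the partition `(l^b, s^r)` -/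
theorem rect_of_schubert (hH : H ∈ Schubert n k
      (fun i => if (i : ℕ) < b then l else if (i : ℕ) < b + r then s else 0) F) :
    finrank ℂ H = k ∧ F b ≤ H ∧ b + r ≤ finrank ℂ ↥(H ⊓ F (b + (l + r - s))) := by
  obtain ⟨h1, h2⟩ := hH
  have hb : F b ≤ H := by
    rcases Nat.eq_zero_or_pos b with h0 | h0
    · have h3 : F b = ⊥ := by
        rw [← Submodule.finrank_eq_zero (R := ℂ), hdim b (by omega), h0]
      rw [h3]; exact bot_le
    · have h3 := h2 ⟨b - 1, by omega⟩
      beta_reduce at h3
      rw [if_pos (show b - 1 < b by omega)] at h3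
      have h4 : n - k + (b - 1 + 1) - l = b := by omega
      rw [h4] at h3
      have h5 : b - 1 + 1 ≤ finrank ℂ ↥(H ⊓ F b) := h3
      have h6 : H ⊓ F b = F b := by
        apply Submodule.eq_of_le_of_finrank_le inf_le_right
        rw [hdim b (by omega)]
        omega
      exact inf_eq_right.1 h6
  refine ⟨h1, hb, ?_⟩
  rcases Nat.eq_zero_or_pos r with h0 | h0
  · subst h0
    have h3 : F b ≤ H ⊓ F (b + (l + 0 - s)) := le_inf hb (hmono _ _ (by omega) (by omega))
    have h4 := Submodule.finrank_mono h3
    rw [hdim b (by omega)] at h4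
    exact h4
  · have h3 := h2 ⟨b + r - 1, by omega⟩
    beta_reduce at h3
    rw [if_neg (show ¬ b + r - 1 < b by omega), if_pos (show b + r - 1 < b + r by omega)] at h3
    have h4 : n - k + (b + r - 1 + 1) - s = b + (l + r - s) := by omega
    rw [h4] at h3
    have h5 : b + r - 1 + 1 ≤ finrank ℂ ↥(H ⊓ F (b + (l + r - s))) := h3
    omega

theorem schubert_of_rect (h1 : finrank ℂ H = k) (h2 : F b ≤ H)
    (h3 : b + r ≤ finrank ℂ ↥(H ⊓ F (b + (l + r - s)))) :
    H ∈ Schubert n k
      (fun i => if (i : ℕ) < b then l else if (i : ℕ) < b + r then s else 0) F := by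
  refine ⟨h1, fun i => ?_⟩
  have hi := i.2
  beta_reduce
  by_cases hib : (i : ℕ) < b
  · rw [if_pos hib]
    have e : n - k + ((i : ℕ) + 1) - l = (i : ℕ) + 1 := by omega
    rw [e, inf_eq_right.2 ((hmono _ _ (by omega) (by omega)).trans h2), hdim _ (by omega)]
  · rw [if_neg hib]
    by_cases hic : (i : ℕ) < b + r
    · rw [if_pos hic]
      have e : n - k + ((i : ℕ) + 1) - s = l + ((i : ℕ) + 1) - s := by omega
      rw [e]
      have k1 := finrank_inf_le_of_le H (hmono (l + ((i : ℕ) + 1) - s) (b + (l + r - s))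
        (by omega) (by omega))
      rw [hdim _ (by omega), hdim _ (by omega)] at k1
      omega
    · rw [if_neg hic]
      have e : n - k + ((i : ℕ) + 1) - 0 = l + ((i : ℕ) + 1) := by omega
      rw [e]
      have k1 := finrank_inf_le_of_le H (hmono (l + ((i : ℕ) + 1)) n (by omega) le_rfl)
      rw [hdim _ (by omega), hdim _ (by omega)] at k1
      have htop : F n = ⊤ := by
        apply Submodule.eq_top_of_finrank_eq
        rw [hdim n le_rfl, finrank_fin_fun]
      rw [htop, inf_top_eq, h1] at k1
      omega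

end one

section corner

variable {k l b r s : ℕ}

theorem corner_rect {i : Fin k} (hbr : b + r ≤ k)
    (hi : IsCorner (fun i : Fin k => if (i : ℕ) < b then l else
      if (i : ℕ) < b + r then s else 0) i) :
    ((i : ℕ) + 1 = b ∧ (if (i : ℕ) < b then l else
      if (i : ℕ) < b + r then s else 0) = l) ∨
    (0 < r ∧ (i : ℕ) + 1 = b + r ∧ (if (i : ℕ) < b then l else
      if (i : ℕ) < b + r then s else 0) = s) := by
  obtain ⟨h1, h2⟩ := hi
  beta_reduce at h1 h2
  by_cases hb : (i : ℕ) < b
  · left
    rw [if_pos hb] at h2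
    refine ⟨?_, if_pos hb⟩
    by_contra hne
    have h3 := h2 ⟨(i : ℕ) + 1, by omega⟩ (by rw [Fin.lt_def]; simp)
    simp only [show (i : ℕ) + 1 < b by omega, if_true, lt_irrefl] at h3
  · right
    rw [if_neg hb] at h1 h2
    by_cases hc : (i : ℕ) < b + r
    · rw [if_pos hc] at h2
      refine ⟨by omega, ?_, by rw [if_neg hb, if_pos hc]⟩
      by_contra hne
      have h3 := h2 ⟨(i : ℕ) + 1, by omega⟩ (by rw [Fin.lt_def]; simp)
      simp only [show ¬ (i : ℕ) + 1 < b by omega, show (i : ℕ) + 1 < b + r by omega, if_true,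
        if_false, lt_irrefl] at h3
    · rw [if_neg hc] at h1
      omega

theorem corner_rect_b (hl : 1 ≤ l) (hbk : b ≤ k) (hb : 1 ≤ b) (h : s < l ∨ r = 0) :
    IsCorner (fun i : Fin k => if (i : ℕ) < b then l else
      if (i : ℕ) < b + r then s else 0) ⟨b - 1, by omega⟩ := by
  constructor
  · beta_reduce
    rw [if_pos (show b - 1 < b by omega)]
    omega
  · intro j hj
    rw [Fin.lt_def] at hj
    beta_reduce
    have hj' : b - 1 < (j : ℕ) := hj
    rw [if_pos (show b - 1 < b by omega), if_neg (show ¬ (j : ℕ) < b by omega)]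
    split_ifs with h1
    · omega
    · omega

theorem corner_rect_r (hbk : b + r ≤ k) (hr : 1 ≤ r) (hs : 1 ≤ s) :
    IsCorner (fun i : Fin k => if (i : ℕ) < b then l else
      if (i : ℕ) < b + r then s else 0) ⟨b + r - 1, by omega⟩ := by
  constructor
  · beta_reduce
    rw [if_neg (show ¬ b + r - 1 < b by omega), if_pos (show b + r - 1 < b + r by omega)]
    omega
  · intro j hj
    rw [Fin.lt_def] at hj
    beta_reduce
    have hj' : b + r - 1 < (j : ℕ) := hj
    rw [if_neg (show ¬ b + r - 1 < b by omega), if_pos (show b + r - 1 < b + r by omega),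
      if_neg (show ¬ (j : ℕ) < b by omega), if_neg (show ¬ (j : ℕ) < b + r by omega)]
    omega

end corner

section main

variable {n m k k' l : ℕ} {b r s : Fin m → ℕ} (hk : k' + ∑ j, b j = k) (hn : k + l = n)
variable (hl : 1 ≤ l)
variable {J : Finset (Fin m)} (hJ : J.card = 4) (hr0 : ∀ j, j ∉ J → r j = 0)
variable (hrk : ∀ j, r j ≤ k') (hsl : ∀ j, s j ≤ l)
variable (hw : ∀ j ∈ J, s j < l + r j ∧ r j < k' + s j)
variable (hr : ∑ j ∈ J, r j = 2 * k') (hs : ∑ j ∈ J, s j = 2 * l)
variable (hcod : ∑ j, (b j * l + r j * s j) = k * l)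
variable {I : Fin m → Set (OnePoint ℝ)} (hpre : ∀ j, IsPreconnected (I j))
variable (hdis : ∀ i j, i ≠ j → Disjoint (I i) (I j))
variable {F : Fin m → ℕ → Submodule ℂ (Fin n → ℂ)} (hF : ∀ j, IsSecantFlag n (I j) (F j))

theorem cod_J (hk : k' + ∑ j, b j = k) (hr0 : ∀ j, j ∉ J → r j = 0)
    (hcod : ∑ j, (b j * l + r j * s j) = k * l) : ∑ j ∈ J, r j * s j = k' * l := by
  have h1 : ∑ j, r j * s j = ∑ j ∈ J, r j * s j := by
    rw [← Finset.sum_subset (Finset.subset_univ J) (fun j _ hj => by rw [hr0 j hj, zero_mul])]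
  rw [Finset.sum_add_distrib, ← Finset.sum_mul, h1, ← hk, add_mul] at hcod
  omega

theorem br_le (hk : k' + ∑ j, b j = k) (hrk : ∀ j, r j ≤ k') (j : Fin m) : b j + r j ≤ k := by
  have h1 : b j ≤ ∑ j, b j :=
    Finset.single_le_sum (f := b) (fun _ _ => Nat.zero_le _) (Finset.mem_univ j)
  have h2 := hrk j
  omega

include hk hn hJ hr0 hrk hsl hw hr hs hcod hdis hF

theorem rectU_pairs {H : Submodule ℂ (Fin n → ℂ)} (hH : ∀ j, H ∈ Schubert n k
      (fun i => if (i : ℕ) < b j then l else if (i : ℕ) < b j + r j then s j else 0) (F j)) :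
    ∀ a ∈ J, ∀ c ∈ J, a ≠ c → r a + r c = k' ∨ s a + s c = l := by
  have hS := fun j => rect_of_schubert hn (br_le hk hrk j) (hsl j) (hF j).dim (hF j).mono (hH j)
  have hJne : J.Nonempty := by rw [← Finset.card_pos]; omega
  obtain ⟨j0, _⟩ := hJne
  exact flag_pairs (by rw [hk]; exact hn) hJ hsl hw hdis hF (cod_J hk hr0 hcod) hr hs hrk
    (by rw [hk]; exact (hS j0).1) (fun j => (hS j).2.1) (fun j _ => (hS j).2.2)

include hl hpre

theorem rectU_real_transverse {H : Submodule ℂ (Fin n → ℂ)} (hH : ∀ j, H ∈ Schubert n k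
      (fun i => if (i : ℕ) < b j then l else if (i : ℕ) < b j + r j then s j else 0) (F j)) :
    IsRealPoint H ∧ TransverseAt n k
      (fun j i => if (i : ℕ) < b j then l else if (i : ℕ) < b j + r j then s j else 0) F H := by
  have hp := rectU_pairs hk hn hJ hr0 hrk hsl hw hr hs hcod hdis hF hH
  have hbr := fun j => br_le (b := b) (r := r) hk hrk j
  have hS := fun j => rect_of_schubert hn (hbr j) (hsl j) (hF j).dim (hF j).mono (hH j)
  have hJne : J.Nonempty := by rw [← Finset.card_pos]; omega
  obtain ⟨j0, _⟩ := hJne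
  obtain ⟨hreal, hd, htr⟩ := flag_aux (by rw [hk]; exact hn) hJ hsl hrk hw hr hs hdis hF hpre hp
    (by rw [hk]; exact (hS j0).1) (fun j => (hS j).2.1) (fun j _ => (hS j).2.2)
  have hbn : ∀ j, b j + r j ≤ n := fun j => by have := hbr j; omega
  have hdimb : ∀ j, finrank ℂ (F j (b j)) = b j :=
    fun j => (hF j).dim _ (by have := hbn j; omega)
  have hbot : ∀ {E : Submodule ℂ (Fin n → ℂ)}, E ≤ H → E.map H.mkQ = ⊥ := by
    intro E hE
    rw [eq_bot_iff, ← Submodule.mkQ_map_self H]
    exact Submodule.map_mono hE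
  refine ⟨hreal, ?_, ?_⟩
  · intro j i hi
    beta_reduce
    rcases corner_rect (hbr j) hi with ⟨h1, h2⟩ | ⟨h0, h1, h2⟩
    · rw [h2, h1]
      have h3 : n - k + b j - l = b j := by omega
      rw [h3, inf_eq_right.2 (hS j).2.1, hdimb]
    · rw [h2, h1]
      have h3 : n - k + (b j + r j) - s j = b j + (l + r j - s j) := by
        have := hsl j
        omega
      have hjJ : j ∈ J := by
        by_contra hcon
        rw [hr0 j hcon] at h0
        omega
      rw [h3, hd j hjJ]
  · intro φ hφ
    have hφb : ∀ j, ∀ x : H, (x : Fin n → ℂ) ∈ F j (b j) → φ x = 0 := by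
      intro j x hx
      rcases Nat.eq_zero_or_pos (b j) with h0 | h0
      · have h3 : F j (b j) = ⊥ := by
          rw [← Submodule.finrank_eq_zero (R := ℂ), hdimb, h0]
        rw [h3, Submodule.mem_bot] at hx
        have : x = 0 := Subtype.ext hx
        rw [this, map_zero]
      · by_cases hc : s j < l ∨ r j = 0
        · have hcor := corner_rect_b (k := k) (b := b j) (r := r j) (s := s j) hl
            (by have := hbr j; omega) h0 hc
          have h1 := hφ j _ hcor x
          beta_reduce at h1
          rw [if_pos (show b j - 1 < b j by omega)] at h1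
          have h4 : n - k + (b j - 1 + 1) - l = b j := by omega
          rw [h4] at h1
          have h5 := h1 hx
          rw [hbot (hS j).2.1, Submodule.mem_bot] at h5
          exact h5
        · push Not at hc
          have hsj := hsl j
          have hcor := corner_rect_r (k := k) (l := l) (b := b j) (r := r j) (s := s j) (hbr j)
            (Nat.one_le_iff_ne_zero.2 hc.2) (by omega)
          have h1 := hφ j _ hcor x
          beta_reduce at h1
          rw [if_neg (show ¬ b j + r j - 1 < b j by omega),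
            if_pos (show b j + r j - 1 < b j + r j by omega)] at h1
          have h4 : n - k + (b j + r j - 1 + 1) - s j = b j + r j := by omega
          rw [h4] at h1
          have h5 := h1 ((hF j).mono _ _ (by omega) (hbn j) hx)
          have h6 : F j (b j + r j) ≤ H := by
            have h7 := (hS j).2.2
            have h8 : b j + (l + r j - s j) = b j + r j := by omega
            rw [h8] at h7
            have h9 : H ⊓ F j (b j + r j) = F j (b j + r j) := by
              apply Submodule.eq_of_le_of_finrank_le inf_le_right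
              rw [(hF j).dim _ (hbn j)]
              exact h7
            exact inf_eq_right.1 h9
          rw [hbot h6, Submodule.mem_bot] at h5
          exact h5
    refine htr φ hφb (fun j hj x hx => ?_)
    have hwj := hw j hj
    have hsj := hsl j
    have hbj := hbr j
    rcases Nat.eq_zero_or_pos (r j) with h0 | h0
    · -- `H ∩ F_u = F_b`
      have h1 : F j (b j) = H ⊓ F j (b j + (l + r j - s j)) := by
        apply Submodule.eq_of_le_of_finrank_eq
        · exact le_inf (hS j).2.1 ((hF j).mono _ _ (by omega) (by omega))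
        · rw [hd j hj, hdimb, h0, Nat.add_zero]
      have h2 : (x : Fin n → ℂ) ∈ F j (b j) := by
        rw [h1]; exact ⟨x.2, hx⟩
      rw [hφb j x h2]
      exact Submodule.zero_mem _
    rcases Nat.eq_zero_or_pos (s j) with h0' | h0'
    · -- `H + F_u` is everything
      have htop : H ⊔ F j (b j + (l + r j - s j)) = ⊤ := by
        apply Submodule.eq_top_of_finrank_eq
        have h1 := Submodule.finrank_sup_add_finrank_inf_eq H (F j (b j + (l + r j - s j)))
        rw [hd j hj, (hF j).dim _ (by omega), (hS j0).1] at h1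
        rw [finrank_fin_fun]
        omega
      have h2 : (F j (b j + (l + r j - s j))).map H.mkQ = ⊤ := by
        have h3 : (H ⊔ F j (b j + (l + r j - s j))).map H.mkQ = ⊤ := by
          rw [htop, Submodule.map_top, Submodule.range_mkQ]
        rw [Submodule.map_sup] at h3
        have h4 : H.map H.mkQ = ⊥ := Submodule.mkQ_map_self H
        rwa [h4, bot_sup_eq] at h3
      rw [h2]
      exact Submodule.mem_top
    · have hcor := corner_rect_r (k := k) (l := l) (b := b j) (r := r j) (s := s j) (hbr j)
        h0 h0'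
      have h1 := hφ j _ hcor x
      beta_reduce at h1
      rw [if_neg (show ¬ b j + r j - 1 < b j by omega),
        if_pos (show b j + r j - 1 < b j + r j by omega)] at h1
      have h4 : n - k + (b j + r j - 1 + 1) - s j = b j + (l + r j - s j) := by omega
      rw [h4] at h1
      exact h1 hx

omit hl

theorem rectU_encard (hp : ∀ a ∈ J, ∀ c ∈ J, a ≠ c → r a + r c = k' ∨ s a + s c = l) :
    {H : Submodule ℂ (Fin n → ℂ) | ∀ j, H ∈ Schubert n k
      (fun i => if (i : ℕ) < b j then l else if (i : ℕ) < b j + r j then s j else 0)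
      (F j)}.encard =
    ((⨅ j : J, min (l + r j - s j) (k' + s j - r j)).choose
      (⨅ j : J, min (r j) (k' - r j)) : ℕ) := by
  rw [← flag_count (by rw [hk]; exact hn) hJ hsl hrk hw hr hs hdis hF hpre hp]
  congr 1
  have hJne : J.Nonempty := by rw [← Finset.card_pos]; omega
  obtain ⟨j0, _⟩ := hJne
  have hbr := fun j => br_le (b := b) (r := r) hk hrk j
  ext H
  constructor
  · intro hH
    have hS := fun j => rect_of_schubert hn (hbr j) (hsl j) (hF j).dim (hF j).mono (hH j)
    exact ⟨by rw [hk]; exact (hS j0).1, fun j => (hS j).2.1, fun j _ => (hS j).2.2⟩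
  · rintro ⟨k0, k1, k2⟩ j
    refine schubert_of_rect hn (hbr j) (hsl j) (hF j).dim (hF j).mono (by rw [k0, hk]) (k1 j) ?_
    by_cases hj : j ∈ J
    · exact k2 j hj
    · have hbj := hbr j
      have hsj := hsl j
      have h4 : F j (b j) ≤ H ⊓ F j (b j + (l + r j - s j)) :=
        le_inf (k1 j) ((hF j).mono _ _ (by omega) (by omega))
      have h5 := Submodule.finrank_mono h4
      rw [(hF j).dim (b j) (by omega)] at h5
      rw [hr0 j hj] at h5 ⊢
      exact h5

end main

end Pool.Agent.Helper80.Sec
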