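import Pool.Agent.Helper80.Sec.NCore

/-!
Reduction to subspaces which contain given secant subspaces.
-/

namespace Pool.Agent.Helper80.Sec

open Polynomial Module

variable {n N : ℕ}

/-- the map `ℂ^n → ℂ^N` dual to the multiplication by `D` -/
noncomputable def redMap (n N : ℕ) (D : ℝ[X]) : (Fin n → ℂ) →ₗ[ℂ] (Fin N → ℂ) where
  toFun v := fun i => pair v (D * X ^ (i : ℕ))
  map_add' v w := by funext i; simp [pair_add_left]
  map_smul' c v := by funext i; simp [pair_smul_left]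

theorem redMap_apply (D : ℝ[X]) (v : Fin n → ℂ) (i : Fin N) :
    redMap n N D v i = pair v (D * X ^ (i : ℕ)) := rfl

theorem redMap_cj (D : ℝ[X]) (v : Fin n → ℂ) :
    redMap n N D (cjF n v) = cjF N (redMap n N D v) := by
  funext i
  rw [redMap_apply, pair_cj]
  rfl

theorem toDual_red (D : ℝ[X]) (g : ↥(degreeLT ℂ N)) (v : Fin n → ℂ) :
    toDual N (g : ℂ[X]) (redMap n N D v) = thetaMap n N D g v := by
  by_cases h0 : (g : ℂ[X]) = 0
  · rw [thetaMap_apply, h0, mul_zero, map_zero, map_zero]; rfl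
  have hg := mem_degreeLT.1 g.2
  rw [← natDegree_lt_iff_degree_lt h0] at hg
  have h1 : cx D * (g : ℂ[X]) = ∑ m ∈ Finset.range N,
      C ((g : ℂ[X]).coeff m) * cx (D * X ^ m) := by
    nth_rewrite 1 [(g : ℂ[X]).as_sum_range_C_mul_X_pow' hg]
    rw [Finset.mul_sum]
    refine Finset.sum_congr rfl fun m _ => ?_
    have : cx (X ^ m : ℝ[X]) = X ^ m := by simp [cx]
    rw [cx_mul, this]; ring
  rw [thetaMap_apply, h1, map_sum, LinearMap.sum_apply, toDual_apply,
    ← Fin.sum_univ_eq_sum_range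
      (fun m => toDual n (C ((g : ℂ[X]).coeff m) * cx (D * X ^ m)) v) N]
  refine Finset.sum_congr rfl fun i _ => ?_
  rw [← smul_eq_C_mul, map_smul, LinearMap.smul_apply, toDual_cx, smul_eq_mul, redMap_apply,
    mul_comm]

theorem pair_red (D : ℝ[X]) (v : Fin n → ℂ) {q : ℝ[X]} (hq : q.natDegree < N) :
    pair (redMap n N D v) q = pair v (D * q) := by
  have hm : cx q ∈ degreeLT ℂ N := by
    rw [mem_degreeLT]
    by_cases h0 : cx q = 0
    · rw [h0, degree_zero]; exact WithBot.bot_lt_coe _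
    · rw [← natDegree_lt_iff_degree_lt h0, cx_natDegree]; exact hq
  have h1 := toDual_red D ⟨cx q, hm⟩ v
  rw [thetaMap_apply] at h1
  rw [← toDual_cx, h1]
  show toDual n (cx D * cx q) v = _
  rw [← cx_mul, toDual_cx]

theorem ker_red (D : ℝ[X]) : LinearMap.ker (redMap n N D) =
    (LinearMap.range (thetaMap n N D)).dualCoannihilator := by
  ext v
  rw [LinearMap.mem_ker, Submodule.mem_dualCoannihilator]
  constructor
  · rintro h _ ⟨g, rfl⟩
    rw [← toDual_red, h, map_zero]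
  · intro h
    rw [← forall_dual_apply_eq_zero_iff ℂ]
    intro l
    obtain ⟨g, rfl⟩ := le_range_one (N := N) ⊤ (Submodule.mem_top (x := l))
    rw [thetaOne_apply, toDual_red]
    exact h _ ⟨g, rfl⟩

section lin

variable {V V' : Type*} [AddCommGroup V] [Module ℂ V] [FiniteDimensional ℂ V]
variable [AddCommGroup V'] [Module ℂ V'] [FiniteDimensional ℂ V']
variable {f : V →ₗ[ℂ] V'} {H : Submodule ℂ V} (hk : LinearMap.ker f ≤ H)

include hk

omit [FiniteDimensional ℂ V] [FiniteDimensional ℂ V'] in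
theorem comap_map_of_ker : (H.map f).comap f = H := by
  rw [Submodule.comap_map_eq, sup_eq_left]; exact hk

omit [FiniteDimensional ℂ V'] in
theorem finrank_map_of_ker : finrank ℂ ↥(H.map f) + finrank ℂ ↥(LinearMap.ker f) =
    finrank ℂ H := by
  have h := finrank_map_add_inf f H
  rwa [inf_eq_right.2 hk] at h

omit [FiniteDimensional ℂ V] [FiniteDimensional ℂ V'] in
theorem map_inf_of_ker (E : Submodule ℂ V) : (H ⊓ E).map f = H.map f ⊓ E.map f := by
  apply le_antisymm
  · exact le_inf (Submodule.map_mono inf_le_left) (Submodule.map_mono inf_le_right)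
  · rintro y ⟨⟨h, hh, rfl⟩, ⟨e, he, hy⟩⟩
    refine ⟨e, ⟨?_, he⟩, hy⟩
    have h1 : e - h ∈ LinearMap.ker f := by
      rw [LinearMap.mem_ker, map_sub, hy, sub_self]
    have h2 : e = h + (e - h) := by abel
    rw [h2]
    exact H.add_mem hh (hk h1)

omit [FiniteDimensional ℂ V'] in
theorem finrank_inf_of_ker (E : Submodule ℂ V) :
    finrank ℂ ↥(H.map f ⊓ E.map f) + finrank ℂ ↥(E ⊓ LinearMap.ker f) =
      finrank ℂ ↥(H ⊓ E) := by
  have h := finrank_map_add_inf f (H ⊓ E)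
  rw [map_inf_of_ker hk] at h
  have h1 : (H ⊓ E) ⊓ LinearMap.ker f = E ⊓ LinearMap.ker f := by
    rw [inf_comm H E, inf_assoc, inf_eq_right.2 hk]
  rwa [h1] at h

omit [FiniteDimensional ℂ V] [FiniteDimensional ℂ V'] in
/-- descent of tangent vectors -/
theorem transfer_quot {ι : Type*} (E : ι → Submodule ℂ V) (φ : H →ₗ[ℂ] V ⧸ H)
    (hφk : ∀ x : H, (x : V) ∈ LinearMap.ker f → φ x = 0)
    (hφE : ∀ j, ∀ x : H, (x : V) ∈ E j → φ x ∈ (E j).map H.mkQ)
    (key : ∀ ψ : ↥(H.map f) →ₗ[ℂ] V' ⧸ (H.map f),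
      (∀ j, ∀ y : ↥(H.map f), (y : V') ∈ (E j).map f → ψ y ∈ ((E j).map f).map (H.map f).mkQ) →
        ψ = 0) : φ = 0 := by
  -- the restriction of `f` to `H`
  let g : H →ₗ[ℂ] ↥(H.map f) := f.restrict (p := H) (q := H.map f)
    (fun x hx => Submodule.mem_map_of_mem hx)
  have hg : ∀ x : H, ((g x : ↥(H.map f)) : V') = f x := fun x => rfl
  have hgs : Function.Surjective g := by
    rintro ⟨y, ⟨x, hx, rfl⟩⟩
    exact ⟨⟨x, hx⟩, rfl⟩
  -- the map of quotients
  let q : V ⧸ H →ₗ[ℂ] V' ⧸ (H.map f) := H.mapQ (H.map f) f (by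
    intro x hx; exact Submodule.mem_map_of_mem hx)
  have hq : ∀ v, q (H.mkQ v) = (H.map f).mkQ (f v) := fun v => rfl
  have hqi : Function.Injective q := by
    rw [← LinearMap.ker_eq_bot, LinearMap.ker_eq_bot']
    intro v hv
    obtain ⟨u, rfl⟩ := H.mkQ_surjective v
    rw [hq, Submodule.mkQ_apply, Submodule.Quotient.mk_eq_zero] at hv
    rw [Submodule.mkQ_apply, Submodule.Quotient.mk_eq_zero]
    have h1 : u ∈ (H.map f).comap f := hv
    rwa [comap_map_of_ker hk] at h1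
  have hker : LinearMap.ker g ≤ LinearMap.ker (q.comp φ) := by
    intro x hx
    rw [LinearMap.mem_ker, LinearMap.comp_apply]
    have h1 : f x = 0 := by
      rw [← hg, LinearMap.mem_ker.1 hx]; rfl
    rw [hφk x h1, map_zero]
  obtain ⟨ψ, hψ⟩ : ∃ ψ : ↥(H.map f) →ₗ[ℂ] V' ⧸ (H.map f), ∀ x : H, ψ (g x) = q (φ x) := by
    let e := g.quotKerEquivOfSurjective hgs
    refine ⟨((LinearMap.ker g).liftQ (q.comp φ) hker).comp e.symm.toLinearMap, fun x => ?_⟩
    have h1 : e.symm (g x) = (LinearMap.ker g).mkQ x := by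
      rw [LinearEquiv.symm_apply_eq]; rfl
    show (LinearMap.ker g).liftQ (q.comp φ) hker (e.symm (g x)) = _
    rw [h1]
    rfl
  have hψ0 : ψ = 0 := by
    refine key ψ (fun j y hy => ?_)
    obtain ⟨x, rfl⟩ := hgs y
    obtain ⟨e, he, hey⟩ := hy
    rw [hg] at hey
    have h1 : e - x ∈ LinearMap.ker f := by
      rw [LinearMap.mem_ker, map_sub, hey, sub_self]
    have h2 : e = x + (e - x) := by abel
    have heH : e ∈ H := by
      rw [h2]
      exact H.add_mem x.2 (hk h1)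
    have h3 : g x = g ⟨e, heH⟩ := Subtype.ext hey.symm
    rw [h3, hψ]
    obtain ⟨u, hu, hu'⟩ := hφE j ⟨e, heH⟩ he
    rw [← hu', hq]
    exact Submodule.mem_map_of_mem (Submodule.mem_map_of_mem hu)
  apply LinearMap.ext
  intro x
  apply hqi
  rw [← hψ, hψ0, LinearMap.zero_apply, LinearMap.zero_apply, map_zero]

end lin

end Pool.Agent.Helper80.Sec
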