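import Pool.Agent.Helper80.Sec.BalDim

/-!
The solutions of the equations of a quadruple.
-/

namespace Pool.Agent.Helper80.Sec

open Module

namespace Quad

variable {V : Type*} [AddCommGroup V] [Module ℂ V] {Q : Quad V} [FiniteDimensional ℂ V]

/-- the decomposition of a balanced subspace -/
theorem Bal.decomp {H : Submodule ℂ V} (B : Q.Bal H) (D : Q.Dims) : ∃ S : Finset Q.Lam,
    (∀ μ ∈ S, Q.px μ ∈ H ∧ Q.py μ ∈ H) ∧
    Std S (H ⊓ (Q.U1 ⊓ Q.U2)) (H ⊓ (Q.U1 ⊓ Q.U4)) (H ⊓ (Q.U3 ⊓ Q.U2))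
      (H ⊓ (Q.U3 ⊓ Q.U4)) = H := by
  have hfin := finite_Lam D
  have : Fintype Q.Lam := hfin.fintype
  classical
  let S : Finset Q.Lam := Finset.univ.filter (fun μ => Q.px μ ∈ H ∧ Q.py μ ∈ H)
  refine ⟨S, fun μ hμ => (Finset.mem_filter.1 hμ).2, ?_⟩
  have l12 : H ⊓ (Q.U1 ⊓ Q.U2) ≤ Q.U1 ⊓ Q.U2 := inf_le_right
  have l14 : H ⊓ (Q.U1 ⊓ Q.U4) ≤ Q.U1 ⊓ Q.U4 := inf_le_right
  have l32 : H ⊓ (Q.U3 ⊓ Q.U2) ≤ Q.U3 ⊓ Q.U2 := inf_le_right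
  have l34 : H ⊓ (Q.U3 ⊓ Q.U4) ≤ Q.U3 ⊓ Q.U4 := inf_le_right
  refine B.eq_of D (Std_le l12 l14 l32 l34) ?_ ?_ ?_ ?_ ?_ ?_
  · have hX : XS S ≤ H := by
      rw [XS, Submodule.span_le]
      rintro _ ⟨μ, hμ, rfl⟩
      exact (Finset.mem_filter.1 hμ).2.1
    have hY : YS S ≤ H := by
      rw [YS, Submodule.span_le]
      rintro _ ⟨μ, hμ, rfl⟩
      exact (Finset.mem_filter.1 hμ).2.2
    exact sup_le (sup_le (sup_le hX inf_le_left) inf_le_left)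
      (sup_le (sup_le hY inf_le_left) inf_le_left)
  · exact (le_sup_right.trans le_sup_left).trans le_sup_left
  · exact (le_sup_right.trans le_sup_left).trans le_sup_right
  · exact le_sup_right.trans le_sup_left
  · exact le_sup_right.trans le_sup_right
  · intro μ x y hμ0 hxH hyH hx hy h2 h4 hne
    obtain ⟨hx0, hy0⟩ := Q.eig_x_ne hx hy h2 h4 hμ0 hne
    have hμ : μ ∈ Q.Lam := ⟨hμ0, x, hx, y, hy, hne, h2, h4⟩
    obtain ⟨t, ht1, ht2⟩ := Q.eig_unique (Q.px_mem ⟨μ, hμ⟩) (Q.py_mem ⟨μ, hμ⟩) (Q.pxy2 ⟨μ, hμ⟩)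
      (Q.pxy4 ⟨μ, hμ⟩) hμ0 (Or.inl (Q.px_ne ⟨μ, hμ⟩)) hx hy h2 h4
    have ht0 : t ≠ 0 := by
      rintro rfl
      rw [zero_smul] at ht1
      exact hx0 ht1
    have hmem : (⟨μ, hμ⟩ : Q.Lam) ∈ S := by
      refine Finset.mem_filter.2 ⟨Finset.mem_univ _, ?_, ?_⟩
      · have := H.smul_mem t⁻¹ hxH
        rwa [ht1, smul_smul, inv_mul_cancel₀ ht0, one_smul] at this
      · have := H.smul_mem t⁻¹ hyH
        rwa [ht2, smul_smul, inv_mul_cancel₀ ht0, one_smul] at this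
    constructor
    · rw [ht1]
      exact Submodule.mem_sup_left (Submodule.mem_sup_left (Submodule.mem_sup_left
        (Submodule.smul_mem _ _ (px_mem_XS hmem))))
    · rw [ht2]
      exact Submodule.mem_sup_right (Submodule.mem_sup_left (Submodule.mem_sup_left
        (Submodule.smul_mem _ _ (py_mem_YS hmem))))

/-- the subspaces of dimension `h` meeting the four subspaces in dimensions at least `s_j` -/
def Sol4 (Q : Quad V) (h s1 s2 s3 s4 : ℕ) : Set (Submodule ℂ V) :=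
  {H | finrank ℂ H = h ∧ s1 ≤ finrank ℂ ↥(H ⊓ Q.U1) ∧ s2 ≤ finrank ℂ ↥(H ⊓ Q.U2) ∧
    s3 ≤ finrank ℂ ↥(H ⊓ Q.U3) ∧ s4 ≤ finrank ℂ ↥(H ⊓ Q.U4)}

open Classical in
/-- a forced part -/
noncomputable def fo (c : Prop) (T : Submodule ℂ V) : Submodule ℂ V := if c then ⊥ else T

omit [FiniteDimensional ℂ V] in
theorem fo_pos {c : Prop} (hc : c) (T : Submodule ℂ V) : fo c T = ⊥ := by
  classical exact if_pos hc

omit [FiniteDimensional ℂ V] in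
theorem fo_neg {c : Prop} (hc : ¬ c) (T : Submodule ℂ V) : fo c T = T := by
  classical exact if_neg hc

omit [FiniteDimensional ℂ V] in
theorem fo_le (c : Prop) (T : Submodule ℂ V) : fo c T ≤ T := by
  by_cases hc : c
  · rw [fo_pos hc]; exact bot_le
  · rw [fo_neg hc]

section

variable (D : Q.Dims) {h s1 s2 s3 s4 : ℕ} (h13 : s1 + s3 = h) (h24 : s2 + s4 = h)
variable (c12 : s1 + s2 = h ∨ s1 + s2 + Q.e2 = h + Q.p)
variable (c14 : s1 + s4 = h ∨ s1 + s4 + Q.e4 = h + Q.p)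

omit [FiniteDimensional ℂ V] in
theorem inf_eq_fo {c : Prop} {H T : Submodule ℂ V} [FiniteDimensional ℂ V]
    (h1 : c → finrank ℂ ↥(H ⊓ T) = 0) (h2 : ¬ c → finrank ℂ ↥(H ⊓ T) = finrank ℂ T) :
    H ⊓ T = fo c T := by
  by_cases hc : c
  · rw [fo_pos hc]
    exact (Submodule.finrank_eq_zero (R := ℂ)).1 (h1 hc)
  · rw [fo_neg hc]
    exact Submodule.eq_of_le_of_finrank_eq inf_le_right (h2 hc)

include D h13 h24 c12 c14

/-- the forced parts of a solution -/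
theorem Sol4_forced {H : Submodule ℂ V} (hH : H ∈ Q.Sol4 h s1 s2 s3 s4) :
    ∃ S : Finset Q.Lam, (∀ μ ∈ S, Q.px μ ∈ H ∧ Q.py μ ∈ H) ∧
      S.card = min (min s1 s3) (min s2 s4) ∧
      H ⊓ (Q.U1 ⊓ Q.U2) = fo (s1 + s2 = h) (Q.U1 ⊓ Q.U2) ∧
      H ⊓ (Q.U1 ⊓ Q.U4) = fo (s1 + s4 = h) (Q.U1 ⊓ Q.U4) ∧
      H ⊓ (Q.U3 ⊓ Q.U2) = fo (s1 + s4 = h) (Q.U3 ⊓ Q.U2) ∧
      H ⊓ (Q.U3 ⊓ Q.U4) = fo (s1 + s2 = h) (Q.U3 ⊓ Q.U4) ∧
      Std S (fo (s1 + s2 = h) (Q.U1 ⊓ Q.U2)) (fo (s1 + s4 = h) (Q.U1 ⊓ Q.U4))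
        (fo (s1 + s4 = h) (Q.U3 ⊓ Q.U2)) (fo (s1 + s2 = h) (Q.U3 ⊓ Q.U4)) = H := by
  obtain ⟨k0, k1, k2, k3, k4⟩ := hH
  obtain ⟨B, d1, d2, d3, d4⟩ := bal_of h13 h24 k0 k1 k2 k3 k4
  obtain ⟨S, hS, hStd⟩ := B.decomp D
  have l12 : H ⊓ (Q.U1 ⊓ Q.U2) ≤ Q.U1 ⊓ Q.U2 := inf_le_right
  have l14 : H ⊓ (Q.U1 ⊓ Q.U4) ≤ Q.U1 ⊓ Q.U4 := inf_le_right
  have l32 : H ⊓ (Q.U3 ⊓ Q.U2) ≤ Q.U3 ⊓ Q.U2 := inf_le_right
  have l34 : H ⊓ (Q.U3 ⊓ Q.U4) ≤ Q.U3 ⊓ Q.U4 := inf_le_right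
  have f0 := finrank_Std D (S := S) l12 l14 l32 l34
  have f1 := Std_dim1 D (S := S) l12 l14 l32 l34
  have f2 := Std_dim2 D (S := S) l12 l14 l32 l34
  have f3 := Std_dim3 D (S := S) l12 l14 l32 l34
  have f4 := Std_dim4 D (S := S) l12 l14 l32 l34
  rw [hStd] at f0 f1 f2 f3 f4
  have g12 := Submodule.finrank_mono l12
  have g14 := Submodule.finrank_mono l14
  have g32 := Submodule.finrank_mono l32
  have g34 := Submodule.finrank_mono l34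
  have t12 := finrank_U12 D
  have t14 := finrank_U14 D
  have t32 := finrank_U32 D
  have t34 := finrank_U34 D
  have hs := Q.hsum
  have hpq := Q.hpq
  have hqN := Q.hqN
  have k12 : s1 + s2 + finrank ℂ ↥(H ⊓ (Q.U3 ⊓ Q.U4)) =
      h + finrank ℂ ↥(H ⊓ (Q.U1 ⊓ Q.U2)) := by omega
  have k14 : s1 + s4 + finrank ℂ ↥(H ⊓ (Q.U3 ⊓ Q.U2)) =
      h + finrank ℂ ↥(H ⊓ (Q.U1 ⊓ Q.U4)) := by omega
  have e12 : H ⊓ (Q.U1 ⊓ Q.U2) = fo (s1 + s2 = h) (Q.U1 ⊓ Q.U2) :=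
    inf_eq_fo (fun hc => by omega) (fun hc => by omega)
  have e34 : H ⊓ (Q.U3 ⊓ Q.U4) = fo (s1 + s2 = h) (Q.U3 ⊓ Q.U4) :=
    inf_eq_fo (fun hc => by omega) (fun hc => by omega)
  have e14 : H ⊓ (Q.U1 ⊓ Q.U4) = fo (s1 + s4 = h) (Q.U1 ⊓ Q.U4) :=
    inf_eq_fo (fun hc => by omega) (fun hc => by omega)
  have e32 : H ⊓ (Q.U3 ⊓ Q.U2) = fo (s1 + s4 = h) (Q.U3 ⊓ Q.U2) :=
    inf_eq_fo (fun hc => by omega) (fun hc => by omega)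
  refine ⟨S, hS, by omega, e12, e14, e32, e34, ?_⟩
  rw [← e12, ← e14, ← e32, ← e34]
  exact hStd

theorem Std_mem_Sol4 {S : Finset Q.Lam} (hS : S.card = min (min s1 s3) (min s2 s4)) :
    Std S (fo (s1 + s2 = h) (Q.U1 ⊓ Q.U2)) (fo (s1 + s4 = h) (Q.U1 ⊓ Q.U4))
        (fo (s1 + s4 = h) (Q.U3 ⊓ Q.U2)) (fo (s1 + s2 = h) (Q.U3 ⊓ Q.U4)) ∈
      Q.Sol4 h s1 s2 s3 s4 := by
  have l12 := fo_le (s1 + s2 = h) (Q.U1 ⊓ Q.U2)
  have l14 := fo_le (s1 + s4 = h) (Q.U1 ⊓ Q.U4)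
  have l32 := fo_le (s1 + s4 = h) (Q.U3 ⊓ Q.U2)
  have l34 := fo_le (s1 + s2 = h) (Q.U3 ⊓ Q.U4)
  have f0 := finrank_Std D (S := S) l12 l14 l32 l34
  have f1 := Std_dim1 D (S := S) l12 l14 l32 l34
  have f2 := Std_dim2 D (S := S) l12 l14 l32 l34
  have f3 := Std_dim3 D (S := S) l12 l14 l32 l34
  have f4 := Std_dim4 D (S := S) l12 l14 l32 l34
  have t12 := finrank_U12 D
  have t14 := finrank_U14 D
  have t32 := finrank_U32 D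
  have t34 := finrank_U34 D
  have hs := Q.hsum
  have hpq := Q.hpq
  have hqN := Q.hqN
  have g12 : (s1 + s2 = h ∧ finrank ℂ ↥(fo (s1 + s2 = h) (Q.U1 ⊓ Q.U2)) = 0 ∧
      finrank ℂ ↥(fo (s1 + s2 = h) (Q.U3 ⊓ Q.U4)) = 0) ∨
      (s1 + s2 ≠ h ∧ finrank ℂ ↥(fo (s1 + s2 = h) (Q.U1 ⊓ Q.U2)) = Q.p - Q.e2 ∧
      finrank ℂ ↥(fo (s1 + s2 = h) (Q.U3 ⊓ Q.U4)) = Q.N - Q.q - Q.e4) := by
    by_cases hc : s1 + s2 = h
    · left
      rw [fo_pos hc, fo_pos hc, finrank_bot]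
      exact ⟨hc, rfl, rfl⟩
    · right
      rw [fo_neg hc, fo_neg hc]
      exact ⟨hc, t12, t34⟩
  have g14 : (s1 + s4 = h ∧ finrank ℂ ↥(fo (s1 + s4 = h) (Q.U1 ⊓ Q.U4)) = 0 ∧
      finrank ℂ ↥(fo (s1 + s4 = h) (Q.U3 ⊓ Q.U2)) = 0) ∨
      (s1 + s4 ≠ h ∧ finrank ℂ ↥(fo (s1 + s4 = h) (Q.U1 ⊓ Q.U4)) = Q.p - Q.e4 ∧
      finrank ℂ ↥(fo (s1 + s4 = h) (Q.U3 ⊓ Q.U2)) = Q.N - Q.q - Q.e2) := by
    by_cases hc : s1 + s4 = h
    · left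
      rw [fo_pos hc, fo_pos hc, finrank_bot]
      exact ⟨hc, rfl, rfl⟩
    · right
      rw [fo_neg hc, fo_neg hc]
      exact ⟨hc, t14, t32⟩
  refine ⟨by omega, by omega, by omega, by omega, by omega⟩

omit h13 h24 c12 c14 in
theorem Std_inj {A12 A14 A32 A34 : Submodule ℂ V} (h12 : A12 ≤ Q.U1 ⊓ Q.U2)
    (h14 : A14 ≤ Q.U1 ⊓ Q.U4) (h32 : A32 ≤ Q.U3 ⊓ Q.U2) (h34 : A34 ≤ Q.U3 ⊓ Q.U4) :
    Function.Injective (fun S : Finset Q.Lam => Std S A12 A14 A32 A34) := by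
  classical
  have key : ∀ S T : Finset Q.Lam, Std S A12 A14 A32 A34 ≤ Std T A12 A14 A32 A34 → S ⊆ T := by
    intro S T h μ hμ
    have h1 : Q.px μ ∈ Std T A12 A14 A32 A34 := h (Submodule.mem_sup_left
      (Submodule.mem_sup_left (Submodule.mem_sup_left (px_mem_XS hμ))))
    obtain ⟨u, hu, v, hv, huv⟩ := Submodule.mem_sup.1 h1
    have h2 := split_zero (Q := Q) (u := u - Q.px μ) (v := v)
      (Q.U1.sub_mem (X_le h12 h14 hu) (Q.px_mem μ)) (Y_le h32 h34 hv) (by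
        rw [← huv]; abel)
    have h3 : u = Q.px μ := sub_eq_zero.1 h2.1
    rw [h3] at hu
    obtain ⟨w, hw, b, hb, e1⟩ := Submodule.mem_sup.1 hu
    obtain ⟨x, hx, a, ha, e2⟩ := Submodule.mem_sup.1 hw
    have hx' : x - Q.px μ ∈ XS (insert μ T) := by
      refine Submodule.sub_mem _ ?_ (px_mem_XS (Finset.mem_insert_self _ _))
      refine Submodule.span_mono (Set.image_mono ?_) hx
      exact Finset.coe_subset.2 (Finset.subset_insert _ _)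
    have h4 := indep1 D hx' (h12 ha) (h14 hb) (by
      rw [← e1, ← e2]; abel)
    have h5 : x = Q.px μ := sub_eq_zero.1 h4.1
    rw [h5] at hx
    by_contra hμT
    exact (linInd_px D).notMem_span_image (s := (T : Set Q.Lam)) (by simpa using hμT) hx
  intro S T h
  have h' : Std S A12 A14 A32 A34 = Std T A12 A14 A32 A34 := h
  exact Finset.Subset.antisymm (key S T h'.le) (key T S h'.ge)

theorem Sol4_eq : Q.Sol4 h s1 s2 s3 s4 = (fun S : Finset Q.Lam =>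
    Std S (fo (s1 + s2 = h) (Q.U1 ⊓ Q.U2)) (fo (s1 + s4 = h) (Q.U1 ⊓ Q.U4))
        (fo (s1 + s4 = h) (Q.U3 ⊓ Q.U2)) (fo (s1 + s2 = h) (Q.U3 ⊓ Q.U4))) ''
    {S | S.card = min (min s1 s3) (min s2 s4)} := by
  apply Set.Subset.antisymm
  · intro H hH
    obtain ⟨S, -, hS, -, -, -, -, hStd⟩ := Sol4_forced D h13 h24 c12 c14 hH
    exact ⟨S, hS, hStd⟩
  · rintro _ ⟨S, hS, rfl⟩
    exact Std_mem_Sol4 D h13 h24 c12 c14 hS

theorem encard_Sol4 : (Q.Sol4 h s1 s2 s3 s4).encard =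
    ((min (min Q.p (Q.N - Q.q)) (min Q.e2 Q.e4)).choose (min (min s1 s3) (min s2 s4)) : ℕ) := by
  have hfin := finite_Lam D
  have : Fintype Q.Lam := hfin.fintype
  rw [Sol4_eq D h13 h24 c12 c14, (Std_inj D (fo_le _ _) (fo_le _ _) (fo_le _ _)
    (fo_le _ _)).encard_image, ← ncard_Lam D]
  have h1 : ({S : Finset Q.Lam | S.card = min (min s1 s3) (min s2 s4)}) =
      ((Finset.univ.powersetCard (min (min s1 s3) (min s2 s4)) : Finset (Finset Q.Lam)) :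
        Set (Finset Q.Lam)) := by
    ext S
    simp [Finset.mem_powersetCard]
  rw [h1, Set.encard_coe_eq_coe_finsetCard, Finset.card_powersetCard, Finset.card_univ]
  congr 2
  rw [← Nat.card_eq_fintype_card]
  rfl

end

end Quad

end Pool.Agent.Helper80.Sec
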