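import Pool.Agent.Helper80.Sec.Sol4

/-!
Transversality and reality of the solutions of the equations of a quadruple.
-/

namespace Pool.Agent.Helper80.Sec

open Module

namespace Quad

variable {V : Type*} [AddCommGroup V] [Module ℂ V] {Q : Quad V} [FiniteDimensional ℂ V]

omit [FiniteDimensional ℂ V] in
theorem inf_sup_le {H A B : Submodule ℂ V} [FiniteDimensional ℂ V] (htop : A ⊔ B = ⊤)
    (hd : finrank ℂ ↥(H ⊓ A) + finrank ℂ ↥(H ⊓ B) = finrank ℂ H + finrank ℂ ↥(A ⊓ B)) :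
    (A ⊔ H) ⊓ (B ⊔ H) ≤ H := by
  have i1 := Submodule.finrank_sup_add_finrank_inf_eq A H
  have i2 := Submodule.finrank_sup_add_finrank_inf_eq B H
  have i3 := Submodule.finrank_sup_add_finrank_inf_eq (A ⊔ H) (B ⊔ H)
  have i4 := Submodule.finrank_sup_add_finrank_inf_eq A B
  have e1 : (A ⊔ H) ⊔ (B ⊔ H) = ⊤ := by
    rw [eq_top_iff, ← htop]
    exact sup_le (le_sup_left.trans le_sup_left) (le_sup_left.trans le_sup_right)
  rw [htop] at i4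
  rw [e1] at i3
  rw [inf_comm A H] at i1
  rw [inf_comm B H] at i2
  have e2 : H = (A ⊔ H) ⊓ (B ⊔ H) :=
    Submodule.eq_of_le_of_finrank_eq (le_inf le_sup_right le_sup_right) (by omega)
  exact e2.ge

theorem Bal.transversal {H : Submodule ℂ V} (B : Q.Bal H) (D : Q.Dims) (φ : H →ₗ[ℂ] V ⧸ H)
    (t1 : ∀ x : H, (x : V) ∈ Q.U1 → φ x ∈ Q.U1.map H.mkQ)
    (t2 : ∀ x : H, (x : V) ∈ Q.U2 → φ x ∈ Q.U2.map H.mkQ)
    (t3 : ∀ x : H, (x : V) ∈ Q.U3 → φ x ∈ Q.U3.map H.mkQ)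
    (t4 : ∀ x : H, (x : V) ∈ Q.U4 → φ x ∈ Q.U4.map H.mkQ)
    (p12 : ∀ x : H, (x : V) ∈ Q.U1 → (x : V) ∈ Q.U2 → φ x = 0)
    (p14 : ∀ x : H, (x : V) ∈ Q.U1 → (x : V) ∈ Q.U4 → φ x = 0)
    (p32 : ∀ x : H, (x : V) ∈ Q.U3 → (x : V) ∈ Q.U2 → φ x = 0)
    (p34 : ∀ x : H, (x : V) ∈ Q.U3 → (x : V) ∈ Q.U4 → φ x = 0) : φ = 0 := by
  obtain ⟨S, hS, hStd⟩ := B.decomp D
  -- the eigenpairs
  have hpair : ∀ μ ∈ S, ∀ (hx : Q.px μ ∈ H) (hy : Q.py μ ∈ H),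
      φ ⟨Q.px μ, hx⟩ = 0 ∧ φ ⟨Q.py μ, hy⟩ = 0 := by
    intro μ hμS hx hy
    set xH : H := ⟨Q.px μ, hx⟩ with hxH
    set yH : H := ⟨Q.py μ, hy⟩ with hyH
    obtain ⟨X0, hX0, hX0φ⟩ := Submodule.mem_map.1 (t1 xH (Q.px_mem μ))
    obtain ⟨Y0, hY0, hY0φ⟩ := Submodule.mem_map.1 (t3 yH (Q.py_mem μ))
    obtain ⟨w2, hw2, hw2φ⟩ := Submodule.mem_map.1 (t2 (xH + yH) (by
      rw [Submodule.coe_add]; exact Q.pxy2 μ))
    obtain ⟨w4, hw4, hw4φ⟩ := Submodule.mem_map.1 (t4 (xH + (μ : ℂ) • yH) (by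
      rw [Submodule.coe_add, Submodule.coe_smul]; exact Q.pxy4 μ))
    have a2 : X0 + Y0 - w2 ∈ H := by
      rw [← Submodule.Quotient.mk_eq_zero, ← Submodule.mkQ_apply, map_sub, map_add, hX0φ, hY0φ,
        hw2φ, map_add, sub_self]
    obtain ⟨a, ha, b, hb, hab⟩ := Submodule.mem_sup.1 (B.sup13 a2)
    set X : V := X0 - a with hX
    set Y : V := Y0 - b with hY
    have mX : X ∈ Q.U1 := Q.U1.sub_mem hX0 ha.2
    have mY : Y ∈ Q.U3 := Q.U3.sub_mem hY0 hb.2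
    have mXY : X + Y ∈ Q.U2 := by
      have : X + Y = w2 := by
        have h9 : w2 = X0 + Y0 - (a + b) := by rw [hab]; abel
        rw [hX, hY, h9]; abel
      rw [this]; exact hw2
    have qX : H.mkQ X = φ xH := by
      have : H.mkQ a = 0 := by
        rw [Submodule.mkQ_apply, Submodule.Quotient.mk_eq_zero]; exact ha.1
      rw [hX, map_sub, this, sub_zero, hX0φ]
    have qY : H.mkQ Y = φ yH := by
      have : H.mkQ b = 0 := by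
        rw [Submodule.mkQ_apply, Submodule.Quotient.mk_eq_zero]; exact hb.1
      rw [hY, map_sub, this, sub_zero, hY0φ]
    have a4 : X + (μ : ℂ) • Y - w4 ∈ H := by
      rw [← Submodule.Quotient.mk_eq_zero, ← Submodule.mkQ_apply, map_sub, map_add, map_smul, qX,
        qY, hw4φ, map_add, map_smul, sub_self]
    -- the class of `X + μ Y` modulo `U4`
    have h1 : Q.U4.mkQ (X + (μ : ℂ) • Y - w4) ∈ (Q.PM H).map Q.mG := by
      rw [B.map_mG_eq]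
      exact Submodule.mem_map_of_mem a4
    obtain ⟨w', hw', ew'⟩ := Submodule.mem_map.1 h1
    set σ : ℂ := (Complex.I - (μ : ℂ))⁻¹ with hσ
    have hμI := Lam_ne_I μ
    have hσ0 : σ ≠ 0 := inv_ne_zero hμI
    have hσμ : σ * (Complex.I - (μ : ℂ)) = 1 := inv_mul_cancel₀ hμI
    have hmaps : ∀ w ∈ Q.PM H, (opS D - algebraMap ℂ (Module.End ℂ ↥Q.PW) σ) w ∈ Q.PM H := by
      intro w hw
      have : (opS D - algebraMap ℂ (Module.End ℂ ↥Q.PW) σ) w = opS D w - σ • w := by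
        simp [Module.algebraMap_end_apply]
      rw [this]
      exact Submodule.sub_mem _ (B.inv D w hw) (Submodule.smul_mem _ _ hw)
    set f : Module.End ℂ ↥(Q.PM H) :=
      (opS D - algebraMap ℂ (Module.End ℂ ↥Q.PW) σ).restrict hmaps with hf
    have fe : ∀ u : ↥(Q.PM H), ((f u : ↥(Q.PM H)) : ↥Q.PW) = opS D u - σ • (u : ↥Q.PW) := by
      intro u
      have : ((f u : ↥(Q.PM H)) : ↥Q.PW) =
        (opS D - algebraMap ℂ (Module.End ℂ ↥Q.PW) σ) (u : ↥Q.PW) := rfl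
      rw [this]
      simp [Module.algebraMap_end_apply]
    have hdec := ker_sup_range (K := ℂ) (P := ↥(Q.PM H)) (f := f) (fun v hv => by
      have h2 := congrArg Subtype.val hv
      rw [fe, fe] at h2
      have h3 := opS_no_jordan D σ (v : ↥Q.PW) (sub_eq_zero.1 h2)
      apply Subtype.ext
      rw [fe]
      exact h3)
    have hmem : (⟨w', hw'⟩ : ↥(Q.PM H)) ∈ LinearMap.ker f ⊔ LinearMap.range f := by
      rw [hdec]; exact Submodule.mem_top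
    obtain ⟨κ, hκ, z, ⟨ξ, rfl⟩, eκ⟩ := Submodule.mem_sup.1 hmem
    have hκ1 : opS D (κ : ↥Q.PW) = σ • (κ : ↥Q.PW) := by
      have h2 := congrArg Subtype.val (LinearMap.mem_ker.1 hκ)
      rw [fe] at h2
      exact sub_eq_zero.1 h2
    rw [opS_eig, eig_iff hσ0] at hκ1
    have hinvσ : Complex.I - σ⁻¹ = (μ : ℂ) := by rw [hσ, inv_inv]; ring
    rw [hinvσ] at hκ1
    have hκ2 := Q.mem_PW.1 (κ : ↥Q.PW).2
    have hξ2 := Q.mem_PW.1 (ξ : ↥Q.PW).2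
    have mκ1 := ((κ : ↥Q.PW) : Q.U1 × Q.U3).1.2
    have mκ3 := ((κ : ↥Q.PW) : Q.U1 × Q.U3).2.2
    have mξ1 := ((ξ : ↥Q.PW) : Q.U1 × Q.U3).1.2
    have mξ3 := ((ξ : ↥Q.PW) : Q.U1 × Q.U3).2.2
    have Hξ1 : (((ξ : ↥Q.PW) : Q.U1 × Q.U3).1 : V) ∈ H := ξ.2.1
    have Hξ3 : (((ξ : ↥Q.PW) : Q.U1 × Q.U3).2 : V) ∈ H := ξ.2.2
    have ew : (w' : ↥Q.PW) = (κ : ↥Q.PW) + (opS D ξ - σ • (ξ : ↥Q.PW)) := by
      have h2 := congrArg Subtype.val eκ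
      rw [Submodule.coe_add, fe] at h2
      exact h2.symm
    have e5 : Q.mG w' = Q.mG (κ : ↥Q.PW) + (Q.mB (ξ : ↥Q.PW) - σ • Q.mG (ξ : ↥Q.PW)) := by
      rw [ew, map_add, map_sub, map_smul, mG_opS]
    rw [e5, mG_apply, mB_apply, mG_apply, ← map_smul, ← map_sub, ← map_add, ← sub_eq_zero,
      ← map_sub, Submodule.mkQ_apply, Submodule.Quotient.mk_eq_zero] at ew'
    set κ1 := (((κ : ↥Q.PW) : Q.U1 × Q.U3).1 : V) with hκ1d
    set κ3 := (((κ : ↥Q.PW) : Q.U1 × Q.U3).2 : V) with hκ3d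
    set ξ1 := (((ξ : ↥Q.PW) : Q.U1 × Q.U3).1 : V) with hξ1d
    set ξ3 := (((ξ : ↥Q.PW) : Q.U1 × Q.U3).2 : V) with hξ3d
    set X' : V := X + σ • ξ1 with hX'
    set Y' : V := Y + σ • ξ3 with hY'
    have mX' : X' ∈ Q.U1 := Q.U1.add_mem mX (Q.U1.smul_mem _ mξ1)
    have mY' : Y' ∈ Q.U3 := Q.U3.add_mem mY (Q.U3.smul_mem _ mξ3)
    have m2 : X' + Y' ∈ Q.U2 := by
      have : X' + Y' = (X + Y) + σ • (ξ1 + ξ3) := by rw [hX', hY']; module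
      rw [this]
      exact Q.U2.add_mem mXY (Q.U2.smul_mem _ hξ2)
    have m4 : X' + (μ : ℂ) • Y' + ((μ : ℂ) - Complex.I) • κ3 ∈ Q.U4 := by
      have h6 := Q.U4.sub_mem (Q.U4.add_mem hw4 hκ1) ew'
      have h8 : (1 : ℂ) - σ * Complex.I = -(σ * μ) := by linear_combination (-1 : ℂ) * hσμ
      have h7 : w4 + (κ1 + (μ : ℂ) • κ3) -
          (κ1 + Complex.I • κ3 + (ξ3 - σ • (ξ1 + Complex.I • ξ3)) - (X + (μ : ℂ) • Y - w4)) =
          X + (μ : ℂ) • Y + σ • ξ1 - (1 - σ * Complex.I) • ξ3 +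
            ((μ : ℂ) - Complex.I) • κ3 := by module
      rw [h7, h8] at h6
      have h9 : X' + (μ : ℂ) • Y' + ((μ : ℂ) - Complex.I) • κ3 =
          X + (μ : ℂ) • Y + σ • ξ1 - -(σ * (μ : ℂ)) • ξ3 + ((μ : ℂ) - Complex.I) • κ3 := by
        rw [hX', hY']; module
      rw [h9]; exact h6
    have hμI' : (μ : ℂ) - Complex.I ≠ 0 := by
      rw [← neg_sub]; exact neg_ne_zero.2 hμI
    have hκ0 : ¬ (κ1 ≠ 0 ∨ κ3 ≠ 0) := by
      intro hne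
      refine Q.no_jordan (x := ((μ : ℂ) - Complex.I) • κ1) (y := ((μ : ℂ) - Complex.I) • κ3)
        (X := X') (Y := Y') (μ := (μ : ℂ)) (Q.U1.smul_mem _ mκ1) (Q.U3.smul_mem _ mκ3) ?_ ?_ μ.2.1
        (hne.imp (smul_ne_zero hμI') (smul_ne_zero hμI')) mX' mY' m2 m4
      · rw [← smul_add]; exact Q.U2.smul_mem _ hκ2
      · rw [smul_comm, ← smul_add]; exact Q.U4.smul_mem _ hκ1
    push Not at hκ0
    rw [hκ0.2, smul_zero, add_zero] at m4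
    obtain ⟨t, ht1, ht2⟩ := Q.eig_unique (Q.px_mem μ) (Q.py_mem μ) (Q.pxy2 μ) (Q.pxy4 μ) μ.2.1
      (Or.inl (Q.px_ne μ)) mX' mY' m2 m4
    have hXH : X ∈ H := by
      have : X = t • Q.px μ - σ • ξ1 := by rw [← ht1, hX']; abel
      rw [this]
      exact H.sub_mem (H.smul_mem _ hx) (H.smul_mem _ Hξ1)
    have hYH : Y ∈ H := by
      have : Y = t • Q.py μ - σ • ξ3 := by rw [← ht2, hY']; abel
      rw [this]
      exact H.sub_mem (H.smul_mem _ hy) (H.smul_mem _ Hξ3)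
    constructor
    · rw [← qX, Submodule.mkQ_apply, Submodule.Quotient.mk_eq_zero]; exact hXH
    · rw [← qY, Submodule.mkQ_apply, Submodule.Quotient.mk_eq_zero]; exact hYH
  -- all the pieces are in the kernel
  have hker : H ≤ (LinearMap.ker φ).map H.subtype := by
    have hX : XS S ≤ (LinearMap.ker φ).map H.subtype := by
      rw [XS, Submodule.span_le]
      rintro _ ⟨μ, hμ, rfl⟩
      have h1 := hS μ hμ
      exact ⟨⟨Q.px μ, h1.1⟩, (hpair μ hμ h1.1 h1.2).1, rfl⟩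
    have hY : YS S ≤ (LinearMap.ker φ).map H.subtype := by
      rw [YS, Submodule.span_le]
      rintro _ ⟨μ, hμ, rfl⟩
      have h1 := hS μ hμ
      exact ⟨⟨Q.py μ, h1.2⟩, (hpair μ hμ h1.1 h1.2).2, rfl⟩
    have hT : ∀ {A C : Submodule ℂ V}, (∀ x : H, (x : V) ∈ A → (x : V) ∈ C → φ x = 0) →
        H ⊓ (A ⊓ C) ≤ (LinearMap.ker φ).map H.subtype := by
      rintro A C hp v ⟨hv, hvA, hvC⟩
      exact ⟨⟨v, hv⟩, hp ⟨v, hv⟩ hvA hvC, rfl⟩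
    calc H = _ := hStd.symm
      _ ≤ _ := sup_le (sup_le (sup_le hX (hT p12)) (hT p14)) (sup_le (sup_le hY (hT p32)) (hT p34))
  apply LinearMap.ext
  intro v
  obtain ⟨w, hw, hwv⟩ := Submodule.mem_map.1 (hker v.2)
  have : w = v := Subtype.ext hwv
  rw [← this]
  exact hw

theorem pair_disj {H A C : Submodule ℂ V} {c : Prop} (e : H ⊓ (A ⊓ C) = fo c (A ⊓ C))
    (hdim : ¬ c → finrank ℂ ↥(A ⊓ C) ≠ 0 →
      finrank ℂ A + finrank ℂ C = finrank ℂ V + finrank ℂ ↥(A ⊓ C) ∧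
      finrank ℂ ↥(H ⊓ A) + finrank ℂ ↥(H ⊓ C) = finrank ℂ H + finrank ℂ ↥(A ⊓ C)) :
    H ⊓ (A ⊓ C) = ⊥ ∨ (A ⊔ H) ⊓ (C ⊔ H) ≤ H := by
  by_cases hc : c
  · left; rw [e, fo_pos hc]
  by_cases h0 : finrank ℂ ↥(A ⊓ C) = 0
  · left
    rw [Submodule.finrank_eq_zero] at h0
    rw [h0, inf_bot_eq]
  · right
    obtain ⟨h1, h2⟩ := hdim hc h0
    refine inf_sup_le ?_ h2
    apply Submodule.eq_top_of_finrank_eq
    have := Submodule.finrank_sup_add_finrank_inf_eq A C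
    omega

omit [FiniteDimensional ℂ V] in
theorem kill_pair {H A C : Submodule ℂ V} {φ : H →ₗ[ℂ] V ⧸ H}
    (tA : ∀ x : H, (x : V) ∈ A → φ x ∈ A.map H.mkQ)
    (tC : ∀ x : H, (x : V) ∈ C → φ x ∈ C.map H.mkQ)
    (hAC : H ⊓ (A ⊓ C) = ⊥ ∨ (A ⊔ H) ⊓ (C ⊔ H) ≤ H) (x : H) (hxA : (x : V) ∈ A)
    (hxC : (x : V) ∈ C) : φ x = 0 := by
  rcases hAC with h0 | h0
  · have h1 : (x : V) ∈ H ⊓ (A ⊓ C) := ⟨x.2, hxA, hxC⟩
    rw [h0, Submodule.mem_bot] at h1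
    rw [show x = 0 from Subtype.ext h1, map_zero]
  · obtain ⟨u, hu, eu⟩ := Submodule.mem_map.1 (tA x hxA)
    obtain ⟨v, hv, ev⟩ := Submodule.mem_map.1 (tC x hxC)
    have h1 : u - v ∈ H := by
      rw [← Submodule.Quotient.mk_eq_zero, ← Submodule.mkQ_apply, map_sub, eu, ev, sub_self]
    have h2 : u ∈ (A ⊔ H) ⊓ (C ⊔ H) := by
      refine ⟨Submodule.mem_sup_left hu, ?_⟩
      have : u = v + (u - v) := by abel
      rw [this]
      exact Submodule.add_mem_sup hv h1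
    rw [← eu, Submodule.mkQ_apply, Submodule.Quotient.mk_eq_zero]
    exact h0 h2

omit [FiniteDimensional ℂ V] in
/-- conjugation -/
theorem px_stable (σ : V →ₛₗ[starRingEnd ℂ] V)
    (hσ : ∀ v i, Q.Z (σ v) i = (starRingEnd ℂ) (Q.Z v i)) {v : V} {c : ℂ} (hc : c ≠ 0)
    (hv : ∀ i, (c * Q.Z v i).im = 0) {A : Submodule ℂ V} (hA : v ∈ A) : σ v ∈ A := by
  have h1 : σ (c • v) = c • v := by
    apply Q.inj
    funext i
    rw [hσ, map_smul, Pi.smul_apply, smul_eq_mul]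
    exact Complex.conj_eq_iff_im.2 (hv i)
  rw [LinearMap.map_smulₛₗ] at h1
  have hc' : (starRingEnd ℂ) c ≠ 0 := (map_ne_zero _).2 hc
  have h2 : σ v = ((starRingEnd ℂ) c)⁻¹ • c • v := by
    rw [← h1, smul_smul, inv_mul_cancel₀ hc', one_smul]
  rw [h2]
  exact A.smul_mem _ (A.smul_mem _ hA)

section

variable (D : Q.Dims) {h s1 s2 s3 s4 : ℕ} (h13 : s1 + s3 = h) (h24 : s2 + s4 = h)
variable (c12 : s1 + s2 = h ∨ s1 + s2 + Q.e2 = h + Q.p)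
variable (c14 : s1 + s4 = h ∨ s1 + s4 + Q.e4 = h + Q.p)

include D h13 h24 c12 c14

theorem Sol4_transversal {H : Submodule ℂ V} (hH : H ∈ Q.Sol4 h s1 s2 s3 s4)
    (φ : H →ₗ[ℂ] V ⧸ H)
    (t1 : ∀ x : H, (x : V) ∈ Q.U1 → φ x ∈ Q.U1.map H.mkQ)
    (t2 : ∀ x : H, (x : V) ∈ Q.U2 → φ x ∈ Q.U2.map H.mkQ)
    (t3 : ∀ x : H, (x : V) ∈ Q.U3 → φ x ∈ Q.U3.map H.mkQ)
    (t4 : ∀ x : H, (x : V) ∈ Q.U4 → φ x ∈ Q.U4.map H.mkQ) : φ = 0 := by
  obtain ⟨S, hS, hc, e12, e14, e32, e34, hStd⟩ := Sol4_forced D h13 h24 c12 c14 hH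
  obtain ⟨k0, k1, k2, k3, k4⟩ := hH
  obtain ⟨B, d1, d2, d3, d4⟩ := bal_of h13 h24 k0 k1 k2 k3 k4
  have t12 := finrank_U12 D
  have t14 := finrank_U14 D
  have t32 := finrank_U32 D
  have t34 := finrank_U34 D
  have hs := Q.hsum
  have hpq := Q.hpq
  have hqN := Q.hqN
  have D0 := D.dV
  have D1 := D.d1
  have D2 := D.d2
  have D3 := D.d3
  have D4 := D.d4
  refine B.transversal D φ t1 t2 t3 t4 (kill_pair t1 t2 ?_) (kill_pair t1 t4 ?_)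
    (kill_pair t3 t2 ?_) (kill_pair t3 t4 ?_)
  · exact pair_disj e12 (fun h1 h2 => by omega)
  · exact pair_disj e14 (fun h1 h2 => by omega)
  · exact pair_disj e32 (fun h1 h2 => by omega)
  · exact pair_disj e34 (fun h1 h2 => by omega)

theorem Sol4_real (σ : V →ₛₗ[starRingEnd ℂ] V)
    (hσ : ∀ v i, Q.Z (σ v) i = (starRingEnd ℂ) (Q.Z v i))
    (r1 : ∀ v ∈ Q.U1, σ v ∈ Q.U1) (r2 : ∀ v ∈ Q.U2, σ v ∈ Q.U2)
    (r3 : ∀ v ∈ Q.U3, σ v ∈ Q.U3) (r4 : ∀ v ∈ Q.U4, σ v ∈ Q.U4)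
    {H : Submodule ℂ V} (hH : H ∈ Q.Sol4 h s1 s2 s3 s4) : ∀ v ∈ H, σ v ∈ H := by
  obtain ⟨S, hS, hc, e12, e14, e32, e34, hStd⟩ := Sol4_forced D h13 h24 c12 c14 hH
  have hreal := fun μ : Q.Lam => Q.eig_real (Q.px_mem μ) (Q.py_mem μ) (Q.pxy2 μ) (Q.pxy4 μ) μ.2.1
    (Or.inl (Q.px_ne μ))
  have hX : XS S ≤ (XS S).comap σ := by
    rw [XS, Submodule.span_le]
    rintro _ ⟨μ, hμ, rfl⟩
    obtain ⟨-, c, hc, hcx, -⟩ := hreal μ
    exact px_stable σ hσ hc hcx (px_mem_XS hμ)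
  have hY : YS S ≤ (YS S).comap σ := by
    rw [YS, Submodule.span_le]
    rintro _ ⟨μ, hμ, rfl⟩
    obtain ⟨-, c, hc, -, hcy⟩ := hreal μ
    exact px_stable σ hσ hc hcy (py_mem_YS hμ)
  have hfo : ∀ (c : Prop) {A C : Submodule ℂ V}, (∀ v ∈ A, σ v ∈ A) → (∀ v ∈ C, σ v ∈ C) →
      fo c (A ⊓ C) ≤ (fo c (A ⊓ C)).comap σ := by
    intro c A C hA hC
    by_cases h0 : c
    · rw [fo_pos h0]; exact bot_le
    · rw [fo_neg h0]
      rintro v ⟨hv1, hv2⟩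
      exact ⟨hA v hv1, hC v hv2⟩
  have hsup : ∀ {A C : Submodule ℂ V}, A ≤ A.comap σ → C ≤ C.comap σ → A ⊔ C ≤ (A ⊔ C).comap σ :=
    fun hA hC => sup_le (hA.trans (Submodule.comap_mono le_sup_left))
      (hC.trans (Submodule.comap_mono le_sup_right))
  have hall := hsup (hsup (hsup hX (hfo (s1 + s2 = h) r1 r2)) (hfo (s1 + s4 = h) r1 r4))
    (hsup (hsup hY (hfo (s1 + s4 = h) r3 r2)) (hfo (s1 + s2 = h) r3 r4))
  rw [← hStd]
  exact fun v hv => hall hv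

end

end Quad

end Pool.Agent.Helper80.Sec
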