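import Pool.Agent.Helper80.Sec.QuadMain
import Pool.Agent.Helper80.Sec.EigCount

/-!
The number of eigenpairs of a quadruple.
-/

namespace Pool.Agent.Helper80.Sec

open Module

namespace Quad

variable {V : Type*} [AddCommGroup V] [Module ℂ V] (Q : Quad V)

/-- the pairs `(x, y)` with `x + y ∈ U2` -/
noncomputable def PW : Submodule ℂ (Q.U1 × Q.U3) :=
  LinearMap.ker (Q.U2.mkQ.comp (Q.U1.subtype.coprod Q.U3.subtype))

theorem mem_PW {w : Q.U1 × Q.U3} : w ∈ Q.PW ↔ (w.1 : V) + (w.2 : V) ∈ Q.U2 := by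
  rw [PW, LinearMap.mem_ker, LinearMap.comp_apply, Submodule.mkQ_apply,
    Submodule.Quotient.mk_eq_zero]
  simp

/-- first component modulo `U4` -/
noncomputable def mB : ↥Q.PW →ₗ[ℂ] V ⧸ Q.U4 :=
  Q.U4.mkQ.comp (Q.U3.subtype.comp ((LinearMap.snd ℂ _ _).comp Q.PW.subtype))

/-- the map `x + i y` modulo `U4` -/
noncomputable def mG : ↥Q.PW →ₗ[ℂ] V ⧸ Q.U4 :=
  Q.U4.mkQ.comp ((Q.U1.subtype.coprod (Complex.I • Q.U3.subtype)).comp Q.PW.subtype)

theorem mB_apply (w : ↥Q.PW) : Q.mB w = Q.U4.mkQ ((w : Q.U1 × Q.U3).2 : V) := rfl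

theorem mG_apply (w : ↥Q.PW) : Q.mG w =
    Q.U4.mkQ (((w : Q.U1 × Q.U3).1 : V) + Complex.I • ((w : Q.U1 × Q.U3).2 : V)) := by
  simp [mG]

theorem mG_injective : Function.Injective Q.mG := by
  rw [← LinearMap.ker_eq_bot, LinearMap.ker_eq_bot']
  intro w hw
  rw [mG_apply, Submodule.mkQ_apply, Submodule.Quotient.mk_eq_zero] at hw
  by_contra hne
  have h0 : ((w : Q.U1 × Q.U3).1 : V) ≠ 0 ∨ ((w : Q.U1 × Q.U3).2 : V) ≠ 0 := by
    by_contra hcon
    push Not at hcon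
    exact hne (Subtype.ext (Prod.ext (Subtype.ext hcon.1) (Subtype.ext hcon.2)))
  obtain ⟨him, -⟩ := Q.eig_real (w : Q.U1 × Q.U3).1.2 (w : Q.U1 × Q.U3).2.2 (Q.mem_PW.1 w.2) hw
    Complex.I_ne_zero h0
  simp at him

variable [FiniteDimensional ℂ V]

/-- the dimensions are the expected ones -/
structure Dims : Prop where
  dV : finrank ℂ V = Q.N
  d1 : finrank ℂ Q.U1 = Q.p
  d2 : finrank ℂ Q.U2 + Q.e2 = Q.N
  d3 : finrank ℂ Q.U3 + Q.q = Q.N
  d4 : finrank ℂ Q.U4 + Q.e4 = Q.N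

variable {Q} (D : Q.Dims)

include D

theorem finrank_PW : finrank ℂ ↥Q.PW = Q.e4 := by
  have h1 := LinearMap.finrank_range_add_finrank_ker
    (Q.U2.mkQ.comp (Q.U1.subtype.coprod Q.U3.subtype))
  rw [finrank_prod] at h1
  have h2 : finrank ℂ ↥(LinearMap.range (Q.U2.mkQ.comp (Q.U1.subtype.coprod Q.U3.subtype))) ≤
      finrank ℂ (V ⧸ Q.U2) := Submodule.finrank_le _
  have h3 := Submodule.finrank_quotient_add_finrank Q.U2
  have h4 := LinearMap.finrank_le_finrank_of_injective Q.mG_injective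
  have h5 := Submodule.finrank_quotient_add_finrank Q.U4
  have h6 : finrank ℂ ↥(LinearMap.ker (Q.U2.mkQ.comp (Q.U1.subtype.coprod Q.U3.subtype))) =
      finrank ℂ ↥Q.PW := rfl
  have := D.dV
  have := D.d1
  have := D.d2
  have := D.d3
  have := D.d4
  have := Q.hsum
  have := Q.hpq
  have := Q.hqN
  omega

/-- `x + i y` is an isomorphism -/
noncomputable def eG : ↥Q.PW ≃ₗ[ℂ] V ⧸ Q.U4 :=
  LinearEquiv.ofBijective Q.mG ⟨Q.mG_injective,
    (LinearMap.injective_iff_surjective_of_finrank_eq_finrank (by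
      have h5 := Submodule.finrank_quotient_add_finrank Q.U4
      have := D.dV
      have := D.d4
      rw [finrank_PW D]
      omega)).1 Q.mG_injective⟩

/-- the operator of the relation -/
noncomputable def opS : Module.End ℂ ↥Q.PW := (eG D).symm.toLinearMap.comp Q.mB

theorem mG_opS (w : ↥Q.PW) : Q.mG (opS D w) = Q.mB w := (eG D).apply_symm_apply _

theorem opS_eq {σ : ℂ} {w w' : ↥Q.PW} : opS D w = σ • w + w' ↔
    (1 - Complex.I * σ) • ((w : Q.U1 × Q.U3).2 : V) - σ • ((w : Q.U1 × Q.U3).1 : V) -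
      (((w' : Q.U1 × Q.U3).1 : V) + Complex.I • ((w' : Q.U1 × Q.U3).2 : V)) ∈ Q.U4 := by
  constructor
  · intro h
    have h1 := mG_opS D w
    rw [h, mG_apply, mB_apply] at h1
    rw [← Submodule.Quotient.mk_eq_zero, ← Submodule.mkQ_apply]
    have h2 : (1 - Complex.I * σ) • ((w : Q.U1 × Q.U3).2 : V) - σ • ((w : Q.U1 × Q.U3).1 : V) -
      (((w' : Q.U1 × Q.U3).1 : V) + Complex.I • ((w' : Q.U1 × Q.U3).2 : V)) =
      ((w : Q.U1 × Q.U3).2 : V) - ((((σ • w + w' : ↥Q.PW) : Q.U1 × Q.U3).1 : V) +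
        Complex.I • (((σ • w + w' : ↥Q.PW) : Q.U1 × Q.U3).2 : V)) := by
      simp only [Submodule.coe_add, Submodule.coe_smul, Prod.fst_add, Prod.snd_add,
        Prod.smul_fst, Prod.smul_snd, smul_add, sub_smul, one_smul, mul_smul]
      abel
    rw [h2, map_sub, h1, sub_self]
  · intro h
    apply Q.mG_injective
    rw [mG_opS, mG_apply, mB_apply, ← sub_eq_zero, ← map_sub, Submodule.mkQ_apply,
      Submodule.Quotient.mk_eq_zero]
    have h2 : (1 - Complex.I * σ) • ((w : Q.U1 × Q.U3).2 : V) - σ • ((w : Q.U1 × Q.U3).1 : V) -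
      (((w' : Q.U1 × Q.U3).1 : V) + Complex.I • ((w' : Q.U1 × Q.U3).2 : V)) =
      ((w : Q.U1 × Q.U3).2 : V) - ((((σ • w + w' : ↥Q.PW) : Q.U1 × Q.U3).1 : V) +
        Complex.I • (((σ • w + w' : ↥Q.PW) : Q.U1 × Q.U3).2 : V)) := by
      simp only [Submodule.coe_add, Submodule.coe_smul, Prod.fst_add, Prod.snd_add,
        Prod.smul_fst, Prod.smul_snd, smul_add, sub_smul, one_smul, mul_smul]
      abel
    rwa [h2] at h

theorem opS_eig {σ : ℂ} {w : ↥Q.PW} : opS D w = σ • w ↔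
    (1 - Complex.I * σ) • ((w : Q.U1 × Q.U3).2 : V) - σ • ((w : Q.U1 × Q.U3).1 : V) ∈ Q.U4 := by
  have := opS_eq D (σ := σ) (w := w) (w' := 0)
  simpa using this

omit D [FiniteDimensional ℂ V] in
theorem pw_eq_zero {w : ↥Q.PW} (h1 : ((w : Q.U1 × Q.U3).1 : V) = 0)
    (h2 : ((w : Q.U1 × Q.U3).2 : V) = 0) : w = 0 :=
  Subtype.ext (Prod.ext (Subtype.ext h1) (Subtype.ext h2))

theorem opS_no_jordan (σ : ℂ) (w : ↥Q.PW)
    (h : opS D (opS D w - σ • w) = σ • (opS D w - σ • w)) : opS D w - σ • w = 0 := by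
  set w' := opS D w - σ • w with hw'
  have e1 : opS D w = σ • w + w' := by rw [hw']; abel
  rw [opS_eq] at e1
  rw [opS_eig] at h
  have x1 := (w : Q.U1 × Q.U3).1.2
  have y1 := (w : Q.U1 × Q.U3).2.2
  have x2 := (w' : Q.U1 × Q.U3).1.2
  have y2 := (w' : Q.U1 × Q.U3).2.2
  have m1 := Q.mem_PW.1 w.2
  have m2 := Q.mem_PW.1 w'.2
  set x := ((w : Q.U1 × Q.U3).1 : V) with hx
  set y := ((w : Q.U1 × Q.U3).2 : V) with hy
  set x' := ((w' : Q.U1 × Q.U3).1 : V) with hx'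
  set y' := ((w' : Q.U1 × Q.U3).2 : V) with hy'
  by_cases hσ : σ = 0
  · subst hσ
    simp only [mul_zero, sub_zero, one_smul, zero_smul] at h e1
    have hy0 := Q.G4 x2 h y2 m2
    rw [hy0, smul_zero, add_zero] at e1
    rw [hy0, add_zero] at m2
    have hx0 := Q.G1 (Q.U1.neg_mem x2) (Q.U2.neg_mem m2) y1 (by
      have : -x' + y = y - x' := by abel
      rw [this]; exact e1)
    exact pw_eq_zero (neg_eq_zero.1 hx0) hy0
  by_cases hσ2 : 1 - Complex.I * σ = 0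
  · rw [hσ2, zero_smul, zero_sub] at h e1
    have hx4 : x' ∈ Q.U4 := by
      have := Q.U4.smul_mem (-σ⁻¹) h
      rwa [smul_neg, neg_smul, neg_neg, smul_smul, inv_mul_cancel₀ hσ, one_smul] at this
    have hx0 := Q.G2 x2 hx4 y2 m2
    rw [hx0, zero_add] at m2 e1
    have hI : σ = -Complex.I := by
      have h3 : Complex.I * σ = 1 := (sub_eq_zero.1 hσ2).symm
      calc σ = -(Complex.I * Complex.I) * σ := by rw [Complex.I_mul_I]; ring
        _ = -Complex.I * (Complex.I * σ) := by ring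
        _ = -Complex.I := by rw [h3, mul_one]
    have e2 : x + -y' ∈ Q.U4 := by
      have := Q.U4.smul_mem (-Complex.I) e1
      have e3 : -Complex.I • (-(σ • x) - Complex.I • y') = x + -y' := by
        have e4 : -Complex.I • (-((-Complex.I) • x) - Complex.I • y') =
            (-(Complex.I * Complex.I)) • x + (Complex.I * Complex.I) • y' := by module
        rw [hI, e4, Complex.I_mul_I]
        module
      rwa [e3] at this
    have hy0 := Q.G3 x1 (Q.U2.neg_mem m2) (Q.U3.neg_mem y2) e2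
    exact pw_eq_zero hx0 (neg_eq_zero.1 hy0)
  · by_contra hw0
    set μ : ℂ := -(1 - Complex.I * σ) / σ with hμ
    have hμ0 : μ ≠ 0 := div_ne_zero (neg_ne_zero.2 hσ2) hσ
    have hμσ : -σ⁻¹ * (1 - Complex.I * σ) = μ := by rw [hμ]; field_simp
    have hσσ : -σ⁻¹ * (-σ) = 1 := by field_simp
    have k1 : x' + μ • y' ∈ Q.U4 := by
      have := Q.U4.smul_mem (-σ⁻¹) h
      have e2 : -σ⁻¹ • ((1 - Complex.I * σ) • y' - σ • x') =
          (-σ⁻¹ * (-σ)) • x' + (-σ⁻¹ * (1 - Complex.I * σ)) • y' := by module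
      rwa [e2, hμσ, hσσ, one_smul] at this
    have hIμ : Complex.I - μ = σ⁻¹ := by
      rw [hμ]; field_simp; ring
    have k2 : x + μ • y + (σ⁻¹ * σ⁻¹) • y' ∈ Q.U4 := by
      have h3 := Q.U4.sub_mem (Q.U4.smul_mem (-σ⁻¹) e1) (Q.U4.smul_mem σ⁻¹ k1)
      have e2 : -σ⁻¹ • ((1 - Complex.I * σ) • y - σ • x - (x' + Complex.I • y')) -
          σ⁻¹ • (x' + μ • y') =
          (-σ⁻¹ * (-σ)) • x + (-σ⁻¹ * (1 - Complex.I * σ)) • y +
            (σ⁻¹ * (Complex.I - μ)) • y' := by module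
      rwa [e2, hμσ, hσσ, one_smul, hIμ] at h3
    set κ : ℂ := σ⁻¹ * σ⁻¹ with hκ
    have hκ0 : κ ≠ 0 := mul_ne_zero (inv_ne_zero hσ) (inv_ne_zero hσ)
    have hne : x' ≠ 0 ∨ y' ≠ 0 := by
      by_contra hcon
      push Not at hcon
      exact hw0 (pw_eq_zero hcon.1 hcon.2)
    refine Q.no_jordan (x := κ • x') (y := κ • y') (X := x) (Y := y) (μ := μ)
      (Q.U1.smul_mem _ x2) (Q.U3.smul_mem _ y2) ?_ ?_ hμ0 ?_ x1 y1 m1 k2
    · rw [← smul_add]; exact Q.U2.smul_mem _ m2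
    · rw [smul_comm, ← smul_add]; exact Q.U4.smul_mem _ k1
    · rcases hne with h3 | h3
      · exact Or.inl (smul_ne_zero hκ0 h3)
      · exact Or.inr (smul_ne_zero hκ0 h3)

theorem iSup_eig_opS : ⨆ σ : ℂ, (opS D).eigenspace σ = ⊤ :=
  iSup_eigenspace_eq_top (opS_no_jordan D)

omit D in
/-- the spectrum of the quadruple -/
def Lam (Q : Quad V) : Set ℂ := {μ | μ ≠ 0 ∧ ∃ x ∈ Q.U1, ∃ y ∈ Q.U3, (x ≠ 0 ∨ y ≠ 0) ∧
  x + y ∈ Q.U2 ∧ x + μ • y ∈ Q.U4}

omit D [FiniteDimensional ℂ V] in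
theorem eig_iff {σ : ℂ} (hσ : σ ≠ 0) (x y : V) :
    (1 - Complex.I * σ) • y - σ • x ∈ Q.U4 ↔ x + (Complex.I - σ⁻¹) • y ∈ Q.U4 := by
  have hσσ : -σ⁻¹ * (-σ) = 1 := by field_simp
  have hμσ : -σ⁻¹ * (1 - Complex.I * σ) = Complex.I - σ⁻¹ := by field_simp; ring
  have h2 : -σ * (Complex.I - σ⁻¹) = 1 - Complex.I * σ := by field_simp; ring
  constructor
  · intro h
    have := Q.U4.smul_mem (-σ⁻¹) h
    have e2 : -σ⁻¹ • ((1 - Complex.I * σ) • y - σ • x) =
        (-σ⁻¹ * (-σ)) • x + (-σ⁻¹ * (1 - Complex.I * σ)) • y := by module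
    rwa [e2, hμσ, hσσ, one_smul] at this
  · intro h
    have := Q.U4.smul_mem (-σ) h
    have e2 : -σ • (x + (Complex.I - σ⁻¹) • y) =
        (-σ * (Complex.I - σ⁻¹)) • y - σ • x := by module
    rwa [e2, h2] at this

theorem finrank_simple {σ : ℂ} (h0 : σ ≠ 0) (hI : σ ≠ -Complex.I)
    (h : (opS D).HasEigenvalue σ) : finrank ℂ ↥((opS D).eigenspace σ) = 1 := by
  obtain ⟨w, hw⟩ := h.exists_hasEigenvector
  have hw1 := Module.End.mem_eigenspace_iff.1 hw.1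
  rw [opS_eig, eig_iff h0] at hw1
  have hμ0 : Complex.I - σ⁻¹ ≠ 0 := by
    intro h1
    apply hI
    have h2 : σ⁻¹ = Complex.I := (sub_eq_zero.1 h1).symm
    rw [← inv_inv σ, h2, Complex.inv_I]
  have hne : ((w : Q.U1 × Q.U3).1 : V) ≠ 0 ∨ ((w : Q.U1 × Q.U3).2 : V) ≠ 0 := by
    by_contra hcon
    push Not at hcon
    exact hw.2 (pw_eq_zero hcon.1 hcon.2)
  rw [finrank_eq_one_iff_of_nonzero' ⟨w, hw.1⟩ (fun hc => hw.2 (congrArg Subtype.val hc))]
  rintro ⟨v, hv⟩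
  have hv1 := Module.End.mem_eigenspace_iff.1 hv
  rw [opS_eig, eig_iff h0] at hv1
  obtain ⟨t, ht1, ht2⟩ := Q.eig_unique (w : Q.U1 × Q.U3).1.2 (w : Q.U1 × Q.U3).2.2
    (Q.mem_PW.1 w.2) hw1 hμ0 hne (v : Q.U1 × Q.U3).1.2 (v : Q.U1 × Q.U3).2.2
    (Q.mem_PW.1 v.2) hv1
  refine ⟨t, ?_⟩
  apply Subtype.ext
  show t • w = v
  refine Subtype.ext (Prod.ext (Subtype.ext ?_) (Subtype.ext ?_))
  · exact ht1.symm
  · exact ht2.symm

theorem finrank_eig_zero : finrank ℂ ↥((opS D).eigenspace 0) = finrank ℂ ↥(Q.U1 ⊓ Q.U2) := by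
  have hy : ∀ w ∈ (opS D).eigenspace 0, ((w : Q.U1 × Q.U3).2 : V) = 0 := by
    intro w hw
    rw [Module.End.mem_eigenspace_iff, opS_eig] at hw
    simp only [mul_zero, sub_zero, one_smul, zero_smul] at hw
    exact Q.G4 (w : Q.U1 × Q.U3).1.2 hw (w : Q.U1 × Q.U3).2.2 (Q.mem_PW.1 w.2)
  let f : ↥((opS D).eigenspace 0) →ₗ[ℂ] V :=
    Q.U1.subtype.comp ((LinearMap.fst ℂ _ _).comp (Q.PW.subtype.comp
      ((opS D).eigenspace 0).subtype))
  have hf : ∀ w, f w = (((w : ↥Q.PW) : Q.U1 × Q.U3).1 : V) := fun w => rfl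
  have hinj : Function.Injective f := by
    intro a b hab
    exact Subtype.ext (Subtype.ext (Prod.ext (Subtype.ext hab)
      (Subtype.ext ((hy a a.2).trans (hy b b.2).symm))))
  have hr : LinearMap.range f = Q.U1 ⊓ Q.U2 := by
    apply le_antisymm
    · rintro _ ⟨w, rfl⟩
      refine ⟨((w : ↥Q.PW) : Q.U1 × Q.U3).1.2, ?_⟩
      have h1 := Q.mem_PW.1 (w : ↥Q.PW).2
      rw [hy w w.2, add_zero] at h1
      exact h1
    · rintro v ⟨hv1, hv2⟩
      have hm : ((⟨v, hv1⟩, 0) : Q.U1 × Q.U3) ∈ Q.PW := by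
        rw [mem_PW]; simpa using hv2
      refine ⟨⟨⟨(⟨v, hv1⟩, 0), hm⟩, ?_⟩, rfl⟩
      rw [Module.End.mem_eigenspace_iff, opS_eig]
      simp
  rw [← hr, LinearMap.finrank_range_of_inj hinj]

theorem finrank_eig_I : finrank ℂ ↥((opS D).eigenspace (-Complex.I)) =
    finrank ℂ ↥(Q.U3 ⊓ Q.U2) := by
  have hI : (1 : ℂ) - Complex.I * -Complex.I = 0 := by
    rw [mul_neg, Complex.I_mul_I]; ring
  have hx : ∀ w ∈ (opS D).eigenspace (-Complex.I), ((w : Q.U1 × Q.U3).1 : V) = 0 := by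
    intro w hw
    rw [Module.End.mem_eigenspace_iff, opS_eig, hI, zero_smul, zero_sub, neg_smul, neg_neg] at hw
    have h4 := Q.U4.smul_mem (-Complex.I) hw
    rw [smul_smul] at h4
    have : -Complex.I * Complex.I = 1 := by rw [neg_mul, Complex.I_mul_I]; ring
    rw [this, one_smul] at h4
    exact Q.G2 (w : Q.U1 × Q.U3).1.2 h4 (w : Q.U1 × Q.U3).2.2 (Q.mem_PW.1 w.2)
  let f : ↥((opS D).eigenspace (-Complex.I)) →ₗ[ℂ] V :=
    Q.U3.subtype.comp ((LinearMap.snd ℂ _ _).comp (Q.PW.subtype.comp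
      ((opS D).eigenspace (-Complex.I)).subtype))
  have hinj : Function.Injective f := by
    intro a b hab
    exact Subtype.ext (Subtype.ext (Prod.ext
      (Subtype.ext ((hx a a.2).trans (hx b b.2).symm)) (Subtype.ext hab)))
  have hr : LinearMap.range f = Q.U3 ⊓ Q.U2 := by
    apply le_antisymm
    · rintro _ ⟨w, rfl⟩
      refine ⟨((w : ↥Q.PW) : Q.U1 × Q.U3).2.2, ?_⟩
      have h1 := Q.mem_PW.1 (w : ↥Q.PW).2
      rw [hx w w.2, zero_add] at h1
      exact h1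
    · rintro v ⟨hv1, hv2⟩
      have hm : ((0, ⟨v, hv1⟩) : Q.U1 × Q.U3) ∈ Q.PW := by
        rw [mem_PW]; simpa using hv2
      refine ⟨⟨⟨(0, ⟨v, hv1⟩), hm⟩, ?_⟩, rfl⟩
      rw [Module.End.mem_eigenspace_iff, opS_eig, hI]
      simp
  rw [← hr, LinearMap.finrank_range_of_inj hinj]

omit D in
/-- spaces of vectors with many sign changes are small -/
theorem finrank_le_of_alt {R : Submodule ℂ V} {lo hi e : ℕ}
    (hs : ∀ v ∈ R, ∀ i, (i < lo ∨ hi ≤ i) → Q.Z v i = 0)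
    (ha : ∀ v ∈ R, ∀ c : ℂ, Q.rz c v ≠ 0 → Alt (Q.rz c v) (e + 1)) :
    finrank ℂ R ≤ hi - lo - e := by
  by_contra hcon
  rw [not_le] at hcon
  let κ : R →ₗ[ℂ] (Fin (hi - lo - e) → ℂ) :=
    { toFun := fun v i => Q.Z v (lo + e + i)
      map_add' := by intro v w; funext i; simp
      map_smul' := by intro c v; funext i; simp }
  have hker : LinearMap.ker κ ≠ ⊥ := by
    apply LinearMap.ker_ne_bot_of_finrank_lt
    rw [finrank_fin_fun]
    exact hcon
  obtain ⟨v, hv, hv0⟩ := Submodule.exists_mem_ne_zero_of_ne_bot hker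
  have hv0' : (v : V) ≠ 0 := fun h => hv0 (Subtype.ext h)
  obtain ⟨c, _, hc⟩ := Q.exists_rz_ne hv0'
  have h1 := ha v v.2 c hc
  have hz : ∀ i, (i < lo ∨ min hi (lo + e) ≤ i) → Q.rz c (v : V) i = 0 := by
    intro i hi'
    have h2 : Q.Z (v : V) i = 0 := by
      rcases hi' with h | h
      · exact hs v v.2 i (Or.inl h)
      · rcases Nat.lt_or_ge i hi with h3 | h3
        · have h4 : lo + e ≤ i := by omega
          have h5 := congrFun (LinearMap.mem_ker.1 hv) ⟨i - (lo + e), by omega⟩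
          have h6 : Q.Z (v : V) (lo + e + (i - (lo + e))) = 0 := h5
          rwa [Nat.add_sub_cancel' h4] at h6
        · exact hs v v.2 i (Or.inr h3)
    simp [rz, h2]
  have h2 := h1.le_of_supp hz
  omega

theorem finrank_U12 : finrank ℂ ↥(Q.U1 ⊓ Q.U2) = Q.p - Q.e2 := by
  apply le_antisymm
  · have := finrank_le_of_alt (Q := Q) (R := Q.U1 ⊓ Q.U2) (lo := 0) (hi := Q.p) (e := Q.e2)
      (fun v hv i hi => Q.h1 v hv.1 i (by omega)) (fun v hv c hc => Q.rz_U2 hv.2 hc)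
    omega
  · have h1 := Submodule.finrank_sup_add_finrank_inf_eq Q.U1 Q.U2
    have h2 : finrank ℂ ↥(Q.U1 ⊔ Q.U2) ≤ finrank ℂ V := Submodule.finrank_le _
    have := D.dV
    have := D.d1
    have := D.d2
    omega

theorem finrank_U32 : finrank ℂ ↥(Q.U3 ⊓ Q.U2) = (Q.N - Q.q) - Q.e2 := by
  apply le_antisymm
  · have := finrank_le_of_alt (Q := Q) (R := Q.U3 ⊓ Q.U2) (lo := Q.q) (hi := Q.N) (e := Q.e2)
      (fun v hv i hi => Q.h3 v hv.1 i hi) (fun v hv c hc => Q.rz_U2 hv.2 hc)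
    omega
  · have h1 := Submodule.finrank_sup_add_finrank_inf_eq Q.U3 Q.U2
    have h2 : finrank ℂ ↥(Q.U3 ⊔ Q.U2) ≤ finrank ℂ V := Submodule.finrank_le _
    have := D.dV
    have := D.d3
    have := D.d2
    omega

theorem Lam_eq : Q.Lam = (fun σ : ℂ => Complex.I - σ⁻¹) ''
    {σ | (opS D).HasEigenvalue σ ∧ σ ≠ 0 ∧ σ ≠ -Complex.I} := by
  ext μ
  constructor
  · rintro ⟨hμ0, x, hx, y, hy, hne, m2, m4⟩
    obtain ⟨him, -⟩ := Q.eig_real hx hy m2 m4 hμ0 hne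
    have hμI : Complex.I - μ ≠ 0 := by
      intro h
      have : μ = Complex.I := (sub_eq_zero.1 h).symm
      rw [this] at him
      simp at him
    have hσ0 : (Complex.I - μ)⁻¹ ≠ 0 := inv_ne_zero hμI
    refine ⟨(Complex.I - μ)⁻¹, ⟨?_, hσ0, ?_⟩, ?_⟩
    · have hm : ((⟨x, hx⟩, ⟨y, hy⟩) : Q.U1 × Q.U3) ∈ Q.PW := Q.mem_PW.2 m2
      refine Module.End.hasEigenvalue_of_hasEigenvector
        (x := (⟨(⟨x, hx⟩, ⟨y, hy⟩), hm⟩ : ↥Q.PW)) ⟨?_, ?_⟩
      · rw [Module.End.mem_eigenspace_iff, opS_eig, eig_iff hσ0, inv_inv]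
        have : Complex.I - (Complex.I - μ) = μ := by ring
        rw [this]
        exact m4
      · intro h
        have h3 := congrArg Subtype.val h
        have h4 : x = 0 := congrArg (fun w : Q.U1 × Q.U3 => (w.1 : V)) h3
        have h5 : y = 0 := congrArg (fun w : Q.U1 × Q.U3 => (w.2 : V)) h3
        rcases hne with h6 | h6
        · exact h6 h4
        · exact h6 h5
    · intro h
      apply hμ0
      have h3 : Complex.I - μ = Complex.I := by
        rw [← inv_inv (Complex.I - μ), h, inv_neg, Complex.inv_I, neg_neg]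
      calc μ = Complex.I - (Complex.I - μ) := by ring
        _ = 0 := by rw [h3]; ring
    · show Complex.I - (Complex.I - μ)⁻¹⁻¹ = μ
      rw [inv_inv]; ring
  · rintro ⟨σ, ⟨hσ, h0, hσI⟩, rfl⟩
    obtain ⟨w, hw⟩ := hσ.exists_hasEigenvector
    have hw1 := Module.End.mem_eigenspace_iff.1 hw.1
    rw [opS_eig, eig_iff h0] at hw1
    refine ⟨?_, _, (w : Q.U1 × Q.U3).1.2, _, (w : Q.U1 × Q.U3).2.2, ?_, Q.mem_PW.1 w.2, hw1⟩
    · intro h3
      apply hσI
      have h4 : σ⁻¹ = Complex.I := (sub_eq_zero.1 h3).symm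
      rw [← inv_inv σ, h4, Complex.inv_I]
    · by_contra hcon
      push Not at hcon
      exact hw.2 (pw_eq_zero hcon.1 hcon.2)

theorem ncard_Lam : Q.Lam.ncard = min (min Q.p (Q.N - Q.q)) (min Q.e2 Q.e4) := by
  have hI : (0 : ℂ) ≠ -Complex.I := by
    intro h; exact Complex.I_ne_zero (neg_eq_zero.1 h.symm)
  have h1 := card_simple_eigenvalues (iSup_eig_opS D) hI
    (fun σ h0 h1 h2 => finrank_simple D h0 h1 h2)
  rw [finrank_eig_zero, finrank_eig_I, finrank_U12 D, finrank_U32 D, finrank_PW D] at h1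
  have h2 := Lam_eq D
  have h3 : Q.Lam.ncard =
      {σ | (opS D).HasEigenvalue σ ∧ σ ≠ 0 ∧ σ ≠ -Complex.I}.ncard := by
    rw [h2]
    apply Set.ncard_image_of_injective
    intro σ τ h
    have : σ⁻¹ = τ⁻¹ := by
      have h4 : Complex.I - σ⁻¹ = Complex.I - τ⁻¹ := h
      exact sub_right_injective h4
    exact inv_injective this
  rw [← h3] at h1
  have := Q.hsum
  have := Q.hpq
  have := Q.hqN
  omega

theorem finite_Lam : Q.Lam.Finite := by
  rw [Lam_eq D]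
  apply Set.Finite.image
  have h1 : {σ : ℂ | (opS D).HasEigenvalue σ}.Finite := (opS D).finite_hasEigenvalue
  exact h1.subset (fun σ hσ => hσ.1)

end Quad

end Pool.Agent.Helper80.Sec
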