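import Pool.Agent.Helper80.Sec.FlagA
import Pool.Agent.Helper80.Sec.FrameInf

/-!
From subspaces of a subspace `A` to subspaces of the whole space.
-/

namespace Pool.Agent.Helper80.Sec

open Module

section

variable {V : Type*} [AddCommGroup V] [Module ℂ V]

/-- descent of tangent vectors to a subspace -/
theorem transfer_sub {ι : Type*} {A H : Submodule ℂ V} (hHA : H ≤ A) (E : ι → Submodule ℂ V)
    (φ : H →ₗ[ℂ] V ⧸ H) (hφA : ∀ x, φ x ∈ A.map H.mkQ)
    (hφE : ∀ j, ∀ x : H, (x : V) ∈ E j → φ x ∈ (E j).map H.mkQ)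
    (key : ∀ ψ : ↥(H.comap A.subtype) →ₗ[ℂ] ↥A ⧸ (H.comap A.subtype),
      (∀ j, ∀ y : ↥(H.comap A.subtype), (y : ↥A) ∈ (E j).comap A.subtype →
        ψ y ∈ ((E j).comap A.subtype).map (H.comap A.subtype).mkQ) → ψ = 0) : φ = 0 := by
  -- `A / H → V / H`
  let q : (↥A ⧸ (H.comap A.subtype)) →ₗ[ℂ] V ⧸ H := (H.comap A.subtype).mapQ H A.subtype le_rfl
  have hq : ∀ a : ↥A, q ((H.comap A.subtype).mkQ a) = H.mkQ (a : V) := fun a => rfl
  have hqi : Function.Injective q := by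
    rw [← LinearMap.ker_eq_bot, LinearMap.ker_eq_bot']
    intro v hv
    obtain ⟨u, rfl⟩ := (H.comap A.subtype).mkQ_surjective v
    rw [hq, Submodule.mkQ_apply, Submodule.Quotient.mk_eq_zero] at hv
    rw [Submodule.mkQ_apply, Submodule.Quotient.mk_eq_zero]
    exact hv
  have hmem : ∀ x, φ x ∈ LinearMap.range q := by
    intro x
    obtain ⟨a, ha, hax⟩ := Submodule.mem_map.1 (hφA x)
    exact ⟨(H.comap A.subtype).mkQ ⟨a, ha⟩, hax⟩
  let e := LinearEquiv.ofInjective q hqi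
  let g : ↥(H.comap A.subtype) →ₗ[ℂ] H :=
    { toFun := fun y => ⟨((y : ↥A) : V), y.2⟩
      map_add' := fun x y => rfl
      map_smul' := fun c x => rfl }
  let ψ : ↥(H.comap A.subtype) →ₗ[ℂ] ↥A ⧸ (H.comap A.subtype) :=
    e.symm.toLinearMap.comp ((φ.comp g).codRestrict (LinearMap.range q) (fun y => hmem (g y)))
  have hψ : ∀ y, q (ψ y) = φ (g y) := by
    intro y
    have h1 : e (ψ y) = ⟨φ (g y), hmem (g y)⟩ := e.apply_symm_apply _
    exact congrArg Subtype.val h1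
  have hψ0 : ψ = 0 := by
    refine key ψ (fun j y hy => ?_)
    obtain ⟨u, hu, hux⟩ := Submodule.mem_map.1 (hφE j (g y) hy)
    obtain ⟨a, ha, hax⟩ := Submodule.mem_map.1 (hφA (g y))
    have h1 : u - a ∈ H := by
      rw [← Submodule.Quotient.mk_eq_zero, ← Submodule.mkQ_apply, map_sub, hux, hax, sub_self]
    have huA : u ∈ A := by
      have h2 : u = (u - a) + a := by abel
      rw [h2]
      exact A.add_mem (hHA h1) ha
    refine Submodule.mem_map.2 ⟨⟨u, huA⟩, hu, ?_⟩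
    apply hqi
    rw [hq, hψ]
    exact hux
  apply LinearMap.ext
  intro x
  have h1 := hψ ⟨⟨(x : V), hHA x.2⟩, x.2⟩
  rw [hψ0, LinearMap.zero_apply, map_zero] at h1
  rw [LinearMap.zero_apply]
  exact h1.symm

variable [FiniteDimensional ℂ V]

/-- four subspaces of a subspace -/
theorem good_sub {A : Submodule ℂ V} {σ : ↥A → ↥A} {k : ℕ} {r : Fin 4 → ℕ}
    {E : Fin 4 → Submodule ℂ V} {d : ℕ}
    (h : GoodV σ k r (fun j => (E j).comap A.subtype) d) :
    (∀ H : Submodule ℂ V, finrank ℂ H = k → H ≤ A → (∀ j, r j ≤ finrank ℂ ↥(H ⊓ E j)) →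
      (∀ v : ↥A, (v : V) ∈ H → ((σ v : ↥A) : V) ∈ H) ∧
      (∀ j, finrank ℂ ↥(H ⊓ E j) = r j) ∧
      ∀ φ : H →ₗ[ℂ] (V ⧸ H), (∀ x, φ x ∈ A.map H.mkQ) →
        (∀ j, ∀ x : H, (x : V) ∈ E j → φ x ∈ (E j).map H.mkQ) → φ = 0) ∧
    {H : Submodule ℂ V | finrank ℂ H = k ∧ H ≤ A ∧ ∀ j, r j ≤ finrank ℂ ↥(H ⊓ E j)}.encard =
      d := by
  have hfr : ∀ H : Submodule ℂ V, H ≤ A → ∀ j,
      finrank ℂ ↥(H.comap A.subtype ⊓ (E j).comap A.subtype) = finrank ℂ ↥(H ⊓ E j) := by
    intro H hH j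
    rw [← Submodule.comap_inf]
    exact finrank_comap_sub (inf_le_left.trans hH)
  obtain ⟨h1, h2⟩ := h
  constructor
  · intro H hk hHA hr
    obtain ⟨g1, g2, g3⟩ := h1 (H.comap A.subtype) (by rw [finrank_comap_sub hHA]; exact hk)
      (fun j => by rw [hfr H hHA]; exact hr j)
    refine ⟨fun v hv => g1 v hv, fun j => by rw [← hfr H hHA]; exact g2 j, fun φ hφA hφE => ?_⟩
    exact transfer_sub hHA E φ hφA hφE g3
  · have hset : {H : Submodule ℂ V | finrank ℂ H = k ∧ H ≤ A ∧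
        ∀ j, r j ≤ finrank ℂ ↥(H ⊓ E j)} =
        (fun G : Submodule ℂ ↥A => G.map A.subtype) '' {G | finrank ℂ G = k ∧
          ∀ j, r j ≤ finrank ℂ ↥(G ⊓ (E j).comap A.subtype)} := by
      ext H
      constructor
      · rintro ⟨k0, k1, k2⟩
        refine ⟨H.comap A.subtype, ⟨?_, fun j => ?_⟩, ?_⟩
        · rw [finrank_comap_sub k1]; exact k0
        · rw [hfr H k1]; exact k2 j
        · show (H.comap A.subtype).map A.subtype = H
          rw [Submodule.map_comap_subtype, inf_eq_right.2 k1]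
      · rintro ⟨G, ⟨k0, k1⟩, rfl⟩
        have hle : G.map A.subtype ≤ A := Submodule.map_subtype_le A G
        have hc : (G.map A.subtype).comap A.subtype = G :=
          Submodule.comap_map_eq_of_injective A.injective_subtype G
        refine ⟨?_, hle, fun j => ?_⟩
        · rw [← finrank_comap_sub hle, hc]; exact k0
        · rw [← hfr _ hle j, hc]; exact k1 j
    rw [hset, Function.Injective.encard_image, h2]
    exact Submodule.map_injective_of_injective A.injective_subtype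

end

end Pool.Agent.Helper80.Sec
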