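import Pool.Agent.Helper80.Sec.CountQ

/-!
Exchanging the second and the fourth subspace of a quadruple.
-/

namespace Pool.Agent.Helper80.Sec

open Module

/-- the twist on complex sequences -/
noncomputable def twC : (ℕ → ℂ) →ₗ[ℂ] (ℕ → ℂ) where
  toFun z := fun i => (-1) ^ i * z i
  map_add' := by intro x y; funext i; simp [mul_add]
  map_smul' := by intro c x; funext i; simp [mul_left_comm]

theorem twC_apply (z : ℕ → ℂ) (i : ℕ) : twC z i = (-1) ^ i * z i := rfl

theorem twC_inj : Function.Injective twC := by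
  intro x y h
  funext i
  have h1 := congrFun h i
  rw [twC_apply, twC_apply] at h1
  exact mul_left_cancel₀ (pow_ne_zero _ (by norm_num)) h1

theorem re_twC (z : ℕ → ℂ) : (fun i => (twC z i).re) = tw (fun i => (z i).re) := by
  funext i
  have h : ((-1 : ℂ) ^ i) = (((-1 : ℝ) ^ i : ℝ) : ℂ) := by push_cast; rfl
  rw [twC_apply, h, Complex.re_ofReal_mul]
  rfl

namespace Quad

variable {V : Type*} [AddCommGroup V] [Module ℂ V]

/-- exchange of `U2` and `U4` -/
noncomputable def swap (Q : Quad V) : Quad V where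
  Z := twC.comp Q.Z
  U1 := Q.U1
  U2 := Q.U4
  U3 := Q.U3
  U4 := Q.U2
  p := Q.p
  q := Q.q
  N := Q.N
  e2 := Q.e4
  e4 := Q.e2
  inj := twC_inj.comp Q.inj
  hpq := Q.hpq
  hqN := Q.hqN
  hsum := by have := Q.hsum; omega
  h1 := fun v hv i hi => by
    rw [LinearMap.comp_apply, twC_apply, Q.h1 v hv i hi, mul_zero]
  h3 := fun v hv i hi => by
    rw [LinearMap.comp_apply, twC_apply, Q.h3 v hv i hi, mul_zero]
  h2 := by
    intro v hv h
    have e : (fun i => ((twC.comp Q.Z) v i).re) = tw (fun i => (Q.Z v i).re) := re_twC _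
    rw [e] at h ⊢
    exact Q.h4 v hv (fun h0 => h (by rw [h0, tw_zero]))
  h4 := by
    intro v hv h
    have e : (fun i => ((twC.comp Q.Z) v i).re) = tw (fun i => (Q.Z v i).re) := re_twC _
    rw [e] at h ⊢
    rw [tw_tw]
    exact Q.h2 v hv (fun h0 => h (by rw [h0, tw_zero]))

variable {Q : Quad V} [FiniteDimensional ℂ V]

omit [FiniteDimensional ℂ V] in
theorem Dims.swap (D : Q.Dims) : Q.swap.Dims := ⟨D.dV, D.d1, D.d4, D.d3, D.d2⟩

theorem finrank_U14 (D : Q.Dims) : finrank ℂ ↥(Q.U1 ⊓ Q.U4) = Q.p - Q.e4 :=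
  finrank_U12 D.swap

theorem finrank_U34 (D : Q.Dims) : finrank ℂ ↥(Q.U3 ⊓ Q.U4) = (Q.N - Q.q) - Q.e4 :=
  finrank_U32 D.swap

end Quad

/-- image and kernel in a subspace -/
theorem finrank_map_add_inf {V V' : Type*} [AddCommGroup V] [Module ℂ V] [FiniteDimensional ℂ V]
    [AddCommGroup V'] [Module ℂ V'] (f : V →ₗ[ℂ] V') (M : Submodule ℂ V) :
    finrank ℂ ↥(M.map f) + finrank ℂ ↥(M ⊓ LinearMap.ker f) = finrank ℂ M := by
  have h1 := (f.domRestrict M).finrank_range_add_finrank_ker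
  rw [LinearMap.range_domRestrict, LinearMap.ker_domRestrict] at h1
  have h2 : finrank ℂ ↥((LinearMap.ker f).comap M.subtype) = finrank ℂ ↥(M ⊓ LinearMap.ker f) := by
    rw [(Submodule.equivMapOfInjective M.subtype M.injective_subtype _).finrank_eq,
      Submodule.map_comap_subtype]
  rw [h2] at h1
  exact h1

end Pool.Agent.Helper80.Sec
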